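import Mathlib

open Filter Topology RCLike
open scoped ENNReal

namespace Pool.Agent.R287.BP

universe u v

section lemmas

variable {𝕜 : Type} [RCLike 𝕜] {X : Type u} [NormedAddCommGroup X] [NormedSpace 𝕜 X]

/-- The pointwise problem in the coordinates of `X**`. -/
lemma scalar_lens {a a0 b : 𝕜} {ε2 s ε' : ℝ} (h1 : ‖a + b‖ ≤ 1) (h2 : ‖a - b‖ ≤ 1)
    (h0 : ‖a0‖ ≤ 1) (hd : ‖a0 - a‖ ≤ ε2) (hs : 0 < s) (hs1 : s ≤ 1) (hse : s ≤ ε')
    (hse2 : 2 * ε2 ≤ s * ε' ^ 2) : ∃ c : 𝕜, ‖c + a0‖ ≤ 1 ∧ ‖c - a0‖ ≤ 1 ∧ ‖c - b‖ ≤ ε' := by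
  have hpar := parallelogram_law_with_norm 𝕜 a b
  have hab : ‖a‖ ^ 2 + ‖b‖ ^ 2 ≤ 1 := by nlinarith [norm_nonneg (a + b), norm_nonneg (a - b)]
  have hb1 : ‖b‖ ≤ 1 := by nlinarith [norm_nonneg b, sq_nonneg ‖a‖]
  by_cases hb : 2 * ε2 ≤ s * ‖b‖ ^ 2
  · have ha : ‖a‖ ≤ 1 - ‖b‖ ^ 2 / 2 := by
      nlinarith [norm_nonneg a, sq_nonneg (‖a‖ - 1), norm_nonneg b]
    have hn1 : ‖((1 - s : ℝ) : 𝕜)‖ = 1 - s := by
      rw [RCLike.norm_ofReal, abs_of_nonneg (by linarith)]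
    have hn2 : ‖((s : ℝ) : 𝕜)‖ = s := by rw [RCLike.norm_ofReal, abs_of_nonneg hs.le]
    refine ⟨((1 - s : ℝ) : 𝕜) * b, ?_, ?_, ?_⟩
    · have e : ((1 - s : ℝ) : 𝕜) * b + a0 =
          ((1 - s : ℝ) : 𝕜) * (a + b) + (a0 - a) + ((s : ℝ) : 𝕜) * a := by
        push_cast; ring
      rw [e]
      calc ‖((1 - s : ℝ) : 𝕜) * (a + b) + (a0 - a) + ((s : ℝ) : 𝕜) * a‖
          ≤ ‖((1 - s : ℝ) : 𝕜) * (a + b)‖ + ‖a0 - a‖ + ‖((s : ℝ) : 𝕜) * a‖ := norm_add₃_le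
        _ ≤ (1 - s) * 1 + ε2 + s * (1 - ‖b‖ ^ 2 / 2) := by
          rw [norm_mul, norm_mul, hn1, hn2]
          have := mul_le_mul_of_nonneg_left h1 (by linarith : 0 ≤ 1 - s)
          have := mul_le_mul_of_nonneg_left ha hs.le
          linarith
        _ ≤ 1 := by nlinarith
    · have e : ((1 - s : ℝ) : 𝕜) * b - a0 =
          - (((1 - s : ℝ) : 𝕜) * (a - b) + (a0 - a) + ((s : ℝ) : 𝕜) * a) := by
        push_cast; ring
      rw [e, norm_neg]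
      calc ‖((1 - s : ℝ) : 𝕜) * (a - b) + (a0 - a) + ((s : ℝ) : 𝕜) * a‖
          ≤ ‖((1 - s : ℝ) : 𝕜) * (a - b)‖ + ‖a0 - a‖ + ‖((s : ℝ) : 𝕜) * a‖ := norm_add₃_le
        _ ≤ (1 - s) * 1 + ε2 + s * (1 - ‖b‖ ^ 2 / 2) := by
          rw [norm_mul, norm_mul, hn1, hn2]
          have := mul_le_mul_of_nonneg_left h2 (by linarith : 0 ≤ 1 - s)
          have := mul_le_mul_of_nonneg_left ha hs.le
          linarith
        _ ≤ 1 := by nlinarith
    · have e : ((1 - s : ℝ) : 𝕜) * b - b = - (((s : ℝ) : 𝕜) * b) := by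
        push_cast; ring
      rw [e, norm_neg, norm_mul, hn2]
      nlinarith
  · refine ⟨0, by simpa using h0, by simpa using h0, ?_⟩
    rw [zero_sub, norm_neg]
    push Not at hb
    have h3 : ‖b‖ ^ 2 < ε' ^ 2 := by nlinarith
    exact (abs_lt_of_sq_lt_sq' h3 (by linarith)).2.le

/-- For every scalar there is a unimodular scalar turning it into its modulus. -/
lemma exists_rot (w : 𝕜) : ∃ c : 𝕜, ‖c‖ = 1 ∧ c * w = (‖w‖ : 𝕜) := by
  by_cases hw : w = 0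
  · exact ⟨1, by simp, by simp [hw]⟩
  · have hn : (‖w‖ : 𝕜) ≠ 0 := by simpa using hw
    refine ⟨(‖w‖ : 𝕜) * w⁻¹, ?_, ?_⟩
    · rw [norm_mul, norm_inv, RCLike.norm_ofReal, abs_norm]
      exact mul_inv_cancel₀ (by simpa using hw)
    · rw [mul_assoc, inv_mul_cancel₀ hw, mul_one]

/-- The norm of a functional from its real parts on an open ball. -/
lemma mul_norm_le {h : X →L[𝕜] 𝕜} {r C : ℝ} (hr : 0 < r)
    (hC : ∀ x, ‖x‖ < r → re (h x) ≤ C) : r * ‖h‖ ≤ C := by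
  have hC0 : 0 ≤ C := by simpa using hC 0 (by simpa using hr)
  have h1 : ∀ x, ‖x‖ < r → ‖h x‖ ≤ C := by
    intro x hx
    obtain ⟨c, hc, hcw⟩ := exists_rot (h x)
    have := hC (c • x) (by rwa [norm_smul, hc, one_mul])
    rw [map_smul, smul_eq_mul, hcw, RCLike.ofReal_re] at this
    exact this
  have h2 : ‖h‖ ≤ C / r := by
    refine ContinuousLinearMap.opNorm_le_bound _ (by positivity) fun x => ?_
    by_cases hx : x = 0
    · simp [hx]
    have hxn : 0 < ‖x‖ := norm_pos_iff.mpr hx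
    -- use all radii below r
    have h3 : ∀ t : ℝ, 0 < t → t < r → t * ‖h x‖ ≤ C * ‖x‖ := by
      intro t ht htr
      have h4 := h1 (((t / ‖x‖ : ℝ) : 𝕜) • x) (by
        rw [norm_smul, RCLike.norm_ofReal, abs_of_pos (by positivity), div_mul_cancel₀ _ hxn.ne']
        exact htr)
      rw [map_smul, norm_smul, RCLike.norm_ofReal, abs_of_pos (by positivity)] at h4
      rw [div_mul_eq_mul_div, div_le_iff₀ hxn] at h4
      exact h4
    have h5 : r * ‖h x‖ ≤ C * ‖x‖ := by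
      by_contra hcon
      push Not at hcon
      have hhx : 0 < ‖h x‖ := by
        by_contra h0
        have : ‖h x‖ = 0 := le_antisymm (not_lt.mp h0) (norm_nonneg _)
        rw [this, mul_zero] at hcon
        have := mul_nonneg hC0 hxn.le
        linarith
      set t := (C * ‖x‖ / ‖h x‖ + r) / 2 with ht
      have h6 : C * ‖x‖ / ‖h x‖ < r := by rwa [div_lt_iff₀ hhx]
      have h7 : 0 ≤ C * ‖x‖ / ‖h x‖ := by positivity
      have h8 := h3 t (by linarith) (by linarith)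
      have h9 : C * ‖x‖ / ‖h x‖ < t := by linarith
      rw [div_lt_iff₀ hhx] at h9
      linarith
    rw [div_mul_eq_mul_div, le_div_iff₀ hr, mul_comm]
    exact h5
  rwa [le_div_iff₀ hr, mul_comm] at h2

/-- A functional whose real part is bounded below is zero. -/
lemma eq_zero_of_bddBelow {h : X →L[𝕜] 𝕜} {c : ℝ} (hc : ∀ x, c ≤ re (h x)) : h = 0 := by
  ext x
  by_contra hne
  have hne' : h x ≠ 0 := hne
  have h1 := hc ((((c - 1 : ℝ) : 𝕜) * (h x)⁻¹) • x)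
  rw [map_smul, smul_eq_mul, mul_assoc, inv_mul_cancel₀ hne', mul_one, RCLike.ofReal_re] at h1
  linarith

end lemmas

section coords

variable {𝕜 : Type} [RCLike 𝕜] {X : Type u} [NormedAddCommGroup X] [NormedSpace 𝕜 X]
  (Φ : lp (fun _ : ℕ => 𝕜) 1 ≃ₗᵢ[𝕜] (X →L[𝕜] 𝕜))

/-- the `n`-th coordinate functional -/
noncomputable def co (n : ℕ) : X →L[𝕜] 𝕜 := Φ (lp.single 1 n (1 : 𝕜))

lemma norm_co (n : ℕ) : ‖co Φ n‖ = 1 := by
  rw [co, Φ.norm_map, lp.norm_single (E := fun _ : ℕ => 𝕜) (p := 1) one_pos, norm_one]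

lemma norm_co_apply_le (n : ℕ) (x : X) : ‖co Φ n x‖ ≤ ‖x‖ := by
  have := (co Φ n).le_opNorm x
  rwa [norm_co, one_mul] at this

lemma hasSum_apply (α : lp (fun _ : ℕ => 𝕜) 1) (x : X) :
    HasSum (fun n => α n * co Φ n x) (Φ α x) := by
  have h1 := lp.hasSum_single (E := fun _ : ℕ => 𝕜) (p := 1) (by simp) α
  have h2 : Continuous fun β : lp (fun _ : ℕ => 𝕜) 1 => Φ β x :=
    (ContinuousLinearMap.apply 𝕜 𝕜 x).continuous.comp Φ.continuous
  have h3 : HasSum (fun n => Φ (lp.single 1 n (α n)) x) (Φ α x) :=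
    h1.map ((ContinuousLinearMap.apply 𝕜 𝕜 x : (X →L[𝕜] 𝕜) →L[𝕜] 𝕜).toLinearMap ∘ₗ
      Φ.toLinearEquiv.toLinearMap) h2
  have h5 : (fun n => α n * co Φ n x) = fun n => Φ (lp.single 1 n (α n)) x := by
    funext n
    have h4 : (lp.single 1 n (α n) : lp (fun _ : ℕ => 𝕜) 1) = (α n) • lp.single 1 n (1 : 𝕜) := by
      rw [← lp.single_smul]
      simp
    rw [h4, map_smul]
    rfl
  rw [h5]
  exact h3

lemma hasSum_norm (α : lp (fun _ : ℕ => 𝕜) 1) : HasSum (fun n => ‖α n‖) ‖Φ α‖ := by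
  have h := lp.hasSum_norm (E := fun _ : ℕ => 𝕜) (p := 1) (by simp) α
  simpa using h

/-- The norm of a combination of the first two coordinate functionals. -/
lemma norm_two (a b : 𝕜) : ‖a • co Φ 0 + b • co Φ 1‖ = ‖a‖ + ‖b‖ := by
  have h1 : a • co Φ 0 + b • co Φ 1 = Φ (a • lp.single 1 0 (1 : 𝕜) + b • lp.single 1 1 (1 : 𝕜)) := by
    rw [map_add, map_smul, map_smul]; rfl
  rw [h1]
  have h2 := hasSum_norm Φ (a • lp.single 1 0 (1 : 𝕜) + b • lp.single 1 1 (1 : 𝕜))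
  set β : lp (fun _ : ℕ => 𝕜) 1 := a • lp.single 1 0 (1 : 𝕜) + b • lp.single 1 1 (1 : 𝕜) with hβ
  have hcoord : ∀ n : ℕ, β n = a * (if n = 0 then 1 else 0) + b * (if n = 1 then 1 else 0) := by
    intro n
    rw [hβ]
    show a * (lp.single 1 0 (1 : 𝕜) : lp (fun _ : ℕ => 𝕜) 1) n +
      b * (lp.single 1 1 (1 : 𝕜) : lp (fun _ : ℕ => 𝕜) 1) n = _
    rw [lp.coeFn_single, lp.coeFn_single, Pi.single_apply, Pi.single_apply]
  have h3 : ∀ n : ℕ, n ∉ ({0, 1} : Finset ℕ) → ‖β n‖ = 0 := by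
    intro n hn
    simp only [Finset.mem_insert, Finset.mem_singleton, not_or] at hn
    rw [hcoord, if_neg hn.1, if_neg hn.2]
    simp
  have h4 : HasSum (fun n => ‖β n‖) (∑ n ∈ ({0, 1} : Finset ℕ), ‖β n‖) :=
    hasSum_sum_of_ne_finset_zero h3
  have h5 := h2.unique h4
  rw [h5, Finset.sum_insert (by decide), Finset.sum_singleton, hcoord, hcoord]
  simp

end coords

end Pool.Agent.R287.BP
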