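import Pool.Agent.R287.BPa

open Filter Topology RCLike
open scoped ENNReal

namespace Pool.Agent.R287.BP

universe u v

section

variable {𝕜 : Type} [RCLike 𝕜] {X : Type u} [NormedAddCommGroup X] [NormedSpace 𝕜 X]
  [NormedSpace ℝ X] [IsScalarTower ℝ 𝕜 X]
  (Φ : lp (fun _ : ℕ => 𝕜) 1 ≃ₗᵢ[𝕜] (X →L[𝕜] 𝕜))

/-- Approximate Goldstine for the first two coordinates. -/
lemma exists_point {s : 𝕜} (hs : ‖s‖ = 1) {δ : ℝ} (hδ : 0 < δ) :
    ∃ p : X, ‖p‖ < 1 ∧ ‖co Φ 0 p - 1‖ < δ ∧ ‖co Φ 1 p - s‖ < δ := by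
  let L : X →L[𝕜] 𝕜 × 𝕜 := (co Φ 0).prod (co Φ 1)
  set K : Set (𝕜 × 𝕜) := L '' Metric.ball 0 1 with hK
  by_cases hmem : ((1 : 𝕜), s) ∈ closure K
  · obtain ⟨_, ⟨p, hp, rfl⟩, hd⟩ := Metric.mem_closure_iff.mp hmem δ hδ
    rw [Prod.dist_eq, max_lt_iff] at hd
    refine ⟨p, by simpa using hp, ?_, ?_⟩
    · have := hd.1
      rw [dist_comm, dist_eq_norm] at this
      exact this
    · have := hd.2
      rw [dist_comm, dist_eq_norm] at this
      exact this
  · exfalso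
    have hconv : Convex ℝ K := by
      have h1 : K = (L.restrictScalars ℝ : X →L[ℝ] 𝕜 × 𝕜) '' Metric.ball 0 1 := rfl
      rw [h1]
      exact (convex_ball (0 : X) 1).linear_image (L.restrictScalars ℝ : X →L[ℝ] 𝕜 × 𝕜).toLinearMap
    obtain ⟨g, c, hg1, hg2⟩ := RCLike.geometric_hahn_banach_closed_point (𝕜 := 𝕜)
      hconv.closure isClosed_closure hmem
    set α : 𝕜 := g (1, 0) with hα
    set β : 𝕜 := g (0, 1) with hβ
    have hg : ∀ a b : 𝕜, g (a, b) = a * α + b * β := by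
      intro a b
      have : ((a, b) : 𝕜 × 𝕜) = a • ((1 : 𝕜), (0 : 𝕜)) + b • ((0 : 𝕜), (1 : 𝕜)) := by simp
      rw [this, map_add, map_smul, map_smul]
      rfl
    have h1 : ∀ x : X, ‖x‖ < 1 → re ((α • co Φ 0 + β • co Φ 1) x) ≤ c := by
      intro x hx
      have h2 := hg1 (L x) (subset_closure ⟨x, by simpa using hx, rfl⟩)
      have h3 : g (L x) = (α • co Φ 0 + β • co Φ 1) x := by
        show g (co Φ 0 x, co Φ 1 x) = α * co Φ 0 x + β * co Φ 1 x
        rw [hg]; ring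
      rw [h3] at h2
      exact h2.le
    have h4 := mul_norm_le one_pos h1
    rw [norm_two, one_mul] at h4
    rw [hg, one_mul] at hg2
    have h5 : re (α + s * β) ≤ ‖α‖ + ‖β‖ := by
      calc re (α + s * β) ≤ ‖α + s * β‖ := RCLike.re_le_norm _
        _ ≤ ‖α‖ + ‖s * β‖ := norm_add_le _ _
        _ = ‖α‖ + ‖β‖ := by rw [norm_mul, hs, one_mul]
    linarith

include Φ in
/-- The approximate intersection property. -/
lemma exists_lens {x x0 e : X} {ε2 s ε' θ : ℝ} (h1 : ‖x + e‖ ≤ 1) (h2 : ‖x - e‖ ≤ 1)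
    (h0 : ‖x0‖ ≤ 1) (hd : ‖x0 - x‖ ≤ ε2) (hs : 0 < s) (hs1 : s ≤ 1) (hse : s ≤ ε')
    (hse2 : 2 * ε2 ≤ s * ε' ^ 2) (hθ : 0 < θ) :
    ∃ z : X, ‖z + x0‖ < 1 + θ ∧ ‖z - x0‖ < 1 + θ ∧ ‖z - e‖ < ε' + θ := by
  by_contra hcon
  push Not at hcon
  have hε' : 0 < ε' := lt_of_lt_of_le hs hse
  let C : Set (X × X × X) := Metric.ball 0 (1 + θ) ×ˢ Metric.ball 0 (1 + θ) ×ˢ
    Metric.ball 0 (ε' + θ)
  let t : Set (X × X × X) := Set.range fun z : X => (z + x0, z - x0, z - e)
  have hCc : Convex ℝ C := (convex_ball _ _).prod ((convex_ball _ _).prod (convex_ball _ _))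
  have hCo : IsOpen C := Metric.isOpen_ball.prod (Metric.isOpen_ball.prod Metric.isOpen_ball)
  have htc : Convex ℝ t := by
    rintro _ ⟨z1, rfl⟩ _ ⟨z2, rfl⟩ a b ha hb hab
    refine ⟨a • z1 + b • z2, ?_⟩
    have hx0 : x0 = a • x0 + b • x0 := by rw [← add_smul, hab, one_smul]
    have he : e = a • e + b • e := by rw [← add_smul, hab, one_smul]
    ext
    · show a • z1 + b • z2 + x0 = a • (z1 + x0) + b • (z2 + x0)
      nth_rewrite 1 [hx0]
      module
    · show a • z1 + b • z2 - x0 = a • (z1 - x0) + b • (z2 - x0)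
      nth_rewrite 1 [hx0]
      module
    · show a • z1 + b • z2 - e = a • (z1 - e) + b • (z2 - e)
      nth_rewrite 1 [he]
      module
  have hdisj : Disjoint C t := by
    rw [Set.disjoint_left]
    rintro _ ⟨hc1, hc2, hc3⟩ ⟨z, rfl⟩
    simp only [Metric.mem_ball, dist_zero_right] at hc1 hc2 hc3
    exact absurd hc3 (not_lt.mpr (hcon z hc1 hc2))
  obtain ⟨g, c, hg1, hg2⟩ := RCLike.geometric_hahn_banach_open (𝕜 := 𝕜) hCc hCo htc hdisj
  let A : X →L[𝕜] 𝕜 := g.comp (ContinuousLinearMap.inl 𝕜 X (X × X))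
  let B : X →L[𝕜] 𝕜 := g.comp ((ContinuousLinearMap.inr 𝕜 X (X × X)).comp
    (ContinuousLinearMap.inl 𝕜 X X))
  let D : X →L[𝕜] 𝕜 := g.comp ((ContinuousLinearMap.inr 𝕜 X (X × X)).comp
    (ContinuousLinearMap.inr 𝕜 X X))
  have hg : ∀ a b d : X, g (a, b, d) = A a + B b + D d := by
    intro a b d
    have : ((a, b, d) : X × X × X) = (a, 0, 0) + (0, b, 0) + (0, 0, d) := by simp
    rw [this, map_add, map_add]
    rfl
  -- the sum of the three functionals vanishes
  have hsum : A + B + D = 0 := by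
    apply eq_zero_of_bddBelow (c := c - re (A x0 - B x0 - D e))
    intro z
    have h3 := hg2 _ ⟨z, rfl⟩
    simp only at h3
    rw [hg] at h3
    have h4 : A (z + x0) + B (z - x0) + D (z - e) = (A + B + D) z + (A x0 - B x0 - D e) := by
      simp only [map_add, map_sub, ContinuousLinearMap.add_apply]
      ring
    rw [h4, map_add] at h3
    linarith
  have hlow : c ≤ re (A x0 - B x0 - D e) := by
    have h3 := hg2 _ ⟨0, rfl⟩
    simp only at h3
    rw [hg] at h3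
    have h4 : A (0 + x0) + B (0 - x0) + D (0 - e) = A x0 - B x0 - D e := by
      simp only [zero_add, zero_sub, map_neg]
      ring
    rwa [h4] at h3
  -- the norms
  have hup : (1 + θ) * ‖A‖ + (1 + θ) * ‖B‖ + (ε' + θ) * ‖D‖ ≤ c := by
    have s1 : ∀ b d : X, ‖b‖ < 1 + θ → ‖d‖ < ε' + θ →
        (1 + θ) * ‖A‖ ≤ c - re (B b) - re (D d) := by
      intro b d hb hd'
      apply mul_norm_le (by positivity)
      intro a ha
      have h3 := hg1 (a, b, d) ⟨by simpa using ha, by simpa using hb, by simpa using hd'⟩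
      rw [hg, map_add, map_add] at h3
      linarith
    have s2 : ∀ d : X, ‖d‖ < ε' + θ → (1 + θ) * ‖B‖ ≤ c - (1 + θ) * ‖A‖ - re (D d) := by
      intro d hd'
      apply mul_norm_le (by positivity)
      intro b hb
      have := s1 b d hb hd'
      linarith
    have s3 : (ε' + θ) * ‖D‖ ≤ c - (1 + θ) * ‖A‖ - (1 + θ) * ‖B‖ := by
      apply mul_norm_le (by positivity)
      intro d hd'
      have := s2 d hd'
      linarith
    linarith
  -- coordinates
  obtain ⟨α, hα⟩ := Φ.surjective A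
  obtain ⟨β, hβ⟩ := Φ.surjective B
  obtain ⟨γ, hγ⟩ := Φ.surjective D
  have hcoord : ∀ n, α n + β n + γ n = 0 := by
    have h3 : Φ (α + β + γ) = 0 := by rw [map_add, map_add, hα, hβ, hγ, hsum]
    have h4 : α + β + γ = 0 := by
      have := Φ.injective (h3.trans (map_zero Φ).symm)
      exact this
    intro n
    have := congrArg (fun a : lp (fun _ : ℕ => 𝕜) 1 => a n) h4
    exact this
  have hz : ∀ n, ∃ z : 𝕜, ‖z + co Φ n x0‖ ≤ 1 ∧ ‖z - co Φ n x0‖ ≤ 1 ∧ ‖z - co Φ n e‖ ≤ ε' := by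
    intro n
    refine scalar_lens (a := co Φ n x) (ε2 := ε2) (s := s) ?_ ?_ ?_ ?_ hs hs1 hse hse2
    · rw [← map_add]; exact (norm_co_apply_le Φ n _).trans h1
    · rw [← map_sub]; exact (norm_co_apply_le Φ n _).trans h2
    · exact (norm_co_apply_le Φ n _).trans h0
    · rw [← map_sub]; exact (norm_co_apply_le Φ n _).trans hd
  choose z hz1 hz2 hz3 using hz
  have hS : HasSum (fun n => re (α n * (z n + co Φ n x0) + β n * (z n - co Φ n x0) +
      γ n * (z n - co Φ n e))) (re (A x0 - B x0 - D e)) := by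
    have h3 := ((hasSum_apply Φ α x0).sub (hasSum_apply Φ β x0)).sub (hasSum_apply Φ γ e)
    rw [hα, hβ, hγ] at h3
    have h4 := h3.mapL (RCLike.reCLM (K := 𝕜))
    have h5 : (fun n => re (α n * (z n + co Φ n x0) + β n * (z n - co Φ n x0) +
        γ n * (z n - co Φ n e))) =
        fun n => re (α n * co Φ n x0 - β n * co Φ n x0 - γ n * co Φ n e) := by
      funext n
      congr 1
      linear_combination (z n) * hcoord n
    rw [h5]
    exact h4
  have hN : HasSum (fun n => ‖α n‖ + ‖β n‖ + ‖γ n‖ * ε') (‖A‖ + ‖B‖ + ‖D‖ * ε') := by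
    have h3 := ((hasSum_norm Φ α).add (hasSum_norm Φ β)).add ((hasSum_norm Φ γ).mul_right ε')
    rwa [hα, hβ, hγ] at h3
  have hle : re (A x0 - B x0 - D e) ≤ ‖A‖ + ‖B‖ + ‖D‖ * ε' := by
    refine hasSum_le (fun n => ?_) hS hN
    calc re (α n * (z n + co Φ n x0) + β n * (z n - co Φ n x0) + γ n * (z n - co Φ n e))
        ≤ ‖α n * (z n + co Φ n x0) + β n * (z n - co Φ n x0) + γ n * (z n - co Φ n e)‖ :=
          RCLike.re_le_norm _
      _ ≤ ‖α n * (z n + co Φ n x0)‖ + ‖β n * (z n - co Φ n x0)‖ + ‖γ n * (z n - co Φ n e)‖ :=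
          norm_add₃_le
      _ ≤ ‖α n‖ + ‖β n‖ + ‖γ n‖ * ε' := by
        rw [norm_mul, norm_mul, norm_mul]
        have a1 := mul_le_mul_of_nonneg_left (hz1 n) (norm_nonneg (α n))
        have a2 := mul_le_mul_of_nonneg_left (hz2 n) (norm_nonneg (β n))
        have a3 := mul_le_mul_of_nonneg_left (hz3 n) (norm_nonneg (γ n))
        linarith
  have hA0 := norm_nonneg A
  have hB0 := norm_nonneg B
  have hD0 := norm_nonneg D
  have h5 : θ * (‖A‖ + ‖B‖ + ‖D‖) ≤ 0 := by nlinarith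
  have h6 : ‖A‖ + ‖B‖ + ‖D‖ ≤ 0 := by
    by_contra h7
    push Not at h7
    have := mul_pos hθ h7
    linarith
  have hA : A = 0 := norm_eq_zero.mp (by linarith)
  have hB : B = 0 := norm_eq_zero.mp (by linarith)
  have hD : D = 0 := norm_eq_zero.mp (by linarith)
  have h7 := hg1 (0, 0, 0) ⟨by simpa using (by positivity : 0 < 1 + θ),
    by simpa using (by positivity : 0 < 1 + θ), by simpa using (by positivity : 0 < ε' + θ)⟩
  rw [hg, hA, hB, hD] at h7
  simp at h7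
  rw [hA, hB, hD] at hlow
  simp at hlow
  linarith

end

end Pool.Agent.R287.BP
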