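import Pool.Agent.R287.BPb

open Filter Topology RCLike
open scoped ENNReal

namespace Pool.Agent.R287.BP

universe u v

/-- `T` is range strongly exposing. -/
def IsRSE {𝕜 : Type} [RCLike 𝕜] {X : Type u} {Y : Type v} [NormedAddCommGroup X]
    [NormedSpace 𝕜 X] [NormedAddCommGroup Y] [NormedSpace 𝕜 Y] (T : X →L[𝕜] Y) : Prop :=
  ∃ x0 : X, ‖x0‖ = 1 ∧ ∀ x : ℕ → X, (∀ n, ‖x n‖ ≤ 1) →
    Tendsto (fun n => ‖T (x n)‖) atTop (𝓝 ‖T‖) →
      ∃ (σ : ℕ → ℕ) (lam : 𝕜), StrictMono σ ∧ ‖lam‖ = 1 ∧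
        Tendsto (fun n => T (x (σ n))) atTop (𝓝 (lam • T x0))

/-- The space of compact operators from `X` to `Y` has the BPBp-RSE. -/
def CompactBPBpRSE (𝕜 : Type) [RCLike 𝕜] (X : Type u) (Y : Type v) [NormedAddCommGroup X]
    [NormedSpace 𝕜 X] [NormedAddCommGroup Y] [NormedSpace 𝕜 Y] : Prop :=
  ∀ ε : ℝ, 0 < ε → ∃ η : ℝ, 0 < η ∧ η < ε ∧ ∀ T : X →L[𝕜] Y, IsCompactOperator T → ‖T‖ = 1 →
    ∀ x : X, ‖x‖ = 1 → 1 - η < ‖T x‖ →
      ∃ (S : X →L[𝕜] Y) (x0 : X), IsCompactOperator S ∧ IsRSE S ∧ ‖x0‖ = 1 ∧ ‖S‖ = 1 ∧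
        ‖S x0‖ = 1 ∧ ‖S - T‖ < ε ∧ ‖x - x0‖ < ε

section

variable {𝕜 : Type} [RCLike 𝕜] {X : Type u} {Y : Type v} [NormedAddCommGroup X]
  [NormedSpace 𝕜 X] [NormedAddCommGroup Y] [NormedSpace 𝕜 Y]

/-- At a point where a range strongly exposing operator attains its norm, the operator kills the
directions `z` in which both `x0 + z` and `x0 - z` stay in the ball, approximately. -/
lemma rse_step {S : X →L[𝕜] Y} (hS : IsRSE S) (hS1 : ‖S‖ = 1) {x0 e : X}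
    (hx0 : ‖x0‖ = 1) (hSx0 : ‖S x0‖ = 1) {ε' : ℝ}
    (hz : ∀ θ > 0, ∃ z : X, ‖z + x0‖ < 1 + θ ∧ ‖z - x0‖ < 1 + θ ∧ ‖z - e‖ < ε' + θ) :
    ‖S e‖ ≤ ε' := by
  obtain ⟨x1, hx1, hexp⟩ := hS
  -- the constant sequence
  obtain ⟨σ0, lam0, -, hlam0, hlim0⟩ := hexp (fun _ => x0) (fun _ => hx0.le) (by
    simp [hSx0, hS1])
  have hSx1 : S x0 = lam0 • S x1 := tendsto_nhds_unique tendsto_const_nhds hlim0
  have hnx1 : ‖S x1‖ = 1 := by
    have : ‖S x0‖ = ‖lam0‖ * ‖S x1‖ := by rw [hSx1, norm_smul]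
    rw [hSx0, hlam0, one_mul] at this
    exact this.symm
  have hx1ne : S x1 ≠ 0 := by
    intro h
    rw [h, norm_zero] at hnx1
    norm_num at hnx1
  choose z hz1 hz2 hz3 using fun k : ℕ => hz (1 / ((k : ℝ) + 1)) (by positivity)
  set θ : ℕ → ℝ := fun k => 1 / ((k : ℝ) + 1) with hθ
  have hθ0 : ∀ k, 0 < θ k := fun k => by rw [hθ]; positivity
  have hθlim : Tendsto θ atTop (𝓝 0) := tendsto_one_div_add_atTop_nhds_zero_nat
  have hsum : ∀ k, S (x0 + z k) + S (x0 - z k) = (2 : 𝕜) • S x0 := by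
    intro k
    rw [← map_add, ← map_smul]
    congr 1
    module
  have hle : ∀ y : X, ‖S y‖ ≤ ‖y‖ := fun y => by
    have := S.le_opNorm y
    rwa [hS1, one_mul] at this
  have hup : ∀ k, ‖x0 + z k‖ ≤ 1 + θ k := fun k => by rw [add_comm]; exact (hz1 k).le
  have hum : ∀ k, ‖x0 - z k‖ ≤ 1 + θ k := fun k => by rw [← norm_neg, neg_sub]; exact (hz2 k).le
  have h2 : ‖(2 : 𝕜) • S x0‖ = 2 := by
    rw [norm_smul, hSx0]
    simp
  have hlowp : ∀ k, 1 - θ k ≤ ‖S (x0 + z k)‖ := by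
    intro k
    have h3 : ‖(2 : 𝕜) • S x0‖ ≤ ‖S (x0 + z k)‖ + ‖S (x0 - z k)‖ := by
      rw [← hsum k]; exact norm_add_le _ _
    have h4 := (hle (x0 - z k)).trans (hum k)
    linarith
  have hlowm : ∀ k, 1 - θ k ≤ ‖S (x0 - z k)‖ := by
    intro k
    have h3 : ‖(2 : 𝕜) • S x0‖ ≤ ‖S (x0 + z k)‖ + ‖S (x0 - z k)‖ := by
      rw [← hsum k]; exact norm_add_le _ _
    have h4 := (hle (x0 + z k)).trans (hup k)
    linarith
  -- normalised vectors
  set c : ℕ → 𝕜 := fun k => (((1 + θ k)⁻¹ : ℝ) : 𝕜) with hc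
  have hcn : ∀ k, ‖c k‖ = (1 + θ k)⁻¹ := fun k => by
    rw [hc, RCLike.norm_ofReal, abs_of_pos]
    have := hθ0 k
    positivity
  have hclim : Tendsto c atTop (𝓝 1) := by
    have h3 : Tendsto (fun k => (1 + θ k)⁻¹) atTop (𝓝 ((1 + 0)⁻¹ : ℝ)) :=
      (tendsto_const_nhds.add hθlim).inv₀ (by norm_num)
    have h4 : Tendsto c atTop (𝓝 ((((1 + 0)⁻¹ : ℝ)) : 𝕜)) :=
      ((RCLike.continuous_ofReal (K := 𝕜)).tendsto _).comp h3
    simpa using h4
  have hbound : ∀ (w : ℕ → X), (∀ k, ‖w k‖ ≤ 1 + θ k) → ∀ k, ‖c k • w k‖ ≤ 1 := by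
    intro w hw k
    rw [norm_smul, hcn, inv_mul_le_iff₀ (by have := hθ0 k; positivity), mul_one]
    exact hw k
  have hmax : ∀ (w : ℕ → X), (∀ k, ‖w k‖ ≤ 1 + θ k) → (∀ k, 1 - θ k ≤ ‖S (w k)‖) →
      Tendsto (fun k => ‖S (c k • w k)‖) atTop (𝓝 ‖S‖) := by
    intro w hw hw'
    rw [hS1]
    have h3 : Tendsto (fun k => (1 + θ k)⁻¹ * (1 - θ k)) atTop (𝓝 1) := by
      have h4 : Tendsto (fun k => (1 + θ k)⁻¹ * (1 - θ k)) atTop (𝓝 ((1 + 0)⁻¹ * (1 - 0))) :=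
        ((tendsto_const_nhds.add hθlim).inv₀ (by norm_num)).mul (tendsto_const_nhds.sub hθlim)
      simpa using h4
    refine tendsto_of_tendsto_of_tendsto_of_le_of_le h3 tendsto_const_nhds (fun k => ?_)
      (fun k => ?_)
    · show (1 + θ k)⁻¹ * (1 - θ k) ≤ ‖S (c k • w k)‖
      rw [map_smul, norm_smul, hcn]
      exact mul_le_mul_of_nonneg_left (hw' k) (by have := hθ0 k; positivity)
    · exact (hle _).trans (hbound w hw k)
  obtain ⟨σ, lam, hσ, hlam, hlim⟩ := hexp (fun k => c k • (x0 + z k)) (hbound _ hup)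
    (hmax _ hup hlowp)
  have hmax2 := (hmax _ hum hlowm).comp hσ.tendsto_atTop
  obtain ⟨τ, lam', hτ, hlam', hlim'⟩ := hexp (fun k => c (σ k) • (x0 - z (σ k)))
    (fun k => hbound _ hum (σ k)) hmax2
  have hρ : Tendsto (fun n => σ (τ n)) atTop atTop := hσ.tendsto_atTop.comp hτ.tendsto_atTop
  have hlimA : Tendsto (fun n => S (c (σ (τ n)) • (x0 + z (σ (τ n))))) atTop (𝓝 (lam • S x1)) :=
    hlim.comp hτ.tendsto_atTop
  have hlimB : Tendsto (fun n => S (c (σ (τ n)) • (x0 - z (σ (τ n))))) atTop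
      (𝓝 (lam' • S x1)) := hlim'
  have hcρ : Tendsto (fun n => c (σ (τ n))) atTop (𝓝 1) := hclim.comp hρ
  -- the sum of the two limits
  have hadd : lam • S x1 + lam' • S x1 = (2 : 𝕜) • S x0 := by
    have h3 := hlimA.add hlimB
    have h4 : (fun n => S (c (σ (τ n)) • (x0 + z (σ (τ n)))) +
        S (c (σ (τ n)) • (x0 - z (σ (τ n))))) = fun n => c (σ (τ n)) • ((2 : 𝕜) • S x0) := by
      funext n
      rw [map_smul, map_smul, ← smul_add, hsum]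
    rw [h4] at h3
    have h5 : Tendsto (fun n => c (σ (τ n)) • ((2 : 𝕜) • S x0)) atTop
        (𝓝 ((1 : 𝕜) • ((2 : 𝕜) • S x0))) := hcρ.smul_const _
    rw [one_smul] at h5
    exact tendsto_nhds_unique h3 h5
  have hlameq : lam + lam' = 2 * lam0 := by
    have h3 : (lam + lam') • S x1 = (2 * lam0) • S x1 := by
      rw [add_smul, hadd, hSx1, smul_smul]
    have h4 := sub_eq_zero.mpr h3
    rw [← sub_smul] at h4
    exact sub_eq_zero.mp ((smul_eq_zero.mp h4).resolve_right hx1ne)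
  have hpar := parallelogram_law_with_norm 𝕜 lam lam'
  rw [hlameq, norm_mul, hlam, hlam', hlam0, RCLike.norm_ofNat] at hpar
  have hdiff : lam - lam' = 0 := by
    apply norm_eq_zero.mp
    have := norm_nonneg (lam - lam')
    nlinarith
  have hlam_eq : lam = lam0 := by
    have h3 : lam' = lam := (sub_eq_zero.mp hdiff).symm
    rw [h3] at hlameq
    have : (2 : 𝕜) * lam = 2 * lam0 := by rw [← hlameq]; ring
    exact mul_left_cancel₀ two_ne_zero this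
  -- hence `S z → 0`
  have hSz : Tendsto (fun n => S (z (σ (τ n)))) atTop (𝓝 0) := by
    have h3 : Tendsto (fun n => (c (σ (τ n)))⁻¹ • S (c (σ (τ n)) • (x0 + z (σ (τ n))))) atTop
        (𝓝 ((1 : 𝕜)⁻¹ • (lam • S x1))) := (hcρ.inv₀ one_ne_zero).smul hlimA
    rw [inv_one, one_smul, hlam_eq, ← hSx1] at h3
    have h4 : (fun n => (c (σ (τ n)))⁻¹ • S (c (σ (τ n)) • (x0 + z (σ (τ n))))) =
        fun n => S x0 + S (z (σ (τ n))) := by
      funext n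
      have hcne : c (σ (τ n)) ≠ 0 := by
        intro h0
        have := hcn (σ (τ n))
        rw [h0, norm_zero] at this
        have h5 : (0 : ℝ) < (1 + θ (σ (τ n)))⁻¹ := by have := hθ0 (σ (τ n)); positivity
        linarith
      rw [map_smul, smul_smul, inv_mul_cancel₀ hcne, one_smul, map_add]
    rw [h4] at h3
    have h5 := h3.sub (tendsto_const_nhds (x := S x0))
    simpa using h5
  have h3 : ∀ n, ‖S e‖ ≤ (ε' + θ (σ (τ n))) + ‖S (z (σ (τ n)))‖ := by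
    intro n
    have h4 : S e = S (z (σ (τ n))) - S (z (σ (τ n)) - e) := by rw [map_sub]; abel
    calc ‖S e‖ = ‖S (z (σ (τ n))) - S (z (σ (τ n)) - e)‖ := by rw [← h4]
      _ ≤ ‖S (z (σ (τ n)))‖ + ‖S (z (σ (τ n)) - e)‖ := norm_sub_le _ _
      _ ≤ ‖S (z (σ (τ n)))‖ + (ε' + θ (σ (τ n))) := by
        gcongr
        exact (hle _).trans (hz3 _).le
      _ = _ := by ring
  have h4 : Tendsto (fun n => (ε' + θ (σ (τ n))) + ‖S (z (σ (τ n)))‖) atTop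
      (𝓝 ((ε' + 0) + 0)) := by
    refine (tendsto_const_nhds.add (hθlim.comp hρ)).add ?_
    have := hSz.norm
    rwa [norm_zero] at this
  rw [add_zero, add_zero] at h4
  exact ge_of_tendsto' h4 h3

lemma comb_le {y0 y1 : Y} (h : ∀ w : 𝕜, ‖w‖ = 1 → ‖y0 + w • y1‖ ≤ 1) {a b : 𝕜} (ha : ‖a‖ ≤ 1)
    (hb : ‖b‖ ≤ 1) : ‖a • y0 + b • y1‖ ≤ 1 := by
  -- both coefficients unimodular
  have key : ∀ u w : 𝕜, ‖u‖ = 1 → ‖w‖ = 1 → ‖u • y0 + w • y1‖ ≤ 1 := by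
    intro u w hu hw
    have hu0 : u ≠ 0 := by intro h0; rw [h0, norm_zero] at hu; norm_num at hu
    have h1 : u • y0 + w • y1 = u • (y0 + (u⁻¹ * w) • y1) := by
      rw [smul_add, smul_smul, ← mul_assoc, mul_inv_cancel₀ hu0, one_mul]
    rw [h1, norm_smul, hu, one_mul]
    exact h _ (by rw [norm_mul, norm_inv, hu, hw]; norm_num)
  -- every scalar of modulus at most one is an average of two unimodular ones
  have dec : ∀ a : 𝕜, ‖a‖ ≤ 1 → ∃ (u : 𝕜) (t : ℝ), ‖u‖ = 1 ∧ 0 ≤ t ∧ t ≤ 1 ∧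
      a = (t : 𝕜) * u + ((1 - t : ℝ) : 𝕜) * (-u) := by
    intro a ha
    obtain ⟨c, hc, hcw⟩ := exists_rot a
    have hc0 : c ≠ 0 := by intro h0; rw [h0, norm_zero] at hc; norm_num at hc
    refine ⟨c⁻¹, (1 + ‖a‖) / 2, by rw [norm_inv, hc, inv_one], by positivity, by linarith, ?_⟩
    have h1 : a = c⁻¹ * (‖a‖ : 𝕜) := by
      rw [← hcw, ← mul_assoc, inv_mul_cancel₀ hc0, one_mul]
    nth_rewrite 1 [h1]
    push_cast
    ring
  have step : ∀ (u b : 𝕜), ‖u‖ = 1 → ‖b‖ ≤ 1 → ‖u • y0 + b • y1‖ ≤ 1 := by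
    intro u b hu hb
    obtain ⟨w, t, hw, ht0, ht1, rfl⟩ := dec b hb
    have h1 : u • y0 + ((t : 𝕜) * w + ((1 - t : ℝ) : 𝕜) * (-w)) • y1 =
        (t : 𝕜) • (u • y0 + w • y1) + ((1 - t : ℝ) : 𝕜) • (u • y0 + (-w) • y1) := by
      push_cast
      module
    rw [h1]
    refine (norm_add_le _ _).trans ?_
    rw [norm_smul, norm_smul, RCLike.norm_ofReal, RCLike.norm_ofReal, abs_of_nonneg ht0,
      abs_of_nonneg (by linarith)]
    have e1 := mul_le_mul_of_nonneg_left (key u w hu hw) ht0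
    have e2 := mul_le_mul_of_nonneg_left (key u (-w) hu (by rwa [norm_neg]))
      (by linarith : 0 ≤ 1 - t)
    linarith
  obtain ⟨u, t, hu, ht0, ht1, rfl⟩ := dec a ha
  have h1 : ((t : 𝕜) * u + ((1 - t : ℝ) : 𝕜) * (-u)) • y0 + b • y1 =
      (t : 𝕜) • (u • y0 + b • y1) + ((1 - t : ℝ) : 𝕜) • ((-u) • y0 + b • y1) := by
    push_cast
    module
  rw [h1]
  refine (norm_add_le _ _).trans ?_
  rw [norm_smul, norm_smul, RCLike.norm_ofReal, RCLike.norm_ofReal, abs_of_nonneg ht0,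
    abs_of_nonneg (by linarith)]
  have e1 := mul_le_mul_of_nonneg_left (step u b hu hb) ht0
  have e2 := mul_le_mul_of_nonneg_left (step (-u) b (by rwa [norm_neg]) hb)
    (by linarith : 0 ≤ 1 - t)
  linarith

end

end Pool.Agent.R287.BP
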