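import Pool.Agent.R287.BPc

open Filter Topology RCLike
open scoped ENNReal

namespace Pool.Agent.R287.BP

universe u v

section

variable {𝕜 : Type} [RCLike 𝕜] {X : Type u} {Y : Type v} [NormedAddCommGroup X]
  [NormedSpace 𝕜 X] [NormedAddCommGroup Y] [NormedSpace 𝕜 Y]

lemma compact_two (f g : X →L[𝕜] 𝕜) (y0 y1 : Y) :
    IsCompactOperator (f.smulRight y0 + g.smulRight y1 : X →L[𝕜] Y) := by
  have h : ∀ (f : X →L[𝕜] 𝕜) (y : Y), IsCompactOperator (f.smulRight y : X →L[𝕜] Y) := by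
    intro f y
    have h1 : IsCompactOperator (f : X → 𝕜) := isCompactOperator_of_locallyCompactSpace_dom f
    exact h1.clm_comp (ContinuousLinearMap.toSpanSingleton 𝕜 y)
  exact (h f y0).add (h g y1)

variable [NormedSpace ℝ X] [IsScalarTower ℝ 𝕜 X]

/-- **Main step.** -/
theorem main_step (Φ : lp (fun _ : ℕ => 𝕜) 1 ≃ₗᵢ[𝕜] (X →L[𝕜] 𝕜)) (h : CompactBPBpRSE 𝕜 X Y)
    {ε : ℝ} (hε : 0 < ε) : ∃ δ > 0, ∀ y0 y1 : Y, (∀ w : 𝕜, ‖w‖ = 1 → ‖y0 + w • y1‖ ≤ 1) →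
      ε < ‖y1‖ → ‖y0‖ < 1 - δ := by
  set ε0 := min ε 1 with hε0
  have hε0p : 0 < ε0 := lt_min hε one_pos
  have hε01 : ε0 ≤ 1 := min_le_right _ _
  have hε0ε : ε0 ≤ ε := min_le_left _ _
  set s := ε0 / 8 with hs
  set ε2 := ε0 ^ 3 / 1024 with hε2
  have hε2p : 0 < ε2 := by positivity
  have hε2s : ε2 ≤ ε0 / 1024 := by
    rw [hε2]
    have : ε0 ^ 3 ≤ ε0 := by nlinarith [sq_nonneg ε0, mul_pos hε0p hε0p]
    linarith
  obtain ⟨η, hη0, hη1, hη⟩ := h (ε2 / 2) (by positivity)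
  refine ⟨η / 4, by positivity, fun y0 y1 hy hy1 => ?_⟩
  by_contra hcon
  push Not at hcon
  -- norms of y0 and y1
  have hy0n : ‖y0‖ ≤ 1 := by
    have := comb_le hy (a := 1) (b := 0) (by simp) (by simp)
    simpa using this
  have hy1n : ‖y1‖ ≤ 1 := by
    have := comb_le hy (a := 0) (b := 1) (by simp) (by simp)
    simpa using this
  set δ' := η / 8 with hδ'
  obtain ⟨p, hp, hp0, hp1⟩ := exists_point Φ (s := (1 : 𝕜)) (by simp) (δ := δ') (by positivity)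
  obtain ⟨q, hq, hq0, hq1⟩ := exists_point Φ (s := (-1 : 𝕜)) (by simp) (δ := δ') (by positivity)
  set x : X := (2⁻¹ : 𝕜) • (p + q) with hx
  set e : X := (2⁻¹ : 𝕜) • (p - q) with he
  have hxe : x + e = p := by rw [hx, he]; module
  have hxe' : x - e = q := by rw [hx, he]; module
  have h2n : ‖(2⁻¹ : 𝕜)‖ = 1 / 2 := by simp
  have hxn : ‖x‖ ≤ 1 := by
    rw [hx, norm_smul, h2n]
    have := norm_add_le p q
    linarith
  have hen : ‖e‖ ≤ 1 := by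
    rw [he, norm_smul, h2n]
    have := norm_sub_le p q
    linarith
  have avg : ∀ a b c d : 𝕜, ‖a - c‖ < δ' → ‖b - d‖ < δ' →
      ‖(2⁻¹ : 𝕜) * (a + b) - (2⁻¹ : 𝕜) * (c + d)‖ ≤ δ' := by
    intro a b c d h1 h2
    have : (2⁻¹ : 𝕜) * (a + b) - (2⁻¹ : 𝕜) * (c + d) = (2⁻¹ : 𝕜) * ((a - c) + (b - d)) := by ring
    rw [this, norm_mul, h2n]
    have := norm_add_le (a - c) (b - d)
    linarith
  have avg' : ∀ a b c d : 𝕜, ‖a - c‖ < δ' → ‖b - d‖ < δ' →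
      ‖(2⁻¹ : 𝕜) * (a - b) - (2⁻¹ : 𝕜) * (c - d)‖ ≤ δ' := by
    intro a b c d h1 h2
    have : (2⁻¹ : 𝕜) * (a - b) - (2⁻¹ : 𝕜) * (c - d) = (2⁻¹ : 𝕜) * ((a - c) - (b - d)) := by ring
    rw [this, norm_mul, h2n]
    have := norm_sub_le (a - c) (b - d)
    linarith
  have f0x : ‖co Φ 0 x - 1‖ ≤ δ' := by
    have := avg _ _ _ _ hp0 hq0
    rw [hx, map_smul, map_add, smul_eq_mul]
    convert this using 3
    ring
  have f1x : ‖co Φ 1 x‖ ≤ δ' := by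
    have := avg _ _ _ _ hp1 hq1
    rw [hx, map_smul, map_add, smul_eq_mul]
    convert this using 2
    ring
  have f0e : ‖co Φ 0 e‖ ≤ δ' := by
    have := avg' _ _ _ _ hp0 hq0
    rw [he, map_smul, map_sub, smul_eq_mul]
    convert this using 2
    ring
  have f1e : ‖co Φ 1 e - 1‖ ≤ δ' := by
    have := avg' _ _ _ _ hp1 hq1
    rw [he, map_smul, map_sub, smul_eq_mul]
    convert this using 3
    ring
  have f0x' : 1 - δ' ≤ ‖co Φ 0 x‖ := by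
    have h1 := norm_sub_norm_le (1 : 𝕜) (co Φ 0 x)
    rw [norm_one, norm_sub_rev] at h1
    linarith
  have f1e' : 1 - δ' ≤ ‖co Φ 1 e‖ := by
    have h1 := norm_sub_norm_le (1 : 𝕜) (co Φ 1 e)
    rw [norm_one, norm_sub_rev] at h1
    linarith
  -- the operator
  set T : X →L[𝕜] Y := (co Φ 0).smulRight y0 + (co Φ 1).smulRight y1 with hT
  have hTa : ∀ z, T z = co Φ 0 z • y0 + co Φ 1 z • y1 := fun z => rfl
  have hTn : ‖T‖ ≤ 1 := by
    refine ContinuousLinearMap.opNorm_le_bound _ zero_le_one fun z => ?_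
    by_cases hz : z = 0
    · simp [hz]
    have hzn : 0 < ‖z‖ := norm_pos_iff.mpr hz
    have h1 : ‖T ((((‖z‖)⁻¹ : ℝ) : 𝕜) • z)‖ ≤ 1 := by
      have h3 : ‖(((‖z‖)⁻¹ : ℝ) : 𝕜) • z‖ = 1 := by
        rw [norm_smul, RCLike.norm_ofReal, abs_of_pos (by positivity), inv_mul_cancel₀ hzn.ne']
      rw [hTa]
      exact comb_le hy ((norm_co_apply_le Φ 0 _).trans h3.le) ((norm_co_apply_le Φ 1 _).trans h3.le)
    rw [map_smul, norm_smul, RCLike.norm_ofReal, abs_of_pos (by positivity),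
      inv_mul_le_iff₀ hzn, mul_one] at h1
    rw [one_mul]
    exact h1
  have hTx : 1 - η / 2 ≤ ‖T x‖ := by
    have h1 : ‖co Φ 0 x • y0‖ - ‖co Φ 1 x • y1‖ ≤ ‖T x‖ := by
      rw [hTa]
      have := norm_sub_norm_le (co Φ 0 x • y0) (-(co Φ 1 x • y1))
      rw [norm_neg, sub_neg_eq_add] at this
      exact this
    rw [norm_smul, norm_smul] at h1
    have h2 : ‖co Φ 1 x‖ * ‖y1‖ ≤ δ' * 1 :=
      mul_le_mul f1x hy1n (norm_nonneg _) (by positivity)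
    have h3 : (1 - δ') * (1 - η / 4) ≤ ‖co Φ 0 x‖ * ‖y0‖ := by
      apply mul_le_mul f0x' hcon _ (norm_nonneg _)
      have : η < 1 := by
        have : ε2 / 2 < 1 := by linarith
        linarith
      linarith
    have h4 : 0 ≤ δ' * (η / 4) := by positivity
    nlinarith
  have hη1' : η < ε0 / 2048 := by linarith
  have hTpos : 0 < ‖T‖ := by
    have h1 := T.le_opNorm x
    have h2 : ‖T‖ * ‖x‖ ≤ ‖T‖ * 1 := mul_le_mul_of_nonneg_left hxn (norm_nonneg _)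
    linarith
  have hTlow : 1 - η / 2 ≤ ‖T‖ := by
    have h1 := T.le_opNorm x
    have h2 : ‖T‖ * ‖x‖ ≤ ‖T‖ * 1 := mul_le_mul_of_nonneg_left hxn (norm_nonneg _)
    linarith
  have hxpos : 1 - δ' ≤ ‖x‖ := f0x'.trans (norm_co_apply_le Φ 0 x)
  have hxpos' : 0 < ‖x‖ := by linarith
  set x' : X := (((‖x‖)⁻¹ : ℝ) : 𝕜) • x with hx'
  set T' : X →L[𝕜] Y := (((‖T‖)⁻¹ : ℝ) : 𝕜) • T with hT'
  have hx'n : ‖x'‖ = 1 := by
    rw [hx', norm_smul, RCLike.norm_ofReal, abs_of_pos (by positivity), inv_mul_cancel₀ hxpos'.ne']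
  have hT'n : ‖T'‖ = 1 := by
    rw [hT', norm_smul, RCLike.norm_ofReal, abs_of_pos (by positivity), inv_mul_cancel₀ hTpos.ne']
  have hxx' : ‖x - x'‖ ≤ δ' := by
    have h1 : x - x' = ((1 - (‖x‖)⁻¹ : ℝ) : 𝕜) • x := by
      rw [hx']; push_cast; module
    have h3 : 1 ≤ (‖x‖)⁻¹ := (one_le_inv₀ hxpos').mpr hxn
    have h2 : |1 - (‖x‖)⁻¹| = (‖x‖)⁻¹ - 1 := by
      rw [abs_of_nonpos (by linarith)]; ring
    rw [h1, norm_smul, RCLike.norm_ofReal, h2, sub_mul, inv_mul_cancel₀ hxpos'.ne', one_mul]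
    linarith
  have hTT' : ‖T' - T‖ ≤ η / 2 := by
    have h1 : T' - T = (((‖T‖)⁻¹ - 1 : ℝ) : 𝕜) • T := by
      rw [hT']; push_cast; module
    have h3 : 1 ≤ (‖T‖)⁻¹ := (one_le_inv₀ hTpos).mpr hTn
    rw [h1, norm_smul, RCLike.norm_ofReal, abs_of_nonneg (by linarith), sub_mul,
      inv_mul_cancel₀ hTpos.ne', one_mul]
    linarith
  have hT'x' : 1 - η < ‖T' x'‖ := by
    have h1 : ‖T' x'‖ = (‖T‖)⁻¹ * ((‖x‖)⁻¹ * ‖T x‖) := by
      rw [hT', hx', ContinuousLinearMap.smul_apply, map_smul, norm_smul, norm_smul,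
        RCLike.norm_ofReal, RCLike.norm_ofReal, abs_of_pos (by positivity),
        abs_of_pos (by positivity)]
    rw [h1]
    have h3 : 1 ≤ (‖T‖)⁻¹ := (one_le_inv₀ hTpos).mpr hTn
    have h4 : 1 ≤ (‖x‖)⁻¹ := (one_le_inv₀ hxpos').mpr hxn
    have h5 : ‖T x‖ ≤ (‖x‖)⁻¹ * ‖T x‖ := le_mul_of_one_le_left (norm_nonneg _) h4
    have h6 : (‖x‖)⁻¹ * ‖T x‖ ≤ (‖T‖)⁻¹ * ((‖x‖)⁻¹ * ‖T x‖) :=
      le_mul_of_one_le_left (by positivity) h3
    linarith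
  have hT'c : IsCompactOperator T' := by
    have := (compact_two (co Φ 0) (co Φ 1) y0 y1).smul (((‖T‖)⁻¹ : ℝ) : 𝕜)
    exact this
  obtain ⟨S, x0, -, hSrse, hx0, hSn, hSx0, hST, hxx0⟩ := hη T' hT'c hT'n x' hx'n hT'x'
  have hx0x : ‖x0 - x‖ ≤ ε2 := by
    have h1 : x0 - x = -(x' - x0) - (x - x') := by abel
    rw [h1]
    refine (norm_sub_le _ _).trans ?_
    rw [norm_neg]
    linarith
  have hSe : ‖S e‖ ≤ s := by
    apply rse_step hSrse hSn hx0 hSx0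
    intro θ hθ
    refine exists_lens Φ (x := x) (ε2 := ε2) (s := s) (by rw [hxe]; exact hp.le)
      (by rw [hxe']; exact hq.le) hx0.le hx0x (by positivity) ?_ le_rfl ?_ hθ
    · linarith
    · rw [hε2, hs]
      nlinarith [pow_pos hε0p 3]
  have hTe : ‖T e‖ ≤ η / 2 + ε2 / 2 + s := by
    have h1 : T e = -((T' - T) e) - ((S - T') e) + S e := by
      simp only [ContinuousLinearMap.sub_apply]; abel
    rw [h1]
    have h2 : ‖(T' - T) e‖ ≤ η / 2 := by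
      calc ‖(T' - T) e‖ ≤ ‖T' - T‖ * ‖e‖ := ContinuousLinearMap.le_opNorm _ _
        _ ≤ (η / 2) * 1 := mul_le_mul hTT' hen (norm_nonneg _) (by positivity)
        _ = η / 2 := mul_one _
    have h3 : ‖(S - T') e‖ ≤ ε2 / 2 := by
      calc ‖(S - T') e‖ ≤ ‖S - T'‖ * ‖e‖ := ContinuousLinearMap.le_opNorm _ _
        _ ≤ (ε2 / 2) * 1 := mul_le_mul hST.le hen (norm_nonneg _) (by positivity)
        _ = ε2 / 2 := mul_one _
    calc ‖-((T' - T) e) - ((S - T') e) + S e‖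
        ≤ ‖-((T' - T) e) - ((S - T') e)‖ + ‖S e‖ := norm_add_le _ _
      _ ≤ (‖-((T' - T) e)‖ + ‖(S - T') e‖) + ‖S e‖ := by gcongr; exact norm_sub_le _ _
      _ ≤ _ := by rw [norm_neg]; linarith
  have hTe' : ‖y1‖ - 2 * δ' ≤ ‖T e‖ := by
    have h1 : ‖co Φ 1 e • y1‖ - ‖co Φ 0 e • y0‖ ≤ ‖T e‖ := by
      rw [hTa, add_comm]
      have := norm_sub_norm_le (co Φ 1 e • y1) (-(co Φ 0 e • y0))
      rw [norm_neg, sub_neg_eq_add] at this
      exact this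
    rw [norm_smul, norm_smul] at h1
    have h2 : ‖co Φ 0 e‖ * ‖y0‖ ≤ δ' * 1 := mul_le_mul f0e hy0n (norm_nonneg _) (by positivity)
    have h3 : (1 - δ') * ‖y1‖ ≤ ‖co Φ 1 e‖ * ‖y1‖ :=
      mul_le_mul_of_nonneg_right f1e' (norm_nonneg _)
    have h4 : δ' * ‖y1‖ ≤ δ' * 1 := mul_le_mul_of_nonneg_left hy1n (by positivity)
    linarith
  linarith

end

/-- `Y` is uniformly convex. -/
def IsUniformlyConvex (Y : Type v) [NormedAddCommGroup Y] : Prop :=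
  ∀ ε : ℝ, 0 < ε → ∃ δ : ℝ, 0 < δ ∧ δ < 1 ∧ ∀ y1 y2 : Y, ‖y1‖ = 1 → ‖y2‖ = 1 →
    1 - δ < ‖y1 + y2‖ / 2 → ‖y1 - y2‖ < ε

/-- `Y` is `ℂ`-uniformly convex. -/
def IsComplexUniformlyConvex (Y : Type v) [NormedAddCommGroup Y] [NormedSpace ℂ Y] : Prop :=
  ∀ ε : ℝ, 0 < ε → ∃ δ : ℝ, 0 < δ ∧ ∀ y0 y1 : Y, (∀ w : ℂ, ‖w‖ = 1 → ‖y0 + w • y1‖ ≤ 1) →
    ε < ‖y1‖ → ‖y0‖ < 1 - δ

/-- `X` is an `ℓ₁`-predual. -/
def IsL1Predual (𝕜 : Type) [RCLike 𝕜] (X : Type u) [NormedAddCommGroup X] [NormedSpace 𝕜 X] :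
    Prop :=
  Nonempty (lp (fun _ : ℕ => 𝕜) 1 ≃ₗᵢ[𝕜] (X →L[𝕜] 𝕜))

theorem real_case {X : Type u} {Y : Type v} [NormedAddCommGroup X] [NormedSpace ℝ X]
    [NormedAddCommGroup Y] [NormedSpace ℝ Y] (hX : IsL1Predual ℝ X)
    (h : CompactBPBpRSE ℝ X Y) : IsUniformlyConvex Y := by
  obtain ⟨Φ⟩ := hX
  intro ε hε
  obtain ⟨δ, hδ, hδ'⟩ := main_step Φ h (ε := ε / 4) (by positivity)
  refine ⟨min δ (1 / 2), lt_min hδ (by norm_num), lt_of_le_of_lt (min_le_right _ _) (by norm_num),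
    fun y1 y2 h1 h2 h12 => ?_⟩
  by_contra hcon
  push Not at hcon
  have h3 := hδ' ((1 / 2 : ℝ) • (y1 + y2)) ((1 / 2 : ℝ) • (y1 - y2)) (by
    intro w hw
    have hw' : w = 1 ∨ w = -1 := by
      rw [Real.norm_eq_abs] at hw
      exact eq_or_eq_neg_of_abs_eq hw
    rcases hw' with rfl | rfl
    · have : (1 / 2 : ℝ) • (y1 + y2) + (1 : ℝ) • (1 / 2 : ℝ) • (y1 - y2) = y1 := by module
      rw [this, h1]
    · have : (1 / 2 : ℝ) • (y1 + y2) + (-1 : ℝ) • (1 / 2 : ℝ) • (y1 - y2) = y2 := by module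
      rw [this, h2]) (by
    rw [norm_smul]
    norm_num
    linarith)
  rw [norm_smul] at h3
  norm_num at h3
  have := min_le_left δ (1 / 2)
  linarith

theorem complex_case {X : Type u} {Y : Type v} [NormedAddCommGroup X] [NormedSpace ℂ X]
    [NormedAddCommGroup Y] [NormedSpace ℂ Y] (hX : IsL1Predual ℂ X)
    (h : CompactBPBpRSE ℂ X Y) : IsComplexUniformlyConvex Y := by
  obtain ⟨Φ⟩ := hX
  intro ε hε
  obtain ⟨δ, hδ, hδ'⟩ := main_step Φ h (ε := ε) hε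
  exact ⟨δ, hδ, hδ'⟩

end Pool.Agent.R287.BP
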