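import Mathlib

/-! Density of `2 ^ p / 3 ^ q` in the positive reals. -/

set_option autoImplicit false

open Filter Topology

namespace Pool.Agent.R287.CD

theorem irrational_log : Irrational (Real.log 2 / Real.log 3) := by
  rintro ⟨r, hr⟩
  have h2 : 0 < Real.log 2 := Real.log_pos (by norm_num)
  have h3 : 0 < Real.log 3 := Real.log_pos (by norm_num)
  have hr0 : 0 < r := by
    have : (0 : ℝ) < (r : ℝ) := by rw [hr]; positivity
    exact_mod_cast this
  have hnum : 0 < r.num := Rat.num_pos.2 hr0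
  obtain ⟨m, hm⟩ := Int.eq_ofNat_of_zero_le hnum.le
  have hm0 : 0 < m := by omega
  have hden : (0 : ℝ) < r.den := by exact_mod_cast r.den_pos
  have h4 : (r.den : ℝ) * Real.log 2 = m * Real.log 3 := by
    have h5 : (r : ℝ) = (m : ℝ) / (r.den : ℝ) := by
      rw [Rat.cast_def, hm, Int.cast_natCast]
    rw [h5, div_eq_div_iff hden.ne' h3.ne'] at hr
    linarith
  rw [← Real.log_pow, ← Real.log_pow] at h4
  have h6 : (2 : ℝ) ^ r.den = 3 ^ m := Real.log_injOn_pos (by simp) (by simp) h4
  have h7 : 2 ^ r.den = 3 ^ m := by exact_mod_cast h6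
  have h8 : 2 ∣ 3 ^ m := by
    rw [← h7]
    exact dvd_pow_self 2 r.den_pos.ne'
  have h9 := Nat.Prime.dvd_of_dvd_pow Nat.prime_two h8
  omega

theorem dense_scalars (t ε : ℝ) (ht : 0 < t) (hε : 0 < ε) :
    ∃ p q : ℕ, |(2 : ℝ) ^ p * (1 / 3) ^ q - t| < ε := by
  set a := Real.log 2 with ha
  set b := Real.log 3 with hb
  have ha0 : 0 < a := Real.log_pos (by norm_num)
  have hb0 : 0 < b := Real.log_pos (by norm_num)
  -- continuity of exp at `log t`
  obtain ⟨δ, hδ, hδe⟩ := Metric.continuous_iff.1 Real.continuous_exp (Real.log t) ε hε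
  haveI : Fact (0 < b) := ⟨hb0⟩
  have hd : DenseRange (fun n : ℤ => n • (a : AddCircle b)) :=
    AddCircle.denseRange_zsmul_coe_iff.2 irrational_log
  have hd' : DenseRange (fun n : ℕ => n • (a : AddCircle b)) := denseRange_zsmul_iff_nsmul.1 hd
  obtain ⟨N, hN⟩ := exists_nat_gt ((|Real.log t| + δ) / a)
  rw [div_lt_iff₀ ha0] at hN
  obtain ⟨n, hn⟩ := hd'.exists_dist_lt ((Real.log t - N * a : ℝ) : AddCircle b) hδ
  -- unfold the distance on the circle
  rw [dist_eq_norm] at hn
  have h1 : ((Real.log t - N * a : ℝ) : AddCircle b) - n • (a : AddCircle b) =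
      ((Real.log t - N * a - n * a : ℝ) : AddCircle b) := by
    push_cast
    simp [nsmul_eq_mul]
  rw [h1, AddCircle.norm_eq] at hn
  set z : ℤ := round (b⁻¹ * (Real.log t - N * a - n * a)) with hz
  have h2 : |Real.log t - (N + n : ℕ) * a - z * b| < δ := by
    have : Real.log t - (N + n : ℕ) * a - z * b = Real.log t - N * a - n * a - z * b := by
      push_cast; ring
    rw [this]
    exact hn
  have hz0 : z ≤ 0 := by
    by_contra hcon
    push Not at hcon
    have h3 : (1 : ℝ) ≤ z := by exact_mod_cast hcon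
    have h4 := (abs_lt.1 h2).1
    have h5 := le_abs_self (Real.log t)
    have h6 : (N : ℝ) * a ≤ ((N + n : ℕ) : ℝ) * a := by
      push_cast
      have : (0 : ℝ) ≤ (n : ℝ) * a := by positivity
      nlinarith
    nlinarith
  obtain ⟨q, hq⟩ := Int.eq_ofNat_of_zero_le (by omega : 0 ≤ -z)
  refine ⟨N + n, q, ?_⟩
  have h3 : (z : ℝ) = -(q : ℝ) := by
    have : z = -(q : ℤ) := by omega
    rw [this]; push_cast; ring
  have h4 := hδe (((N + n : ℕ) : ℝ) * a - q * b) (by
    rw [Real.dist_eq, abs_sub_comm]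
    rw [h3] at h2
    convert h2 using 2
    ring)
  rw [Real.dist_eq, Real.exp_log ht] at h4
  have h5 : Real.exp (((N + n : ℕ) : ℝ) * a - q * b) = (2 : ℝ) ^ (N + n) * (1 / 3) ^ q := by
    rw [Real.exp_sub, mul_comm, Real.exp_mul, ha, Real.exp_log (by norm_num), Real.rpow_natCast,
      mul_comm (q : ℝ) b, Real.exp_mul, hb, Real.exp_log (by norm_num), Real.rpow_natCast,
      one_div, inv_pow, div_eq_mul_inv]
  rw [h5] at h4
  exact h4

end Pool.Agent.R287.CD
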