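import Pool.Agent.R287.CDa

set_option autoImplicit false

open Filter Topology

namespace Pool.Agent.R287.CD

variable {𝕜 : Type*} [RCLike 𝕜] {V : Type*} [NormedAddCommGroup V] [NormedSpace 𝕜 V]

/-- The ray `{t w : t > 0}`. -/
def ray (𝕜 : Type*) [RCLike 𝕜] {V : Type*} [NormedAddCommGroup V] [NormedSpace 𝕜 V] (w : V) :
    Set V := {x | ∃ t : ℝ, 0 < t ∧ x = (t : 𝕜) • w}

/-- The orbit `{s v : s ∈ S}`. -/
def orb (S : Subsemigroup (V ≃ₗ[𝕜] V)) (v : V) : Set V := {x | ∃ s ∈ S, x = s v}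

/-- `S` is generated by finitely many pairwise commuting elements of `GL(V)`. -/
def FGComm (S : Subsemigroup (V ≃ₗ[𝕜] V)) : Prop :=
  ∃ T : Set (V ≃ₗ[𝕜] V), T.Finite ∧ T.Nonempty ∧ (∀ a ∈ T, ∀ b ∈ T, a * b = b * a) ∧
    S = Subsemigroup.closure T

/-- `A` is coarsely dense along `Y`. -/
def CoarselyDenseAlong {X : Type*} [MetricSpace X] (A Y : Set X) : Prop :=
  ∃ D : ℝ, 0 < D ∧ Y ⊆ ⋃ a ∈ A, Metric.ball a D

/-- `A` is somewhere dense. -/
def SomewhereDense {X : Type*} [TopologicalSpace X] (A : Set X) : Prop :=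
  (interior (closure A)).Nonempty

/-- the sets of non-negative integer combinations -/
def comb {m : ℕ} (c : Fin m → ℝ) : Set ℝ := {x | ∃ α : Fin m → ℕ, x = ∑ i, (α i : ℝ) * c i}

theorem comb_zero {m : ℕ} (c : Fin m → ℝ) : (0 : ℝ) ∈ comb c := ⟨fun _ => 0, by simp⟩

theorem comb_add {m : ℕ} (c : Fin m → ℝ) {x y : ℝ} (hx : x ∈ comb c) (hy : y ∈ comb c) :
    x + y ∈ comb c := by
  obtain ⟨α, rfl⟩ := hx
  obtain ⟨β, rfl⟩ := hy
  refine ⟨α + β, ?_⟩
  rw [← Finset.sum_add_distrib]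
  refine Finset.sum_congr rfl fun i _ => ?_
  rw [Pi.add_apply]; push_cast; ring

theorem comb_mem {m : ℕ} (c : Fin m → ℝ) (i : Fin m) : c i ∈ comb c := by
  refine ⟨fun j => if j = i then 1 else 0, ?_⟩
  simp

theorem comb_finite {m : ℕ} (c : Fin m → ℝ) (hc : ∀ i, 1 ≤ c i) (L : ℝ) :
    {x ∈ comb c | x ≤ L}.Finite := by
  have h1 : ({α : Fin m → ℕ | ∀ i, α i ∈ Set.Iic ⌊L⌋₊}).Finite := by
    have := Set.Finite.pi' (fun _ : Fin m => Set.finite_Iic ⌊L⌋₊)
    exact this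
  refine (h1.image (fun α => ∑ i, (α i : ℝ) * c i)).subset ?_
  rintro x ⟨⟨α, rfl⟩, hL⟩
  refine ⟨α, fun i => ?_, rfl⟩
  rw [Set.mem_Iic]
  refine Nat.le_floor ?_
  refine le_trans ?_ hL
  have h2 : (α i : ℝ) * c i ≤ ∑ j, (α j : ℝ) * c j :=
    Finset.single_le_sum (f := fun j => (α j : ℝ) * c j)
      (fun j _ => mul_nonneg (Nat.cast_nonneg _) (zero_le_one.trans (hc j))) (Finset.mem_univ i)
  refine le_trans ?_ h2
  have h3 : (0 : ℝ) ≤ α i := Nat.cast_nonneg _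
  nlinarith [hc i]

/-- shears -/
noncomputable def shear (l : V →ₗ[𝕜] 𝕜) (k : V) (c : 𝕜) (hk : l k = 0) (hc : c ≠ 0) :
    V ≃ₗ[𝕜] V where
  toFun x := c • x + l x • k
  map_add' x y := by rw [map_add]; module
  map_smul' r x := by rw [map_smul, RingHom.id_apply, smul_eq_mul]; module
  invFun x := c⁻¹ • x - (c⁻¹ * c⁻¹ * l x) • k
  left_inv x := by
    simp only [map_add, map_smul, hk, smul_eq_mul, mul_zero, add_zero]
    have h1 : c⁻¹ * c⁻¹ * (c * l x) = c⁻¹ * l x := by field_simp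
    rw [h1, smul_add, smul_smul, smul_smul, inv_mul_cancel₀ hc, one_smul]
    abel
  right_inv x := by
    simp only [map_sub, map_smul, hk, smul_eq_mul, mul_zero, sub_zero]
    rw [smul_sub, smul_smul, smul_smul, mul_inv_cancel₀ hc, one_smul]
    have h1 : c * (c⁻¹ * c⁻¹ * l x) = c⁻¹ * l x := by field_simp
    rw [h1]
    abel

theorem shear_apply (l : V →ₗ[𝕜] 𝕜) (k : V) (c : 𝕜) (hk : l k = 0) (hc : c ≠ 0) (x : V) :
    shear l k c hk hc x = c • x + l x • k := rfl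

theorem shear_comm (l : V →ₗ[𝕜] 𝕜) (k k' : V) (c c' : 𝕜) (hk : l k = 0) (hc : c ≠ 0)
    (hk' : l k' = 0) (hc' : c' ≠ 0) :
    shear l k c hk hc * shear l k' c' hk' hc' = shear l k' c' hk' hc' * shear l k c hk hc := by
  ext x
  rw [LinearEquiv.mul_apply, LinearEquiv.mul_apply]
  simp only [shear_apply, map_add, map_smul, hk, hk', smul_eq_mul, mul_zero, add_zero]
  module

/-- the shape of the elements -/
def Good {m : ℕ} (l μ : V →ₗ[𝕜] 𝕜) (c : Fin m → ℝ) (s : V ≃ₗ[𝕜] V) : Prop :=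
  ∃ (a : 𝕜) (k : V), a ≠ 0 ∧ l k = 0 ∧ (∀ x, s x = a • x + l x • k) ∧
    RCLike.re (μ k / a) ∈ comb c

theorem Good.mul {m : ℕ} {l μ : V →ₗ[𝕜] 𝕜} {c : Fin m → ℝ} {s t : V ≃ₗ[𝕜] V}
    (hs : Good l μ c s) (ht : Good l μ c t) : Good l μ c (s * t) := by
  obtain ⟨a, k, ha, hk, hs1, hs2⟩ := hs
  obtain ⟨b, h, hb, hh, ht1, ht2⟩ := ht
  refine ⟨a * b, a • h + b • k, mul_ne_zero ha hb, by simp [hk, hh], fun x => ?_, ?_⟩
  · rw [LinearEquiv.mul_apply, hs1, ht1]
    simp only [map_add, map_smul, hh, smul_eq_mul, mul_zero, add_zero]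
    module
  · have h1 : μ (a • h + b • k) / (a * b) = μ h / b + μ k / a := by
      simp only [map_add, map_smul, smul_eq_mul]
      field_simp
    rw [h1, map_add, add_comm]
    exact comb_add c hs2 ht2

theorem not_somewhereDense {m : ℕ} (l μ : V →ₗ[𝕜] 𝕜) (hl : Continuous l) (hμ : Continuous μ)
    (k1 : V) (hk1 : l k1 = 0) (hμk1 : μ k1 = 1) (v0 : V) (hv0 : l v0 = 1) (c : Fin m → ℝ)
    (hc : ∀ i, 1 ≤ c i)
    (S : Subsemigroup (V ≃ₗ[𝕜] V)) (hS : ∀ s ∈ S, Good l μ c s) (v : V) :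
    ¬ SomewhereDense (orb S v) := by
  rintro ⟨y0, hy0⟩
  set U := interior (closure (orb S v)) with hU
  have hUo : IsOpen U := isOpen_interior
  -- a point of `U` with `l y ≠ 0`
  obtain ⟨y1, hy1, hly1⟩ : ∃ y ∈ U, l y ≠ 0 := by
    by_cases h : l y0 = 0
    · have hcont : Continuous fun t : ℝ => y0 + (t : 𝕜) • v0 := by fun_prop
      have h1 : ∀ᶠ t : ℝ in 𝓝 0, y0 + (t : 𝕜) • v0 ∈ U := by
        refine hcont.continuousAt.eventually_mem ?_
        simpa using hUo.mem_nhds hy0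
      obtain ⟨ε, hε, hε'⟩ := Metric.eventually_nhds_iff.1 h1
      refine ⟨y0 + ((ε / 2 : ℝ) : 𝕜) • v0, hε' (by
        rw [dist_zero_right, Real.norm_eq_abs, abs_of_pos (by positivity)]; linarith), ?_⟩
      rw [map_add, h, map_smul, hv0, zero_add, smul_eq_mul, mul_one]
      exact_mod_cast (by positivity : ε / 2 ≠ 0)
    · exact ⟨y0, hy0, h⟩
  set a : ℝ := RCLike.re (μ y1 / l y1) with ha
  -- the values on the orbit
  have hval : ∀ y ∈ orb S v, l y ≠ 0 → ∃ n ∈ comb c, RCLike.re (μ y / l y) =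
      RCLike.re (μ v / l v) + n := by
    rintro y ⟨s, hs, rfl⟩ hly
    obtain ⟨b, k, hb, hk, hs1, hs2⟩ := hS s hs
    have h1 : l (s v) = b * l v := by
      rw [hs1, map_add, map_smul, map_smul, hk]; simp
    rw [h1] at hly
    have hlv : l v ≠ 0 := right_ne_zero_of_mul hly
    refine ⟨_, hs2, ?_⟩
    rw [h1, hs1, ← map_add]
    congr 1
    rw [map_add, map_smul, map_smul]
    simp only [smul_eq_mul]
    field_simp
  set F : Set ℝ := (fun n => RCLike.re (μ v / l v) + n) '' {x ∈ comb c | x ≤ a + 1 -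
    RCLike.re (μ v / l v)} with hF
  have hFfin : F.Finite := (comb_finite c hc _).image _
  -- move along `k1`
  have hcont : Continuous fun t : ℝ => y1 + ((t : 𝕜) * l y1) • k1 := by fun_prop
  have h1 : ∀ᶠ t : ℝ in 𝓝 0, y1 + ((t : 𝕜) * l y1) • k1 ∈ U := by
    refine hcont.continuousAt.eventually_mem ?_
    simpa using hUo.mem_nhds hy1
  obtain ⟨ε, hε, hε'⟩ := Metric.eventually_nhds_iff.1 h1
  obtain ⟨t, ⟨ht0, ht1⟩, htF⟩ : ∃ t ∈ Set.Ioo (0 : ℝ) (min ε 1), a + t ∉ F := by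
    have hinf : (Set.Ioo (0 : ℝ) (min ε 1)).Infinite := Set.Ioo_infinite (lt_min hε one_pos)
    by_contra hcon
    push Not at hcon
    refine hinf (((hFfin.image fun x => x - a)).subset fun t ht => ⟨a + t, hcon t ht, by ring⟩)
  have htε : t < ε := ht1.trans_le (min_le_left _ _)
  have ht1' : t < 1 := ht1.trans_le (min_le_right _ _)
  set y2 : V := y1 + ((t : 𝕜) * l y1) • k1 with hy2
  have hy2U : y2 ∈ U := hε' (by
    rw [dist_zero_right, Real.norm_eq_abs, abs_of_pos ht0]; exact htε)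
  have hly2 : l y2 = l y1 := by rw [hy2, map_add, map_smul, hk1]; simp
  have hval2 : RCLike.re (μ y2 / l y2) = a + t := by
    rw [hly2, hy2, map_add, map_smul, hμk1, smul_eq_mul, mul_one, add_div,
      mul_div_cancel_right₀ _ hly1, map_add, RCLike.ofReal_re]
  -- an open set around `y2`
  have hopen : IsOpen ({x : ℝ | x ∉ F} ∩ Set.Iio (a + 1)) :=
    (hFfin.isClosed.isOpen_compl).inter isOpen_Iio
  have hmem : RCLike.re (μ y2 / l y2) ∈ ({x : ℝ | x ∉ F} ∩ Set.Iio (a + 1)) := by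
    rw [hval2]; exact ⟨htF, by rw [Set.mem_Iio]; linarith⟩
  have hly2' : l y2 ≠ 0 := by rw [hly2]; exact hly1
  have hca : ContinuousAt (fun y => RCLike.re (μ y / l y)) y2 := by
    refine RCLike.continuous_re.continuousAt.comp ?_
    exact hμ.continuousAt.div hl.continuousAt hly2'
  have hev : ∀ᶠ y in 𝓝 y2, y ∈ U ∧ l y ≠ 0 ∧
      RCLike.re (μ y / l y) ∈ ({x : ℝ | x ∉ F} ∩ Set.Iio (a + 1)) := by
    refine (hUo.eventually_mem hy2U).and ((hl.continuousAt.eventually_ne hly2').and ?_)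
    exact hca.eventually_mem (hopen.mem_nhds hmem)
  have hcl : y2 ∈ closure (orb S v) := interior_subset hy2U
  obtain ⟨y, hy5, -, hy2, hy3, hy4⟩ :=
    ((mem_closure_iff_frequently.1 hcl).and_eventually hev).exists
  obtain ⟨n, hn1, hn2⟩ := hval y hy5 hy2
  rw [Set.mem_Iio] at hy4
  refine hy3 ⟨n, ⟨hn1, ?_⟩, hn2.symm⟩
  linarith

theorem negative [FiniteDimensional 𝕜 V] (hdim : 2 ≤ Module.finrank 𝕜 V) (m : ℕ) (w : Fin m → V)
    (hw : ∀ i, w i ≠ 0) :
    ∃ S : Subsemigroup (V ≃ₗ[𝕜] V), FGComm S ∧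
      (∃ v, CoarselyDenseAlong (orb S v) (⋃ i, ray 𝕜 (w i))) ∧
      ∀ v, ¬ SomewhereDense (orb S v) := by
  obtain ⟨l, hl⟩ := Module.exists_dual_forall_apply_ne_zero (K := 𝕜) w hw
  -- a nonzero functional in any case
  obtain ⟨l, hl, hl0⟩ : ∃ l : V →ₗ[𝕜] 𝕜, (∀ i, l (w i) ≠ 0) ∧ l ≠ 0 := by
    by_cases h0 : l = 0
    · have hm : IsEmpty (Fin m) := ⟨fun i => hl i (by rw [h0]; rfl)⟩
      haveI : Nontrivial V := Module.nontrivial_of_finrank_pos (R := 𝕜) (by omega)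
      obtain ⟨u, hu⟩ := exists_ne (0 : V)
      obtain ⟨l', hl'⟩ := Module.exists_dual_forall_apply_ne_zero (K := 𝕜) (fun _ : Fin 1 => u)
        (fun _ => hu)
      exact ⟨l', fun i => (hm.false i).elim, fun h => hl' 0 (by rw [h]; rfl)⟩
    · exact ⟨l, hl, h0⟩
  obtain ⟨u, hu⟩ : ∃ u, l u ≠ 0 := by
    by_contra hcon
    push Not at hcon
    exact hl0 (LinearMap.ext hcon)
  set v0 : V := (l u)⁻¹ • u with hv0
  have hlv0 : l v0 = 1 := by rw [hv0, map_smul, smul_eq_mul, inv_mul_cancel₀ hu]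
  -- the kernel is nontrivial
  obtain ⟨k1, hk1, hk10⟩ : ∃ k1, l k1 = 0 ∧ k1 ≠ 0 := by
    have h1 := LinearMap.finrank_range_add_finrank_ker l
    have h2 : Module.finrank 𝕜 (LinearMap.range l) ≤ 1 := by
      have := Submodule.finrank_le (LinearMap.range l)
      rwa [Module.finrank_self] at this
    have h3 : 0 < Module.finrank 𝕜 (LinearMap.ker l) := by omega
    haveI : Nontrivial (LinearMap.ker l) := Module.nontrivial_of_finrank_pos h3
    obtain ⟨k, hk⟩ := exists_ne (0 : LinearMap.ker l)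
    exact ⟨k, k.2, fun h => hk (Subtype.ext h)⟩
  obtain ⟨μ', hμ'⟩ := Module.exists_dual_forall_apply_ne_zero (K := 𝕜) (fun _ : Fin 1 => k1)
    (fun _ => hk10)
  set μ : V →ₗ[𝕜] 𝕜 := (μ' k1)⁻¹ • μ' with hμ
  have hμk1 : μ k1 = 1 := by
    rw [hμ, LinearMap.smul_apply, smul_eq_mul, inv_mul_cancel₀ (hμ' 0)]
  obtain ⟨R, hR⟩ : ∃ R : ℝ, ∀ i, 1 ≤ RCLike.re (μ (w i) / l (w i) - μ v0) + R := by
    obtain ⟨R, hR⟩ := (Set.finite_range fun i => 1 - RCLike.re (μ (w i) / l (w i) - μ v0)).bddAbove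
    refine ⟨R, fun i => ?_⟩
    have := hR ⟨i, rfl⟩
    simp only at this
    linarith
  set v : V := v0 - (R : 𝕜) • k1 with hv
  have hlv : l v = 1 := by rw [hv, map_sub, hlv0, map_smul, hk1]; simp
  set k : Fin m → V := fun i => w i - l (w i) • v with hk
  have hlk : ∀ i, l (k i) = 0 := fun i => by
    rw [hk]
    simp only [map_sub, map_smul, hlv, smul_eq_mul, mul_one, sub_self]
  set c : Fin m → ℝ := fun i => RCLike.re (μ (k i) / l (w i)) with hc
  have hc1 : ∀ i, 1 ≤ c i := by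
    intro i
    have h1 : μ (k i) / l (w i) = μ (w i) / l (w i) - μ v0 + (R : 𝕜) := by
      rw [hk, hv]
      simp only [map_sub, map_smul, hμk1, smul_eq_mul, mul_one]
      field_simp [hl i]
      ring
    rw [hc]
    simp only
    rw [h1, map_add, RCLike.ofReal_re]
    exact hR i
  have h2ne : (2 : 𝕜) ≠ 0 := two_ne_zero
  have h3ne : (3 : 𝕜)⁻¹ ≠ 0 := inv_ne_zero three_ne_zero
  set s2 : V ≃ₗ[𝕜] V := shear l 0 2 (map_zero l) h2ne with hs2
  set s3 : V ≃ₗ[𝕜] V := shear l 0 (3 : 𝕜)⁻¹ (map_zero l) h3ne with hs3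
  set g : Fin m → (V ≃ₗ[𝕜] V) := fun i => shear l (k i) (l (w i)) (hlk i) (hl i) with hg
  set T : Set (V ≃ₗ[𝕜] V) := {s2, s3} ∪ Set.range g with hT
  have hshape : ∀ a ∈ T, ∃ (b : 𝕜) (h : V) (hh : l h = 0) (hb : b ≠ 0), a = shear l h b hh hb := by
    rintro a ((rfl | rfl) | ⟨i, rfl⟩)
    · exact ⟨_, _, _, _, rfl⟩
    · exact ⟨_, _, _, _, rfl⟩
    · exact ⟨_, _, _, _, rfl⟩
  set S := Subsemigroup.closure T with hS
  have hsub : T ⊆ S := Subsemigroup.subset_closure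
  have h2S : s2 ∈ S := hsub (Or.inl (Or.inl rfl))
  have h3S : s3 ∈ S := hsub (Or.inl (Or.inr rfl))
  have hgS : ∀ i, g i ∈ S := fun i => hsub (Or.inr ⟨i, rfl⟩)
  refine ⟨S, ⟨T, ((Set.finite_singleton _).insert _).union (Set.finite_range g), ⟨s2, Or.inl (Or.inl rfl)⟩,
    ?_, rfl⟩, ⟨v, 1, one_pos, ?_⟩, fun x => ?_⟩
  · intro a ha b hb
    obtain ⟨a1, a2, a3, a4, rfl⟩ := hshape a ha
    obtain ⟨b1, b2, b3, b4, rfl⟩ := hshape b hb
    exact shear_comm _ _ _ _ _ _ _ _ _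
  · intro y hy
    rw [Set.mem_iUnion] at hy
    obtain ⟨i, t, ht, rfl⟩ := hy
    obtain ⟨p, q, hpq⟩ := dense_scalars t (1 / ‖w i‖) ht (by
      have := norm_pos_iff.2 (hw i); positivity)
    -- multiplication by scalars
    have hmul2 : ∀ (p : ℕ) (s : V ≃ₗ[𝕜] V), s ∈ S → ∃ s' ∈ S, ∀ x, s' x = (2 : 𝕜) ^ p • s x := by
      intro p
      induction p with
      | zero => exact fun s hs => ⟨s, hs, fun x => by rw [pow_zero, one_smul]⟩
      | succ p ih =>
        intro s hs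
        obtain ⟨s', hs', hs''⟩ := ih s hs
        refine ⟨s2 * s', S.mul_mem h2S hs', fun x => ?_⟩
        rw [LinearEquiv.mul_apply, hs2, shear_apply, smul_zero, add_zero, hs'', smul_smul, pow_succ,
          mul_comm]
    have hmul3 : ∀ (p : ℕ) (s : V ≃ₗ[𝕜] V), s ∈ S →
        ∃ s' ∈ S, ∀ x, s' x = ((3 : 𝕜)⁻¹) ^ p • s x := by
      intro p
      induction p with
      | zero => exact fun s hs => ⟨s, hs, fun x => by rw [pow_zero, one_smul]⟩
      | succ p ih =>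
        intro s hs
        obtain ⟨s', hs', hs''⟩ := ih s hs
        refine ⟨s3 * s', S.mul_mem h3S hs', fun x => ?_⟩
        rw [LinearEquiv.mul_apply, hs3, shear_apply, smul_zero, add_zero, hs'', smul_smul, pow_succ,
          mul_comm]
    obtain ⟨s', hs'S, hs'⟩ := hmul3 q (g i) (hgS i)
    obtain ⟨s, hsS, hs⟩ := hmul2 p s' hs'S
    rw [Set.mem_iUnion₂]
    refine ⟨s v, ⟨s, hsS, rfl⟩, ?_⟩
    have h1 : s v = (((2 : ℝ) ^ p * (1 / 3) ^ q : ℝ) : 𝕜) • w i := by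
      rw [hs, hs', hg, shear_apply, hlv, one_smul, hk]
      simp only
      rw [add_sub_cancel, smul_smul]
      congr 1
      push_cast
      rw [one_div]
    rw [Metric.mem_ball, h1, dist_comm, dist_eq_norm, ← sub_smul, norm_smul, ← RCLike.ofReal_sub,
      RCLike.norm_ofReal]
    have h2 := norm_pos_iff.2 (hw i)
    rwa [lt_div_iff₀ h2] at hpq
  · refine not_somewhereDense l μ l.continuous_of_finiteDimensional
      μ.continuous_of_finiteDimensional k1 hk1 hμk1 v0 hlv0 c hc1 S (fun s hs => ?_) x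
    induction hs using Subsemigroup.closure_induction with
    | mem s hs =>
      rcases hs with (h | h) | ⟨i, rfl⟩
      · refine ⟨2, 0, h2ne, map_zero l, fun x => ?_, ?_⟩
        · rw [h, hs2, shear_apply]
        · rw [map_zero, zero_div, map_zero]; exact comb_zero c
      · rw [Set.mem_singleton_iff] at h
        refine ⟨(3 : 𝕜)⁻¹, 0, h3ne, map_zero l, fun x => ?_, ?_⟩
        · rw [h, hs3, shear_apply]
        · rw [map_zero, zero_div, map_zero]; exact comb_zero c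
      · exact ⟨l (w i), k i, hl i, hlk i, fun x => rfl, comb_mem c i⟩
    | mul s t _ _ hs ht => exact hs.mul ht

end Pool.Agent.R287.CD
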