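import Mathlib

/-! A strictly convex renorming of the space of convergent sequences with a Daugavet point. -/

set_option autoImplicit false

open scoped ENNReal
open Filter Topology

namespace Pool.Agent.R287.DP

/-- the Hilbert space. -/
noncomputable abbrev G := lp (fun _ : ℕ => ℝ) 2

/-- the big space of bounded sequences of `G`. -/
noncomputable abbrev Big := lp (fun _ : ℕ => G) ∞

noncomputable def e (n : ℕ) : G := lp.single 2 n (1 : ℝ)

theorem norm_e (n : ℕ) : ‖e n‖ = 1 := by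
  unfold e
  rw [lp.norm_single (by norm_num)]
  simp

theorem e_same (n : ℕ) : (e n) n = 1 := by
  unfold e
  rw [lp.single_apply_self]

theorem e_ne {n m : ℕ} (h : m ≠ n) : (e n) m = 0 := by
  unfold e
  rw [lp.single_apply_ne _ _ _ h]

/-- weights. -/
noncomputable def c (j : ℕ) : ℝ := (1 / 2) ^ j

theorem c_pos (j : ℕ) : 0 < c j := by unfold c; positivity

theorem c_le (j : ℕ) : c j ≤ 1 := by
  unfold c
  exact pow_le_one₀ (by norm_num) (by norm_num)

theorem c_zero : c 0 = 1 := by simp [c]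

theorem tendsto_c : Tendsto c atTop (𝓝 0) := by
  unfold c
  exact tendsto_pow_atTop_nhds_zero_of_lt_one (by norm_num) (by norm_num)

/-- coordinates. -/
noncomputable def al (j : ℕ) : Big →L[ℝ] ℝ :=
  (lp.evalCLM ℝ (fun _ : ℕ => ℝ) 2 0).comp (lp.evalCLM ℝ (fun _ : ℕ => G) ∞ j)

theorem al_apply (j : ℕ) (u : Big) : al j u = (u j) 0 := rfl

theorem abs_al_le (j : ℕ) (u : Big) : |al j u| ≤ ‖u j‖ := by
  rw [al_apply, ← Real.norm_eq_abs]
  exact lp.norm_apply_le_norm (by norm_num) (u j) 0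

/-- the space. -/
noncomputable def X : Submodule ℝ Big where
  carrier := {u | (∀ j, u j = (al j u) • e 0 + c j • (u 0 - (al 0 u) • e 0)) ∧
    (∀ i, (u 0) (i + 1) = c (i + 1) * (al (i + 1) u - al 0 u)) ∧
    Tendsto (fun j => al j u) atTop (𝓝 (al 0 u))}
  add_mem' := by
    rintro u v ⟨hu1, hu2, hu3⟩ ⟨hv1, hv2, hv3⟩
    refine ⟨fun j => ?_, fun i => ?_, ?_⟩
    · have h1 := hu1 j
      have h2 := hv1 j
      simp only [lp.coeFn_add, Pi.add_apply, map_add]
      rw [h1, h2]
      module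
    · simp only [lp.coeFn_add, Pi.add_apply, map_add]
      rw [hu2, hv2]; ring
    · simp only [map_add]
      exact hu3.add hv3
  zero_mem' := by
    refine ⟨fun j => ?_, fun i => ?_, ?_⟩
    · simp
    · simp
    · simp
  smul_mem' := by
    rintro r u ⟨hu1, hu2, hu3⟩
    refine ⟨fun j => ?_, fun i => ?_, ?_⟩
    · have h1 := hu1 j
      simp only [lp.coeFn_smul, Pi.smul_apply, map_smul]
      rw [h1]
      simp only [smul_eq_mul]
      module
    · simp only [lp.coeFn_smul, Pi.smul_apply, map_smul, smul_eq_mul]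
      rw [hu2]; ring
    · simp only [map_smul]
      exact hu3.const_smul r

theorem mem_X {u : Big} : u ∈ X ↔ (∀ j, u j = (al j u) • e 0 + c j • (u 0 - (al 0 u) • e 0)) ∧
    (∀ i, (u 0) (i + 1) = c (i + 1) * (al (i + 1) u - al 0 u)) ∧
    Tendsto (fun j => al j u) atTop (𝓝 (al 0 u)) := Iff.rfl

noncomputable def ev (j : ℕ) : Big →L[ℝ] G := lp.evalCLM ℝ (fun _ : ℕ => G) ∞ j

theorem ev_apply (j : ℕ) (u : Big) : ev j u = u j := rfl

theorem isClosed_lim : IsClosed {u : Big | Tendsto (fun j => al j u) atTop (𝓝 (al 0 u))} := by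
  rw [← isSeqClosed_iff_isClosed]
  intro u v hu huv
  simp only [Set.mem_setOf_eq] at hu ⊢
  rw [Metric.tendsto_atTop]
  intro ε hε
  rw [Metric.tendsto_atTop] at huv
  obtain ⟨N, hN⟩ := huv (ε / 3) (by positivity)
  have h1 := hN N le_rfl
  rw [dist_eq_norm] at h1
  have h2 : ∀ j, |al j (u N) - al j v| < ε / 3 := by
    intro j
    rw [← map_sub]
    refine lt_of_le_of_lt (abs_al_le _ _) (lt_of_le_of_lt ?_ h1)
    exact lp.norm_apply_le_norm (by norm_num) _ j
  obtain ⟨J, hJ⟩ := (Metric.tendsto_atTop.1 (hu N)) (ε / 3) (by positivity)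
  refine ⟨J, fun j hj => ?_⟩
  have h3 := hJ j hj
  rw [Real.dist_eq] at h3 ⊢
  have h4 := h2 j
  have h5 := h2 0
  rw [abs_lt] at *
  constructor <;> linarith [h3.1, h3.2, h4.1, h4.2, h5.1, h5.2]

theorem isClosed_X : IsClosed (X : Set Big) := by
  have : (X : Set Big) = (⋂ j, {u : Big | ev j u = (al j u) • e 0 + c j • (ev 0 u - (al 0 u) • e 0)}) ∩
      ((⋂ i, {u : Big | (ev 0 u) (i + 1) = c (i + 1) * (al (i + 1) u - al 0 u)}) ∩
      {u : Big | Tendsto (fun j => al j u) atTop (𝓝 (al 0 u))}) := by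
    ext u
    simp only [SetLike.mem_coe, mem_X, Set.mem_inter_iff, Set.mem_iInter, Set.mem_setOf_eq, ev_apply]
  rw [this]
  refine IsClosed.inter (isClosed_iInter fun j => ?_) (IsClosed.inter (isClosed_iInter fun i => ?_)
    isClosed_lim)
  · refine isClosed_eq (ev j).continuous ?_
    have h1 := (al j).continuous
    have h2 := (al 0).continuous
    have h3 := (ev 0).continuous
    fun_prop
  · refine isClosed_eq ?_ ?_
    · exact ((lp.evalCLM ℝ (fun _ : ℕ => ℝ) 2 (i + 1)).continuous).comp (ev 0).continuous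
    · have h1 := (al (i + 1)).continuous
      have h2 := (al 0).continuous
      fun_prop

noncomputable instance : CompleteSpace X := isClosed_X.completeSpace_coe

/-- the norm is attained at a coordinate -/
theorem attained (m : X) : ∃ j, ‖(m : Big) j‖ = ‖m‖ := by
  by_contra hcon
  push Not at hcon
  have hle : ∀ j, ‖(m : Big) j‖ ≤ ‖m‖ := fun j => lp.norm_apply_le_norm (by norm_num) (m : Big) j
  have hlt : ∀ j, ‖(m : Big) j‖ < ‖m‖ := fun j => lt_of_le_of_ne (hle j) (hcon j)
  obtain ⟨h1, h2, h3⟩ := mem_X.1 m.2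
  set u : Big := (m : Big) with hu
  set t : ℝ := (‖u 0‖ + ‖m‖) / 2 with ht
  have ht1 : ‖u 0‖ < t := by rw [ht]; linarith [hlt 0]
  have ht2 : t < ‖m‖ := by rw [ht]; linarith [hlt 0]
  have hb : ∀ j, ‖u j‖ ≤ |al j u| + c j * ‖u 0 - (al 0 u) • e 0‖ := by
    intro j
    rw [h1 j]
    refine (norm_add_le _ _).trans ?_
    rw [norm_smul, norm_e, mul_one, Real.norm_eq_abs, norm_smul, Real.norm_eq_abs,
      abs_of_pos (c_pos j)]
  have hlim : Tendsto (fun j => |al j u| + c j * ‖u 0 - (al 0 u) • e 0‖) atTop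
      (𝓝 (|al 0 u| + 0 * ‖u 0 - (al 0 u) • e 0‖)) :=
    (h3.abs).add (tendsto_c.mul_const _)
  rw [zero_mul, add_zero] at hlim
  have hev : ∀ᶠ j in atTop, |al j u| + c j * ‖u 0 - (al 0 u) • e 0‖ < t :=
    hlim.eventually_lt_const (lt_of_le_of_lt (abs_al_le 0 u) ht1)
  obtain ⟨J, hJ⟩ := eventually_atTop.1 hev
  -- finite maximum
  obtain ⟨M, hM1, hM2⟩ : ∃ M : ℝ, M < ‖m‖ ∧ ∀ j < J, ‖u j‖ ≤ M := by
    clear hJ hev
    induction J with
    | zero => exact ⟨t, ht2, fun j hj => absurd hj (by omega)⟩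
    | succ J ih =>
      obtain ⟨M, hM1, hM2⟩ := ih
      refine ⟨max M ‖u J‖, max_lt hM1 (hlt J), fun j hj => ?_⟩
      rcases Nat.lt_succ_iff_lt_or_eq.1 hj with h | h
      · exact (hM2 j h).trans (le_max_left _ _)
      · rw [h]; exact le_max_right _ _
  have hfin : ‖m‖ ≤ max M t := by
    refine lp.norm_le_of_forall_le ?_ fun j => ?_
    · exact le_max_of_le_right ((norm_nonneg _).trans ht1.le)
    · rcases lt_or_ge j J with h | h
      · exact (hM2 j h).trans (le_max_left _ _)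
      · exact ((hb j).trans (hJ j h).le).trans (le_max_right _ _)
  exact absurd hfin (not_le.2 (max_lt hM1 ht2))

theorem strict (x y : X) (hx : ‖x‖ = 1) (hy : ‖y‖ = 1) (hxy : ‖x + y‖ = 2) : x = y := by
  obtain ⟨j, hj⟩ := attained (x + y)
  rw [hxy] at hj
  have hxj : ‖(x : Big) j‖ ≤ 1 := hx ▸ lp.norm_apply_le_norm (by norm_num) (x : Big) j
  have hyj : ‖(y : Big) j‖ ≤ 1 := hy ▸ lp.norm_apply_le_norm (by norm_num) (y : Big) j
  have hsum : ‖(x : Big) j + (y : Big) j‖ = 2 := by
    rw [← hj]; rfl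
  have heq : (x : Big) j = (y : Big) j := by
    have h1 := parallelogram_law_with_norm ℝ ((x : Big) j) ((y : Big) j)
    have h2 : ‖(x : Big) j - (y : Big) j‖ = 0 := by
      have h3 := norm_nonneg ((x : Big) j - (y : Big) j)
      have h4 := norm_nonneg ((x : Big) j)
      have h5 := norm_nonneg ((y : Big) j)
      rw [hsum] at h1
      nlinarith
    exact sub_eq_zero.1 (norm_eq_zero.1 h2)
  obtain ⟨hx1, hx2, -⟩ := mem_X.1 x.2
  obtain ⟨hy1, hy2, -⟩ := mem_X.1 y.2
  have hal : al j (x : Big) = al j (y : Big) := by rw [al_apply, al_apply, heq]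
  have h0 : (x : Big) 0 - (al 0 (x : Big)) • e 0 = (y : Big) 0 - (al 0 (y : Big)) • e 0 := by
    have h1 := heq
    rw [hx1 j, hy1 j, hal] at h1
    have h2 := add_left_cancel h1
    exact smul_right_injective _ (c_pos j).ne' h2
  have hcoord : ∀ i, al i (x : Big) - al 0 (x : Big) = al i (y : Big) - al 0 (y : Big) := by
    intro i
    rcases Nat.eq_zero_or_pos i with h | h
    · rw [h]; ring
    · obtain ⟨k, rfl⟩ : ∃ k, i = k + 1 := ⟨i - 1, by omega⟩
      have h1 := congrArg (fun g : G => g (k + 1)) h0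
      simp only [lp.coeFn_sub, Pi.sub_apply, lp.coeFn_smul, Pi.smul_apply] at h1
      rw [e_ne (by omega : k + 1 ≠ 0), smul_zero, smul_zero, sub_zero, sub_zero, hx2, hy2] at h1
      exact mul_left_cancel₀ (c_pos _).ne' h1
  have hall0 : al 0 (x : Big) = al 0 (y : Big) := by
    have := hcoord j
    linarith
  have hall : ∀ i, al i (x : Big) = al i (y : Big) := fun i => by
    have := hcoord i
    linarith
  have hz : (x : Big) 0 = (y : Big) 0 := by
    rw [hall0] at h0
    exact sub_left_injective h0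
  apply Subtype.ext
  apply lp.ext
  funext i
  rw [hx1 i, hy1 i, hall, hz, hall0]

/-! elements -/

/-- the constant one. -/
noncomputable def oneB : Big := ⟨fun _ => e 0, by
  refine memℓp_infty ⟨1, ?_⟩
  rintro _ ⟨j, rfl⟩
  exact (norm_e 0).le⟩

theorem oneB_apply (j : ℕ) : oneB j = e 0 := rfl

theorem al_oneB (j : ℕ) : al j oneB = 1 := by
  rw [al_apply, oneB_apply, e_same]

theorem oneB_mem : oneB ∈ X := by
  refine mem_X.2 ⟨fun j => ?_, fun i => ?_, ?_⟩
  · rw [al_oneB, al_oneB, oneB_apply, oneB_apply]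
    simp
  · rw [al_oneB, al_oneB, oneB_apply, e_ne (by omega)]
    simp
  · simp only [al_oneB]
    exact tendsto_const_nhds

noncomputable def one : X := ⟨oneB, oneB_mem⟩

theorem norm_one' : ‖one‖ = 1 := by
  refine le_antisymm ?_ ?_
  · refine lp.norm_le_of_forall_le zero_le_one fun j => ?_
    exact (norm_e 0).le
  · have := lp.norm_apply_le_norm (p := ∞) (by norm_num) oneB 0
    rw [oneB_apply, norm_e] at this
    exact this

/-- indicator of the coordinate `n + 1`. -/
noncomputable def EB (n : ℕ) : Big :=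
  ⟨fun j => (if j = n + 1 then (1 : ℝ) else 0) • e 0 + (c j * c (n + 1)) • e (n + 1), by
  refine memℓp_infty ⟨2, ?_⟩
  rintro _ ⟨j, rfl⟩
  refine (norm_add_le _ _).trans ?_
  rw [norm_smul, norm_smul, norm_e, norm_e, mul_one, mul_one, Real.norm_eq_abs, Real.norm_eq_abs,
    abs_of_pos (mul_pos (c_pos j) (c_pos (n + 1)))]
  have h1 : c j * c (n + 1) ≤ 1 := mul_le_one₀ (c_le _) (c_pos _).le (c_le _)
  have h2 : |(if j = n + 1 then (1 : ℝ) else 0)| ≤ 1 := by split_ifs <;> simp
  linarith⟩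

theorem EB_apply (n j : ℕ) : EB n j =
    (if j = n + 1 then (1 : ℝ) else 0) • e 0 + (c j * c (n + 1)) • e (n + 1) := rfl

theorem al_EB (n j : ℕ) : al j (EB n) = if j = n + 1 then 1 else 0 := by
  rw [al_apply, EB_apply]
  simp only [lp.coeFn_add, Pi.add_apply, lp.coeFn_smul, Pi.smul_apply]
  rw [e_same, e_ne (by omega : 0 ≠ n + 1)]
  simp

theorem EB_mem (n : ℕ) : EB n ∈ X := by
  refine mem_X.2 ⟨fun j => ?_, fun i => ?_, ?_⟩
  · rw [al_EB, al_EB, EB_apply, EB_apply, if_neg (by omega : ¬ (0 = n + 1)), c_zero]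
    module
  · rw [al_EB, al_EB, EB_apply, if_neg (by omega : ¬ (0 = n + 1)), c_zero]
    simp only [lp.coeFn_add, Pi.add_apply, lp.coeFn_smul, Pi.smul_apply]
    rcases eq_or_ne i n with rfl | hin
    · rw [e_same, e_ne (by omega), if_pos rfl]
      simp
    · rw [e_ne (by omega), e_ne (by omega), if_neg (by omega)]
      simp
  · simp only [al_EB]
    rw [if_neg (by omega : ¬ (0 = n + 1))]
    refine tendsto_const_nhds.congr' ?_
    filter_upwards [eventually_gt_atTop (n + 1)] with j hj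
    rw [if_neg (by omega)]

noncomputable def E (n : ℕ) : X := ⟨EB n, EB_mem n⟩

theorem signed_sum (s : ℕ → ℝ) (hs : ∀ n, |s n| ≤ 1) (N : ℕ) :
    ‖∑ n ∈ Finset.range N, s n • E n‖ ≤ 2 := by
  refine lp.norm_le_of_forall_le (by norm_num) fun j => ?_
  have h1 : ((∑ n ∈ Finset.range N, s n • E n : X) : Big) j =
      ∑ n ∈ Finset.range N, s n • (EB n j) := by
    have : ((∑ n ∈ Finset.range N, s n • E n : X) : Big) = ∑ n ∈ Finset.range N, s n • EB n := by
      push_cast
      rfl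
    rw [this]
    have h2 := map_sum (ev j) (fun n => s n • EB n) (Finset.range N)
    rw [ev_apply] at h2
    rw [h2]
    refine Finset.sum_congr rfl fun n _ => ?_
    rw [map_smul, ev_apply]
  change ‖((∑ n ∈ Finset.range N, s n • E n : X) : Big) j‖ ≤ 2
  rw [h1]
  have h2 : ∑ n ∈ Finset.range N, s n • (EB n j) =
      (∑ n ∈ Finset.range N, s n * (if j = n + 1 then (1 : ℝ) else 0)) • e 0 +
      ∑ n ∈ Finset.range N, (s n * (c j * c (n + 1))) • e (n + 1) := by
    rw [Finset.sum_smul, ← Finset.sum_add_distrib]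
    refine Finset.sum_congr rfl fun n _ => ?_
    rw [EB_apply, smul_add, smul_smul, smul_smul]
  rw [h2]
  refine (norm_add_le _ _).trans ?_
  have h3 : ‖(∑ n ∈ Finset.range N, s n * (if j = n + 1 then (1 : ℝ) else 0)) • e 0‖ ≤ 1 := by
    rw [norm_smul, norm_e, mul_one, Real.norm_eq_abs]
    by_cases hj : ∃ n ∈ Finset.range N, j = n + 1
    · obtain ⟨n, hn, hjn⟩ := hj
      rw [Finset.sum_eq_single_of_mem n hn]
      · rw [if_pos hjn, mul_one]; exact hs n
      · intro m _ hm
        rw [if_neg (by omega), mul_zero]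
    · push Not at hj
      rw [Finset.sum_eq_zero]
      · simp
      · intro n hn
        rw [if_neg (hj n hn), mul_zero]
  have h4 : ‖∑ n ∈ Finset.range N, (s n * (c j * c (n + 1))) • e (n + 1)‖ ≤ 1 := by
    refine (norm_sum_le _ _).trans ?_
    have h5 : ∀ n ∈ Finset.range N, ‖(s n * (c j * c (n + 1))) • e (n + 1)‖ ≤ c (n + 1) := by
      intro n _
      rw [norm_smul, norm_e, mul_one, Real.norm_eq_abs, abs_mul, abs_mul, abs_of_pos (c_pos j),
        abs_of_pos (c_pos (n + 1))]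
      have h6 := hs n
      have h7 := c_le j
      have h8 := c_pos j
      have h9 := c_pos (n + 1)
      have h10 := abs_nonneg (s n)
      have h11 : |s n| * c j ≤ 1 := mul_le_one₀ h6 h8.le h7
      nlinarith
    refine (Finset.sum_le_sum h5).trans ?_
    have h6 : ∀ N, ∑ n ∈ Finset.range N, c (n + 1) = 1 - c N := by
      intro N
      induction N with
      | zero => simp [c]
      | succ N ih =>
        rw [Finset.sum_range_succ, ih]
        unfold c
        rw [pow_succ]; ring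
    rw [h6]
    linarith [c_pos N]
  linarith

theorem weakly_null (f : X →L[ℝ] ℝ) : Tendsto (fun n => f (E n)) atTop (𝓝 0) := by
  have h1 : ∀ N, ∑ n ∈ Finset.range N, |f (E n)| ≤ ‖f‖ * 2 := by
    intro N
    have h2 : ∑ n ∈ Finset.range N, |f (E n)| =
        f (∑ n ∈ Finset.range N, (SignType.sign (f (E n)) : ℝ) • E n) := by
      rw [map_sum]
      refine Finset.sum_congr rfl fun n _ => ?_
      rw [map_smul, smul_eq_mul, sign_mul_self]
    rw [h2]
    refine (le_abs_self _).trans ?_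
    rw [← Real.norm_eq_abs]
    refine (f.le_opNorm _).trans ?_
    refine mul_le_mul_of_nonneg_left (signed_sum _ ?_ N) f.opNorm_nonneg
    intro n
    rcases lt_trichotomy (f (E n)) 0 with h | h | h
    · rw [sign_neg h]; simp
    · rw [h]; simp
    · rw [sign_pos h]; simp
  have h2 : Summable (fun n => |f (E n)|) :=
    summable_of_sum_range_le (fun n => abs_nonneg _) h1
  have h3 := h2.tendsto_atTop_zero
  exact (tendsto_zero_iff_abs_tendsto_zero _).2 h3

/-- Daugavet point. -/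
def IsDaugavetPoint {Y : Type} [NormedAddCommGroup Y] [NormedSpace ℝ Y] (x : Y) : Prop :=
  ‖x‖ = 1 ∧ ∀ (f : Y →L[ℝ] ℝ) (α ε : ℝ), ‖f‖ = 1 → 0 < α → 0 < ε →
    ∃ y : Y, ‖y‖ ≤ 1 ∧ 1 - α < f y ∧ 2 - ε < ‖x - y‖

theorem daugavet : IsDaugavetPoint one := by
  refine ⟨norm_one', fun f α ε hf hα hε => ?_⟩
  -- a point of the slice
  obtain ⟨y0, hy0, hfy0⟩ : ∃ y0 : X, ‖y0‖ < 1 ∧ 1 - α < f y0 := by
    obtain ⟨x, hx, hfx⟩ := f.exists_lt_apply_of_lt_opNorm (r := 1 - α) (by rw [hf]; linarith)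
    rw [Real.norm_eq_abs] at hfx
    rcases lt_abs.1 hfx with h | h
    · exact ⟨x, hx, h⟩
    · exact ⟨-x, by rwa [norm_neg], by rwa [map_neg]⟩
  set r : ℝ := 1 - min ε 1 / 2 with hr
  have hm1 : 0 < min ε 1 := lt_min hε one_pos
  have hm2 : min ε 1 ≤ 1 := min_le_right _ _
  have hm3 : min ε 1 ≤ ε := min_le_left _ _
  have hr0 : 0 ≤ r := by rw [hr]; linarith
  have hr1 : r < 1 := by rw [hr]; linarith
  set κ : ℕ → ℝ := fun n => r + al (n + 1) (y0 : Big) with hκ
  have hyj : ∀ j, ‖(y0 : Big) j‖ ≤ ‖y0‖ := fun j =>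
    lp.norm_apply_le_norm (by norm_num) (y0 : Big) j
  have hal : ∀ j, |al j (y0 : Big)| ≤ 1 := fun j =>
    ((abs_al_le j _).trans (hyj j)).trans hy0.le
  have hκb : ∀ n, |κ n| ≤ 2 := by
    intro n
    have h1 := hal (n + 1)
    rw [hκ]
    refine (abs_add_le _ _).trans ?_
    rw [abs_of_nonneg hr0]
    linarith
  have hc1 : Tendsto (fun n => c (n + 1)) atTop (𝓝 0) := (tendsto_add_atTop_iff_nat 1).2 tendsto_c
  have ha : ∀ᶠ n in atTop, 1 - α < f (y0 - κ n • E n) := by
    have h1 : Tendsto (fun n => f (y0 - κ n • E n)) atTop (𝓝 (f y0)) := by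
      have h2 : Tendsto (fun n => κ n * f (E n)) atTop (𝓝 0) := by
        have h3 := ((weakly_null f).abs).const_mul 2
        rw [abs_zero, mul_zero] at h3
        refine squeeze_zero_norm (fun n => ?_) h3
        rw [norm_mul, Real.norm_eq_abs, Real.norm_eq_abs]
        exact mul_le_mul_of_nonneg_right (hκb n) (abs_nonneg _)
      have h3 := (tendsto_const_nhds (x := f y0)).sub h2
      rw [sub_zero] at h3
      refine h3.congr fun n => ?_
      rw [map_sub, map_smul, smul_eq_mul]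
    exact h1.eventually_const_lt hfy0
  have hb : ∀ᶠ n in atTop, ‖y0‖ + 2 * c (n + 1) < 1 := by
    have h1 := (tendsto_const_nhds (x := ‖y0‖)).add (hc1.const_mul 2)
    rw [mul_zero, add_zero] at h1
    exact h1.eventually_lt_const hy0
  have hc : ∀ᶠ n in atTop, r + 4 * c (n + 1) < 1 := by
    have h1 := (tendsto_const_nhds (x := r)).add (hc1.const_mul 4)
    rw [mul_zero, add_zero] at h1
    exact h1.eventually_lt_const hr1
  obtain ⟨n, hn1, hn2, hn3⟩ := (ha.and (hb.and hc)).exists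
  obtain ⟨hy1, -, -⟩ := mem_X.1 y0.2
  have hcoe : ∀ j, ((y0 - κ n • E n : X) : Big) j = (y0 : Big) j - κ n • (EB n j) := fun j => rfl
  refine ⟨y0 - κ n • E n, ?_, hn1, ?_⟩
  · refine lp.norm_le_of_forall_le zero_le_one fun j => ?_
    change ‖((y0 - κ n • E n : X) : Big) j‖ ≤ 1
    rw [hcoe]
    have hcj := c_pos j
    have hcn := c_pos (n + 1)
    have h0 : ‖(κ n * (c j * c (n + 1))) • e (n + 1)‖ ≤ 2 * c (n + 1) := by
      rw [norm_smul, norm_e, mul_one, Real.norm_eq_abs, abs_mul, abs_mul, abs_of_pos hcj,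
        abs_of_pos hcn]
      have h1 := hκb n
      have h2 := c_le j
      have h3 := abs_nonneg (κ n)
      have h4 : |κ n| * c j ≤ 2 := by nlinarith
      nlinarith
    by_cases hj : j = n + 1
    · rw [EB_apply, if_pos hj, hy1 j]
      have h1 : al j (y0 : Big) • e 0 + c j • ((y0 : Big) 0 - al 0 (y0 : Big) • e 0) -
          κ n • ((1 : ℝ) • e 0 + (c j * c (n + 1)) • e (n + 1)) =
          (-r) • e 0 + (c j • ((y0 : Big) 0 - al 0 (y0 : Big) • e 0) -
            (κ n * (c j * c (n + 1))) • e (n + 1)) := by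
        rw [hκ, hj]
        module
      rw [h1]
      refine (norm_add_le _ _).trans ?_
      have h2 : ‖(-r) • e 0‖ = r := by
        rw [norm_smul, norm_e, mul_one, Real.norm_eq_abs, abs_neg, abs_of_nonneg hr0]
      have h3 : ‖c j • ((y0 : Big) 0 - al 0 (y0 : Big) • e 0)‖ ≤ 2 * c (n + 1) := by
        rw [norm_smul, Real.norm_eq_abs, abs_of_pos hcj, hj]
        have h4 : ‖(y0 : Big) 0 - al 0 (y0 : Big) • e 0‖ ≤ 2 := by
          refine (norm_sub_le _ _).trans ?_
          rw [norm_smul, norm_e, mul_one, Real.norm_eq_abs]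
          linarith [hyj 0, hal 0]
        nlinarith
      have h4 := norm_sub_le (c j • ((y0 : Big) 0 - al 0 (y0 : Big) • e 0))
        ((κ n * (c j * c (n + 1))) • e (n + 1))
      linarith
    · rw [EB_apply, if_neg hj, zero_smul, zero_add, smul_smul]
      have h4 := norm_sub_le ((y0 : Big) j) ((κ n * (c j * c (n + 1))) • e (n + 1))
      linarith [hyj j]
  · have h1 : ‖((one - (y0 - κ n • E n) : X) : Big) (n + 1)‖ ≤ ‖one - (y0 - κ n • E n)‖ :=
      lp.norm_apply_le_norm (by norm_num) ((one - (y0 - κ n • E n) : X) : Big) (n + 1)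
    have h2 : |al (n + 1) ((one - (y0 - κ n • E n) : X) : Big)| ≤ ‖one - (y0 - κ n • E n)‖ :=
      (abs_al_le _ _).trans h1
    have h3 : al (n + 1) ((one - (y0 - κ n • E n) : X) : Big) = 1 + r := by
      have h4 : ((one - (y0 - κ n • E n) : X) : Big) = oneB - ((y0 : Big) - κ n • EB n) := rfl
      rw [h4, map_sub, map_sub, map_smul, al_oneB, al_EB, if_pos rfl, smul_eq_mul, mul_one, hκ]
      ring
    rw [h3, abs_of_nonneg (by linarith)] at h2
    rw [hr] at h2
    linarith

end Pool.Agent.R287.DP
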