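import Mathlib

/-! Bounded pointwise null sequences in `C(K)` are weakly null (via the Riesz-Kantorovich formula
and the Riesz-Markov-Kakutani theorem). -/

set_option autoImplicit false

open scoped Topology NNReal ENNReal CompactlySupported
open Filter MeasureTheory

namespace Pool.Agent.R287.FP

universe u

section P

variable {K : Type u} [TopologicalSpace K] [CompactSpace K] (ν : C(K, ℝ) →L[ℝ] ℝ)

/-- the set in the Riesz-Kantorovich formula -/
def Pset (f : C(K, ℝ)) : Set ℝ := {r | ∃ g : C(K, ℝ), (∀ x, |g x| ≤ f x) ∧ r = ν g}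

/-- the modulus -/
noncomputable def PP (f : C(K, ℝ)) : ℝ := sSup (Pset ν f)

variable {ν}

theorem norm_le_of_abs_le {f g : C(K, ℝ)} (h : ∀ x, |g x| ≤ f x) : ‖g‖ ≤ ‖f‖ := by
  refine (ContinuousMap.norm_le _ (norm_nonneg _)).2 fun x => ?_
  rw [Real.norm_eq_abs]
  refine (h x).trans ((le_abs_self _).trans ?_)
  exact ContinuousMap.norm_coe_le_norm f x

theorem bddAbove (f : C(K, ℝ)) : BddAbove (Pset ν f) := by
  refine ⟨‖ν‖ * ‖f‖, ?_⟩
  rintro r ⟨g, hg, rfl⟩
  refine (le_abs_self _).trans ((ν.le_opNorm g).trans ?_)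
  gcongr
  exact norm_le_of_abs_le hg

theorem le_PP {f g : C(K, ℝ)} (h : ∀ x, |g x| ≤ f x) : ν g ≤ PP ν f :=
  le_csSup (bddAbove f) ⟨g, h, rfl⟩

theorem zero_mem {f : C(K, ℝ)} (hf : ∀ x, 0 ≤ f x) : (0 : ℝ) ∈ Pset ν f :=
  ⟨0, fun x => by simpa using hf x, (map_zero ν).symm⟩

theorem PP_nonneg {f : C(K, ℝ)} (hf : ∀ x, 0 ≤ f x) : 0 ≤ PP ν f := le_csSup (bddAbove f) (zero_mem hf)

theorem PP_le {f : C(K, ℝ)} (hf : ∀ x, 0 ≤ f x) {c : ℝ}
    (h : ∀ g : C(K, ℝ), (∀ x, |g x| ≤ f x) → ν g ≤ c) : PP ν f ≤ c := by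
  refine csSup_le ⟨0, zero_mem hf⟩ ?_
  rintro r ⟨g, hg, rfl⟩
  exact h g hg

theorem abs_le_PP (g : C(K, ℝ)) : |ν g| ≤ PP ν |g| := by
  rw [abs_le]
  constructor
  · have := le_PP (ν := ν) (f := |g|) (g := -g) fun x => by
      rw [ContinuousMap.neg_apply, abs_neg, ContinuousMap.abs_apply]
    rw [map_neg] at this
    linarith
  · exact le_PP fun x => by rw [ContinuousMap.abs_apply]

theorem PP_add {f₁ f₂ : C(K, ℝ)} (h₁ : ∀ x, 0 ≤ f₁ x) (h₂ : ∀ x, 0 ≤ f₂ x) :
    PP ν (f₁ + f₂) = PP ν f₁ + PP ν f₂ := by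
  refine le_antisymm ?_ ?_
  · refine PP_le (fun x => add_nonneg (h₁ x) (h₂ x)) fun g hg => ?_
    set g₁ : C(K, ℝ) := (g ⊓ f₁) ⊔ (-f₁) with hg₁
    have e1 : ∀ x, g₁ x = max (min (g x) (f₁ x)) (-f₁ x) := fun x => rfl
    have e2 : ∀ x, |g₁ x| ≤ f₁ x := fun x => by
      rw [e1, abs_le]
      refine ⟨le_max_right _ _, max_le (min_le_right _ _) ?_⟩
      have := h₁ x
      linarith
    have e3 : ∀ x, |(g - g₁) x| ≤ f₂ x := fun x => by
      rw [ContinuousMap.sub_apply, e1]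
      have a1 := hg x
      have a2 := h₁ x
      have a3 := h₂ x
      rw [ContinuousMap.add_apply, abs_le] at a1
      rw [abs_le]
      rcases le_total (g x) (f₁ x) with b | b
      · rw [min_eq_left b]
        rcases le_total (g x) (-f₁ x) with c | c
        · rw [max_eq_right c]
          constructor <;> linarith
        · rw [max_eq_left c]
          constructor <;> linarith
      · rw [min_eq_right b, max_eq_left (by linarith)]
        constructor <;> linarith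
    have e4 : ν g = ν g₁ + ν (g - g₁) := by
      rw [← map_add, add_sub_cancel]
    rw [e4]
    exact add_le_add (le_PP e2) (le_PP e3)
  · have e1 : ∀ g₁ g₂ : C(K, ℝ), (∀ x, |g₁ x| ≤ f₁ x) → (∀ x, |g₂ x| ≤ f₂ x) →
        ν g₁ + ν g₂ ≤ PP ν (f₁ + f₂) := fun g₁ g₂ a b => by
      rw [← map_add]
      refine le_PP fun x => ?_
      rw [ContinuousMap.add_apply, ContinuousMap.add_apply]
      exact (abs_add_le _ _).trans (add_le_add (a x) (b x))
    have e2 : ∀ g₂ : C(K, ℝ), (∀ x, |g₂ x| ≤ f₂ x) → PP ν f₁ ≤ PP ν (f₁ + f₂) - ν g₂ :=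
      fun g₂ b => PP_le h₁ fun g₁ a => by
        have := e1 g₁ g₂ a b
        linarith
    have e3 : PP ν f₂ ≤ PP ν (f₁ + f₂) - PP ν f₁ := PP_le h₂ fun g₂ b => by
      have := e2 g₂ b
      linarith
    linarith

theorem PP_smul_le {f : C(K, ℝ)} (hf : ∀ x, 0 ≤ f x) {c : ℝ} (hc : 0 < c) :
    c * PP ν f ≤ PP ν (c • f) := by
  rw [← le_div_iff₀' hc]
  refine PP_le hf fun g hg => ?_
  rw [le_div_iff₀' hc]
  have : c * ν g = ν (c • g) := by rw [map_smul, smul_eq_mul]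
  rw [this]
  refine le_PP fun x => ?_
  rw [ContinuousMap.smul_apply, ContinuousMap.smul_apply, smul_eq_mul, smul_eq_mul, abs_mul,
    abs_of_pos hc]
  gcongr
  exact hg x

theorem PP_zero : PP ν 0 = 0 := by
  refine le_antisymm ?_ (PP_nonneg fun _ => le_rfl)
  refine PP_le (fun _ => le_rfl) fun g hg => ?_
  have : g = 0 := by
    ext x
    have := hg x
    rw [ContinuousMap.zero_apply, abs_nonpos_iff] at this
    exact this
  rw [this, map_zero]

theorem PP_smul {f : C(K, ℝ)} (hf : ∀ x, 0 ≤ f x) {c : ℝ} (hc : 0 ≤ c) :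
    PP ν (c • f) = c * PP ν f := by
  rcases hc.eq_or_lt with rfl | hc
  · rw [zero_smul, PP_zero, zero_mul]
  · refine le_antisymm ?_ (PP_smul_le hf hc)
    have h1 := PP_smul_le (ν := ν) (f := c • f) (fun x => by
      rw [ContinuousMap.smul_apply, smul_eq_mul]
      exact mul_nonneg hc.le (hf x)) (inv_pos.2 hc)
    rw [smul_smul, inv_mul_cancel₀ hc.ne', one_smul, ← div_eq_inv_mul, div_le_iff₀' hc] at h1
    exact h1

/-- real version of a nonnegative function -/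
def toR (f : C_c(K, ℝ≥0)) : C(K, ℝ) := ⟨fun x => (f x : ℝ), by fun_prop⟩

theorem toR_nonneg (f : C_c(K, ℝ≥0)) (x : K) : 0 ≤ toR f x := (f x).2

variable (ν) in
/-- the modulus as a positive functional. -/
noncomputable def Lam : C_c(K, ℝ≥0) →ₗ[ℝ≥0] ℝ≥0 where
  toFun f := ⟨PP ν (toR f), PP_nonneg (toR_nonneg f)⟩
  map_add' f g := by
    apply NNReal.eq
    change PP ν (toR (f + g)) = PP ν (toR f) + PP ν (toR g)
    rw [← PP_add (toR_nonneg f) (toR_nonneg g)]
    congr 1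
  map_smul' c f := by
    apply NNReal.eq
    change PP ν (toR (c • f)) = c * PP ν (toR f)
    have h1 := PP_smul (ν := ν) (toR_nonneg f) c.2
    refine Eq.trans ?_ h1
    congr 1

theorem weakly_null [T2Space K] (g : ℕ → C(K, ℝ)) (M : ℝ) (hM : ∀ n, ‖g n‖ ≤ M)
    (hg : ∀ x, Tendsto (fun n => g n x) atTop (𝓝 0)) (ν : C(K, ℝ) →L[ℝ] ℝ) :
    Tendsto (fun n => ν (g n)) atTop (𝓝 0) := by
  letI : MeasurableSpace K := borel K
  haveI : BorelSpace K := ⟨rfl⟩
  set h : ℕ → C_c(K, ℝ≥0) := fun n => ⟨⟨fun x => ‖g n x‖₊, by fun_prop⟩,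
    HasCompactSupport.of_compactSpace _⟩ with hh
  have hhx : ∀ n x, (h n x : ℝ≥0) = ‖g n x‖₊ := fun n x => rfl
  have hM0 : 0 ≤ M := (norm_nonneg _).trans (hM 0)
  have h1 : Tendsto (fun n => ∫⁻ x, (h n x : ℝ≥0∞) ∂(NNRealRMK.rieszMeasure (Lam ν))) atTop
      (𝓝 (∫⁻ _, 0 ∂(NNRealRMK.rieszMeasure (Lam ν)))) := by
    refine tendsto_lintegral_of_dominated_convergence (fun _ => ENNReal.ofReal M) ?_ ?_ ?_ ?_
    · intro n
      have : Continuous fun x => (h n x : ℝ≥0∞) := by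
        refine ENNReal.continuous_coe.comp ?_
        exact (h n).continuous
      exact this.measurable
    · intro n
      refine Eventually.of_forall fun x => ?_
      change ((h n x : ℝ≥0) : ℝ≥0∞) ≤ ENNReal.ofReal M
      rw [hhx, ENNReal.ofReal, ENNReal.coe_le_coe]
      apply NNReal.coe_le_coe.1
      rw [coe_nnnorm, Real.coe_toNNReal _ hM0]
      exact (ContinuousMap.norm_coe_le_norm _ _).trans (hM n)
    · rw [lintegral_const]
      exact ENNReal.mul_ne_top ENNReal.ofReal_ne_top (isCompact_univ.measure_lt_top).ne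
    · refine Eventually.of_forall fun x => ?_
      change Tendsto (fun n => ((h n x : ℝ≥0) : ℝ≥0∞)) atTop (𝓝 0)
      rw [← ENNReal.coe_zero, ENNReal.tendsto_coe]
      have h2 := (hg x).nnnorm
      rw [nnnorm_zero] at h2
      exact h2
  rw [lintegral_zero] at h1
  have h2 : Tendsto (fun n => ((Lam ν (h n) : ℝ≥0) : ℝ≥0∞)) atTop (𝓝 0) := by
    refine h1.congr fun n => ?_
    exact NNRealRMK.lintegral_rieszMeasure (Lam ν) (h n)
  rw [← ENNReal.coe_zero, ENNReal.tendsto_coe, ← NNReal.tendsto_coe] at h2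
  rw [NNReal.coe_zero] at h2
  refine squeeze_zero_norm (fun n => ?_) h2
  rw [Real.norm_eq_abs]
  refine (abs_le_PP (g n)).trans (le_of_eq ?_)
  change PP ν |g n| = PP ν (toR (h n))
  congr 1

end P

end Pool.Agent.R287.FP
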