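import Pool.Agent.R287.FPa

/-! Grothendieck: pointwise compact bounded sets of continuous functions are weakly compact. -/

set_option autoImplicit false

open scoped Topology
open Filter Set

namespace Pool.Agent.R287.FP

universe u v

variable {K : Type u} [TopologicalSpace K] [CompactSpace K] [T2Space K] [Nonempty K]
  {A : Type v} [TopologicalSpace A] [CompactSpace A]

theorem gro (Φ : A → C(K, ℝ)) (hΦ : ∀ x, Continuous fun a => Φ a x) (M : ℝ)
    (hM : ∀ a, ‖Φ a‖ ≤ M) (ν : C(K, ℝ) →L[ℝ] ℝ) : Continuous fun a => ν (Φ a) := by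
  classical
  rw [continuous_iff_continuousAt]
  intro a₀
  by_contra hcon
  rw [ContinuousAt, Metric.tendsto_nhds] at hcon
  push Not at hcon
  obtain ⟨ε, hε, hfr⟩ := hcon
  set B : Set A := {a | ε ≤ dist (ν (Φ a)) (ν (Φ a₀))} with hB
  have hcl : a₀ ∈ closure B := by
    rw [mem_closure_iff_frequently]
    refine hfr.mono fun a ha => ?_
    exact ha
  -- step (i)
  have step1 : ∀ n : ℕ, ∃ b : Finset A, (∀ a ∈ b, a ∈ B) ∧
      ∀ x : Fin n → K, ∃ a ∈ b, ∀ i, |Φ a (x i) - Φ a₀ (x i)| < 1 / ((n : ℝ) + 1) := by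
    intro n
    have hη : (0 : ℝ) < 1 / ((n : ℝ) + 1) := by positivity
    have hopen : ∀ b : B, IsOpen {x : Fin n → K | ∀ i, |Φ b (x i) - Φ a₀ (x i)| < 1 / ((n : ℝ) + 1)} :=
      fun b => by
        rw [show {x : Fin n → K | ∀ i, |Φ b (x i) - Φ a₀ (x i)| < 1 / ((n : ℝ) + 1)} =
          ⋂ i, {x : Fin n → K | |Φ b (x i) - Φ a₀ (x i)| < 1 / ((n : ℝ) + 1)} by
            ext x; simp]
        refine isOpen_iInter_of_finite fun i => ?_
        refine isOpen_lt ?_ continuous_const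
        fun_prop
    have hcov : (univ : Set (Fin n → K)) ⊆
        ⋃ b : B, {x : Fin n → K | ∀ i, |Φ b (x i) - Φ a₀ (x i)| < 1 / ((n : ℝ) + 1)} := by
      intro x _
      have hU : {a : A | ∀ i, |Φ a (x i) - Φ a₀ (x i)| < 1 / ((n : ℝ) + 1)} ∈ 𝓝 a₀ := by
        rw [show {a : A | ∀ i, |Φ a (x i) - Φ a₀ (x i)| < 1 / ((n : ℝ) + 1)} =
          ⋂ i, {a : A | |Φ a (x i) - Φ a₀ (x i)| < 1 / ((n : ℝ) + 1)} by ext a; simp]
        refine (Filter.iInter_mem).2 fun i => ?_
        refine (isOpen_lt ?_ continuous_const).mem_nhds ?_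
        · exact ((hΦ (x i)).sub continuous_const).abs
        · rw [mem_setOf_eq, sub_self, abs_zero]
          exact hη
      obtain ⟨b, hb1, hb2⟩ := mem_closure_iff_nhds.1 hcl _ hU
      rw [mem_iUnion]
      exact ⟨⟨b, hb2⟩, hb1⟩
    obtain ⟨t, ht⟩ := isCompact_univ.elim_finite_subcover _ hopen hcov
    refine ⟨t.image Subtype.val, ?_, fun x => ?_⟩
    · intro a ha
      rw [Finset.mem_image] at ha
      obtain ⟨b, _, rfl⟩ := ha
      exact b.2
    · have := ht (mem_univ x)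
      rw [mem_iUnion₂] at this
      obtain ⟨b, hb, hx⟩ := this
      exact ⟨b, Finset.mem_image_of_mem _ hb, hx⟩
  choose Bn hBn1 hBn2 using step1
  set J : Set A := insert a₀ (⋃ n, (Bn n : Set A)) with hJ
  have hJc : J.Countable := (countable_iUnion fun n => (Bn n).countable_toSet).insert a₀
  have : Countable J := hJc.to_subtype
  set π : K → (J → ℝ) := fun x b => Φ b x with hπ
  have hπc : Continuous π := continuous_pi fun b => (Φ b).continuous
  obtain ⟨D, hDc, hDd⟩ : ∃ D : Set K, D.Countable ∧ ∀ x, π x ∈ closure (π '' D) := by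
    have h1 : @SecondCountableTopology K (TopologicalSpace.induced π inferInstance) :=
      TopologicalSpace.secondCountableTopology_induced K (J → ℝ) π
    have h2 : @TopologicalSpace.SeparableSpace K (TopologicalSpace.induced π inferInstance) :=
      @TopologicalSpace.SecondCountableTopology.to_separableSpace K (TopologicalSpace.induced π inferInstance) h1
    obtain ⟨D, hDc, hDd⟩ := @TopologicalSpace.exists_countable_dense K
      (TopologicalSpace.induced π inferInstance) h2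
    refine ⟨D, hDc, fun x => ?_⟩
    exact (closure_induced (f := π)).1 (hDd x)
  have hcl2 : ∀ x, ∃ y ∈ closure D, π y = π x := by
    intro x
    have h1 : IsCompact (π '' closure D) := isClosed_closure.isCompact.image hπc
    have h2 : closure (π '' D) ⊆ π '' closure D :=
      closure_minimal (image_mono subset_closure) h1.isClosed
    exact h2 (hDd x)
  have hDne : D.Nonempty := by
    obtain ⟨x⟩ := ‹Nonempty K›
    obtain ⟨y, hy, _⟩ := hcl2 x
    exact closure_nonempty_iff.1 ⟨y, hy⟩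
  obtain ⟨d, hd⟩ := hDc.exists_eq_range hDne
  have hseq : ∀ n : ℕ, ∃ a ∈ Bn n, ∀ i : Fin n, |Φ a (d i) - Φ a₀ (d i)| < 1 / ((n : ℝ) + 1) :=
    fun n => hBn2 n fun i => d i
  choose s hs1 hs2 using hseq
  have hsd : ∀ i, Tendsto (fun n => Φ (s n) (d i)) atTop (𝓝 (Φ a₀ (d i))) := by
    intro i
    rw [tendsto_iff_norm_sub_tendsto_zero]
    refine squeeze_zero' (Eventually.of_forall fun n => norm_nonneg _) ?_
      tendsto_one_div_add_atTop_nhds_zero_nat
    filter_upwards [eventually_gt_atTop i] with n hn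
    exact (hs2 n ⟨i, hn⟩).le
  have hpt : ∀ x, Tendsto (fun n => Φ (s n) x) atTop (𝓝 (Φ a₀ x)) := by
    intro x
    by_contra hcon
    rw [Metric.tendsto_atTop'] at hcon
    push Not at hcon
    obtain ⟨η, hη, hcon⟩ := hcon
    have hfr2 : ∃ᶠ n in atTop, η ≤ dist (Φ (s n) x) (Φ a₀ x) := by
      rw [frequently_atTop]
      intro N
      obtain ⟨n, hn1, hn2⟩ := hcon N
      exact ⟨n, hn1.le, hn2⟩
    have : NeBot (atTop ⊓ 𝓟 {n : ℕ | η ≤ dist (Φ (s n) x) (Φ a₀ x)}) :=
      frequently_mem_iff_neBot.1 hfr2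
    set U : Ultrafilter ℕ := Ultrafilter.of (atTop ⊓ 𝓟 {n : ℕ | η ≤ dist (Φ (s n) x) (Φ a₀ x)})
    have hU : (U : Filter ℕ) ≤ atTop ⊓ 𝓟 {n : ℕ | η ≤ dist (Φ (s n) x) (Φ a₀ x)} :=
      Ultrafilter.of_le _
    have hU1 : (U : Filter ℕ) ≤ atTop := hU.trans inf_le_left
    have hU2 : ∀ᶠ n in (U : Filter ℕ), η ≤ dist (Φ (s n) x) (Φ a₀ x) :=
      (hU.trans inf_le_right) (mem_principal_self _)
    obtain ⟨τ, -, hτ⟩ := isCompact_univ.ultrafilter_le_nhds (U.map s) (by simp)
    have hτ' : Tendsto s U (𝓝 τ) := hτ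
    have hz : ∀ z, Tendsto (fun n => Φ (s n) z) U (𝓝 (Φ τ z)) := fun z =>
      ((hΦ z).tendsto τ).comp hτ'
    have hD1 : ∀ z ∈ closure D, Φ τ z = Φ a₀ z := by
      have h1 : ∀ z ∈ D, Φ τ z = Φ a₀ z := by
        intro z hz'
        rw [hd] at hz'
        obtain ⟨i, rfl⟩ := hz'
        exact tendsto_nhds_unique (hz (d i)) ((hsd i).mono_left hU1)
      have h2 : closure D ⊆ {z | Φ τ z = Φ a₀ z} :=
        closure_minimal h1 (isClosed_eq (Φ τ).continuous (Φ a₀).continuous)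
      exact h2
    obtain ⟨y, hy, hyx⟩ := hcl2 x
    have e1 : Φ a₀ y = Φ a₀ x := congrFun hyx ⟨a₀, mem_insert _ _⟩
    have e2 : ∀ n, Φ (s n) y = Φ (s n) x := fun n =>
      congrFun hyx ⟨s n, mem_insert_of_mem _ (mem_iUnion.2 ⟨n, hs1 n⟩)⟩
    have e3 : Φ τ y = Φ τ x := by
      refine tendsto_nhds_unique (hz y) ?_
      exact (hz x).congr fun n => (e2 n).symm
    have e4 : Φ τ x = Φ a₀ x := by rw [← e3, hD1 y hy, e1]
    have h5 : η ≤ dist (Φ τ x) (Φ a₀ x) :=
      ge_of_tendsto ((hz x).dist tendsto_const_nhds) hU2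
    rw [e4, dist_self] at h5
    linarith
  have h6 := weakly_null (fun n => Φ (s n) - Φ a₀) (M + M) (fun n =>
    (norm_sub_le _ _).trans (add_le_add (hM _) (hM _))) (fun x => by
      have := (hpt x).sub_const (Φ a₀ x)
      rw [sub_self] at this
      exact this) ν
  have h7 : ∀ᶠ n in atTop, ‖ν (Φ (s n) - Φ a₀)‖ < ε := by
    have := h6.norm
    rw [norm_zero] at this
    exact this.eventually (gt_mem_nhds hε)
  obtain ⟨n, hn⟩ := h7.exists
  have h8 : ε ≤ dist (ν (Φ (s n))) (ν (Φ a₀)) := hBn1 n _ (hs1 n)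
  rw [dist_eq_norm, ← map_sub] at h8
  linarith

end Pool.Agent.R287.FP
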