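import Pool.Agent.R287.FPb

/-! Weakly almost periodic functions, left invariant means, and the invariant functional given by a
representation. -/

set_option autoImplicit false

open scoped Topology BoundedContinuousFunction
open Filter Set

namespace Pool.Agent.R287.FP

universe u v

/-- `S` is a semitopological semigroup: its topology is Hausdorff and the multiplication is
separately continuous. -/
structure IsSemitopological (S : Type u) [Semigroup S] [TopologicalSpace S] : Prop where
  t2 : T2Space S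
  left : ∀ a : S, Continuous fun t => a * t
  right : ∀ a : S, Continuous fun t => t * a

section defs

variable {S : Type u} [Semigroup S] [TopologicalSpace S]

/-- The left translate `(ℓ_s f)(t) = f (s t)` of a bounded continuous function `f`. -/
noncomputable def leftTr (hS : IsSemitopological S) (s : S) (f : S →ᵇ ℝ) : S →ᵇ ℝ :=
  f.compContinuous ⟨fun t => s * t, hS.left s⟩

theorem leftTr_apply (hS : IsSemitopological S) (s t : S) (f : S →ᵇ ℝ) :
    leftTr hS s f t = f (s * t) := rfl

theorem leftTr_leftTr (hS : IsSemitopological S) (s a : S) (f : S →ᵇ ℝ) :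
    leftTr hS s (leftTr hS a f) = leftTr hS (a * s) f := by
  ext t
  rw [leftTr_apply, leftTr_apply, leftTr_apply, mul_assoc]

/-- The orbit `{ℓ_s f : s ∈ S}` is relatively weakly compact in `C_b(S)`. -/
def IsWAP (hS : IsSemitopological S) (f : S →ᵇ ℝ) : Prop :=
  IsCompact (closure (Set.range fun s => toWeakSpace ℝ (S →ᵇ ℝ) (leftTr hS s f)))

theorem IsWAP.of_subset (hS : IsSemitopological S) {f : S →ᵇ ℝ}
    {C : Set (WeakSpace ℝ (S →ᵇ ℝ))} (hC : IsCompact C)
    (h : ∀ s, toWeakSpace ℝ (S →ᵇ ℝ) (leftTr hS s f) ∈ C) : IsWAP hS f := by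
  refine hC.of_isClosed_subset isClosed_closure ?_
  refine closure_minimal ?_ hC.isClosed
  rintro _ ⟨s, rfl⟩
  exact h s

/-- `WAP(S)`: the space of the weakly almost periodic functions. -/
noncomputable def WAP (hS : IsSemitopological S) : Submodule ℝ (S →ᵇ ℝ) where
  carrier := {f | IsWAP hS f}
  add_mem' := fun {f g} hf hg => by
    refine IsWAP.of_subset hS (IsCompact.add hf hg) fun s => ?_
    refine Set.mem_add.2 ⟨_, subset_closure ⟨s, rfl⟩, _, subset_closure ⟨s, rfl⟩, ?_⟩
    rfl
  zero_mem' := by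
    refine IsWAP.of_subset hS (isCompact_singleton (x := 0)) fun s => ?_
    rfl
  smul_mem' := fun c f hf => by
    refine IsWAP.of_subset hS (IsCompact.smul c hf) fun s => ?_
    refine Set.mem_smul_set.2 ⟨_, subset_closure ⟨s, rfl⟩, ?_⟩
    rfl

theorem mem_WAP (hS : IsSemitopological S) (f : S →ᵇ ℝ) : f ∈ WAP hS ↔ IsWAP hS f := Iff.rfl

/-- The constant function one, as an element of `WAP(S)`. -/
noncomputable def wapOne (hS : IsSemitopological S) : WAP hS :=
  ⟨1, IsWAP.of_subset hS (isCompact_singleton (x := toWeakSpace ℝ (S →ᵇ ℝ) 1)) fun _ => rfl⟩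

/-- Left translation on `WAP(S)`. -/
noncomputable def wapTr (hS : IsSemitopological S) (a : S) (f : WAP hS) : WAP hS :=
  ⟨leftTr hS a f.1, IsWAP.of_subset hS f.2 fun s => by
    rw [leftTr_leftTr]
    exact subset_closure ⟨a * s, rfl⟩⟩

/-- `m` is a left invariant mean on `WAP(S)`. -/
structure IsLIM (hS : IsSemitopological S) (m : WAP hS →ₗ[ℝ] ℝ) : Prop where
  pos : ∀ f : WAP hS, (∀ t, 0 ≤ f.1 t) → 0 ≤ m f
  one : m (wapOne hS) = 1
  inv : ∀ (s : S) (f : WAP hS), m (wapTr hS s f) = m f

end defs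

section functional

variable {S : Type u} [Semigroup S] [TopologicalSpace S] {X : Type v} [TopologicalSpace X]
  [CompactSpace X] [T2Space X]

/-- evaluation along an orbit. -/
noncomputable def orbL (T : S → X → X) (x₀ : X) (hc : Continuous fun s => T s x₀) :
    C(X, ℝ) →L[ℝ] (S →ᵇ ℝ) :=
  LinearMap.mkContinuous
    { toFun := fun f => BoundedContinuousFunction.ofNormedAddCommGroup (fun s => f (T s x₀))
        (f.continuous.comp hc) ‖f‖ (fun s => ContinuousMap.norm_coe_le_norm f _)
      map_add' := fun f g => by ext s; rfl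
      map_smul' := fun c f => by ext s; rfl }
    1 (fun f => by
      rw [one_mul]
      exact (BoundedContinuousFunction.norm_le (norm_nonneg _)).2 fun s =>
        ContinuousMap.norm_coe_le_norm f _)

theorem orbL_apply (T : S → X → X) (x₀ : X) (hc : Continuous fun s => T s x₀) (f : C(X, ℝ))
    (s : S) : orbL T x₀ hc f s = f (T s x₀) := rfl

theorem isWAP_orb (hS : IsSemitopological S) (T : S → X → X)
    (hmul : ∀ s t x, T (s * t) x = T s (T t x)) (x₀ : X) (hc : Continuous fun s => T s x₀)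
    (hq : ∀ g ∈ closure (range T), Continuous g) (f : C(X, ℝ)) :
    IsWAP hS (orbL T x₀ hc f) := by
  have : Nonempty X := ⟨x₀⟩
  have hcpt : IsCompact (closure (range T)) := isClosed_closure.isCompact
  have : CompactSpace (closure (range T)) := isCompact_iff_compactSpace.1 hcpt
  set Φ : closure (range T) → C(X, ℝ) := fun g => f.comp ⟨g.1, hq g.1 g.2⟩ with hΦ
  have h1 : ∀ ν : C(X, ℝ) →L[ℝ] ℝ, Continuous fun a => ν (Φ a) := fun ν => by
    refine gro Φ (fun x => ?_) ‖f‖ (fun a => ?_) ν
    · exact f.continuous.comp ((continuous_apply x).comp continuous_subtype_val)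
    · refine (ContinuousMap.norm_le _ (norm_nonneg _)).2 fun x => ?_
      exact ContinuousMap.norm_coe_le_norm f _
  have h2 : Continuous fun a => toWeakSpace ℝ (S →ᵇ ℝ) (orbL T x₀ hc (Φ a)) := by
    refine WeakBilin.continuous_of_continuous_eval _ fun ν => ?_
    exact h1 ((ν : (S →ᵇ ℝ) →L[ℝ] ℝ) ∘L orbL T x₀ hc)
  refine IsWAP.of_subset hS (isCompact_range h2) fun s => ?_
  refine ⟨⟨T s, subset_closure ⟨s, rfl⟩⟩, ?_⟩
  refine congrArg (toWeakSpace ℝ (S →ᵇ ℝ)) ?_
  ext t
  rw [leftTr_apply, orbL_apply, orbL_apply, hmul]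
  rfl

theorem exists_functional (hS : IsSemitopological S) (m : WAP hS →ₗ[ℝ] ℝ) (hm : IsLIM hS m)
    (T : S → X → X) (hmul : ∀ s t x, T (s * t) x = T s (T t x))
    (hc : ∀ x, Continuous fun s => T s x) (hq : ∀ g ∈ closure (range T), Continuous g)
    (K₀ : Set X) (hinv : ∀ s, ∀ x ∈ K₀, T s x ∈ K₀) (x₀ : X) (hx₀ : x₀ ∈ K₀) :
    ∃ Λ : C(X, ℝ) →ₗ[ℝ] ℝ, (∀ f : C(X, ℝ), (∀ x ∈ K₀, 0 ≤ f x) → 0 ≤ Λ f) ∧ Λ 1 = 1 ∧
      ∀ (a : S) (f g : C(X, ℝ)), (∀ x, g x = f (T a x)) → Λ g = Λ f := by
  refine ⟨{ toFun := fun f => m ⟨orbL T x₀ (hc x₀) f, isWAP_orb hS T hmul x₀ (hc x₀) hq f⟩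
            map_add' := fun f g => by
              rw [← map_add]
              congr 1
            map_smul' := fun c f => by
              rw [RingHom.id_apply, ← map_smul]
              congr 1 }, fun f hf => ?_, ?_, fun a f g hg => ?_⟩
  · exact hm.pos _ fun t => hf _ (hinv t x₀ hx₀)
  · refine Eq.trans ?_ hm.one
    congr 1
  · refine Eq.trans ?_ (hm.inv a _)
    change m _ = m _
    congr 1
    apply Subtype.ext
    change orbL T x₀ (hc x₀) g = leftTr hS a (orbL T x₀ (hc x₀) f)
    ext t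
    rw [leftTr_apply, orbL_apply, orbL_apply, hmul, hg]

end functional

end Pool.Agent.R287.FP
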