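import Pool.Agent.R287.FPc

/-! Fragmentability. -/

set_option autoImplicit false

open scoped Topology
open Filter Set

namespace Pool.Agent.R287.FP

universe u v

section frag

variable {X : Type v} [TopologicalSpace X]

/-- lower semicontinuous pseudometrics for which closures of countable sets are separable -/
structure PM (d : X → X → ℝ) : Prop where
  self : ∀ x, d x x = 0
  symm : ∀ x y, d x y = d y x
  tri : ∀ x y z, d x z ≤ d x y + d y z
  lsc : ∀ r, IsClosed {p : X × X | d p.1 p.2 ≤ r}
  sep : ∀ D : Set X, D.Countable → ∀ ε > 0, ∃ P : ℕ → Set X, closure D ⊆ ⋃ n, P n ∧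
    ∀ n, ∀ x ∈ P n, ∀ y ∈ P n, d x y ≤ ε

theorem PM.subtype {d : X → X → ℝ} (hd : PM d) (K : Set X) :
    PM (fun x y : K => d x y) where
  self x := hd.self x
  symm x y := hd.symm x y
  tri x y z := hd.tri x y z
  lsc r := (hd.lsc r).preimage (by fun_prop :
    Continuous fun p : K × K => ((p.1 : X), (p.2 : X)))
  sep D hD ε hε := by
    obtain ⟨P, hP1, hP2⟩ := hd.sep (Subtype.val '' D) (hD.image _) ε hε
    refine ⟨fun n => Subtype.val ⁻¹' P n, ?_, fun n x hx y hy => hP2 n _ hx _ hy⟩
    intro x hx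
    have h1 : (x : X) ∈ closure (Subtype.val '' D) :=
      image_closure_subset_closure_image continuous_subtype_val ⟨x, hx, rfl⟩
    have h2 := hP1 h1
    rw [mem_iUnion] at h2 ⊢
    exact h2

/-- prefixes of a branch -/
def pre (σ : ℕ → Bool) : ℕ → List Bool
  | 0 => []
  | n + 1 => σ n :: pre σ n

theorem pre_congr {σ τ : ℕ → Bool} {n : ℕ} (h : ∀ k < n, σ k = τ k) : pre σ n = pre τ n := by
  induction n with
  | zero => rfl
  | succ n ih =>
    change σ n :: pre σ n = τ n :: pre τ n
    rw [h n (Nat.lt_succ_self n), ih fun k hk => h k (hk.trans (Nat.lt_succ_self n))]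

theorem frag [CompactSpace X] [T2Space X] [Nonempty X] {d : X → X → ℝ} (hd : PM d) {ε : ℝ}
    (hε : 0 < ε) : ∃ U : Set X, IsOpen U ∧ U.Nonempty ∧ ∀ x ∈ U, ∀ y ∈ U, d x y ≤ ε := by
  classical
  by_contra hcon
  push Not at hcon
  have step : ∀ U : {U : Set X // IsOpen U ∧ U.Nonempty},
      ∃ V : Bool → {U : Set X // IsOpen U ∧ U.Nonempty}, (∀ b, closure (V b).1 ⊆ U.1) ∧
        ∀ z ∈ closure (V false).1, ∀ w ∈ closure (V true).1, ε < d z w := by
    rintro ⟨U, hU, hne⟩
    obtain ⟨x, hx, y, hy, hxy⟩ := hcon U hU hne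
    have hopen : IsOpen {p : X × X | ε < d p.1 p.2} := by
      have := (hd.lsc ε).isOpen_compl
      convert this using 1
      ext p
      simp
    obtain ⟨A, B, hA, hB, hxA, hyB, hAB⟩ := isOpen_prod_iff.1 hopen x y hxy
    obtain ⟨F, hF1, hF2, hF3⟩ := exists_mem_nhds_isClosed_subset
      ((hA.inter hU).mem_nhds ⟨hxA, hx⟩)
    obtain ⟨G, hG1, hG2, hG3⟩ := exists_mem_nhds_isClosed_subset
      ((hB.inter hU).mem_nhds ⟨hyB, hy⟩)
    have hcF : closure (interior F) ⊆ F := closure_minimal interior_subset hF2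
    have hcG : closure (interior G) ⊆ G := closure_minimal interior_subset hG2
    refine ⟨fun b => if b then ⟨interior G, isOpen_interior, y, mem_interior_iff_mem_nhds.2 hG1⟩
      else ⟨interior F, isOpen_interior, x, mem_interior_iff_mem_nhds.2 hF1⟩, fun b => ?_, ?_⟩
    · cases b
      · exact fun z hz => (hF3 (hcF hz)).2
      · exact fun z hz => (hG3 (hcG hz)).2
    · intro z hz w hw
      exact hAB (mk_mem_prod (hF3 (hcF hz)).1 (hG3 (hcG hw)).1)
  choose ch hch1 hch2 using step
  let W : List Bool → {U : Set X // IsOpen U ∧ U.Nonempty} := fun l =>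
    List.rec ⟨univ, isOpen_univ, univ_nonempty⟩ (fun b _ ih => ch ih b) l
  have hW : ∀ b l, W (b :: l) = ch (W l) b := fun b l => rfl
  choose pt hpt using fun l => (W l).2.2
  set D : Set X := range pt with hD
  have hDc : D.Countable := countable_range pt
  have hbr : ∀ σ : ℕ → Bool, ∃ y ∈ closure D, ∀ n, y ∈ closure (W (pre σ n)).1 := by
    intro σ
    have h1 := IsCompact.nonempty_iInter_of_sequence_nonempty_isCompact_isClosed
      (fun n => closure D ∩ closure (W (pre σ n)).1) (fun n z hz => ?_)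
      (fun n => ⟨pt (pre σ n), subset_closure ⟨_, rfl⟩, subset_closure (hpt _)⟩)
      (isClosed_closure.inter isClosed_closure).isCompact
      (fun n => isClosed_closure.inter isClosed_closure)
    · obtain ⟨y, hy⟩ := h1
      rw [mem_iInter] at hy
      exact ⟨y, (hy 0).1, fun n => (hy n).2⟩
    · refine ⟨hz.1, subset_closure ?_⟩
      have h2 : W (pre σ (n + 1)) = ch (W (pre σ n)) (σ n) := rfl
      have h3 := hz.2
      rw [h2] at h3
      exact hch1 _ _ h3
  choose y hy1 hy2 using hbr
  have hsep : ∀ σ τ : ℕ → Bool, σ ≠ τ → ε < d (y σ) (y τ) := by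
    intro σ τ hne
    have hex : ∃ n, σ n ≠ τ n := by
      by_contra h
      push Not at h
      exact hne (funext h)
    set n := Nat.find hex with hn
    have h1 : σ n ≠ τ n := Nat.find_spec hex
    have h2 : ∀ k < n, σ k = τ k := fun k hk => by
      have := Nat.find_min hex hk
      push Not at this
      exact this
    have h3 : pre σ n = pre τ n := pre_congr h2
    have e1 := hy2 σ (n + 1)
    have e2 := hy2 τ (n + 1)
    have e3 : W (pre σ (n + 1)) = ch (W (pre σ n)) (σ n) := rfl
    have e4 : W (pre τ (n + 1)) = ch (W (pre τ n)) (τ n) := rfl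
    rw [e3] at e1
    rw [e4, ← h3] at e2
    cases hσ : σ n
    · cases hτ : τ n
      · exact absurd (hσ.trans hτ.symm) h1
      · rw [hσ] at e1
        rw [hτ] at e2
        exact hch2 _ _ e1 _ e2
    · cases hτ : τ n
      · rw [hσ] at e1
        rw [hτ] at e2
        rw [hd.symm]
        exact hch2 _ _ e2 _ e1
      · exact absurd (hσ.trans hτ.symm) h1
  obtain ⟨P, hP1, hP2⟩ := hd.sep D hDc ε hε
  have hN : ∀ σ, ∃ n, y σ ∈ P n := fun σ => mem_iUnion.1 (hP1 (hy1 σ))
  choose N hN using hN
  have hinj : Function.Injective N := by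
    intro σ τ h
    by_contra hne
    have h1 := hsep σ τ hne
    have h2 := hP2 (N σ) (y σ) (hN σ) (y τ) (by rw [h]; exact hN τ)
    linarith
  refine Function.cantor_injective (fun s : Set ℕ => N fun n => decide (n ∈ s)) ?_
  intro s t h
  have h1 := hinj h
  ext n
  have h2 := congrFun h1 n
  simpa using h2

end frag

end Pool.Agent.R287.FP
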