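import Pool.Agent.R287.FPd

/-! Minimal sets with an invariant functional are totally bounded. -/

set_option autoImplicit false

open scoped Topology
open Filter Set

namespace Pool.Agent.R287.FP

universe u v

section minimal

variable {S : Type u} [Semigroup S] {X : Type v} [TopologicalSpace X]

/-- closed nonempty invariant sets -/
structure CNI (T : S → X → X) (F : Set X) : Prop where
  closed : IsClosed F
  ne : F.Nonempty
  inv : ∀ s, ∀ x ∈ F, T s x ∈ F

/-- `K` is a minimal closed nonempty invariant set with an invariant functional. -/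
structure Setup (T : S → X → X) (K : Set X) (Λ : C(X, ℝ) →ₗ[ℝ] ℝ) : Prop where
  nonempty : Nonempty S
  mul : ∀ s t x, T (s * t) x = T s (T t x)
  cont : ∀ s, Continuous (T s)
  cni : CNI T K
  min : ∀ F, CNI T F → F ⊆ K → F = K
  pos : ∀ f : C(X, ℝ), (∀ x ∈ K, 0 ≤ f x) → 0 ≤ Λ f
  one : Λ 1 = 1
  invΛ : ∀ (a : S) (f g : C(X, ℝ)), (∀ x, g x = f (T a x)) → Λ g = Λ f

variable {T : S → X → X} {K : Set X} {Λ : C(X, ℝ) →ₗ[ℝ] ℝ}

theorem Setup.mono (h : Setup T K Λ) {f g : C(X, ℝ)} (hfg : ∀ x ∈ K, f x ≤ g x) : Λ f ≤ Λ g := by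
  have h1 := h.pos (g - f) fun x hx => by
    rw [ContinuousMap.sub_apply]
    have := hfg x hx
    linarith
  rw [map_sub] at h1
  linarith

variable [CompactSpace X] [T2Space X]

theorem Setup.full (h : Setup T K Λ) {f : C(X, ℝ)} (hf : ∀ x ∈ K, 0 ≤ f x) {x₁ : X} (hx₁ : x₁ ∈ K)
    (hfx : 0 < f x₁) : 0 < Λ f := by
  classical
  set c : ℝ := f x₁ / 2 with hc
  have hcpos : 0 < c := by positivity
  have hcover : ∀ x ∈ K, ∃ a, c < f (T a x) := by
    by_contra hcon
    push Not at hcon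
    obtain ⟨x, hx, hcon⟩ := hcon
    obtain ⟨b⟩ := h.nonempty
    have hH : CNI T {x | x ∈ K ∧ f x ≤ c ∧ ∀ a, f (T a x) ≤ c} := by
      refine ⟨?_, ⟨T b x, h.cni.inv b x hx, hcon b, fun a => ?_⟩, fun s z hz => ?_⟩
      · refine h.cni.closed.inter ((isClosed_le f.continuous continuous_const).inter ?_)
        have : {x | ∀ a, f (T a x) ≤ c} = ⋂ a, {x | f (T a x) ≤ c} := by
          ext x
          simp
        change IsClosed {x | ∀ a, f (T a x) ≤ c}
        rw [this]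
        exact isClosed_iInter fun a => isClosed_le (f.continuous.comp (h.cont a)) continuous_const
      · rw [← h.mul]
        exact hcon _
      · refine ⟨h.cni.inv s z hz.1, hz.2.2 s, fun a => ?_⟩
        rw [← h.mul]
        exact hz.2.2 _
    have hHK := h.min _ hH fun z hz => hz.1
    have hx₁' := hx₁
    rw [← hHK] at hx₁'
    have := hx₁'.2.1
    linarith
  obtain ⟨t, ht⟩ := h.cni.closed.isCompact.elim_finite_subcover (fun a => {x | c < f (T a x)})
    (fun a => isOpen_lt continuous_const (f.continuous.comp (h.cont a)))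
    (fun x hx => mem_iUnion.2 (hcover x hx))
  set g : S → C(X, ℝ) := fun a => f.comp ⟨T a, h.cont a⟩ with hg
  have h1 : 0 ≤ Λ (∑ a ∈ t, g a - c • 1) := by
    refine h.pos _ fun x hx => ?_
    have h2 := ht hx
    rw [mem_iUnion₂] at h2
    obtain ⟨a, ha, hax⟩ := h2
    have hax' : c < f (T a x) := hax
    have h3 : (∑ a ∈ t, g a - c • (1 : C(X, ℝ))) x = ∑ a ∈ t, f (T a x) - c := by
      simp [hg]
    rw [h3]
    have h4 : f (T a x) ≤ ∑ a ∈ t, f (T a x) :=
      Finset.single_le_sum (f := fun a => f (T a x)) (fun b _ => hf _ (h.cni.inv b x hx)) ha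
    linarith
  have h2 : Λ (∑ a ∈ t, g a - c • 1) = t.card * Λ f - c := by
    rw [map_sub, map_sum, map_smul, h.one, smul_eq_mul, mul_one]
    congr 1
    rw [Finset.sum_congr rfl fun a _ => h.invΛ a f (g a) fun x => rfl, Finset.sum_const,
      nsmul_eq_mul]
  rw [h2] at h1
  by_contra hneg
  push Not at hneg
  have h3 : (t.card : ℝ) * Λ f ≤ 0 := mul_nonpos_of_nonneg_of_nonpos (Nat.cast_nonneg _) hneg
  linarith

theorem Setup.surj (h : Setup T K Λ) (a : S) {y : X} (hy : y ∈ K) : ∃ x ∈ K, T a x = y := by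
  by_contra hcon
  have hcl : IsClosed (T a '' K) := (h.cni.closed.isCompact.image (h.cont a)).isClosed
  obtain ⟨f, hf0, hf1, hf⟩ := exists_continuous_zero_one_of_isClosed hcl
    (isClosed_singleton (x := y)) (by
      rw [Set.disjoint_singleton_right]
      rintro ⟨x, hx, hxy⟩
      exact hcon ⟨x, hx, hxy⟩)
  have h1 : 0 < Λ f := h.full (fun x _ => (hf x).1) hy (by
    rw [hf1 (mem_singleton y)]
    exact one_pos)
  have h2 : Λ (f.comp ⟨T a, h.cont a⟩) = Λ f := h.invΛ a f _ fun x => rfl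
  have h3 : Λ (f.comp ⟨T a, h.cont a⟩) ≤ Λ 0 := h.mono fun x hx => by
    have : f (T a x) = 0 := hf0 ⟨x, hx, rfl⟩
    exact this.le
  rw [map_zero] at h3
  linarith

theorem Setup.orbit (h : Setup T K Λ) {x : X} (hx : x ∈ K) : closure (range fun a => T a x) = K := by
  have hsub : (range fun a => T a x) ⊆ K := by
    rintro _ ⟨a, rfl⟩
    exact h.cni.inv a x hx
  refine h.min _ ⟨isClosed_closure, ?_, fun s z hz => ?_⟩ (closure_minimal hsub h.cni.closed)
  · obtain ⟨b⟩ := h.nonempty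
    exact ⟨T b x, subset_closure ⟨b, rfl⟩⟩
  · have h1 : T s z ∈ T s '' closure (range fun a => T a x) := ⟨z, hz, rfl⟩
    have h2 := image_closure_subset_closure_image (h.cont s) h1
    refine closure_mono ?_ h2
    rintro _ ⟨_, ⟨a, rfl⟩, rfl⟩
    exact ⟨s * a, h.mul s a x⟩

theorem Setup.tb (h : Setup T K Λ) {d : X → X → ℝ} (hd : PM d)
    (hne : ∀ s, ∀ x ∈ K, ∀ y ∈ K, d (T s x) (T s y) ≤ d x y) {ε : ℝ} (hε : 0 < ε) :
    ∃ Y : Finset X, (∀ y ∈ Y, y ∈ K) ∧ ∀ x ∈ K, ∃ y ∈ Y, d x y ≤ 2 * ε := by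
  classical
  obtain ⟨U, hU, x₁, hx₁, hx₁U, hdU⟩ : ∃ U : Set X, IsOpen U ∧ ∃ x₁ ∈ K, x₁ ∈ U ∧
      ∀ x ∈ U ∩ K, ∀ y ∈ U ∩ K, d x y ≤ ε := by
    have : CompactSpace K := isCompact_iff_compactSpace.1 h.cni.closed.isCompact
    have : Nonempty K := h.cni.ne.to_subtype
    obtain ⟨U', hU', ⟨z, hz⟩, hdU'⟩ := frag (hd.subtype K) hε
    obtain ⟨U, hU, rfl⟩ := isOpen_induced_iff.1 hU'
    exact ⟨U, hU, z, z.2, hz, fun x hx y hy => hdU' ⟨x, hx.2⟩ hx.1 ⟨y, hy.2⟩ hy.1⟩
  obtain ⟨f, hf0, hf1, hf⟩ := exists_continuous_zero_one_of_isClosed hU.isClosed_compl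
    (isClosed_singleton (x := x₁)) (by
      rw [Set.disjoint_singleton_right]
      exact fun hx => hx hx₁U)
  have hδ : 0 < Λ f := h.full (fun x _ => (hf x).1) hx₁ (by
    rw [hf1 (mem_singleton x₁)]
    exact one_pos)
  have key : ∀ Y : Finset X, (∀ y ∈ Y, ∃ a, T a x₁ = y) →
      (∀ y ∈ Y, ∀ z ∈ Y, y ≠ z → 2 * ε < d y z) → Y.card * Λ f ≤ 1 := by
    intro Y hY1 hY2
    have hBcl : ∀ y, IsClosed {w | d w y ≤ ε} := fun y => by
      have : Continuous fun w : X => (w, y) := by fun_prop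
      exact (hd.lsc ε).preimage this
    have hdisj : ∀ y ∈ Y, ∀ z ∈ Y, y ≠ z → ∀ w, d w y ≤ ε → d w z ≤ ε → False := by
      intro y hy z hz hyz w hw1 hw2
      have h1 := hY2 y hy z hz hyz
      have h2 := hd.tri y w z
      rw [hd.symm y w] at h2
      linarith
    have hh : ∀ y : X, ∃ g : C(X, ℝ), y ∈ Y → ((∀ w, d w y ≤ ε → g w = 1) ∧
        (∀ z ∈ Y, z ≠ y → ∀ w, d w z ≤ ε → g w = 0) ∧ ∀ w, 0 ≤ g w) := by
      intro y
      by_cases hy : y ∈ Y
      · obtain ⟨g, hg0, hg1, hg⟩ := exists_continuous_zero_one_of_isClosed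
          (s := ⋃ z ∈ Y.erase y, {w | d w z ≤ ε}) (t := {w | d w y ≤ ε})
          (Set.Finite.isClosed_biUnion (Y.erase y).finite_toSet fun z _ => hBcl z) (hBcl y) (by
            rw [Set.disjoint_left]
            intro w hw hw'
            rw [mem_iUnion₂] at hw
            obtain ⟨z, hz, hwz⟩ := hw
            rw [Finset.mem_erase] at hz
            exact hdisj z hz.2 y hy hz.1 w hwz hw')
        refine ⟨g, fun _ => ⟨fun w hw => hg1 hw, fun z hz hzy w hw => hg0 ?_, fun w => (hg w).1⟩⟩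
        rw [mem_iUnion₂]
        exact ⟨z, Finset.mem_erase.2 ⟨hzy, hz⟩, hw⟩
      · exact ⟨0, fun hy' => absurd hy' hy⟩
    choose g hg using hh
    set s : C(X, ℝ) := ∑ y ∈ Y, g y with hs
    have hsw : ∀ w, s w = ∑ y ∈ Y, g y w := fun w => by
      rw [hs, ContinuousMap.sum_apply]
    have hs0 : ∀ w, 0 < max 1 (s w) := fun w => lt_max_of_lt_left one_pos
    set G : X → C(X, ℝ) := fun y => ⟨fun w => g y w / max 1 (s w), by
      refine Continuous.div (g y).continuous (by fun_prop) fun w => (hs0 w).ne'⟩ with hG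
    have hGw : ∀ y w, G y w = g y w / max 1 (s w) := fun y w => rfl
    have hG1 : ∀ y ∈ Y, ∀ w, d w y ≤ ε → G y w = 1 := by
      intro y hy w hw
      have h1 : s w = 1 := by
        rw [hsw, Finset.sum_eq_single_of_mem y hy]
        · exact (hg y hy).1 w hw
        · intro z hz hzy
          exact (hg z hz).2.1 y hy hzy.symm w hw
      rw [hGw, h1, (hg y hy).1 w hw, max_self, div_one]
    have hG0 : ∀ y ∈ Y, ∀ w, 0 ≤ G y w := fun y hy w =>
      div_nonneg ((hg y hy).2.2 w) (hs0 w).le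
    have hΛG : ∀ y ∈ Y, Λ f ≤ Λ (G y) := by
      intro y hy
      obtain ⟨a, rfl⟩ := hY1 y hy
      have h1 : Λ ((G (T a x₁)).comp ⟨T a, h.cont a⟩) = Λ (G (T a x₁)) :=
        h.invΛ a _ _ fun x => rfl
      rw [← h1]
      refine h.mono fun w hw => ?_
      change f w ≤ G (T a x₁) (T a w)
      by_cases hwU : w ∈ U
      · rw [hG1 _ hy _ ((hne a w hw x₁ hx₁).trans (hdU w ⟨hwU, hw⟩ x₁ ⟨hx₁U, hx₁⟩))]
        exact (hf w).2
      · have : f w = 0 := hf0 hwU
        rw [this]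
        exact hG0 _ hy _
    have hsum : Λ (∑ y ∈ Y, G y) ≤ Λ 1 := by
      refine h.mono fun w _ => ?_
      rw [ContinuousMap.sum_apply]
      simp only [hGw]
      rw [← Finset.sum_div, ← hsw, div_le_iff₀ (hs0 w), ContinuousMap.one_apply, one_mul]
      exact le_max_right _ _
    rw [h.one, map_sum] at hsum
    calc (Y.card : ℝ) * Λ f = ∑ y ∈ Y, Λ f := by rw [Finset.sum_const, nsmul_eq_mul]
      _ ≤ ∑ y ∈ Y, Λ (G y) := Finset.sum_le_sum hΛG
      _ ≤ 1 := hsum
  -- a maximal separated set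
  set Q : Finset X → Prop := fun Y => (∀ y ∈ Y, ∃ a, T a x₁ = y) ∧
    (∀ y ∈ Y, ∀ z ∈ Y, y ≠ z → 2 * ε < d y z) with hQ
  obtain ⟨N, hN⟩ := exists_nat_gt (1 / Λ f)
  have hcard : ∀ Y, Q Y → Y.card ≤ N := by
    intro Y hY
    have h1 := key Y hY.1 hY.2
    have h2 : (Y.card : ℝ) ≤ 1 / Λ f := by rwa [le_div_iff₀ hδ]
    exact_mod_cast (h2.trans hN.le)
  obtain ⟨Y, hYQ, hYmax⟩ : ∃ Y, Q Y ∧ ∀ Y', Q Y' → Y'.card ≤ Y.card := by
    by_contra hcon
    push Not at hcon
    have : ∀ n, ∃ Y, Q Y ∧ n ≤ Y.card := by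
      intro n
      induction n with
      | zero => exact ⟨∅, ⟨by simp, by simp⟩, Nat.zero_le _⟩
      | succ n ih =>
        obtain ⟨Y, hY1, hY2⟩ := ih
        obtain ⟨Y', hY1', hY2'⟩ := hcon Y hY1
        exact ⟨Y', hY1', by omega⟩
    obtain ⟨Y, hY1, hY2⟩ := this (N + 1)
    have := hcard Y hY1
    omega
  have horb : ∀ a, ∃ y ∈ Y, d (T a x₁) y ≤ 2 * ε := by
    intro a
    by_contra hcon
    push Not at hcon
    have hnot : T a x₁ ∉ Y := by
      intro hmem
      have := hcon _ hmem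
      rw [hd.self] at this
      linarith
    have hQ' : Q (insert (T a x₁) Y) := by
      refine ⟨fun y hy => ?_, fun y hy z hz hyz => ?_⟩
      · rw [Finset.mem_insert] at hy
        rcases hy with rfl | hy
        · exact ⟨a, rfl⟩
        · exact hYQ.1 y hy
      · rw [Finset.mem_insert] at hy hz
        rcases hy with rfl | hy
        · rcases hz with rfl | hz
          · exact absurd rfl hyz
          · exact hcon z hz
        · rcases hz with rfl | hz
          · rw [hd.symm]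
            exact hcon y hy
          · exact hYQ.2 y hy z hz hyz
    have := hYmax _ hQ'
    rw [Finset.card_insert_of_notMem hnot] at this
    omega
  refine ⟨Y, fun y hy => ?_, fun x hx => ?_⟩
  · obtain ⟨a, rfl⟩ := hYQ.1 y hy
    exact h.cni.inv a x₁ hx₁
  · have hcl : IsClosed (⋃ y ∈ Y, {w | d w y ≤ 2 * ε}) := by
      refine Set.Finite.isClosed_biUnion Y.finite_toSet fun y _ => ?_
      have : Continuous fun w : X => (w, y) := by fun_prop
      exact (hd.lsc (2 * ε)).preimage this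
    have hsub : closure (range fun a => T a x₁) ⊆ ⋃ y ∈ Y, {w | d w y ≤ 2 * ε} := by
      refine closure_minimal ?_ hcl
      rintro _ ⟨a, rfl⟩
      obtain ⟨y, hy, hay⟩ := horb a
      exact mem_iUnion₂.2 ⟨y, hy, hay⟩
    rw [h.orbit hx₁] at hsub
    obtain ⟨y, hy, hxy⟩ := mem_iUnion₂.1 (hsub hx)
    exact ⟨y, hy, hxy⟩

end minimal

end Pool.Agent.R287.FP
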