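import Pool.Agent.R287.FPe

/-! The fixed point theorem. -/

set_option autoImplicit false

open scoped Topology
open Filter Set

namespace Pool.Agent.R287.FP

universe u v w

section defs

variable (𝕜 : Type) [RCLike 𝕜] {E : Type v} [AddCommGroup E] [Module 𝕜 E] [TopologicalSpace E]

/-- The weak topology `σ(E, E*)` on a subset `C` of the locally convex space `E`. -/
@[reducible] noncomputable def weakTop (C : Set E) : TopologicalSpace C :=
  TopologicalSpace.induced (fun x : C => toWeakSpace 𝕜 E (x : E)) inferInstance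

variable {S : Type u} [Semigroup S] [TopologicalSpace S] {ι : Type w}

/-- `T` is a weakly separately continuous, weakly quasi-equicontinuous and `Q`-nonexpansive
representation of `S` on `C`, where `Q = {q i}` is a family of seminorms. -/
structure IsQuasiNonexpansiveRep (q : SeminormFamily 𝕜 E ι) (C : Set E) (T : S → C → C) :
    Prop where
  mul : ∀ (s t : S) (x : C), T (s * t) x = T s (T t x)
  nonexpansive : ∀ (i : ι) (s : S) (x y : C), q i ((T s x : E) - T s y) ≤ q i ((x : E) - y)
  cont_left : ∀ x : C, @Continuous S C _ (weakTop 𝕜 C) fun s => T s x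
  cont_right : ∀ s : S, @Continuous C C (weakTop 𝕜 C) (weakTop 𝕜 C) (T s)
  quasi : ∀ g ∈ @closure (C → C) (@Pi.topologicalSpace C (fun _ => C) fun _ => weakTop 𝕜 C)
    (Set.range T), @Continuous C C (weakTop 𝕜 C) (weakTop 𝕜 C) g

end defs

section zorn

variable {S : Type u} {X : Type v} [TopologicalSpace X] [CompactSpace X] (T : S → X → X)

theorem exists_minimal (p : Set X → Prop) (hp : ∀ c : Set (Set X), (∀ F ∈ c, p F) → p (⋂₀ c))
    (F₀ : Set X) (hF₀ : CNI T F₀) (hpF₀ : p F₀) :
    ∃ K ⊆ F₀, (CNI T K ∧ p K) ∧ ∀ F, CNI T F → p F → F ⊆ K → F = K := by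
  obtain ⟨K, hK, hmin⟩ := zorn_superset_nonempty {F : Set X | CNI T F ∧ p F} (by
    intro c hc hchain hne
    refine ⟨⋂₀ c, ⟨⟨isClosed_sInter fun F hF => (hc hF).1.closed, ?_, ?_⟩, ?_⟩,
      fun F hF => sInter_subset_of_mem hF⟩
    · have := hne.to_subtype
      refine IsCompact.nonempty_sInter_of_directed_nonempty_isCompact_isClosed
        (fun F hF G hG => ?_) ?_ ?_ ?_
      · rcases hchain.total hF hG with h | h
        · exact ⟨F, hF, Subset.rfl, h⟩
        · exact ⟨G, hG, h, Subset.rfl⟩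
      · exact fun F hF => (hc hF).1.ne
      · exact fun F hF => (hc hF).1.closed.isCompact
      · exact fun F hF => (hc hF).1.closed
    · intro s x hx
      rw [mem_sInter] at hx ⊢
      exact fun F hF => (hc hF).1.inv s x (hx F hF)
    · exact hp c fun F hF => (hc hF).2) F₀ ⟨hF₀, hpF₀⟩
  refine ⟨K, hK, hmin.prop, fun F hF hpF hFK => ?_⟩
  exact hFK.antisymm (hmin.le_of_le ⟨hF, hpF⟩ hFK)

end zorn

section main

variable {𝕜 : Type} [RCLike 𝕜] {E : Type v} [AddCommGroup E] [Module 𝕜 E] [Module ℝ E]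
  [IsScalarTower ℝ 𝕜 E] [TopologicalSpace E] [T2Space E] {ι : Type w}
  {q : SeminormFamily 𝕜 E ι}

theorem isClosed_ball (hq : WithSeminorms q) (i : ι) (r : ℝ) :
    IsClosed {u : WeakSpace 𝕜 E | q i ((toWeakSpace 𝕜 E).symm u) ≤ r} := by
  have := hq.topologicalAddGroup
  have := hq.continuousSMul
  have : LocallyConvexSpace ℝ E := hq.toLocallyConvexSpace
  have h1 : IsClosed {u : E | q i u ≤ r} :=
    isClosed_le (hq.continuous_seminorm i) continuous_const
  have h2 : Convex ℝ {u : E | q i u ≤ r} := by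
    have := (q i).convex_closedBall 0 r
    have h3 : {u : E | q i u ≤ r} = (q i).closedBall 0 r := by
      ext u
      rw [Seminorm.mem_closedBall_zero]
      rfl
    rw [h3]
    exact this
  have h3 := h2.toWeakSpace_closure 𝕜
  rw [h1.closure_eq] at h3
  have h4 : {u : WeakSpace 𝕜 E | q i ((toWeakSpace 𝕜 E).symm u) ≤ r}
      = toWeakSpace 𝕜 E '' {u : E | q i u ≤ r} := by
    ext u
    constructor
    · intro hu
      exact ⟨(toWeakSpace 𝕜 E).symm u, hu, LinearEquiv.apply_symm_apply _ _⟩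
    · rintro ⟨v, hv, rfl⟩
      rw [mem_setOf_eq, LinearEquiv.symm_apply_apply]
      exact hv
  rw [h4, h3]
  exact isClosed_closure

theorem pm (hq : WithSeminorms q) (C : Set E) (i : ι) :
    @PM C (weakTop 𝕜 C) fun x y => q i ((x : E) - y) := by
  letI := weakTop 𝕜 C
  have := hq.topologicalAddGroup
  have := hq.continuousSMul
  have : LocallyConvexSpace ℝ E := hq.toLocallyConvexSpace
  have : ContinuousSMul ℝ E := IsScalarTower.continuousSMul 𝕜
  have hj : Continuous fun x : C => toWeakSpace 𝕜 E (x : E) := continuous_induced_dom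
  refine ⟨fun x => ?_, fun x y => ?_, fun x y z => ?_, fun r => ?_, fun D hD ε hε => ?_⟩
  · rw [sub_self, map_zero]
  · exact map_sub_rev _ _ _
  · have : (x : E) - z = (x - y) + (y - z) := by abel
    rw [this]
    exact map_add_le_add _ _ _
  · have h1 : Continuous fun p : C × C => toWeakSpace 𝕜 E (p.1 : E) - toWeakSpace 𝕜 E (p.2 : E) :=
      (hj.comp continuous_fst).sub (hj.comp continuous_snd)
    exact (isClosed_ball hq i r).preimage h1
  · set M : Submodule ℝ E := Submodule.span ℝ (Subtype.val '' D) with hM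
    have hsep : TopologicalSpace.IsSeparable (M : Set E) :=
      ((hD.image _).isSeparable).span (R := ℝ)
    obtain ⟨c, hc, hMc⟩ := hsep
    have hcne : c.Nonempty := by
      have h0 : (0 : E) ∈ closure c := hMc (Submodule.zero_mem _)
      exact closure_nonempty_iff.1 ⟨0, h0⟩
    obtain ⟨e, he⟩ := hc.exists_eq_range hcne
    refine ⟨fun n => {x : C | q i ((x : E) - e n) ≤ ε / 2}, fun x hx => ?_, fun n x hx y hy => ?_⟩
    · have h1 : toWeakSpace 𝕜 E (x : E) ∈ closure (toWeakSpace 𝕜 E '' (M : Set E)) := by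
        have h2 : toWeakSpace 𝕜 E (x : E) ∈
            closure ((fun x : C => toWeakSpace 𝕜 E (x : E)) '' D) :=
          image_closure_subset_closure_image hj ⟨x, hx, rfl⟩
        refine closure_mono ?_ h2
        rintro _ ⟨y, hy, rfl⟩
        exact ⟨y, Submodule.subset_span ⟨y, hy, rfl⟩, rfl⟩
      rw [← (Submodule.convex M).toWeakSpace_closure 𝕜] at h1
      obtain ⟨x', hx', hxx'⟩ := h1
      have hxx : x' = x := (toWeakSpace 𝕜 E).injective hxx'
      rw [hxx] at hx'
      have h3 : (x : E) ∈ closure c := closure_minimal hMc isClosed_closure hx'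
      have h4 : {u : E | q i ((x : E) - u) < ε / 2} ∈ 𝓝 (x : E) := by
        refine (isOpen_lt ((hq.continuous_seminorm i).comp
          (continuous_const.sub continuous_id)) continuous_const).mem_nhds ?_
        change q i ((x : E) - x) < ε / 2
        rw [sub_self, map_zero]
        positivity
      obtain ⟨u, hu1, hu2⟩ := mem_closure_iff_nhds.1 h3 _ h4
      rw [he] at hu2
      obtain ⟨n, rfl⟩ := hu2
      exact mem_iUnion.2 ⟨n, show q i ((x : E) - e n) ≤ ε / 2 from le_of_lt hu1⟩
    · have h1 : (x : E) - y = (x - e n) + (e n - y) := by abel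
      rw [h1]
      have h2 : q i (e n - (y : E)) ≤ ε / 2 := by
        rw [map_sub_rev]
        exact hy
      have h3 : q i ((x : E) - e n) ≤ ε / 2 := hx
      have h4 := map_add_le_add (q i) ((x : E) - e n) (e n - y)
      linarith

theorem fixed_point {S : Type u} [Semigroup S] [TopologicalSpace S] (hS : IsSemitopological S)
    (m : WAP hS →ₗ[ℝ] ℝ) (hm : IsLIM hS m) (hq : WithSeminorms q) (C : Set E)
    (hne : C.Nonempty) (hconv : Convex ℝ C) (hcpt : IsCompact (toWeakSpace 𝕜 E '' C))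
    (T : S → C → C) (hT : IsQuasiNonexpansiveRep 𝕜 q C T) : ∃ z : C, ∀ s, T s z = z := by
  classical
  letI := weakTop 𝕜 C
  have := hq.topologicalAddGroup
  have := hq.continuousSMul
  have : LocallyConvexSpace ℝ E := hq.toLocallyConvexSpace
  have : ContinuousSMul ℝ E := IsScalarTower.continuousSMul 𝕜
  have hj : Continuous fun x : C => toWeakSpace 𝕜 E (x : E) := continuous_induced_dom
  have hsd : SeparatingDual 𝕜 E := ⟨fun x hx => by
    obtain ⟨f, hf⟩ := RCLike.geometric_hahn_banach_point_point (𝕜 := 𝕜) hx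
    exact ⟨f, fun hf' => by simp [hf'] at hf⟩⟩
  have hT2 : T2Space C := T2Space.of_injective_continuous
    (fun x y h => Subtype.ext ((toWeakSpace 𝕜 E).injective h)) hj
  have hCc : CompactSpace C := by
    refine ⟨?_⟩
    have h1 : Topology.IsInducing fun x : C => toWeakSpace 𝕜 E (x : E) := ⟨rfl⟩
    rw [h1.isCompact_iff, image_univ]
    convert hcpt using 1
    ext u
    simp
  have hSne : Nonempty S := by
    by_contra hcon
    have hemp : IsEmpty S := not_nonempty_iff.1 hcon
    have h1 : wapOne hS = 0 := Subtype.ext (by ext t; exact hemp.elim t)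
    have h2 := hm.one
    rw [h1, map_zero] at h2
    exact zero_ne_one h2
  have hCne : Nonempty C := hne.to_subtype
  -- a minimal convex invariant set
  obtain ⟨K, -, ⟨hK, hKconv⟩, hKmin⟩ := exists_minimal T
    (fun F => Convex ℝ (Subtype.val '' F)) (fun c hc => by
      have h1 : Subtype.val '' (⋂₀ c) = C ∩ ⋂ F ∈ c, Subtype.val '' F := by
        ext u
        simp only [mem_image, mem_sInter, mem_inter_iff, mem_iInter]
        constructor
        · rintro ⟨x, hx, rfl⟩
          exact ⟨x.2, fun F hF => ⟨x, hx F hF, rfl⟩⟩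
        · rintro ⟨hu, h⟩
          refine ⟨⟨u, hu⟩, fun F hF => ?_, rfl⟩
          obtain ⟨x, hx, hxu⟩ := h F hF
          have : x = ⟨u, hu⟩ := Subtype.ext hxu
          rw [← this]
          exact hx
      rw [h1]
      exact hconv.inter (convex_iInter fun F => convex_iInter fun hF => hc F hF))
    univ ⟨isClosed_univ, univ_nonempty, fun _ _ _ => mem_univ _⟩ (by
      rw [image_univ, Subtype.range_coe]
      exact hconv)
  -- a minimal invariant set inside
  obtain ⟨K₀, hK₀K, ⟨hK₀, -⟩, hK₀min⟩ := exists_minimal T (fun _ => True) (fun _ _ => trivial)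
    K hK trivial
  obtain ⟨x₀, hx₀⟩ := hK₀.ne
  obtain ⟨Λ, hΛ1, hΛ2, hΛ3⟩ := exists_functional hS m hm T hT.mul hT.cont_left hT.quasi K₀
    hK₀.inv x₀ hx₀
  have hset : Setup T K₀ Λ :=
    ⟨hSne, hT.mul, hT.cont_right, hK₀, fun F hF hFK => hK₀min F hF trivial hFK, hΛ1, hΛ2, hΛ3⟩
  have hzero : ∀ i, ∀ x ∈ K₀, ∀ y ∈ K₀, q i ((x : E) - y) = 0 := by
    intro i
    by_contra hcon
    push Not at hcon
    obtain ⟨x₁, hx₁, y₁, hy₁, hne₁⟩ := hcon
    have hpm := pm hq C i
    have htb := fun ε (hε : 0 < ε) => hset.tb hpm (fun s x _ y _ => hT.nonexpansive i s x y) hε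
    -- the diameter
    set A : Set ℝ := {r | ∃ x ∈ K₀, ∃ y ∈ K₀, r = q i ((x : E) - y)} with hA
    have hbdd : BddAbove A := by
      obtain ⟨Y, hY1, hY2⟩ := htb 1 one_pos
      refine ⟨2 + (∑ y ∈ Y, ∑ z ∈ Y, q i ((y : E) - z)) + 2, ?_⟩
      rintro r ⟨x, hx, y, hy, rfl⟩
      obtain ⟨x', hx', hxx'⟩ := hY2 x hx
      obtain ⟨y', hy', hyy'⟩ := hY2 y hy
      have h1 := hpm.tri x x' y
      have h2 := hpm.tri x' y' y
      have h3 := hpm.symm y' y
      have h4 : q i ((x' : E) - y') ≤ ∑ y ∈ Y, ∑ z ∈ Y, q i ((y : E) - z) := by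
        calc q i ((x' : E) - y') ≤ ∑ z ∈ Y, q i ((x' : E) - z) :=
              Finset.single_le_sum (f := fun z : C => q i ((x' : E) - z))
                (fun z _ => apply_nonneg _ _) hy'
          _ ≤ _ := Finset.single_le_sum (f := fun y : C => ∑ z ∈ Y, q i ((y : E) - z))
                (fun z _ => Finset.sum_nonneg fun _ _ => apply_nonneg _ _) hx'
      beta_reduce at h1 h2 h3
      linarith
    set D : ℝ := sSup A with hD
    have hDle : ∀ x ∈ K₀, ∀ y ∈ K₀, q i ((x : E) - y) ≤ D := fun x hx y hy =>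
      le_csSup hbdd ⟨x, hx, y, hy, rfl⟩
    have hDpos : 0 < D := by
      have h1 : 0 < q i ((x₁ : E) - y₁) := lt_of_le_of_ne (apply_nonneg _ _) (Ne.symm hne₁)
      exact h1.trans_le (hDle _ hx₁ _ hy₁)
    obtain ⟨Y, hY1, hY2⟩ := htb (D / 4) (by positivity)
    have hYne : Y.Nonempty := by
      obtain ⟨y, hy, -⟩ := hY2 x₁ hx₁
      exact ⟨y, hy⟩
    have hn : (0 : ℝ) < Y.card := by exact_mod_cast hYne.card_pos
    set u : E := ∑ y ∈ Y, (1 / (Y.card : ℝ)) • (y : E) with hu
    have huK : u ∈ Subtype.val '' K := by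
      refine hKconv.sum_mem (fun y _ => by positivity) ?_ fun y hy => ⟨y, hK₀K (hY1 y hy), rfl⟩
      rw [Finset.sum_const, nsmul_eq_mul, mul_one_div, div_self hn.ne']
    obtain ⟨u', hu'K, hu'⟩ := huK
    set r : ℝ := D - D / (2 * Y.card) with hr
    have hrD : r < D := by
      have : 0 < D / (2 * Y.card) := by positivity
      linarith
    have hur : ∀ x ∈ K₀, q i ((u' : E) - x) ≤ r := by
      intro x hx
      obtain ⟨y, hy, hxy⟩ := hY2 x hx
      have h1 : (u' : E) - x = ∑ z ∈ Y, (1 / (Y.card : ℝ)) • ((z : E) - x) := by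
        rw [hu', hu]
        simp_rw [smul_sub]
        rw [Finset.sum_sub_distrib, Finset.sum_const, ← Nat.cast_smul_eq_nsmul ℝ, smul_smul,
          mul_one_div, div_self hn.ne', one_smul]
      have h2 : q i ((u' : E) - x) ≤ ∑ z ∈ Y, (1 / (Y.card : ℝ)) * q i ((z : E) - x) := by
        rw [h1]
        refine (Finset.le_sum_of_subadditive (q i) (map_zero (q i)).le (map_add_le_add (q i)) Y
          _).trans (Finset.sum_le_sum fun z _ => le_of_eq ?_)
        have h3 : (1 / (Y.card : ℝ)) • ((z : E) - x) = ((1 / (Y.card : ℝ) : ℝ) : 𝕜) • ((z : E) - x) :=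
          (RCLike.real_smul_eq_coe_smul (K := 𝕜) _ _)
        rw [h3, map_smul_eq_mul, RCLike.norm_ofReal, abs_of_nonneg (by positivity)]
      rw [← Finset.mul_sum] at h2
      have h4 : ∑ z ∈ Y, q i ((z : E) - x) ≤ D / 2 + (Y.card - 1) * D := by
        rw [← Finset.add_sum_erase Y _ hy]
        refine add_le_add ?_ ?_
        · have h6 : q i ((y : E) - x) = q i ((x : E) - y) := hpm.symm y x
          rw [h6]
          linarith
        · refine (Finset.sum_le_card_nsmul _ _ D fun z hz =>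
            hDle z (hY1 z (Finset.mem_of_mem_erase hz)) x hx).trans (le_of_eq ?_)
          rw [Finset.card_erase_of_mem hy, nsmul_eq_mul, Nat.cast_sub hYne.card_pos, Nat.cast_one]
      have h5 : (1 / (Y.card : ℝ)) * (D / 2 + (Y.card - 1) * D) = r := by
        rw [hr]
        field_simp
        ring
      calc q i ((u' : E) - x) ≤ (1 / (Y.card : ℝ)) * ∑ z ∈ Y, q i ((z : E) - x) := h2
        _ ≤ (1 / (Y.card : ℝ)) * (D / 2 + (Y.card - 1) * D) := by gcongr
        _ = r := h5
    -- the smaller convex set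
    have hK₁ : {z | z ∈ K ∧ ∀ x ∈ K₀, q i ((z : E) - x) ≤ r} = K := by
      refine hKmin _ ⟨?_, ⟨u', hu'K, hur⟩, fun s z hz => ⟨hK.inv s z hz.1, fun x hx => ?_⟩⟩ ?_
        fun z hz => hz.1
      · refine hK.closed.inter ?_
        have h1 : {z : C | ∀ x ∈ K₀, q i ((z : E) - x) ≤ r} =
            ⋂ x ∈ K₀, {z : C | q i ((z : E) - x) ≤ r} := by
          ext z
          simp
        change IsClosed {z : C | ∀ x ∈ K₀, q i ((z : E) - x) ≤ r}
        rw [h1]
        refine isClosed_biInter fun x _ => ?_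
        have h2 : Continuous fun z : C => (z, x) := by fun_prop
        exact (hpm.lsc r).preimage h2
      · obtain ⟨x', hx', rfl⟩ := hset.surj s hx
        exact (hT.nonexpansive i s z x').trans (hz.2 x' hx')
      · have h1 : Subtype.val '' {z : C | z ∈ K ∧ ∀ x ∈ K₀, q i ((z : E) - x) ≤ r} =
            Subtype.val '' K ∩ ⋂ x ∈ K₀, {z : E | q i (z - x) ≤ r} := by
          ext z
          simp only [mem_image, mem_inter_iff, mem_iInter, mem_setOf_eq]
          constructor
          · rintro ⟨z', ⟨h2, h3⟩, rfl⟩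
            exact ⟨⟨z', h2, rfl⟩, h3⟩
          · rintro ⟨⟨z', h2, rfl⟩, h3⟩
            exact ⟨z', ⟨h2, h3⟩, rfl⟩
        change Convex ℝ (Subtype.val '' {z : C | z ∈ K ∧ ∀ x ∈ K₀, q i ((z : E) - x) ≤ r})
        rw [h1]
        refine hKconv.inter (convex_iInter fun x => convex_iInter fun _ => ?_)
        have h2 : {z : E | q i (z - x) ≤ r} = (q i).closedBall x r := rfl
        rw [h2]
        exact (q i).convex_closedBall _ _
    have hDr : D ≤ r := by
      refine csSup_le ⟨_, x₁, hx₁, y₁, hy₁, rfl⟩ ?_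
      rintro _ ⟨x, hx, y, hy, rfl⟩
      have h1 : x ∈ {z | z ∈ K ∧ ∀ x ∈ K₀, q i ((z : E) - x) ≤ r} := by
        rw [hK₁]
        exact hK₀K hx
      exact h1.2 y hy
    linarith
  refine ⟨x₀, fun s => ?_⟩
  have h1 : T s x₀ ∈ K₀ := hK₀.inv s x₀ hx₀
  apply Subtype.ext
  by_contra hne'
  have h2 : ((T s x₀ : C) : E) - x₀ ≠ 0 := sub_ne_zero.2 hne'
  obtain ⟨i, hi⟩ := hq.separating_of_T1 _ h2
  exact hi (hzero i _ h1 _ hx₀)

end main

end Pool.Agent.R287.FP
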