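import Mathlib
import Pool.Agent.R684.GP.Stm

/-! Piece GP-B1 of project GP (MP_305fdd_al): comparison of first Betti numbers. -/

set_option autoImplicit false

namespace Pool.Agent.R287.GPB1

open scoped DirectSum

theorem fg_struct (H : Type) [Group H] [Group.FG H] :
    ∃ (m : ℕ) (π : Additive H →+ (Fin m → ℤ)) (N : ℕ), 0 < N ∧ Function.Surjective π ∧
      ∀ (C : Type) [AddCommGroup C] (f : Additive H →+ C) (x : Additive H), π x = 0 → N • f x = 0 := by
  have h0 : Group.FG (Abelianization H) :=
    Group.fg_of_surjective (f := Abelianization.of) (QuotientGroup.mk_surjective)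
  have h1 : AddGroup.FG (Additive (Abelianization H)) := inferInstance
  obtain ⟨n, ι, hι, p, hp, e, ⟨E⟩⟩ := AddCommGroup.equiv_free_prod_directSum_zmod (Additive (Abelianization H))
  let q : Additive H →+ Additive (Abelianization H) := MonoidHom.toAdditive Abelianization.of
  have hq : Function.Surjective q := by
    intro y
    obtain ⟨x, hx⟩ := QuotientGroup.mk_surjective (Additive.toMul y)
    exact ⟨Additive.ofMul x, congrArg Additive.ofMul hx⟩
  let fs : (Fin n →₀ ℤ) →+ (Fin n → ℤ) := Finsupp.coeFnAddHom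
  let π : Additive H →+ (Fin n → ℤ) :=
    fs.comp ((AddMonoidHom.fst (Fin n →₀ ℤ) (⨁ i : ι, ZMod (p i ^ e i))).comp (E.toAddMonoidHom.comp q))
  refine ⟨n, π, ∏ i, p i ^ e i, Finset.prod_pos fun i _ => pow_pos (hp i).pos _, ?_, ?_⟩
  · intro v
    obtain ⟨y, hy⟩ := E.surjective (Finsupp.equivFunOnFinite.symm v, 0)
    obtain ⟨x, hx⟩ := hq y
    refine ⟨x, ?_⟩
    show fs ((E (q x)).1) = v
    rw [hx, hy]
    rfl
  · intro C _ f x hx
    have h2 : (∏ i, p i ^ e i) • q x = 0 := by
      apply E.injective
      rw [map_nsmul, map_zero]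
      have h3 : (E (q x)).1 = 0 := by
        have h4 : fs ((E (q x)).1) = 0 := hx
        exact DFunLike.coe_injective h4
      apply Prod.ext
      · show (∏ i, p i ^ e i) • (E (q x)).1 = 0
        rw [h3, smul_zero]
      · show (∏ i, p i ^ e i) • (E (q x)).2 = 0
        refine DFinsupp.ext fun i => ?_
        rw [DFinsupp.smul_apply, nsmul_eq_mul]
        have h5 : (((∏ i, p i ^ e i : ℕ)) : ZMod (p i ^ e i)) = 0 := by
          rw [ZMod.natCast_eq_zero_iff]
          exact Finset.dvd_prod_of_mem _ (Finset.mem_univ i)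
        rw [h5, zero_mul]
        rfl
    let f' : Additive (Abelianization H) →+ C :=
      MonoidHom.toAdditiveLeft (Abelianization.lift (AddMonoidHom.toMultiplicativeRight f))
    have h6 : f' (q x) = f x := rfl
    rw [← h6, ← map_nsmul, h2, map_zero]

theorem finrank_eq {H : Type} [Group H] {m : ℕ} (π : Additive H →+ (Fin m → ℤ)) (N : ℕ) (hN : 0 < N)
    (hs : Function.Surjective π)
    (hk : ∀ (C : Type) [AddCommGroup C] (f : Additive H →+ C) (x : Additive H), π x = 0 → N • f x = 0) :
    Module.finrank ℂ (Additive H →+ ℂ) = m := by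
  let L : (Fin m → ℂ) →ₗ[ℂ] (Additive H →+ ℂ) :=
    { toFun := fun c =>
        { toFun := fun x => ∑ j, c j * ((π x j : ℤ) : ℂ)
          map_zero' := by simp
          map_add' := by
            intro x y
            rw [← Finset.sum_add_distrib]
            refine Finset.sum_congr rfl fun j _ => ?_
            rw [map_add, Pi.add_apply, Int.cast_add, mul_add] }
      map_add' := by
        intro c c'
        ext x
        show ∑ j, (c j + c' j) * ((π x j : ℤ) : ℂ) = ∑ j, c j * ((π x j : ℤ) : ℂ) + ∑ j, c' j * ((π x j : ℤ) : ℂ)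
        rw [← Finset.sum_add_distrib]
        exact Finset.sum_congr rfl fun j _ => add_mul _ _ _
      map_smul' := by
        intro a c
        ext x
        show ∑ j, (a * c j) * ((π x j : ℤ) : ℂ) = a * ∑ j, c j * ((π x j : ℤ) : ℂ)
        rw [Finset.mul_sum]
        exact Finset.sum_congr rfl fun j _ => mul_assoc _ _ _ }
  have hLa : ∀ c x, L c x = ∑ j, c j * ((π x j : ℤ) : ℂ) := fun _ _ => rfl
  have hinj : Function.Injective L := by
    intro c c' h
    funext j
    obtain ⟨x, hx⟩ := hs (Pi.single j 1)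
    have h1 : L c x = L c' x := by rw [h]
    rw [hLa, hLa, hx] at h1
    simpa [Pi.single_apply] using h1
  have hsur : Function.Surjective L := by
    intro f
    have hker : π.ker ≤ f.ker := by
      intro x hx
      have h1 := hk ℂ f x hx
      rw [AddMonoidHom.mem_ker]
      rw [nsmul_eq_mul] at h1
      rcases mul_eq_zero.1 h1 with h2 | h2
      · exact absurd (Nat.cast_eq_zero.1 h2) hN.ne'
      · exact h2
    let F : (Fin m → ℤ) →+ ℂ := π.liftOfRightInverse (Function.surjInv hs)
      (Function.rightInverse_surjInv hs) ⟨f, hker⟩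
    have hF : ∀ x, F (π x) = f x := fun x =>
      π.liftOfRightInverse_comp_apply (Function.surjInv hs) (Function.rightInverse_surjInv hs)
        ⟨f, hker⟩ x
    refine ⟨fun j => F (Pi.single j 1), ?_⟩
    ext x
    show ∑ j, F (Pi.single j 1) * ((π x j : ℤ) : ℂ) = f x
    rw [← hF x]
    have h2 : π x = ∑ j, (π x j) • (Pi.single j (1 : ℤ) : Fin m → ℤ) := by
      funext i
      simp [Finset.sum_apply, Pi.single_apply]
    conv_rhs => rw [h2, map_sum]
    refine Finset.sum_congr rfl fun j _ => ?_
    rw [map_zsmul, zsmul_eq_mul, mul_comm]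
  have e := (LinearEquiv.ofBijective L ⟨hinj, hsur⟩).finrank_eq
  rw [← e, Module.finrank_fin_fun]

theorem le_of_surj {K : Type} [Group K] {m m' : ℕ} (π : Additive K →+ (Fin m' → ℤ)) (N : ℕ)
    (hs : Function.Surjective π)
    (hk : ∀ (C : Type) [AddCommGroup C] (f : Additive K →+ C) (x : Additive K), π x = 0 → N • f x = 0)
    (p : ℕ) (hp : p.Prime) (hpN : ¬ p ∣ N) (η : Additive K →+ (Fin m → ZMod p))
    (hη : Function.Surjective η) : m ≤ m' := by
  have := Fact.mk hp
  have hpz : ∀ v : Fin m → ZMod p, p • v = 0 := by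
    intro v
    funext j
    rw [Pi.smul_apply, nsmul_eq_mul, ZMod.natCast_self, zero_mul, Pi.zero_apply]
  have hker : π.ker ≤ η.ker := by
    intro x hx
    have h1 := hk _ η x hx
    rw [AddMonoidHom.mem_ker]
    funext j
    have h2 := congrFun h1 j
    rw [Pi.smul_apply, nsmul_eq_mul, Pi.zero_apply] at h2
    rcases mul_eq_zero.1 h2 with h3 | h3
    · exact absurd ((ZMod.natCast_eq_zero_iff N p).1 h3) hpN
    · exact h3
  let F : (Fin m' → ℤ) →+ (Fin m → ZMod p) := π.liftOfRightInverse (Function.surjInv hs)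
    (Function.rightInverse_surjInv hs) ⟨η, hker⟩
  have hF : ∀ x, F (π x) = η x := fun x =>
    π.liftOfRightInverse_comp_apply (Function.surjInv hs) (Function.rightInverse_surjInv hs)
      ⟨η, hker⟩ x
  let G : (Fin m' → ZMod p) → (Fin m → ZMod p) := fun v => F fun j => ((v j).val : ℤ)
  have hG : Function.Surjective G := by
    intro y
    obtain ⟨x, hx⟩ := hη y
    refine ⟨fun j => ((π x j : ℤ) : ZMod p), ?_⟩
    have h1 : (fun j => ((((π x j : ℤ) : ZMod p)).val : ℤ)) =
        π x - p • (fun j => π x j / (p : ℤ)) := by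
      funext j
      rw [ZMod.val_intCast, Pi.sub_apply, Pi.smul_apply, nsmul_eq_mul]
      have := Int.emod_add_mul_ediv (π x j) p
      linarith
    show F (fun j => ((((π x j : ℤ) : ZMod p)).val : ℤ)) = y
    rw [h1, map_sub, map_nsmul, hpz, sub_zero, hF, hx]
  have hc := Fintype.card_le_of_surjective G hG
  rw [Fintype.card_pi_const, Fintype.card_pi_const, ZMod.card] at hc
  exact (Nat.pow_le_pow_iff_right hp.one_lt).1 hc



open Pool.Agent.R684.GP

/-- Comparison of first Betti numbers (piece GP-B1). -/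
theorem t_B1 (hCO : S_CO) (hGQ : S_GQ) : S_B1 := by
  intro A B _ _ _ _ hAB i
  have hA := (hCO A i).2
  have hB := (hCO B i).2
  have : (core A i).FiniteIndex := ⟨hA⟩
  have : (core B i).FiniteIndex := ⟨hB⟩
  have fA : Group.FG (core A i) := inferInstance
  have fB : Group.FG (core B i) := inferInstance
  obtain ⟨m, π, N, hN, hs, hk⟩ := fg_struct (core B i)
  obtain ⟨m', π', N', hN', hs', hk'⟩ := fg_struct (core A i)
  rw [finrank_eq π N hN hs hk, finrank_eq π' N' hN' hs' hk']
  obtain ⟨p, hpN, hp⟩ := Nat.exists_infinite_primes (N' + 1)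
  have hpn : ¬ p ∣ N' := fun h => absurd (Nat.le_of_dvd hN' h) (by omega)
  have := Fact.mk hp
  -- the homomorphism `θ : core B i → (ℤ/p)^m`
  let θ₀ : Additive (core B i) →+ (Fin m → ZMod p) :=
    { toFun := fun x j => ((π x j : ℤ) : ZMod p)
      map_zero' := by
        funext j
        simp
      map_add' := by
        intro x y
        funext j
        simp }
  let θ : core B i →* Multiplicative (Fin m → ZMod p) := AddMonoidHom.toMultiplicativeRight θ₀
  have hθ : Function.Surjective θ := by
    intro y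
    obtain ⟨x, hx⟩ := hs (fun j => ((Multiplicative.toAdd y j).val : ℤ))
    refine ⟨Additive.toMul x, ?_⟩
    show Multiplicative.ofAdd (θ₀ x) = y
    apply Multiplicative.toAdd.injective
    funext j
    show ((π x j : ℤ) : ZMod p) = Multiplicative.toAdd y j
    rw [hx]
    simp
  let R1 : Subgroup B := θ.ker.map (core B i).subtype
  have hR1 : R1.FiniteIndex := by
    constructor
    have hfi : θ.ker.FiniteIndex := inferInstance
    have h1 : R1.index = θ.ker.index * (core B i).index := by
      have h2 := Subgroup.index_map θ.ker (core B i).subtype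
      rw [Subgroup.ker_subtype, sup_bot_eq, Subgroup.range_subtype] at h2
      exact h2
    rw [h1]
    exact mul_ne_zero hfi.index_ne_zero hB
  let R : Subgroup B := R1.normalCore
  have hRn : R.Normal := Subgroup.normalCore_normal R1
  have hRf : R.FiniteIndex := inferInstanceAs (R1.normalCore.FiniteIndex)
  have hRR1 : R ≤ R1 := Subgroup.normalCore_le R1
  have hR1C : R1 ≤ core B i := by
    rintro _ ⟨x, -, rfl⟩
    exact x.2
  obtain ⟨-, g, hg, hgm⟩ := hGQ A B hAB i R hRf.index_ne_zero (hRR1.trans hR1C)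
  let ρ := (QuotientGroup.mk' R).subgroupMap (core B i)
  have hρ : Function.Surjective ρ := (QuotientGroup.mk' R).subgroupMap_surjective (core B i)
  have hker : ρ.ker ≤ θ.ker := by
    intro x hx
    rw [MonoidHom.mem_ker] at hx
    have h1 : (QuotientGroup.mk' R) (x : B) = 1 := congrArg Subtype.val hx
    have h2 : (x : B) ∈ R := (QuotientGroup.eq_one_iff (x : B)).1 h1
    obtain ⟨y, hy, hxy⟩ := hRR1 h2
    have h3 : y = x := Subtype.ext hxy
    exact h3 ▸ hy
  let θ' : (core B i).map (QuotientGroup.mk' R) →* Multiplicative (Fin m → ZMod p) :=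
    ρ.liftOfRightInverse (Function.surjInv hρ) (Function.rightInverse_surjInv hρ) ⟨θ, hker⟩
  have hθ' : ∀ x, θ' (ρ x) = θ x := fun x =>
    ρ.liftOfRightInverse_comp_apply (Function.surjInv hρ) (Function.rightInverse_surjInv hρ)
      ⟨θ, hker⟩ x
  let g' : core A i →* (core B i).map (QuotientGroup.mk' R) :=
    (g.comp (core A i).subtype).codRestrict _ (fun a => (hgm a).2 a.2)
  have hg' : Function.Surjective g' := by
    rintro ⟨s, hs1⟩
    obtain ⟨a, ha⟩ := hg s
    refine ⟨⟨a, (hgm a).1 (ha ▸ hs1)⟩, ?_⟩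
    exact Subtype.ext ha
  let η : Additive (core A i) →+ (Fin m → ZMod p) := MonoidHom.toAdditiveLeft (θ'.comp g')
  have hη : Function.Surjective η := by
    intro y
    obtain ⟨x, hx⟩ := hθ (Multiplicative.ofAdd y)
    obtain ⟨a, ha⟩ := hg' (ρ x)
    refine ⟨Additive.ofMul a, ?_⟩
    show Multiplicative.toAdd (θ' (g' a)) = y
    rw [ha, hθ', hx]
    rfl
  exact le_of_surj π' N' hs' hk' p hp hpn η hη

end Pool.Agent.R287.GPB1
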