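import Mathlib

open MeasureTheory Complex AddCircle
open scoped ComplexConjugate ENNReal InnerProductSpace

namespace Pool.Agent.R287.HS

/-- The circle, as `ℝ/ℤ`; its Haar probability measure is `haarAddCircle` and the coordinate `z`
is `fourier 1`. -/
abbrev Cir : Type := AddCircle (1 : ℝ)

/-- Mathlib's `L²` space of the circle. -/
abbrev LpC : Type := Lp ℂ 2 (haarAddCircle (T := (1 : ℝ)))

/-- The space `L²` of the circle. -/
def L2 : Type := LpC

noncomputable instance : NormedAddCommGroup L2 := inferInstanceAs (NormedAddCommGroup LpC)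

noncomputable instance : InnerProductSpace ℂ L2 := inferInstanceAs (InnerProductSpace ℂ LpC)

instance : CompleteSpace L2 := inferInstanceAs (CompleteSpace LpC)

/-- The identity map from `L2` to Mathlib's space. -/
def toLp (f : L2) : LpC := f

/-- The function represented by an element of `L²`. -/
noncomputable def fn (f : L2) : Cir → ℂ := toLp f

lemma fn_memLp (f : L2) : MemLp (fn f) 2 haarAddCircle := Lp.memLp (toLp f)

/-- The element of `L²` given by a square-integrable function. -/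
noncomputable def ofFn (f : Cir → ℂ) (hf : MemLp f 2 haarAddCircle) : L2 := hf.toLp f

lemma fn_ofFn (f : Cir → ℂ) (hf : MemLp f 2 haarAddCircle) :
    fn (ofFn f hf) =ᵐ[haarAddCircle] f := hf.coeFn_toLp

lemma ext_fn {f g : L2} (h : fn f =ᵐ[haarAddCircle] fn g) : f = g :=
  Lp.ext (f := toLp f) (g := toLp g) h

lemma fn_add (f g : L2) : fn (f + g) =ᵐ[haarAddCircle] fun t => fn f t + fn g t :=
  Lp.coeFn_add (toLp f) (toLp g)

lemma fn_sub (f g : L2) : fn (f - g) =ᵐ[haarAddCircle] fun t => fn f t - fn g t :=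
  Lp.coeFn_sub (toLp f) (toLp g)

lemma fn_smul (c : ℂ) (f : L2) : fn (c • f) =ᵐ[haarAddCircle] fun t => c * fn f t :=
  Lp.coeFn_smul c (toLp f)

lemma inner_eq (f g : L2) : ⟪f, g⟫_ℂ = ∫ t, conj (fn f t) * fn g t ∂haarAddCircle := by
  have h := MeasureTheory.L2.inner_def (𝕜 := ℂ) (toLp f) (toLp g)
  refine h.trans (integral_congr_ae (Filter.Eventually.of_forall fun t => ?_))
  simp only [RCLike.inner_apply]
  exact mul_comm (toLp g t) (conj (toLp f t))

lemma norm_fourier (n : ℤ) (t : Cir) : ‖(fourier n t : ℂ)‖ = 1 := by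
  rw [fourier_apply]
  exact Circle.norm_coe _

lemma memLp_fourier_mul {f : Cir → ℂ} (hf : MemLp f 2 haarAddCircle) (n : ℤ) :
    MemLp (fun t => (fourier n t : ℂ) * f t) 2 haarAddCircle := by
  refine hf.of_le ((fourier n).continuous.aestronglyMeasurable.mul hf.1)
    (Filter.Eventually.of_forall fun t => ?_)
  rw [norm_mul, norm_fourier, one_mul]

/-- multiplication by `z^n` on `L²` -/
noncomputable def mulZ (n : ℤ) : L2 →ₗᵢ[ℂ] L2 where
  toFun f := ofFn (fun t => (fourier n t : ℂ) * fn f t) (memLp_fourier_mul (fn_memLp f) n)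
  map_add' f g := by
    apply ext_fn
    filter_upwards [fn_ofFn _ (memLp_fourier_mul (fn_memLp (f + g)) n),
      fn_ofFn _ (memLp_fourier_mul (fn_memLp f) n), fn_ofFn _ (memLp_fourier_mul (fn_memLp g) n),
      fn_add f g, fn_add (ofFn _ (memLp_fourier_mul (fn_memLp f) n))
        (ofFn _ (memLp_fourier_mul (fn_memLp g) n))] with t h1 h2 h3 h4 h5
    rw [h1, h5, h2, h3, h4]
    ring
  map_smul' c f := by
    apply ext_fn
    filter_upwards [fn_ofFn _ (memLp_fourier_mul (fn_memLp (c • f)) n),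
      fn_ofFn _ (memLp_fourier_mul (fn_memLp f) n),
      fn_smul c f, fn_smul c (ofFn _ (memLp_fourier_mul (fn_memLp f) n))] with t h1 h2 h3 h4
    rw [h1, RingHom.id_apply, h4, h2, h3]
    ring
  norm_map' f := by
    show ‖(memLp_fourier_mul (fn_memLp f) n).toLp _‖ = ‖toLp f‖
    rw [Lp.norm_def, Lp.norm_def]
    congr 1
    refine (eLpNorm_congr_ae (MemLp.coeFn_toLp _)).trans ?_
    refine eLpNorm_congr_norm_ae (Filter.Eventually.of_forall fun t => ?_)
    rw [norm_mul, norm_fourier, one_mul]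
    rfl

lemma fn_mulZ (n : ℤ) (f : L2) : fn (mulZ n f) =ᵐ[haarAddCircle] fun t => fourier n t * fn f t :=
  fn_ofFn _ (memLp_fourier_mul (fn_memLp f) n)

lemma mulZ_mulZ (m n : ℤ) (f : L2) : mulZ m (mulZ n f) = mulZ (m + n) f := by
  apply ext_fn
  filter_upwards [fn_mulZ m (mulZ n f), fn_mulZ n f, fn_mulZ (m + n) f] with t h1 h2 h3
  rw [h1, h2, h3, fourier_add]
  ring

lemma mulZ_zero (f : L2) : mulZ 0 f = f := by
  apply ext_fn
  filter_upwards [fn_mulZ 0 f] with t h1
  rw [h1]
  simp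

lemma inner_mulZ_left (n : ℤ) (f g : L2) : ⟪mulZ n f, g⟫_ℂ = ⟪f, mulZ (-n) g⟫_ℂ := by
  have h : mulZ n (mulZ (-n) g) = g := by rw [mulZ_mulZ, add_neg_cancel, mulZ_zero]
  nth_rewrite 1 [← h]
  exact (mulZ n).inner_map_map f (mulZ (-n) g)

/-- the exponential `z^n` as an element of `L²` -/
noncomputable def ez (n : ℤ) : L2 := fourierLp (T := (1 : ℝ)) 2 n

lemma fn_ez (n : ℤ) : fn (ez n) =ᵐ[haarAddCircle] fun t => fourier n t :=
  coeFn_fourierLp (T := (1 : ℝ)) 2 n

lemma inner_ez (m n : ℤ) : ⟪ez m, ez n⟫_ℂ = if m = n then 1 else 0 :=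
  orthonormal_iff_ite.mp (orthonormal_fourier (T := (1 : ℝ))) m n

lemma mulZ_ez (m n : ℤ) : mulZ m (ez n) = ez (m + n) := by
  apply ext_fn
  filter_upwards [fn_mulZ m (ez n), fn_ez n, fn_ez (m + n)] with t h1 h2 h3
  rw [h1, h2, h3, fourier_add]

/-- an element of `L²` all of whose Fourier coefficients vanish is zero -/
lemma eq_zero_of_coeff {f : L2} (h : ∀ n : ℤ, ⟪ez n, f⟫_ℂ = 0) : f = 0 := by
  have h1 : toLp f = 0 := by
    apply (fourierBasis (T := (1 : ℝ))).repr.injective
    ext n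
    rw [HilbertBasis.repr_apply_apply, coe_fourierBasis, map_zero]
    exact h n
  exact h1

/-- The Hardy space `H²`, as the subspace of `L²` of the functions whose Fourier coefficients of
negative index vanish. -/
noncomputable def hardy : Submodule ℂ L2 where
  carrier := {f | ∀ n : ℤ, n < 0 → ⟪ez n, f⟫_ℂ = 0}
  add_mem' {f g} hf hg n hn := by rw [inner_add_right, hf n hn, hg n hn, add_zero]
  zero_mem' n _ := inner_zero_right _
  smul_mem' c f hf n hn := by rw [inner_smul_right, hf n hn, mul_zero]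

lemma mem_hardy {f : L2} : f ∈ hardy ↔ ∀ n : ℤ, n < 0 → ⟪ez n, f⟫_ℂ = 0 := Iff.rfl

lemma isClosed_hardy : IsClosed (hardy : Set L2) := by
  have : (hardy : Set L2) = ⋂ n : ℤ, ⋂ _ : n < 0, {f | ⟪ez n, f⟫_ℂ = 0} := by
    ext f
    simp only [Set.mem_iInter]
    exact Iff.rfl
  rw [this]
  refine isClosed_iInter fun n => isClosed_iInter fun _ => ?_
  exact isClosed_eq (continuous_const.inner continuous_id) continuous_const

/-- `H²` as a Hilbert space. -/
def H2 : Type := hardy

noncomputable instance : NormedAddCommGroup H2 := inferInstanceAs (NormedAddCommGroup hardy)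

noncomputable instance : InnerProductSpace ℂ H2 := inferInstanceAs (InnerProductSpace ℂ hardy)

instance : CompleteSpace H2 := by
  haveI : IsClosed (hardy : Set L2) := isClosed_hardy
  exact inferInstanceAs (CompleteSpace hardy)

/-- The inclusion of `H²` in `L²`. -/
noncomputable def inc : H2 →ₗᵢ[ℂ] L2 := hardy.subtypeₗᵢ

lemma inc_mem (f : H2) : inc f ∈ hardy := Subtype.mem f

lemma exists_inc {f : L2} (hf : f ∈ hardy) : ∃ g : H2, inc g = f := ⟨⟨f, hf⟩, rfl⟩

lemma mulZ_mem {f : L2} (hf : f ∈ hardy) {n : ℤ} (hn : 0 ≤ n) : mulZ n f ∈ hardy := by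
  intro m hm
  have h := inner_mulZ_left (-n) (ez m) f
  rw [neg_neg] at h
  rw [← h, mulZ_ez]
  exact hf _ (by omega)

/-- the shift on `H²` -/
noncomputable def shift : H2 →ₗᵢ[ℂ] H2 where
  toLinearMap := (mulZ 1).toLinearMap.restrict (fun _ hf => mulZ_mem hf zero_le_one)
  norm_map' f := (mulZ 1).norm_map (inc f)

lemma inc_shift (f : H2) : inc (shift f) = mulZ 1 (inc f) := rfl

/-- `T` is the Toeplitz operator on `H²` with symbol `F`: for every `f` in `H²`, `T f` is the
orthogonal projection of `F f` to `H²`. -/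
def IsToeplitz (F : Cir → ℂ) (T : H2 →L[ℂ] H2) : Prop :=
  ∀ (f : H2) (h : L2), (fn h =ᵐ[haarAddCircle] fun t => F t * fn (inc f) t) →
    ∀ g : H2, ⟪inc g, h - inc (T f)⟫_ℂ = 0

end Pool.Agent.R287.HS
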