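import Mathlib

/-! The space `l_4 ∩ l_2(w)` over `Γ × ℕ`: interface. -/

set_option autoImplicit false

open Filter Topology Finset
open scoped ENNReal

namespace Pool.Agent.R287.KP

/-- The weight `4^{-n}` on `Γ × ℕ`. -/
noncomputable def wt {Γ : Type*} (j : Γ × ℕ) : ℝ := (1 / 4) ^ j.2

theorem wt_pos {Γ : Type*} (j : Γ × ℕ) : 0 < wt j := by unfold wt; positivity

theorem wt_le {Γ : Type*} (j : Γ × ℕ) : wt j ≤ 1 := by
  unfold wt
  exact pow_le_one₀ (by norm_num) (by norm_num)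

/-- Interface to the space. -/
structure KData (Γ : Type*) (𝕜 : Type*) [RCLike 𝕜] (X : Type*) [NormedAddCommGroup X]
    [NormedSpace 𝕜 X] where
  c : (Γ × ℕ) → (X →L[𝕜] 𝕜)
  ext : ∀ x y : X, (∀ j, c j x = c j y) → x = y
  make : ∀ (a : Γ × ℕ → 𝕜) (C : ℝ), 0 ≤ C → (∀ F : Finset (Γ × ℕ), ∑ j ∈ F, ‖a j‖ ^ 4 ≤ C ^ 4) →
    (∀ F : Finset (Γ × ℕ), ∑ j ∈ F, (wt j * ‖a j‖) ^ 2 ≤ C ^ 2) →
    ∃ x : X, (∀ j, c j x = a j) ∧ ‖x‖ ≤ C
  b4 : ∀ (x : X) (F : Finset (Γ × ℕ)), ∑ j ∈ F, ‖c j x‖ ^ 4 ≤ ‖x‖ ^ 4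
  b2 : ∀ (x : X) (F : Finset (Γ × ℕ)), ∑ j ∈ F, (wt j * ‖c j x‖) ^ 2 ≤ ‖x‖ ^ 2
  U : X →L[𝕜] lp (fun _ : Γ × ℕ => 𝕜) 2
  hU : ∀ (x : X) (j : Γ × ℕ), U x j = (wt j : 𝕜) * c j x

section concrete

variable (Γ : Type*) (𝕜 : Type*) [RCLike 𝕜]

instance fact4 : Fact ((1 : ℝ≥0∞) ≤ 4) := ⟨by norm_num⟩

/-- The concrete space. -/
def kX : Submodule 𝕜 (lp (fun _ : Γ × ℕ => 𝕜) 4 × lp (fun _ : Γ × ℕ => 𝕜) 2) where
  carrier := {p | ∀ j, p.2 j = (wt j : 𝕜) * p.1 j}
  add_mem' := by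
    intro p q hp hq j
    have h1 := hp j
    have h2 := hq j
    simp only [Prod.fst_add, Prod.snd_add, lp.coeFn_add, PreLp.add_apply, Pi.add_apply]
    rw [h1, h2]
    ring
  zero_mem' := by
    intro j
    simp
  smul_mem' := by
    intro a p hp j
    have h1 := hp j
    simp only [Prod.smul_fst, Prod.smul_snd, lp.coeFn_smul]
    show a • (p.2 j) = _ * (a • (p.1 j))
    rw [h1]
    simp only [smul_eq_mul]
    ring

theorem kX_closed : IsClosed (kX Γ 𝕜 : Set (lp (fun _ : Γ × ℕ => 𝕜) 4 × lp (fun _ : Γ × ℕ => 𝕜) 2)) := by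
  have : (kX Γ 𝕜 : Set (lp (fun _ : Γ × ℕ => 𝕜) 4 × lp (fun _ : Γ × ℕ => 𝕜) 2)) =
      ⋂ j, {p | p.2 j = (wt j : 𝕜) * p.1 j} := by
    ext p
    simp [kX]
  rw [this]
  refine isClosed_iInter fun j => isClosed_eq ?_ ?_
  · exact ((lp.lipschitzWith_one_eval (E := fun _ : Γ × ℕ => 𝕜) 2 j).continuous).comp continuous_snd
  · exact continuous_const.mul
      (((lp.lipschitzWith_one_eval (E := fun _ : Γ × ℕ => 𝕜) 4 j).continuous).comp continuous_fst)

instance : CompleteSpace (kX Γ 𝕜) := (kX_closed Γ 𝕜).completeSpace_coe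

/-- The coordinate functionals. -/
noncomputable def kc (j : Γ × ℕ) : kX Γ 𝕜 →L[𝕜] 𝕜 :=
  LinearMap.mkContinuous
    { toFun := fun p => p.1.1 j
      map_add' := by intro p q; rfl
      map_smul' := by intro a p; rfl } 1 (by
      intro p
      rw [one_mul]
      refine (lp.norm_apply_le_norm (by norm_num) p.1.1 j).trans ?_
      exact le_max_left _ _)

/-- The second coordinate. -/
noncomputable def kU : kX Γ 𝕜 →L[𝕜] lp (fun _ : Γ × ℕ => 𝕜) 2 :=
  (ContinuousLinearMap.snd 𝕜 _ _).comp (Submodule.subtypeL (kX Γ 𝕜))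

/-- The data. -/
noncomputable def kData : KData Γ 𝕜 (kX Γ 𝕜) where
  c := kc Γ 𝕜
  ext := by
    intro x y h
    have h1 : x.1.1 = y.1.1 := by
      apply lp.ext
      funext j
      exact h j
    have h2 : x.1.2 = y.1.2 := by
      apply lp.ext
      funext j
      have hx := x.2 j
      have hy := y.2 j
      rw [hx, hy]
      congr 1
      exact h j
    exact Subtype.ext (Prod.ext h1 h2)
  make := by
    intro a C hC h4 h2
    have e4 : (4 : ℝ≥0∞).toReal = 4 := by norm_num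
    have e2 : (2 : ℝ≥0∞).toReal = 2 := by norm_num
    have m4 : Memℓp a 4 := by
      refine memℓp_gen' (C := C ^ 4) fun s => ?_
      rw [e4]
      have := h4 s
      refine le_trans (le_of_eq ?_) this
      refine sum_congr rfl fun i _ => ?_
      exact_mod_cast Real.rpow_natCast (‖a i‖) 4
    have hn : ∀ j : Γ × ℕ, ‖(wt j : 𝕜) * a j‖ = wt j * ‖a j‖ := by
      intro j
      rw [norm_mul, RCLike.norm_ofReal, abs_of_pos (wt_pos j)]
    have m2 : Memℓp (fun j => (wt j : 𝕜) * a j) 2 := by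
      refine memℓp_gen' (C := C ^ 2) fun s => ?_
      rw [e2]
      have := h2 s
      refine le_trans (le_of_eq ?_) this
      refine sum_congr rfl fun i _ => ?_
      rw [hn]
      exact_mod_cast Real.rpow_natCast (wt i * ‖a i‖) 2
    refine ⟨⟨(⟨a, m4⟩, ⟨fun j => (wt j : 𝕜) * a j, m2⟩), fun j => rfl⟩, fun j => rfl, ?_⟩
    refine max_le ?_ ?_
    · refine lp.norm_le_of_forall_sum_le (by rw [e4]; norm_num) hC ?_
      intro s
      rw [e4]
      have := h4 s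
      have e : C ^ (4 : ℝ) = C ^ 4 := by exact_mod_cast Real.rpow_natCast C 4
      rw [e]
      refine le_trans (le_of_eq ?_) this
      refine sum_congr rfl fun i _ => ?_
      exact_mod_cast Real.rpow_natCast (‖a i‖) 4
    · refine lp.norm_le_of_forall_sum_le (by rw [e2]; norm_num) hC ?_
      intro s
      rw [e2]
      have := h2 s
      have e : C ^ (2 : ℝ) = C ^ 2 := by exact_mod_cast Real.rpow_natCast C 2
      rw [e]
      refine le_trans (le_of_eq ?_) this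
      refine sum_congr rfl fun i _ => ?_
      show ‖(wt i : 𝕜) * a i‖ ^ (2 : ℝ) = _
      rw [hn]
      exact_mod_cast Real.rpow_natCast (wt i * ‖a i‖) 2
  b4 := by
    intro x F
    have e4 : (4 : ℝ≥0∞).toReal = 4 := by norm_num
    have h := lp.sum_rpow_le_norm_rpow (p := 4) (by rw [e4]; norm_num) x.1.1 F
    rw [e4] at h
    have e : ‖x.1.1‖ ^ (4 : ℝ) = ‖x.1.1‖ ^ 4 := by exact_mod_cast Real.rpow_natCast _ 4
    rw [e] at h
    have h1 : ‖x.1.1‖ ≤ ‖x‖ := le_max_left _ _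
    refine le_trans (le_trans (le_of_eq ?_) h) (pow_le_pow_left₀ (norm_nonneg _) h1 4)
    refine sum_congr rfl fun i _ => ?_
    exact_mod_cast (Real.rpow_natCast (‖x.1.1 i‖) 4).symm
  b2 := by
    intro x F
    have e2 : (2 : ℝ≥0∞).toReal = 2 := by norm_num
    have h := lp.sum_rpow_le_norm_rpow (p := 2) (by rw [e2]; norm_num) x.1.2 F
    rw [e2] at h
    have e : ‖x.1.2‖ ^ (2 : ℝ) = ‖x.1.2‖ ^ 2 := by exact_mod_cast Real.rpow_natCast _ 2
    rw [e] at h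
    have h1 : ‖x.1.2‖ ≤ ‖x‖ := le_max_right _ _
    refine le_trans (le_trans (le_of_eq ?_) h) (pow_le_pow_left₀ (norm_nonneg _) h1 2)
    refine sum_congr rfl fun i _ => ?_
    have hx := x.2 i
    have : ‖x.1.2 i‖ = wt i * ‖kc Γ 𝕜 i x‖ := by
      rw [hx, norm_mul, RCLike.norm_ofReal, abs_of_pos (wt_pos i)]
      rfl
    rw [this]
    exact_mod_cast (Real.rpow_natCast (wt i * ‖kc Γ 𝕜 i x‖) 2).symm
  U := kU Γ 𝕜
  hU := by
    intro x j
    exact x.2 j

end concrete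

end Pool.Agent.R287.KP
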