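import Mathlib
import Pool.Agent.R287.KPa

/-! Projections, tails, disjoint supports, shrinking. -/

set_option autoImplicit false

open Filter Topology Finset
open scoped ENNReal

namespace Pool.Agent.R287.KP

variable {Γ : Type*} {𝕜 : Type*} [RCLike 𝕜] {X : Type*} [NormedAddCommGroup X]
    [NormedSpace 𝕜 X] (D : KData Γ 𝕜 X)

theorem KData.norm_le_of {x : X} {C : ℝ} (hC : 0 ≤ C)
    (h4 : ∀ F : Finset (Γ × ℕ), ∑ j ∈ F, ‖D.c j x‖ ^ 4 ≤ C ^ 4)
    (h2 : ∀ F : Finset (Γ × ℕ), ∑ j ∈ F, (wt j * ‖D.c j x‖) ^ 2 ≤ C ^ 2) : ‖x‖ ≤ C := by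
  obtain ⟨y, hy, hyC⟩ := D.make (fun j => D.c j x) C hC h4 h2
  have : y = x := D.ext _ _ hy
  rwa [← this]

open Classical in
theorem KData.exists_P (S : Set (Γ × ℕ)) (x : X) :
    ∃ y : X, (∀ j, D.c j y = if j ∈ S then D.c j x else 0) ∧ ‖y‖ ≤ ‖x‖ := by
  refine D.make _ _ (norm_nonneg _) ?_ ?_
  · intro F
    refine le_trans (sum_le_sum fun j _ => ?_) (D.b4 x F)
    by_cases h : j ∈ S
    · simp [h]
    · simp [h]
  · intro F
    refine le_trans (sum_le_sum fun j _ => ?_) (D.b2 x F)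
    by_cases h : j ∈ S
    · simp [h]
    · simp only [h, if_false, norm_zero, mul_zero]
      exact le_trans (le_of_eq (by norm_num)) (sq_nonneg _)

open Classical in
/-- The coordinate projection onto `S`. -/
noncomputable def KData.P (S : Set (Γ × ℕ)) : X →L[𝕜] X :=
  LinearMap.mkContinuous
    { toFun := fun x => (D.exists_P S x).choose
      map_add' := by
        intro x y
        apply D.ext
        intro j
        rw [(D.exists_P S (x + y)).choose_spec.1, map_add, map_add,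
          (D.exists_P S x).choose_spec.1, (D.exists_P S y).choose_spec.1]
        by_cases h : j ∈ S <;> simp [h]
      map_smul' := by
        intro a x
        apply D.ext
        intro j
        rw [(D.exists_P S (a • x)).choose_spec.1, RingHom.id_apply, map_smul, map_smul,
          (D.exists_P S x).choose_spec.1]
        by_cases h : j ∈ S <;> simp [h] } 1 (by
      intro x
      rw [one_mul]
      exact (D.exists_P S x).choose_spec.2)

open Classical in
theorem KData.c_P (S : Set (Γ × ℕ)) (x : X) (j : Γ × ℕ) :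
    D.c j (D.P S x) = if j ∈ S then D.c j x else 0 :=
  (D.exists_P S x).choose_spec.1 j

theorem KData.c_P_of_mem {S : Set (Γ × ℕ)} {j : Γ × ℕ} (h : j ∈ S) (x : X) :
    D.c j (D.P S x) = D.c j x := by
  rw [D.c_P, if_pos h]

theorem KData.c_P_of_notMem {S : Set (Γ × ℕ)} {j : Γ × ℕ} (h : j ∉ S) (x : X) :
    D.c j (D.P S x) = 0 := by
  rw [D.c_P, if_neg h]

theorem KData.norm_P_le (S : Set (Γ × ℕ)) (x : X) : ‖D.P S x‖ ≤ ‖x‖ :=
  (D.exists_P S x).choose_spec.2

theorem KData.P_P (S T : Set (Γ × ℕ)) (x : X) : D.P S (D.P T x) = D.P (S ∩ T) x := by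
  apply D.ext
  intro j
  classical
  rw [D.c_P, D.c_P, D.c_P]
  by_cases h1 : j ∈ S <;> by_cases h2 : j ∈ T <;> simp [h1, h2]

theorem KData.P_union {S T : Set (Γ × ℕ)} (h : Disjoint S T) (x : X) :
    D.P (S ∪ T) x = D.P S x + D.P T x := by
  apply D.ext
  intro j
  classical
  rw [map_add, D.c_P, D.c_P, D.c_P]
  by_cases h1 : j ∈ S
  · have h2 : j ∉ T := Set.disjoint_left.1 h h1
    simp [h1, h2]
  · by_cases h2 : j ∈ T <;> simp [h1, h2]

theorem KData.P_compl (S : Set (Γ × ℕ)) (x : X) : D.P Sᶜ x = x - D.P S x := by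
  apply D.ext
  intro j
  classical
  rw [map_sub, D.c_P, D.c_P]
  by_cases h1 : j ∈ S <;> simp [h1]

theorem KData.P_eq_self {S : Set (Γ × ℕ)} {x : X} (h : ∀ j, j ∉ S → D.c j x = 0) :
    D.P S x = x := by
  apply D.ext
  intro j
  classical
  rw [D.c_P]
  by_cases h1 : j ∈ S
  · simp [h1]
  · simp [h1, h j h1]

theorem KData.exists_e (j : Γ × ℕ) :
    ∃ y : X, D.c j y = 1 ∧ (∀ i, i ≠ j → D.c i y = 0) ∧ ‖y‖ ≤ 1 := by
  classical
  obtain ⟨y, hy, hn⟩ := D.make (Pi.single j (1 : 𝕜)) 1 zero_le_one (by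
    intro F
    have : ∀ i ∈ F, ‖(Pi.single j (1 : 𝕜) : Γ × ℕ → 𝕜) i‖ ^ 4 = if i = j then 1 else 0 := by
      intro i _
      by_cases h : i = j
      · subst h; simp
      · simp [h]
    rw [sum_congr rfl this, Finset.sum_ite_eq']
    split_ifs <;> norm_num) (by
    intro F
    have : ∀ i ∈ F, (wt i * ‖(Pi.single j (1 : 𝕜) : Γ × ℕ → 𝕜) i‖) ^ 2 ≤
        if i = j then 1 else 0 := by
      intro i _
      by_cases h : i = j
      · subst h
        simp only [Pi.single_eq_same, norm_one, mul_one, if_true]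
        exact pow_le_one₀ (wt_pos i).le (wt_le i)
      · simp [h]
    refine le_trans (sum_le_sum this) ?_
    rw [Finset.sum_ite_eq']
    split_ifs <;> norm_num)
  refine ⟨y, by rw [hy]; simp, fun i hi => by rw [hy]; simp [hi], hn⟩

/-- The unit vectors. -/
noncomputable def KData.e (j : Γ × ℕ) : X := (D.exists_e j).choose

open Classical in
theorem KData.c_e (i j : Γ × ℕ) : D.c i (D.e j) = if i = j then 1 else 0 := by
  by_cases h : i = j
  · subst h
    simp only [if_true]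
    exact (D.exists_e i).choose_spec.1
  · simp only [h, if_false]
    exact (D.exists_e j).choose_spec.2.1 i h

open Classical in
theorem KData.c_sum_e (F : Finset (Γ × ℕ)) (a : Γ × ℕ → 𝕜) (i : Γ × ℕ) :
    D.c i (∑ j ∈ F, a j • D.e j) = if i ∈ F then a i else 0 := by
  rw [map_sum]
  have : ∀ j ∈ F, D.c i (a j • D.e j) = if i = j then a j else 0 := by
    intro j _
    rw [map_smul, D.c_e]
    by_cases h : i = j <;> simp [h]
  rw [sum_congr rfl this, Finset.sum_ite_eq]

theorem KData.P_fin (F : Finset (Γ × ℕ)) (x : X) :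
    D.P (F : Set (Γ × ℕ)) x = ∑ j ∈ F, D.c j x • D.e j := by
  apply D.ext
  intro i
  classical
  rw [D.c_P, D.c_sum_e]
  by_cases h : i ∈ F <;> simp [h]

theorem KData.tail (x : X) {ε : ℝ} (hε : 0 < ε) :
    ∃ F : Finset (Γ × ℕ), ∀ S : Set (Γ × ℕ), Disjoint S (F : Set (Γ × ℕ)) → ‖D.P S x‖ ≤ ε := by
  classical
  have s4 : Summable (fun j => ‖D.c j x‖ ^ 4) :=
    summable_of_sum_le (fun j => by positivity) (D.b4 x)
  have s2 : Summable (fun j => (wt j * ‖D.c j x‖) ^ 2) :=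
    summable_of_sum_le (fun j => by positivity) (D.b2 x)
  obtain ⟨F1, h1⟩ := summable_iff_vanishing_norm.1 s4 (ε ^ 4) (by positivity)
  obtain ⟨F2, h2⟩ := summable_iff_vanishing_norm.1 s2 (ε ^ 2) (by positivity)
  refine ⟨F1 ∪ F2, fun S hS => D.norm_le_of hε.le ?_ ?_⟩
  · intro F
    have hd : Disjoint (F.filter (· ∈ S)) F1 := by
      rw [Finset.disjoint_left]
      intro j hj hj1
      rw [Finset.mem_filter] at hj
      exact Set.disjoint_left.1 hS hj.2 (by simp [hj1])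
    have h := h1 _ hd
    rw [Real.norm_of_nonneg (Finset.sum_nonneg fun j _ => by positivity)] at h
    refine le_trans (le_of_eq ?_) h.le
    rw [Finset.sum_filter]
    refine sum_congr rfl fun j _ => ?_
    rw [D.c_P]
    by_cases h : j ∈ S <;> simp [h]
  · intro F
    have hd : Disjoint (F.filter (· ∈ S)) F2 := by
      rw [Finset.disjoint_left]
      intro j hj hj1
      rw [Finset.mem_filter] at hj
      exact Set.disjoint_left.1 hS hj.2 (by simp [hj1])
    have h := h2 _ hd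
    rw [Real.norm_of_nonneg (Finset.sum_nonneg fun j _ => by positivity)] at h
    refine le_trans (le_of_eq ?_) h.le
    rw [Finset.sum_filter]
    refine sum_congr rfl fun j _ => ?_
    rw [D.c_P]
    by_cases h : j ∈ S <;> simp [h]

theorem KData.disj {x y : X} (h : ∀ j, D.c j x = 0 ∨ D.c j y = 0) :
    ‖x + y‖ ^ 2 ≤ ‖x‖ ^ 2 + ‖y‖ ^ 2 := by
  have h0 : 0 ≤ ‖x‖ ^ 2 + ‖y‖ ^ 2 := by positivity
  have key : ‖x + y‖ ≤ Real.sqrt (‖x‖ ^ 2 + ‖y‖ ^ 2) := by
    refine D.norm_le_of (Real.sqrt_nonneg _) ?_ ?_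
    · intro F
      have e1 : Real.sqrt (‖x‖ ^ 2 + ‖y‖ ^ 2) ^ 4 = (‖x‖ ^ 2 + ‖y‖ ^ 2) ^ 2 := by
        rw [show (4 : ℕ) = 2 * 2 by norm_num, pow_mul, Real.sq_sqrt h0]
      rw [e1]
      have e2 : ∑ j ∈ F, ‖D.c j (x + y)‖ ^ 4 =
          ∑ j ∈ F, ‖D.c j x‖ ^ 4 + ∑ j ∈ F, ‖D.c j y‖ ^ 4 := by
        rw [← sum_add_distrib]
        refine sum_congr rfl fun j _ => ?_
        rw [map_add]
        rcases h j with h | h <;> simp [h]
      rw [e2]
      nlinarith [D.b4 x F, D.b4 y F, sq_nonneg (‖x‖ ^ 2), sq_nonneg (‖y‖ ^ 2),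
        mul_nonneg (sq_nonneg ‖x‖) (sq_nonneg ‖y‖)]
    · intro F
      rw [Real.sq_sqrt h0]
      have e2 : ∑ j ∈ F, (wt j * ‖D.c j (x + y)‖) ^ 2 =
          ∑ j ∈ F, (wt j * ‖D.c j x‖) ^ 2 + ∑ j ∈ F, (wt j * ‖D.c j y‖) ^ 2 := by
        rw [← sum_add_distrib]
        refine sum_congr rfl fun j _ => ?_
        rw [map_add]
        rcases h j with h | h <;> simp [h]
      rw [e2]
      exact add_le_add (D.b2 x F) (D.b2 y F)
  calc ‖x + y‖ ^ 2 ≤ (Real.sqrt (‖x‖ ^ 2 + ‖y‖ ^ 2)) ^ 2 :=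
        pow_le_pow_left₀ (norm_nonneg _) key 2
    _ = _ := Real.sq_sqrt h0

theorem KData.disj_sum {ι : Type*} (F : Finset ι) (x : ι → X)
    (h : ∀ i ∈ F, ∀ i' ∈ F, i ≠ i' → ∀ j, D.c j (x i) = 0 ∨ D.c j (x i') = 0) :
    ‖∑ i ∈ F, x i‖ ^ 2 ≤ ∑ i ∈ F, ‖x i‖ ^ 2 := by
  classical
  induction F using Finset.induction_on with
  | empty => simp
  | insert i F hi ih =>
    rw [sum_insert hi, sum_insert hi]
    have h1 : ∀ j, D.c j (x i) = 0 ∨ D.c j (∑ k ∈ F, x k) = 0 := by
      intro j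
      by_cases hj : D.c j (x i) = 0
      · exact Or.inl hj
      · right
        rw [map_sum]
        refine Finset.sum_eq_zero fun k hk => ?_
        have hne : i ≠ k := fun e => hi (e ▸ hk)
        rcases h i (mem_insert_self _ _) k (mem_insert_of_mem hk) hne j with h | h
        · exact absurd h hj
        · exact h
    refine (D.disj h1).trans ?_
    have := ih fun a ha b hb hab => h a (mem_insert_of_mem ha) b (mem_insert_of_mem hb) hab
    linarith

theorem KData.shrinking (φ : X →L[𝕜] 𝕜) {ε : ℝ} (hε : 0 < ε) :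
    ∃ F : Finset (Γ × ℕ), ∀ x : X, (∀ j ∈ F, D.c j x = 0) → ‖φ x‖ ≤ ε * ‖x‖ := by
  classical
  by_contra hcon
  push Not at hcon
  have key : ∀ m : ℕ, ∃ (u : X) (F : Finset (Γ × ℕ)), (∀ j, j ∉ F → D.c j u = 0) ∧
      ‖u‖ ^ 2 ≤ m ∧ m * ε ≤ RCLike.re (φ u) := by
    intro m
    induction m with
    | zero => exact ⟨0, ∅, by simp, by simp, by simp⟩
    | succ m ih =>
      obtain ⟨u, F, hu1, hu2, hu3⟩ := ih
      obtain ⟨x, hx1, hx2⟩ := hcon F
      have hx0 : x ≠ 0 := by
        rintro rfl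
        simp at hx2
      have hxp : 0 < ‖x‖ := norm_pos_iff.2 hx0
      have hφ : φ x ≠ 0 := by
        intro h0
        rw [h0, norm_zero] at hx2
        have : 0 < ε * ‖x‖ := by positivity
        linarith
      have hφp : 0 < ‖φ x‖ := norm_pos_iff.2 hφ
      -- rotate and scale
      set t : 𝕜 := ((‖φ x‖ : ℝ) : 𝕜) / (φ x) * ((‖x‖⁻¹ : ℝ) : 𝕜) with ht
      set y : X := t • x with hy
      have hyn : ‖y‖ = 1 := by
        rw [hy, norm_smul, ht, norm_mul, norm_div, RCLike.norm_ofReal, RCLike.norm_ofReal,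
          abs_of_pos hφp, abs_of_pos (by positivity), div_self hφp.ne']
        field_simp
      have hyφ : φ y = (((‖φ x‖ / ‖x‖ : ℝ)) : 𝕜) := by
        rw [hy, map_smul, smul_eq_mul, ht]
        push_cast
        have : ((‖x‖ : ℝ) : 𝕜) ≠ 0 := by
          exact_mod_cast hxp.ne'
        field_simp
      have hyre : ε < RCLike.re (φ y) := by
        rw [hyφ, RCLike.ofReal_re]
        rwa [lt_div_iff₀ hxp]
      have hyF : ∀ j ∈ F, D.c j y = 0 := by
        intro j hj
        rw [hy, map_smul, hx1 j hj, smul_zero]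
      -- truncate
      have hδ : 0 < (RCLike.re (φ y) - ε) / (‖φ‖ + 1) := by
        have : 0 < ‖φ‖ + 1 := by positivity
        exact div_pos (by linarith) this
      obtain ⟨G, hG⟩ := D.tail y hδ
      have hG1 := hG (G : Set (Γ × ℕ))ᶜ (by
        rw [Set.disjoint_left]; intro a ha hb; exact ha hb)
      set z := D.P (G : Set (Γ × ℕ)) y with hz
      have hzre : ε ≤ RCLike.re (φ z) := by
        have e1 : z = y - D.P (G : Set (Γ × ℕ))ᶜ y := by
          rw [D.P_compl]; abel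
        have e2 : RCLike.re (φ z) = RCLike.re (φ y) - RCLike.re (φ (D.P (G : Set (Γ × ℕ))ᶜ y)) := by
          rw [e1, map_sub, map_sub]
        have e3 : RCLike.re (φ (D.P (G : Set (Γ × ℕ))ᶜ y)) ≤ RCLike.re (φ y) - ε := by
          refine (RCLike.re_le_norm _).trans ((φ.le_opNorm _).trans ?_)
          calc ‖φ‖ * ‖D.P (G : Set (Γ × ℕ))ᶜ y‖
              ≤ (‖φ‖ + 1) * ((RCLike.re (φ y) - ε) / (‖φ‖ + 1)) := by
                refine mul_le_mul (by linarith) hG1 (norm_nonneg _) (by positivity)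
            _ = RCLike.re (φ y) - ε := by
                have : ‖φ‖ + 1 ≠ 0 := by positivity
                field_simp
        linarith
      refine ⟨u + z, F ∪ G, ?_, ?_, ?_⟩
      · intro j hj
        rw [Finset.mem_union, not_or] at hj
        rw [map_add, hu1 j hj.1, hz, D.c_P_of_notMem (by simpa using hj.2), add_zero]
      · have hd : ∀ j, D.c j u = 0 ∨ D.c j z = 0 := by
          intro j
          by_cases hj : j ∈ F
          · right
            rw [hz, D.c_P]
            split_ifs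
            · exact hyF j hj
            · rfl
          · left; exact hu1 j hj
        have h1 := D.disj hd
        have h2 : ‖z‖ ≤ 1 := by
          rw [← hyn]; exact D.norm_P_le _ _
        have h3 : ‖z‖ ^ 2 ≤ 1 := pow_le_one₀ (norm_nonneg _) h2
        push_cast
        linarith
      · rw [map_add, map_add]
        push_cast
        linarith
  obtain ⟨m, hm⟩ := exists_nat_gt (‖φ‖ ^ 2 / ε ^ 2)
  have hm0 : (0 : ℝ) < m := lt_of_le_of_lt (by positivity) hm
  obtain ⟨u, F, -, h2, h3⟩ := key m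
  have h4 : m * ε ≤ ‖φ‖ * ‖u‖ := h3.trans ((RCLike.re_le_norm _).trans (φ.le_opNorm _))
  have h5 : (m * ε) ^ 2 ≤ (‖φ‖ * ‖u‖) ^ 2 := pow_le_pow_left₀ (by positivity) h4 2
  have h6 : (‖φ‖ * ‖u‖) ^ 2 ≤ ‖φ‖ ^ 2 * m := by
    rw [mul_pow]
    exact mul_le_mul_of_nonneg_left h2 (by positivity)
  have h7 : (m : ℝ) * (m * ε ^ 2) ≤ m * ‖φ‖ ^ 2 := by nlinarith
  have h8 : m * ε ^ 2 ≤ ‖φ‖ ^ 2 := le_of_mul_le_mul_left h7 hm0
  rw [div_lt_iff₀ (by positivity)] at hm
  linarith

end Pool.Agent.R287.KP
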