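import Mathlib
import Pool.Agent.R287.KPb

/-! Reflexivity, and a closed subspace which is not a kernel. -/

set_option autoImplicit false

open Filter Topology Finset
open scoped ENNReal

namespace Pool.Agent.R287.KP

variable {Γ : Type*} {𝕜 : Type*} [RCLike 𝕜] {X : Type*} [NormedAddCommGroup X]
    [NormedSpace 𝕜 X] (D : KData Γ 𝕜 X)

theorem KData.comp_P_fin (ψ : X →L[𝕜] 𝕜) (F : Finset (Γ × ℕ)) :
    ψ.comp (D.P (F : Set (Γ × ℕ))) = ∑ j ∈ F, ψ (D.e j) • D.c j := by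
  apply ContinuousLinearMap.ext
  intro y
  rw [ContinuousLinearMap.comp_apply, D.P_fin, map_sum, ContinuousLinearMap.sum_apply]
  refine sum_congr rfl fun j _ => ?_
  rw [map_smul, ContinuousLinearMap.smul_apply, smul_eq_mul, smul_eq_mul, mul_comm]

include D in
theorem KData.reflexive : Function.Surjective (NormedSpace.inclusionInDoubleDual 𝕜 X) := by
  classical
  intro Φ
  set a : Γ × ℕ → 𝕜 := fun j => Φ (D.c j) with ha
  have hΦ : ∀ (ψ : X →L[𝕜] 𝕜) (F : Finset (Γ × ℕ)),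
      Φ (ψ.comp (D.P (F : Set (Γ × ℕ)))) = ψ (∑ j ∈ F, a j • D.e j) := by
    intro ψ F
    rw [D.comp_P_fin, map_sum, map_sum]
    refine sum_congr rfl fun j _ => ?_
    rw [map_smul, map_smul, smul_eq_mul, smul_eq_mul, mul_comm]
  have hb : ∀ F : Finset (Γ × ℕ), ‖∑ j ∈ F, a j • D.e j‖ ≤ ‖Φ‖ := by
    intro F
    obtain ⟨ψ, hψ1, hψ2⟩ := exists_dual_vector'' 𝕜 (∑ j ∈ F, a j • D.e j)
    have h1 := hΦ ψ F
    rw [hψ2] at h1
    have h2 : ‖Φ (ψ.comp (D.P (F : Set (Γ × ℕ))))‖ ≤ ‖Φ‖ * ‖ψ.comp (D.P (F : Set (Γ × ℕ)))‖ :=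
      Φ.le_opNorm _
    rw [h1, RCLike.norm_ofReal, abs_of_nonneg (norm_nonneg _)] at h2
    have h3 : ‖ψ.comp (D.P (F : Set (Γ × ℕ)))‖ ≤ 1 := by
      refine ContinuousLinearMap.opNorm_le_bound _ zero_le_one fun y => ?_
      rw [ContinuousLinearMap.comp_apply]
      calc ‖ψ (D.P (F : Set (Γ × ℕ)) y)‖ ≤ ‖ψ‖ * ‖D.P (F : Set (Γ × ℕ)) y‖ := ψ.le_opNorm _
        _ ≤ 1 * ‖y‖ := mul_le_mul hψ1 (D.norm_P_le _ _) (norm_nonneg _) zero_le_one
    calc _ ≤ ‖Φ‖ * ‖ψ.comp (D.P (F : Set (Γ × ℕ)))‖ := h2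
      _ ≤ ‖Φ‖ * 1 := mul_le_mul_of_nonneg_left h3 Φ.opNorm_nonneg
      _ = ‖Φ‖ := mul_one _
  have hca : ∀ (F : Finset (Γ × ℕ)), ∀ i ∈ F, D.c i (∑ j ∈ F, a j • D.e j) = a i := by
    intro F i hi
    rw [D.c_sum_e, if_pos hi]
  obtain ⟨x, hx, -⟩ := D.make a ‖Φ‖ Φ.opNorm_nonneg (by
    intro F
    have h1 := D.b4 (∑ j ∈ F, a j • D.e j) F
    refine le_trans (le_of_eq ?_) (h1.trans (pow_le_pow_left₀ (norm_nonneg _) (hb F) 4))
    exact sum_congr rfl fun i hi => by rw [hca F i hi]) (by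
    intro F
    have h1 := D.b2 (∑ j ∈ F, a j • D.e j) F
    refine le_trans (le_of_eq ?_) (h1.trans (pow_le_pow_left₀ (norm_nonneg _) (hb F) 2))
    exact sum_congr rfl fun i hi => by rw [hca F i hi])
  refine ⟨x, ?_⟩
  apply ContinuousLinearMap.ext
  intro φ
  rw [NormedSpace.dual_def]
  have key : ∀ ε > 0, ‖φ x - Φ φ‖ ≤ ε * (‖x‖ + ‖Φ‖) := by
    intro ε hε
    obtain ⟨F, hF⟩ := D.shrinking φ hε
    have e1 : φ.comp (D.P (F : Set (Γ × ℕ))) + φ.comp (D.P (F : Set (Γ × ℕ))ᶜ) = φ := by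
      apply ContinuousLinearMap.ext
      intro y
      rw [ContinuousLinearMap.add_apply, ContinuousLinearMap.comp_apply,
        ContinuousLinearMap.comp_apply, D.P_compl, map_sub]
      ring
    have e2 : D.P (F : Set (Γ × ℕ)) x = ∑ j ∈ F, a j • D.e j := by
      rw [D.P_fin]
      exact sum_congr rfl fun j _ => by rw [hx]
    have e3 : φ x - Φ φ = φ (D.P (F : Set (Γ × ℕ))ᶜ x) - Φ (φ.comp (D.P (F : Set (Γ × ℕ))ᶜ)) := by
      have h1 : Φ φ = Φ (φ.comp (D.P (F : Set (Γ × ℕ)))) + Φ (φ.comp (D.P (F : Set (Γ × ℕ))ᶜ)) := by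
        rw [← map_add, e1]
      rw [h1, hΦ, ← e2, D.P_compl, map_sub]
      ring
    have h4 : ∀ y, ‖φ (D.P (F : Set (Γ × ℕ))ᶜ y)‖ ≤ ε * ‖y‖ := by
      intro y
      refine (hF _ ?_).trans (mul_le_mul_of_nonneg_left (D.norm_P_le _ _) hε.le)
      intro j hj
      have hnot : j ∉ (F : Set (Γ × ℕ))ᶜ := by
        rw [Set.notMem_compl_iff]
        exact hj
      exact D.c_P_of_notMem hnot y
    rw [e3]
    have h5 : ‖φ.comp (D.P (F : Set (Γ × ℕ))ᶜ)‖ ≤ ε :=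
      ContinuousLinearMap.opNorm_le_bound _ hε.le fun y => h4 y
    calc _ ≤ ‖φ (D.P (F : Set (Γ × ℕ))ᶜ x)‖ + ‖Φ (φ.comp (D.P (F : Set (Γ × ℕ))ᶜ))‖ := norm_sub_le _ _
      _ ≤ ε * ‖x‖ + ‖Φ‖ * ε := add_le_add (h4 x)
          ((Φ.le_opNorm _).trans (mul_le_mul_of_nonneg_left h5 (norm_nonneg _)))
      _ = _ := by ring
  by_contra hne
  have hpos : 0 < ‖φ x - Φ φ‖ := norm_pos_iff.2 (sub_ne_zero.2 hne)
  have hK : 0 < ‖x‖ + ‖Φ‖ + 1 := by positivity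
  have h1 := key (‖φ x - Φ φ‖ / (2 * (‖x‖ + ‖Φ‖ + 1))) (by positivity)
  have h2 : ‖φ x - Φ φ‖ / (2 * (‖x‖ + ‖Φ‖ + 1)) * (‖x‖ + ‖Φ‖) ≤
      ‖φ x - Φ φ‖ / (2 * (‖x‖ + ‖Φ‖ + 1)) * (‖x‖ + ‖Φ‖ + 1) :=
    mul_le_mul_of_nonneg_left (by linarith) (by positivity)
  have h3 : ‖φ x - Φ φ‖ / (2 * (‖x‖ + ‖Φ‖ + 1)) * (‖x‖ + ‖Φ‖ + 1) = ‖φ x - Φ φ‖ / 2 := by
    field_simp
  linarith

theorem exists_signs {ι H : Type*} [NormedAddCommGroup H] [InnerProductSpace 𝕜 H] (F : Finset ι)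
    (z : ι → H) : ∃ s : ι → 𝕜, (∀ i, ‖s i‖ = 1) ∧
      ∑ i ∈ F, ‖z i‖ ^ 2 ≤ ‖∑ i ∈ F, s i • z i‖ ^ 2 := by
  classical
  induction F using Finset.induction_on with
  | empty => exact ⟨fun _ => 1, by simp, by simp⟩
  | insert i F hi ih =>
    obtain ⟨s, hs1, hs2⟩ := ih
    have hpar := parallelogram_law_with_norm 𝕜 (∑ k ∈ F, s k • z k) (z i)
    have hcong : ∀ t : 𝕜, ∑ k ∈ F, (Function.update s i t) k • z k = ∑ k ∈ F, s k • z k := by
      intro t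
      refine sum_congr rfl fun k hk => ?_
      have : k ≠ i := fun e => hi (e ▸ hk)
      rw [Function.update_of_ne this]
    have hup : ∀ t : 𝕜, ‖t‖ = 1 → ∀ k, ‖(Function.update s i t) k‖ = 1 := by
      intro t ht k
      by_cases hk : k = i
      · subst hk; simpa using ht
      · rw [Function.update_of_ne hk]; exact hs1 k
    by_cases hc : ‖∑ k ∈ F, s k • z k‖ ^ 2 + ‖z i‖ ^ 2 ≤ ‖∑ k ∈ F, s k • z k + z i‖ ^ 2
    · refine ⟨Function.update s i 1, hup 1 (by simp), ?_⟩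
      rw [sum_insert hi, sum_insert hi, hcong, Function.update_self, one_smul, add_comm (z i)]
      linarith
    · refine ⟨Function.update s i (-1), hup (-1) (by simp), ?_⟩
      rw [sum_insert hi, sum_insert hi, hcong, Function.update_self, neg_one_smul, add_comm (-z i),
        ← sub_eq_add_neg]
      push Not at hc
      nlinarith

theorem KData.norm_c_le (j : Γ × ℕ) (x : X) : ‖D.c j x‖ ≤ ‖x‖ := by
  have h := D.b4 x {j}
  rw [sum_singleton] at h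
  exact le_of_pow_le_pow_left₀ (by norm_num) (norm_nonneg _) h

theorem KData.summable_f (γ : Γ) : Summable (fun n : ℕ => ((1 / 2 : 𝕜) ^ n) • D.c (γ, n)) := by
  refine Summable.of_norm_bounded (g := fun n : ℕ => ((1 / 2 : ℝ) ^ n))
    (summable_geometric_of_lt_one (by norm_num) (by norm_num)) fun n => ?_
  rw [norm_smul, norm_pow]
  have h1 : ‖(1 / 2 : 𝕜)‖ = 1 / 2 := by
    rw [norm_div, norm_one, RCLike.norm_ofNat]
  rw [h1]
  have h2 : ‖D.c (γ, n)‖ ≤ 1 := ContinuousLinearMap.opNorm_le_bound _ zero_le_one fun x => by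
    rw [one_mul]; exact D.norm_c_le _ _
  calc _ ≤ (1 / 2 : ℝ) ^ n * 1 := mul_le_mul_of_nonneg_left h2 (by positivity)
    _ = _ := mul_one _

/-- The functional `x ↦ ∑ 2^{-n} x_{γ,n}`. -/
noncomputable def KData.f (γ : Γ) : X →L[𝕜] 𝕜 := ∑' n : ℕ, ((1 / 2 : 𝕜) ^ n) • D.c (γ, n)

theorem KData.hasSum_f (γ : Γ) (x : X) :
    HasSum (fun n : ℕ => (1 / 2 : 𝕜) ^ n * D.c (γ, n) x) (D.f γ x) := by
  have h := (D.summable_f γ).hasSum
  have h2 := h.mapL (ContinuousLinearMap.apply 𝕜 𝕜 x)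
  simpa [KData.f] using h2

open Classical in
theorem KData.f_e (γ γ' : Γ) (n : ℕ) : D.f γ (D.e (γ', n)) = if γ = γ' then (1 / 2 : 𝕜) ^ n else 0 := by
  have h := D.hasSum_f γ (D.e (γ', n))
  have h2 : HasSum (fun m : ℕ => (1 / 2 : 𝕜) ^ m * D.c (γ, m) (D.e (γ', n)))
      ((1 / 2 : 𝕜) ^ n * D.c (γ, n) (D.e (γ', n))) := by
    refine hasSum_single n fun m hm => ?_
    rw [D.c_e, if_neg, mul_zero]
    intro h
    exact hm (by simpa using (Prod.ext_iff.1 h).2)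
  rw [h.unique h2, D.c_e]
  by_cases hg : γ = γ' <;> simp [hg]

include D in
theorem KData.negative [Uncountable Γ] :
    ∃ N : Submodule 𝕜 X, IsClosed (N : Set X) ∧ ∀ T : X →L[𝕜] X, LinearMap.ker (T : X →ₗ[𝕜] X) ≠ N := by
  classical
  refine ⟨⨅ γ, LinearMap.ker (D.f γ : X →ₗ[𝕜] 𝕜), ?_, ?_⟩
  · rw [Submodule.coe_iInf]
    exact isClosed_iInter fun γ => ContinuousLinearMap.isClosed_ker (D.f γ)
  · intro T hT
    have hmem : ∀ x, T x = 0 ↔ ∀ γ, D.f γ x = 0 := by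
      intro x
      have h1 : x ∈ LinearMap.ker (T : X →ₗ[𝕜] X) ↔ T x = 0 := by simp
      rw [← h1, hT, Submodule.mem_iInf]
      simp
    have hTe : ∀ γ n, T (D.e (γ, n)) = ((1 / 2 : 𝕜) ^ n) • T (D.e (γ, 0)) := by
      intro γ n
      have : T (D.e (γ, n) - ((1 / 2 : 𝕜) ^ n) • D.e (γ, 0)) = 0 := by
        rw [hmem]
        intro γ'
        rw [map_sub, map_smul, D.f_e, D.f_e]
        by_cases hg : γ' = γ <;> simp [hg]
      rw [map_sub, map_smul] at this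
      exact sub_eq_zero.1 this
    have hT0 : ∀ γ, T (D.e (γ, 0)) ≠ 0 := by
      intro γ h0
      have := (hmem _).1 h0 γ
      rw [D.f_e] at this
      simp at this
    set z : Γ → lp (fun _ : Γ × ℕ => 𝕜) 2 := fun γ => D.U (T (D.e (γ, 0))) with hz
    have hz0 : ∀ γ, 0 < ‖z γ‖ := by
      intro γ
      rw [norm_pos_iff]
      intro h0
      apply hT0 γ
      apply D.ext
      intro j
      have h1 := D.hU (T (D.e (γ, 0))) j
      have h2 : D.U (T (D.e (γ, 0))) j = 0 := by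
        have : D.U (T (D.e (γ, 0))) = 0 := h0
        rw [this]; rfl
      rw [h2] at h1
      rw [map_zero]
      have h3 : (wt j : 𝕜) ≠ 0 := by
        exact_mod_cast (wt_pos j).ne'
      exact (mul_eq_zero.1 h1.symm).resolve_left h3
    obtain ⟨k, hk⟩ : ∃ k : ℕ, {γ : Γ | 1 / ((k : ℝ) + 1) ≤ ‖z γ‖}.Infinite := by
      by_contra hcon
      push Not at hcon
      have hU : (Set.univ : Set Γ) = ⋃ k : ℕ, {γ : Γ | 1 / ((k : ℝ) + 1) ≤ ‖z γ‖} := by
        symm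
        rw [Set.eq_univ_iff_forall]
        intro γ
        obtain ⟨k, hk⟩ := exists_nat_one_div_lt (hz0 γ)
        exact Set.mem_iUnion.2 ⟨k, hk.le⟩
      have hc : (Set.univ : Set Γ).Countable := by
        rw [hU]
        exact Set.countable_iUnion fun k => (hcon k).countable
      exact Set.not_countable_univ hc
    set δ : ℝ := 1 / ((k : ℝ) + 1) with hδ
    have hδ0 : 0 < δ := by positivity
    set A : X →L[𝕜] lp (fun _ : Γ × ℕ => 𝕜) 2 := D.U.comp T with hA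
    obtain ⟨n, hn⟩ : ∃ n : ℕ, ‖A‖ * (1 / 2 : ℝ) ^ n < δ := by
      have h1 : Tendsto (fun n : ℕ => ‖A‖ * (1 / 2 : ℝ) ^ n) atTop (𝓝 (‖A‖ * 0)) :=
        (tendsto_pow_atTop_nhds_zero_of_lt_one (by norm_num) (by norm_num)).const_mul _
      rw [mul_zero] at h1
      exact (h1.eventually (gt_mem_nhds hδ0)).exists
    obtain ⟨M, hM⟩ := exists_nat_gt (‖A‖ * 2 ^ n / δ)
    have hM0 : (0 : ℝ) < M := lt_of_le_of_lt (by positivity) hM
    obtain ⟨F, hF1, hF2⟩ := hk.exists_subset_card_eq (M ^ 4)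
    obtain ⟨s, hs1, hs2⟩ := exists_signs (𝕜 := 𝕜) F z
    set y : X := ∑ j ∈ F ×ˢ {n}, s j.1 • D.e j with hy
    have hcy : ∀ i, D.c i y = if i ∈ F ×ˢ {n} then s i.1 else 0 := by
      intro i
      rw [hy]
      exact D.c_sum_e (F ×ˢ {n}) (fun j => s j.1) i
    have hcard : (F ×ˢ ({n} : Finset ℕ)).card = M ^ 4 := by
      rw [card_product, card_singleton, mul_one, hF2]
    set C : ℝ := max (M : ℝ) ((1 / 4) ^ n * (M : ℝ) ^ 2) with hC
    have hC1 : (M : ℝ) ≤ C := le_max_left _ _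
    have hC2 : (1 / 4) ^ n * (M : ℝ) ^ 2 ≤ C := le_max_right _ _
    have hyC : ‖y‖ ≤ C := by
      refine D.norm_le_of (hM0.le.trans hC1) ?_ ?_
      · intro G
        have h1 : ∑ j ∈ G, ‖D.c j y‖ ^ 4 = ∑ j ∈ G with j ∈ F ×ˢ ({n} : Finset ℕ), (1 : ℝ) := by
          rw [Finset.sum_filter]
          refine sum_congr rfl fun j _ => ?_
          rw [hcy]
          split_ifs
          · rw [hs1]; norm_num
          · norm_num
        rw [h1, Finset.sum_const, nsmul_eq_mul, mul_one]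
        have h2 : (G.filter (· ∈ F ×ˢ ({n} : Finset ℕ))).card ≤ (F ×ˢ ({n} : Finset ℕ)).card := by
          refine Finset.card_le_card fun j hj => ?_
          exact (Finset.mem_filter.1 hj).2
        rw [hcard] at h2
        calc ((G.filter (· ∈ F ×ˢ ({n} : Finset ℕ))).card : ℝ) ≤ (M : ℝ) ^ 4 := by exact_mod_cast h2
          _ ≤ C ^ 4 := pow_le_pow_left₀ hM0.le hC1 4
      · intro G
        have h1 : ∑ j ∈ G, (wt j * ‖D.c j y‖) ^ 2 =
            ∑ j ∈ G with j ∈ F ×ˢ ({n} : Finset ℕ), (((1 / 4 : ℝ) ^ n) ^ 2) := by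
          rw [Finset.sum_filter]
          refine sum_congr rfl fun j _ => ?_
          rw [hcy]
          split_ifs with h
          · rw [hs1, mul_one]
            have : j.2 = n := by
              have := (Finset.mem_product.1 h).2
              simpa using this
            unfold wt
            rw [this]
          · norm_num
        rw [h1, Finset.sum_const, nsmul_eq_mul]
        have h2 : (G.filter (· ∈ F ×ˢ ({n} : Finset ℕ))).card ≤ (F ×ˢ ({n} : Finset ℕ)).card := by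
          refine Finset.card_le_card fun j hj => ?_
          exact (Finset.mem_filter.1 hj).2
        rw [hcard] at h2
        calc ((G.filter (· ∈ F ×ˢ ({n} : Finset ℕ))).card : ℝ) * (((1 / 4 : ℝ) ^ n) ^ 2)
            ≤ (M : ℝ) ^ 4 * (((1 / 4 : ℝ) ^ n) ^ 2) :=
              mul_le_mul_of_nonneg_right (by exact_mod_cast h2) (by positivity)
          _ = ((1 / 4) ^ n * (M : ℝ) ^ 2) ^ 2 := by ring
          _ ≤ C ^ 2 := pow_le_pow_left₀ (by positivity) hC2 2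
    have hAy : A y = ((1 / 2 : 𝕜) ^ n) • ∑ γ ∈ F, s γ • z γ := by
      rw [hy, map_sum, Finset.sum_product, Finset.smul_sum]
      refine sum_congr rfl fun γ _ => ?_
      rw [Finset.sum_singleton, map_smul, hA, ContinuousLinearMap.comp_apply, hTe, map_smul,
        smul_comm]
    have h1 : ‖A y‖ = (1 / 2 : ℝ) ^ n * ‖∑ γ ∈ F, s γ • z γ‖ := by
      rw [hAy, norm_smul, norm_pow, norm_div, norm_one, RCLike.norm_ofNat]
    have h2 : ((M : ℝ) ^ 2 * δ) ^ 2 ≤ ‖∑ γ ∈ F, s γ • z γ‖ ^ 2 := by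
      refine le_trans ?_ hs2
      have h3 : ∑ γ ∈ F, δ ^ 2 ≤ ∑ γ ∈ F, ‖z γ‖ ^ 2 :=
        Finset.sum_le_sum fun γ hγ => pow_le_pow_left₀ hδ0.le (hF1 hγ) 2
      rw [Finset.sum_const, hF2, nsmul_eq_mul] at h3
      refine le_trans (le_of_eq ?_) h3
      push_cast
      ring
    have h3 : (M : ℝ) ^ 2 * δ ≤ ‖∑ γ ∈ F, s γ • z γ‖ :=
      le_of_pow_le_pow_left₀ (by norm_num) (norm_nonneg _) h2
    have h4 : ‖A y‖ ≤ ‖A‖ * C := (A.le_opNorm _).trans (mul_le_mul_of_nonneg_left hyC (norm_nonneg _))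
    rw [h1] at h4
    have h5 : (1 / 2 : ℝ) ^ n * ((M : ℝ) ^ 2 * δ) ≤ ‖A‖ * C :=
      (mul_le_mul_of_nonneg_left h3 (by positivity)).trans h4
    have hMn : ‖A‖ * 2 ^ n < M * δ := by
      rwa [div_lt_iff₀ hδ0] at hM
    have h22 : (1 / 2 : ℝ) ^ n * 2 ^ n = 1 := by
      rw [← mul_pow]; norm_num
    have h24 : (1 / 4 : ℝ) ^ n = (1 / 2 : ℝ) ^ n * (1 / 2 : ℝ) ^ n := by
      rw [← mul_pow]; norm_num
    have hp : 0 < (1 / 2 : ℝ) ^ n := by positivity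
    rcases max_choice (M : ℝ) ((1 / 4) ^ n * (M : ℝ) ^ 2) with hm | hm
    · rw [hC, hm] at h5
      -- (1/2)^n M^2 δ ≤ ‖A‖ M
      have h6 : (1 / 2 : ℝ) ^ n * (M * δ) * M ≤ ‖A‖ * M := by nlinarith
      have h7 : (1 / 2 : ℝ) ^ n * (M * δ) ≤ ‖A‖ := le_of_mul_le_mul_right h6 hM0
      have h8 : (1 / 2 : ℝ) ^ n * (‖A‖ * 2 ^ n) < (1 / 2 : ℝ) ^ n * (M * δ) :=
        mul_lt_mul_of_pos_left hMn hp
      have h9 : (1 / 2 : ℝ) ^ n * (‖A‖ * 2 ^ n) = ‖A‖ := by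
        rw [mul_comm (‖A‖), ← mul_assoc, h22, one_mul]
      linarith
    · rw [hC, hm, h24] at h5
      have h6 : ((1 / 2 : ℝ) ^ n * (M : ℝ) ^ 2) * δ ≤
          ((1 / 2 : ℝ) ^ n * (M : ℝ) ^ 2) * (‖A‖ * (1 / 2 : ℝ) ^ n) := by nlinarith
      have h7 := le_of_mul_le_mul_left h6 (by positivity)
      linarith

end Pool.Agent.R287.KP
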