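import Mathlib
import Pool.Agent.R287.KPc

/-! Good sets for a closed subspace. -/

set_option autoImplicit false

open Filter Topology Finset
open scoped ENNReal

namespace Pool.Agent.R287.KP

variable {Γ : Type*} {𝕜 : Type*} [RCLike 𝕜] {X : Type*} [NormedAddCommGroup X]
    [NormedSpace 𝕜 X] (D : KData Γ 𝕜 X)

/-- Separation of a point from a closed subspace. -/
theorem exists_sep {Y : Type*} [NormedAddCommGroup Y] [NormedSpace 𝕜 Y] (V : Submodule 𝕜 Y)
    (hV : IsClosed (V : Set Y)) {x : Y} (hx : x ∉ V) :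
    ∃ φ : Y →L[𝕜] 𝕜, (∀ v ∈ V, φ v = 0) ∧ φ x ≠ 0 := by
  haveI : IsClosed (V : Set Y) := hV
  have hne : (Submodule.Quotient.mk x : Y ⧸ V) ≠ 0 := by
    rwa [Ne, Submodule.Quotient.mk_eq_zero]
  obtain ⟨g, -, hg⟩ := exists_dual_vector 𝕜 (Submodule.Quotient.mk x : Y ⧸ V) (norm_ne_zero_iff.2 hne)
  refine ⟨LinearMap.mkContinuous ((g : (Y ⧸ V) →ₗ[𝕜] 𝕜).comp V.mkQ) ‖g‖ ?_, ?_, ?_⟩
  · intro y
    refine (g.le_opNorm _).trans (mul_le_mul_of_nonneg_left ?_ (norm_nonneg _))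
    exact Submodule.Quotient.norm_mk_le _ y
  · intro v hv
    show g (Submodule.Quotient.mk v) = 0
    rw [(Submodule.Quotient.mk_eq_zero V).2 hv, map_zero]
  · show g (Submodule.Quotient.mk x) ≠ 0
    rw [hg]
    exact_mod_cast (norm_ne_zero_iff.2 hne)

theorem KData.isSeparable_range_P {S : Set (Γ × ℕ)} (hS : S.Countable) :
    TopologicalSpace.IsSeparable (Set.range (D.P S)) := by
  classical
  have h1 : TopologicalSpace.IsSeparable ((Submodule.span 𝕜 (D.e '' S) : Submodule 𝕜 X) : Set X) :=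
    (hS.image D.e).isSeparable.span
  refine h1.closure.mono ?_
  rintro _ ⟨x, rfl⟩
  rw [Metric.mem_closure_iff]
  intro ε hε
  obtain ⟨F, hF⟩ := D.tail (D.P S x) (half_pos hε)
  refine ⟨D.P (F : Set (Γ × ℕ)) (D.P S x), ?_, ?_⟩
  · rw [D.P_fin]
    refine Submodule.sum_mem _ fun j _ => ?_
    by_cases hj : j ∈ S
    · exact Submodule.smul_mem _ _ (Submodule.subset_span ⟨j, hj, rfl⟩)
    · rw [D.c_P_of_notMem hj, zero_smul]
      exact Submodule.zero_mem _
  · rw [dist_eq_norm, ← D.P_compl]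
    have := hF (F : Set (Γ × ℕ))ᶜ (by
      rw [Set.disjoint_left]; intro a ha hb; exact ha hb)
    linarith

/-- The cylinder projection. -/
noncomputable def KData.PA (A : Set Γ) : X →L[𝕜] X := D.P (Prod.fst ⁻¹' A)

/-- Good sets. -/
def KData.Good (V : Submodule 𝕜 X) (A : Set Γ) : Prop := ∀ v ∈ V, D.PA A v ∈ V

variable {D} {V : Submodule 𝕜 X}

theorem good_univ : D.Good V Set.univ := by
  intro v hv
  have : D.PA Set.univ v = v := D.P_eq_self fun j hj => absurd (Set.mem_univ _) hj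
  rwa [this]

theorem Good.compl {A : Set Γ} (h : D.Good V A) : D.Good V Aᶜ := by
  intro v hv
  have : D.PA Aᶜ v = v - D.PA A v := D.P_compl (Prod.fst ⁻¹' A) v
  rw [this]
  exact V.sub_mem hv (h v hv)

theorem Good.inter {A B : Set Γ} (hA : D.Good V A) (hB : D.Good V B) : D.Good V (A ∩ B) := by
  intro v hv
  have : D.PA (A ∩ B) v = D.PA A (D.PA B v) := (D.P_P (Prod.fst ⁻¹' A) (Prod.fst ⁻¹' B) v).symm
  rw [this]
  exact hA _ (hB v hv)

theorem good_sInter (hV : IsClosed (V : Set X)) {𝒜 : Set (Set Γ)} (h : ∀ A ∈ 𝒜, D.Good V A) :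
    D.Good V (⋂₀ 𝒜) := by
  classical
  have key : ∀ G : Finset Γ, ∃ B, D.Good V B ∧ ⋂₀ 𝒜 ⊆ B ∧ ∀ γ ∈ G, γ ∈ B → γ ∈ ⋂₀ 𝒜 := by
    intro G
    induction G using Finset.induction_on with
    | empty => exact ⟨Set.univ, good_univ, Set.subset_univ _, by simp⟩
    | insert γ G hγ ih =>
      obtain ⟨B, hB1, hB2, hB3⟩ := ih
      by_cases hc : γ ∈ ⋂₀ 𝒜
      · refine ⟨B, hB1, hB2, fun γ' hγ' hγB => ?_⟩
        rcases Finset.mem_insert.1 hγ' with rfl | h1
        · exact hc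
        · exact hB3 γ' h1 hγB
      · rw [Set.mem_sInter] at hc
        push Not at hc
        obtain ⟨A, hA, hγA⟩ := hc
        refine ⟨B ∩ A, Good.inter hB1 (h A hA), Set.subset_inter hB2 (Set.sInter_subset_of_mem hA), ?_⟩
        intro γ' hγ' hγB
        rcases Finset.mem_insert.1 hγ' with rfl | h1
        · exact absurd hγB.2 hγA
        · exact hB3 γ' h1 hγB.1
  intro v hv
  have : D.PA (⋂₀ 𝒜) v ∈ closure (V : Set X) := by
    rw [Metric.mem_closure_iff]
    intro ε hε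
    obtain ⟨F, hF⟩ := D.tail v (half_pos hε)
    obtain ⟨B, hB1, hB2, hB3⟩ := key (F.image Prod.fst)
    refine ⟨D.PA B v, hB1 v hv, ?_⟩
    have e1 : D.PA B v = D.PA (⋂₀ 𝒜) v + D.P (Prod.fst ⁻¹' (B \ ⋂₀ 𝒜)) v := by
      unfold KData.PA
      rw [← D.P_union]
      · congr 1
        rw [← Set.preimage_union, Set.union_diff_cancel hB2]
      · rw [Set.disjoint_left]
        intro j hj1 hj2
        exact hj2.2 hj1
    rw [dist_comm, dist_eq_norm, e1, add_sub_cancel_left]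
    have := hF (Prod.fst ⁻¹' (B \ ⋂₀ 𝒜)) (by
      rw [Set.disjoint_left]
      intro j hj1 hj2
      exact hj1.2 (hB3 j.1 (Finset.mem_image_of_mem _ hj2) hj1.1))
    linarith
  rwa [hV.closure_eq] at this

theorem exists_step (D : KData Γ 𝕜 X) (V : Submodule 𝕜 X) {B : Set Γ} (hB : B.Countable) :
    ∃ B' : Set Γ, B'.Countable ∧ B ⊆ B' ∧ ∀ v ∈ V, ∀ ε > 0, ∃ v' ∈ V, ‖v'‖ ≤ ‖v‖ + 1 ∧
      ‖D.PA B (v - v')‖ ≤ ε ∧ D.PA B' v' = v' := by
  classical
  have hS : (Prod.fst ⁻¹' B : Set (Γ × ℕ)).Countable := by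
    have : (Prod.fst ⁻¹' B : Set (Γ × ℕ)) = B ×ˢ Set.univ := by
      ext j; simp
    rw [this]
    exact hB.prod Set.countable_univ
  set f : X → X × ℝ := fun v => (D.PA B v, ‖v‖) with hf
  have hsep : TopologicalSpace.IsSeparable (f '' (V : Set X)) := by
    have h1 : TopologicalSpace.IsSeparable (Set.range (D.PA B) ×ˢ (Set.univ : Set ℝ)) :=
      (D.isSeparable_range_P hS).prod (TopologicalSpace.IsSeparable.of_separableSpace _)
    refine h1.mono ?_
    rintro _ ⟨v, -, rfl⟩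
    exact ⟨⟨v, rfl⟩, Set.mem_univ _⟩
  obtain ⟨T, hT1, hT2, hT3⟩ := hsep.exists_countable_dense_subset
  have hch : ∀ t : X × ℝ, ∃ v : X, t ∈ T → v ∈ V ∧ f v = t := by
    intro t
    by_cases ht : t ∈ T
    · obtain ⟨v, hv, hvt⟩ := hT1 ht
      exact ⟨v, fun _ => ⟨hv, hvt⟩⟩
    · exact ⟨0, fun h => absurd h ht⟩
  choose g hg using hch
  refine ⟨B ∪ ⋃ t ∈ T, Prod.fst '' {j : Γ × ℕ | D.c j (g t) ≠ 0}, ?_, Set.subset_union_left, ?_⟩
  · refine hB.union (hT2.biUnion fun t _ => Set.Countable.image ?_ _)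
    have s4 : Summable (fun j => ‖D.c j (g t)‖ ^ 4) :=
      summable_of_sum_le (fun j => by positivity) (D.b4 (g t))
    refine s4.countable_support.mono ?_
    intro j hj
    rw [Function.mem_support]
    have : D.c j (g t) ≠ 0 := hj
    have := norm_pos_iff.2 this
    positivity
  · intro v hv ε hε
    have hcl := hT3 ⟨v, hv, rfl⟩
    rw [Metric.mem_closure_iff] at hcl
    obtain ⟨t, ht, htd⟩ := hcl (min ε 1) (lt_min hε one_pos)
    obtain ⟨hgV, hgt⟩ := hg t ht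
    rw [← hgt, hf, Prod.dist_eq, max_lt_iff] at htd
    obtain ⟨h1, h2⟩ := htd
    simp only at h1 h2
    refine ⟨g t, hgV, ?_, ?_, ?_⟩
    · have h3 := lt_of_lt_of_le h2 (min_le_right _ _)
      rw [Real.dist_eq] at h3
      have := (abs_lt.1 h3).1
      linarith
    · have h3 := lt_of_lt_of_le h1 (min_le_left _ _)
      rw [dist_eq_norm, ← map_sub] at h3
      exact h3.le
    · refine D.P_eq_self fun j hj => ?_
      by_contra hne
      apply hj
      right
      exact Set.mem_biUnion ht ⟨j, hne, rfl⟩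

theorem exists_countable_good (D : KData Γ 𝕜 X) (V : Submodule 𝕜 X) (hV : IsClosed (V : Set X))
    (γ : Γ) : ∃ A : Set Γ, A.Countable ∧ γ ∈ A ∧ D.Good V A := by
  classical
  have hst : ∀ B : Set Γ, ∃ B' : Set Γ, B.Countable → B'.Countable ∧ B ⊆ B' ∧
      ∀ v ∈ V, ∀ ε > 0, ∃ v' ∈ V, ‖v'‖ ≤ ‖v‖ + 1 ∧ ‖D.PA B (v - v')‖ ≤ ε ∧ D.PA B' v' = v' := by
    intro B
    by_cases hB : B.Countable
    · obtain ⟨B', h⟩ := exists_step D V hB
      exact ⟨B', fun _ => h⟩
    · exact ⟨∅, fun h => absurd h hB⟩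
  choose st hst using hst
  set B : ℕ → Set Γ := fun n => st^[n] {γ} with hBdef
  have hB0 : B 0 = {γ} := rfl
  have hBs : ∀ n, B (n + 1) = st (B n) := fun n => Function.iterate_succ_apply' _ _ _
  have hBc : ∀ n, (B n).Countable := by
    intro n
    induction n with
    | zero => rw [hB0]; exact Set.countable_singleton _
    | succ n ih => rw [hBs]; exact (hst _ ih).1
  have hmono : Monotone B := monotone_nat_of_le_succ fun n => by
    rw [hBs]; exact (hst _ (hBc n)).2.1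
  refine ⟨⋃ n, B n, Set.countable_iUnion hBc, Set.mem_iUnion.2 ⟨0, by rw [hB0]; rfl⟩, ?_⟩
  set A : Set Γ := ⋃ n, B n with hA
  intro v hv
  by_contra hcon
  obtain ⟨φ, hφ1, hφ2⟩ := exists_sep V hV hcon
  have hpos : 0 < ‖φ (D.PA A v)‖ := norm_pos_iff.2 hφ2
  set K : ℝ := ‖φ‖ + (2 * ‖v‖ + 1) + 1 with hK
  have hK0 : 0 < K := by positivity
  set ε : ℝ := ‖φ (D.PA A v)‖ / (2 * K) with hε
  have hε0 : 0 < ε := by positivity
  obtain ⟨F, hF⟩ := D.shrinking φ hε0
  -- stage catching the points of F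
  obtain ⟨n, hn⟩ : ∃ n, ∀ j ∈ F, j.1 ∈ A → j.1 ∈ B n := by
    clear hF
    induction F using Finset.induction_on with
    | empty => exact ⟨0, by simp⟩
    | insert j F hj ih =>
      obtain ⟨n, hn⟩ := ih
      by_cases hjA : j.1 ∈ A
      · obtain ⟨m, hm⟩ := Set.mem_iUnion.1 hjA
        refine ⟨max n m, fun i hi hiA => ?_⟩
        rcases Finset.mem_insert.1 hi with rfl | h1
        · exact hmono (le_max_right _ _) hm
        · exact hmono (le_max_left _ _) (hn i h1 hiA)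
      · refine ⟨n, fun i hi hiA => ?_⟩
        rcases Finset.mem_insert.1 hi with rfl | h1
        · exact absurd hiA hjA
        · exact hn i h1 hiA
  obtain ⟨v', hv'V, hv'n, hv'ε, hv'P⟩ := (hst _ (hBc n)).2.2 v hv ε hε0
  rw [← hBs] at hv'P
  have e1 : D.PA A v' = v' := by
    rw [← hv'P]
    unfold KData.PA
    rw [D.P_P]
    congr 1
    rw [← Set.preimage_inter, Set.inter_eq_right.2]
    exact Set.subset_iUnion B (n + 1)
  have e2 : D.PA A (v - v') = D.PA (B n) (v - v') + D.P (Prod.fst ⁻¹' (A \ B n)) (v - v') := by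
    unfold KData.PA
    rw [← D.P_union]
    · congr 1
      rw [← Set.preimage_union, Set.union_diff_cancel (Set.subset_iUnion B n)]
    · rw [Set.disjoint_left]
      intro j hj1 hj2
      exact hj2.2 hj1
  have e3 : φ (D.PA A v) = φ (D.PA (B n) (v - v')) + φ (D.P (Prod.fst ⁻¹' (A \ B n)) (v - v')) := by
    have : D.PA A v = D.PA A (v - v') + v' := by
      rw [map_sub, e1]; abel
    rw [this, map_add, hφ1 v' hv'V, add_zero, e2, map_add]
  have h1 : ‖φ (D.PA (B n) (v - v'))‖ ≤ ‖φ‖ * ε :=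
    (φ.le_opNorm _).trans (mul_le_mul_of_nonneg_left hv'ε (norm_nonneg _))
  have h2 : ‖φ (D.P (Prod.fst ⁻¹' (A \ B n)) (v - v'))‖ ≤ ε * (2 * ‖v‖ + 1) := by
    refine (hF _ ?_).trans (mul_le_mul_of_nonneg_left ?_ hε0.le)
    · intro j hj
      refine D.c_P_of_notMem ?_ _
      intro hj2
      exact hj2.2 (hn j hj hj2.1)
    · refine (D.norm_P_le _ _).trans ((norm_sub_le _ _).trans ?_)
      linarith
  have h3 : ‖φ (D.PA A v)‖ ≤ ε * K := by
    rw [e3]
    refine (norm_add_le _ _).trans ?_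
    rw [hK]
    nlinarith
  have h4 : ε * K = ‖φ (D.PA A v)‖ / 2 := by
    rw [hε]
    field_simp
  linarith

end Pool.Agent.R287.KP
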