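import Mathlib
import Pool.Agent.R287.KPd

/-! Every closed subspace is the closed range of an operator; the dual answers positively. -/

set_option autoImplicit false

open Filter Topology Finset
open scoped ENNReal

namespace Pool.Agent.R287.KP

variable {Γ : Type*} {𝕜 : Type*} [RCLike 𝕜] {X : Type*} [NormedAddCommGroup X]
    [NormedSpace 𝕜 X]

/-- The equivalence relation: same good sets. -/
def stoid (D : KData Γ 𝕜 X) (V : Submodule 𝕜 X) : Setoid Γ where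
  r γ γ' := ∀ A, D.Good V A → (γ ∈ A ↔ γ' ∈ A)
  iseqv :=
    { refl := fun γ A _ => Iff.rfl
      symm := fun h A hA => (h A hA).symm
      trans := fun h1 h2 A hA => (h1 A hA).trans (h2 A hA) }

/-- The class of `q`. -/
def cls (D : KData Γ 𝕜 X) (V : Submodule 𝕜 X) (q : Quotient (stoid D V)) : Set Γ :=
  {γ | Quotient.mk (stoid D V) γ = q}

theorem cls_eq (D : KData Γ 𝕜 X) (V : Submodule 𝕜 X) (q : Quotient (stoid D V)) :
    cls D V q = ⋂₀ {A | D.Good V A ∧ q.out ∈ A} := by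
  ext γ
  rw [Set.mem_sInter]
  constructor
  · intro h A hA
    have h1 : Quotient.mk (stoid D V) γ = Quotient.mk (stoid D V) q.out := by
      rw [Quotient.out_eq]; exact h
    have h2 : (stoid D V).r γ q.out := Quotient.exact h1
    exact (h2 A hA.1).2 hA.2
  · intro h
    show Quotient.mk (stoid D V) γ = q
    rw [← Quotient.out_eq q]
    apply Quotient.sound
    intro A hA
    constructor
    · intro hγ
      by_contra hq
      exact h Aᶜ ⟨Good.compl hA, hq⟩ hγ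
    · intro hq
      exact h A ⟨hA, hq⟩

theorem cls_good (D : KData Γ 𝕜 X) (V : Submodule 𝕜 X) (hV : IsClosed (V : Set X))
    (q : Quotient (stoid D V)) : D.Good V (cls D V q) := by
  rw [cls_eq]
  exact good_sInter hV fun A hA => hA.1

theorem cls_countable (D : KData Γ 𝕜 X) (V : Submodule 𝕜 X) (hV : IsClosed (V : Set X))
    (q : Quotient (stoid D V)) : (cls D V q).Countable := by
  obtain ⟨A, hA1, hA2, hA3⟩ := exists_countable_good D V hV q.out
  rw [cls_eq]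
  exact hA1.mono (Set.sInter_subset_of_mem ⟨hA3, hA2⟩)

theorem exists_seq (D : KData Γ 𝕜 X) (V : Submodule 𝕜 X) {A : Set Γ} (hA : A.Countable)
    (hg : D.Good V A) : ∃ v : ℕ → X, (∀ k, v k ∈ V) ∧ (∀ k, D.PA A (v k) = v k) ∧
      (∀ k, ‖v k‖ ≤ 1) ∧
      ∀ φ : X →L[𝕜] 𝕜, (∀ k, φ (v k) = 0) → ∀ u ∈ V, φ (D.PA A u) = 0 := by
  classical
  have hS : (Prod.fst ⁻¹' A : Set (Γ × ℕ)).Countable := by
    have : (Prod.fst ⁻¹' A : Set (Γ × ℕ)) = A ×ˢ Set.univ := by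
      ext j; simp
    rw [this]
    exact hA.prod Set.countable_univ
  set E : Set X := {v | v ∈ V ∧ D.PA A v = v ∧ ‖v‖ ≤ 1} with hE
  have hsep : TopologicalSpace.IsSeparable E := by
    refine (D.isSeparable_range_P hS).mono ?_
    intro v hv
    exact ⟨v, hv.2.1⟩
  obtain ⟨T, hT1, hT2, hT3⟩ := hsep.exists_countable_dense_subset
  have h0 : (0 : X) ∈ E := ⟨V.zero_mem, by simp, by simp⟩
  have hne : T.Nonempty := by
    rw [← closure_nonempty_iff]
    exact ⟨0, hT3 h0⟩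
  obtain ⟨v, hv⟩ := hT2.exists_eq_range hne
  have hvE : ∀ k, v k ∈ E := fun k => hT1 (by rw [hv]; exact ⟨k, rfl⟩)
  refine ⟨v, fun k => (hvE k).1, fun k => (hvE k).2.1, fun k => (hvE k).2.2, ?_⟩
  intro φ hφ u hu
  have hclos : ∀ x ∈ E, φ x = 0 := by
    intro x hx
    have hc : IsClosed {x : X | φ x = 0} := isClosed_eq φ.continuous continuous_const
    have hsub : T ⊆ {x : X | φ x = 0} := by
      rw [hv]
      rintro _ ⟨k, rfl⟩
      exact hφ k
    exact (closure_minimal hsub hc) (hT3 hx)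
  set x : X := D.PA A u with hx
  have hxV : x ∈ V := hg u hu
  have hxP : D.PA A x = x := by
    rw [hx]
    unfold KData.PA
    rw [D.P_P, Set.inter_self]
  have hc : ‖((‖x‖ + 1 : ℝ) : 𝕜)‖ = ‖x‖ + 1 := by
    rw [RCLike.norm_ofReal, abs_of_pos (by positivity)]
  have hc0 : ((‖x‖ + 1 : ℝ) : 𝕜) ≠ 0 := by
    rw [← norm_ne_zero_iff, hc]
    positivity
  have hmem : (((‖x‖ + 1 : ℝ) : 𝕜))⁻¹ • x ∈ E := by
    refine ⟨V.smul_mem _ hxV, by rw [map_smul, hxP], ?_⟩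
    rw [norm_smul, norm_inv, hc, inv_mul_le_iff₀ (by positivity)]
    linarith
  have := hclos _ hmem
  rw [map_smul, smul_eq_mul] at this
  exact (mul_eq_zero.1 this).resolve_left (inv_ne_zero hc0)

theorem sum_quarter_le {ι : Type*} (s : Finset ι) (k : ι → ℕ) (hk : Set.InjOn k s) :
    ∑ i ∈ s, ((1 / 4 : ℝ)) ^ (k i) ≤ 2 := by
  classical
  rw [← Finset.sum_image (f := fun n => (1 / 4 : ℝ) ^ n) hk]
  have h := summable_geometric_of_lt_one (r := (1 / 4 : ℝ)) (by norm_num) (by norm_num)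
  refine (h.sum_le_tsum _ fun n _ => by positivity).trans ?_
  rw [tsum_geometric_of_lt_one (by norm_num) (by norm_num)]
  norm_num

/-- The finite estimate. -/
theorem finite_est (D : KData Γ 𝕜 X) {Q : Type*} (A : Q → Set Γ)
    (hd : ∀ q q', q ≠ q' → Disjoint (A q) (A q')) (v : Q × ℕ → X)
    (hv1 : ∀ κ, D.PA (A κ.1) (v κ) = v κ) (hv2 : ∀ κ, ‖v κ‖ ≤ 1) (h : Q × ℕ → 𝕜)
    (F : Finset (Q × ℕ)) :
    ‖∑ κ ∈ F, h κ • ((1 / 2 : 𝕜) ^ κ.2 • v κ)‖ ^ 2 ≤ 2 * ∑ κ ∈ F, ‖h κ‖ ^ 2 := by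
  classical
  have hmaps : ∀ κ ∈ F, κ.1 ∈ F.image Prod.fst := fun κ hκ => Finset.mem_image_of_mem _ hκ
  rw [← Finset.sum_fiberwise_of_maps_to hmaps, ← Finset.sum_fiberwise_of_maps_to hmaps (f := fun κ => ‖h κ‖ ^ 2),
    Finset.mul_sum]
  have hzero : ∀ q κ, κ.1 = q → ∀ j : Γ × ℕ, j.1 ∉ A q → D.c j (v κ) = 0 := by
    intro q κ hκ j hj
    rw [← hv1 κ, hκ]
    exact D.c_P_of_notMem hj _
  refine (D.disj_sum _ _ ?_).trans (Finset.sum_le_sum fun q _ => ?_)
  · intro q _ q' _ hqq j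
    by_cases hj : j.1 ∈ A q
    · right
      have hj' : j.1 ∉ A q' := Set.disjoint_left.1 (hd q q' hqq) hj
      rw [map_sum]
      refine Finset.sum_eq_zero fun κ hκ => ?_
      rw [map_smul, map_smul, hzero q' κ (Finset.mem_filter.1 hκ).2 j hj', smul_zero, smul_zero]
    · left
      rw [map_sum]
      refine Finset.sum_eq_zero fun κ hκ => ?_
      rw [map_smul, map_smul, hzero q κ (Finset.mem_filter.1 hκ).2 j hj, smul_zero, smul_zero]
  · have h1 : ‖∑ κ ∈ F with κ.1 = q, h κ • ((1 / 2 : 𝕜) ^ κ.2 • v κ)‖ ≤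
        ∑ κ ∈ F with κ.1 = q, ‖h κ‖ * (1 / 2 : ℝ) ^ κ.2 := by
      refine (norm_sum_le _ _).trans (Finset.sum_le_sum fun κ _ => ?_)
      rw [norm_smul, norm_smul, norm_pow, norm_div, norm_one, RCLike.norm_ofNat]
      refine mul_le_mul_of_nonneg_left ?_ (norm_nonneg _)
      calc (1 / 2 : ℝ) ^ κ.2 * ‖v κ‖ ≤ (1 / 2 : ℝ) ^ κ.2 * 1 :=
            mul_le_mul_of_nonneg_left (hv2 κ) (by positivity)
        _ = _ := mul_one _
    have h2 : (∑ κ ∈ F with κ.1 = q, ‖h κ‖ * (1 / 2 : ℝ) ^ κ.2) ^ 2 ≤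
        (∑ κ ∈ F with κ.1 = q, ‖h κ‖ ^ 2) * (∑ κ ∈ F with κ.1 = q, ((1 / 2 : ℝ) ^ κ.2) ^ 2) :=
      Finset.sum_mul_sq_le_sq_mul_sq _ _ _
    have h3 : ∑ κ ∈ F with κ.1 = q, ((1 / 2 : ℝ) ^ κ.2) ^ 2 ≤ 2 := by
      have e : ∀ κ ∈ F.filter (fun κ => κ.1 = q), ((1 / 2 : ℝ) ^ κ.2) ^ 2 = (1 / 4 : ℝ) ^ κ.2 := by
        intro κ _
        rw [← pow_mul, mul_comm, pow_mul]
        norm_num
      rw [Finset.sum_congr rfl e]
      refine sum_quarter_le _ _ ?_
      intro κ hκ κ' hκ' hk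
      have a1 := (Finset.mem_filter.1 (Finset.mem_coe.1 hκ)).2
      have a2 := (Finset.mem_filter.1 (Finset.mem_coe.1 hκ')).2
      exact Prod.ext (a1.trans a2.symm) hk
    calc _ ≤ (∑ κ ∈ F with κ.1 = q, ‖h κ‖ * (1 / 2 : ℝ) ^ κ.2) ^ 2 :=
          pow_le_pow_left₀ (norm_nonneg _) h1 2
      _ ≤ _ := h2
      _ ≤ (∑ κ ∈ F with κ.1 = q, ‖h κ‖ ^ 2) * 2 :=
          mul_le_mul_of_nonneg_left h3 (Finset.sum_nonneg fun _ _ => by positivity)
      _ = _ := mul_comm _ _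

/-- The operator sending `a` to `∑ (U a)_{rep κ} g_κ`. -/
theorem exists_operator [CompleteSpace X] (D : KData Γ 𝕜 X) {K : Type*} (rep : K → Γ × ℕ)
    (hrep : Function.Injective rep) (g : K → X)
    (hg : ∀ (h : K → 𝕜) (F : Finset K), ‖∑ κ ∈ F, h κ • g κ‖ ^ 2 ≤ 2 * ∑ κ ∈ F, ‖h κ‖ ^ 2) :
    ∃ S : X →L[𝕜] X, ∀ a, HasSum (fun κ => ((wt (rep κ) : 𝕜) * D.c (rep κ) a) • g κ) (S a) := by
  classical
  have hnorm : ∀ (a : X) (κ : K), ‖(wt (rep κ) : 𝕜) * D.c (rep κ) a‖ ^ 2 =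
      (wt (rep κ) * ‖D.c (rep κ) a‖) ^ 2 := by
    intro a κ
    rw [norm_mul, RCLike.norm_ofReal, abs_of_pos (wt_pos _)]
  have hb : ∀ (a : X) (F : Finset K), ∑ κ ∈ F, ‖(wt (rep κ) : 𝕜) * D.c (rep κ) a‖ ^ 2 ≤ ‖a‖ ^ 2 := by
    intro a F
    have h1 := D.b2 a (F.image rep)
    rw [Finset.sum_image hrep.injOn] at h1
    refine le_trans (le_of_eq ?_) h1
    exact Finset.sum_congr rfl fun κ _ => hnorm a κ
  have hsum : ∀ a, Summable (fun κ => ((wt (rep κ) : 𝕜) * D.c (rep κ) a) • g κ) := by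
    intro a
    rw [summable_iff_vanishing_norm]
    intro ε hε
    have s2 : Summable (fun κ => ‖(wt (rep κ) : 𝕜) * D.c (rep κ) a‖ ^ 2) :=
      summable_of_sum_le (fun κ => by positivity) (hb a)
    obtain ⟨s, hs⟩ := summable_iff_vanishing_norm.1 s2 (ε ^ 2 / 2) (by positivity)
    refine ⟨s, fun t ht => ?_⟩
    have h1 := hs t ht
    rw [Real.norm_of_nonneg (Finset.sum_nonneg fun _ _ => by positivity)] at h1
    have h2 := hg (fun κ => (wt (rep κ) : 𝕜) * D.c (rep κ) a) t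
    have h3 : ‖∑ κ ∈ t, ((wt (rep κ) : 𝕜) * D.c (rep κ) a) • g κ‖ ^ 2 < ε ^ 2 := by
      refine lt_of_le_of_lt h2 ?_
      linarith
    exact lt_of_pow_lt_pow_left₀ 2 hε.le h3
  have hbound : ∀ a, ‖∑' κ, ((wt (rep κ) : 𝕜) * D.c (rep κ) a) • g κ‖ ≤ 2 * ‖a‖ := by
    intro a
    have ht := (hsum a).hasSum.norm
    refine le_of_tendsto ht (Eventually.of_forall fun F => ?_)
    have h2 := hg (fun κ => (wt (rep κ) : 𝕜) * D.c (rep κ) a) F
    have h3 : ‖∑ κ ∈ F, ((wt (rep κ) : 𝕜) * D.c (rep κ) a) • g κ‖ ^ 2 ≤ (2 * ‖a‖) ^ 2 := by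
      refine h2.trans ?_
      have := hb a F
      nlinarith [sq_nonneg ‖a‖]
    exact le_of_pow_le_pow_left₀ (by norm_num) (by positivity) h3
  refine ⟨LinearMap.mkContinuous
    { toFun := fun a => ∑' κ, ((wt (rep κ) : 𝕜) * D.c (rep κ) a) • g κ
      map_add' := by
        intro a b
        rw [← (hsum a).tsum_add (hsum b)]
        refine tsum_congr fun κ => ?_
        rw [map_add, mul_add, add_smul]
      map_smul' := by
        intro t a
        rw [RingHom.id_apply, ← (hsum a).tsum_const_smul t]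
        refine tsum_congr fun κ => ?_
        rw [map_smul, smul_smul, smul_eq_mul]
        congr 1
        ring } 2 hbound, fun a => (hsum a).hasSum⟩

/-- Every closed subspace `V` has an operator `S` such that `φ ∘ S = 0` iff `φ = 0` on `V`. -/
theorem exists_range_op [CompleteSpace X] (D : KData Γ 𝕜 X) (V : Submodule 𝕜 X)
    (hV : IsClosed (V : Set X)) :
    ∃ S : X →L[𝕜] X, ∀ φ : X →L[𝕜] 𝕜, (∀ a, φ (S a) = 0) ↔ ∀ v ∈ V, φ v = 0 := by
  classical
  have hex := fun q : Quotient (stoid D V) =>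
    exists_seq D V (cls_countable D V hV q) (cls_good D V hV q)
  choose v hv1 hv2 hv3 hv4 using hex
  set rep : Quotient (stoid D V) × ℕ → Γ × ℕ := fun κ => (κ.1.out, κ.2) with hrep
  have hinj : Function.Injective rep := by
    intro κ κ' h
    rw [hrep, Prod.ext_iff] at h
    simp only at h
    refine Prod.ext ?_ h.2
    rw [← Quotient.out_eq κ.1, ← Quotient.out_eq κ'.1, h.1]
  have hdis : ∀ q q' : Quotient (stoid D V), q ≠ q' → Disjoint (cls D V q) (cls D V q') := by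
    intro q q' hqq
    rw [Set.disjoint_left]
    intro γ h1 h2
    exact hqq (h1.symm.trans h2)
  set g : Quotient (stoid D V) × ℕ → X := fun κ => (1 / 2 : 𝕜) ^ κ.2 • v κ.1 κ.2 with hg
  obtain ⟨S, hS⟩ := exists_operator D rep hinj g (fun h F => by
    exact finite_est D (cls D V) hdis (fun κ => v κ.1 κ.2) (fun κ => hv2 κ.1 κ.2)
      (fun κ => hv3 κ.1 κ.2) h F)
  refine ⟨S, fun φ => ?_⟩
  have hhalf : ∀ k : ℕ, ((1 / 2 : 𝕜) ^ k) ≠ 0 := fun k => pow_ne_zero _ (by norm_num)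
  constructor
  · intro hφ
    have hφg : ∀ κ : Quotient (stoid D V) × ℕ, φ (v κ.1 κ.2) = 0 := by
      intro κ
      have h1 : HasSum (fun κ' => ((wt (rep κ') : 𝕜) * D.c (rep κ') (D.e (rep κ))) • g κ')
          (((wt (rep κ) : 𝕜) * D.c (rep κ) (D.e (rep κ))) • g κ) := by
        refine hasSum_single κ fun κ' hκ' => ?_
        rw [D.c_e, if_neg (fun e => hκ' (hinj e)), mul_zero, zero_smul]
      have h2 := (hS (D.e (rep κ))).unique h1
      have h3 := hφ (D.e (rep κ))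
      rw [h2, D.c_e, if_pos rfl, mul_one, map_smul, hg, map_smul, smul_eq_mul, smul_eq_mul] at h3
      have h4 : (wt (rep κ) : 𝕜) ≠ 0 := by exact_mod_cast (wt_pos _).ne'
      exact (mul_eq_zero.1 ((mul_eq_zero.1 h3).resolve_left h4)).resolve_left (hhalf _)
    have hq : ∀ q, ∀ u ∈ V, φ (D.PA (cls D V q) u) = 0 := fun q u hu =>
      hv4 q φ (fun k => hφg (q, k)) u hu
    intro u hu
    by_contra hne
    have hpos : 0 < ‖φ u‖ := norm_pos_iff.2 hne
    obtain ⟨F, hF⟩ := D.tail u (ε := ‖φ u‖ / (2 * (‖φ‖ + 1))) (by positivity)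
    set s : Finset (Quotient (stoid D V)) := F.image (fun j => Quotient.mk (stoid D V) j.1) with hs
    set W : Set (Γ × ℕ) := {j | Quotient.mk (stoid D V) j.1 ∈ s} with hW
    have e1 : D.P W u = ∑ q ∈ s, D.PA (cls D V q) u := by
      apply D.ext
      intro j
      rw [map_sum, D.c_P]
      have : ∀ q ∈ s, D.c j (D.PA (cls D V q) u) =
          if Quotient.mk (stoid D V) j.1 = q then D.c j u else 0 := by
        intro q _
        unfold KData.PA
        by_cases hq : Quotient.mk (stoid D V) j.1 = q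
        · rw [if_pos hq]
          exact D.c_P_of_mem (S := Prod.fst ⁻¹' cls D V q) hq u
        · rw [if_neg hq]
          exact D.c_P_of_notMem (S := Prod.fst ⁻¹' cls D V q) hq u
      rw [Finset.sum_congr rfl this, Finset.sum_ite_eq]
      by_cases hj : Quotient.mk (stoid D V) j.1 ∈ s
      · rw [if_pos hj, if_pos (show j ∈ W from hj)]
      · rw [if_neg hj, if_neg (show j ∉ W from hj)]
    have e2 : φ (D.P W u) = 0 := by
      rw [e1, map_sum]
      exact Finset.sum_eq_zero fun q _ => hq q u hu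
    have e3 : φ u = φ (D.P Wᶜ u) := by
      rw [D.P_compl, map_sub, e2, sub_zero]
    have h1 := hF Wᶜ (by
      rw [Set.disjoint_left]
      intro j hj1 hj2
      exact hj1 (Finset.mem_image_of_mem (fun j : Γ × ℕ => Quotient.mk (stoid D V) j.1) hj2))
    have h2 : ‖φ u‖ ≤ ‖φ‖ * (‖φ u‖ / (2 * (‖φ‖ + 1))) := by
      conv_lhs => rw [e3]
      exact (φ.le_opNorm _).trans (mul_le_mul_of_nonneg_left h1 (norm_nonneg _))
    have h3 : ‖φ‖ * (‖φ u‖ / (2 * (‖φ‖ + 1))) ≤ (‖φ‖ + 1) * (‖φ u‖ / (2 * (‖φ‖ + 1))) :=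
      mul_le_mul_of_nonneg_right (by linarith) (by positivity)
    have h4 : (‖φ‖ + 1) * (‖φ u‖ / (2 * (‖φ‖ + 1))) = ‖φ u‖ / 2 := by
      have : ‖φ‖ + 1 ≠ 0 := by positivity
      field_simp
    linarith
  · intro hφ a
    have h1 := (hS a).mapL φ
    have h2 : (fun κ => φ (((wt (rep κ) : 𝕜) * D.c (rep κ) a) • g κ)) = fun _ => 0 := by
      funext κ
      rw [map_smul, hg, map_smul, hφ _ (hv1 κ.1 κ.2), smul_zero, smul_zero]
    rw [h2] at h1
    exact h1.unique hasSum_zero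

/-- The dual answers positively. -/
theorem dual_positive [CompleteSpace X] (D : KData Γ 𝕜 X) (M : Submodule 𝕜 (StrongDual 𝕜 X))
    (hM : IsClosed (M : Set (StrongDual 𝕜 X))) :
    ∃ T : StrongDual 𝕜 X →L[𝕜] StrongDual 𝕜 X,
      LinearMap.ker (T : StrongDual 𝕜 X →ₗ[𝕜] StrongDual 𝕜 X) = M := by
  set V : Submodule 𝕜 X := ⨅ φ ∈ M, LinearMap.ker ((φ : X →L[𝕜] 𝕜) : X →ₗ[𝕜] 𝕜) with hVdef
  have hmemV : ∀ x, x ∈ V ↔ ∀ φ ∈ M, φ x = 0 := by
    intro x
    rw [hVdef]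
    simp [Submodule.mem_iInf]
  have hV : IsClosed (V : Set X) := by
    have : (V : Set X) = ⋂ φ ∈ M, {x | φ x = 0} := by
      ext x
      simp only [SetLike.mem_coe, hmemV, Set.mem_iInter, Set.mem_setOf_eq]
    rw [this]
    exact isClosed_biInter fun φ _ => isClosed_eq φ.continuous continuous_const
  obtain ⟨S, hS⟩ := exists_range_op D V hV
  refine ⟨(ContinuousLinearMap.compL 𝕜 X X 𝕜).flip S, ?_⟩
  ext ψ
  rw [LinearMap.mem_ker]
  have h1 : ((ContinuousLinearMap.compL 𝕜 X X 𝕜).flip S : StrongDual 𝕜 X →L[𝕜] StrongDual 𝕜 X) ψ = 0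
      ↔ ∀ a, ψ (S a) = 0 := by
    constructor
    · intro h a
      have := congrArg (fun f : X →L[𝕜] 𝕜 => f a) h
      simpa using this
    · intro h
      apply ContinuousLinearMap.ext
      intro a
      simpa using h a
  refine Iff.trans h1 ((hS ψ).trans ?_)
  constructor
  · intro h
    by_contra hψ
    obtain ⟨Φ, hΦ1, hΦ2⟩ := exists_sep M hM hψ
    obtain ⟨x, hx⟩ := D.reflexive Φ
    have hxΦ : ∀ φ : StrongDual 𝕜 X, Φ φ = φ x := by
      intro φ
      rw [← hx, NormedSpace.dual_def]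
    apply hΦ2
    rw [hxΦ]
    refine h x ((hmemV x).2 fun φ hφ => ?_)
    rw [← hxΦ]
    exact hΦ1 φ hφ
  · intro hψ v hv
    exact (hmemV v).1 hv ψ hψ

end Pool.Agent.R287.KP
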