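import Mathlib

open MeasureTheory Complex AddCircle
open scoped ComplexConjugate ENNReal

namespace Pool.Agent.R287.MAC

/-- The circle, as `ℝ/ℤ`; its Haar probability measure is `haarAddCircle` and the coordinate `z`
is `fourier 1`. -/
abbrev Cir : Type := AddCircle (1 : ℝ)

/-- The `L²` inner product of `g` with `f`: the integral of `conj f * g`. -/
noncomputable def ip (f g : Cir → ℂ) : ℂ := ∫ t, conj (f t) * g t ∂haarAddCircle

/-- `f` is in `H²`. -/
def InH2 (f : Cir → ℂ) : Prop :=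
  MemLp f 2 haarAddCircle ∧ ∀ n : ℤ, n < 0 → fourierCoeff f n = 0

/-- `f` is in the model space `K_Θ = H² ⊖ Θ H²`. -/
def InK (Θ : ℂ → ℂ) (f : Cir → ℂ) : Prop :=
  InH2 f ∧ ∀ g, InH2 g → ip (fun t => Θ (fourier 1 t) * g t) f = 0

/-- `A` is the truncated Toeplitz operator on `K_Θ` with symbol `φ`: for `f` in `K_Θ`,
`A f` is the orthogonal projection of `φ f` to `K_Θ`. -/
def IsTTO (Θ : ℂ → ℂ) (φ : Cir → ℂ) (A : (Cir → ℂ) → Cir → ℂ) : Prop :=
  ∀ f, InK Θ f → InK Θ (A f) ∧ ∀ g, InK Θ g → ip g (A f) = ip g (fun t => φ t * f t)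

/-- `b` is an orthonormal basis of `K_Θ`. -/
def IsONB {n : ℕ} (Θ : ℂ → ℂ) (b : Fin n → Cir → ℂ) : Prop :=
  (∀ i, InK Θ (b i)) ∧ (∀ i j, ip (b i) (b j) = if i = j then 1 else 0) ∧
    ∀ f, InK Θ f → (∀ i, ip (b i) f = 0) → f =ᵐ[haarAddCircle] 0

/-- `e` is a modified Aleksandrov-Clark basis of `K_Θ`. -/
def IsModifiedAC {n : ℕ} (Θ : ℂ → ℂ) (e : Fin n → Cir → ℂ) : Prop :=
  ∃ (α : ℂ) (ζ w : Fin n → ℂ) (r : Fin n → ℝ), ‖α‖ = 1 ∧ (∀ j, ‖ζ j‖ = 1) ∧
    Function.Injective ζ ∧ (∀ j, Θ (ζ j) = α) ∧ (∀ j, ‖w j‖ = 1 ∧ w j ^ 2 = α * conj (ζ j)) ∧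
    ∀ j, 0 < r j ∧ InK Θ (e j) ∧ ip (e j) (e j) = 1 ∧ ∀ t, e j t =
      r j * w j * ((1 - conj α * Θ (fourier 1 t)) / (1 - conj (ζ j) * fourier 1 t))

/-- The finite Blaschke product `c ∏ₖ (z - aₖ)/(1 - conj aₖ z)`. -/
noncomputable def blaschke {n : ℕ} (c : ℂ) (a : Fin n → ℂ) (z : ℂ) : ℂ :=
  c * ∏ k, (z - a k) / (1 - conj (a k) * z)

/-- `Θ` is a finite Blaschke product of degree `n`. -/
def IsBlaschke (n : ℕ) (Θ : ℂ → ℂ) : Prop :=
  ∃ (c : ℂ) (a : Fin n → ℂ), ‖c‖ = 1 ∧ (∀ k, ‖a k‖ < 1) ∧ Θ = blaschke c a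

/-- `M` is the matrix in `b` of a truncated Toeplitz operator on `K_Θ` with bounded symbol. -/
def IsTTOMatrix {n : ℕ} (Θ : ℂ → ℂ) (b : Fin n → Cir → ℂ) (M : Matrix (Fin n) (Fin n) ℂ) : Prop :=
  ∃ φ A, MemLp φ ∞ haarAddCircle ∧ IsTTO Θ φ A ∧ ∀ i j, ip (b i) (A (b j)) = M i j

/-- No subspace other than `0` and the whole space is invariant under both `M` and `M*`. -/
def Irred {n : ℕ} (M : Matrix (Fin n) (Fin n) ℂ) : Prop :=
  ∀ V : Submodule ℂ (Fin n → ℂ), (∀ v ∈ V, M.mulVec v ∈ V) →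
    (∀ v ∈ V, M.conjTranspose.mulVec v ∈ V) → V = ⊥ ∨ V = ⊤

lemma norm_fourier_one (t : Cir) : ‖(fourier 1 t : ℂ)‖ = 1 := by
  rw [fourier_apply]
  exact Circle.norm_coe _

/-- the pointwise identity between the Clark kernels -/
lemma kernel_identity {α z a b θ : ℂ} (hα : ‖α‖ = 1) (hz : ‖z‖ = 1) (ha : ‖a‖ = 1) (hb : ‖b‖ = 1)
    (hab : a ≠ b) (h1 : z = a → θ = α) (h2 : z = b → θ = α) :
    ((1 - conj α * θ) / (1 - conj a * z)) * conj ((1 - conj α * θ) / (1 - conj b * z)) =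
      (-conj b / (conj a - conj b)) *
        ((1 - conj α * θ) / (1 - conj a * z) - (1 - conj α * θ) / (1 - conj b * z)) *
          conj (1 - conj α * θ) := by
  have hzz : z * conj z = 1 := by rw [Complex.mul_conj, Complex.normSq_eq_norm_sq, hz]; norm_num
  have haa : a * conj a = 1 := by rw [Complex.mul_conj, Complex.normSq_eq_norm_sq, ha]; norm_num
  have hbb : b * conj b = 1 := by rw [Complex.mul_conj, Complex.normSq_eq_norm_sq, hb]; norm_num
  have hαα : α * conj α = 1 := by rw [Complex.mul_conj, Complex.normSq_eq_norm_sq, hα]; norm_num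
  by_cases hza : z = a
  · rw [h1 hza]
    have : 1 - conj α * α = 0 := by rw [mul_comm, hαα]; ring
    simp [this]
  by_cases hzb : z = b
  · rw [h2 hzb]
    have : 1 - conj α * α = 0 := by rw [mul_comm, hαα]; ring
    simp [this]
  have hane : 1 - conj a * z ≠ 0 := by
    intro h
    apply hza
    have : a * (1 - conj a * z) = a - z := by rw [mul_sub, ← mul_assoc, haa]; ring
    rw [h, mul_zero] at this
    exact (sub_eq_zero.mp this.symm).symm
  have hbne : 1 - conj b * z ≠ 0 := by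
    intro h
    apply hzb
    have : b * (1 - conj b * z) = b - z := by rw [mul_sub, ← mul_assoc, hbb]; ring
    rw [h, mul_zero] at this
    exact (sub_eq_zero.mp this.symm).symm
  have hbne' : 1 - b * conj z ≠ 0 := by
    intro h
    apply hbne
    have := congrArg conj h
    simpa using this
  have habne : conj a - conj b ≠ 0 := by
    intro h
    apply hab
    have := congrArg conj (sub_eq_zero.mp h)
    simpa using this
  have hz0 : z ≠ 0 := by intro h; rw [h] at hz; simp at hz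
  have key2 : conj (1 - conj b * z) = - b * conj z * (1 - conj b * z) := by
    have : - b * conj z * (1 - conj b * z) = - b * conj z + (b * conj b) * (z * conj z) := by ring
    rw [this, hbb, hzz]
    simp only [map_sub, map_mul, map_one, Complex.conj_conj]
    ring
  have hb0 : b ≠ 0 := by intro h; rw [h] at hb; simp at hb
  have hcz0 : conj z ≠ 0 := by simpa using hz0
  have key3 : 1 / (- b * conj z) = - conj b * z := by
    rw [div_eq_iff (mul_ne_zero (neg_ne_zero.mpr hb0) hcz0)]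
    linear_combination (-1 : ℂ) * (conj z * z) * hbb - hzz
  rw [map_div₀, key2]
  generalize conj (1 - conj α * θ) = N' at *
  generalize 1 - conj α * θ = N at *
  have e1 : N / (1 - conj a * z) - N / (1 - conj b * z) =
      N * (conj a - conj b) * z / ((1 - conj a * z) * (1 - conj b * z)) := by
    rw [div_sub_div _ _ hane hbne]
    congr 1
    ring
  rw [e1]
  have e2 : N' / (- b * conj z * (1 - conj b * z)) =
      N' * (1 / (- b * conj z)) / (1 - conj b * z) := by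
    rw [mul_one_div, div_div]
  rw [e2, key3]
  field_simp

lemma scalar_identity {α wi wj a b : ℂ} (hα : ‖α‖ = 1) (hwi : ‖wi‖ = 1) (hwj : ‖wj‖ = 1)
    (hi : wi ^ 2 = α * conj b) (hj : wj ^ 2 = α * conj a) (hab : a ≠ b) :
    ∃ s : ℝ, s ≠ 0 ∧ (s : ℂ) * (wj * conj wi * (-conj b / (conj a - conj b))) = I := by
  have hαα : α * conj α = 1 := by rw [Complex.mul_conj, Complex.normSq_eq_norm_sq, hα]; norm_num
  have hii : wi * conj wi = 1 := by rw [Complex.mul_conj, Complex.normSq_eq_norm_sq, hwi]; norm_num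
  have hjj : wj * conj wj = 1 := by rw [Complex.mul_conj, Complex.normSq_eq_norm_sq, hwj]; norm_num
  have hα0 : α ≠ 0 := by intro h; rw [h] at hα; simp at hα
  have habne : conj a - conj b ≠ 0 := by
    intro h
    apply hab
    have := congrArg conj (sub_eq_zero.mp h)
    simpa using this
  have hs : ((2 * (wj * conj wi).im : ℝ) : ℂ) * I = wj * conj wi - conj wj * wi := by
    apply Complex.ext <;> simp <;> ring
  have h1 : (wi * wj) * (wj * conj wi - conj wj * wi) = α * (conj a - conj b) := by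
    linear_combination wj ^ 2 * hii - wi ^ 2 * hjj + hj - hi
  have hne : wj * conj wi - conj wj * wi ≠ 0 := by
    intro h
    rw [h, mul_zero] at h1
    exact (mul_ne_zero hα0 habne) h1.symm
  refine ⟨2 * (wj * conj wi).im, ?_, ?_⟩
  · intro h
    rw [h] at hs
    apply hne
    rw [← hs]
    simp
  · have hI : ((2 * (wj * conj wi).im : ℝ) : ℂ) = - I * (wj * conj wi - conj wj * wi) := by
      rw [← hs]
      linear_combination (((2 * (wj * conj wi).im : ℝ) : ℂ)) * Complex.I_sq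
    rw [hI]
    have h2 : wj * conj wi * (-conj b / (conj a - conj b)) = - (wi * wj) / (α * (conj a - conj b)) := by
      rw [mul_div_assoc', div_eq_div_iff habne (mul_ne_zero hα0 habne)]
      have : α * conj b * conj wi = wi := by
        rw [← hi]; linear_combination wi * hii
      linear_combination (- wj * (conj a - conj b)) * this
    rw [h2, ← h1]
    have hi0 : wi ≠ 0 := by intro h; rw [h] at hwi; simp at hwi
    have hj0 : wj ≠ 0 := by intro h; rw [h] at hwj; simp at hwj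
    field_simp

/-- the Clark kernel `(1 - conj α Θ)/(1 - conj ζ z)` as a function on the circle -/
noncomputable def clk (Θ : ℂ → ℂ) (α ζ : ℂ) (t : AddCircle (1 : ℝ)) : ℂ :=
  (1 - conj α * Θ (fourier 1 t)) / (1 - conj ζ * fourier 1 t)

/-- the factor `conj (1 - conj α Θ)` -/
noncomputable def fac (Θ : ℂ → ℂ) (α : ℂ) (t : AddCircle (1 : ℝ)) : ℂ :=
  conj (1 - conj α * Θ (fourier 1 t))

lemma clk_identity {Θ : ℂ → ℂ} {α a b : ℂ} (hα : ‖α‖ = 1) (ha : ‖a‖ = 1) (hb : ‖b‖ = 1)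
    (hab : a ≠ b) (h1 : Θ a = α) (h2 : Θ b = α) (t : AddCircle (1 : ℝ)) :
    clk Θ α a t * conj (clk Θ α b t) =
      (-conj b / (conj a - conj b)) * (clk Θ α a t - clk Θ α b t) * fac Θ α t := by
  exact kernel_identity (z := fourier 1 t) (θ := Θ (fourier 1 t)) hα (norm_fourier_one t)
      ha hb hab (fun h => by rw [h]; exact h1) (fun h => by rw [h]; exact h2)

lemma memLp_clk {Θ : ℂ → ℂ} {α ζ w : ℂ} {r : ℝ} (hr : 0 < r) (hw : ‖w‖ = 1) {e : Cir → ℂ}
    (h1 : MemLp e 2 haarAddCircle) (he : ∀ t, e t = r * w * clk Θ α ζ t) :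
    MemLp (clk Θ α ζ) 2 haarAddCircle := by
  have hw0 : w ≠ 0 := fun h => by rw [h] at hw; simp at hw
  have h2 : MemLp (fun t => ((r : ℂ) * w)⁻¹ * e t) 2 haarAddCircle := h1.const_mul _
  refine h2.ae_eq (Filter.Eventually.of_forall fun t => ?_)
  show ((r : ℂ) * w)⁻¹ * e t = clk Θ α ζ t
  rw [he t]
  have : (r : ℂ) * w ≠ 0 := mul_ne_zero (by exact_mod_cast hr.ne') hw0
  rw [← mul_assoc, inv_mul_cancel₀ this, one_mul]

lemma memLp_fac {Θ : ℂ → ℂ} {α : ℂ}
    (hΘ : MemLp (fun t : AddCircle (1 : ℝ) => Θ (fourier 1 t)) ∞ haarAddCircle) :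
    MemLp (fac Θ α) ∞ haarAddCircle := by
  have h1 : MemLp (fun t : AddCircle (1 : ℝ) => 1 - conj α * Θ (fourier 1 t)) ∞ haarAddCircle :=
    (memLp_const (1 : ℂ)).sub (hΘ.const_mul (conj α))
  exact h1.star

lemma integrable_clk {φ : AddCircle (1 : ℝ) → ℂ} (hφ : MemLp φ ∞ haarAddCircle)
    {P K : AddCircle (1 : ℝ) → ℂ} (hP : MemLp P ∞ haarAddCircle) (hK : MemLp K 2 haarAddCircle) :
    Integrable (fun t => φ t * K t * P t) haarAddCircle := by
  have h0 : MemLp (fun t => P t * φ t) ∞ haarAddCircle := MemLp.mul (r := ∞) hφ hP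
  have h1 : MemLp (fun t => K t * (P t * φ t)) 2 haarAddCircle := MemLp.mul (r := 2) h0 hK
  have h2 := h1.integrable (by norm_num)
  refine h2.congr (Filter.Eventually.of_forall fun t => ?_)
  show K t * (P t * φ t) = φ t * K t * P t
  ring

lemma inner_formula {Θ : ℂ → ℂ} {α a b wa wb : ℂ} {ra rb : ℝ} (hα : ‖α‖ = 1) (ha : ‖a‖ = 1)
    (hb : ‖b‖ = 1) (hab : a ≠ b) (h1 : Θ a = α) (h2 : Θ b = α)
    (hΘ : MemLp (fun t : AddCircle (1 : ℝ) => Θ (fourier 1 t)) ∞ haarAddCircle)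
    {φ : AddCircle (1 : ℝ) → ℂ} (hφ : MemLp φ ∞ haarAddCircle)
    (hra : 0 < ra) (hrb : 0 < rb) (hwa : ‖wa‖ = 1) (hwb : ‖wb‖ = 1) {ea eb : Cir → ℂ}
    (ma : MemLp ea 2 haarAddCircle) (mb : MemLp eb 2 haarAddCircle)
    (hea : ∀ t, ea t = ra * wa * clk Θ α a t)
    (heb : ∀ t, eb t = rb * wb * clk Θ α b t) :
    ip eb (fun t => φ t * ea t) =
      (rb * ra : ℂ) * (wa * conj wb * (-conj b / (conj a - conj b))) *
      ((∫ t, φ t * clk Θ α a t * fac Θ α t ∂haarAddCircle) -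
        ∫ t, φ t * clk Θ α b t * fac Θ α t ∂haarAddCircle) := by
  have ia := integrable_clk hφ (memLp_fac (α := α) hΘ) (memLp_clk hra hwa ma hea)
  have ib := integrable_clk hφ (memLp_fac (α := α) hΘ) (memLp_clk hrb hwb mb heb)
  rw [← integral_sub ia ib, ← integral_const_mul, ip]
  refine integral_congr_ae (Filter.Eventually.of_forall fun t => ?_)
  beta_reduce
  rw [hea t, heb t]
  have hid := clk_identity hα ha hb hab h1 h2 t
  generalize clk Θ α a t = ka at *
  generalize clk Θ α b t = kb at *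
  generalize fac Θ α t = P at *
  simp only [map_mul, Complex.conj_ofReal]
  have e2 : (rb * conj wb * conj kb) * (φ t * (ra * wa * ka)) =
      (rb * ra : ℂ) * (wa * conj wb) * φ t * (ka * conj kb) := by
    ring
  rw [e2, hid]
  ring

lemma ac_entries {n : ℕ} {Θ : ℂ → ℂ}
    (hΘ : MemLp (fun t : AddCircle (1 : ℝ) => Θ (fourier 1 t)) ∞ haarAddCircle)
    {φ : Cir → ℂ} (hφ : MemLp φ ∞ haarAddCircle)
    {A : (Cir → ℂ) → Cir → ℂ} (hA : IsTTO Θ φ A) {e : Fin n → Cir → ℂ}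
    (he : IsModifiedAC Θ e) :
    ∃ F : Fin n → ℂ, ∀ i j, i ≠ j → ∃ c : ℝ, c ≠ 0 ∧
      (c : ℂ) * ip (e i) (A (e j)) = I * (F j - F i) := by
  obtain ⟨α, ζ, w, r, hα, hζ, hinj, hval, hw, hform⟩ := he
  refine ⟨fun j => ∫ t, φ t * clk Θ α (ζ j) t * fac Θ α t ∂haarAddCircle, fun i j hij => ?_⟩
  obtain ⟨s, hs0, hs⟩ := scalar_identity hα (hw i).1 (hw j).1 (hw i).2 (hw j).2
    (fun h => hij (hinj h).symm)
  obtain ⟨hri, hKi, -, hei⟩ := hform i
  obtain ⟨hrj, hKj, -, hej⟩ := hform j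
  refine ⟨s * (r i * r j)⁻¹, mul_ne_zero hs0 (inv_ne_zero (mul_ne_zero hri.ne' hrj.ne')), ?_⟩
  have h1 := (hA _ hKj).2 _ hKi
  have h2 := inner_formula hα (hζ j) (hζ i) (fun h => hij (hinj h).symm) (hval j) (hval i)
    hΘ hφ hrj hri (hw j).1 (hw i).1 hKj.1.1 hKi.1.1 hej hei
  rw [h1, h2]
  have hri' : (r i : ℂ) ≠ 0 := by exact_mod_cast hri.ne'
  have hrj' : (r j : ℂ) ≠ 0 := by exact_mod_cast hrj.ne'
  push_cast
  generalize ((∫ t, φ t * clk Θ α (ζ j) t * fac Θ α t ∂haarAddCircle) -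
        ∫ t, φ t * clk Θ α (ζ i) t * fac Θ α t ∂haarAddCircle) = D
  calc (s : ℂ) * ((r i : ℂ) * r j)⁻¹ * ((r i * r j : ℂ) * (w j * conj (w i) *
        (-conj (ζ i) / (conj (ζ j) - conj (ζ i)))) * D)
      = (((r i : ℂ) * r j)⁻¹ * ((r i : ℂ) * r j)) * ((s : ℂ) * (w j * conj (w i) *
        (-conj (ζ i) / (conj (ζ j) - conj (ζ i))))) * D := by ring
    _ = I * D := by
      rw [inv_mul_cancel₀ (mul_ne_zero hri' hrj'), hs, one_mul]

/-- The Blaschke product is bounded on the circle. -/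
lemma memLp_blaschke {n : ℕ} {c : ℂ} {a : Fin n → ℂ} (ha : ∀ k, ‖a k‖ < 1) :
    MemLp (fun t : AddCircle (1 : ℝ) => blaschke c a (fourier 1 t)) ∞ haarAddCircle := by
  have hcont : Continuous fun t : AddCircle (1 : ℝ) => blaschke c a (fourier 1 t) := by
    unfold blaschke
    refine continuous_const.mul (continuous_finsetProd _ fun k _ => ?_)
    refine Continuous.div (by fun_prop) (by fun_prop) ?_
    intro t h
    have h1 : conj (a k) * fourier 1 t = 1 := (sub_eq_zero.mp h).symm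
    have h2 := congrArg (fun x : ℂ => ‖x‖) h1
    simp only [norm_mul, RCLike.norm_conj, norm_fourier_one, norm_one, mul_one] at h2
    exact (ha k).ne h2
  obtain ⟨C, hC⟩ := isCompact_univ.exists_bound_of_continuousOn hcont.continuousOn
  exact memLp_top_of_bound hcont.aestronglyMeasurable C
    (Filter.Eventually.of_forall fun t => hC t (Set.mem_univ t))

/-- The matrix of the counterexample. -/
def M : Matrix (Fin 3) (Fin 3) ℂ := !![0, 1, 2; 1, 0, I; 2, I, 0]

theorem not_AC : ¬ ∃ Θ e, IsBlaschke 3 Θ ∧ IsModifiedAC Θ e ∧ IsTTOMatrix Θ e M := by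
  rintro ⟨Θ, e, ⟨c, a, -, ha, rfl⟩, he, φ, A, hφ, hA, hM⟩
  obtain ⟨F, hF⟩ := ac_entries (memLp_blaschke ha) hφ hA he
  obtain ⟨c1, h1, e1⟩ := hF 0 1 (by decide)
  obtain ⟨c2, h2, e2⟩ := hF 1 2 (by decide)
  obtain ⟨c3, h3, e3⟩ := hF 2 0 (by decide)
  rw [hM] at e1 e2 e3
  simp only [M, Matrix.of_apply, Matrix.cons_val', Matrix.cons_val_zero, Matrix.cons_val_one,
    Matrix.cons_val_fin_one, Matrix.cons_val, Fin.isValue] at e1 e2 e3
  have : (c1 : ℂ) * 1 + c2 * I + c3 * 2 = 0 := by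
    rw [e1, e2, e3]; ring
  have him := congrArg Complex.im this
  simp at him
  exact h2 him

/-- `M` is irreducible: only the trivial subspaces reduce it. -/
lemma M_irred (V : Submodule ℂ (Fin 3 → ℂ)) (h1 : ∀ v ∈ V, Matrix.mulVec M v ∈ V)
    (h2 : ∀ v ∈ V, Matrix.mulVec M.conjTranspose v ∈ V) : V = ⊥ ∨ V = ⊤ := by
  have hM : ∀ v, Matrix.mulVec M v = ![v 1 + 2 * v 2, v 0 + I * v 2, 2 * v 0 + I * v 1] := by
    intro v
    funext i
    fin_cases i <;> simp [M, Matrix.mulVec, dotProduct, Fin.sum_univ_three]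
  have hMH : ∀ v, Matrix.mulVec M.conjTranspose v =
      ![v 1 + 2 * v 2, v 0 - I * v 2, 2 * v 0 - I * v 1] := by
    intro v
    funext i
    have c2 : (starRingEnd ℂ) 2 = 2 := Complex.conj_ofNat 2
    fin_cases i <;> simp [M, Matrix.mulVec, dotProduct, Fin.sum_univ_three,
      Matrix.conjTranspose_apply, c2] <;> ring
  -- the self-adjoint parts
  have hH : ∀ v ∈ V, (![v 1 + 2 * v 2, v 0, 2 * v 0] : Fin 3 → ℂ) ∈ V := by
    intro v hv
    have := V.smul_mem (2⁻¹ : ℂ) (V.add_mem (h1 v hv) (h2 v hv))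
    rw [hM, hMH] at this
    convert this using 1
    funext i
    fin_cases i <;> simp <;> ring
  have hG : ∀ v ∈ V, (![0, v 2, v 1] : Fin 3 → ℂ) ∈ V := by
    intro v hv
    have := V.smul_mem (- (I * 2⁻¹) : ℂ) (V.sub_mem (h1 v hv) (h2 v hv))
    rw [hM, hMH] at this
    convert this using 1
    funext i
    fin_cases i
    · simp
    · simp only [Fin.mk_one, Matrix.cons_val_one, Matrix.cons_val_zero, Pi.smul_apply,
        Pi.sub_apply, smul_eq_mul]
      linear_combination (v 2) * Complex.I_sq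
    · simp only [Fin.reduceFinMk, Matrix.cons_val, Pi.smul_apply,
        Pi.sub_apply, smul_eq_mul]
      linear_combination (v 1) * Complex.I_sq
  by_cases hbot : V = ⊥
  · exact Or.inl hbot
  right
  obtain ⟨v, hv, hv0⟩ := (Submodule.ne_bot_iff V).mp hbot
  -- the first basis vector lies in V
  have key : ∀ u ∈ V, u 0 ≠ 0 → (![1, 0, 0] : Fin 3 → ℂ) ∈ V := by
    intro u hu hu0
    have hG1 := hG u hu
    have hG2 := hG _ hG1
    have := V.smul_mem ((u 0)⁻¹) (V.sub_mem hu hG2)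
    convert this using 1
    funext i
    fin_cases i
    · show (1 : ℂ) = (u 0)⁻¹ * (u 0 - 0)
      rw [sub_zero, inv_mul_cancel₀ hu0]
    · show (0 : ℂ) = (u 0)⁻¹ * (u 1 - u 1)
      simp
    · show (0 : ℂ) = (u 0)⁻¹ * (u 2 - u 2)
      simp
  have e1 : (![1, 0, 0] : Fin 3 → ℂ) ∈ V := by
    by_cases h0 : v 0 = 0
    · by_cases hA : v 1 + 2 * v 2 = 0
      · by_cases hB : v 2 + 2 * v 1 = 0
        · exfalso
          apply hv0
          have hz1 : v 1 = 0 := by linear_combination (2 * hB - hA) / 3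
          have hz2 : v 2 = 0 := by linear_combination (2 * hA - hB) / 3
          funext i
          fin_cases i
          · exact h0
          · exact hz1
          · exact hz2
        · exact key _ (hH _ (hG v hv)) (by simpa using hB)
      · exact key _ (hH v hv) (by simpa using hA)
    · exact key v hv h0
  have e2 : (![0, 1, 2] : Fin 3 → ℂ) ∈ V := by
    have := hH _ e1
    simpa using this
  have e3 : (![0, 2, 1] : Fin 3 → ℂ) ∈ V := by
    have := hG _ e2
    simpa using this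
  rw [eq_top_iff]
  intro w _
  have : w = w 0 • ![1, 0, 0] + ((2 * w 2 - w 1) / 3) • ![0, 1, 2] +
      ((2 * w 1 - w 2) / 3) • ![0, 2, 1] := by
    funext i
    fin_cases i
    · simp
    · simp; ring
    · simp; ring
  rw [this]
  exact V.add_mem (V.add_mem (V.smul_mem _ e1) (V.smul_mem _ e2)) (V.smul_mem _ e3)

end Pool.Agent.R287.MAC
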