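import Pool.Agent.R287.MACa

open MeasureTheory Complex AddCircle
open scoped ComplexConjugate ENNReal

namespace Pool.Agent.R287.MAC

lemma sqrt2_sq : (√2 : ℂ) * √2 = 2 := by
  rw [← Complex.ofReal_mul, Real.mul_self_sqrt (by norm_num)]; norm_num

lemma inv_sqrt2_sq : (√2 : ℂ)⁻¹ * (√2 : ℂ)⁻¹ = 2⁻¹ := by
  rw [← mul_inv, sqrt2_sq]

lemma sqrt2_ne : (√2 : ℂ) ≠ 0 := by
  intro h
  have := sqrt2_sq
  rw [h] at this
  norm_num at this

lemma inv_mul_sqrt2 : (√2 : ℂ)⁻¹ * √2 = 1 := inv_mul_cancel₀ sqrt2_ne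

lemma conj_sqrt2_inv : conj ((√2 : ℂ)⁻¹) = (√2 : ℂ)⁻¹ := by
  rw [map_inv₀, Complex.conj_ofReal]


lemma int_fourier (k : ℤ) : ∫ t : Cir, (fourier k t : ℂ) ∂haarAddCircle = if k = 0 then 1 else 0 := by
  have h := orthonormal_iff_ite.mp (orthonormal_fourier (T := (1 : ℝ))) 0 k
  rw [ContinuousMap.inner_toLp (@haarAddCircle (1 : ℝ) _) (fourier 0) (fourier k)] at h
  simp only [fourier_zero, map_one, mul_one] at h
  rw [h]
  by_cases hk : k = 0
  · simp [hk]
  · simp [hk, Ne.symm hk]

lemma integrable_fourier (k : ℤ) : Integrable (fun t : Cir => (fourier k t : ℂ)) haarAddCircle :=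
  (fourier k).continuous.integrable_of_hasCompactSupport (HasCompactSupport.of_compactSpace _)

/-- the trigonometric polynomial `a0 + a1 z + a2 z²` -/
noncomputable def tri (a0 a1 a2 : ℂ) (t : Cir) : ℂ := a0 + a1 * fourier 1 t + a2 * fourier 2 t

lemma continuous_tri (a0 a1 a2 : ℂ) : Continuous (tri a0 a1 a2) := by
  unfold tri
  fun_prop

lemma memLp_of_cont {f : Cir → ℂ} (hf : Continuous f) (p : ℝ≥0∞) : MemLp f p haarAddCircle := by
  obtain ⟨C, hC⟩ := isCompact_univ.exists_bound_of_continuousOn hf.continuousOn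
  exact MemLp.of_bound hf.aestronglyMeasurable C
    (Filter.Eventually.of_forall fun t => hC t (Set.mem_univ t))

lemma coeff_tri (a0 a1 a2 : ℂ) (n : ℤ) : fourierCoeff (tri a0 a1 a2) n =
    a0 * (if n = 0 then 1 else 0) + a1 * (if n = 1 then 1 else 0) +
      a2 * (if n = 2 then 1 else 0) := by
  unfold fourierCoeff
  have h0 : ∀ t : Cir, (fourier (-n) t : ℂ) • tri a0 a1 a2 t =
      a0 * (fourier (-n) t : ℂ) + a1 * (fourier (-n + 1) t : ℂ) + a2 * (fourier (-n + 2) t : ℂ) := by
    intro t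
    rw [fourier_add, fourier_add, smul_eq_mul, tri]
    ring
  simp_rw [h0]
  have i0 := (integrable_fourier (-n)).const_mul a0
  have i1 := (integrable_fourier (-n + 1)).const_mul a1
  have i2 := (integrable_fourier (-n + 2)).const_mul a2
  have i01 : Integrable (fun t : Cir => a0 * (fourier (-n) t : ℂ) + a1 * (fourier (-n + 1) t : ℂ))
    haarAddCircle := i0.add i1
  rw [integral_add i01 i2, integral_add i0 i1, integral_const_mul, integral_const_mul,
    integral_const_mul, int_fourier, int_fourier, int_fourier]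
  have e0 : (-n = 0) ↔ n = 0 := by omega
  have e1 : (-n + 1 = 0) ↔ n = 1 := by omega
  have e2 : (-n + 2 = 0) ↔ n = 2 := by omega
  simp only [e0, e1, e2]

lemma integrable_fourier_mul {f : Cir → ℂ} (hf : MemLp f 2 haarAddCircle) (n : ℤ) :
    Integrable (fun t => (fourier n t : ℂ) * f t) haarAddCircle := by
  have h1 : MemLp (fun t : Cir => (fourier n t : ℂ)) ∞ haarAddCircle :=
    memLp_of_cont (fourier n).continuous _
  have h2 : MemLp (fun t => f t * (fourier n t : ℂ)) 2 haarAddCircle :=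
    MemLp.mul (r := 2) h1 hf
  refine (h2.integrable (by norm_num)).congr (Filter.Eventually.of_forall fun t => ?_)
  show f t * (fourier n t : ℂ) = (fourier n t : ℂ) * f t
  ring

lemma ip_tri (a0 a1 a2 : ℂ) {g : Cir → ℂ} (hg : MemLp g 2 haarAddCircle) :
    ip (tri a0 a1 a2) g =
      conj a0 * fourierCoeff g 0 + conj a1 * fourierCoeff g 1 + conj a2 * fourierCoeff g 2 := by
  unfold ip fourierCoeff
  simp only [smul_eq_mul]
  have i0 := (integrable_fourier_mul hg (-0)).const_mul (conj a0)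
  have i1 := (integrable_fourier_mul hg (-1)).const_mul (conj a1)
  have i2 := (integrable_fourier_mul hg (-2)).const_mul (conj a2)
  have i01 : Integrable (fun t => conj a0 * ((fourier (-0) t : ℂ) * g t) +
    conj a1 * ((fourier (-1) t : ℂ) * g t)) haarAddCircle := i0.add i1
  rw [← integral_const_mul, ← integral_const_mul, ← integral_const_mul, ← integral_add i0 i1,
    ← integral_add i01 i2]
  refine integral_congr_ae (Filter.Eventually.of_forall fun t => ?_)
  beta_reduce
  simp only [tri, map_add, map_mul, fourier_neg, neg_zero, fourier_zero]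
  ring

lemma ip_conj (f g : Cir → ℂ) : ip f g = conj (ip g f) := by
  unfold ip
  rw [← integral_conj]
  refine integral_congr_ae (Filter.Eventually.of_forall fun t => ?_)
  simp [mul_comm]

lemma ip_congr {f f' g g' : Cir → ℂ} (h1 : f =ᵐ[haarAddCircle] f') (h2 : g =ᵐ[haarAddCircle] g') :
    ip f g = ip f' g' := by
  unfold ip
  refine integral_congr_ae ?_
  filter_upwards [h1, h2] with t h1 h2
  rw [h1, h2]

/-- functions in `L²` with the same Fourier coefficients agree -/
lemma ae_eq_of_coeff {f g : Cir → ℂ} (hf : MemLp f 2 haarAddCircle) (hg : MemLp g 2 haarAddCircle)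
    (h : ∀ n : ℤ, fourierCoeff f n = fourierCoeff g n) : f =ᵐ[haarAddCircle] g := by
  have h1 : hf.toLp f = hg.toLp g := by
    apply (fourierBasis (T := (1 : ℝ))).repr.injective
    ext n
    rw [fourierBasis_repr, fourierBasis_repr, fourierCoeff_congr_ae hf.coeFn_toLp,
      fourierCoeff_congr_ae hg.coeFn_toLp, h n]
  exact (MemLp.toLp_eq_toLp_iff hf hg).mp h1

/-- the inner function `z³` -/
noncomputable abbrev Th : ℂ → ℂ := blaschke 1 (fun _ : Fin 3 => 0)

lemma Th_apply (z : ℂ) : Th z = z ^ 3 := by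
  simp [blaschke]

lemma coeff_shift (g : Cir → ℂ) (n : ℤ) :
    fourierCoeff (fun t : Cir => Th (fourier 1 t) * g t) n = fourierCoeff g (n - 3) := by
  unfold fourierCoeff
  refine integral_congr_ae (Filter.Eventually.of_forall fun t => ?_)
  beta_reduce
  rw [Th_apply]
  have : (fourier (-(n - 3)) t : ℂ) = fourier (-n) t * fourier 1 t ^ 3 := by
    have e : (-(n - 3) : ℤ) = -n + (1 + (1 + 1)) := by ring
    rw [e, fourier_add, fourier_add, fourier_add]
    ring
  rw [this, smul_eq_mul, smul_eq_mul]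
  ring

lemma memLp_shift {g : Cir → ℂ} (hg : MemLp g 2 haarAddCircle) :
    MemLp (fun t : Cir => Th (fourier 1 t) * g t) 2 haarAddCircle := by
  have hc : Continuous fun t : Cir => Th (fourier 1 t) := by
    simp only [Th_apply]
    fun_prop
  exact MemLp.mul (r := 2) hg (memLp_of_cont hc ∞)

lemma coeff_fourier (m n : ℤ) :
    fourierCoeff (fun t : Cir => (fourier m t : ℂ)) n = if n = m then 1 else 0 := by
  unfold fourierCoeff
  have : ∀ t : Cir, (fourier (-n) t : ℂ) • (fourier m t : ℂ) = fourier (-n + m) t := by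
    intro t; rw [fourier_add, smul_eq_mul]
  simp_rw [this]
  rw [int_fourier]
  have e : (-n + m = 0) ↔ n = m := by omega
  simp only [e]

lemma ip_fourier (n : ℤ) (f : Cir → ℂ) : ip (fun t : Cir => (fourier n t : ℂ)) f = fourierCoeff f n := by
  unfold ip fourierCoeff
  refine integral_congr_ae (Filter.Eventually.of_forall fun t => ?_)
  beta_reduce
  rw [fourier_neg, smul_eq_mul]

lemma inK_iff {f : Cir → ℂ} : InK Th f ↔
    MemLp f 2 haarAddCircle ∧ ∀ n : ℤ, (n < 0 ∨ 3 ≤ n) → fourierCoeff f n = 0 := by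
  constructor
  · rintro ⟨⟨h1, h2⟩, h3⟩
    refine ⟨h1, fun n hn => ?_⟩
    rcases hn with hn | hn
    · exact h2 n hn
    · have hg : InH2 (fun t : Cir => (fourier (n - 3) t : ℂ)) := by
        refine ⟨memLp_of_cont (fourier (n - 3)).continuous _, fun m hm => ?_⟩
        rw [coeff_fourier, if_neg (by omega)]
      have := h3 _ hg
      have e : (fun t : Cir => Th (fourier 1 t) * (fourier (n - 3) t : ℂ)) =
          fun t : Cir => (fourier n t : ℂ) := by
        funext t
        rw [Th_apply]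
        have e : n = (1 + (1 + 1)) + (n - 3) := by ring
        have e' : (fourier n t : ℂ) = fourier ((1 + (1 + 1)) + (n - 3)) t := by rw [← e]
        rw [e', fourier_add, fourier_add, fourier_add]
        ring
      rw [e, ip_fourier] at this
      exact this
  · rintro ⟨h1, h2⟩
    refine ⟨⟨h1, fun n hn => h2 n (Or.inl hn)⟩, fun g hg => ?_⟩
    have hf : f =ᵐ[haarAddCircle] tri (fourierCoeff f 0) (fourierCoeff f 1) (fourierCoeff f 2) := by
      refine ae_eq_of_coeff h1 (memLp_of_cont (continuous_tri _ _ _) _) fun n => ?_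
      rw [coeff_tri]
      by_cases h : n < 0 ∨ 3 ≤ n
      · rw [h2 n h, if_neg (by omega), if_neg (by omega), if_neg (by omega)]; ring
      · have : n = 0 ∨ n = 1 ∨ n = 2 := by omega
        rcases this with rfl | rfl | rfl <;> norm_num
    rw [ip_congr (Filter.EventuallyEq.refl _ _) hf, ip_conj, ip_tri _ _ _ (memLp_shift hg.1),
      coeff_shift, coeff_shift, coeff_shift, hg.2 _ (by norm_num), hg.2 _ (by norm_num),
      hg.2 _ (by norm_num)]
    simp

lemma expand {f : Cir → ℂ} (h : InK Th f) :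
    f =ᵐ[haarAddCircle] tri (fourierCoeff f 0) (fourierCoeff f 1) (fourierCoeff f 2) := by
  obtain ⟨h1, h2⟩ := inK_iff.mp h
  refine ae_eq_of_coeff h1 (memLp_of_cont (continuous_tri _ _ _) _) fun n => ?_
  rw [coeff_tri]
  by_cases h : n < 0 ∨ 3 ≤ n
  · rw [h2 n h, if_neg (by omega), if_neg (by omega), if_neg (by omega)]; ring
  · have : n = 0 ∨ n = 1 ∨ n = 2 := by omega
    rcases this with rfl | rfl | rfl <;> norm_num

lemma inK_tri (a0 a1 a2 : ℂ) : InK Th (tri a0 a1 a2) := by
  rw [inK_iff]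
  refine ⟨memLp_of_cont (continuous_tri _ _ _) _, fun n hn => ?_⟩
  rw [coeff_tri, if_neg (by omega), if_neg (by omega), if_neg (by omega)]; ring

/-- the symbol `√2 z - 2i z² + 2i z^{-2}` -/
noncomputable def sym (t : Cir) : ℂ :=
  (√2 : ℂ) * fourier 1 t - 2 * I * fourier 2 t + 2 * I * fourier (-2) t

lemma continuous_sym : Continuous sym := by
  unfold sym
  fun_prop

lemma coeff_sym {f : Cir → ℂ} (hf : MemLp f 2 haarAddCircle) (m : ℤ) :
    fourierCoeff (fun t => sym t * f t) m = √2 * fourierCoeff f (m - 1)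
      - 2 * I * fourierCoeff f (m - 2) + 2 * I * fourierCoeff f (m + 2) := by
  unfold fourierCoeff
  simp only [smul_eq_mul]
  have i1 := (integrable_fourier_mul hf (-(m - 1))).const_mul (√2 : ℂ)
  have i2 := (integrable_fourier_mul hf (-(m - 2))).const_mul (2 * I)
  have i3 := (integrable_fourier_mul hf (-(m + 2))).const_mul (2 * I)
  have i12 : Integrable (fun t => (√2 : ℂ) * ((fourier (-(m - 1)) t : ℂ) * f t) -
      2 * I * ((fourier (-(m - 2)) t : ℂ) * f t)) haarAddCircle := i1.sub i2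
  rw [← integral_const_mul, ← integral_const_mul, ← integral_const_mul,
    ← integral_sub i1 i2, ← integral_add i12 i3]
  refine integral_congr_ae (Filter.Eventually.of_forall fun t => ?_)
  beta_reduce
  unfold sym
  have e1 : (fourier (-(m - 1)) t : ℂ) = fourier (-m) t * fourier 1 t := by
    rw [show (-(m - 1) : ℤ) = -m + 1 by ring, fourier_add]
  have e2 : (fourier (-(m - 2)) t : ℂ) = fourier (-m) t * fourier 2 t := by
    rw [show (-(m - 2) : ℤ) = -m + 2 by ring, fourier_add]
  have e3 : (fourier (-(m + 2)) t : ℂ) = fourier (-m) t * fourier (-2) t := by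
    rw [show (-(m + 2) : ℤ) = -m + -2 by ring, fourier_add]
  rw [e1, e2, e3]
  ring

/-- the truncated Toeplitz operator -/
noncomputable def opA (f : Cir → ℂ) : Cir → ℂ :=
  tri (2 * I * fourierCoeff f 2) (√2 * fourierCoeff f 0)
    (√2 * fourierCoeff f 1 - 2 * I * fourierCoeff f 0)

lemma isTTO_opA : IsTTO Th sym opA := by
  intro f hf
  refine ⟨inK_tri _ _ _, fun g hg => ?_⟩
  obtain ⟨hf1, hf2⟩ := inK_iff.mp hf
  have hsf : MemLp (fun t => sym t * f t) 2 haarAddCircle :=
    MemLp.mul (r := 2) hf1 (memLp_of_cont continuous_sym ∞)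
  rw [ip_congr (expand hg) (Filter.EventuallyEq.refl _ _),
    ip_congr (expand hg) (Filter.EventuallyEq.refl _ (fun t => sym t * f t)),
    ip_tri _ _ _ hsf, opA, ip_tri _ _ _ (inK_tri _ _ _).1.1]
  rw [coeff_sym hf1, coeff_sym hf1, coeff_sym hf1, hf2 (0 - 1) (by norm_num),
    hf2 (0 - 2) (by norm_num), hf2 (1 - 2) (by norm_num), hf2 (1 + 2) (by norm_num),
    hf2 (2 + 2) (by norm_num)]
  rw [coeff_tri, coeff_tri, coeff_tri]
  norm_num

/-- the orthonormal basis in which the operator has matrix `M` -/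
noncomputable def bas : Fin 3 → Cir → ℂ :=
  ![tri ((√2 : ℂ)⁻¹) 0 ((√2 : ℂ)⁻¹), tri 0 1 0, tri (I * (√2 : ℂ)⁻¹) 0 (- (I * (√2 : ℂ)⁻¹))]

lemma ip_tri_tri (a0 a1 a2 b0 b1 b2 : ℂ) :
    ip (tri a0 a1 a2) (tri b0 b1 b2) = conj a0 * b0 + conj a1 * b1 + conj a2 * b2 := by
  rw [ip_tri _ _ _ (inK_tri _ _ _).1.1, coeff_tri, coeff_tri, coeff_tri]
  norm_num

lemma opA_tri (a0 a1 a2 : ℂ) : opA (tri a0 a1 a2) =
    tri (2 * I * a2) (√2 * a0) (√2 * a1 - 2 * I * a0) := by
  unfold opA
  rw [coeff_tri, coeff_tri, coeff_tri]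
  norm_num

lemma isONB_bas : IsONB Th bas := by
  refine ⟨?_, ?_, ?_⟩
  · intro i
    fin_cases i <;> exact inK_tri _ _ _
  · intro i j
    fin_cases i <;> fin_cases j <;>
    simp only [bas, Fin.isValue, Fin.zero_eta, Fin.mk_one, Fin.reduceFinMk, Matrix.cons_val_zero,
      Matrix.cons_val_one, Matrix.cons_val, ip_tri_tri, conj_sqrt2_inv, map_mul, map_neg, map_one,
      map_zero, Complex.conj_I, reduceIte, Fin.reduceEq]
    · linear_combination 2 * inv_sqrt2_sq
    · ring
    · ring
    · ring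
    · ring
    · ring
    · ring
    · ring
    · linear_combination 2 * inv_sqrt2_sq - 2 * (√2 : ℂ)⁻¹ * (√2 : ℂ)⁻¹ * Complex.I_sq
  · intro f hf hi
    have h0 := hi 0
    have h1 := hi 1
    have h2 := hi 2
    simp only [bas, Fin.isValue, Matrix.cons_val_zero, Matrix.cons_val_one, Matrix.cons_val,
      ip_tri _ _ _ hf.1.1, conj_sqrt2_inv, map_mul, map_neg, map_one, map_zero,
      Complex.conj_I] at h0 h1 h2
    have k1 : fourierCoeff f 1 = 0 := by linear_combination h1
    have k0 : fourierCoeff f 0 = 0 := by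
      linear_combination (√2 / 2 : ℂ) * h0 + (I * √2 / 2) * h2 - fourierCoeff f 0 * inv_mul_sqrt2
        + ((√2 : ℂ)⁻¹ * √2 / 2) * (fourierCoeff f 0 - fourierCoeff f 2) * Complex.I_sq
    have k2 : fourierCoeff f 2 = 0 := by
      linear_combination (√2 / 2 : ℂ) * h0 - (I * √2 / 2) * h2 - fourierCoeff f 2 * inv_mul_sqrt2
        - ((√2 : ℂ)⁻¹ * √2 / 2) * (fourierCoeff f 0 - fourierCoeff f 2) * Complex.I_sq
    have := expand hf
    rw [k0, k1, k2] at this
    refine this.trans (Filter.Eventually.of_forall fun t => ?_)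
    simp [tri]

lemma matrix_opA (i j : Fin 3) : ip (bas i) (opA (bas j)) = M i j := by
  fin_cases i <;> fin_cases j <;>
    simp only [bas, M, opA_tri, ip_tri_tri, Fin.isValue, Fin.zero_eta, Fin.mk_one, Fin.reduceFinMk,
      Matrix.cons_val_zero, Matrix.cons_val_one, Matrix.cons_val, conj_sqrt2_inv, map_mul, map_neg,
      map_one, map_zero, Complex.conj_I, Matrix.of_apply, Matrix.cons_val',
      Matrix.cons_val_fin_one]
  · ring
  · linear_combination inv_mul_sqrt2
  · linear_combination - 4 * I^2 * inv_sqrt2_sq - 2 * Complex.I_sq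
  · linear_combination inv_mul_sqrt2
  · ring
  · linear_combination I * inv_mul_sqrt2
  · linear_combination - 4 * I^2 * inv_sqrt2_sq - 2 * Complex.I_sq
  · linear_combination I * inv_mul_sqrt2
  · ring

end Pool.Agent.R287.MAC
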