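import Mathlib

/-! Finite matroids by rank functions, minors, entropic functions, the class `M'`. -/

set_option autoImplicit false

namespace Pool.Agent.R287.MT

/-- A finite matroid on the ground set `E`, given by its rank function (axioms (R1')-(R3') of
Oxley's book). -/
structure RMatroid (E : Type) [Fintype E] [DecidableEq E] where
  r : Finset E → ℕ
  r_empty : r ∅ = 0
  r_insert : ∀ (A : Finset E) (x : E), r A ≤ r (insert x A) ∧ r (insert x A) ≤ r A + 1
  r_insert_insert : ∀ (A : Finset E) (x y : E), r (insert x A) = r A → r (insert y A) = r A →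
    r (insert x (insert y A)) = r A

/-- `N` is isomorphic to a minor `(M / T) | S` of `M`. -/
def IsMinor {E' E : Type} [Fintype E'] [DecidableEq E'] [Fintype E] [DecidableEq E]
    (N : RMatroid E') (M : RMatroid E) : Prop :=
  ∃ (ι : E' ↪ E) (T : Finset E), (∀ i, ι i ∉ T) ∧
    ∀ A : Finset E', N.r A + M.r T = M.r (A.map ι ∪ T)

/-- Isomorphism of matroids. -/
def Iso {E' E : Type} [Fintype E'] [DecidableEq E'] [Fintype E] [DecidableEq E]
    (N : RMatroid E') (M : RMatroid E) : Prop :=
  ∃ e : E' ≃ E, ∀ A : Finset E', N.r A = M.r (A.map e.toEmbedding)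

/-- The seven lines of the Fano plane. -/
def fanoLines : List (Finset (Fin 7)) :=
  [{0, 1, 3}, {0, 2, 4}, {1, 2, 5}, {0, 5, 6}, {1, 4, 6}, {2, 3, 6}, {3, 4, 5}]

/-- The six lines of the non-Fano matroid. -/
def nonFanoLines : List (Finset (Fin 7)) :=
  [{0, 1, 3}, {0, 2, 4}, {1, 2, 5}, {0, 5, 6}, {1, 4, 6}, {2, 3, 6}]

/-- Rank 3 rank function with the given three point lines. -/
def lineRank (L : List (Finset (Fin 7))) (A : Finset (Fin 7)) : ℕ :=
  if A.card ≤ 2 then A.card else if A ∈ L then 2 else 3

/-- The uniform matroid `U_{2,5}`. -/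
def U25 : RMatroid (Fin 5) where
  r A := min A.card 2
  r_empty := rfl
  r_insert := by decide +kernel
  r_insert_insert := by decide +kernel

/-- The uniform matroid `U_{3,5}`. -/
def U35 : RMatroid (Fin 5) where
  r A := min A.card 3
  r_empty := rfl
  r_insert := by decide +kernel
  r_insert_insert := by decide +kernel

/-- The Fano matroid. -/
def F7 : RMatroid (Fin 7) where
  r := lineRank fanoLines
  r_empty := rfl
  r_insert := by decide +kernel
  r_insert_insert := by decide +kernel

/-- The dual of the Fano matroid. -/
def F7dual : RMatroid (Fin 7) where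
  r A := A.card + lineRank fanoLines Aᶜ - 3
  r_empty := by decide +kernel
  r_insert := by decide +kernel
  r_insert_insert := by decide +kernel

/-- The non-Fano matroid. -/
def F7m : RMatroid (Fin 7) where
  r := lineRank nonFanoLines
  r_empty := rfl
  r_insert := by decide +kernel
  r_insert_insert := by decide +kernel

end Pool.Agent.R287.MT
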