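import Mathlib
import Pool.Agent.R287.MTa

/-! The non-Fano matroid has no multilinear-type representation of order 4. -/

set_option autoImplicit false

namespace Pool.Agent.R287.MT

theorem no_loop {V : Type} [Fintype V] (z : V) (hcard : 2 ∣ Fintype.card V)
    (f g h : V → V → V) (k : V → V → V → V)
    (f0 : ∀ a, f a z = a) (f0' : ∀ b, f z b = b) (g0 : ∀ a, g a z = a) (g0' : ∀ c, g z c = c)
    (h0 : ∀ b, h b z = b) (h0' : ∀ c, h z c = c)
    (k0 : ∀ a, k a z z = a) (k1 : ∀ b, k z b z = b) (k2 : ∀ c, k z z c = c)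
    (ka : ∀ a b c b' c', h b c = h b' c' → k a b c = k a b' c')
    (kb : ∀ b a c a' c', g a c = g a' c' → k a b c = k a' b c')
    (kc : ∀ c a b a' b', f a b = f a' b' → k a b c = k a' b' c)
    (cancel : ∀ a b b', f a b = f a b' → b = b')
    (inj : ∀ a b c a' b' c', f a b = f a' b' → g a c = g a' c' → h b c = h b' c' → a = a') :
    False := by
  have hfk : ∀ a b, k a b z = f a b := fun a b => by
    rw [kc z a b (f a b) z (f0 _).symm, k0]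
  have hgk : ∀ a c, k a z c = g a c := fun a c => by
    rw [kb z a c (g a c) z (g0 _).symm, k0]
  have e1 : ∀ a b c, k a b c = f a (h b c) := fun a b c => by
    rw [ka a b c (h b c) z (h0 _).symm, hfk]
  have e2 : ∀ a b c, k a b c = g a (h b c) := fun a b c => by
    rw [ka a b c z (h b c) (h0' _).symm, hgk]
  have hfg : ∀ a b, f a b = g a b := fun a b => by
    have h1 := e1 a b z
    have h2 := e2 a b z
    rw [h0] at h1 h2
    rw [← h1, ← h2]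
  have e3 : ∀ a b c, k a b c = g (f a b) c := fun a b c => by
    rw [kc c a b (f a b) z (f0 _).symm, hgk]
  have hhk : ∀ b c, k z b c = h b c := fun b c => by
    rw [ka z b c (h b c) z (h0 _).symm, k1]
  have e4 : ∀ a b c, k a b c = h (f a b) c := fun a b c => by
    rw [kc c a b z (f a b) (f0' _).symm, hhk]
  have hgh : ∀ a c, g a c = h a c := fun a c => by
    have h1 := e3 a z c
    have h2 := e4 a z c
    rw [f0] at h1 h2
    rw [← h1, ← h2]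
  have assoc : ∀ a b c, f (f a b) c = f a (f b c) := fun a b c => by
    rw [hfg (f a b) c, ← e3, e1, ← hgh, ← hfg]
  have hsurj : ∀ a, ∃ b, f b a = z := by
    -- right inverses exist; in a monoid with left cancellation they are also left inverses
    have hr : ∀ a, ∃ b, f a b = z := by
      intro a
      have hi : Function.Injective (f a) := fun b b' hbb => cancel a b b' hbb
      exact (Finite.injective_iff_surjective.1 hi) z
    intro a
    obtain ⟨b, hb⟩ := hr a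
    refine ⟨b, cancel a _ _ ?_⟩
    rw [← assoc, hb, f0', f0]
  choose iv hiv using hsurj
  letI : Mul V := ⟨f⟩
  letI : Inv V := ⟨iv⟩
  letI : One V := ⟨z⟩
  letI : Group V := Group.ofLeftAxioms (fun a b c => assoc a b c) (fun a => f0' a) (fun a => hiv a)
  haveI : Fact (Nat.Prime 2) := ⟨Nat.prime_two⟩
  obtain ⟨t, ht⟩ := exists_prime_orderOf_dvd_card 2 hcard
  have ht2 : t * t = 1 := by
    have := pow_orderOf_eq_one t
    rwa [ht, sq] at this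
  have htne : t ≠ 1 := by
    intro h1
    rw [h1, orderOf_one] at ht
    norm_num at ht
  have htt : f t t = z := ht2
  apply htne
  show t = z
  refine inj t t t z z z ?_ ?_ ?_
  · rw [htt, f0]
  · rw [← hfg, ← hfg, htt, f0]
  · rw [← hgh, ← hgh, ← hfg, ← hfg, htt, f0]

theorem no_support {α : Type} (S : Set (Fin 7 → α)) (o : Fin 7 → α) (ho : o ∈ S)
    (hline : ∀ a b c : Fin 7, ({a, b, c} : Finset (Fin 7)) ∈ nonFanoLines → a ≠ b →
      ∀ x ∈ S, ∀ y ∈ S, x a = y a → x b = y b → x c = y c)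
    (hbasis : ∀ a b c : Fin 7, lineRank nonFanoLines {a, b, c} = 3 →
      ∀ x ∈ S, ∀ y ∈ S, x a = y a → x b = y b → x c = y c → x = y)
    (hrect : ∀ a b c : Fin 7, lineRank nonFanoLines {a, b, c} = 3 →
      ∀ x ∈ S, ∀ y ∈ S, ∀ w ∈ S, ∃ u ∈ S, u a = x a ∧ u b = y b ∧ u c = w c)
    (W : Finset α) (hW : ∀ a, a ∈ W ↔ ∃ x ∈ S, x 0 = a) (hcard : 2 ∣ W.card) : False := by
  classical
  have b012 : lineRank nonFanoLines {0, 1, 2} = 3 := by decide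
  have b023 : lineRank nonFanoLines {0, 2, 3} = 3 := by decide
  have b014 : lineRank nonFanoLines {0, 1, 4} = 3 := by decide
  have b123 : lineRank nonFanoLines {1, 2, 3} = 3 := by decide
  have b124 : lineRank nonFanoLines {1, 2, 4} = 3 := by decide
  have b126 : lineRank nonFanoLines {1, 2, 6} = 3 := by decide
  have b025 : lineRank nonFanoLines {0, 2, 5} = 3 := by decide
  have b345 : lineRank nonFanoLines {3, 4, 5} = 3 := by decide
  have hP : ∀ a : W, ∃ u ∈ S, u 0 = a ∧ u 1 = o 1 ∧ u 2 = o 2 := by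
    intro a
    obtain ⟨x, hx, hxa⟩ := (hW a).1 a.2
    obtain ⟨u, hu, h0, h1, h2⟩ := hrect 0 1 2 b012 x hx o ho o ho
    exact ⟨u, hu, h0.trans hxa, h1, h2⟩
  choose P hPS hP0 hP1 hP2 using hP
  have hQ : ∀ b : W, ∃ u ∈ S, u 0 = o 0 ∧ u 2 = o 2 ∧ u 3 = P b 3 := fun b =>
    hrect 0 2 3 b023 o ho o ho (P b) (hPS b)
  choose Q hQS hQ0 hQ2 hQ3 using hQ
  have hR : ∀ c : W, ∃ u ∈ S, u 0 = o 0 ∧ u 1 = o 1 ∧ u 4 = P c 4 := fun c =>
    hrect 0 1 4 b014 o ho o ho (P c) (hPS c)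
  choose R hRS hR0 hR1 hR4 using hR
  have hF : ∀ a b c : W, ∃ u ∈ S, u 0 = a ∧ u 1 = Q b 1 ∧ u 2 = R c 2 := by
    intro a b c
    obtain ⟨u, hu, h0, h1, h2⟩ := hrect 0 1 2 b012 (P a) (hPS a) (Q b) (hQS b) (R c) (hRS c)
    exact ⟨u, hu, h0.trans (hP0 a), h1, h2⟩
  choose F hFS hF0 hF1 hF2 using hF
  have L012 : ∀ x ∈ S, ∀ y ∈ S, x 0 = y 0 → x 1 = y 1 → x 3 = y 3 :=
    hline 0 1 3 (by decide) (by decide)
  have L310 : ∀ x ∈ S, ∀ y ∈ S, x 0 = y 0 → x 3 = y 3 → x 1 = y 1 :=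
    hline 0 3 1 (by decide) (by decide)
  have L024 : ∀ x ∈ S, ∀ y ∈ S, x 0 = y 0 → x 2 = y 2 → x 4 = y 4 :=
    hline 0 2 4 (by decide) (by decide)
  have L125 : ∀ x ∈ S, ∀ y ∈ S, x 1 = y 1 → x 2 = y 2 → x 5 = y 5 :=
    hline 1 2 5 (by decide) (by decide)
  have L056 : ∀ x ∈ S, ∀ y ∈ S, x 0 = y 0 → x 5 = y 5 → x 6 = y 6 :=
    hline 0 5 6 (by decide) (by decide)
  have L065 : ∀ x ∈ S, ∀ y ∈ S, x 0 = y 0 → x 6 = y 6 → x 5 = y 5 :=
    hline 0 6 5 (by decide) (by decide)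
  have L146 : ∀ x ∈ S, ∀ y ∈ S, x 1 = y 1 → x 4 = y 4 → x 6 = y 6 :=
    hline 1 4 6 (by decide) (by decide)
  have L236 : ∀ x ∈ S, ∀ y ∈ S, x 2 = y 2 → x 3 = y 3 → x 6 = y 6 :=
    hline 2 3 6 (by decide) (by decide)
  -- injectivity
  have iP : ∀ a a' : W, P a = P a' → a = a' := fun a a' h => by
    apply Subtype.ext
    rw [← hP0 a, ← hP0 a', h]
  have iP3 : ∀ a a' : W, P a 3 = P a' 3 → a = a' := fun a a' h =>
    iP _ _ (hbasis 1 2 3 b123 _ (hPS a) _ (hPS a') (by rw [hP1, hP1]) (by rw [hP2, hP2]) h)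
  have iP4 : ∀ a a' : W, P a 4 = P a' 4 → a = a' := fun a a' h =>
    iP _ _ (hbasis 1 2 4 b124 _ (hPS a) _ (hPS a') (by rw [hP1, hP1]) (by rw [hP2, hP2]) h)
  have iP6 : ∀ a a' : W, P a 6 = P a' 6 → a = a' := fun a a' h =>
    iP _ _ (hbasis 1 2 6 b126 _ (hPS a) _ (hPS a') (by rw [hP1, hP1]) (by rw [hP2, hP2]) h)
  have iQ5 : ∀ a a' : W, Q a 5 = Q a' 5 → a = a' := fun a a' h => by
    have h1 : Q a = Q a' :=
      hbasis 0 2 5 b025 _ (hQS a) _ (hQS a') (by rw [hQ0, hQ0]) (by rw [hQ2, hQ2]) h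
    apply iP3
    rw [← hQ3, ← hQ3, h1]
  -- surjectivity
  have memW : ∀ x ∈ S, x 0 ∈ W := fun x hx => (hW _).2 ⟨x, hx, rfl⟩
  have toP : ∀ u ∈ S, u 1 = o 1 → u 2 = o 2 → ∃ a : W, P a = u := by
    intro u hu h1 h2
    refine ⟨⟨u 0, memW u hu⟩, hbasis 0 1 2 b012 _ (hPS _) _ hu (hP0 _) ?_ ?_⟩
    · rw [hP1, h1]
    · rw [hP2, h2]
  have s3 : ∀ x ∈ S, ∃ a : W, P a 3 = x 3 := by
    intro x hx
    obtain ⟨u, hu, h1, h2, h3⟩ := hrect 1 2 3 b123 o ho o ho x hx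
    obtain ⟨a, ha⟩ := toP u hu h1 h2
    exact ⟨a, by rw [ha, h3]⟩
  have s4 : ∀ x ∈ S, ∃ a : W, P a 4 = x 4 := by
    intro x hx
    obtain ⟨u, hu, h1, h2, h3⟩ := hrect 1 2 4 b124 o ho o ho x hx
    obtain ⟨a, ha⟩ := toP u hu h1 h2
    exact ⟨a, by rw [ha, h3]⟩
  have s6 : ∀ x ∈ S, ∃ a : W, P a 6 = x 6 := by
    intro x hx
    obtain ⟨u, hu, h1, h2, h3⟩ := hrect 1 2 6 b126 o ho o ho x hx
    obtain ⟨a, ha⟩ := toP u hu h1 h2
    exact ⟨a, by rw [ha, h3]⟩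
  have s5 : ∀ x ∈ S, ∃ a : W, Q a 5 = x 5 := by
    intro x hx
    obtain ⟨u, hu, h1, h2, h3⟩ := hrect 0 2 5 b025 o ho o ho x hx
    obtain ⟨a, ha⟩ := s3 u hu
    have : Q a = u := hbasis 0 2 3 b023 _ (hQS a) _ hu (by rw [hQ0, h1]) (by rw [hQ2, h2])
      (by rw [hQ3, ha])
    exact ⟨a, by rw [this, h3]⟩
  set z : W := ⟨o 0, memW o ho⟩ with hz
  have Pz : P z = o := hbasis 0 1 2 b012 _ (hPS z) _ ho (hP0 z) (hP1 z) (hP2 z)
  have Qz : Q z = o := hbasis 0 2 3 b023 _ (hQS z) _ ho (hQ0 z) (hQ2 z) (by rw [hQ3, Pz])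
  have Rz : R z = o := hbasis 0 1 4 b014 _ (hRS z) _ ho (hR0 z) (hR1 z) (by rw [hR4, Pz])
  have Fa : ∀ a, F a z z = P a := fun a =>
    hbasis 0 1 2 b012 _ (hFS _ _ _) _ (hPS a) (by rw [hF0, hP0]) (by rw [hF1, Qz, hP1])
      (by rw [hF2, Rz, hP2])
  have Fb : ∀ b, F z b z = Q b := fun b =>
    hbasis 0 1 2 b012 _ (hFS _ _ _) _ (hQS b) (by rw [hF0, hQ0]) (by rw [hF1])
      (by rw [hF2, Rz, hQ2])
  have Fc : ∀ c, F z z c = R c := fun c =>
    hbasis 0 1 2 b012 _ (hFS _ _ _) _ (hRS c) (by rw [hF0, hR0]) (by rw [hF1, Qz, hR1])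
      (by rw [hF2])
  have hf : ∀ a b : W, ∃ d : W, ∀ c, P d 3 = F a b c 3 := by
    intro a b
    obtain ⟨d, hd⟩ := s3 _ (hFS a b z)
    refine ⟨d, fun c => hd.trans (L012 _ (hFS _ _ _) _ (hFS _ _ _) ?_ ?_)⟩
    · rw [hF0, hF0]
    · rw [hF1, hF1]
  choose f hf using hf
  have hg : ∀ a c : W, ∃ d : W, ∀ b, P d 4 = F a b c 4 := by
    intro a c
    obtain ⟨d, hd⟩ := s4 _ (hFS a z c)
    refine ⟨d, fun b => hd.trans (L024 _ (hFS _ _ _) _ (hFS _ _ _) ?_ ?_)⟩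
    · rw [hF0, hF0]
    · rw [hF2, hF2]
  choose g hg using hg
  have hh : ∀ b c : W, ∃ d : W, ∀ a, Q d 5 = F a b c 5 := by
    intro b c
    obtain ⟨d, hd⟩ := s5 _ (hFS z b c)
    refine ⟨d, fun a => hd.trans (L125 _ (hFS _ _ _) _ (hFS _ _ _) ?_ ?_)⟩
    · rw [hF1, hF1]
    · rw [hF2, hF2]
  choose h hh using hh
  have hk : ∀ a b c : W, ∃ d : W, P d 6 = F a b c 6 := fun a b c => s6 _ (hFS a b c)
  choose k hk using hk
  have Q6 : ∀ b, Q b 6 = P b 6 := fun b =>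
    L236 _ (hQS b) _ (hPS b) (by rw [hQ2, hP2]) (hQ3 b)
  have R6 : ∀ c, R c 6 = P c 6 := fun c =>
    L146 _ (hRS c) _ (hPS c) (by rw [hR1, hP1]) (hR4 c)
  have R5 : ∀ c, R c 5 = Q c 5 := fun c =>
    L065 _ (hRS c) _ (hQS c) (by rw [hR0, hQ0]) (by rw [R6, Q6])
  refine no_loop z (by rwa [Fintype.card_coe]) f g h k ?_ ?_ ?_ ?_ ?_ ?_ ?_ ?_ ?_ ?_ ?_ ?_ ?_ ?_
  · intro a
    exact iP3 _ _ (by rw [hf a z z, Fa])
  · intro b
    exact iP3 _ _ (by rw [hf z b z, Fb, hQ3])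
  · intro a
    exact iP4 _ _ (by rw [hg a z z, Fa])
  · intro c
    exact iP4 _ _ (by rw [hg z c z, Fc, hR4])
  · intro b
    exact iQ5 _ _ (by rw [hh b z z, Fb])
  · intro c
    exact iQ5 _ _ (by rw [hh z c z, Fc, R5])
  · intro a
    exact iP6 _ _ (by rw [hk, Fa])
  · intro b
    exact iP6 _ _ (by rw [hk, Fb, Q6])
  · intro c
    exact iP6 _ _ (by rw [hk, Fc, R6])
  · intro a b c b' c' hbc
    refine iP6 _ _ ?_
    rw [hk, hk]
    refine L056 _ (hFS _ _ _) _ (hFS _ _ _) (by rw [hF0, hF0]) ?_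
    rw [← hh b c a, ← hh b' c' a, hbc]
  · intro b a c a' c' hac
    refine iP6 _ _ ?_
    rw [hk, hk]
    refine L146 _ (hFS _ _ _) _ (hFS _ _ _) (by rw [hF1, hF1]) ?_
    rw [← hg a c b, ← hg a' c' b, hac]
  · intro c a b a' b' hab
    refine iP6 _ _ ?_
    rw [hk, hk]
    refine L236 _ (hFS _ _ _) _ (hFS _ _ _) (by rw [hF2, hF2]) ?_
    rw [← hf a b c, ← hf a' b' c, hab]
  · intro a b b' hbb
    have h1 : F a b z 3 = F a b' z 3 := by rw [← hf a b z, ← hf a b' z, hbb]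
    have h2 := L310 _ (hFS a b z) _ (hFS a b' z) (by rw [hF0, hF0]) h1
    rw [hF1, hF1] at h2
    have h3 : Q b = Q b' :=
      hbasis 0 1 2 b012 _ (hQS b) _ (hQS b') (by rw [hQ0, hQ0]) h2 (by rw [hQ2, hQ2])
    apply iP3
    rw [← hQ3, ← hQ3, h3]
  · intro a b c a' b' c' h1 h2 h3
    have h4 : F a b c = F a' b' c' :=
      hbasis 3 4 5 b345 _ (hFS _ _ _) _ (hFS _ _ _)
        (by rw [← hf a b c, ← hf a' b' c', h1]) (by rw [← hg a c b, ← hg a' c' b', h2])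
        (by rw [← hh b c a, ← hh b' c' a', h3])
    apply Subtype.ext
    rw [← hF0 a b c, ← hF0 a' b' c', h4]

end Pool.Agent.R287.MT
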