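import Mathlib
import Pool.Agent.R287.MTa

/-! Entropy functions of discrete random vectors, p-characteristic sets, regular matroids, the
class `M'` and its excluded minors. -/

set_option autoImplicit false

open scoped ENNReal

namespace Pool.Agent.R287.MT

/-- The law of `X_A = (X_i)_{i ∈ A}`, where `p` is the law of the discrete random vector
`X = (X_i)_{i ∈ E}` with values in `α`. -/
noncomputable def marg {E α : Type} (p : PMF (E → α)) (A : Finset E) : PMF (A → α) :=
  p.map fun x i => x i

/-- The Shannon entropy `H(X_A)`, an element of `[0, ∞]` (natural logarithm). -/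
noncomputable def entropy {E α : Type} (p : PMF (E → α)) (A : Finset E) : ℝ≥0∞ :=
  ∑' a : A → α, ENNReal.ofReal (Real.negMulLog (marg p A a).toReal)

/-- `h` is the entropy function of a discrete random vector `(X_i)_{i ∈ E}`; when `fin` holds, the
alphabet has to be finite (otherwise it is arbitrary). -/
def IsEntropic (fin : Prop) {E : Type} [Fintype E] [DecidableEq E] (h : Finset E → ℝ) : Prop :=
  ∃ (α : Type) (p : PMF (E → α)), (fin → Finite α) ∧
    ∀ A, 0 ≤ h A ∧ entropy p A = ENNReal.ofReal (h A)

/-- The p-characteristic set of `M`. -/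
def chi (fin : Prop) {E : Type} [Fintype E] [DecidableEq E] (M : RMatroid E) : Set ℕ :=
  {v | 2 ≤ v ∧ IsEntropic fin fun A => Real.log v * M.r A}

/-- `M` is representable over the field `F`. -/
def Representable (F : Type) [Field F] {E : Type} [Fintype E] [DecidableEq E]
    (M : RMatroid E) : Prop :=
  ∃ (n : ℕ) (φ : E → Fin n → F), ∀ A : Finset E, M.r A = Set.finrank F (φ '' (A : Set E))

/-- `M` is regular: representable over every field. -/
def Regular {E : Type} [Fintype E] [DecidableEq E] (M : RMatroid E) : Prop :=
  ∀ (F : Type) [Field F], Representable F M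

/-- `M` belongs to the class `M'`: it is regular or its p-characteristic set is
`{v : v ≥ 3, v ≠ 6}`. -/
def InM' (fin : Prop) {E : Type} [Fintype E] [DecidableEq E] (M : RMatroid E) : Prop :=
  Regular M ∨ chi fin M = {v | 3 ≤ v ∧ v ≠ 6}

/-- `N` is an excluded minor of the class `M'`: it is not in the class and all its minors on
smaller ground sets are. -/
def IsExcludedMinor (fin : Prop) {E : Type} [Fintype E] [DecidableEq E] (N : RMatroid E) : Prop :=
  ¬ InM' fin N ∧ ∀ (E' : Type) [Fintype E'] [DecidableEq E'] (N' : RMatroid E'),
    IsMinor N' N → Fintype.card E' < Fintype.card E → InM' fin N'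

end Pool.Agent.R287.MT
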