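import Mathlib
import Pool.Agent.R287.MTg

/-! Entropy of discrete random vectors: functional dependence and independence. -/

set_option autoImplicit false

open scoped ENNReal

namespace Pool.Agent.R287.MT

variable {E : Type} [Fintype E] [DecidableEq E] {α : Type}

/-- `P(X_A = x_A)`. -/
noncomputable def PA (p : PMF (E → α)) (A : Finset E) (x : E → α) : ℝ≥0∞ :=
  marg p A (fun i : A => x i)

/-- `- log t`. -/
noncomputable def L (t : ℝ≥0∞) : ℝ≥0∞ := ENNReal.ofReal (-Real.log t.toReal)

open Classical in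
theorem PA_eq (p : PMF (E → α)) (A : Finset E) (x : E → α) :
    PA p A x = ∑' y : E → α, if (∀ i ∈ A, y i = x i) then p y else 0 := by
  unfold PA marg
  rw [PMF.map_apply]
  refine tsum_congr fun y => ?_
  have : ((fun i : A => x i) = fun i : A => y i) ↔ ∀ i ∈ A, y i = x i := by
    constructor
    · intro h i hi
      exact (congrFun h ⟨i, hi⟩).symm
    · intro h
      funext i
      exact (h i.1 i.2).symm
  by_cases h : ∀ i ∈ A, y i = x i
  · rw [if_pos (this.2 h), if_pos h]
  · rw [if_neg fun h' => h (this.1 h'), if_neg h]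

theorem PA_le_one (p : PMF (E → α)) (A : Finset E) (x : E → α) : PA p A x ≤ 1 :=
  PMF.coe_le_one _ _

theorem PA_ne_top (p : PMF (E → α)) (A : Finset E) (x : E → α) : PA p A x ≠ ∞ :=
  PMF.apply_ne_top _ _

theorem entropy_eq (p : PMF (E → α)) (A : Finset E) :
    entropy p A = ∑' x, p x * L (PA p A x) := by
  classical
  have h1 : ∀ a : A → α, ENNReal.ofReal (Real.negMulLog (marg p A a).toReal) =
      ∑' x : E → α, if a = (fun i : A => x i) then p x * L (PA p A x) else 0 := by
    intro a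
    have e1 : Real.negMulLog (marg p A a).toReal =
        (marg p A a).toReal * (-Real.log (marg p A a).toReal) := by
      rw [Real.negMulLog]; ring
    have e2 : marg p A a = ∑' x : E → α, if a = (fun i : A => x i) then p x else 0 := by
      rw [marg, PMF.map_apply]
      refine tsum_congr fun x => ?_
      by_cases h : a = (fun i : A => x i)
      · rw [if_pos h, if_pos h]
      · rw [if_neg h, if_neg h]
    rw [e1, ENNReal.ofReal_mul ENNReal.toReal_nonneg, ENNReal.ofReal_toReal (PMF.apply_ne_top _ _)]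
    calc marg p A a * ENNReal.ofReal (-Real.log (marg p A a).toReal)
        = (∑' x : E → α, if a = (fun i : A => x i) then p x else 0) * L (marg p A a) := by
          rw [← e2]; rfl
      _ = ∑' x : E → α, (if a = (fun i : A => x i) then p x else 0) * L (marg p A a) :=
          ENNReal.tsum_mul_right.symm
      _ = _ := by
          refine tsum_congr fun x => ?_
          by_cases h : a = (fun i : A => x i)
          · rw [if_pos h, if_pos h, h]
            rfl
          · rw [if_neg h, if_neg h, zero_mul]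
  unfold entropy
  rw [tsum_congr h1, ENNReal.tsum_comm]
  refine tsum_congr fun x => ?_
  rw [tsum_ite_eq]

variable {p : PMF (E → α)}

theorem le_PA (A : Finset E) (x : E → α) : p x ≤ PA p A x := by
  classical
  rw [PA_eq]
  calc p x = (if (∀ i ∈ A, x i = x i) then p x else 0) := by rw [if_pos fun _ _ => rfl]
    _ ≤ _ := ENNReal.le_tsum (f := fun y => if (∀ i ∈ A, y i = x i) then p y else 0) x

theorem PA_mono {A C : Finset E} (hAC : A ⊆ C) (x : E → α) : PA p C x ≤ PA p A x := by
  classical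
  rw [PA_eq, PA_eq]
  refine ENNReal.tsum_le_tsum fun y => ?_
  by_cases h : ∀ i ∈ C, y i = x i
  · rw [if_pos h, if_pos fun i hi => h i (hAC hi)]
  · rw [if_neg h]
    exact zero_le

theorem PA_congr {A : Finset E} {x y : E → α} (h : ∀ i ∈ A, x i = y i) :
    PA p A x = PA p A y := by
  unfold PA
  congr 1
  funext i
  exact h i.1 i.2

theorem toReal_pos {t : ℝ≥0∞} (h0 : t ≠ 0) (h1 : t ≠ ∞) : 0 < t.toReal :=
  ENNReal.toReal_pos h0 h1

theorem L_anti {s t : ℝ≥0∞} (hs : s ≠ 0) (hst : s ≤ t) (ht : t ≠ ∞) : L t ≤ L s := by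
  unfold L
  refine ENNReal.ofReal_le_ofReal (neg_le_neg ?_)
  exact Real.log_le_log (toReal_pos hs (ne_top_of_le_ne_top ht hst)) (ENNReal.toReal_mono ht hst)

theorem L_inj {s t : ℝ≥0∞} (hs : s ≠ 0) (hs1 : s ≤ 1) (ht : t ≠ 0) (ht1 : t ≤ 1)
    (h : L s = L t) : s = t := by
  have hsT : s ≠ ∞ := ne_top_of_le_ne_top ENNReal.one_ne_top hs1
  have htT : t ≠ ∞ := ne_top_of_le_ne_top ENNReal.one_ne_top ht1
  have nn : ∀ {u : ℝ≥0∞}, u ≤ 1 → 0 ≤ -Real.log u.toReal := fun {u} hu => by
    rw [neg_nonneg]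
    refine Real.log_nonpos ENNReal.toReal_nonneg ?_
    have := ENNReal.toReal_mono ENNReal.one_ne_top hu
    rwa [ENNReal.toReal_one] at this
  unfold L at h
  rw [ENNReal.ofReal_eq_ofReal_iff (nn hs1) (nn ht1), neg_inj] at h
  have h2 := Real.log_injOn_pos (Set.mem_Ioi.2 (toReal_pos hs hsT))
    (Set.mem_Ioi.2 (toReal_pos ht htT)) h
  exact (ENNReal.toReal_eq_toReal_iff' hsT htT).1 h2

/-- Termwise equality from equality of the sums. -/
theorem eq_of_tsum {ι : Type} {f g : ι → ℝ≥0∞} (hfg : ∀ i, f i ≤ g i) (hf : ∑' i, f i ≠ ∞)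
    (h : ∑' i, g i ≤ ∑' i, f i) (i : ι) : f i = g i := by
  by_contra hne
  exact absurd (ENNReal.tsum_lt_tsum hf hfg (lt_of_le_of_ne (hfg i) hne)) (not_lt.2 h)

/-- Functional dependence. -/
theorem funct {A C : Finset E} (hAC : A ⊆ C) (h : entropy p A = entropy p C)
    (hT : entropy p A ≠ ∞) :
    (∀ x, p x ≠ 0 → PA p A x = PA p C x) ∧
    ∀ x y, p x ≠ 0 → p y ≠ 0 → (∀ i ∈ A, x i = y i) → ∀ i ∈ C, x i = y i := by
  classical
  rw [entropy_eq, entropy_eq] at h
  rw [entropy_eq] at hT
  have pos : ∀ (A : Finset E) x, p x ≠ 0 → PA p A x ≠ 0 := fun A x hx h0 => by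
    have := le_PA (p := p) A x
    rw [h0] at this
    exact hx (le_antisymm this (zero_le))
  have hle : ∀ x, p x * L (PA p A x) ≤ p x * L (PA p C x) := by
    intro x
    by_cases hx : p x = 0
    · rw [hx, zero_mul]
      exact zero_le
    · exact mul_le_mul_right (L_anti (pos C x hx) (PA_mono hAC x) (PA_ne_top p A x)) _
  have key : ∀ x, p x ≠ 0 → PA p A x = PA p C x := by
    intro x hx
    have h1 := eq_of_tsum hle hT h.ge x
    have h2 : L (PA p A x) = L (PA p C x) :=
      (ENNReal.mul_right_inj hx (PMF.apply_ne_top p x)).1 h1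
    exact L_inj (pos A x hx) (PA_le_one p A x) (pos C x hx) (PA_le_one p C x) h2
  refine ⟨key, fun x y hx hy hxy => ?_⟩
  by_contra hne
  have h1 := key x hx
  have hT2 : PA p C x ≠ ∞ := PA_ne_top p C x
  rw [PA_eq] at h1 hT2
  rw [PA_eq] at h1
  have h2 := eq_of_tsum (f := fun y => if (∀ i ∈ C, y i = x i) then p y else 0)
    (g := fun y => if (∀ i ∈ A, y i = x i) then p y else 0) (fun y => by
      by_cases h : ∀ i ∈ C, y i = x i
      · rw [if_pos h, if_pos fun i hi => h i (hAC hi)]
      · rw [if_neg h]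
        exact zero_le) hT2 h1.le y
  rw [if_neg fun h => hne fun i hi => (h i hi).symm, if_pos fun i hi => (hxy i hi).symm] at h2
  exact hy h2.symm

/-- Independence. -/
theorem indep {A B : Finset E} (h : entropy p (A ∪ B) = entropy p A + entropy p B)
    (hT : entropy p (A ∪ B) ≠ ∞) :
    (∀ x, p x ≠ 0 → PA p (A ∪ B) x = PA p A x * PA p B x) ∧
    ∀ x y, p x ≠ 0 → p y ≠ 0 → ∃ z, p z ≠ 0 ∧ (∀ i ∈ A, z i = x i) ∧ (∀ i ∈ B, z i = y i) := by
  classical
  have pos : ∀ (A : Finset E) x, p x ≠ 0 → PA p A x ≠ 0 := fun A x hx h0 => by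
    have := le_PA (p := p) A x
    rw [h0] at this
    exact hx (le_antisymm this (zero_le))
  -- the double sum
  set q : (E → α) → (E → α) → ℝ≥0∞ := fun y z =>
    ∑' x, if (∀ i ∈ A, x i = y i) ∧ (∀ i ∈ B, x i = z i) then p x else 0 with hq
  set W : (E → α) → (E → α) → ℝ≥0∞ := fun y z =>
    ∑' x, if (∀ i ∈ A, x i = y i) ∧ (∀ i ∈ B, x i = z i) then p x / PA p (A ∪ B) x else 0 with hW
  have hqP : ∀ x y z, (∀ i ∈ A, x i = y i) ∧ (∀ i ∈ B, x i = z i) → PA p (A ∪ B) x = q y z := by
    intro x y z hx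
    rw [PA_eq, hq]
    refine tsum_congr fun w => ?_
    have : (∀ i ∈ A ∪ B, w i = x i) ↔ (∀ i ∈ A, w i = y i) ∧ (∀ i ∈ B, w i = z i) := by
      constructor
      · intro h
        exact ⟨fun i hi => (h i (Finset.mem_union_left _ hi)).trans (hx.1 i hi),
          fun i hi => (h i (Finset.mem_union_right _ hi)).trans (hx.2 i hi)⟩
      · rintro ⟨h1, h2⟩ i hi
        rcases Finset.mem_union.1 hi with hi | hi
        · exact (h1 i hi).trans (hx.1 i hi).symm
        · exact (h2 i hi).trans (hx.2 i hi).symm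
    simp only [this]
  have hW1 : ∀ y z, W y z = q y z / q y z := by
    intro y z
    rw [ENNReal.div_eq_inv_mul]
    conv_rhs => arg 2; rw [hq]
    rw [hW]
    beta_reduce
    rw [← ENNReal.tsum_mul_left]
    refine tsum_congr fun x => ?_
    split_ifs with hx
    · rw [hqP x y z hx, ENNReal.div_eq_inv_mul, hq]
    · rw [mul_zero]
  have hWle : ∀ y z, W y z ≤ 1 := fun y z => by
    rw [hW1]
    exact ENNReal.div_self_le_one
  have htriple : ∑' x, p x * (PA p A x * PA p B x / PA p (A ∪ B) x) =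
      ∑' y, ∑' z, p y * p z * W y z := by
    have h1 : ∀ x, p x * (PA p A x * PA p B x / PA p (A ∪ B) x) =
        ∑' y, ∑' z, p y * p z *
          (if (∀ i ∈ A, x i = y i) ∧ (∀ i ∈ B, x i = z i) then p x / PA p (A ∪ B) x else 0) := by
      intro x
      have e1 : p x * (PA p A x * PA p B x / PA p (A ∪ B) x) =
          PA p A x * (PA p B x * (p x / PA p (A ∪ B) x)) := by
        simp only [div_eq_mul_inv]
        ring
      rw [e1, PA_eq p A x, ← ENNReal.tsum_mul_right]
      refine tsum_congr fun y => ?_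
      rw [PA_eq p B x, ← ENNReal.tsum_mul_right, ← ENNReal.tsum_mul_left]
      refine tsum_congr fun z => ?_
      by_cases hA : ∀ i ∈ A, x i = y i
      · have eA : (if ∀ i ∈ A, y i = x i then p y else 0) = p y :=
          if_pos fun i hi => (hA i hi).symm
        by_cases hB : ∀ i ∈ B, x i = z i
        · have eB : (if ∀ i ∈ B, z i = x i then p z else 0) = p z :=
            if_pos fun i hi => (hB i hi).symm
          rw [eA, eB, if_pos ⟨hA, hB⟩, mul_assoc]
        · have eB : (if ∀ i ∈ B, z i = x i then p z else 0) = 0 :=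
            if_neg fun h => hB fun i hi => (h i hi).symm
          have eAB : (if (∀ i ∈ A, x i = y i) ∧ (∀ i ∈ B, x i = z i) then
              p x / PA p (A ∪ B) x else 0) = 0 := if_neg fun h => hB h.2
          rw [eB, eAB, zero_mul, mul_zero, mul_zero]
      · have eA : (if ∀ i ∈ A, y i = x i then p y else 0) = 0 :=
          if_neg fun h => hA fun i hi => (h i hi).symm
        have eAB : (if (∀ i ∈ A, x i = y i) ∧ (∀ i ∈ B, x i = z i) then
            p x / PA p (A ∪ B) x else 0) = 0 := if_neg fun h => hA h.1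
        rw [eA, eAB, zero_mul, mul_zero]
    rw [tsum_congr h1, ENNReal.tsum_comm]
    refine tsum_congr fun y => ?_
    rw [ENNReal.tsum_comm]
    refine tsum_congr fun z => ?_
    rw [hW]
    beta_reduce
    rw [ENNReal.tsum_mul_left]
  have hone : ∑' y, ∑' z, p y * p z = 1 := by
    have : ∀ y, ∑' z, p y * p z = p y := fun y => by
      rw [ENNReal.tsum_mul_left, PMF.tsum_coe, mul_one]
    rw [tsum_congr this, PMF.tsum_coe]
  have hle : ∑' x, p x * (PA p A x * PA p B x / PA p (A ∪ B) x) ≤ 1 := by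
    rw [htriple, ← hone]
    refine ENNReal.tsum_le_tsum fun y => ENNReal.tsum_le_tsum fun z => ?_
    calc p y * p z * W y z ≤ p y * p z * 1 := mul_le_mul_right (hWle y z) _
      _ = _ := mul_one _
  -- the pointwise inequality
  have pt : ∀ x, p x ≠ 0 →
      L (PA p (A ∪ B) x) + 1 ≤
        PA p A x * PA p B x / PA p (A ∪ B) x + (L (PA p A x) + L (PA p B x)) ∧
      (L (PA p (A ∪ B) x) + 1 =
        PA p A x * PA p B x / PA p (A ∪ B) x + (L (PA p A x) + L (PA p B x)) →
        PA p (A ∪ B) x = PA p A x * PA p B x) := by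
    intro x hx
    obtain ⟨a, ha⟩ : ∃ a : ℝ, a = (PA p A x).toReal := ⟨_, rfl⟩
    obtain ⟨b, hb⟩ : ∃ b : ℝ, b = (PA p B x).toReal := ⟨_, rfl⟩
    obtain ⟨c, hc⟩ : ∃ c : ℝ, c = (PA p (A ∪ B) x).toReal := ⟨_, rfl⟩
    have nn : ∀ C : Finset E, 0 ≤ -Real.log (PA p C x).toReal := fun C => by
      rw [neg_nonneg]
      refine Real.log_nonpos ENNReal.toReal_nonneg ?_
      have := ENNReal.toReal_mono ENNReal.one_ne_top (PA_le_one p C x)
      rwa [ENNReal.toReal_one] at this
    have ha0 : 0 < a := by rw [ha]; exact toReal_pos (pos A x hx) (PA_ne_top p A x)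
    have hb0 : 0 < b := by rw [hb]; exact toReal_pos (pos B x hx) (PA_ne_top p B x)
    have hc0 : 0 < c := by rw [hc]; exact toReal_pos (pos _ x hx) (PA_ne_top p _ x)
    have hTT : PA p A x * PA p B x / PA p (A ∪ B) x = ENNReal.ofReal (a * b / c) := by
      rw [ha, hb, hc, ← ENNReal.toReal_mul, ← ENNReal.toReal_div, ENNReal.ofReal_toReal]
      exact ENNReal.div_ne_top (ENNReal.mul_ne_top (PA_ne_top p A x) (PA_ne_top p B x))
        (pos _ x hx)
    have hl : Real.log (a * b / c) = Real.log a + Real.log b - Real.log c := by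
      rw [Real.log_div (mul_pos ha0 hb0).ne' hc0.ne', Real.log_mul ha0.ne' hb0.ne']
    have hnA := nn A
    have hnB := nn B
    have hnC := nn (A ∪ B)
    rw [← ha] at hnA
    rw [← hb] at hnB
    rw [← hc] at hnC
    have ht0 : 0 < a * b / c := div_pos (mul_pos ha0 hb0) hc0
    rw [hTT]
    unfold L
    rw [← ha, ← hb, ← hc, ← ENNReal.ofReal_one, ← ENNReal.ofReal_add hnC zero_le_one,
      ← ENNReal.ofReal_add hnA hnB, ← ENNReal.ofReal_add ht0.le (add_nonneg hnA hnB)]
    constructor
    · refine ENNReal.ofReal_le_ofReal ?_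
      have := Real.log_le_sub_one_of_pos ht0
      linarith
    · intro h
      rw [ENNReal.ofReal_eq_ofReal_iff (add_nonneg hnC zero_le_one)
        (add_nonneg ht0.le (add_nonneg hnA hnB))] at h
      have h3 : a * b / c = 1 := by
        by_contra hne
        have := Real.log_lt_sub_one_of_pos ht0 hne
        linarith
      have h4 : c = a * b := ((div_eq_one_iff_eq hc0.ne').1 h3).symm
      rw [ha, hb, hc, ← ENNReal.toReal_mul] at h4
      exact (ENNReal.toReal_eq_toReal_iff' (PA_ne_top p _ x)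
        (ENNReal.mul_ne_top (PA_ne_top p A x) (PA_ne_top p B x))).1 h4
  have hfg : ∀ x, p x * (L (PA p (A ∪ B) x) + 1) ≤
      p x * (PA p A x * PA p B x / PA p (A ∪ B) x + (L (PA p A x) + L (PA p B x))) := by
    intro x
    by_cases hx : p x = 0
    · rw [hx, zero_mul]
      exact zero_le
    · exact mul_le_mul_right (pt x hx).1 _
  have hf : ∑' x, p x * (L (PA p (A ∪ B) x) + 1) = entropy p (A ∪ B) + 1 := by
    rw [entropy_eq]
    simp only [mul_add, mul_one]
    rw [ENNReal.tsum_add, PMF.tsum_coe]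
  have hg : ∑' x, p x * (PA p A x * PA p B x / PA p (A ∪ B) x + (L (PA p A x) + L (PA p B x))) =
      ∑' x, p x * (PA p A x * PA p B x / PA p (A ∪ B) x) + entropy p (A ∪ B) := by
    rw [h, entropy_eq, entropy_eq]
    simp only [mul_add]
    rw [ENNReal.tsum_add, ENNReal.tsum_add]
  have hfT : ∑' x, p x * (L (PA p (A ∪ B) x) + 1) ≠ ∞ := by
    rw [hf]
    exact ENNReal.add_ne_top.2 ⟨hT, ENNReal.one_ne_top⟩
  have hgf : ∑' x, p x * (PA p A x * PA p B x / PA p (A ∪ B) x + (L (PA p A x) + L (PA p B x)))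
      ≤ ∑' x, p x * (L (PA p (A ∪ B) x) + 1) := by
    rw [hf, hg, add_comm]
    exact add_le_add_right hle _
  have hpt := eq_of_tsum hfg hfT hgf
  have heq : ∑' x, p x * (PA p A x * PA p B x / PA p (A ∪ B) x) = 1 := by
    have h1 : ∑' x, p x * (L (PA p (A ∪ B) x) + 1) =
        ∑' x, p x * (PA p A x * PA p B x / PA p (A ∪ B) x + (L (PA p A x) + L (PA p B x))) :=
      tsum_congr hpt
    rw [hf, hg, add_comm] at h1
    exact ((ENNReal.add_left_inj hT).1 h1).symm
  refine ⟨fun x hx => (pt x hx).2 ((ENNReal.mul_right_inj hx (PMF.apply_ne_top p x)).1 (hpt x)),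
    fun y z hy hz => ?_⟩
  rw [htriple] at heq
  have hle2 : ∀ y z, p y * p z * W y z ≤ p y * p z := fun y z => by
    calc p y * p z * W y z ≤ p y * p z * 1 := mul_le_mul_right (hWle y z) _
      _ = _ := mul_one _
  have h1 := eq_of_tsum (f := fun y => ∑' z, p y * p z * W y z) (g := fun y => ∑' z, p y * p z)
    (fun y => ENNReal.tsum_le_tsum fun z => hle2 y z) (by rw [heq]; exact ENNReal.one_ne_top)
    (by rw [heq, hone]) y
  beta_reduce at h1
  have h2 : ∑' z, p y * p z = p y := by
    rw [ENNReal.tsum_mul_left, PMF.tsum_coe, mul_one]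
  have h3 := eq_of_tsum (f := fun z => p y * p z * W y z) (g := fun z => p y * p z)
    (fun z => hle2 y z) (by rw [h1, h2]; exact PMF.apply_ne_top p y) h1.ge z
  beta_reduce at h3
  have h4 : W y z ≠ 0 := by
    intro h0
    rw [h0, mul_zero] at h3
    exact (mul_ne_zero hy hz) h3.symm
  have h5 : q y z ≠ 0 := by
    intro h0
    apply h4
    rw [hW1, h0, ENNReal.zero_div]
  by_contra hno
  apply h5
  rw [hq]
  beta_reduce
  rw [ENNReal.tsum_eq_zero]
  intro x
  split_ifs with hc
  · by_contra hx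
    exact hno ⟨x, hx, hc.1, hc.2⟩
  · rfl

end Pool.Agent.R287.MT
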