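import Mathlib
import Pool.Agent.R287.MTa
import Pool.Agent.R287.MTc
import Pool.Agent.R287.MTe
import Pool.Agent.R287.MTg

/-! The p-characteristic set of the non-Fano matroid. -/

set_option autoImplicit false

open scoped ENNReal

namespace Pool.Agent.R287.MT

theorem dec1 : ∀ a b c : Fin 7, ({a, b, c} : Finset (Fin 7)) ∈ nonFanoLines → a ≠ b →
    lineRank nonFanoLines {a, b} = lineRank nonFanoLines {a, b, c} := by decide +kernel

theorem dec2 : ∀ a b c : Fin 7, lineRank nonFanoLines {a, b, c} = 3 →
    lineRank nonFanoLines {a} = 1 ∧ lineRank nonFanoLines {b} = 1 ∧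
    lineRank nonFanoLines {c} = 1 ∧ lineRank nonFanoLines ({a} ∪ {b}) = 2 ∧
    lineRank nonFanoLines (({a} ∪ {b}) ∪ {c}) = 3 := by decide +kernel

theorem dec3 : lineRank nonFanoLines Finset.univ = 3 := by decide +kernel

/-- All elements of the p-characteristic set of the non-Fano matroid are odd. -/
theorem odd_of_mem_chi (fin : Prop) (v : ℕ) (hv : v ∈ chi fin F7m) : Odd v := by
  classical
  obtain ⟨hv2, α, p, -, hp⟩ := hv
  by_contra hodd
  have h2v : 2 ∣ v := (Nat.not_odd_iff_even.1 hodd).two_dvd
  replace hp : ∀ A, entropy p A = ENNReal.ofReal (Real.log v * (lineRank nonFanoLines A : ℝ)) :=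
    fun A => (hp A).2
  have hlog : 0 ≤ Real.log v := Real.log_natCast_nonneg v
  have hfin : ∀ A, entropy p A ≠ ∞ := fun A => by rw [hp]; exact ENNReal.ofReal_ne_top
  have heq : ∀ A C : Finset (Fin 7), lineRank nonFanoLines A = lineRank nonFanoLines C →
      entropy p A = entropy p C := fun A C h => by
    rw [hp, hp, h]
  have hadd : ∀ A B C : Finset (Fin 7), lineRank nonFanoLines C =
      lineRank nonFanoLines A + lineRank nonFanoLines B →
      entropy p C = entropy p A + entropy p B := fun A B C h => by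
    rw [hp, hp, hp, h, ← ENNReal.ofReal_add (by positivity) (by positivity)]
    push_cast
    rw [mul_add]
  obtain ⟨o, ho⟩ := p.support_nonempty
  have ho' : p o ≠ 0 := ho
  -- the three properties of the support
  have hline : ∀ a b c : Fin 7, ({a, b, c} : Finset (Fin 7)) ∈ nonFanoLines → a ≠ b →
      ∀ x ∈ {x | p x ≠ 0}, ∀ y ∈ {x | p x ≠ 0}, x a = y a → x b = y b → x c = y c := by
    intro a b c habc hab x hx y hy ha hb
    have h1 : ({a, b} : Finset (Fin 7)) ⊆ {a, b, c} := by
      intro i hi
      simp only [Finset.mem_insert, Finset.mem_singleton] at hi ⊢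
      tauto
    refine (funct h1 (heq _ _ (dec1 a b c habc hab)) (hfin _)).2 x y hx hy ?_ c (by simp)
    intro i hi
    simp only [Finset.mem_insert, Finset.mem_singleton] at hi
    rcases hi with h | h
    · rw [h]
      exact ha
    · rw [h]
      exact hb
  have hbasis : ∀ a b c : Fin 7, lineRank nonFanoLines {a, b, c} = 3 →
      ∀ x ∈ {x | p x ≠ 0}, ∀ y ∈ {x | p x ≠ 0}, x a = y a → x b = y b → x c = y c → x = y := by
    intro a b c habc x hx y hy ha hb hc
    funext i
    refine (funct (Finset.subset_univ _) (heq _ _ (habc.trans dec3.symm)) (hfin _)).2 x y hx hy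
      ?_ i (Finset.mem_univ i)
    intro j hj
    simp only [Finset.mem_insert, Finset.mem_singleton] at hj
    rcases hj with h | h | h
    · rw [h]
      exact ha
    · rw [h]
      exact hb
    · rw [h]
      exact hc
  have hrect : ∀ a b c : Fin 7, lineRank nonFanoLines {a, b, c} = 3 →
      ∀ x ∈ {x | p x ≠ 0}, ∀ y ∈ {x | p x ≠ 0}, ∀ w ∈ {x | p x ≠ 0},
        ∃ u ∈ {x | p x ≠ 0}, u a = x a ∧ u b = y b ∧ u c = w c := by
    intro a b c habc x hx y hy w hw
    obtain ⟨ra, rb, rc, rab, rabc⟩ := dec2 a b c habc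
    obtain ⟨z, hz, hza, hzb⟩ := (indep (p := p) (A := {a}) (B := {b})
      (hadd _ _ _ (by rw [rab, ra, rb])) (hfin _)).2 x y hx hy
    obtain ⟨u, hu, huz, huc⟩ := (indep (p := p) (A := {a} ∪ {b}) (B := {c})
      (hadd _ _ _ (by rw [rabc, rab, rc])) (hfin _)).2 z w hz hw
    refine ⟨u, hu, ?_, ?_, huc c (by simp)⟩
    · rw [huz a (by simp), hza a (by simp)]
    · rw [huz b (by simp), hzb b (by simp)]
  -- uniformity
  have huni : ∀ x, p x ≠ 0 → PA p {0} x = PA p {1} x := by
    intro x hx
    have pos : ∀ A : Finset (Fin 7), PA p A x ≠ 0 := fun A h0 => by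
      have := le_PA (p := p) A x
      rw [h0] at this
      exact hx (le_antisymm this zero_le)
    have i01 := (indep (p := p) (A := {0}) (B := {1}) (hadd _ _ _ (by decide)) (hfin _)).1 x hx
    have i03 := (indep (p := p) (A := {0}) (B := {3}) (hadd _ _ _ (by decide)) (hfin _)).1 x hx
    have i13 := (indep (p := p) (A := {1}) (B := {3}) (hadd _ _ _ (by decide)) (hfin _)).1 x hx
    have f01 := (funct (p := p) (A := {0} ∪ {1}) (C := {0, 1, 3}) (by decide)
      (heq _ _ (by decide)) (hfin _)).1 x hx
    have f03 := (funct (p := p) (A := {0} ∪ {3}) (C := {0, 1, 3}) (by decide)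
      (heq _ _ (by decide)) (hfin _)).1 x hx
    have f13 := (funct (p := p) (A := {1} ∪ {3}) (C := {0, 1, 3}) (by decide)
      (heq _ _ (by decide)) (hfin _)).1 x hx
    have e1 : PA p {0} x * PA p {3} x = PA p {1} x * PA p {3} x := by
      rw [← i03, ← i13, f03, f13]
    exact (ENNReal.mul_left_inj (pos _) (PA_ne_top p _ x)).1 e1
  have hconst : ∀ x, p x ≠ 0 → PA p {0} x = PA p {0} o := by
    intro x hx
    obtain ⟨z, hz, hz0, hz1⟩ := (indep (p := p) (A := {0}) (B := {1}) (hadd _ _ _ (by decide))
      (hfin _)).2 x o hx ho'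
    rw [← PA_congr hz0, huni z hz, PA_congr hz1, ← huni o ho']
  have hvpos : (0 : ℝ) < v := by
    have : 0 < v := by omega
    exact_mod_cast this
  have hc : PA p {0} o = (v : ℝ≥0∞)⁻¹ := by
    have e1 : entropy p {0} = L (PA p {0} o) := by
      rw [entropy_eq]
      have : ∀ x, p x * L (PA p {0} x) = p x * L (PA p {0} o) := by
        intro x
        by_cases hx : p x = 0
        · rw [hx, zero_mul, zero_mul]
        · rw [hconst x hx]
      rw [tsum_congr this, ENNReal.tsum_mul_right, PMF.tsum_coe, one_mul]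
    have e2 : entropy p {0} = L (v : ℝ≥0∞)⁻¹ := by
      rw [hp, show lineRank nonFanoLines {0} = 1 by decide]
      unfold L
      congr 1
      rw [ENNReal.toReal_inv, ENNReal.toReal_natCast, Real.log_inv]
      push_cast
      ring
    have hposo : PA p {0} o ≠ 0 := fun h0 => by
      have := le_PA (p := p) {0} o
      rw [h0] at this
      exact ho' (le_antisymm this zero_le)
    refine L_inj hposo (PA_le_one p _ o) (ENNReal.inv_ne_zero.2 (ENNReal.natCast_ne_top v)) ?_
      (e1.symm.trans e2)
    rw [ENNReal.inv_le_one]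
    exact_mod_cast (by omega : 1 ≤ v)
  -- the number of values of the first coordinate
  set ν : PMF α := p.map fun x => x 0 with hν
  have hνx : ∀ x, p x ≠ 0 → ν (x 0) = (v : ℝ≥0∞)⁻¹ := by
    intro x hx
    rw [← hc, ← hconst x hx, PA_eq, hν, PMF.map_apply]
    refine tsum_congr fun y => ?_
    simp only [Finset.mem_singleton, forall_eq]
    by_cases h : x 0 = y 0
    · rw [if_pos h, if_pos h.symm]
    · rw [if_neg h, if_neg fun h' => h h'.symm]
  have hsupp : ∀ a, a ∈ ν.support ↔ ∃ x ∈ {x | p x ≠ 0}, x 0 = a := by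
    intro a
    rw [hν, PMF.mem_support_map_iff]
    rfl
  have hsum : (ν.support.encard : ℝ≥0∞) * (v : ℝ≥0∞)⁻¹ = 1 := by
    rw [← ENNReal.tsum_set_const, ← PMF.tsum_coe ν]
    have : ∑' a, ν a = ∑' a : ν.support, ν a := by
      rw [tsum_subtype ν.support ν]
      refine tsum_congr fun a => ?_
      by_cases ha : a ∈ ν.support
      · rw [Set.indicator_of_mem ha]
      · rw [Set.indicator_of_notMem ha]
        exact (PMF.apply_eq_zero_iff ν a).2 ha
    rw [this]
    refine tsum_congr fun a => ?_
    obtain ⟨x, hx, hxa⟩ := (hsupp a.1).1 a.2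
    rw [← hxa]
    exact (hνx x hx).symm
  have hcard : ν.support.encard = v := by
    have h1 : (ν.support.encard : ℝ≥0∞) = v := by
      have hv0 : (v : ℝ≥0∞) ≠ 0 := by
        have : v ≠ 0 := by omega
        exact_mod_cast this
      have h3 := congrArg (fun t => t * (v : ℝ≥0∞)) hsum
      beta_reduce at h3
      rwa [mul_assoc, ENNReal.inv_mul_cancel hv0 (ENNReal.natCast_ne_top v), mul_one,
        one_mul] at h3
    rw [← ENat.toENNReal_coe, ENat.toENNReal_inj] at h1
    exact h1
  have hfinite : ν.support.Finite := by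
    rw [← Set.encard_ne_top_iff, hcard]
    exact ENat.coe_ne_top v
  refine no_support {x | p x ≠ 0} o ho' hline hbasis hrect hfinite.toFinset (fun a => ?_) ?_
  · rw [Set.Finite.mem_toFinset]
    exact hsupp a
  · have h1 : ν.support.ncard = v := by
      rw [Set.ncard, hcard]
      rfl
    rw [← Set.ncard_eq_toFinset_card _ hfinite, h1]
    exact h2v

end Pool.Agent.R287.MT
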