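import Mathlib
import Pool.Agent.R287.MTd

/-! A minimal minor of the non-Fano matroid outside `M'`. -/

set_option autoImplicit false

open scoped ENNReal

namespace Pool.Agent.R287.MT

/-! ### The non-Fano matroid is not binary -/

theorem zmod2_cases (s : ZMod 2) : s = 0 ∨ s = 1 := by
  revert s
  decide

theorem binary_line {n : ℕ} (u v w : Fin n → ZMod 2)
    (huv : Set.finrank (ZMod 2) ({u, v} : Set (Fin n → ZMod 2)) = 2)
    (huw : Set.finrank (ZMod 2) ({u, w} : Set (Fin n → ZMod 2)) = 2)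
    (hvw : Set.finrank (ZMod 2) ({v, w} : Set (Fin n → ZMod 2)) = 2)
    (h : Set.finrank (ZMod 2) ({u, v, w} : Set (Fin n → ZMod 2)) = 2) : w = u + v := by
  have hle : Submodule.span (ZMod 2) ({u, v} : Set (Fin n → ZMod 2)) ≤
      Submodule.span (ZMod 2) ({u, v, w} : Set (Fin n → ZMod 2)) := by
    refine Submodule.span_mono ?_
    intro i hi
    simp only [Set.mem_insert_iff, Set.mem_singleton_iff] at hi ⊢
    tauto
  have heq : Submodule.span (ZMod 2) ({u, v} : Set (Fin n → ZMod 2)) =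
      Submodule.span (ZMod 2) ({u, v, w} : Set (Fin n → ZMod 2)) := by
    refine Submodule.eq_of_le_of_finrank_eq hle ?_
    exact huv.trans h.symm
  have hw : w ∈ Submodule.span (ZMod 2) ({u, v} : Set (Fin n → ZMod 2)) := by
    rw [heq]
    exact Submodule.subset_span (by simp)
  obtain ⟨s, t, hst⟩ := Submodule.mem_span_pair.1 hw
  have h1 : ∀ a b : Fin n → ZMod 2, (∃ r : ZMod 2, b = r • a) →
      Set.finrank (ZMod 2) ({a, b} : Set (Fin n → ZMod 2)) ≠ 2 := by
    rintro a b ⟨r, rfl⟩ h2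
    have h3 : Submodule.span (ZMod 2) ({a, r • a} : Set (Fin n → ZMod 2)) ≤
        Submodule.span (ZMod 2) ({a} : Set (Fin n → ZMod 2)) := by
      rw [Submodule.span_le]
      rintro i (rfl | rfl)
      · exact Submodule.mem_span_singleton_self _
      · exact Submodule.smul_mem _ _ (Submodule.mem_span_singleton_self _)
    have h4 := Submodule.finrank_mono h3
    have h5 : Module.finrank (ZMod 2) (Submodule.span (ZMod 2)
        ({a} : Set (Fin n → ZMod 2))) ≤ 1 := by
      have := finrank_span_le_card (R := ZMod 2) ({a} : Set (Fin n → ZMod 2))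
      simpa using this
    have h6 : Module.finrank (ZMod 2) (Submodule.span (ZMod 2)
      ({a, r • a} : Set (Fin n → ZMod 2))) = 2 := h2
    omega
  rcases zmod2_cases s with hs | hs
  · exfalso
    rw [hs, zero_smul, zero_add] at hst
    exact h1 v w ⟨t, hst.symm⟩ hvw
  · rcases zmod2_cases t with ht | ht
    · exfalso
      rw [ht, zero_smul, add_zero] at hst
      exact h1 u w ⟨s, hst.symm⟩ huw
    · rw [hs, ht, one_smul, one_smul] at hst
      exact hst.symm

theorem not_binary : ¬ Representable (ZMod 2) F7m := by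
  rintro ⟨n, φ, hφ⟩
  have hr : ∀ A, F7m.r A = lineRank nonFanoLines A := fun _ => rfl
  have h2 : ∀ a b : Fin 7, lineRank nonFanoLines {a, b} = 2 →
      Set.finrank (ZMod 2) ({φ a, φ b} : Set (Fin n → ZMod 2)) = 2 := by
    intro a b h
    have := hφ {a, b}
    rw [hr, h] at this
    refine Eq.trans ?_ this.symm
    congr 1
    simp only [Finset.coe_insert, Finset.coe_singleton, Set.image_insert_eq, Set.image_singleton]
  have h3 : ∀ a b c : Fin 7, ∀ k, lineRank nonFanoLines {a, b, c} = k →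
      Set.finrank (ZMod 2) ({φ a, φ b, φ c} : Set (Fin n → ZMod 2)) = k := by
    intro a b c k h
    have := hφ {a, b, c}
    rw [hr, h] at this
    refine Eq.trans ?_ this.symm
    congr 1
    simp only [Finset.coe_insert, Finset.coe_singleton, Set.image_insert_eq, Set.image_singleton]
  have e3 : φ 3 = φ 0 + φ 1 := binary_line _ _ _ (h2 0 1 (by decide)) (h2 0 3 (by decide))
    (h2 1 3 (by decide)) (h3 0 1 3 2 (by decide))
  have e4 : φ 4 = φ 0 + φ 2 := binary_line _ _ _ (h2 0 2 (by decide)) (h2 0 4 (by decide))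
    (h2 2 4 (by decide)) (h3 0 2 4 2 (by decide))
  have e5 : φ 5 = φ 1 + φ 2 := binary_line _ _ _ (h2 1 2 (by decide)) (h2 1 5 (by decide))
    (h2 2 5 (by decide)) (h3 1 2 5 2 (by decide))
  have e : φ 5 = φ 3 + φ 4 := by
    rw [e3, e4, e5]
    have : φ 0 + φ 0 = 0 := by
      funext i
      exact CharTwo.add_self_eq_zero _
    calc φ 1 + φ 2 = (φ 0 + φ 0) + (φ 1 + φ 2) := by rw [this, zero_add]
      _ = _ := by abel
  have h345 := h3 3 4 5 3 (by decide)
  have hle : Submodule.span (ZMod 2) ({φ 3, φ 4, φ 5} : Set (Fin n → ZMod 2)) ≤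
      Submodule.span (ZMod 2) ({φ 3, φ 4} : Set (Fin n → ZMod 2)) := by
    rw [Submodule.span_le]
    rintro i (rfl | rfl | rfl)
    · exact Submodule.subset_span (by simp)
    · exact Submodule.subset_span (by simp)
    · rw [e]
      exact Submodule.add_mem _ (Submodule.subset_span (by simp))
        (Submodule.subset_span (by simp))
  have h4 := Submodule.finrank_mono hle
  have h5 : Module.finrank (ZMod 2) (Submodule.span (ZMod 2)
    ({φ 3, φ 4, φ 5} : Set (Fin n → ZMod 2))) = 3 := h345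
  have h6 : Module.finrank (ZMod 2) (Submodule.span (ZMod 2)
    ({φ 3, φ 4} : Set (Fin n → ZMod 2))) = 2 := h2 3 4 (by decide)
  omega

theorem not_inM' (fin : Prop) : ¬ InM' fin F7m := by
  rintro (h | h)
  · exact not_binary (h (ZMod 2))
  · have h4 : (4 : ℕ) ∈ chi fin F7m := by
      rw [h]
      exact ⟨by norm_num, by norm_num⟩
    have := odd_of_mem_chi fin 4 h4
    revert this
    decide

/-! ### Minors -/

section

variable {E E' E'' : Type} [Fintype E] [DecidableEq E] [Fintype E'] [DecidableEq E']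
  [Fintype E''] [DecidableEq E'']

theorem IsMinor.refl (M : RMatroid E) : IsMinor M M := by
  refine ⟨Function.Embedding.refl E, ∅, fun i => by simp, fun A => ?_⟩
  rw [M.r_empty, add_zero, Finset.union_empty, Finset.map_refl]

theorem IsMinor.trans {N' : RMatroid E''} {N : RMatroid E'} {M : RMatroid E}
    (h1 : IsMinor N' N) (h2 : IsMinor N M) : IsMinor N' M := by
  obtain ⟨κ, S, hS, h1⟩ := h1
  obtain ⟨ι, T, hT, h2⟩ := h2
  refine ⟨κ.trans ι, S.map ι ∪ T, fun i => ?_, fun A => ?_⟩
  · rw [Finset.mem_union, not_or]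
    refine ⟨?_, hT _⟩
    rw [Finset.mem_map]
    rintro ⟨j, hj, hji⟩
    have : j = κ i := ι.injective hji
    exact hS i (this ▸ hj)
  · rw [← h2 S, ← add_assoc, h1, h2, Finset.map_union, Finset.map_map, Finset.union_assoc]

theorem IsMinor.of_iso {N : RMatroid E'} {K : RMatroid E''} {M : RMatroid E} (h : Iso N K)
    (h2 : IsMinor N M) : IsMinor K M := by
  refine IsMinor.trans ?_ h2
  obtain ⟨e, he⟩ := h
  refine ⟨e.symm.toEmbedding, ∅, fun i => by simp, fun A => ?_⟩
  rw [N.r_empty, add_zero, Finset.union_empty, he, Finset.map_map]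
  congr 1
  ext i
  simp

end

theorem card_le_of_minor {n : ℕ} {K : RMatroid (Fin n)} (h : IsMinor K F7m)
    (f : ℕ → ℕ) (hK : ∀ A, K.r A = f A.card) :
    ∃ B T : Finset (Fin 7), B.card = n ∧ Disjoint B T ∧
      ∀ C ⊆ B, f C.card + lineRank nonFanoLines T = lineRank nonFanoLines (C ∪ T) := by
  obtain ⟨ι, T, hT, h⟩ := h
  refine ⟨Finset.univ.map ι, T, ?_, ?_, ?_⟩
  · rw [Finset.card_map, Finset.card_univ, Fintype.card_fin]
  · rw [Finset.disjoint_left]
    intro i hi
    rw [Finset.mem_map] at hi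
    obtain ⟨j, -, rfl⟩ := hi
    exact hT j
  · intro C hC
    obtain ⟨A, -, rfl⟩ := Finset.subset_map_iff.1 hC
    have := h A
    rw [hK] at this
    rw [Finset.card_map]
    exact this

theorem dec25 : ∀ B ∈ (Finset.univ : Finset (Fin 7)).powersetCard 5, ∀ T ∈ Bᶜ.powerset,
    ∃ C ∈ B.powerset, min C.card 2 + lineRank nonFanoLines T ≠
      lineRank nonFanoLines (C ∪ T) := by decide +kernel

theorem dec35 : ∀ B ∈ (Finset.univ : Finset (Fin 7)).powersetCard 5, ∀ T ∈ Bᶜ.powerset,
    ∃ C ∈ B.powerset, min C.card 3 + lineRank nonFanoLines T ≠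
      lineRank nonFanoLines (C ∪ T) := by decide +kernel

theorem no25 : ¬ IsMinor U25 F7m := by
  intro h
  obtain ⟨B, T, hB, hBT, h⟩ := card_le_of_minor h (fun k => min k 2) (fun A => rfl)
  obtain ⟨C, hC, hC2⟩ := dec25 B (Finset.mem_powersetCard.2 ⟨Finset.subset_univ _, hB⟩) T
    (Finset.mem_powerset.2 (Finset.subset_compl_iff_disjoint_left.2 hBT))
  exact hC2 (h C (Finset.mem_powerset.1 hC))

theorem no35 : ¬ IsMinor U35 F7m := by
  intro h
  obtain ⟨B, T, hB, hBT, h⟩ := card_le_of_minor h (fun k => min k 3) (fun A => rfl)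
  obtain ⟨C, hC, hC2⟩ := dec35 B (Finset.mem_powersetCard.2 ⟨Finset.subset_univ _, hB⟩) T
    (Finset.mem_powerset.2 (Finset.subset_compl_iff_disjoint_left.2 hBT))
  exact hC2 (h C (Finset.mem_powerset.1 hC))

theorem decF : ∀ a b : Fin 7, a ≠ b → ∃ c, c ≠ a ∧ c ≠ b ∧ lineRank fanoLines {a, b, c} = 2 := by
  decide +kernel

theorem decNF : ∀ c : Fin 7, c ≠ 3 → c ≠ 4 → lineRank nonFanoLines {3, 4, c} ≠ 2 := by
  decide +kernel

theorem noF7 : ¬ IsMinor F7 F7m := by
  rintro ⟨ι, T, hT, h⟩
  have hbij : Function.Bijective ι := Finite.injective_iff_bijective.1 ι.injective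
  have hT0 : T = ∅ := by
    rw [Finset.eq_empty_iff_forall_notMem]
    intro i
    obtain ⟨j, rfl⟩ := hbij.2 i
    exact hT j
  subst hT0
  have h' : ∀ A : Finset (Fin 7), lineRank fanoLines A = lineRank nonFanoLines (A.map ι) := by
    intro A
    have := h A
    rw [F7m.r_empty, add_zero, Finset.union_empty] at this
    exact this
  obtain ⟨a, ha⟩ := hbij.2 3
  obtain ⟨b, hb⟩ := hbij.2 4
  have hab : a ≠ b := by
    rintro rfl
    rw [ha] at hb
    exact absurd hb (by decide)
  obtain ⟨c, hca, hcb, hc⟩ := decF a b hab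
  rw [h'] at hc
  rw [Finset.map_insert, Finset.map_insert, Finset.map_singleton, ha, hb] at hc
  refine decNF (ι c) ?_ ?_ hc
  · rw [← ha]
    exact fun h => hca (ι.injective h)
  · rw [← hb]
    exact fun h => hcb (ι.injective h)

theorem dec3' : ∀ A : Finset (Fin 7), lineRank nonFanoLines A ≤ 3 := by decide +kernel

theorem noF7dual : ¬ IsMinor F7dual F7m := by
  rintro ⟨ι, T, hT, h⟩
  have h1 := h Finset.univ
  have h2 : F7dual.r Finset.univ = 4 := by decide +kernel
  rw [h2] at h1
  have h3 : F7m.r (Finset.univ.map ι ∪ T) ≤ 3 := dec3' _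
  omega

/-- Some minor of the non-Fano matroid is an excluded minor of `M'`, different from the four
matroids of the list. -/
theorem main (fin : Prop) : ∃ (E : Type) (_ : Fintype E) (_ : DecidableEq E) (N : RMatroid E),
    IsExcludedMinor fin N ∧ ¬ Iso N U25 ∧ ¬ Iso N U35 ∧ ¬ Iso N F7 ∧ ¬ Iso N F7dual ∧
    IsMinor N F7m := by
  classical
  have hex : ∃ k : ℕ, ∃ (E : Type) (_ : Fintype E) (_ : DecidableEq E) (N : RMatroid E),
      IsMinor N F7m ∧ ¬ InM' fin N ∧ Fintype.card E = k :=
    ⟨7, Fin 7, inferInstance, inferInstance, F7m, IsMinor.refl _, not_inM' fin, by simp⟩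
  obtain ⟨E, i1, i2, N, hN, hN', hcard⟩ := Nat.find_spec hex
  refine ⟨E, i1, i2, N, ⟨hN', ?_⟩, fun h => no25 (IsMinor.of_iso h hN),
    fun h => no35 (IsMinor.of_iso h hN), fun h => noF7 (IsMinor.of_iso h hN),
    fun h => noF7dual (IsMinor.of_iso h hN), hN⟩
  intro E' i3 i4 N' hN'N hlt
  by_contra hno
  exact Nat.find_min hex (m := Fintype.card E') (by rw [← hcard]; exact hlt)
    ⟨E', i3, i4, N', IsMinor.trans hN'N hN, hno, rfl⟩

end Pool.Agent.R287.MT
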