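import Mathlib

/-! Norm attaining operators: property alpha gives density, and every Banach space is
one-complemented in a Banach space with property alpha. -/

set_option autoImplicit false

open scoped ENNReal

namespace Pool.Agent.R287.NA

universe u v w

/-- The set `NA(X, Y)` of the bounded linear operators which attain their norm at a point of the
unit sphere. -/
def NA (𝕜 : Type u) [RCLike 𝕜] (X : Type v) (Y : Type w) [NormedAddCommGroup X] [NormedSpace 𝕜 X]
    [NormedAddCommGroup Y] [NormedSpace 𝕜 Y] : Set (X →L[𝕜] Y) :=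
  {T | ∃ x : X, ‖x‖ = 1 ∧ ‖T x‖ = ‖T‖}

/-- `X₁` is one-complemented in `X`: it is the range of a linear projection of norm at most one. -/
def OneComplemented {𝕜 : Type u} [RCLike 𝕜] {X : Type v} [NormedAddCommGroup X] [NormedSpace 𝕜 X]
    (X₁ : Submodule 𝕜 X) : Prop :=
  ∃ P : X →L[𝕜] X, (∀ x, P (P x) = P x) ∧ (∀ x, x ∈ X₁ ↔ ∃ y, P y = x) ∧ ‖P‖ ≤ 1

section alpha

variable {𝕜 : Type u} [RCLike 𝕜] {X : Type v} [NormedAddCommGroup X] [NormedSpace 𝕜 X]
  {Z : Type w} [NormedAddCommGroup Z] [NormedSpace 𝕜 Z]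

theorem dense_NA_of_alpha {ι : Type*} [Nonempty ι] (u : ι → X) (f : ι → (X →L[𝕜] 𝕜))
    (hu : ∀ i, ‖u i‖ = 1) (hfu : ∀ i, f i (u i) = 1) (hfuj : ∀ i j, i ≠ j → ‖f i (u j)‖ ≤ 1 / 2)
    (hball : ∀ (T : X →L[𝕜] Z) (C : ℝ), 0 ≤ C → (∀ i, ‖T (u i)‖ ≤ C) → ‖T‖ ≤ C) :
    Dense (NA 𝕜 X Z) := by
  classical
  rw [Metric.dense_iff]
  intro T r hr
  rcases eq_or_ne T 0 with rfl | hT
  · refine ⟨0, Metric.mem_ball_self hr, ?_⟩
    obtain ⟨i⟩ := ‹Nonempty ι›
    exact ⟨u i, hu i, by simp⟩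
  have hTpos : 0 < ‖T‖ := norm_pos_iff.2 hT
  obtain ⟨ε, hε0, hε1⟩ : ∃ ε : ℝ, 0 < ε ∧ ε * ‖T‖ < r := by
    refine ⟨r / (2 * ‖T‖), by positivity, ?_⟩
    have : r / (2 * ‖T‖) * ‖T‖ = r / 2 := by field_simp
    linarith
  obtain ⟨i, hi⟩ : ∃ i, (1 + ε / 2) * ‖T‖ < (1 + ε) * ‖T (u i)‖ := by
    by_contra hcon
    push Not at hcon
    have h1 : ‖T‖ ≤ (1 + ε / 2) / (1 + ε) * ‖T‖ := by
      refine hball T _ (by positivity) fun i => ?_
      have := hcon i
      rw [div_mul_eq_mul_div, le_div_iff₀ (by positivity)]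
      linarith
    have h2 : (1 + ε / 2) / (1 + ε) < 1 := by
      rw [div_lt_one (by positivity)]
      linarith
    nlinarith
  have hTu : ∀ j, ‖T (u j)‖ ≤ ‖T‖ := fun j => by
    have := T.le_opNorm (u j)
    rwa [hu j, mul_one] at this
  set R : X →L[𝕜] Z := (f i).smulRight ((ε : 𝕜) • T (u i)) with hR
  have hRu : ∀ j, ‖R (u j)‖ = ‖f i (u j)‖ * (ε * ‖T (u i)‖) := fun j => by
    rw [hR, ContinuousLinearMap.smulRight_apply, norm_smul, norm_smul, RCLike.norm_ofReal,
      abs_of_pos hε0]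
  have hfle : ∀ j, ‖f i (u j)‖ ≤ 1 := fun j => by
    rcases eq_or_ne i j with rfl | hij
    · rw [hfu, norm_one]
    · linarith [hfuj i j hij]
  have hRn : ‖R‖ ≤ ε * ‖T‖ := by
    refine hball R _ (by positivity) fun j => ?_
    rw [hRu]
    calc ‖f i (u j)‖ * (ε * ‖T (u i)‖) ≤ 1 * (ε * ‖T (u i)‖) := by
          gcongr
          exact hfle j
      _ ≤ ε * ‖T‖ := by
          rw [one_mul]
          gcongr
          exact hTu i
  have hSi : ‖(T + R) (u i)‖ = (1 + ε) * ‖T (u i)‖ := by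
    have : (T + R) (u i) = ((1 + ε : ℝ) : 𝕜) • T (u i) := by
      rw [add_apply, hR, ContinuousLinearMap.smulRight_apply, hfu, one_smul]
      push_cast
      rw [add_smul, one_smul]
    rw [this, norm_smul, RCLike.norm_ofReal, abs_of_pos (by positivity)]
  refine ⟨T + R, ?_, u i, hu i, ?_⟩
  · rw [Metric.mem_ball, dist_eq_norm, add_sub_cancel_left]
    exact lt_of_le_of_lt hRn hε1
  · refine le_antisymm ?_ ?_
    · have := (T + R).le_opNorm (u i)
      rwa [hu i, mul_one] at this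
    · rw [hSi]
      refine hball _ _ (by positivity) fun j => ?_
      rcases eq_or_ne i j with rfl | hij
      · exact hSi.le
      · calc ‖(T + R) (u j)‖ ≤ ‖T (u j)‖ + ‖R (u j)‖ := norm_add_le _ _
          _ ≤ ‖T‖ + 1 / 2 * (ε * ‖T‖) := by
              rw [hRu]
              refine add_le_add (hTu j) ?_
              have h1 := hfuj i j hij
              have h2 : ε * ‖T (u i)‖ ≤ ε * ‖T‖ := by
                gcongr
                exact hTu i
              have h3 : 0 ≤ ε * ‖T (u i)‖ := by positivity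
              have h4 : 0 ≤ ‖f i (u j)‖ := norm_nonneg _
              nlinarith
          _ = (1 + ε / 2) * ‖T‖ := by ring
          _ ≤ (1 + ε) * ‖T (u i)‖ := hi.le

end alpha

section lone

variable {𝕜 : Type u} [RCLike 𝕜] {I : Type v} {V : Type w} [NormedAddCommGroup V]
  [NormedSpace 𝕜 V] [CompleteSpace V]

theorem summable_norm_l1 (x : lp (fun _ : I => 𝕜) 1) : Summable fun i => ‖x i‖ := by
  have := (lp.memℓp x).summable (by simp)
  simpa using this

theorem norm_l1 (x : lp (fun _ : I => 𝕜) 1) : ‖x‖ = ∑' i, ‖x i‖ := by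
  rw [lp.norm_eq_tsum_rpow (by simp)]
  simp

/-- `λ ↦ ∑ λᵢ wᵢ` on `ℓ₁(I)`. -/
noncomputable def synth (w : I → V) (hw : ∀ i, ‖w i‖ ≤ 1) : lp (fun _ : I => 𝕜) 1 →L[𝕜] V :=
  LinearMap.mkContinuous
    { toFun := fun x => ∑' i, x i • w i
      map_add' := fun x y => by
        have hs : ∀ x : lp (fun _ : I => 𝕜) 1, Summable fun i => x i • w i := fun x => by
          refine Summable.of_norm_bounded (summable_norm_l1 x) fun i => ?_
          rw [norm_smul]
          exact mul_le_of_le_one_right (norm_nonneg _) (hw i)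
        rw [← (hs x).tsum_add (hs y)]
        refine tsum_congr fun i => ?_
        rw [lp.coeFn_add, Pi.add_apply, add_smul]
      map_smul' := fun c x => by
        have hs : Summable fun i => x i • w i := by
          refine Summable.of_norm_bounded (summable_norm_l1 x) fun i => ?_
          rw [norm_smul]
          exact mul_le_of_le_one_right (norm_nonneg _) (hw i)
        rw [RingHom.id_apply, ← hs.tsum_const_smul c]
        refine tsum_congr fun i => ?_
        rw [lp.coeFn_smul, Pi.smul_apply, smul_eq_mul, mul_smul] }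
    1 (fun x => by
      rw [one_mul, norm_l1]
      have hb : ∀ i, ‖x i • w i‖ ≤ ‖x i‖ := fun i => by
        rw [norm_smul]
        exact mul_le_of_le_one_right (norm_nonneg _) (hw i)
      exact tsum_of_norm_bounded (summable_norm_l1 x).hasSum hb)

theorem synth_apply (w : I → V) (hw : ∀ i, ‖w i‖ ≤ 1) (x : lp (fun _ : I => 𝕜) 1) :
    synth w hw x = ∑' i, x i • w i := rfl

theorem norm_synth_le (w : I → V) (hw : ∀ i, ‖w i‖ ≤ 1) (x : lp (fun _ : I => 𝕜) 1) :
    ‖synth w hw x‖ ≤ ‖x‖ := by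
  have := (synth (𝕜 := 𝕜) w hw).le_opNorm x
  have h1 : ‖synth (𝕜 := 𝕜) w hw‖ ≤ 1 := LinearMap.mkContinuous_norm_le _ zero_le_one _
  nlinarith [norm_nonneg x]

theorem synth_single [DecidableEq I] (w : I → V) (hw : ∀ i, ‖w i‖ ≤ 1) (i : I) (a : 𝕜) :
    synth w hw (lp.single 1 i a) = a • w i := by
  rw [synth_apply, tsum_eq_single i]
  · rw [lp.single_apply_self]
  · intro j hj
    rw [lp.single_apply_ne _ _ _ hj, zero_smul]

/-- A bound on the vectors `single i 1` bounds an operator on `ℓ₁`. -/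
theorem l1_bound {Z : Type*} [NormedAddCommGroup Z] [NormedSpace 𝕜 Z] [DecidableEq I]
    (T : lp (fun _ : I => 𝕜) 1 →L[𝕜] Z) (C : ℝ)
    (h : ∀ i, ‖T (lp.single 1 i (1 : 𝕜))‖ ≤ C) (x : lp (fun _ : I => 𝕜) 1) :
    ‖T x‖ ≤ C * ‖x‖ := by
  have hs := (lp.hasSum_single (by simp) x).mapL T
  have h1 : ∀ i, ‖T (lp.single 1 i (x i))‖ ≤ ‖x i‖ * C := fun i => by
    have h2 : (lp.single 1 i (x i) : lp (fun _ : I => 𝕜) 1)
        = x i • (lp.single 1 i (1 : 𝕜) : lp (fun _ : I => 𝕜) 1) := by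
      rw [← lp.single_smul, smul_eq_mul, mul_one]
    rw [h2, map_smul, norm_smul]
    gcongr
    exact h i
  rw [← hs.tsum_eq, norm_l1, mul_comm, ← tsum_mul_right]
  exact tsum_of_norm_bounded ((summable_norm_l1 x).mul_right C).hasSum h1

end lone

end Pool.Agent.R287.NA
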