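import Pool.Agent.R287.NAa

/-! Every nontrivial Banach space `V` is isometric to a one-complemented subspace of a Banach
space `X` such that `NA(X, Z)` is dense for every `Z`. -/

set_option autoImplicit false

open scoped ENNReal

namespace Pool.Agent.R287.NA

universe u v w

section space

variable (𝕜 : Type u) [RCLike 𝕜] (V : Type v) [NormedAddCommGroup V] [NormedSpace 𝕜 V]
  [CompleteSpace V]

/-- index set: the unit sphere of `V`. -/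
abbrev Ga : Type v := {v : V // ‖v‖ = 1}

/-- `ℓ₁` on two copies of the unit sphere. -/
abbrev L1 := lp (fun _ : Ga V × Bool => 𝕜) 1

noncomputable def q1 : L1 𝕜 V →L[𝕜] V := synth (fun i => i.1.1) (fun i => i.1.2.le)

noncomputable def dd (γ : Ga V) : L1 𝕜 V →L[𝕜] 𝕜 :=
  lp.evalCLM 𝕜 (fun _ : Ga V × Bool => 𝕜) 1 (γ, true) -
    lp.evalCLM 𝕜 (fun _ : Ga V × Bool => 𝕜) 1 (γ, false)

variable {𝕜 V} in
theorem dd_apply (γ : Ga V) (x : L1 𝕜 V) : dd 𝕜 V γ x = x (γ, true) - x (γ, false) := rfl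

/-- the subspace we divide out. -/
noncomputable def K : Submodule 𝕜 (L1 𝕜 V) where
  carrier := {x | q1 𝕜 V x = 0 ∧ ∀ γ, dd 𝕜 V γ x = 0}
  add_mem' := fun {x y} hx hy => ⟨by rw [map_add, hx.1, hy.1, add_zero],
    fun γ => by rw [map_add, hx.2, hy.2, add_zero]⟩
  zero_mem' := ⟨map_zero _, fun γ => map_zero _⟩
  smul_mem' := fun c x hx => ⟨by rw [map_smul, hx.1, smul_zero],
    fun γ => by rw [map_smul, hx.2, smul_zero]⟩

variable {𝕜 V} in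
theorem mem_K {x : L1 𝕜 V} : x ∈ K 𝕜 V ↔ q1 𝕜 V x = 0 ∧ ∀ γ, dd 𝕜 V γ x = 0 := Iff.rfl

instance isClosed_K : IsClosed (K 𝕜 V : Set (L1 𝕜 V)) := by
  have : (K 𝕜 V : Set (L1 𝕜 V)) = {x | q1 𝕜 V x = 0} ∩ ⋂ γ, {x | dd 𝕜 V γ x = 0} := by
    ext x
    simp only [SetLike.mem_coe, mem_K, Set.mem_inter_iff, Set.mem_setOf_eq, Set.mem_iInter]
  rw [this]
  refine IsClosed.inter (isClosed_eq (q1 𝕜 V).continuous continuous_const) ?_
  exact isClosed_iInter fun γ => isClosed_eq (dd 𝕜 V γ).continuous continuous_const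

/-- the big space. -/
abbrev XX := L1 𝕜 V ⧸ K 𝕜 V

variable {𝕜 V}

theorem quot_bound {Z : Type*} [NormedAddCommGroup Z] [NormedSpace 𝕜 Z] (S : XX 𝕜 V →ₗ[𝕜] Z)
    (C : ℝ) (hC : 0 ≤ C) (h : ∀ m : L1 𝕜 V, ‖S (Submodule.Quotient.mk m)‖ ≤ C * ‖m‖)
    (x : XX 𝕜 V) : ‖S x‖ ≤ C * ‖x‖ := by
  refine le_of_forall_pos_le_add fun ε hε => ?_
  obtain ⟨m, hm, hmn⟩ := Submodule.Quotient.norm_mk_lt x (ε := ε / (C + 1)) (by positivity)
  rw [← hm]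
  refine (h m).trans ?_
  rw [← hm] at hmn
  have h1 : C * ‖m‖ ≤ C * (‖(Submodule.Quotient.mk m : XX 𝕜 V)‖ + ε / (C + 1)) := by gcongr
  have h2 : C * (ε / (C + 1)) ≤ ε := by
    rw [mul_div_assoc', div_le_iff₀ (by positivity)]
    nlinarith
  linarith

/-- the operator on the quotient. -/
noncomputable def liftC {Z : Type*} [NormedAddCommGroup Z] [NormedSpace 𝕜 Z]
    (T : L1 𝕜 V →L[𝕜] Z) (h : ∀ x ∈ K 𝕜 V, T x = 0) : XX 𝕜 V →L[𝕜] Z :=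
  LinearMap.mkContinuous ((K 𝕜 V).liftQ T.toLinearMap h) ‖T‖
    (quot_bound _ _ (norm_nonneg _) fun m => T.le_opNorm m)

theorem liftC_mk {Z : Type*} [NormedAddCommGroup Z] [NormedSpace 𝕜 Z]
    (T : L1 𝕜 V →L[𝕜] Z) (h : ∀ x ∈ K 𝕜 V, T x = 0) (m : L1 𝕜 V) :
    liftC T h (Submodule.Quotient.mk m) = T m := rfl

variable (𝕜 V) in
noncomputable def mkC : L1 𝕜 V →L[𝕜] XX 𝕜 V :=
  LinearMap.mkContinuous (K 𝕜 V).mkQ 1 fun m => by
    rw [one_mul]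
    exact Submodule.Quotient.norm_mk_le _ m

theorem mkC_apply (m : L1 𝕜 V) : mkC 𝕜 V m = Submodule.Quotient.mk m := rfl

open Classical in
/-- the unit vectors of `ℓ₁`. -/
noncomputable def sg (i : Ga V × Bool) : L1 𝕜 V := lp.single 1 i (1 : 𝕜)

theorem q1_sg (i : Ga V × Bool) : q1 𝕜 V (sg i) = i.1.1 := by
  classical
  rw [sg, q1, synth_single, one_smul]

theorem norm_sg (i : Ga V × Bool) : ‖(sg i : L1 𝕜 V)‖ = 1 := by
  classical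
  rw [sg, lp.norm_single (by simp), norm_one]

/-- the sign. -/
def sgn (b : Bool) : 𝕜 := if b then 1 else -1

theorem dd_sg_self (γ : Ga V) (b : Bool) : dd 𝕜 V γ (sg (γ, b)) = sgn b := by
  classical
  rw [dd_apply, sg]
  cases b
  · rw [lp.single_apply_ne _ _ _ (by simp), lp.single_apply_self]
    simp [sgn]
  · rw [lp.single_apply_self, lp.single_apply_ne _ _ _ (by simp)]
    simp [sgn]

theorem dd_sg_ne (γ γ' : Ga V) (h : γ ≠ γ') (b : Bool) : dd 𝕜 V γ (sg (γ', b)) = 0 := by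
  classical
  rw [dd_apply, sg, lp.single_apply_ne _ _ _ (by simp [h]), lp.single_apply_ne _ _ _ (by simp [h]),
    sub_zero]

theorem exists_rep (v : V) : ∃ x : L1 𝕜 V, q1 𝕜 V x = v ∧ (∀ γ, dd 𝕜 V γ x = 0) ∧ ‖x‖ ≤ ‖v‖ := by
  rcases eq_or_ne v 0 with rfl | hv
  · exact ⟨0, map_zero _, fun γ => map_zero _, by simp⟩
  have hv' : ‖v‖ ≠ 0 := norm_ne_zero_iff.2 hv
  have hn : ‖((‖v‖⁻¹ : ℝ) : 𝕜) • v‖ = 1 := by
    rw [norm_smul, RCLike.norm_ofReal, abs_of_nonneg (by positivity)]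
    exact inv_mul_cancel₀ hv'
  set γ : Ga V := ⟨((‖v‖⁻¹ : ℝ) : 𝕜) • v, hn⟩ with hγ
  refine ⟨((‖v‖ / 2 : ℝ) : 𝕜) • (sg (γ, true) + sg (γ, false)), ?_, ?_, ?_⟩
  · rw [map_smul, map_add, q1_sg, q1_sg, ← two_smul 𝕜, smul_smul, hγ, smul_smul]
    have : ((‖v‖ / 2 : ℝ) : 𝕜) * 2 * ((‖v‖⁻¹ : ℝ) : 𝕜) = 1 := by
      have h2 : ‖v‖ / 2 * 2 * ‖v‖⁻¹ = 1 := by field_simp
      calc ((‖v‖ / 2 : ℝ) : 𝕜) * 2 * ((‖v‖⁻¹ : ℝ) : 𝕜) = ((‖v‖ / 2 * 2 * ‖v‖⁻¹ : ℝ) : 𝕜) := by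
            rw [RCLike.ofReal_mul, RCLike.ofReal_mul, RCLike.ofReal_ofNat]
        _ = 1 := by rw [h2, RCLike.ofReal_one]
    rw [this, one_smul]
  · intro γ'
    rw [map_smul, map_add]
    rcases eq_or_ne γ' γ with h | h
    · rw [h, dd_sg_self, dd_sg_self]
      simp [sgn]
    · rw [dd_sg_ne _ _ h, dd_sg_ne _ _ h, add_zero, smul_zero]
  · rw [norm_smul, RCLike.norm_ofReal, abs_of_nonneg (by positivity)]
    calc ‖v‖ / 2 * ‖(sg (γ, true) + sg (γ, false) : L1 𝕜 V)‖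
        ≤ ‖v‖ / 2 * (‖(sg (γ, true) : L1 𝕜 V)‖ + ‖(sg (γ, false) : L1 𝕜 V)‖) := by
          gcongr
          exact norm_add_le _ _
      _ = ‖v‖ := by
          rw [norm_sg, norm_sg]
          ring

/-- representatives. -/
noncomputable def rep (v : V) : L1 𝕜 V := (exists_rep (𝕜 := 𝕜) v).choose

theorem q1_rep (v : V) : q1 𝕜 V (rep v) = v := (exists_rep (𝕜 := 𝕜) v).choose_spec.1

theorem dd_rep (v : V) (γ : Ga V) : dd 𝕜 V γ (rep v) = 0 :=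
  (exists_rep (𝕜 := 𝕜) v).choose_spec.2.1 γ

theorem norm_rep (v : V) : ‖(rep v : L1 𝕜 V)‖ ≤ ‖v‖ := (exists_rep (𝕜 := 𝕜) v).choose_spec.2.2

variable (𝕜 V) in
/-- the quotient map onto `V`. -/
noncomputable def PP : XX 𝕜 V →L[𝕜] V := liftC (q1 𝕜 V) fun _ hx => hx.1

theorem PP_mk (m : L1 𝕜 V) : PP 𝕜 V (Submodule.Quotient.mk m) = q1 𝕜 V m := rfl

theorem norm_PP_le (x : XX 𝕜 V) : ‖PP 𝕜 V x‖ ≤ ‖x‖ := by
  have := quot_bound (PP 𝕜 V).toLinearMap 1 zero_le_one (fun m => by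
    rw [one_mul]
    exact norm_synth_le (fun i : Ga V × Bool => i.1.1) (fun i => i.1.2.le) m) x
  rwa [one_mul] at this

variable (𝕜 V) in
/-- the embedding of `V`. -/
noncomputable def JJ : V →ₗᵢ[𝕜] XX 𝕜 V where
  toFun v := Submodule.Quotient.mk (rep v)
  map_add' v w := by
    rw [← Submodule.Quotient.mk_add, Submodule.Quotient.eq, mem_K]
    refine ⟨?_, fun γ => ?_⟩
    · rw [map_sub, map_add, q1_rep, q1_rep, q1_rep, sub_self]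
    · rw [map_sub, map_add, dd_rep, dd_rep, dd_rep, add_zero, sub_self]
  map_smul' c v := by
    rw [RingHom.id_apply, ← Submodule.Quotient.mk_smul, Submodule.Quotient.eq, mem_K]
    refine ⟨?_, fun γ => ?_⟩
    · rw [map_sub, map_smul, q1_rep, q1_rep, sub_self]
    · rw [map_sub, map_smul, dd_rep, dd_rep, smul_zero, sub_self]
  norm_map' v := by
    refine le_antisymm ((Submodule.Quotient.norm_mk_le _ _).trans (norm_rep v)) ?_
    calc ‖v‖ = ‖PP 𝕜 V (Submodule.Quotient.mk (rep v))‖ := by rw [PP_mk, q1_rep]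
      _ ≤ _ := norm_PP_le _

theorem PP_JJ (v : V) : PP 𝕜 V (JJ 𝕜 V v) = v := q1_rep v

variable (𝕜 V) in
/-- the complemented copy of `V`. -/
noncomputable def X1 : Submodule 𝕜 (XX 𝕜 V) := LinearMap.range (JJ 𝕜 V).toLinearMap

theorem mem_X1 (x : XX 𝕜 V) : x ∈ X1 𝕜 V ↔ ∃ v, JJ 𝕜 V v = x := Iff.rfl

theorem oneComplemented_X1 : OneComplemented (X1 𝕜 V) := by
  refine ⟨(JJ 𝕜 V).toContinuousLinearMap ∘L PP 𝕜 V, fun x => ?_, fun x => ?_, ?_⟩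
  · change JJ 𝕜 V (PP 𝕜 V (JJ 𝕜 V (PP 𝕜 V x))) = JJ 𝕜 V (PP 𝕜 V x)
    rw [PP_JJ]
  · rw [mem_X1]
    constructor
    · rintro ⟨v, rfl⟩
      refine ⟨JJ 𝕜 V v, ?_⟩
      change JJ 𝕜 V (PP 𝕜 V (JJ 𝕜 V v)) = JJ 𝕜 V v
      rw [PP_JJ]
    · rintro ⟨y, rfl⟩
      exact ⟨PP 𝕜 V y, rfl⟩
  · refine ContinuousLinearMap.opNorm_le_bound _ zero_le_one fun x => ?_
    change ‖JJ 𝕜 V (PP 𝕜 V x)‖ ≤ _
    rw [(JJ 𝕜 V).norm_map, one_mul]
    exact norm_PP_le x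

theorem isClosed_X1 : IsClosed (X1 𝕜 V : Set (XX 𝕜 V)) := by
  have : (X1 𝕜 V : Set (XX 𝕜 V)) = Set.range (JJ 𝕜 V) := rfl
  rw [this]
  exact (JJ 𝕜 V).isometry.isClosedEmbedding.isClosed_range

/-- norming functionals. -/
noncomputable def phi (γ : Ga V) : V →L[𝕜] 𝕜 := (exists_dual_vector'' 𝕜 γ.1).choose

theorem norm_phi (γ : Ga V) : ‖(phi γ : V →L[𝕜] 𝕜)‖ ≤ 1 :=
  (exists_dual_vector'' 𝕜 γ.1).choose_spec.1

theorem phi_self (γ : Ga V) : (phi γ : V →L[𝕜] 𝕜) γ.1 = 1 := by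
  refine (exists_dual_vector'' 𝕜 γ.1).choose_spec.2.trans ?_
  rw [γ.2, RCLike.ofReal_one]

/-- the functionals of property alpha. -/
noncomputable def ff (i : Ga V × Bool) : XX 𝕜 V →L[𝕜] 𝕜 :=
  liftC ((1 / 2 : 𝕜) • ((phi i.1) ∘L (q1 𝕜 V) + (sgn i.2 : 𝕜) • dd 𝕜 V i.1)) fun x hx => by
    rw [ContinuousLinearMap.smul_apply, add_apply, ContinuousLinearMap.smul_apply,
      ContinuousLinearMap.comp_apply, hx.1, hx.2, map_zero, smul_zero, add_zero, smul_zero]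

theorem ff_sg (i j : Ga V × Bool) :
    ff i (Submodule.Quotient.mk (sg j) : XX 𝕜 V)
      = (1 / 2 : 𝕜) * (phi i.1 j.1.1 + sgn i.2 * dd 𝕜 V i.1 (sg j)) := by
  rw [ff, liftC_mk, ContinuousLinearMap.smul_apply, add_apply,
    ContinuousLinearMap.smul_apply, ContinuousLinearMap.comp_apply, q1_sg, smul_eq_mul,
    smul_eq_mul]

theorem sgn_mul_self (b : Bool) : (sgn b : 𝕜) * sgn b = 1 := by
  cases b <;> simp [sgn]

theorem ff_self (i : Ga V × Bool) : ff i (Submodule.Quotient.mk (sg i) : XX 𝕜 V) = 1 := by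
  obtain ⟨γ, b⟩ := i
  rw [ff_sg, phi_self, dd_sg_self, sgn_mul_self]
  norm_num

theorem ff_ne (i j : Ga V × Bool) (hij : i ≠ j) :
    ‖ff i (Submodule.Quotient.mk (sg j) : XX 𝕜 V)‖ ≤ 1 / 2 := by
  obtain ⟨γ, b⟩ := i
  obtain ⟨γ', b'⟩ := j
  rw [ff_sg]
  dsimp only
  rcases eq_or_ne γ γ' with h | h
  · subst h
    have hb : b ≠ b' := fun h' => hij (by rw [h'])
    rw [phi_self, dd_sg_self]
    have : (sgn b : 𝕜) * sgn b' = -1 := by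
      cases b <;> cases b' <;> simp_all [sgn]
    rw [this]
    norm_num
  · rw [dd_sg_ne _ _ h, mul_zero, add_zero, norm_mul]
    have h1 : ‖(phi γ : V →L[𝕜] 𝕜) γ'.1‖ ≤ 1 := by
      have h2 := (phi γ : V →L[𝕜] 𝕜).le_opNorm γ'.1
      rw [γ'.2, mul_one] at h2
      exact h2.trans (norm_phi γ)
    have h3 : ‖(1 / 2 : 𝕜)‖ = 1 / 2 := by
      rw [norm_div, norm_one, RCLike.norm_ofNat]
    rw [h3]
    linarith

theorem norm_mk_sg (i : Ga V × Bool) : ‖(Submodule.Quotient.mk (sg i) : XX 𝕜 V)‖ = 1 := by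
  refine le_antisymm ((Submodule.Quotient.norm_mk_le _ _).trans (norm_sg i).le) ?_
  calc (1 : ℝ) = ‖PP 𝕜 V (Submodule.Quotient.mk (sg i))‖ := by rw [PP_mk, q1_sg, i.1.2]
    _ ≤ _ := norm_PP_le _

theorem XX_bound {Z : Type*} [NormedAddCommGroup Z] [NormedSpace 𝕜 Z] (T : XX 𝕜 V →L[𝕜] Z)
    (C : ℝ) (hC : 0 ≤ C)
    (h : ∀ i : Ga V × Bool, ‖T (Submodule.Quotient.mk (sg i) : XX 𝕜 V)‖ ≤ C) : ‖T‖ ≤ C := by
  classical
  refine ContinuousLinearMap.opNorm_le_bound _ hC fun x => ?_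
  refine quot_bound T.toLinearMap C hC (fun m => ?_) x
  refine l1_bound (T ∘L mkC 𝕜 V) C (fun i => ?_) m
  have h1 : (lp.single 1 i (1 : 𝕜) : L1 𝕜 V) = sg i := by
    rw [sg]
  rw [h1]
  exact h i

theorem dense_NA_XX [Nontrivial V] (Z : Type w) [NormedAddCommGroup Z] [NormedSpace 𝕜 Z] :
    Dense (NA 𝕜 (XX 𝕜 V) Z) := by
  obtain ⟨v, hv⟩ := exists_ne (0 : V)
  have hv' : ‖v‖ ≠ 0 := norm_ne_zero_iff.2 hv
  have hn : ‖((‖v‖⁻¹ : ℝ) : 𝕜) • v‖ = 1 := by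
    rw [norm_smul, RCLike.norm_ofReal, abs_of_nonneg (by positivity)]
    exact inv_mul_cancel₀ hv'
  have : Nonempty (Ga V × Bool) := ⟨(⟨_, hn⟩, true)⟩
  exact dense_NA_of_alpha (fun i : Ga V × Bool => (Submodule.Quotient.mk (sg i) : XX 𝕜 V)) ff
    norm_mk_sg ff_self ff_ne XX_bound

end space

end Pool.Agent.R287.NA
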