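import Pool.Agent.R287.NAb

/-! The target space: `c₀` with an equivalent strictly convex norm. -/

set_option autoImplicit false

open scoped ENNReal ZeroAtInfty Topology
open Filter

namespace Pool.Agent.R287.NA

universe u v w

section target

variable {𝕜 : Type u} [RCLike 𝕜]

theorem c0_norm_le {x : C₀(ℕ, 𝕜)} {C : ℝ} (hC : 0 ≤ C) (h : ∀ n, ‖x n‖ ≤ C) : ‖x‖ ≤ C := by
  rw [← ZeroAtInftyContinuousMap.norm_toBCF_eq_norm]
  exact (BoundedContinuousFunction.norm_le hC).2 h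

theorem c0_coord_le (x : C₀(ℕ, 𝕜)) (n : ℕ) : ‖x n‖ ≤ ‖x‖ := by
  rw [← ZeroAtInftyContinuousMap.norm_toBCF_eq_norm]
  exact BoundedContinuousFunction.norm_coe_le_norm x.toBCF n

theorem c0_tendsto (x : C₀(ℕ, 𝕜)) : Tendsto (fun n => x n) atTop (𝓝 0) := by
  have := x.zero_at_infty'
  rw [Filter.cocompact_eq_cofinite, Nat.cofinite_eq_atTop] at this
  exact this

/-- unit vectors of `c₀`. -/
noncomputable def ev (n : ℕ) : C₀(ℕ, 𝕜) :=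
  ⟨⟨fun m => if m = n then 1 else 0, continuous_of_discreteTopology⟩, by
    rw [Filter.cocompact_eq_cofinite, Nat.cofinite_eq_atTop]
    refine tendsto_const_nhds.congr' ?_
    filter_upwards [eventually_gt_atTop n] with m hm
    simp [hm.ne']⟩

theorem ev_apply (n m : ℕ) : (ev n : C₀(ℕ, 𝕜)) m = if m = n then 1 else 0 := rfl

theorem norm_ev (n : ℕ) : ‖(ev n : C₀(ℕ, 𝕜))‖ = 1 := by
  refine le_antisymm (c0_norm_le zero_le_one fun m => ?_) ?_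
  · rw [ev_apply]
    split_ifs <;> simp
  · have := c0_coord_le (ev n : C₀(ℕ, 𝕜)) n
    simpa [ev_apply] using this

variable (𝕜) in
abbrev l2 := lp (fun _ : ℕ => 𝕜) 2

noncomputable def sg2 (n : ℕ) : l2 𝕜 := lp.single 2 n (1 : 𝕜)

theorem norm_sg2 (n : ℕ) : ‖(sg2 n : l2 𝕜)‖ = 1 := by
  rw [sg2, lp.norm_single (by simp), norm_one]

theorem norm_term (x : C₀(ℕ, 𝕜)) (n : ℕ) :
    ‖((1 / 2 : 𝕜) ^ n * x n) • (sg2 n : l2 𝕜)‖ ≤ (1 / 2 : ℝ) ^ n * ‖x‖ := by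
  rw [norm_smul, norm_sg2, mul_one, norm_mul, norm_pow]
  have h3 : ‖(1 / 2 : 𝕜)‖ = 1 / 2 := by
    rw [norm_div, norm_one, RCLike.norm_ofNat]
  rw [h3]
  gcongr
  exact c0_coord_le x n

theorem summable_term (x : C₀(ℕ, 𝕜)) :
    Summable fun n => ((1 / 2 : 𝕜) ^ n * x n) • (sg2 n : l2 𝕜) :=
  Summable.of_norm_bounded (summable_geometric_two.mul_right ‖x‖) (norm_term x)

variable (𝕜) in
/-- `D y = (2⁻ⁿ yₙ)`. -/
noncomputable def DD : C₀(ℕ, 𝕜) →L[𝕜] l2 𝕜 :=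
  LinearMap.mkContinuous
    { toFun := fun x => ∑' n, ((1 / 2 : 𝕜) ^ n * x n) • (sg2 n : l2 𝕜)
      map_add' := fun x y => by
        rw [← (summable_term x).tsum_add (summable_term y)]
        refine tsum_congr fun n => ?_
        rw [ZeroAtInftyContinuousMap.add_apply, mul_add, add_smul]
      map_smul' := fun c x => by
        rw [RingHom.id_apply, ← (summable_term x).tsum_const_smul c]
        refine tsum_congr fun n => ?_
        rw [ZeroAtInftyContinuousMap.smul_apply, smul_eq_mul, mul_left_comm, mul_smul] }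
    2 (fun x => by
      have := tsum_of_norm_bounded (hasSum_geometric_two.mul_right ‖x‖) (norm_term x)
      exact this)

theorem norm_DD_le (x : C₀(ℕ, 𝕜)) : ‖DD 𝕜 x‖ ≤ 2 * ‖x‖ :=
  tsum_of_norm_bounded (hasSum_geometric_two.mul_right ‖x‖) (norm_term x)

theorem DD_apply (x : C₀(ℕ, 𝕜)) (n : ℕ) : DD 𝕜 x n = (1 / 2 : 𝕜) ^ n * x n := by
  have h1 := (summable_term x).hasSum.mapL (lp.evalCLM 𝕜 (fun _ : ℕ => 𝕜) 2 n)
  have h2 : HasSum (fun m => lp.evalCLM 𝕜 (fun _ : ℕ => 𝕜) 2 n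
      (((1 / 2 : 𝕜) ^ m * x m) • (sg2 m : l2 𝕜))) ((1 / 2 : 𝕜) ^ n * x n) := by
    have h3 := hasSum_single (f := fun m => lp.evalCLM 𝕜 (fun _ : ℕ => 𝕜) 2 n
      (((1 / 2 : 𝕜) ^ m * x m) • (sg2 m : l2 𝕜))) n (fun m hm => by
        rw [map_smul]
        change _ • ((lp.single 2 m (1 : 𝕜) : l2 𝕜) n) = 0
        rw [lp.single_apply_ne _ _ _ hm.symm, smul_zero])
    convert h3 using 1
    rw [map_smul]
    change _ = _ • ((lp.single 2 n (1 : 𝕜) : l2 𝕜) n)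
    rw [lp.single_apply_self, smul_eq_mul, mul_one]
  exact h1.unique h2

theorem DD_inj {x : C₀(ℕ, 𝕜)} (h : DD 𝕜 x = 0) : x = 0 := by
  ext n
  have h1 := DD_apply x n
  rw [h] at h1
  have h2 : ((0 : l2 𝕜) n) = 0 := rfl
  rw [h2] at h1
  have h3 : (1 / 2 : 𝕜) ^ n ≠ 0 := pow_ne_zero _ (by norm_num)
  rcases mul_eq_zero.1 h1.symm with h4 | h4
  · exact absurd h4 h3
  · exact h4

variable (𝕜) in
/-- the `ℓ₂`-sum of `c₀` and `ℓ₂`. -/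
def WW : Type u := WithLp 2 (C₀(ℕ, 𝕜) × l2 𝕜)

noncomputable instance : NormedAddCommGroup (WW 𝕜) :=
  inferInstanceAs (NormedAddCommGroup (WithLp 2 (C₀(ℕ, 𝕜) × l2 𝕜)))

noncomputable instance : NormedSpace 𝕜 (WW 𝕜) :=
  inferInstanceAs (NormedSpace 𝕜 (WithLp 2 (C₀(ℕ, 𝕜) × l2 𝕜)))

instance : CompleteSpace (WW 𝕜) :=
  inferInstanceAs (CompleteSpace (WithLp 2 (C₀(ℕ, 𝕜) × l2 𝕜)))

noncomputable def WW.fst (p : WW 𝕜) : C₀(ℕ, 𝕜) := WithLp.fst p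

noncomputable def WW.snd (p : WW 𝕜) : l2 𝕜 := WithLp.snd p

noncomputable def WW.mk (x : C₀(ℕ, 𝕜)) (y : l2 𝕜) : WW 𝕜 := WithLp.toLp 2 (x, y)

theorem WW.fst_mk (x : C₀(ℕ, 𝕜)) (y : l2 𝕜) : (WW.mk x y).fst = x := rfl

theorem WW.snd_mk (x : C₀(ℕ, 𝕜)) (y : l2 𝕜) : (WW.mk x y).snd = y := rfl

theorem WW.fst_add (p q : WW 𝕜) : (p + q).fst = p.fst + q.fst := rfl

theorem WW.snd_add (p q : WW 𝕜) : (p + q).snd = p.snd + q.snd := rfl

theorem WW.fst_sub (p q : WW 𝕜) : (p - q).fst = p.fst - q.fst := rfl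

theorem WW.snd_sub (p q : WW 𝕜) : (p - q).snd = p.snd - q.snd := rfl

theorem WW.fst_smul (c : 𝕜) (p : WW 𝕜) : (c • p).fst = c • p.fst := rfl

theorem WW.snd_smul (c : 𝕜) (p : WW 𝕜) : (c • p).snd = c • p.snd := rfl

theorem WW.fst_zero : (0 : WW 𝕜).fst = 0 := rfl

theorem WW.snd_zero : (0 : WW 𝕜).snd = 0 := rfl

theorem WW.mk_add (x x' : C₀(ℕ, 𝕜)) (y y' : l2 𝕜) :
    WW.mk (x + x') (y + y') = WW.mk x y + WW.mk x' y' := rfl

theorem WW.mk_smul (c : 𝕜) (x : C₀(ℕ, 𝕜)) (y : l2 𝕜) :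
    WW.mk (c • x) (c • y) = c • WW.mk x y := rfl

theorem WW.continuous_fst : Continuous (WW.fst : WW 𝕜 → C₀(ℕ, 𝕜)) := by
  have h2 : Continuous fun p : WithLp 2 (C₀(ℕ, 𝕜) × l2 𝕜) => p.fst := by fun_prop
  exact h2

theorem WW.continuous_snd : Continuous (WW.snd : WW 𝕜 → l2 𝕜) := by
  have h2 : Continuous fun p : WithLp 2 (C₀(ℕ, 𝕜) × l2 𝕜) => p.snd := by fun_prop
  exact h2

theorem norm_sq (p : WW 𝕜) : ‖p‖ ^ 2 = ‖p.fst‖ ^ 2 + ‖p.snd‖ ^ 2 :=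
  WithLp.prod_norm_sq_eq_of_L2 (α := C₀(ℕ, 𝕜)) (β := l2 𝕜) p

variable (𝕜) in
/-- the graph of `D`. -/
noncomputable def YY : Submodule 𝕜 (WW 𝕜) where
  carrier := {p | p.snd = DD 𝕜 p.fst}
  add_mem' := fun {p q} hp hq => by
    change (p + q).snd = DD 𝕜 (p + q).fst
    rw [WW.fst_add, WW.snd_add, map_add]
    exact congrArg₂ (· + ·) hp hq
  zero_mem' := by
    change (0 : WW 𝕜).snd = DD 𝕜 (0 : WW 𝕜).fst
    rw [WW.fst_zero, WW.snd_zero, map_zero]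
  smul_mem' := fun c p hp => by
    change (c • p).snd = DD 𝕜 (c • p).fst
    rw [WW.fst_smul, WW.snd_smul, map_smul]
    exact congrArg (c • ·) hp

theorem mem_YY (p : WW 𝕜) : p ∈ YY 𝕜 ↔ p.snd = DD 𝕜 p.fst := Iff.rfl

theorem isClosed_YY : IsClosed (YY 𝕜 : Set (WW 𝕜)) :=
  isClosed_eq WW.continuous_snd ((DD 𝕜).continuous.comp WW.continuous_fst)

instance completeSpace_YY : CompleteSpace (YY 𝕜) := isClosed_YY.completeSpace_coe

theorem norm_convex (a b : WW 𝕜) :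
    2 * ‖a‖ ^ 2 + 2 * ‖b.snd‖ ^ 2 ≤ ‖a + b‖ ^ 2 + ‖a - b‖ ^ 2 := by
  rw [norm_sq (a + b), norm_sq (a - b), norm_sq a, WW.fst_add, WW.fst_sub, WW.snd_add, WW.snd_sub]
  have h5 := parallelogram_law_with_norm 𝕜 a.snd b.snd
  have h6 : 2 * ‖a.fst‖ ≤ ‖a.fst + b.fst‖ + ‖a.fst - b.fst‖ := by
    calc 2 * ‖a.fst‖ = ‖(a.fst + b.fst) + (a.fst - b.fst)‖ := by
          have : (a.fst + b.fst) + (a.fst - b.fst) = (2 : 𝕜) • a.fst := by
            have h8 : (2 : 𝕜) • a.fst = a.fst + a.fst := by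
              ext n
              simp [two_mul]
            rw [h8]
            abel
          rw [this, norm_smul, RCLike.norm_ofNat]
      _ ≤ _ := norm_add_le _ _
  have h7 := norm_nonneg a.fst
  nlinarith [sq_nonneg (‖a.fst + b.fst‖ - ‖a.fst - b.fst‖)]

variable (𝕜) in
/-- the identity from `c₀` onto `Y`. -/
noncomputable def TT : C₀(ℕ, 𝕜) →L[𝕜] YY 𝕜 :=
  LinearMap.mkContinuous
    { toFun := fun x => ⟨WW.mk x (DD 𝕜 x), rfl⟩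
      map_add' := fun x y => by
        apply Subtype.ext
        change WW.mk (x + y) (DD 𝕜 (x + y)) = _
        rw [map_add]
        rfl
      map_smul' := fun c x => by
        apply Subtype.ext
        change WW.mk (c • x) (DD 𝕜 (c • x)) = _
        rw [map_smul]
        rfl }
    3 (fun x => by
      have h1 : ‖(WW.mk x (DD 𝕜 x) : WW 𝕜)‖ ^ 2
          = ‖x‖ ^ 2 + ‖DD 𝕜 x‖ ^ 2 := norm_sq _
      have h2 := norm_DD_le x
      have h3 : ‖(WW.mk x (DD 𝕜 x) : WW 𝕜)‖ ^ 2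
          ≤ (3 * ‖x‖) ^ 2 := by
        rw [h1]
        nlinarith [norm_nonneg x, norm_nonneg (DD 𝕜 x)]
      exact (sq_le_sq₀ (norm_nonneg _) (by positivity)).1 h3)

theorem norm_TT_ge (x : C₀(ℕ, 𝕜)) : ‖x‖ ≤ ‖TT 𝕜 x‖ := by
  have h1 : ‖(WW.mk x (DD 𝕜 x) : WW 𝕜)‖ ^ 2
      = ‖x‖ ^ 2 + ‖DD 𝕜 x‖ ^ 2 := norm_sq _
  have h2 : ‖x‖ ^ 2 ≤ ‖TT 𝕜 x‖ ^ 2 := by
    change ‖x‖ ^ 2 ≤ ‖(WW.mk x (DD 𝕜 x) : WW 𝕜)‖ ^ 2
    rw [h1]
    nlinarith [norm_nonneg (DD 𝕜 x)]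
  exact (sq_le_sq₀ (norm_nonneg _) (norm_nonneg _)).1 h2

theorem ker_of_attains (S : C₀(ℕ, 𝕜) →L[𝕜] YY 𝕜) (x : C₀(ℕ, 𝕜)) (hx : ‖x‖ = 1)
    (hS : ‖S x‖ = ‖S‖) : ∃ n, S (ev n) = 0 := by
  have h1 : ∀ᶠ n in atTop, ‖x n‖ < 1 / 2 := by
    have h2 := (c0_tendsto x).norm
    rw [norm_zero] at h2
    exact h2.eventually (gt_mem_nhds (by norm_num))
  obtain ⟨n, hn⟩ := h1.exists
  refine ⟨n, ?_⟩
  have h3 : ‖(1 / 2 : 𝕜)‖ = 1 / 2 := by
    rw [norm_div, norm_one, RCLike.norm_ofNat]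
  have hb : ∀ c : 𝕜, ‖c‖ = 1 / 2 → ‖x + c • ev n‖ ≤ 1 := fun c hc => by
    refine c0_norm_le zero_le_one fun m => ?_
    rw [ZeroAtInftyContinuousMap.add_apply, ZeroAtInftyContinuousMap.smul_apply, ev_apply]
    split_ifs with h
    · subst h
      rw [smul_eq_mul, mul_one]
      calc ‖x m + c‖ ≤ ‖x m‖ + ‖c‖ := norm_add_le _ _
        _ ≤ 1 := by linarith
    · rw [smul_zero, add_zero, ← hx]
      exact c0_coord_le x m
  have hplus : ‖S x + (1 / 2 : 𝕜) • S (ev n)‖ ≤ ‖S‖ := by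
    rw [← map_smul, ← map_add]
    exact S.unit_le_opNorm _ (hb _ h3)
  have hminus : ‖S x - (1 / 2 : 𝕜) • S (ev n)‖ ≤ ‖S‖ := by
    have h4 : x - (1 / 2 : 𝕜) • (ev n : C₀(ℕ, 𝕜)) = x + (-(1 / 2 : 𝕜)) • ev n := by
      ext m
      simp [sub_eq_add_neg]
    rw [← map_smul, ← map_sub, h4]
    exact S.unit_le_opNorm _ (hb _ (by rw [norm_neg, h3]))
  set a := S x
  set b := (1 / 2 : 𝕜) • S (ev n) with hbdef
  have h4 := norm_convex (a : WW 𝕜) b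
  have h5 : ‖(a : WW 𝕜) + b‖ = ‖a + b‖ := rfl
  have h6 : ‖(a : WW 𝕜) - b‖ = ‖a - b‖ := rfl
  have h7 : ‖(a : WW 𝕜)‖ = ‖a‖ := rfl
  rw [h5, h6, h7, hS] at h4
  have h8 : ‖a + b‖ ^ 2 ≤ ‖S‖ ^ 2 := pow_le_pow_left₀ (norm_nonneg _) hplus 2
  have h9 : ‖a - b‖ ^ 2 ≤ ‖S‖ ^ 2 := pow_le_pow_left₀ (norm_nonneg _) hminus 2
  have h10 : ‖(b : WW 𝕜).snd‖ ^ 2 = 0 := by
    have := sq_nonneg ‖(b : WW 𝕜).snd‖
    linarith
  have h11 : (b : WW 𝕜).snd = 0 := by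
    rw [sq_eq_zero_iff, norm_eq_zero] at h10
    exact h10
  have h12 := b.2
  rw [mem_YY, h11] at h12
  have h13 := DD_inj h12.symm
  have h14 : b = 0 := by
    apply Subtype.ext
    have h15 : ‖(b : WW 𝕜)‖ ^ 2 = 0 := by
      rw [norm_sq, h11, h13, norm_zero, norm_zero]
      norm_num
    rw [sq_eq_zero_iff, norm_eq_zero] at h15
    exact h15
  rw [hbdef, smul_eq_zero] at h14
  rcases h14 with h14 | h14
  · norm_num at h14
  · exact h14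

theorem far_of_attains (S : C₀(ℕ, 𝕜) →L[𝕜] YY 𝕜) (x : C₀(ℕ, 𝕜)) (hx : ‖x‖ = 1)
    (hS : ‖S x‖ = ‖S‖) : 1 ≤ ‖S - TT 𝕜‖ := by
  obtain ⟨n, hn⟩ := ker_of_attains S x hx hS
  calc (1 : ℝ) = ‖(ev n : C₀(ℕ, 𝕜))‖ := (norm_ev n).symm
    _ ≤ ‖TT 𝕜 (ev n)‖ := norm_TT_ge _
    _ = ‖(S - TT 𝕜) (ev n)‖ := by
        rw [ContinuousLinearMap.sub_apply, hn, zero_sub, norm_neg]
    _ ≤ ‖S - TT 𝕜‖ := by
        have := (S - TT 𝕜).le_opNorm (ev n)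
        rwa [norm_ev, mul_one] at this

instance : Nontrivial C₀(ℕ, 𝕜) := ⟨⟨ev 0, 0, fun h => by
  have h1 := norm_ev (𝕜 := 𝕜) 0
  rw [h, norm_zero] at h1
  exact zero_ne_one h1⟩⟩

end target

section transfer

variable {𝕜 : Type u} [RCLike 𝕜] {V : Type v} [NormedAddCommGroup V] [NormedSpace 𝕜 V]
  [CompleteSpace V] {Y : Type w} [NormedAddCommGroup Y] [NormedSpace 𝕜 Y]

theorem not_dense_of_iso {W : Type*} [NormedAddCommGroup W] [NormedSpace 𝕜 W]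
    (e : V ≃ₗᵢ[𝕜] W) (T : V →L[𝕜] Y)
    (h : ∀ (S : V →L[𝕜] Y) (x : V), ‖x‖ = 1 → ‖S x‖ = ‖S‖ → 1 ≤ ‖S - T‖) :
    ¬ Dense (NA 𝕜 W Y) := by
  intro hd
  rw [Metric.dense_iff] at hd
  set T' : W →L[𝕜] Y :=
    T ∘L (e.symm.toContinuousLinearEquiv : W →L[𝕜] V) with hT'
  obtain ⟨S', hS'b, x', hx', hS'⟩ := hd T' 1 one_pos
  rw [Metric.mem_ball, dist_eq_norm] at hS'b
  set S : V →L[𝕜] Y :=
    S' ∘L (e.toContinuousLinearEquiv : V →L[𝕜] W) with hS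
  have hSle : ‖S‖ ≤ ‖S'‖ := by
    refine ContinuousLinearMap.opNorm_le_bound _ (norm_nonneg _) fun v => ?_
    change ‖S' (e v)‖ ≤ _
    have := S'.le_opNorm (e v)
    rwa [e.norm_map] at this
  have hx : ‖e.symm x'‖ = 1 := by rw [e.symm.norm_map, hx']
  have hSx : S (e.symm x') = S' x' := by
    change S' (e (e.symm x')) = _
    rw [e.apply_symm_apply]
  have hat : ‖S (e.symm x')‖ = ‖S‖ := by
    refine le_antisymm ?_ ?_
    · have := S.le_opNorm (e.symm x')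
      rwa [hx, mul_one] at this
    · rw [hSx, hS']
      exact hSle
  have hfar := h S _ hx hat
  have hle : ‖S - T‖ ≤ ‖S' - T'‖ := by
    refine ContinuousLinearMap.opNorm_le_bound _ (norm_nonneg _) fun v => ?_
    have h1 : (S - T) v = (S' - T') (e v) := by
      rw [ContinuousLinearMap.sub_apply, ContinuousLinearMap.sub_apply]
      change S' (e v) - _ = S' (e v) - T (e.symm (e v))
      rw [e.symm_apply_apply]
    rw [h1]
    have := (S' - T').le_opNorm (e v)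
    rwa [e.norm_map] at this
  linarith

end transfer

/-- the general embedding. -/
theorem exists_embedding (𝕜 : Type u) [RCLike 𝕜] (V : Type u) [NormedAddCommGroup V]
    [NormedSpace 𝕜 V] [CompleteSpace V] [Nontrivial V] :
    ∃ (X : Type u) (_ : NormedAddCommGroup X) (_ : NormedSpace 𝕜 X) (_ : CompleteSpace X)
      (X₁ : Submodule 𝕜 X), OneComplemented X₁ ∧ IsClosed (X₁ : Set X) ∧
      Nonempty (V ≃ₗᵢ[𝕜] X₁) ∧
      ∀ (Z : Type u) (_ : NormedAddCommGroup Z) (_ : NormedSpace 𝕜 Z), Dense (NA 𝕜 X Z) :=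
  ⟨XX 𝕜 V, inferInstance, inferInstance, inferInstance, X1 𝕜 V, oneComplemented_X1, isClosed_X1,
    ⟨(JJ 𝕜 V).equivRange⟩, fun Z _ _ => dense_NA_XX Z⟩

/-- the general counterexample. -/
theorem exists_counterexample (𝕜 : Type u) [RCLike 𝕜] (V : Type u) [NormedAddCommGroup V]
    [NormedSpace 𝕜 V] [CompleteSpace V] [Nontrivial V] (Y : Type u) [NormedAddCommGroup Y]
    [NormedSpace 𝕜 Y] [CompleteSpace Y] (T : V →L[𝕜] Y)
    (h : ∀ (S : V →L[𝕜] Y) (x : V), ‖x‖ = 1 → ‖S x‖ = ‖S‖ → 1 ≤ ‖S - T‖) :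
    ∃ (X : Type u) (_ : NormedAddCommGroup X) (_ : NormedSpace 𝕜 X) (_ : CompleteSpace X)
      (Y : Type u) (_ : NormedAddCommGroup Y) (_ : NormedSpace 𝕜 Y) (_ : CompleteSpace Y)
      (X₁ : Submodule 𝕜 X), Nontrivial X₁ ∧ OneComplemented X₁ ∧ IsClosed (X₁ : Set X) ∧
      Dense (NA 𝕜 X Y) ∧ ¬ Dense (NA 𝕜 X₁ Y) :=
  ⟨XX 𝕜 V, inferInstance, inferInstance, inferInstance, Y, inferInstance, inferInstance,
    inferInstance, X1 𝕜 V, (JJ 𝕜 V).equivRange.injective.nontrivial, oneComplemented_X1,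
    isClosed_X1, dense_NA_XX Y, not_dense_of_iso (JJ 𝕜 V).equivRange T h⟩

theorem counterexample (𝕜 : Type u) [RCLike 𝕜] :
    ∃ (X : Type u) (_ : NormedAddCommGroup X) (_ : NormedSpace 𝕜 X) (_ : CompleteSpace X)
      (Y : Type u) (_ : NormedAddCommGroup Y) (_ : NormedSpace 𝕜 Y) (_ : CompleteSpace Y)
      (X₁ : Submodule 𝕜 X), Nontrivial X₁ ∧ OneComplemented X₁ ∧ IsClosed (X₁ : Set X) ∧
      Dense (NA 𝕜 X Y) ∧ ¬ Dense (NA 𝕜 X₁ Y) :=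
  exists_counterexample 𝕜 C₀(ℕ, 𝕜) (YY 𝕜) (TT 𝕜) far_of_attains

end Pool.Agent.R287.NA
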