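import Mathlib

/-! Reducing Agler subspaces on the bidisk: definitions and basic facts. -/

set_option autoImplicit false
open scoped ComplexConjugate InnerProductSpace
open Complex MeasureTheory Filter Topology

namespace Pool.Agent.R287.RA

noncomputable section

/-- The open unit bidisk. -/
def D2 : Set (ℂ × ℂ) := {z | ‖z.1‖ < 1 ∧ ‖z.2‖ < 1}

/-- The Hardy space of the bidisk, as the space of square summable families of Taylor
coefficients. -/
abbrev H : Type := lp (fun _ : ℕ × ℕ => ℂ) 2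

/-- The monomial `z₁^q₁ z₂^q₂`. -/
def mono (z : ℂ × ℂ) (q : ℕ × ℕ) : ℂ := z.1 ^ q.1 * z.2 ^ q.2

/-- The value at `z` of the function with Taylor coefficients `f`. -/
def ev (f : H) (z : ℂ × ℂ) : ℂ := ∑' q, f q * mono z q

/-- The monomials as elements of the Hardy space. -/
def e (p : ℕ × ℕ) : H := lp.single 2 p 1

lemma e_apply (p q : ℕ × ℕ) : e p q = if q = p then 1 else 0 := by
  unfold e
  rw [lp.single_apply, Pi.single_apply]

lemma inner_e_left (p : ℕ × ℕ) (f : H) : ⟪e p, f⟫_ℂ = f p := by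
  unfold e
  rw [lp.inner_single_left]
  simp

lemma orthonormal_e : Orthonormal ℂ e := by
  rw [orthonormal_iff_ite]
  intro i j
  rw [inner_e_left, e_apply]

/-- The isometry of the Hardy space which sends the monomials to a given orthonormal family. -/
def iso (v : ℕ × ℕ → H) (hv : Orthonormal ℂ v) : H →ₗᵢ[ℂ] H := hv.orthogonalFamily.linearIsometry

lemma iso_e (v : ℕ × ℕ → H) (hv : Orthonormal ℂ v) (p : ℕ × ℕ) : iso v hv (e p) = v p := by
  unfold iso e
  rw [OrthogonalFamily.linearIsometry_apply_single]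
  simp

lemma iso_hasSum (v : ℕ × ℕ → H) (hv : Orthonormal ℂ v) (f : H) :
    HasSum (fun p => f p • v p) (iso v hv f) := by
  have := hv.orthogonalFamily.hasSum_linearIsometry f
  simpa [iso] using this

/-- Multiplication by the monomial `z^q`: the shift of Taylor coefficients by `q`. -/
def T (q : ℕ × ℕ) : H →ₗᵢ[ℂ] H :=
  iso (fun p => e (p + q)) (orthonormal_e.comp _ (fun _ _ h => add_right_cancel h))

lemma T_e (q p : ℕ × ℕ) : T q (e p) = e (p + q) := iso_e _ _ _

lemma T_hasSum (q : ℕ × ℕ) (f : H) : HasSum (fun p => f p • e (p + q)) (T q f) := iso_hasSum _ _ f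

lemma hasSum_e (f : H) : HasSum (fun p => f p • e p) f := by
  have := lp.hasSum_single (p := 2) (by norm_num) f
  convert this using 2 with p
  unfold e
  ext q
  simp [lp.single_apply, Pi.single_apply]

/-- A bounded function on the bidisk with a power series expansion there, and with boundary
values of modulus one almost everywhere on the torus, along radii. -/
def Inner2 (θ : ℂ × ℂ → ℂ) : Prop :=
  (∃ a : ℕ × ℕ → ℂ, ∀ z ∈ D2, HasSum (fun q => a q * mono z q) (θ z)) ∧
  (∃ M : ℝ, ∀ z ∈ D2, ‖θ z‖ ≤ M) ∧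
  ∀ᵐ t : ℝ × ℝ, Tendsto (fun r : ℝ => ‖θ ((r : ℂ) * exp (t.1 * I), (r : ℂ) * exp (t.2 * I))‖)
    (𝓝[<] 1) (𝓝 1)

/-- An inner function of one variable. -/
def Inner1 (φ : ℂ → ℂ) : Prop :=
  (∃ a : ℕ → ℂ, ∀ z : ℂ, ‖z‖ < 1 → HasSum (fun n => a n * z ^ n) (φ z)) ∧
  (∃ M : ℝ, ∀ z : ℂ, ‖z‖ < 1 → ‖φ z‖ ≤ M) ∧
  ∀ᵐ t : ℝ, Tendsto (fun r : ℝ => ‖φ ((r : ℂ) * exp (t * I))‖) (𝓝[<] 1) (𝓝 1)

lemma summable_mono {z : ℂ × ℂ} (hz : z ∈ D2) : Summable fun q => ‖mono z q‖ := by
  have h1 : Summable fun m : ℕ => ‖z.1‖ ^ m := summable_geometric_of_lt_one (norm_nonneg _) hz.1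
  have h2 : Summable fun m : ℕ => ‖z.2‖ ^ m := summable_geometric_of_lt_one (norm_nonneg _) hz.2
  have := h1.mul_of_nonneg h2 (fun _ => by positivity) (fun _ => by positivity)
  refine this.congr fun q => ?_
  simp [mono]

lemma memℓp_mono {z : ℂ × ℂ} (hz : z ∈ D2) : Memℓp (fun q => conj (mono z q)) 2 := by
  have h : Memℓp (fun q => conj (mono z q)) 1 := by
    apply memℓp_gen
    simpa using summable_mono hz
  exact h.of_exponent_ge (by norm_num)

open Classical in
/-- The Szegő kernel function at a point of the bidisk. -/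
def kz (z : ℂ × ℂ) : H := if h : z ∈ D2 then ⟨fun q => conj (mono z q), memℓp_mono h⟩ else 0

lemma kz_apply {z : ℂ × ℂ} (hz : z ∈ D2) (q : ℕ × ℕ) : kz z q = conj (mono z q) := by
  unfold kz; rw [dif_pos hz]

lemma ev_eq {z : ℂ × ℂ} (hz : z ∈ D2) (f : H) : ev f z = ⟪kz z, f⟫_ℂ := by
  rw [lp.inner_eq_tsum]
  unfold ev
  congr 1
  ext q
  rw [kz_apply hz]
  simp

lemma ev_hasSum {z : ℂ × ℂ} (hz : z ∈ D2) (f : H) : HasSum (fun q => f q * mono z q) (ev f z) := by
  have h := lp.hasSum_inner (𝕜 := ℂ) (kz z) f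
  rw [← ev_eq hz] at h
  have h2 : (fun i => ⟪kz z i, f i⟫_ℂ) = fun q => f q * mono z q := by
    ext q
    rw [kz_apply hz]
    simp
  rw [← h2]
  exact h

lemma ev_add {z : ℂ × ℂ} (hz : z ∈ D2) (f g : H) : ev (f + g) z = ev f z + ev g z := by
  simp only [ev_eq hz, inner_add_right]

lemma ev_sub {z : ℂ × ℂ} (hz : z ∈ D2) (f g : H) : ev (f - g) z = ev f z - ev g z := by
  simp only [ev_eq hz, inner_sub_right]

lemma ev_smul {z : ℂ × ℂ} (hz : z ∈ D2) (c : ℂ) (f : H) : ev (c • f) z = c * ev f z := by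
  simp only [ev_eq hz, inner_smul_right]

lemma ev_e {z : ℂ × ℂ} (hz : z ∈ D2) (p : ℕ × ℕ) : ev (e p) z = mono z p := by
  rw [ev_eq hz, ← inner_conj_symm, inner_e_left, kz_apply hz]
  simp

lemma ev_iso {z : ℂ × ℂ} (hz : z ∈ D2) (v : ℕ × ℕ → H) (hv : Orthonormal ℂ v) (f : H) :
    HasSum (fun p => f p * ev (v p) z) (ev (iso v hv f) z) := by
  have := (iso_hasSum v hv f).mapL (innerSL ℂ (kz z))
  simp only [innerSL_apply_apply, ← ev_eq hz, ev_smul hz] at this
  exact this

lemma mono_add (z : ℂ × ℂ) (p q : ℕ × ℕ) : mono z (p + q) = mono z p * mono z q := by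
  simp [mono, pow_add]; ring

lemma ev_T {z : ℂ × ℂ} (hz : z ∈ D2) (q : ℕ × ℕ) (f : H) : ev (T q f) z = mono z q * ev f z := by
  have h1 := ev_iso hz (fun p => e (p + q)) (orthonormal_e.comp _ (fun _ _ h => add_right_cancel h)) f
  simp only [ev_e hz, mono_add] at h1
  have h2 := (ev_hasSum hz f).mul_left (mono z q)
  refine h1.unique ?_
  have h3 : (fun p => f p * (mono z p * mono z q)) = fun p => mono z q * (f p * mono z p) := by
    ext p; ring
  rw [h3]
  exact h2

/-- Uniqueness of power series in one variable. -/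
lemma uniq1 (a : ℕ → ℂ) (h : ∀ x : ℂ, ‖x‖ < 1 → HasSum (fun n => a n * x ^ n) 0) (n : ℕ) :
    a n = 0 := by
  have h1 : HasFPowerSeriesOnBall (fun _ : ℂ => (0 : ℂ)) (FormalMultilinearSeries.ofScalars ℂ a) 0 1 := by
    refine ⟨?_, by norm_num, ?_⟩
    · refine ENNReal.le_of_forall_nnreal_lt fun r hr => ?_
      have hr1 : (r : ℝ) < 1 := by exact_mod_cast hr
      refine FormalMultilinearSeries.le_radius_of_summable_norm _ ?_
      have := (h (r : ℂ) (by simpa using hr1)).summable.norm
      refine this.congr fun m => ?_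
      rw [FormalMultilinearSeries.ofScalars_norm]
      simp
    · intro y hy
      have hy0 : ‖y‖ₑ < 1 := by simpa using hy
      have hy1 : ‖y‖ < 1 := by
        rw [enorm_eq_nnnorm, ENNReal.coe_lt_one_iff] at hy0
        exact_mod_cast hy0
      have := h y hy1
      simpa [FormalMultilinearSeries.ofScalars_apply_eq, mul_comm] using this
  have h2 := h1.hasFPowerSeriesAt.eq_zero
  have h3 := congrArg (fun p => p.coeff n) h2
  rw [FormalMultilinearSeries.coeff_ofScalars] at h3
  rw [h3]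
  rfl

lemma ev_injective {f g : H} (h : ∀ z ∈ D2, ev f z = ev g z) : f = g := by
  rw [← sub_eq_zero]
  set u := f - g with hu
  have hu0 : ∀ z ∈ D2, HasSum (fun q => u q * mono z q) 0 := by
    intro z hz
    have := ev_hasSum hz u
    rwa [hu, ev_sub hz, h z hz, sub_self] at this
  have key : ∀ m n, u (m, n) = 0 := by
    intro m
    have : ∀ y : ℂ, ‖y‖ < 1 → ∀ m, HasSum (fun n => u (m, n) * y ^ n) 0 := by
      intro y hy m
      have hs : ∀ x : ℂ, ‖x‖ < 1 → ∀ m, Summable fun n => u (m, n) * mono (x, y) (m, n) := by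
        intro x hx m
        exact (hu0 (x, y) ⟨hx, hy⟩).summable.prod_factor m
      have hs2 : ∀ m, Summable fun n => u (m, n) * y ^ n := by
        intro m
        have := (hs (1/2) (by norm_num) m).mul_left (((1/2 : ℂ) ^ m)⁻¹)
        refine this.congr fun n => ?_
        simp only [mono]
        field_simp
      have h3 := uniq1 (fun m => ∑' n, u (m, n) * y ^ n) (fun x hx => by
        have := (hu0 (x, y) ⟨hx, hy⟩).prod_fiberwise (fun m => (hs x hx m).hasSum)
        convert this using 2 with m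
        rw [← tsum_mul_right]
        congr 1
        ext n
        simp only [mono]
        ring) m
      rw [← h3]
      exact (hs2 m).hasSum
    intro n
    exact uniq1 (fun n => u (m, n)) (fun y hy => this y hy m) n
  ext q
  exact key q.1 q.2

end

end Pool.Agent.R287.RA
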