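import Pool.Agent.R287.RAa

/-! Reducing Agler subspaces on the bidisk: model space, compressed shifts, Agler kernels. -/

set_option autoImplicit false
open scoped ComplexConjugate InnerProductSpace
open Complex MeasureTheory Filter Topology

namespace Pool.Agent.R287.RA

noncomputable section

lemma ev_zero (z : ℂ × ℂ) : ev 0 z = 0 := by simp [ev]

/-- The space `θ H²`. -/
def thetaH (θ : ℂ × ℂ → ℂ) : Submodule ℂ H where
  carrier := {h | ∃ g : H, ∀ z ∈ D2, ev h z = θ z * ev g z}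
  zero_mem' := ⟨0, fun z _ => by simp [ev_zero]⟩
  add_mem' := by
    rintro f g ⟨f', hf⟩ ⟨g', hg⟩
    exact ⟨f' + g', fun z hz => by rw [ev_add hz, ev_add hz, hf z hz, hg z hz]; ring⟩
  smul_mem' := by
    rintro c f ⟨f', hf⟩
    exact ⟨c • f', fun z hz => by rw [ev_smul hz, ev_smul hz, hf z hz]; ring⟩

/-- The model space `H² ⊖ θ H²`. -/
abbrev K (θ : ℂ × ℂ → ℂ) : Submodule ℂ H := (thetaH θ)ᗮ

/-- The compression to the model space of the multiplication by the monomial `z^q`; the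
compressed shifts are the cases `q = (1, 0)` and `q = (0, 1)`. -/
def Sz (θ : ℂ × ℂ → ℂ) (q : ℕ × ℕ) : K θ →L[ℂ] K θ :=
  (K θ).orthogonalProjection ∘L (T q).toContinuousLinearMap ∘L (K θ).subtypeL

/-- Positive kernels on the bidisk. -/
def PosKer (L : ℂ × ℂ → ℂ × ℂ → ℂ) : Prop :=
  ∀ (n : ℕ) (z : Fin n → ℂ × ℂ) (c : Fin n → ℂ), (∀ i, z i ∈ D2) →
    ∃ x : ℝ, 0 ≤ x ∧ ∑ i, ∑ j, conj (c i) * c j * L (z i) (z j) = (x : ℂ)

/-- The function `g` belongs to the reproducing kernel Hilbert space of `L` (Aronszajn's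
characterisation). -/
def InRKHS (L : ℂ × ℂ → ℂ × ℂ → ℂ) (g : ℂ × ℂ → ℂ) : Prop :=
  ∃ C : ℝ, 0 ≤ C ∧ PosKer fun z w => (C : ℂ) * L z w - g z * conj (g w)

/-- The reproducing kernel Hilbert space of `L`, viewed inside the Hardy space. -/
def agl (L : ℂ × ℂ → ℂ × ℂ → ℂ) : Set H := {f | InRKHS L (ev f)}

/-- A set of vectors of the model space is invariant under the compression `Sz θ q` and under
its adjoint. -/
def Reduces (θ : ℂ × ℂ → ℂ) (q : ℕ × ℕ) (S : Set H) : Prop :=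
  ∀ f : K θ, (f : H) ∈ S →
    ((Sz θ q f : K θ) : H) ∈ S ∧ ((ContinuousLinearMap.adjoint (Sz θ q) f : K θ) : H) ∈ S

/-- For some pair of Agler kernels of `θ` both Agler subspaces are reducing for the compression
`Sz θ q`. -/
def HasReducing (θ : ℂ × ℂ → ℂ) (q : ℕ × ℕ) : Prop :=
  ∃ K₁ K₂ : ℂ × ℂ → ℂ × ℂ → ℂ, PosKer K₁ ∧ PosKer K₂ ∧
    (∀ z ∈ D2, ∀ w ∈ D2, 1 - θ z * conj (θ w) =
      (1 - z.1 * conj w.1) * K₂ z w + (1 - z.2 * conj w.2) * K₁ z w) ∧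
    Reduces θ q (agl fun z w => K₁ z w / (1 - z.1 * conj w.1)) ∧
    Reduces θ q (agl fun z w => K₂ z w / (1 - z.2 * conj w.2))

/-- The values of the Szegő kernel. -/
lemma ev_kz {z w : ℂ × ℂ} (hz : z ∈ D2) (hw : w ∈ D2) :
    ev (kz w) z = 1 / ((1 - z.1 * conj w.1) * (1 - z.2 * conj w.2)) := by
  have n1 : ‖z.1 * conj w.1‖ < 1 := by
    rw [norm_mul, RCLike.norm_conj]
    nlinarith [hz.1, hw.1, norm_nonneg z.1, norm_nonneg w.1]
  have n2 : ‖z.2 * conj w.2‖ < 1 := by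
    rw [norm_mul, RCLike.norm_conj]
    nlinarith [hz.2, hw.2, norm_nonneg z.2, norm_nonneg w.2]
  have h1 := hasSum_geometric_of_norm_lt_one n1
  have h2 := hasSum_geometric_of_norm_lt_one n2
  have h3 := h1.mul h2 (summable_mul_of_summable_norm (summable_norm_geometric_of_norm_lt_one n1)
    (summable_norm_geometric_of_norm_lt_one n2))
  have h4 := ev_hasSum hz (kz w)
  have h5 : (fun q => kz w q * mono z q) =
      fun q : ℕ × ℕ => (z.1 * conj w.1) ^ q.1 * (z.2 * conj w.2) ^ q.2 := by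
    ext q
    rw [kz_apply hw]
    simp only [mono, map_mul, map_pow, mul_pow]
    ring
  rw [h5] at h4
  rw [h4.unique h3, one_div, mul_inv]

/-! ### Statements of the pieces -/

/-- Piece 1: multiplication by an inner function. -/
def S_P1 : Prop :=
  ∀ θ : ℂ × ℂ → ℂ, Inner2 θ → ∃ (Th : H →ₗᵢ[ℂ] H) (a : H),
    (∀ f : H, ∀ z ∈ D2, ev (Th f) z = θ z * ev f z) ∧ (∀ z ∈ D2, ev a z = θ z) ∧
    ∀ g y : H, Tendsto (fun r : ℝ => ∑' q : ℕ × ℕ, a q * (r : ℂ) ^ (q.1 + q.2) * ⟪y, T q g⟫_ℂ)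
      (𝓝[<] 1) (𝓝 ⟪y, Th g⟫_ℂ)

/-- Piece 2a. -/
def S_P2a : Prop :=
  ∀ g : ℂ × ℂ → ℂ, InRKHS (fun z w => ev (kz w) z) g → ∃ f : H, ∀ z ∈ D2, ev f z = g z

/-- Piece 2b. -/
def S_P2b : Prop :=
  ∀ (M : Submodule ℂ H) [M.HasOrthogonalProjection] (f : H),
    InRKHS (fun z w => ev (M.starProjection (kz w)) z) (ev f) ↔ f ∈ M

/-- Piece 2c. -/
def S_P2c : Prop :=
  ∀ L : ℂ × ℂ → ℂ × ℂ → ℂ, PosKer L →
    PosKer (fun z w => L z w / (1 - z.1 * conj w.1)) ∧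
    PosKer (fun z w => L z w / (1 - z.2 * conj w.2))

/-- Piece 3 (innerness of the factors). -/
def S_P3 : Prop :=
  ∀ θ : ℂ × ℂ → ℂ, Inner2 θ → ∀ A B : ℂ → ℂ, (∀ z ∈ D2, θ z = A z.1 * B z.2) →
    ∃ φ ψ : ℂ → ℂ, Inner1 φ ∧ Inner1 ψ ∧ ∀ z ∈ D2, θ z = φ z.1 * ψ z.2

/-- Piece 4 (products have reducing Agler subspaces). -/
def S_P4 : Prop :=
  ∀ (θ : ℂ × ℂ → ℂ) (φ ψ : ℂ → ℂ), Inner1 φ → Inner1 ψ → (∀ z ∈ D2, θ z = φ z.1 * ψ z.2) →
    HasReducing θ (1, 0)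

end

end Pool.Agent.R287.RA
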