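import Pool.Agent.R287.RAb

/-! Reducing Agler subspaces on the bidisk: multiplication by an inner function (piece 1). -/

set_option autoImplicit false
open scoped ComplexConjugate InnerProductSpace BoundedContinuousFunction
open Complex MeasureTheory Filter Topology

namespace Pool.Agent.R287.RA

noncomputable section

namespace P1

/-- normalized Lebesgue measure on a period -/
def ν : Measure ℝ := (ENNReal.ofReal (2 * Real.pi))⁻¹ • volume.restrict (Set.Ioc 0 (2 * Real.pi))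

instance : IsProbabilityMeasure ν := ⟨by
  have h : ENNReal.ofReal (2 * Real.pi) ≠ 0 := by
    have := Real.pi_pos
    simp only [ne_eq, ENNReal.ofReal_eq_zero, not_le]
    positivity
  unfold ν
  rw [Measure.smul_apply, Measure.restrict_apply MeasurableSet.univ, Set.univ_inter,
    Real.volume_Ioc, sub_zero, smul_eq_mul]
  exact ENNReal.inv_mul_cancel h ENNReal.ofReal_ne_top⟩

/-- normalized Lebesgue measure on the torus -/
def μ : Measure (ℝ × ℝ) := ν.prod ν

instance : IsProbabilityMeasure μ := by unfold μ; infer_instance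

lemma μ_ac : μ ≪ volume := by
  have h : ν ≪ volume :=
    Measure.smul_absolutelyContinuous.trans Measure.restrict_le_self.absolutelyContinuous
  exact h.prod h

lemma int1 (m n : ℕ) : ∫ t : ℝ, exp (((n : ℂ) - m) * I * t) ∂ν = if n = m then 1 else 0 := by
  have hpi := Real.pi_pos
  unfold ν
  rw [integral_smul_measure, ← intervalIntegral.integral_of_le (by positivity)]
  split_ifs with h
  · subst h
    simp only [sub_self, zero_mul, exp_zero, intervalIntegral.integral_const, sub_zero]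
    rw [ENNReal.toReal_inv, ENNReal.toReal_ofReal (by positivity), smul_smul,
      inv_mul_cancel₀ (by positivity)]
    simp
  · have hc : ((n : ℂ) - m) * I ≠ 0 := by
      apply mul_ne_zero _ I_ne_zero
      rw [sub_ne_zero]
      exact_mod_cast h
    rw [integral_exp_mul_complex hc]
    have h1 : ((n : ℂ) - m) * I * ((2 * Real.pi : ℝ) : ℂ) = (((n : ℤ) - m : ℤ) : ℂ) * (2 * Real.pi * I) := by
      push_cast; ring
    rw [h1, exp_int_mul_two_pi_mul_I]
    simp

/-- characters -/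
def χ (q : ℕ × ℕ) : ℝ × ℝ →ᵇ ℂ :=
  BoundedContinuousFunction.ofNormedAddCommGroup
    (fun t : ℝ × ℝ => exp ((((q.1 : ℝ) * t.1 + (q.2 : ℝ) * t.2 : ℝ) : ℂ) * I)) (by fun_prop) 1
    (fun t => (Complex.norm_exp_ofReal_mul_I _).le)

lemma χ_apply (q : ℕ × ℕ) (t : ℝ × ℝ) :
    χ q t = exp ((((q.1 : ℝ) * t.1 + (q.2 : ℝ) * t.2 : ℝ) : ℂ) * I) := rfl

lemma χ_norm (q : ℕ × ℕ) : ‖χ q‖ ≤ 1 :=
  BoundedContinuousFunction.norm_ofNormedAddCommGroup_le _ zero_le_one _

lemma χ_norm_apply (q : ℕ × ℕ) (t : ℝ × ℝ) : ‖χ q t‖ = 1 := by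
  rw [χ_apply]; exact Complex.norm_exp_ofReal_mul_I _

lemma χ_add (p q : ℕ × ℕ) : χ (p + q) = χ p * χ q := by
  ext t
  rw [BoundedContinuousFunction.mul_apply, χ_apply, χ_apply, χ_apply, ← exp_add]
  congr 1
  push_cast [Prod.fst_add, Prod.snd_add]
  ring

lemma int2 (p q : ℕ × ℕ) : ∫ t, χ q t * conj (χ p t) ∂μ = if q = p then 1 else 0 := by
  have h : ∀ t : ℝ × ℝ, χ q t * conj (χ p t) =
      exp (((q.1 : ℂ) - p.1) * I * t.1) * exp (((q.2 : ℂ) - p.2) * I * t.2) := by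
    intro t
    rw [χ_apply, χ_apply, ← exp_conj, ← exp_add, ← exp_add]
    congr 1
    rw [map_mul, conj_I, conj_ofReal]
    push_cast
    ring
  simp_rw [h]
  unfold μ
  rw [integral_prod_mul (fun t : ℝ => exp (((q.1 : ℂ) - p.1) * I * t))
    (fun t : ℝ => exp (((q.2 : ℂ) - p.2) * I * t)), int1, int1]
  by_cases h1 : q.1 = p.1 <;> by_cases h2 : q.2 = p.2 <;> simp [h1, h2, Prod.ext_iff]

/-- bounded continuous functions in L² -/
abbrev J : (ℝ × ℝ →ᵇ ℂ) →L[ℂ] Lp ℂ 2 μ := BoundedContinuousFunction.toLp 2 μ ℂ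

lemma J_inner (f g : ℝ × ℝ →ᵇ ℂ) : ⟪J f, J g⟫_ℂ = ∫ t, g t * conj (f t) ∂μ :=
  BoundedContinuousFunction.inner_toLp μ f g

lemma orth_χ : Orthonormal ℂ (fun q => J (χ q)) := by
  rw [orthonormal_iff_ite]
  intro p q
  rw [J_inner, int2]
  by_cases h : q = p
  · simp [h]
  · rw [if_neg h, if_neg (fun e => h e.symm)]

/-- the isometry of the Hardy space into L² -/
def U : H →ₗᵢ[ℂ] Lp ℂ 2 μ := orth_χ.orthogonalFamily.linearIsometry

lemma U_e (p : ℕ × ℕ) : U (e p) = J (χ p) := by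
  unfold U e
  rw [OrthogonalFamily.linearIsometry_apply_single]
  simp

lemma norm_e (p : ℕ × ℕ) : ‖e p‖ = 1 := orthonormal_e.1 p

lemma J_mul_norm (F G : ℝ × ℝ →ᵇ ℂ) (M : ℝ) (hF : ∀ t, ‖F t‖ ≤ M) : ‖J (G * F)‖ ≤ M * ‖J G‖ := by
  apply Lp.norm_le_mul_norm_of_ae_le_mul
  filter_upwards [BoundedContinuousFunction.coeFn_toLp 2 μ ℂ (G * F),
    BoundedContinuousFunction.coeFn_toLp 2 μ ℂ G] with t h1 h2
  rw [h1, h2, BoundedContinuousFunction.mul_apply, norm_mul, mul_comm]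
  exact mul_le_mul_of_nonneg_right (hF t) (norm_nonneg _)

/-- the function of an absolutely summable family -/
lemma hasSum_F (c : ℕ × ℕ → ℂ) (hc : Summable fun q => ‖c q‖) :
    ∃ F : ℝ × ℝ →ᵇ ℂ, HasSum (fun q => c q • χ q) F := by
  have h : Summable fun q => c q • χ q := by
    apply Summable.of_norm_bounded hc
    intro q
    rw [norm_smul]
    exact mul_le_of_le_one_right (norm_nonneg _) (χ_norm q)
  exact ⟨_, h.hasSum⟩

/-- the operator of an absolutely summable family -/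
lemma hasSum_A (c : ℕ × ℕ → ℂ) (hc : Summable fun q => ‖c q‖) :
    ∃ A : H →L[ℂ] H, ∀ g, HasSum (fun q => c q • T q g) (A g) := by
  have h : Summable fun q => c q • (T q).toContinuousLinearMap := by
    apply Summable.of_norm_bounded hc
    intro q
    rw [norm_smul]
    exact mul_le_of_le_one_right (norm_nonneg _) (LinearIsometry.norm_toContinuousLinearMap_le _)
  exact ⟨_, fun g => h.hasSum.mapL (ContinuousLinearMap.apply ℂ H g)⟩

lemma U_A_e (c : ℕ × ℕ → ℂ) (A : H →L[ℂ] H) (hA : ∀ g, HasSum (fun q => c q • T q g) (A g))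
    (F : ℝ × ℝ →ᵇ ℂ) (hF : HasSum (fun q => c q • χ q) F) (p : ℕ × ℕ) :
    U (A (e p)) = J (χ p * F) := by
  have h1 : HasSum (fun q => c q • J (χ (p + q))) (U (A (e p))) := by
    have := (hA (e p)).mapL U.toContinuousLinearMap
    simpa [T_e, U_e] using this
  have h2 : HasSum (fun q => c q • J (χ (p + q))) (J (χ p * F)) := by
    have := (hF.mul_left (χ p)).mapL J
    simpa only [χ_add, mul_smul_comm, map_smul] using this
  exact h1.unique h2

lemma A_inner (c : ℕ × ℕ → ℂ) (A : H →L[ℂ] H) (hA : ∀ g, HasSum (fun q => c q • T q g) (A g))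
    (F : ℝ × ℝ →ᵇ ℂ) (hF : HasSum (fun q => c q • χ q) F) (p q : ℕ × ℕ) :
    ⟪A (e p), A (e q)⟫_ℂ = ∫ t, ((‖F t‖ ^ 2 : ℝ) : ℂ) * (χ q t * conj (χ p t)) ∂μ := by
  rw [← LinearIsometry.inner_map_map U, U_A_e c A hA F hF, U_A_e c A hA F hF, J_inner]
  congr 1
  ext t
  rw [BoundedContinuousFunction.mul_apply, BoundedContinuousFunction.mul_apply, map_mul]
  have : ((‖F t‖ ^ 2 : ℝ) : ℂ) = F t * conj (F t) := by
    rw [Complex.mul_conj, Complex.normSq_eq_norm_sq]
  rw [this]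
  ring

lemma A_norm_fin (c : ℕ × ℕ → ℂ) (A : H →L[ℂ] H) (hA : ∀ g, HasSum (fun q => c q • T q g) (A g))
    (F : ℝ × ℝ →ᵇ ℂ) (hF : HasSum (fun q => c q • χ q) F) (M : ℝ) (hM : ∀ t, ‖F t‖ ≤ M)
    (S : Finset (ℕ × ℕ)) (x : ℕ × ℕ → ℂ) :
    ‖A (∑ p ∈ S, x p • e p)‖ ≤ M * ‖∑ p ∈ S, x p • e p‖ := by
  rw [← U.norm_map (A _), ← U.norm_map (∑ p ∈ S, x p • e p)]
  have h1 : U (A (∑ p ∈ S, x p • e p)) = J ((∑ p ∈ S, x p • χ p) * F) := by
    rw [Finset.sum_mul, map_sum, map_sum, map_sum]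
    refine Finset.sum_congr rfl fun p _ => ?_
    rw [map_smul, map_smul, U_A_e c A hA F hF, smul_mul_assoc, map_smul]
  have h2 : U (∑ p ∈ S, x p • e p) = J (∑ p ∈ S, x p • χ p) := by
    rw [map_sum, map_sum]
    refine Finset.sum_congr rfl fun p _ => ?_
    rw [map_smul, map_smul, U_e]
  rw [h1, h2]
  exact J_mul_norm F _ M hM

lemma A_norm (c : ℕ × ℕ → ℂ) (A : H →L[ℂ] H) (hA : ∀ g, HasSum (fun q => c q • T q g) (A g))
    (F : ℝ × ℝ →ᵇ ℂ) (hF : HasSum (fun q => c q • χ q) F) (M : ℝ) (hM : ∀ t, ‖F t‖ ≤ M) (g : H) :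
    ‖A g‖ ≤ M * ‖g‖ := by
  have hg : Tendsto (fun S : Finset (ℕ × ℕ) => ∑ p ∈ S, g p • e p) atTop (𝓝 g) := hasSum_e g
  have h1 := ((A.continuous.tendsto g).comp hg).norm
  have h2 := hg.norm.const_mul M
  exact le_of_tendsto_of_tendsto' h1 h2 (fun S => A_norm_fin c A hA F hF M hM S g)

lemma strong_lim {l : Filter ℝ} (A : ℝ → H →L[ℂ] H) (B : H →L[ℂ] H) (M : ℝ)
    (hM : ∀ᶠ r in l, ∀ g, ‖A r g‖ ≤ M * ‖g‖)
    (h : ∀ p, Tendsto (fun r => A r (e p)) l (𝓝 (B (e p)))) (g : H) :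
    Tendsto (fun r => A r g) l (𝓝 (B g)) := by
  rw [Metric.tendsto_nhds]
  intro ε hε
  set C : ℝ := |M| + ‖B‖ + 1 with hC
  have hCpos : 0 < C := by positivity
  have hg : Tendsto (fun S : Finset (ℕ × ℕ) => ∑ p ∈ S, g p • e p) atTop (𝓝 g) := hasSum_e g
  obtain ⟨S, hS⟩ := (Metric.tendsto_nhds.1 hg (ε / (2 * C)) (by positivity)).exists
  set s := ∑ p ∈ S, g p • e p with hs
  rw [dist_eq_norm] at hS
  have h1 : Tendsto (fun r => A r s) l (𝓝 (B s)) := by
    have : (fun r => A r s) = fun r => ∑ p ∈ S, g p • A r (e p) := by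
      ext1 r
      rw [hs, map_sum]
      exact Finset.sum_congr rfl fun p _ => map_smul _ _ _
    rw [this, hs, map_sum]
    apply tendsto_finsetSum
    intro p _
    rw [map_smul]
    exact (h p).const_smul _
  filter_upwards [hM, Metric.tendsto_nhds.1 h1 (ε / 2) (by positivity)] with r h2 h3
  rw [dist_eq_norm] at h3 ⊢
  have h4 : A r g - B g = A r (g - s) + (A r s - B s) + B (s - g) := by
    rw [map_sub, map_sub]; abel
  have h5 : ‖A r (g - s)‖ ≤ |M| * ‖s - g‖ := by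
    rw [norm_sub_rev s g]
    exact (h2 _).trans (mul_le_mul_of_nonneg_right (le_abs_self M) (norm_nonneg _))
  have h6 : ‖B (s - g)‖ ≤ ‖B‖ * ‖s - g‖ := B.le_opNorm _
  have h7 : (|M| + ‖B‖) * ‖s - g‖ ≤ C * ‖s - g‖ :=
    mul_le_mul_of_nonneg_right (by linarith) (norm_nonneg _)
  have h8 : C * ‖s - g‖ < ε / 2 := by
    have := mul_lt_mul_of_pos_left hS hCpos
    have e1 : C * (ε / (2 * C)) = ε / 2 := by field_simp
    rwa [e1] at this
  rw [h4]
  calc ‖A r (g - s) + (A r s - B s) + B (s - g)‖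
      ≤ ‖A r (g - s)‖ + ‖A r s - B s‖ + ‖B (s - g)‖ := norm_add₃_le
    _ < ε := by nlinarith

/-- coordinates of `A (e 0)` -/
lemma A_coord (c : ℕ × ℕ → ℂ) (A : H →L[ℂ] H) (hA : ∀ g, HasSum (fun q => c q • T q g) (A g))
    (q : ℕ × ℕ) : A (e 0) q = c q := by
  have h1 := (hA (e 0)).mapL (innerSL ℂ (e q))
  simp only [innerSL_apply_apply, inner_smul_right, T_e, zero_add, inner_e_left, e_apply] at h1
  have h2 : HasSum (fun p => c p * if q = p then 1 else 0) (c q) := by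
    have := hasSum_ite_eq q (c q)
    convert this using 2 with p
    by_cases h : q = p
    · subst h; simp
    · rw [if_neg h, if_neg (fun e => h e.symm), mul_zero]
  exact h1.unique h2

lemma A_T (c : ℕ × ℕ → ℂ) (A : H →L[ℂ] H) (hA : ∀ g, HasSum (fun q => c q • T q g) (A g))
    (p : ℕ × ℕ) : A (e p) = T p (A (e 0)) := by
  have h1 := hA (e p)
  have h2 := (hA (e 0)).mapL (T p).toContinuousLinearMap
  have h3 : (fun q => (T p).toContinuousLinearMap (c q • T q (e 0))) = fun q => c q • T q (e p) := by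
    ext1 q
    rw [map_smul]
    congr 1
    rw [LinearIsometry.coe_toContinuousLinearMap, T_e, T_e, T_e, zero_add, add_comm]
  rw [h3] at h2
  exact h1.unique h2

/-- the coefficients of the dilation -/
def dil (a0 : ℕ × ℕ → ℂ) (r : ℝ) (q : ℕ × ℕ) : ℂ := a0 q * (r : ℂ) ^ (q.1 + q.2)

lemma dil_summable (θ : ℂ × ℂ → ℂ) (a0 : ℕ × ℕ → ℂ)
    (ha : ∀ z ∈ D2, HasSum (fun q => a0 q * mono z q) (θ z)) (r : ℝ) (h0 : 0 ≤ r) (h1 : r < 1) :
    Summable fun q => ‖dil a0 r q‖ := by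
  have hz : ((r : ℂ), (r : ℂ)) ∈ D2 := by
    simp [D2, abs_of_nonneg h0, h1]
  refine (ha _ hz).summable.norm.congr fun q => ?_
  simp only [dil, mono, pow_add]

lemma dil_F (θ : ℂ × ℂ → ℂ) (a0 : ℕ × ℕ → ℂ)
    (ha : ∀ z ∈ D2, HasSum (fun q => a0 q * mono z q) (θ z)) (r : ℝ) (h0 : 0 ≤ r) (h1 : r < 1)
    (F : ℝ × ℝ →ᵇ ℂ) (hF : HasSum (fun q => dil a0 r q • χ q) F) (t : ℝ × ℝ) :
    ((r : ℂ) * exp (t.1 * I), (r : ℂ) * exp (t.2 * I)) ∈ D2 ∧
    F t = θ ((r : ℂ) * exp (t.1 * I), (r : ℂ) * exp (t.2 * I)) := by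
  have hz : ((r : ℂ) * exp (t.1 * I), (r : ℂ) * exp (t.2 * I)) ∈ D2 := by
    constructor
    · simp only [norm_mul, norm_exp_ofReal_mul_I, mul_one, norm_real, Real.norm_eq_abs,
        abs_of_nonneg h0, h1]
    · simp only [norm_mul, norm_exp_ofReal_mul_I, mul_one, norm_real, Real.norm_eq_abs,
        abs_of_nonneg h0, h1]
  refine ⟨hz, ?_⟩
  have h2 := hF.mapL (BoundedContinuousFunction.evalCLM ℂ t)
  have h3 := ha _ hz
  refine h2.unique ?_
  convert h3 using 2 with q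
  rw [BoundedContinuousFunction.evalCLM_apply, BoundedContinuousFunction.smul_apply, smul_eq_mul,
    χ_apply]
  simp only [dil, mono, mul_pow, pow_add, ← exp_nat_mul]
  have : exp ((((q.1 : ℝ) * t.1 + (q.2 : ℝ) * t.2 : ℝ) : ℂ) * I) =
      exp ((q.1 : ℂ) * (t.1 * I)) * exp ((q.2 : ℂ) * (t.2 * I)) := by
    rw [← exp_add]
    congr 1
    push_cast
    ring
  rw [this]
  ring

end P1

open P1

theorem p1 : S_P1 := by
  rintro θ ⟨⟨a0, ha⟩, ⟨M, hM⟩, hae⟩
  have hM0 : 0 ≤ M := (norm_nonneg _).trans (hM (0, 0) (by simp [D2]))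
  -- the operators and the functions
  have hex : ∀ r : ℝ, ∃ (A : H →L[ℂ] H) (F : ℝ × ℝ →ᵇ ℂ), 0 ≤ r → r < 1 →
      (∀ g, HasSum (fun q => dil a0 r q • T q g) (A g)) ∧ HasSum (fun q => dil a0 r q • χ q) F := by
    intro r
    by_cases h : 0 ≤ r ∧ r < 1
    · obtain ⟨A, hA⟩ := hasSum_A (dil a0 r) (dil_summable θ a0 ha r h.1 h.2)
      obtain ⟨F, hF⟩ := hasSum_F (dil a0 r) (dil_summable θ a0 ha r h.1 h.2)
      exact ⟨A, F, fun _ _ => ⟨hA, hF⟩⟩
    · exact ⟨0, 0, fun h0 h1 => absurd ⟨h0, h1⟩ h⟩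
  choose A F hAF using hex
  have hev : ∀ᶠ r : ℝ in 𝓝[<] 1, 0 ≤ r ∧ r < 1 := by
    have h1 : ∀ᶠ r : ℝ in 𝓝[<] 1, 0 ≤ r :=
      (eventually_ge_nhds zero_lt_one).filter_mono nhdsWithin_le_nhds
    filter_upwards [h1, self_mem_nhdsWithin] with r h2 h3
    exact ⟨h2, h3⟩
  have hFM : ∀ r, 0 ≤ r → r < 1 → ∀ t, ‖F r t‖ ≤ M := by
    intro r h0 h1 t
    obtain ⟨h2, h3⟩ := dil_F θ a0 ha r h0 h1 (F r) (hAF r h0 h1).2 t
    rw [h3]
    exact hM _ h2
  have hbound : ∀ r, 0 ≤ r → r < 1 → ∀ g, ‖A r g‖ ≤ M * ‖g‖ := by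
    intro r h0 h1 g
    exact A_norm (dil a0 r) (A r) (hAF r h0 h1).1 (F r) (hAF r h0 h1).2 M (hFM r h0 h1) g
  -- limits of the inner products
  have hlim : ∀ p q, Tendsto (fun r => ⟪A r (e p), A r (e q)⟫_ℂ) (𝓝[<] 1)
      (𝓝 (if q = p then 1 else 0)) := by
    intro p q
    rw [← int2 p q]
    have h1 : Tendsto (fun r => ∫ t, ((‖F r t‖ ^ 2 : ℝ) : ℂ) * (χ q t * conj (χ p t)) ∂μ) (𝓝[<] 1)
        (𝓝 (∫ t, χ q t * conj (χ p t) ∂μ)) := by
      apply tendsto_integral_filter_of_dominated_convergence (fun _ => M ^ 2)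
      · refine Eventually.of_forall fun r => Continuous.aestronglyMeasurable ?_
        have c1 := (F r).continuous
        have c2 := (χ q).continuous
        have c3 := (χ p).continuous
        fun_prop
      · filter_upwards [hev] with r hr
        refine Eventually.of_forall fun t => ?_
        rw [norm_mul, norm_mul, RCLike.norm_conj, χ_norm_apply, χ_norm_apply, mul_one, mul_one,
          Complex.norm_real, Real.norm_eq_abs, abs_of_nonneg (sq_nonneg _)]
        exact pow_le_pow_left₀ (norm_nonneg _) (hFM r hr.1 hr.2 t) 2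
      · exact integrable_const _
      · filter_upwards [μ_ac.ae_le hae] with t ht
        have h2 : Tendsto (fun r => ‖F r t‖) (𝓝[<] 1) (𝓝 1) := by
          refine ht.congr' ?_
          filter_upwards [hev] with r hr
          rw [(dil_F θ a0 ha r hr.1 hr.2 (F r) (hAF r hr.1 hr.2).2 t).2]
        have h3 : Tendsto (fun r => ((‖F r t‖ ^ 2 : ℝ) : ℂ)) (𝓝[<] 1) (𝓝 ((1 ^ 2 : ℝ) : ℂ)) :=
          (Complex.continuous_ofReal.tendsto _).comp (h2.pow 2)
        have h4 := h3.mul_const (χ q t * conj (χ p t))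
        simpa using h4
    refine h1.congr' ?_
    filter_upwards [hev] with r hr
    exact (A_inner (dil a0 r) (A r) (hAF r hr.1 hr.2).1 (F r) (hAF r hr.1 hr.2).2 p q).symm
  -- the coefficients are square summable
  have hmem : Memℓp a0 2 := by
    apply memℓp_gen' (C := M ^ 2)
    intro s
    have h1 : Tendsto (fun r : ℝ => ∑ q ∈ s, ‖dil a0 r q‖ ^ 2) (𝓝[<] 1)
        (𝓝 (∑ q ∈ s, ‖dil a0 1 q‖ ^ 2)) := by
      apply tendsto_finsetSum
      intro q _
      have : Continuous fun r : ℝ => ‖dil a0 r q‖ ^ 2 := by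
        unfold dil; fun_prop
      exact (this.tendsto 1).mono_left nhdsWithin_le_nhds
    have h2 : ∑ q ∈ s, ‖dil a0 1 q‖ ^ 2 ≤ M ^ 2 := by
      refine le_of_tendsto h1 ?_
      filter_upwards [hev] with r hr
      have h3 := orthonormal_e.sum_inner_products_le (A r (e 0)) (s := s)
      have h4 : ∀ q, ⟪e q, A r (e 0)⟫_ℂ = dil a0 r q := by
        intro q
        rw [inner_e_left]
        exact A_coord (dil a0 r) (A r) (hAF r hr.1 hr.2).1 q
      simp only [h4] at h3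
      have h5 := hbound r hr.1 hr.2 (e 0)
      rw [norm_e, mul_one] at h5
      exact h3.trans (pow_le_pow_left₀ (norm_nonneg _) h5 2)
    simpa [dil] using h2
  let a : H := ⟨a0, hmem⟩
  have haq : ∀ q, a q = a0 q := fun q => rfl
  have hae' : ∀ z ∈ D2, ev a z = θ z := fun z hz => (ev_hasSum hz a).unique (ha z hz)
  -- convergence of the dilations
  have hconv : Tendsto (fun r => A r (e 0)) (𝓝[<] 1) (𝓝 a) := by
    rw [tendsto_iff_norm_sub_tendsto_zero]
    have h2 : Tendsto (fun r => ‖A r (e 0) - a‖ ^ 2) (𝓝[<] 1) (𝓝 0) := by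
      have hsq : ∀ f : H, ‖f‖ ^ 2 = ∑' q, ‖f q‖ ^ 2 := by
        intro f
        have := lp.norm_rpow_eq_tsum (p := 2) (by norm_num) f
        simpa using this
      have hs : Summable fun q => ‖a q‖ ^ 2 := by
        have := (lp.memℓp a).summable (by norm_num)
        simpa using this
      have h3 : Tendsto (fun r : ℝ => ∑' q, ‖dil a0 r q - a q‖ ^ 2) (𝓝[<] 1)
          (𝓝 (∑' _q : ℕ × ℕ, 0)) := by
        apply tendsto_tsum_of_dominated_convergence hs
        · intro q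
          have hc : Continuous fun r : ℝ => ‖dil a0 r q - a q‖ ^ 2 := by
            unfold dil; fun_prop
          have := (hc.tendsto 1).mono_left (nhdsWithin_le_nhds (s := Set.Iio 1))
          simpa [dil, haq] using this
        · filter_upwards [hev] with r hr q
          rw [Real.norm_eq_abs, abs_of_nonneg (by positivity)]
          apply pow_le_pow_left₀ (norm_nonneg _)
          have h4 : dil a0 r q - a q = a q * (((r ^ (q.1 + q.2) - 1 : ℝ)) : ℂ) := by
            rw [haq, dil]; push_cast; ring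
          rw [h4, norm_mul, Complex.norm_real, Real.norm_eq_abs]
          have h5 : 0 ≤ r ^ (q.1 + q.2) := pow_nonneg hr.1 _
          have h6 : r ^ (q.1 + q.2) ≤ 1 := pow_le_one₀ hr.1 hr.2.le
          have h7 : |r ^ (q.1 + q.2) - 1| ≤ 1 := by
            rw [abs_le]; constructor <;> linarith
          exact mul_le_of_le_one_right (norm_nonneg _) h7
      rw [tsum_zero] at h3
      refine h3.congr' ?_
      filter_upwards [hev] with r hr
      rw [hsq]
      congr 1
      ext1 q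
      rw [lp.coeFn_sub, Pi.sub_apply, A_coord (dil a0 r) (A r) (hAF r hr.1 hr.2).1 q]
    have h3 := h2.sqrt
    simpa [Real.sqrt_sq (norm_nonneg _)] using h3
  have hconvp : ∀ p, Tendsto (fun r => A r (e p)) (𝓝[<] 1) (𝓝 (T p a)) := by
    intro p
    have := ((T p).continuous.tendsto a).comp hconv
    refine this.congr' ?_
    filter_upwards [hev] with r hr
    exact (A_T (dil a0 r) (A r) (hAF r hr.1 hr.2).1 p).symm
  have horth : Orthonormal ℂ (fun p => T p a) := by
    rw [orthonormal_iff_ite]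
    intro p q
    have h1 := (hconvp p).inner (𝕜 := ℂ) (hconvp q)
    have h2 := tendsto_nhds_unique h1 (hlim p q)
    rw [h2]
    by_cases h : q = p
    · simp [h]
    · rw [if_neg h, if_neg (fun e => h e.symm)]
  refine ⟨iso (fun p => T p a) horth, a, ?_, hae', ?_⟩
  · intro f z hz
    have h1 := ev_iso hz (fun p => T p a) horth f
    have h2 := (ev_hasSum hz f).mul_left (θ z)
    refine h1.unique ?_
    have h3 : (fun p => f p * ev (T p a) z) = fun i => θ z * (f i * mono z i) := by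
      ext p
      rw [ev_T hz, hae' z hz]
      ring
    rw [h3]
    exact h2
  · intro g y
    have h1 : Tendsto (fun r => A r g) (𝓝[<] 1)
        (𝓝 ((iso (fun p => T p a) horth).toContinuousLinearMap g)) := by
      apply strong_lim A _ M
      · filter_upwards [hev] with r hr
        exact hbound r hr.1 hr.2
      · intro p
        rw [LinearIsometry.coe_toContinuousLinearMap, iso_e]
        exact hconvp p
    have h2 : Tendsto (fun r => ⟪y, A r g⟫_ℂ) (𝓝[<] 1) (𝓝 ⟪y, iso (fun p => T p a) horth g⟫_ℂ) :=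
      tendsto_const_nhds.inner (𝕜 := ℂ) h1
    refine h2.congr' ?_
    filter_upwards [hev] with r hr
    have h3 := ((hAF r hr.1 hr.2).1 g).mapL (innerSL ℂ y)
    simp only [innerSL_apply_apply, inner_smul_right] at h3
    rw [← h3.tsum_eq]
    rfl

end

end Pool.Agent.R287.RA
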