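import Pool.Agent.R287.RAb

/-! Reducing Agler subspaces on the bidisk: small lemmas on reproducing kernels (helper139). -/

set_option autoImplicit false
open scoped ComplexConjugate InnerProductSpace
open Complex MeasureTheory Filter Topology

namespace Pool.Agent.R287.RA

noncomputable section

namespace P2

/-- the combination of the kernels -/
def comb {n : ℕ} (z : Fin n → ℂ × ℂ) (c : Fin n → ℂ) : H := ∑ j, c j • kz (z j)

lemma inner_comb_left {n : ℕ} (z : Fin n → ℂ × ℂ) (c : Fin n → ℂ) (hz : ∀ i, z i ∈ D2) (f : H) :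
    ⟪comb z c, f⟫_ℂ = ∑ i, conj (c i) * ev f (z i) := by
  unfold comb
  rw [sum_inner]
  refine Finset.sum_congr rfl fun i _ => ?_
  rw [inner_smul_left, ← ev_eq (hz i)]

/-- quadratic form of `w ↦ A (kz w)` -/
lemma quad_comb {n : ℕ} (z : Fin n → ℂ × ℂ) (c : Fin n → ℂ) (hz : ∀ i, z i ∈ D2)
    (A : H →L[ℂ] H) :
    ∑ i, ∑ j, conj (c i) * c j * ev (A (kz (z j))) (z i) = ⟪comb z c, A (comb z c)⟫_ℂ := by
  rw [inner_comb_left z c hz]
  refine Finset.sum_congr rfl fun i _ => ?_
  have h1 : A (comb z c) = ∑ j, c j • A (kz (z j)) := by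
    unfold comb
    rw [map_sum]
    exact Finset.sum_congr rfl fun j _ => by rw [map_smul]
  rw [h1, ev_eq (hz i), inner_sum, Finset.mul_sum]
  refine Finset.sum_congr rfl fun j _ => ?_
  rw [inner_smul_right, ← ev_eq (hz i)]
  ring

lemma quad_rank1 {n : ℕ} (z : Fin n → ℂ × ℂ) (c : Fin n → ℂ) (g : ℂ × ℂ → ℂ) :
    ∑ i, ∑ j, conj (c i) * c j * (g (z i) * conj (g (z j))) =
      ((‖∑ i, conj (c i) * g (z i)‖ ^ 2 : ℝ) : ℂ) := by
  rw [← Complex.normSq_eq_norm_sq, Complex.normSq_eq_conj_mul_self, map_sum, mul_comm,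
    Finset.sum_mul_sum]
  refine Finset.sum_congr rfl fun i _ => Finset.sum_congr rfl fun j _ => ?_
  rw [map_mul, Complex.conj_conj]
  ring

/-- the real inequality from positivity -/
lemma bound_of_pos {C : ℝ} {A : H →L[ℂ] H} {g : ℂ × ℂ → ℂ}
    (h : PosKer fun z w => (C : ℂ) * ev (A (kz w)) z - g z * conj (g w)) {n : ℕ}
    (z : Fin n → ℂ × ℂ) (c : Fin n → ℂ) (hz : ∀ i, z i ∈ D2) {q : ℝ}
    (hq : ⟪comb z c, A (comb z c)⟫_ℂ = (q : ℂ)) :
    ‖∑ i, conj (c i) * g (z i)‖ ^ 2 ≤ C * q := by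
  obtain ⟨x, hx, he⟩ := h n z c hz
  have e1 : ∑ i, ∑ j, conj (c i) * c j * ((C : ℂ) * ev (A (kz (z j))) (z i) -
      g (z i) * conj (g (z j))) = (C : ℂ) * ⟪comb z c, A (comb z c)⟫_ℂ -
      ((‖∑ i, conj (c i) * g (z i)‖ ^ 2 : ℝ) : ℂ) := by
    rw [← quad_comb z c hz, ← quad_rank1, Finset.mul_sum, ← Finset.sum_sub_distrib]
    refine Finset.sum_congr rfl fun i _ => ?_
    rw [Finset.mul_sum, ← Finset.sum_sub_distrib]
    refine Finset.sum_congr rfl fun j _ => ?_
    ring
  rw [e1, hq] at he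
  have e2 : ((C * q - ‖∑ i, conj (c i) * g (z i)‖ ^ 2 : ℝ) : ℂ) = (x : ℂ) := by
    rw [← he]
    push_cast
    ring
  have e3 := Complex.ofReal_injective e2
  linarith

/-- the span of the kernels is dense -/
lemma dense_span : (Submodule.span ℂ (kz '' D2)).topologicalClosure = ⊤ := by
  rw [Submodule.topologicalClosure_eq_top_iff, Submodule.eq_bot_iff]
  intro x hx
  refine ev_injective fun z hz => ?_
  rw [ev_zero, ev_eq hz]
  exact (Submodule.mem_orthogonal _ _).1 hx _ (Submodule.subset_span ⟨z, hz, rfl⟩)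

/-- elements of the span are combinations -/
lemma exists_comb {x : H} (hx : x ∈ Submodule.span ℂ (kz '' D2)) :
    ∃ (n : ℕ) (z : Fin n → ℂ × ℂ) (c : Fin n → ℂ), (∀ i, z i ∈ D2) ∧ x = comb z c := by
  obtain ⟨n, c, g, hg⟩ := Submodule.mem_span_set'.1 hx
  choose z hz using fun i => (g i).2
  refine ⟨n, z, c, fun i => (hz i).1, ?_⟩
  rw [← hg]
  unfold comb
  exact Finset.sum_congr rfl fun i _ => by rw [(hz i).2]

/-- a linear functional with a bound on the combinations extends -/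
lemma exists_functional (g : ℂ × ℂ → ℂ) (C : ℝ) (hC : 0 ≤ C)
    (h : ∀ (n : ℕ) (z : Fin n → ℂ × ℂ) (c : Fin n → ℂ), (∀ i, z i ∈ D2) →
      ‖∑ i, conj (c i) * g (z i)‖ ^ 2 ≤ C * ‖comb z c‖ ^ 2) :
    ∃ f : H, ∀ z ∈ D2, ev f z = g z := by
  set E : (D2 →₀ ℂ) →ₗ[ℂ] H := Finsupp.linearCombination ℂ (fun z : D2 => kz z) with hE
  set F : (D2 →₀ ℂ) →ₗ[ℂ] ℂ := Finsupp.linearCombination ℂ (fun z : D2 => conj (g z)) with hF
  have hb : ∀ l, ‖F l‖ ^ 2 ≤ C * ‖E l‖ ^ 2 := by
    intro l
    set s := l.support with hs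
    have e := s.equivFin.symm
    have hn := h s.card (fun i => ((e i : s) : D2)) (fun i => l (e i)) (fun i => (e i : s).1.2)
    have e1 : comb (fun i => (((e i : s) : D2) : ℂ × ℂ)) (fun i => l (e i)) = E l := by
      rw [hE, Finsupp.linearCombination_apply, Finsupp.sum]
      unfold comb
      rw [Equiv.sum_comp e (fun u : s => l u • kz (u : D2)),
        Finset.sum_coe_sort s (fun u : D2 => l u • kz u)]
    have e2 : ∑ i, conj (l (e i)) * g (((e i : s) : D2) : ℂ × ℂ) = conj (F l) := by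
      rw [hF, Finsupp.linearCombination_apply, Finsupp.sum, map_sum,
        Equiv.sum_comp e (fun u : s => conj (l u) * g (u : D2)),
        Finset.sum_coe_sort s (fun u : D2 => conj (l u) * g u)]
      refine Finset.sum_congr rfl fun u _ => ?_
      rw [smul_eq_mul, map_mul, Complex.conj_conj]
    rw [e1, e2, RCLike.norm_conj] at hn
    exact hn
  have hker : LinearMap.ker E ≤ LinearMap.ker F := by
    intro l hl
    rw [LinearMap.mem_ker] at hl ⊢
    have := hb l
    rw [hl, norm_zero] at this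
    have h0 : ‖F l‖ ^ 2 ≤ 0 := by simpa using this
    have h1 : ‖F l‖ = 0 := by
      have := sq_nonneg ‖F l‖
      exact pow_eq_zero_iff (two_ne_zero) |>.1 (le_antisymm h0 this)
    exact norm_eq_zero.1 h1
  set φ : LinearMap.range E →ₗ[ℂ] ℂ :=
    (Submodule.liftQ (LinearMap.ker E) F hker) ∘ₗ (LinearMap.quotKerEquivRange E).symm.toLinearMap
    with hφ
  have hφE : ∀ l, φ ⟨E l, LinearMap.mem_range_self E l⟩ = F l := by
    intro l
    have e1 : (LinearMap.quotKerEquivRange E).symm ⟨E l, LinearMap.mem_range_self E l⟩ =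
        Submodule.Quotient.mk l := by
      rw [LinearEquiv.symm_apply_eq]
      rfl
    rw [hφ]
    simp only [LinearMap.comp_apply, LinearEquiv.coe_coe]
    rw [e1]
    rfl
  have hφb : ∀ x : LinearMap.range E, ‖φ x‖ ≤ Real.sqrt C * ‖x‖ := by
    rintro ⟨x, l, rfl⟩
    rw [hφE]
    have := hb l
    refine le_of_sq_le_sq ?_ (by positivity)
    rw [mul_pow, Real.sq_sqrt hC]
    exact this
  obtain ⟨G, hG, _⟩ := exists_extension_norm_eq (LinearMap.range E)
    (φ.mkContinuous (Real.sqrt C) hφb)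
  refine ⟨(InnerProductSpace.toDual ℂ H).symm G, fun z hz => ?_⟩
  have h1 : ⟪(InnerProductSpace.toDual ℂ H).symm G, kz z⟫_ℂ = G (kz z) := by
    rw [InnerProductSpace.toDual_symm_apply]
  have h2 : E (Finsupp.single ⟨z, hz⟩ 1) = kz z := by
    rw [hE, Finsupp.linearCombination_single, one_smul]
  have h3 : G (kz z) = conj (g z) := by
    have h4 := hG ⟨E (Finsupp.single ⟨z, hz⟩ 1), LinearMap.mem_range_self E _⟩
    rw [LinearMap.mkContinuous_apply, hφE] at h4
    rw [← h2, h4, hF, Finsupp.linearCombination_single, one_smul]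
  rw [ev_eq hz, ← inner_conj_symm, h1, h3, Complex.conj_conj]

lemma posKer_div {L : ℂ × ℂ → ℂ × ℂ → ℂ} (hL : PosKer L) (r : ℂ × ℂ → ℂ)
    (hr : ∀ z ∈ D2, ‖r z‖ < 1) : PosKer (fun z w => L z w / (1 - r z * conj (r w))) := by
  intro n z c hz
  choose x hx0 hx using fun m : ℕ => hL n z (fun j => c j * conj (r (z j)) ^ m) hz
  have hs : HasSum (fun m : ℕ => (x m : ℂ))
      (∑ i, ∑ j, conj (c i) * c j * (L (z i) (z j) / (1 - r (z i) * conj (r (z j))))) := by
    simp_rw [← hx]
    refine hasSum_sum fun i _ => hasSum_sum fun j _ => ?_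
    have h1 : ‖r (z i) * conj (r (z j))‖ < 1 := by
      rw [norm_mul, RCLike.norm_conj]
      have h2 := hr _ (hz i)
      have h3 := hr _ (hz j)
      nlinarith [norm_nonneg (r (z i)), norm_nonneg (r (z j))]
    have h4 := (hasSum_geometric_of_norm_lt_one h1).mul_left (conj (c i) * c j * L (z i) (z j))
    have e1 : (fun m : ℕ => conj (c i * conj (r (z i)) ^ m) * (c j * conj (r (z j)) ^ m) *
        L (z i) (z j)) = fun m : ℕ => conj (c i) * c j * L (z i) (z j) *
        (r (z i) * conj (r (z j))) ^ m := by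
      funext m
      rw [map_mul, map_pow, Complex.conj_conj, mul_pow]
      ring
    have e2 : conj (c i) * c j * (L (z i) (z j) / (1 - r (z i) * conj (r (z j)))) =
        conj (c i) * c j * L (z i) (z j) * (1 - r (z i) * conj (r (z j)))⁻¹ := by
      rw [div_eq_mul_inv]
      ring
    rw [e1, e2]
    exact h4
  set S := ∑ i, ∑ j, conj (c i) * c j * (L (z i) (z j) / (1 - r (z i) * conj (r (z j)))) with hS
  have hre : HasSum x S.re := by
    have := Complex.hasSum_re hs
    simpa using this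
  have him : S.im = 0 := by
    have := Complex.hasSum_im hs
    simp only [Complex.ofReal_im] at this
    exact this.unique hasSum_zero
  refine ⟨S.re, hre.nonneg fun m => hx0 m, ?_⟩
  apply Complex.ext
  · simp
  · simp [him]

end P2

open P2

theorem p2a : S_P2a := by
  rintro g ⟨C, hC, hpos⟩
  refine exists_functional g C hC fun n z c hz => ?_
  have hpos' : PosKer fun z w => (C : ℂ) * ev (ContinuousLinearMap.id ℂ H (kz w)) z -
      g z * conj (g w) := hpos
  refine bound_of_pos hpos' z c hz ?_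
  rw [ContinuousLinearMap.id_apply, inner_self_eq_norm_sq_to_K]
  push_cast
  rfl

theorem p2b : S_P2b := by
  intro M _ f
  set P := M.starProjection with hP
  have hq : ∀ x : H, ⟪x, P x⟫_ℂ = ((‖P x‖ ^ 2 : ℝ) : ℂ) := by
    intro x
    have h1 : P (P x) = P x :=
      Submodule.starProjection_eq_self_iff.2 (Submodule.starProjection_apply_mem M x)
    have h2 : ⟪P x, P x⟫_ℂ = ⟪x, P (P x)⟫_ℂ := Submodule.inner_starProjection_left_eq_right M x (P x)
    rw [h1] at h2
    rw [← h2, inner_self_eq_norm_sq_to_K]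
    push_cast
    rfl
  constructor
  · rintro ⟨C, hC, hpos⟩
    have h1 : ∀ x : H, ‖⟪x, f⟫_ℂ‖ ^ 2 ≤ C * ‖P x‖ ^ 2 := by
      have hcl : IsClosed {x : H | ‖⟪x, f⟫_ℂ‖ ^ 2 ≤ C * ‖P x‖ ^ 2} := by
        refine isClosed_le ?_ ?_
        · fun_prop
        · fun_prop
      have hsub : (Submodule.span ℂ (kz '' D2) : Set H) ⊆
          {x : H | ‖⟪x, f⟫_ℂ‖ ^ 2 ≤ C * ‖P x‖ ^ 2} := by
        intro x hx
        obtain ⟨n, z, c, hz, rfl⟩ := exists_comb hx
        have := bound_of_pos hpos z c hz (hq _)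
        rw [← inner_comb_left z c hz f] at this
        exact this
      intro x
      have hx : x ∈ (Submodule.span ℂ (kz '' D2)).topologicalClosure := by
        rw [dense_span]
        trivial
      exact hcl.closure_subset_iff.2 hsub hx
    have h2 := h1 (f - P f)
    have h3 : P (f - P f) = 0 := by
      rw [map_sub, Submodule.starProjection_eq_self_iff.2
        (Submodule.starProjection_apply_mem M f), sub_self]
    rw [h3, norm_zero] at h2
    have h4 : ⟪f - P f, f⟫_ℂ = 0 := by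
      have : ‖⟪f - P f, f⟫_ℂ‖ ^ 2 ≤ 0 := by simpa using h2
      exact norm_eq_zero.1 ((pow_eq_zero_iff two_ne_zero).1 (le_antisymm this (sq_nonneg _)))
    have h5 : ⟪f - P f, P f⟫_ℂ = 0 := by
      rw [← Submodule.inner_starProjection_left_eq_right M (f - P f) f, h3, inner_zero_left]
    have h6 : ⟪f - P f, f - P f⟫_ℂ = 0 := by
      rw [inner_sub_right, h4, h5, sub_zero]
    have h7 : f = P f := sub_eq_zero.1 (inner_self_eq_zero.1 h6)
    rw [h7]
    exact Submodule.starProjection_apply_mem M f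
  · intro hf
    refine ⟨‖f‖ ^ 2, by positivity, ?_⟩
    intro n z c hz
    refine ⟨‖f‖ ^ 2 * ‖P (comb z c)‖ ^ 2 - ‖∑ i, conj (c i) * ev f (z i)‖ ^ 2, ?_, ?_⟩
    · rw [← inner_comb_left z c hz f]
      have h1 : ⟪comb z c, f⟫_ℂ = ⟪P (comb z c), f⟫_ℂ := by
        rw [Submodule.inner_starProjection_left_eq_right M,
          Submodule.starProjection_eq_self_iff.2 hf]
      rw [h1]
      have h2 := norm_inner_le_norm (𝕜 := ℂ) (P (comb z c)) f
      have h3 := pow_le_pow_left₀ (norm_nonneg _) h2 2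
      rw [mul_pow] at h3
      linarith
    · have e1 : ∑ i, ∑ j, conj (c i) * c j * (((‖f‖ ^ 2 : ℝ) : ℂ) * ev (P (kz (z j))) (z i) -
          ev f (z i) * conj (ev f (z j))) = ((‖f‖ ^ 2 : ℝ) : ℂ) * ⟪comb z c, P (comb z c)⟫_ℂ -
          ((‖∑ i, conj (c i) * ev f (z i)‖ ^ 2 : ℝ) : ℂ) := by
        rw [← quad_comb z c hz, ← quad_rank1, Finset.mul_sum, ← Finset.sum_sub_distrib]
        refine Finset.sum_congr rfl fun i _ => ?_
        rw [Finset.mul_sum, ← Finset.sum_sub_distrib]
        refine Finset.sum_congr rfl fun j _ => ?_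
        ring
      rw [e1, hq]
      push_cast
      ring

theorem p2c : S_P2c := by
  intro L hL
  exact ⟨posKer_div hL (fun z => z.1) fun z hz => hz.1,
    posKer_div hL (fun z => z.2) fun z hz => hz.2⟩

end

end Pool.Agent.R287.RA
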