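import Pool.Agent.R287.RAb

/-! Reducing Agler subspaces on the bidisk, piece 3: the factors of an inner function of the
form `A(z₁) B(z₂)` can be taken inner (helper37). -/

set_option autoImplicit false
open scoped ComplexConjugate InnerProductSpace
open Complex MeasureTheory Filter Topology

namespace Pool.Agent.R287.RA

noncomputable section

lemma norm_re (r : ℝ) (t : ℝ) : ‖(r : ℂ) * exp (t * I)‖ = |r| := by
  rw [norm_mul, Complex.norm_exp_ofReal_mul_I, mul_one, Complex.norm_real, Real.norm_eq_abs]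

lemma hasSum_congr_aux {ι : Type*} {f g : ι → ℂ} {s : ℂ} (h : ∀ i, f i = g i) :
    HasSum f s ↔ HasSum g s := by
  rw [funext h]

lemma hasSum_mul_conj {u : ℕ → ℂ} {a : ℂ} (h : HasSum u a) :
    HasSum (fun p : ℕ × ℕ => u p.1 * star (u p.2)) (a * star a) := by
  have h2 : HasSum (fun n => star (u n)) (star a) := h.star
  have hs : Summable (fun p : ℕ × ℕ => u p.1 * star (u p.2)) :=
    summable_mul_of_summable_norm (f := u) (g := fun n => star (u n)) h.summable.norm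
      h2.summable.norm
  have h3 := HasSum.mul_eq (f := u) (g := fun n => star (u n)) h h2 hs.hasSum
  rw [h3]
  exact hs.hasSum

section Series

variable {β : ℕ → ℂ} {ψ : ℂ → ℂ} (hβ : ∀ z : ℂ, ‖z‖ < 1 → HasSum (fun n => β n * z ^ n) (ψ z))
include hβ

lemma summable_beta {r : ℝ} (h0 : 0 ≤ r) (h1 : r < 1) : Summable fun n => ‖β n‖ * r ^ n := by
  have h : ‖(r : ℂ)‖ < 1 := by rwa [Complex.norm_real, Real.norm_eq_abs, abs_of_nonneg h0]
  have := (hβ r h).summable.norm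
  refine this.congr fun n => ?_
  rw [norm_mul, norm_pow, Complex.norm_real, Real.norm_eq_abs, abs_of_nonneg h0]

lemma cont_circle {r : ℝ} (h0 : 0 ≤ r) (h1 : r < 1) :
    Continuous fun t : ℝ => ψ ((r : ℂ) * exp (t * I)) := by
  have h2 : (fun t : ℝ => ψ ((r : ℂ) * exp (t * I))) =
      fun t : ℝ => ∑' n, β n * ((r : ℂ) * exp (t * I)) ^ n := by
    funext t
    rw [(hβ _ (by rw [norm_re, abs_of_nonneg h0]; exact h1)).tsum_eq]
  rw [h2]
  refine continuous_tsum (u := fun n => ‖β n‖ * r ^ n) (fun n => by fun_prop)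
    (summable_beta hβ h0 h1) fun n t => ?_
  rw [norm_mul, norm_pow, norm_re, abs_of_nonneg h0]

/-- Parseval on the circle of radius `r`. -/
lemma parseval_circle {r : ℝ} (h0 : 0 ≤ r) (h1 : r < 1) :
    HasSum (fun p : ℕ × ℕ => if p.1 = p.2 then 2 * Real.pi * (‖β p.1‖ ^ 2 * r ^ (2 * p.1)) else 0)
      (∫ t in (0 : ℝ)..(2 * Real.pi), ‖ψ ((r : ℂ) * exp (t * I))‖ ^ 2) := by
  have hpi : (0 : ℝ) ≤ 2 * Real.pi := by positivity
  -- the terms
  let F : ℕ × ℕ → ℝ → ℂ := fun p t =>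
    (β p.1 * ((r : ℂ) * exp (t * I)) ^ p.1) * conj (β p.2 * ((r : ℂ) * exp (t * I)) ^ p.2)
  have hF : ∀ t, HasSum (fun p => F p t)
      (ψ ((r : ℂ) * exp (t * I)) * conj (ψ ((r : ℂ) * exp (t * I)))) := by
    intro t
    have hz : ‖(r : ℂ) * exp (t * I)‖ < 1 := by rw [norm_re, abs_of_nonneg h0]; exact h1
    have h5 := hasSum_mul_conj (hβ _ hz)
    exact h5
  have hn : ∀ p t, ‖F p t‖ = (‖β p.1‖ * r ^ p.1) * (‖β p.2‖ * r ^ p.2) := by
    intro p t
    simp only [F]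
    rw [norm_mul, RCLike.norm_conj, norm_mul, norm_mul, norm_pow, norm_pow, norm_re,
      abs_of_nonneg h0]
  have hc : ∀ p, Continuous (F p) := by
    intro p
    simp only [F]
    fun_prop
  have hs : Summable fun p : ℕ × ℕ => (‖β p.1‖ * r ^ p.1) * (‖β p.2‖ * r ^ p.2) :=
    (summable_beta hβ h0 h1).mul_of_nonneg (summable_beta hβ h0 h1)
      (fun _ => by positivity) (fun _ => by positivity)
  have h3 := hasSum_integral_of_summable_integral_norm (μ := volume.restrict (Set.Ioc 0 (2 * Real.pi)))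
    (F := F) (fun p => ((hc p).intervalIntegrable 0 (2 * Real.pi)).1) (by
      have : (fun p => ∫ a in Set.Ioc 0 (2 * Real.pi), ‖F p a‖) =
          fun p : ℕ × ℕ => (2 * Real.pi) * ((‖β p.1‖ * r ^ p.1) * (‖β p.2‖ * r ^ p.2)) := by
        funext p
        simp only [hn]
        simp [hpi]
      rw [this]
      exact hs.mul_left _)
  have h4 : ∀ p : ℕ × ℕ, ∫ a in Set.Ioc 0 (2 * Real.pi), F p a =
      ((if p.1 = p.2 then 2 * Real.pi * (‖β p.1‖ ^ 2 * r ^ (2 * p.1)) else 0 : ℝ) : ℂ) := by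
    rintro ⟨n, m⟩
    rw [← intervalIntegral.integral_of_le hpi]
    have e1 : ∀ t : ℝ, F (n, m) t = (β n * conj (β m) * (r : ℂ) ^ (n + m)) *
        exp ((((n : ℂ) - m) * I) * t) := by
      intro t
      simp only [F, map_mul, map_pow, mul_pow, Complex.conj_ofReal, ← Complex.exp_conj,
        Complex.conj_I]
      rw [← Complex.exp_nat_mul, ← Complex.exp_nat_mul, pow_add]
      have : exp ((((n : ℂ) - m) * I) * t) = exp ((n : ℂ) * (t * I)) * exp ((m : ℂ) * (t * -I)) := by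
        rw [← Complex.exp_add]
        congr 1
        ring
      rw [this]
      ring
    simp only [e1]
    rw [intervalIntegral.integral_const_mul]
    by_cases hnm : n = m
    · subst hnm
      simp only [sub_self, zero_mul, Complex.exp_zero, if_true]
      rw [intervalIntegral.integral_const]
      rw [Complex.mul_conj, Complex.normSq_eq_norm_sq]
      simp only [sub_zero, Complex.real_smul, mul_one]
      push_cast
      ring
    · have hne : (((n : ℂ) - m) * I) ≠ 0 := by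
        refine mul_ne_zero (sub_ne_zero.2 ?_) I_ne_zero
        exact_mod_cast hnm
      rw [integral_exp_mul_complex hne]
      simp only [hnm, if_false]
      have e2 : exp ((((n : ℂ) - m) * I) * ((2 * Real.pi : ℝ) : ℂ)) = 1 := by
        rw [Complex.exp_eq_one_iff]
        refine ⟨(n : ℤ) - m, ?_⟩
        push_cast
        ring
      rw [e2]
      simp
  have h5 : (fun a : ℝ => ∑' p, F p a) = fun a : ℝ => ((‖ψ ((r : ℂ) * exp (a * I))‖ ^ 2 : ℝ) : ℂ) := by
    funext a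
    rw [(hF a).tsum_eq, Complex.mul_conj, Complex.normSq_eq_norm_sq]
  simp only [h4] at h3
  rw [h5, ← intervalIntegral.integral_of_le hpi, intervalIntegral.integral_ofReal] at h3
  exact_mod_cast h3

lemma circle_mono {r s : ℝ} (h0 : 0 ≤ r) (hrs : r ≤ s) (h1 : s < 1) :
    (∫ t in (0 : ℝ)..(2 * Real.pi), ‖ψ ((r : ℂ) * exp (t * I))‖ ^ 2) ≤
      ∫ t in (0 : ℝ)..(2 * Real.pi), ‖ψ ((s : ℂ) * exp (t * I))‖ ^ 2 := by
  refine hasSum_le (fun p => ?_) (parseval_circle hβ h0 (hrs.trans_lt h1))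
    (parseval_circle hβ (h0.trans hrs) h1)
  split_ifs
  · gcongr
  · exact le_rfl

end Series

/-- One-variable sections of a double power series. -/
lemma section_left {a : ℕ × ℕ → ℂ} {θ : ℂ × ℂ → ℂ}
    (ha : ∀ z ∈ D2, HasSum (fun q => a q * mono z q) (θ z)) {v : ℂ} (hv : ‖v‖ < 1) :
    ∀ x : ℂ, ‖x‖ < 1 → HasSum (fun m => (∑' n, a (m, n) * v ^ n) * x ^ m) (θ (x, v)) := by
  have hs : ∀ m, Summable fun n => a (m, n) * v ^ n := by
    intro m
    have h1 : ((1 / 2 : ℂ), v) ∈ D2 := by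
      refine ⟨?_, hv⟩
      norm_num
    have h2 := (ha _ h1).summable.comp_injective
      (i := fun n : ℕ => (m, n)) (fun n n' h => (Prod.mk.inj h).2)
    have h3 := h2.mul_left ((2 : ℂ) ^ m)
    refine h3.congr fun n => ?_
    simp only [Function.comp, mono]
    have : ((2 : ℂ) ^ m) * ((1 / 2 : ℂ) ^ m) = 1 := by
      rw [← mul_pow]; norm_num
    linear_combination (a (m, n) * v ^ n) * this
  intro x hx
  have h4 := HasSum.prod_fiberwise (ha (x, v) ⟨hx, hv⟩) (g := fun m => (∑' n, a (m, n) * v ^ n) * x ^ m)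
    (fun m => by
      have := (hs m).hasSum.mul_right (x ^ m)
      refine (hasSum_congr_aux fun n => ?_).2 this
      simp only [mono]
      ring)
  exact h4

lemma section_right {a : ℕ × ℕ → ℂ} {θ : ℂ × ℂ → ℂ}
    (ha : ∀ z ∈ D2, HasSum (fun q => a q * mono z q) (θ z)) {u : ℂ} (hu : ‖u‖ < 1) :
    ∀ y : ℂ, ‖y‖ < 1 → HasSum (fun n => (∑' m, a (m, n) * u ^ m) * y ^ n) (θ (u, y)) := by
  have h := section_left (a := fun q => a (q.2, q.1)) (θ := fun z => θ (z.2, z.1)) (by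
    intro z hz
    have h1 := ha (z.2, z.1) ⟨hz.2, hz.1⟩
    have h2 := (Equiv.hasSum_iff (Equiv.prodComm ℕ ℕ)).2 h1
    refine (hasSum_congr_aux fun q => ?_).2 h2
    simp only [Function.comp, Equiv.prodComm_apply, mono, Prod.swap]
    ring) hu
  exact h

/-- Piece 3 (innerness of the factors). -/
theorem p3 : S_P3 := by
  intro θ hθ A B hAB
  obtain ⟨⟨a, ha⟩, ⟨M, hM⟩, hrad⟩ := hθ
  -- points near the boundary lie in the bidisk
  have hev : ∀ᶠ r : ℝ in 𝓝[<] 1, 0 < r ∧ r < 1 := by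
    have h1 : Set.Ioo (0 : ℝ) 1 ∈ 𝓝[<] (1 : ℝ) := Ioo_mem_nhdsLT one_pos
    exact h1
  have hD : ∀ (r s t : ℝ), 0 < r → r < 1 → ((r : ℂ) * exp (s * I), (r : ℂ) * exp (t * I)) ∈ D2 := by
    intro r s t h0 h1
    constructor <;> simp only [norm_re, abs_of_pos h0, h1]
  -- a point where θ does not vanish
  obtain ⟨u, v, hu, hv, huv⟩ : ∃ u v : ℂ, ‖u‖ < 1 ∧ ‖v‖ < 1 ∧ θ (u, v) ≠ 0 := by
    obtain ⟨t, ht⟩ := hrad.exists
    have h1 : ∀ᶠ r : ℝ in 𝓝[<] 1,
        0 < ‖θ ((r : ℂ) * exp (t.1 * I), (r : ℂ) * exp (t.2 * I))‖ :=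
      ht.eventually (lt_mem_nhds one_pos)
    obtain ⟨r, hr, h0, h2⟩ := (h1.and hev).exists
    exact ⟨_, _, (hD r t.1 t.2 h0 h2).1, (hD r t.1 t.2 h0 h2).2, norm_pos_iff.1 hr⟩
  have hAu : A u * B v ≠ 0 := by rw [← hAB (u, v) ⟨hu, hv⟩]; exact huv
  set φ₀ : ℂ → ℂ := fun x => θ (x, v) with hφ₀
  set ψ₀ : ℂ → ℂ := fun y => θ (u, y) / θ (u, v) with hψ₀
  have hprod : ∀ z ∈ D2, θ z = φ₀ z.1 * ψ₀ z.2 := by
    rintro ⟨x, y⟩ ⟨hx, hy⟩
    simp only [hφ₀, hψ₀]
    rw [hAB (x, y) ⟨hx, hy⟩, hAB (x, v) ⟨hx, hv⟩, hAB (u, y) ⟨hu, hy⟩, hAB (u, v) ⟨hu, hv⟩]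
    have h1 : A u ≠ 0 := left_ne_zero_of_mul hAu
    have h2 : B v ≠ 0 := right_ne_zero_of_mul hAu
    field_simp
  have hφs : ∀ x : ℂ, ‖x‖ < 1 → HasSum (fun m => (∑' n, a (m, n) * v ^ n) * x ^ m) (φ₀ x) :=
    section_left ha hv
  have hψs : ∀ y : ℂ, ‖y‖ < 1 →
      HasSum (fun n => ((∑' m, a (m, n) * u ^ m) / θ (u, v)) * y ^ n) (ψ₀ y) := by
    intro y hy
    have h1 := (section_right ha hu y hy).div_const (θ (u, v))
    refine (hasSum_congr_aux fun n => ?_).2 h1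
    ring
  have hM0 : 0 < M := lt_of_lt_of_le (norm_pos_iff.2 huv) (hM _ ⟨hu, hv⟩)
  have hφb : ∀ x : ℂ, ‖x‖ < 1 → ‖φ₀ x‖ ≤ M := fun x hx => hM _ ⟨hx, hv⟩
  have hψb : ∀ y : ℂ, ‖y‖ < 1 → ‖ψ₀ y‖ ≤ M / ‖θ (u, v)‖ := by
    intro y hy
    simp only [hψ₀, norm_div]
    have := hM (u, y) ⟨hu, hy⟩
    gcongr
  -- Fubini
  have hfub : ∀ᵐ s : ℝ, ∀ᵐ t : ℝ, Tendsto (fun r : ℝ => ‖φ₀ ((r : ℂ) * exp (s * I))‖ *
      ‖ψ₀ ((r : ℂ) * exp (t * I))‖) (𝓝[<] 1) (𝓝 1) := by
    have h1 := Measure.ae_ae_of_ae_prod (μ := (volume : Measure ℝ)) (ν := (volume : Measure ℝ)) hrad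
    filter_upwards [h1] with s hs
    filter_upwards [hs] with t ht
    refine ht.congr' ?_
    filter_upwards [hev] with r hr
    rw [hprod _ (hD r s t hr.1 hr.2), norm_mul]
  obtain ⟨s₀, hs₀⟩ := hfub.exists
  set b : ℝ → ℝ := fun r => ‖φ₀ ((r : ℂ) * exp (s₀ * I))‖ with hb
  set J : ℝ → ℝ := fun r => ∫ t in (0 : ℝ)..(2 * Real.pi), ‖ψ₀ ((r : ℂ) * exp (t * I))‖ ^ 2 with hJ
  have hpi : (0 : ℝ) ≤ 2 * Real.pi := by positivity
  -- the limit of J
  have hJmono : MonotoneOn J (Set.Ioo 0 1) := fun r hr s hs hrs =>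
    circle_mono hψs hr.1.le hrs hs.2
  have hJbd : BddAbove (J '' Set.Ioo 0 1) := by
    refine ⟨(2 * Real.pi) * (M / ‖θ (u, v)‖) ^ 2, ?_⟩
    rintro _ ⟨r, hr, rfl⟩
    have h1 : J r ≤ ∫ t in (0 : ℝ)..(2 * Real.pi), (M / ‖θ (u, v)‖) ^ 2 := by
      refine intervalIntegral.integral_mono_on hpi ?_ intervalIntegrable_const fun t _ => ?_
      · exact (((cont_circle hψs hr.1.le hr.2).norm.pow 2)).intervalIntegrable _ _
      · have := hψb ((r : ℂ) * exp (t * I)) (by rw [norm_re, abs_of_pos hr.1]; exact hr.2)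
        gcongr
    rw [intervalIntegral.integral_const, sub_zero, smul_eq_mul] at h1
    exact h1
  have hJlim := hJmono.tendsto_nhdsWithin_Ioo_left (Set.nonempty_Ioo.2 one_pos) hJbd
  set α : ℝ := sSup (J '' Set.Ioo 0 1) with hα
  -- dominated convergence
  have hdom : Tendsto (fun r => b r ^ 2 * J r) (𝓝[<] 1) (𝓝 (2 * Real.pi)) := by
    have h1 : Tendsto (fun r : ℝ => ∫ t in (0 : ℝ)..(2 * Real.pi),
        (b r * ‖ψ₀ ((r : ℂ) * exp (t * I))‖) ^ 2) (𝓝[<] 1)
        (𝓝 (∫ t in (0 : ℝ)..(2 * Real.pi), (1 : ℝ) ^ 2)) := by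
      refine intervalIntegral.tendsto_integral_filter_of_dominated_convergence
        (fun _ => M ^ 2) ?_ ?_ intervalIntegrable_const ?_
      · filter_upwards [hev] with r hr
        exact (((continuous_const.mul (cont_circle hψs hr.1.le hr.2).norm).pow 2)).aestronglyMeasurable
      · filter_upwards [hev] with r hr
        refine Eventually.of_forall fun t _ => ?_
        have h2 := hM _ (hD r s₀ t hr.1 hr.2)
        rw [hprod _ (hD r s₀ t hr.1 hr.2), norm_mul] at h2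
        rw [Real.norm_eq_abs, abs_of_nonneg (by positivity)]
        have h3 : 0 ≤ b r * ‖ψ₀ ((r : ℂ) * exp (t * I))‖ := by positivity
        gcongr
      · filter_upwards [hs₀] with t ht _
        exact ht.pow 2
    have h2 : (∫ t in (0 : ℝ)..(2 * Real.pi), (1 : ℝ) ^ 2) = 2 * Real.pi := by simp
    rw [h2] at h1
    refine h1.congr fun r => ?_
    simp only [mul_pow, hJ]
    rw [intervalIntegral.integral_const_mul]
  have hαpos : 0 < α := by
    have h1 : 2 * Real.pi ≤ M ^ 2 * α := by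
      refine le_of_tendsto_of_tendsto hdom (hJlim.const_mul (M ^ 2)) ?_
      filter_upwards [hev] with r hr
      have h2 : b r ≤ M := hφb _ (by rw [norm_re, abs_of_pos hr.1]; exact hr.2)
      have h3 : 0 ≤ b r := norm_nonneg _
      have h4 : 0 ≤ J r := intervalIntegral.integral_nonneg hpi fun t _ => by positivity
      gcongr
    have h5 : 0 < M ^ 2 * α := lt_of_lt_of_le (by positivity) h1
    exact (pos_iff_pos_of_mul_pos h5).1 (by positivity)
  -- the limit of b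
  set c : ℝ := Real.sqrt (2 * Real.pi / α) with hc
  have hcpos : 0 < c := Real.sqrt_pos.2 (by positivity)
  have hJpos : ∀ᶠ r in 𝓝[<] (1 : ℝ), 0 < J r := hJlim.eventually (lt_mem_nhds hαpos)
  have hblim : Tendsto b (𝓝[<] 1) (𝓝 c) := by
    have h1 : Tendsto (fun r => Real.sqrt (b r ^ 2 * J r / J r)) (𝓝[<] 1) (𝓝 c) :=
      (hdom.div hJlim hαpos.ne').sqrt
    refine h1.congr' ?_
    filter_upwards [hJpos] with r hr
    rw [mul_div_assoc, div_self hr.ne', mul_one, Real.sqrt_sq (norm_nonneg _)]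
  have hbpos : ∀ᶠ r in 𝓝[<] (1 : ℝ), 0 < b r := hblim.eventually (lt_mem_nhds hcpos)
  have hψlim : ∀ᵐ t : ℝ, Tendsto (fun r : ℝ => ‖ψ₀ ((r : ℂ) * exp (t * I))‖) (𝓝[<] 1)
      (𝓝 (1 / c)) := by
    filter_upwards [hs₀] with t ht
    refine (ht.div hblim hcpos.ne').congr' ?_
    filter_upwards [hbpos] with r hr
    show b r * ‖ψ₀ ((r : ℂ) * exp (t * I))‖ / b r = ‖ψ₀ ((r : ℂ) * exp (t * I))‖
    rw [mul_div_cancel_left₀ _ hr.ne']
  have hφlim : ∀ᵐ s : ℝ, Tendsto (fun r : ℝ => ‖φ₀ ((r : ℂ) * exp (s * I))‖) (𝓝[<] 1)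
      (𝓝 c) := by
    filter_upwards [hfub] with s hs
    obtain ⟨t, ht1, ht2⟩ := (hs.and hψlim).exists
    have h1 := ht1.div ht2 (by positivity)
    rw [one_div_one_div] at h1
    refine h1.congr' ?_
    filter_upwards [ht2.eventually (lt_mem_nhds (show (0 : ℝ) < 1 / c by positivity))] with r hr
    show ‖φ₀ ((r : ℂ) * exp (s * I))‖ * ‖ψ₀ ((r : ℂ) * exp (t * I))‖ /
      ‖ψ₀ ((r : ℂ) * exp (t * I))‖ = ‖φ₀ ((r : ℂ) * exp (s * I))‖
    rw [mul_div_assoc, div_self hr.ne', mul_one]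
  have hcC : (c : ℂ) ≠ 0 := by exact_mod_cast hcpos.ne'
  refine ⟨fun x => φ₀ x / c, fun y => c * ψ₀ y, ⟨?_, ?_, ?_⟩, ⟨?_, ?_, ?_⟩, fun z hz => ?_⟩
  · refine ⟨fun m => (∑' n, a (m, n) * v ^ n) / c, fun z hz => ?_⟩
    refine (hasSum_congr_aux fun n => ?_).2 ((hφs z hz).div_const (c : ℂ))
    ring
  · refine ⟨M / c, fun z hz => ?_⟩
    rw [norm_div, Complex.norm_real, Real.norm_eq_abs, abs_of_pos hcpos]
    have := hφb z hz
    gcongr
  · filter_upwards [hφlim] with s hs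
    have h1 := hs.div_const c
    rw [div_self hcpos.ne'] at h1
    refine h1.congr fun r => ?_
    rw [norm_div, Complex.norm_real, Real.norm_eq_abs, abs_of_pos hcpos]
  · refine ⟨fun n => c * ((∑' m, a (m, n) * u ^ m) / θ (u, v)), fun z hz => ?_⟩
    refine (hasSum_congr_aux fun n => ?_).2 ((hψs z hz).mul_left (c : ℂ))
    ring
  · refine ⟨c * (M / ‖θ (u, v)‖), fun z hz => ?_⟩
    rw [norm_mul, Complex.norm_real, Real.norm_eq_abs, abs_of_pos hcpos]
    have := hψb z hz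
    gcongr
  · filter_upwards [hψlim] with s hs
    have h1 := hs.const_mul c
    rw [mul_one_div, div_self hcpos.ne'] at h1
    refine h1.congr fun r => ?_
    rw [norm_mul, Complex.norm_real, Real.norm_eq_abs, abs_of_pos hcpos]
  · rw [hprod z hz]
    field_simp

end

end Pool.Agent.R287.RA
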