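import Pool.Agent.R287.RAb

/-! Piece 4: products of one-variable inner functions have reducing Agler subspaces. -/

set_option autoImplicit false
open scoped ComplexConjugate InnerProductSpace
open Complex MeasureTheory Filter Topology

namespace Pool.Agent.R287.RA

noncomputable section

lemma p4_inner2_fst {φ : ℂ → ℂ} (h : Inner1 φ) : Inner2 (fun z => φ z.1) := by
  obtain ⟨⟨a, ha⟩, ⟨M, hM⟩, hae⟩ := h
  refine ⟨⟨fun q => if q.2 = 0 then a q.1 else 0, fun z hz => ?_⟩,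
    ⟨M, fun z hz => hM _ hz.1⟩, ?_⟩
  · have hinj : Function.Injective (fun m : ℕ => ((m, 0) : ℕ × ℕ)) :=
      fun m n h => (Prod.mk.inj h).1
    rw [← hinj.hasSum_iff]
    · have := ha z.1 hz.1
      convert this using 2 with m
      simp [mono]
    · intro q hq
      have : q.2 ≠ 0 := fun h0 => hq ⟨q.1, by ext <;> simp [h0]⟩
      simp [this]
  · exact Measure.quasiMeasurePreserving_fst.ae hae

lemma p4_inner2_snd {φ : ℂ → ℂ} (h : Inner1 φ) : Inner2 (fun z => φ z.2) := by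
  obtain ⟨⟨a, ha⟩, ⟨M, hM⟩, hae⟩ := h
  refine ⟨⟨fun q => if q.1 = 0 then a q.2 else 0, fun z hz => ?_⟩,
    ⟨M, fun z hz => hM _ hz.2⟩, ?_⟩
  · have hinj : Function.Injective (fun m : ℕ => ((0, m) : ℕ × ℕ)) :=
      fun m n h => (Prod.mk.inj h).2
    rw [← hinj.hasSum_iff]
    · have := ha z.2 hz.2
      convert this using 2 with m
      simp [mono]
    · intro q hq
      have : q.1 ≠ 0 := fun h0 => hq ⟨q.2, by ext <;> simp [h0]⟩
      simp [this]
  · exact Measure.quasiMeasurePreserving_snd.ae hae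

section mult

variable {c : ℂ × ℂ → ℂ} {Q : H →ₗᵢ[ℂ] H}

lemma p4_inner (hQ : ∀ f : H, ∀ z ∈ D2, ev (Q f) z = c z * ev f z) (f : H) {w : ℂ × ℂ}
    (hw : w ∈ D2) : ⟪Q f, kz w⟫_ℂ = conj (c w) * ⟪f, kz w⟫_ℂ := by
  rw [← inner_conj_symm, ← ev_eq hw, hQ f w hw, map_mul, ev_eq hw, inner_conj_symm]

/-- the projection of the kernel function to the orthogonal complement of the range of `Q` -/
def p4y (c : ℂ × ℂ → ℂ) (Q : H →ₗᵢ[ℂ] H) (w : ℂ × ℂ) : H := kz w - conj (c w) • Q (kz w)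

lemma p4_perp (hQ : ∀ f : H, ∀ z ∈ D2, ev (Q f) z = c z * ev f z) (f : H) {w : ℂ × ℂ}
    (hw : w ∈ D2) : ⟪Q f, p4y c Q w⟫_ℂ = 0 := by
  rw [p4y, inner_sub_right, inner_smul_right, p4_inner hQ f hw, Q.inner_map_map, sub_self]

lemma p4_ev (hQ : ∀ f : H, ∀ z ∈ D2, ev (Q f) z = c z * ev f z) {z w : ℂ × ℂ}
    (hz : z ∈ D2) : ev (p4y c Q w) z = (1 - c z * conj (c w)) * ev (kz w) z := by
  rw [p4y, ev_sub hz, ev_smul hz, hQ _ _ hz]; ring

lemma p4_gram (hQ : ∀ f : H, ∀ z ∈ D2, ev (Q f) z = c z * ev f z) {z w : ℂ × ℂ}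
    (hz : z ∈ D2) (hw : w ∈ D2) :
    ⟪p4y c Q z, p4y c Q w⟫_ℂ = (1 - c z * conj (c w)) * ev (kz w) z := by
  rw [← p4_ev hQ hz, ev_eq hz]
  conv_lhs => rw [p4y]
  rw [inner_sub_left, inner_smul_left, p4_perp hQ _ hw]
  simp

end mult

lemma p4_pos (L : ℂ × ℂ → ℂ × ℂ → ℂ) (v : ℂ × ℂ → H)
    (h : ∀ z ∈ D2, ∀ w ∈ D2, L z w = ⟪v z, v w⟫_ℂ) : PosKer L := by
  intro n z c hz
  refine ⟨‖∑ i, c i • v (z i)‖ ^ 2, by positivity, ?_⟩
  have h1 : (((‖∑ i, c i • v (z i)‖ ^ 2 : ℝ)) : ℂ) =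
      ⟪∑ i, c i • v (z i), ∑ j, c j • v (z j)⟫_ℂ := by
    rw [inner_self_eq_norm_sq_to_K]
    push_cast
    rfl
  rw [h1, sum_inner]
  apply Finset.sum_congr rfl
  intro i _
  rw [inner_sum]
  apply Finset.sum_congr rfl
  intro j _
  rw [inner_smul_left, inner_smul_right, h _ (hz i) _ (hz j)]
  ring

lemma p4_congr {L L' : ℂ × ℂ → ℂ × ℂ → ℂ} (h : ∀ z ∈ D2, ∀ w ∈ D2, L z w = L' z w)
    (g : ℂ × ℂ → ℂ) : InRKHS L g → InRKHS L' g := by
  rintro ⟨C, hC, hP⟩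
  refine ⟨C, hC, fun n z c hz => ?_⟩
  obtain ⟨x, hx, hs⟩ := hP n z c hz
  refine ⟨x, hx, ?_⟩
  rw [← hs]
  apply Finset.sum_congr rfl
  intro i _
  apply Finset.sum_congr rfl
  intro j _
  simp only [h _ (hz i) _ (hz j)]

lemma p4_agl (h2 : S_P2b) (M : Submodule ℂ H) [M.HasOrthogonalProjection]
    (L : ℂ × ℂ → ℂ × ℂ → ℂ)
    (h : ∀ z ∈ D2, ∀ w ∈ D2, L z w = ev (M.starProjection (kz w)) z) : agl L = (M : Set H) := by
  ext f
  change InRKHS L (ev f) ↔ f ∈ M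
  rw [← h2 M f]
  exact ⟨p4_congr h _, p4_congr (fun z hz w hw => (h z hz w hw).symm) _⟩

/-- the adjoint of the shift -/
def Ta (q : ℕ × ℕ) : H →L[ℂ] H := ContinuousLinearMap.adjoint (T q).toContinuousLinearMap

lemma Ta_right (q : ℕ × ℕ) (x y : H) : ⟪x, Ta q y⟫_ℂ = ⟪T q x, y⟫_ℂ := by
  unfold Ta
  rw [ContinuousLinearMap.adjoint_inner_right]
  rfl

lemma Ta_T (q : ℕ × ℕ) (x : H) : Ta q (T q x) = x := by
  refine ext_inner_left ℂ fun y => ?_
  rw [Ta_right, (T q).inner_map_map]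

lemma D2_zero {z : ℂ × ℂ} (hz : z ∈ D2) : (0, z.2) ∈ D2 := ⟨by simp, hz.2⟩

lemma D2_one {z : ℂ × ℂ} (hz : z ∈ D2) : (z.1, 0) ∈ D2 := ⟨hz.1, by simp⟩

lemma D2_ne1 {z w : ℂ × ℂ} (hz : z ∈ D2) (hw : w ∈ D2) : 1 - z.1 * conj w.1 ≠ 0 := by
  have n1 : ‖z.1 * conj w.1‖ < 1 := by
    rw [norm_mul, RCLike.norm_conj]
    nlinarith [hz.1, hw.1, norm_nonneg z.1, norm_nonneg w.1]
  intro h
  have : z.1 * conj w.1 = 1 := by linear_combination -h
  rw [this] at n1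
  simp at n1

lemma D2_ne2 {z w : ℂ × ℂ} (hz : z ∈ D2) (hw : w ∈ D2) : 1 - z.2 * conj w.2 ≠ 0 := by
  have n1 : ‖z.2 * conj w.2‖ < 1 := by
    rw [norm_mul, RCLike.norm_conj]
    nlinarith [hz.2, hw.2, norm_nonneg z.2, norm_nonneg w.2]
  intro h
  have : z.2 * conj w.2 = 1 := by linear_combination -h
  rw [this] at n1
  simp at n1

lemma kz_split {z : ℂ × ℂ} (hz : z ∈ D2) :
    kz z = kz (0, z.2) + conj z.1 • T (1, 0) (kz z) := by
  apply ev_injective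
  intro w hw
  rw [ev_add hw, ev_smul hw, ev_T hw, ev_kz hw hz, ev_kz hw (D2_zero hz)]
  have h1 := D2_ne1 hw hz
  have h2 := D2_ne2 hw hz
  simp only [mono, pow_one, pow_zero, mul_one, map_zero, mul_zero, sub_zero, one_mul]
  field_simp
  ring

lemma p4_indep (u : H) (hu : ∀ z ∈ D2, ev u z = ev u (0, z.2)) : Ta (1, 0) u = 0 := by
  set w := Ta (1, 0) u with hw
  have h0 : ∀ g : H, ⟪T (1, 0) g, u - T (1, 0) w⟫_ℂ = 0 := by
    intro g
    rw [inner_sub_right, ← Ta_right, (T (1, 0)).inner_map_map, ← hw, sub_self]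
  have h1 : T (1, 0) w = 0 := by
    apply ev_injective
    intro z hz
    have e1 : ev (u - T (1, 0) w) z = ev (u - T (1, 0) w) (0, z.2) := by
      rw [ev_eq hz, ev_eq (D2_zero hz)]
      conv_lhs => rw [kz_split hz]
      rw [inner_add_left, inner_smul_left, h0, mul_zero, add_zero]
    rw [ev_sub hz, ev_sub (D2_zero hz), ← hu z hz, ev_T (D2_zero hz)] at e1
    have e2 : mono (0, z.2) (1, 0) = 0 := by simp [mono]
    rw [e2, zero_mul] at e1
    rw [ev_zero]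
    linear_combination -e1
  have h2 : ‖T (1, 0) w‖ = 0 := by rw [h1, norm_zero]
  rw [(T (1, 0)).norm_map, norm_eq_zero] at h2
  exact h2

lemma p4_Ta_Q {ψ : ℂ → ℂ} {Q : H →ₗᵢ[ℂ] H} (hQ : ∀ f : H, ∀ z ∈ D2, ev (Q f) z = ψ z.2 * ev f z)
    (g : H) : Ta (1, 0) (Q g) = Q (Ta (1, 0) g) := by
  have hc : ∀ f : H, Q (T (1, 0) f) = T (1, 0) (Q f) := by
    intro f
    apply ev_injective
    intro z hz
    rw [hQ _ _ hz, ev_T hz, ev_T hz, hQ _ _ hz]
    ring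
  set g0 := g - T (1, 0) (Ta (1, 0) g) with hg0
  have h0 : ∀ x : H, ⟪T (1, 0) x, g0⟫_ℂ = 0 := by
    intro x
    rw [hg0, inner_sub_right, ← Ta_right, (T (1, 0)).inner_map_map, sub_self]
  have h1 : ∀ z ∈ D2, ev g0 z = ev g0 (0, z.2) := by
    intro z hz
    rw [ev_eq hz, ev_eq (D2_zero hz)]
    conv_lhs => rw [kz_split hz]
    rw [inner_add_left, inner_smul_left, h0]
    simp
  have h2 : Ta (1, 0) (Q g0) = 0 := by
    apply p4_indep
    intro z hz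
    rw [hQ _ _ hz, hQ _ _ (D2_zero hz), h1 z hz]
  have h3 : g = g0 + T (1, 0) (Ta (1, 0) g) := by rw [hg0]; abel
  conv_lhs => rw [h3]
  rw [map_add, map_add, h2, hc, Ta_T, zero_add]

theorem p4 (h1 : S_P1) (h2 : S_P2b) : S_P4 := by
  intro θ φ ψ hφ hψ hθ
  obtain ⟨Ph, -, hPh, -, -⟩ := h1 _ (p4_inner2_fst hφ)
  obtain ⟨Ps, -, hPs, -, -⟩ := h1 _ (p4_inner2_snd hψ)
  have hcomm : ∀ f, Ph (Ps f) = Ps (Ph f) := by
    intro f
    apply ev_injective
    intro z hz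
    rw [hPh _ _ hz, hPs _ _ hz, hPs _ _ hz, hPh _ _ hz]
    ring
  have hTs : ∀ f : H, Ps (T (1, 0) f) = T (1, 0) (Ps f) := by
    intro f
    apply ev_injective
    intro z hz
    rw [hPs _ _ hz, ev_T hz, ev_T hz, hPs _ _ hz]
    ring
  -- the model space
  have hth : ∀ h : H, h ∈ thetaH θ ↔ ∃ g, Ps (Ph g) = h := by
    intro h
    constructor
    · rintro ⟨g, hg⟩
      refine ⟨g, ?_⟩
      apply ev_injective
      intro z hz
      rw [hPs _ _ hz, hPh _ _ hz, hg z hz, hθ z hz]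
      ring
    · rintro ⟨g, rfl⟩
      refine ⟨g, fun z hz => ?_⟩
      rw [hPs _ _ hz, hPh _ _ hz, hθ z hz]
      ring
  let S1 : Submodule ℂ H := (LinearMap.range Ps.toLinearMap)ᗮ
  have hS1 : ∀ x : H, x ∈ S1 ↔ ∀ g, ⟪Ps g, x⟫_ℂ = 0 := by
    intro x
    constructor
    · intro hx g
      exact hx _ ⟨g, rfl⟩
    · rintro hx _ ⟨g, rfl⟩
      exact hx g
  have hS1K : S1 ≤ K θ := by
    intro x hx
    rw [hS1] at hx
    intro y hy
    obtain ⟨g, rfl⟩ := (hth y).1 hy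
    exact hx _
  let S2 : Submodule ℂ H := (S1 ⊔ thetaH θ)ᗮ
  have hS2 : ∀ x : H, x ∈ S2 ↔ (∀ s ∈ S1, ⟪s, x⟫_ℂ = 0) ∧ x ∈ K θ := by
    intro x
    constructor
    · intro hx
      exact ⟨fun s hs => hx s (Submodule.mem_sup_left hs),
        fun y hy => hx y (Submodule.mem_sup_right hy)⟩
    · rintro ⟨ha, hb⟩ y hy
      obtain ⟨s, hs, t, ht, rfl⟩ := Submodule.mem_sup.1 hy
      rw [inner_add_left, ha s hs, hb t ht, add_zero]
  -- projections of the kernels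
  have hp1 : ∀ w ∈ D2, S1.starProjection (kz w) = p4y (fun z => ψ z.2) Ps w := by
    intro w hw
    refine Submodule.eq_starProjection_of_mem_of_inner_eq_zero ?_ ?_
    · rw [hS1]
      intro g
      exact p4_perp hPs g hw
    · intro s hs
      have : kz w - p4y (fun z => ψ z.2) Ps w = conj (ψ w.2) • Ps (kz w) := by
        unfold p4y; abel
      rw [this, inner_smul_left, (hS1 s).1 hs, mul_zero]
  have hp2 : ∀ w ∈ D2, S2.starProjection (kz w) =
      conj (ψ w.2) • Ps (p4y (fun z => φ z.1) Ph w) := by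
    intro w hw
    refine Submodule.eq_starProjection_of_mem_of_inner_eq_zero ?_ ?_
    · rw [hS2]
      constructor
      · intro s hs
        rw [inner_smul_right, ← inner_conj_symm, (hS1 s).1 hs]
        simp
      · intro y hy
        obtain ⟨g, rfl⟩ := (hth y).1 hy
        rw [inner_smul_right, Ps.inner_map_map, p4_perp hPh g hw, mul_zero]
    · intro s hs
      rw [hS2] at hs
      have h3 : kz w - conj (ψ w.2) • Ps (p4y (fun z => φ z.1) Ph w) =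
          p4y (fun z => ψ z.2) Ps w + (conj (ψ w.2) * conj (φ w.1)) • Ps (Ph (kz w)) := by
        unfold p4y
        rw [map_sub, map_smul, smul_sub, smul_smul]
        abel
      rw [h3, inner_add_left, inner_smul_left]
      have h4 : ⟪p4y (fun z => ψ z.2) Ps w, s⟫_ℂ = 0 := by
        apply hs.1
        rw [hS1]
        intro g
        exact p4_perp hPs g hw
      have h5 : ⟪Ps (Ph (kz w)), s⟫_ℂ = 0 := hs.2 _ ((hth _).2 ⟨_, rfl⟩)
      rw [h4, h5]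
      simp
  -- invariance
  have hT1 : ∀ x ∈ S1, T (1, 0) x ∈ S1 := by
    intro x hx
    rw [hS1] at hx ⊢
    intro g
    rw [← inner_conj_symm, ← Ta_right, p4_Ta_Q hPs, inner_conj_symm, hx]
  have hT1a : ∀ x ∈ S1, Ta (1, 0) x ∈ S1 := by
    intro x hx
    rw [hS1] at hx ⊢
    intro g
    rw [Ta_right, ← hTs, hx]
  have hSz : ∀ (k f : K θ), ⟪(k : H), (Sz θ (1, 0) f : H)⟫_ℂ = ⟪(k : H), T (1, 0) (f : H)⟫_ℂ := by
    intro k f
    exact Submodule.inner_orthogonalProjectionOnto_eq_of_mem_left k (T (1, 0) (f : H))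
  have hSa : ∀ (k f : K θ), ⟪(k : H), (ContinuousLinearMap.adjoint (Sz θ (1, 0)) f : K θ)⟫_ℂ =
      ⟪(Sz θ (1, 0) k : H), (f : H)⟫_ℂ := by
    intro k f
    exact ContinuousLinearMap.adjoint_inner_right (Sz θ (1, 0)) k f
  refine ⟨fun z w => (1 - ψ z.2 * conj (ψ w.2)) / (1 - z.2 * conj w.2),
    fun z w => ψ z.2 * conj (ψ w.2) * ((1 - φ z.1 * conj (φ w.1)) / (1 - z.1 * conj w.1)),
    ?_, ?_, ?_, ?_, ?_⟩
  · refine p4_pos _ (fun z => p4y (fun z => ψ z.2) Ps (0, z.2)) fun z hz w hw => ?_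
    rw [p4_gram hPs (D2_zero hz) (D2_zero hw), ev_kz (D2_zero hz) (D2_zero hw)]
    simp [div_eq_mul_inv]
  · refine p4_pos _ (fun z => conj (ψ z.2) • p4y (fun z => φ z.1) Ph (z.1, 0))
      fun z hz w hw => ?_
    rw [inner_smul_left, inner_smul_right, p4_gram hPh (D2_one hz) (D2_one hw),
      ev_kz (D2_one hz) (D2_one hw)]
    simp [div_eq_mul_inv]
    ring
  · intro z hz w hw
    have n1 := D2_ne1 hz hw
    have n2 := D2_ne2 hz hw
    rw [hθ z hz, hθ w hw, map_mul]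
    field_simp
    ring
  · rw [p4_agl h2 S1 _ (fun z hz w hw => by
      rw [hp1 w hw, p4_ev hPs hz, ev_kz hz hw]
      have n1 := D2_ne1 hz hw
      have n2 := D2_ne2 hz hw
      field_simp)]
    intro f hf
    have hf' : (f : H) ∈ S1 := hf
    constructor
    · have e1 : Sz θ (1, 0) f = ⟨T (1, 0) (f : H), hS1K (hT1 _ hf')⟩ := by
        refine ext_inner_left ℂ fun k => ?_
        exact hSz k f
      rw [e1]
      exact hT1 _ hf'
    · have e1 : ContinuousLinearMap.adjoint (Sz θ (1, 0)) f =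
          ⟨Ta (1, 0) (f : H), hS1K (hT1a _ hf')⟩ := by
        refine ext_inner_left ℂ fun k => ?_
        have t1 := hSa k f
        have t2 := hSz f k
        have t3 : ⟪(Sz θ (1, 0) k : H), (f : H)⟫_ℂ = ⟪T (1, 0) (k : H), (f : H)⟫_ℂ := by
          rw [← inner_conj_symm, t2, inner_conj_symm]
        rw [t3, ← Ta_right] at t1
        exact t1
      rw [e1]
      exact hT1a _ hf'
  · rw [p4_agl h2 S2 _ (fun z hz w hw => by
      rw [hp2 w hw, ev_smul hz, hPs _ _ hz, p4_ev hPh hz, ev_kz hz hw]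
      have n1 := D2_ne1 hz hw
      have n2 := D2_ne2 hz hw
      field_simp)]
    intro f hf
    have hf' : (f : H) ∈ S2 := hf
    have hf2 := (hS2 _).1 hf'
    constructor
    · change ((Sz θ (1, 0) f : K θ) : H) ∈ S2
      rw [hS2]
      refine ⟨fun s hs => ?_, (Sz θ (1, 0) f).2⟩
      have t1 := hSz ⟨s, hS1K hs⟩ f
      change ⟪s, (Sz θ (1, 0) f : H)⟫_ℂ = ⟪s, T (1, 0) (f : H)⟫_ℂ at t1
      rw [t1, ← inner_conj_symm, ← Ta_right, inner_conj_symm]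
      exact hf2.1 _ (hT1a s hs)
    · change ((ContinuousLinearMap.adjoint (Sz θ (1, 0)) f : K θ) : H) ∈ S2
      rw [hS2]
      refine ⟨fun s hs => ?_, (ContinuousLinearMap.adjoint (Sz θ (1, 0)) f).2⟩
      have t1 := hSa ⟨s, hS1K hs⟩ f
      change ⟪s, (ContinuousLinearMap.adjoint (Sz θ (1, 0)) f : K θ)⟫_ℂ = _ at t1
      rw [t1]
      have t2 := hSz f ⟨s, hS1K hs⟩
      change ⟪(f : H), (Sz θ (1, 0) ⟨s, hS1K hs⟩ : H)⟫_ℂ = ⟪(f : H), T (1, 0) s⟫_ℂ at t2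
      rw [← inner_conj_symm, t2, inner_conj_symm]
      exact hf2.1 _ (hT1 s hs)

end

end Pool.Agent.R287.RA
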