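import Pool.Agent.R287.RAb

/-! Reducing Agler subspaces on the bidisk: slices. -/

set_option autoImplicit false
open scoped ComplexConjugate InnerProductSpace
open Complex MeasureTheory Filter Topology

namespace Pool.Agent.R287.RA

noncomputable section

/-- The point with main coordinate `x` and other coordinate `y`. -/
def pt (s : Bool) (x y : ℂ) : ℂ × ℂ := if s then (x, y) else (y, x)

/-- The index with main coordinate `m` and other coordinate `n`. -/
def ix (s : Bool) (m n : ℕ) : ℕ × ℕ := if s then (m, n) else (n, m)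

def ixE (s : Bool) : ℕ × ℕ ≃ ℕ × ℕ where
  toFun p := ix s p.1 p.2
  invFun p := ix s p.1 p.2
  left_inv p := by cases s <;> rfl
  right_inv p := by cases s <;> rfl

lemma ixE_apply (s : Bool) (p : ℕ × ℕ) : ixE s p = ix s p.1 p.2 := rfl

lemma mono_pt_ix (s : Bool) (x y : ℂ) (m n : ℕ) : mono (pt s x y) (ix s m n) = x ^ m * y ^ n := by
  cases s
  · simp [pt, ix, mono, mul_comm]
  · simp [pt, ix, mono]

lemma pt_mem {s : Bool} {x y : ℂ} (hx : ‖x‖ < 1) (hy : ‖y‖ < 1) : pt s x y ∈ D2 := by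
  cases s
  · exact ⟨hy, hx⟩
  · exact ⟨hx, hy⟩

lemma ix_add (s : Bool) (m n m' n' : ℕ) : ix s m n + ix s m' n' = ix s (m + m') (n + n') := by
  cases s <;> rfl

lemma ix_inj {s : Bool} {m n m' n' : ℕ} : ix s m n = ix s m' n' ↔ m = m' ∧ n = n' := by
  cases s
  · simp [ix, and_comm]
  · simp [ix]

lemma T_add (p q : ℕ × ℕ) (f : H) : T (p + q) f = T p (T q f) := by
  refine ev_injective fun z hz => ?_
  rw [ev_T hz, ev_T hz, ev_T hz, mono_add]
  ring

lemma T_zero (f : H) : T 0 f = f := by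
  refine ev_injective fun z hz => ?_
  rw [ev_T hz]
  simp [mono]

lemma T_comm (p q : ℕ × ℕ) (f : H) : T p (T q f) = T q (T p f) := by
  rw [← T_add, ← T_add, add_comm]

/-- The Szegő kernel at a point with vanishing main coordinate. -/
lemma hasSum_kz (s : Bool) {w : ℂ} (hw : ‖w‖ < 1) :
    HasSum (fun n => conj (w ^ n) • e (ix s 0 n)) (kz (pt s 0 w)) := by
  have h := hasSum_e (kz (pt s 0 w))
  have hi : Function.Injective fun n : ℕ => ix s 0 n := fun a b hab => (ix_inj.1 hab).2
  rw [← hi.hasSum_iff] at h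
  · convert h using 2 with n
    simp only [Function.comp_apply]
    rw [kz_apply (pt_mem (by simp) hw), mono_pt_ix]
    simp
  · intro q hq
    obtain ⟨⟨m, n⟩, rfl⟩ := (ixE s).surjective q
    rw [ixE_apply, kz_apply (pt_mem (by simp) hw), mono_pt_ix]
    have : m ≠ 0 := by
      rintro rfl
      exact hq ⟨n, rfl⟩
    simp [this]

/-- The coefficient of `x^m` of the slice `x ↦ f (x, w)`. -/
def sl (s : Bool) (m : ℕ) (w : ℂ) (f : H) : ℂ := ⟪T (ix s m 0) (kz (pt s 0 w)), f⟫_ℂ

lemma sl_hasSum (s : Bool) (m : ℕ) {w : ℂ} (hw : ‖w‖ < 1) (f : H) :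
    HasSum (fun n => f (ix s m n) * w ^ n) (sl s m w f) := by
  have h := ((hasSum_kz s hw).mapL (T (ix s m 0)).toContinuousLinearMap).mapL (innerSL ℂ f)
  simp only [LinearIsometry.coe_toContinuousLinearMap, innerSL_apply_apply, map_smul, T_e, ix_add,
    zero_add, add_zero, inner_smul_right] at h
  have h2 := h.star
  unfold sl
  rw [← inner_conj_symm]
  have h3 : (fun n => f (ix s m n) * w ^ n) =
      fun n => star (conj (w ^ n) * ⟪f, e (ix s m n)⟫_ℂ) := by
    ext n
    rw [RCLike.star_def, map_mul, inner_conj_symm, inner_e_left, RCLike.conj_conj, mul_comm]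
  rw [h3]
  exact h2

lemma ev_slice (s : Bool) {x w : ℂ} (hx : ‖x‖ < 1) (hw : ‖w‖ < 1) (f : H) :
    HasSum (fun m => sl s m w f * x ^ m) (ev f (pt s x w)) := by
  have h := (ixE s).hasSum_iff.2 (ev_hasSum (pt_mem (s := s) hx hw) f)
  refine h.prod_fiberwise fun m => ?_
  have h2 := (sl_hasSum s m hw f).mul_right (x ^ m)
  have h3 : (fun n => ((fun q => f q * mono (pt s x w) q) ∘ ixE s) (m, n)) =
      fun n => f (ix s m n) * w ^ n * x ^ m := by
    ext n
    simp only [Function.comp_apply, ixE_apply, mono_pt_ix]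
    ring
  rw [h3]
  exact h2

lemma sl_unique (s : Bool) {w : ℂ} (hw : ‖w‖ < 1) (f : H) (c : ℕ → ℂ)
    (h : ∀ x : ℂ, ‖x‖ < 1 → HasSum (fun m => c m * x ^ m) (ev f (pt s x w))) (m : ℕ) :
    sl s m w f = c m := by
  have := uniq1 (fun m => sl s m w f - c m) (fun x hx => by
    have := (ev_slice s hx hw f).sub (h x hx)
    simpa [sub_mul] using this) m
  exact sub_eq_zero.1 this

end

end Pool.Agent.R287.RA
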