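import Pool.Agent.R287.RAg

/-! Reducing Agler subspaces on the bidisk: multiplication by slices. -/

set_option autoImplicit false
open scoped ComplexConjugate InnerProductSpace
open Complex MeasureTheory Filter Topology

namespace Pool.Agent.R287.RA

noncomputable section

lemma ev_T_zero (s : Bool) {v : ℂ} (hv : ‖v‖ < 1) {d : ℕ} (hd : d ≠ 0) (f : H) :
    ⟪kz (pt s 0 v), T (ix s d 0) f⟫_ℂ = 0 := by
  have hm : pt s 0 v ∈ D2 := pt_mem (by simp) hv
  rw [← ev_eq hm, ev_T hm, mono_pt_ix]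
  simp [hd]

lemma kz_ne_zero (s : Bool) {v : ℂ} (hv : ‖v‖ < 1) : kz (pt s 0 v) ≠ 0 := by
  intro h
  have := kz_apply (z := pt s 0 v) (pt_mem (by simp) hv) (ix s 0 0)
  rw [mono_pt_ix, h] at this
  simp at this

lemma summable_sl (s : Bool) {v : ℂ} (hv : ‖v‖ < 1) (f : H) :
    Summable fun m => ‖sl s m v f‖ ^ 2 := by
  set k := kz (pt s 0 v) with hk
  have hk0 : ‖k‖ ≠ 0 := norm_ne_zero_iff.2 (kz_ne_zero s hv)
  have ho : Orthonormal ℂ fun m : ℕ => ((‖k‖⁻¹ : ℝ) : ℂ) • T (ix s m 0) k := by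
    constructor
    · intro m
      rw [norm_smul, LinearIsometry.norm_map]
      simp [hk0]
    · have key : ∀ m d : ℕ, d ≠ 0 → ⟪T (ix s m 0) k, T (ix s (m + d) 0) k⟫_ℂ = 0 := by
        intro m d hd
        have : ix s (m + d) 0 = ix s m 0 + ix s d 0 := by rw [ix_add]
        rw [this, T_add, LinearIsometry.inner_map_map]
        exact ev_T_zero s hv hd k
      intro m m' hmm
      simp only [inner_smul_left, inner_smul_right]
      rcases lt_or_gt_of_ne hmm with h | h
      · obtain ⟨d, rfl⟩ := Nat.exists_eq_add_of_lt h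
        rw [show m + d + 1 = m + (d + 1) by ring, key m (d + 1) (by omega)]
        simp
      · obtain ⟨d, rfl⟩ := Nat.exists_eq_add_of_lt h
        rw [← inner_conj_symm, show m' + d + 1 = m' + (d + 1) by ring, key m' (d + 1) (by omega)]
        simp
  have h1 := ho.inner_products_summable (x := f)
  simp only [inner_smul_left, norm_mul, mul_pow] at h1
  have h2 := h1.mul_left (‖k‖ ^ 2)
  refine h2.congr fun m => ?_
  rw [← mul_assoc]
  have : ‖k‖ ^ 2 * ‖conj (((‖k‖⁻¹ : ℝ) : ℂ))‖ ^ 2 = 1 := by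
    rw [RCLike.norm_conj, Complex.norm_real, Real.norm_eq_abs, sq_abs]
    field_simp
  rw [this, one_mul]
  rfl

lemma memℓp_two {x : ℕ × ℕ → ℂ} (h : Summable fun q => ‖x q‖ ^ 2) : Memℓp x 2 := by
  apply memℓp_gen
  simpa using h

/-- The main and the other coordinate of an index. -/
def so (s : Bool) (q : ℕ × ℕ) : ℕ := (ixE s q).1
def sn (s : Bool) (q : ℕ × ℕ) : ℕ := (ixE s q).2

lemma so_ix (s : Bool) (m n : ℕ) : so s (ix s m n) = m := by cases s <;> rfl
lemma sn_ix (s : Bool) (m n : ℕ) : sn s (ix s m n) = n := by cases s <;> rfl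
lemma ix_so_sn (s : Bool) (q : ℕ × ℕ) : ix s (so s q) (sn s q) = q := by cases s <;> rfl

/-- An element of the Hardy space given by a square summable family in the main and a geometric
one in the other variable. -/
lemma summable_prod (s : Bool) (b : ℕ → ℂ) (hb : Summable fun m => ‖b m‖ ^ 2) {v : ℂ}
    (hv : ‖v‖ < 1) : Summable fun q => ‖b (so s q) * v ^ (sn s q)‖ ^ 2 := by
  rw [← (ixE s).summable_iff]
  have h1 : Summable fun n : ℕ => ‖v ^ n‖ ^ 2 := by
    have : Summable fun n : ℕ => (‖v‖ ^ 2) ^ n :=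
      summable_geometric_of_lt_one (by positivity) (by nlinarith [norm_nonneg v])
    refine this.congr fun n => ?_
    rw [norm_pow]
    ring
  have h2 := hb.mul_of_nonneg h1 (fun _ => by positivity) (fun _ => by positivity)
  refine h2.congr fun q => ?_
  simp only [Function.comp_apply, ixE_apply, so_ix, sn_ix, norm_mul, mul_pow]

lemma Fv_mem (s : Bool) {v : ℂ} (hv : ‖v‖ < 1) (f : H) :
    Memℓp (fun q => if sn s q = 0 then sl s (so s q) v f else 0) 2 := by
  have := summable_prod s (fun m => sl s m v f) (summable_sl s hv f) (v := 0) (by simp)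
  refine memℓp_two (this.congr fun q => ?_)
  by_cases h : sn s q = 0 <;> simp [h]

/-- The function `z ↦ f (x, v)`, with `x` the main coordinate of `z`. -/
def Fv (s : Bool) (v : ℂ) (hv : ‖v‖ < 1) (f : H) : H :=
  ⟨fun q => if sn s q = 0 then sl s (so s q) v f else 0, Fv_mem s hv f⟩

lemma Fv_apply (s : Bool) (v : ℂ) (hv : ‖v‖ < 1) (f : H) (q : ℕ × ℕ) :
    Fv s v hv f q = if sn s q = 0 then sl s (so s q) v f else 0 := rfl

lemma Fv_hasSum (s : Bool) (v : ℂ) (hv : ‖v‖ < 1) (f : H) :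
    HasSum (fun m => sl s m v f • e (ix s m 0)) (Fv s v hv f) := by
  have h := hasSum_e (Fv s v hv f)
  have hi : Function.Injective fun m : ℕ => ix s m 0 := fun a b hab => (ix_inj.1 hab).1
  rw [← hi.hasSum_iff] at h
  · have h3 : ((fun p => Fv s v hv f p • e p) ∘ fun m : ℕ => ix s m 0) =
        fun m => sl s m v f • e (ix s m 0) := by
      ext1 m
      simp only [Function.comp_apply, Fv_apply, sn_ix, so_ix, if_true]
    rwa [h3] at h
  · intro q hq
    rw [Fv_apply, if_neg, zero_smul]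
    intro h0
    refine hq ⟨so s q, ?_⟩
    have := ix_so_sn s q
    rwa [h0] at this

lemma ev_Fv (s : Bool) (v : ℂ) (hv : ‖v‖ < 1) (f : H) {x y : ℂ} (hx : ‖x‖ < 1) (hy : ‖y‖ < 1) :
    ev (Fv s v hv f) (pt s x y) = ev f (pt s x v) := by
  have hm : pt s x y ∈ D2 := pt_mem hx hy
  have h := (Fv_hasSum s v hv f).mapL (innerSL ℂ (kz (pt s x y)))
  simp only [innerSL_apply_apply, ← ev_eq hm, ev_smul hm, ev_e hm, mono_pt_ix, pow_zero,
    mul_one] at h
  exact h.unique (ev_slice s hx hv f)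

lemma inner_Fv (s : Bool) {v w : ℂ} (hv : ‖v‖ < 1) (hw : ‖w‖ < 1) (f : H) (k : ℕ) :
    HasSum (fun m => sl s m v f * conj (sl s (m + k) w f))
      ⟪Fv s w hw f, T (ix s k 0) (Fv s v hv f)⟫_ℂ := by
  have h := ((Fv_hasSum s v hv f).mapL (T (ix s k 0)).toContinuousLinearMap).mapL
    (innerSL ℂ (Fv s w hw f))
  simp only [LinearIsometry.coe_toContinuousLinearMap, innerSL_apply_apply, map_smul, T_e, ix_add,
    add_zero, inner_smul_right] at h
  have h3 : (fun m => sl s m v f • ⟪Fv s w hw f, e (ix s (m + k) 0)⟫_ℂ) =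
      fun m => sl s m v f * conj (sl s (m + k) w f) := by
    ext m
    rw [smul_eq_mul, ← inner_conj_symm, inner_e_left, Fv_apply, sn_ix, so_ix, if_pos rfl]
  rwa [h3] at h

lemma T_apply_add (p q : ℕ × ℕ) (f : H) : T q f (p + q) = f p := by
  rw [← inner_e_left, ← T_e, LinearIsometry.inner_map_map, inner_e_left]

lemma sn_add (s : Bool) (p q : ℕ × ℕ) : sn s (p + q) = sn s p + sn s q := by cases s <;> rfl

lemma T_Fv_apply (s : Bool) {v : ℂ} (hv : ‖v‖ < 1) (f : H) (p r : ℕ × ℕ) (h : sn s r ≠ sn s p) :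
    T p (Fv s v hv f) r = 0 := by
  have h1 := (T_hasSum p (Fv s v hv f)).mapL (innerSL ℂ (e r))
  simp only [innerSL_apply_apply, inner_smul_right, inner_e_left] at h1
  have h2 : (fun q => Fv s v hv f q * e (q + p) r) = fun _ => 0 := by
    ext q
    rw [Fv_apply, e_apply]
    by_cases h3 : r = q + p
    · rw [if_neg, zero_mul]
      intro h4
      apply h
      rw [h3, sn_add, h4, zero_add]
    · rw [if_neg h3, mul_zero]
  rw [h2] at h1
  exact h1.unique hasSum_zero

lemma inner_T_Fv_ne (s : Bool) {v w : ℂ} (hv : ‖v‖ < 1) (hw : ‖w‖ < 1) (f : H) (p q : ℕ × ℕ)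
    (h : sn s p ≠ sn s q) : ⟪T p (Fv s w hw f), T q (Fv s v hv f)⟫_ℂ = 0 := by
  rw [lp.inner_eq_tsum]
  have : ∀ r, ⟪T p (Fv s w hw f) r, T q (Fv s v hv f) r⟫_ℂ = 0 := by
    intro r
    by_cases h1 : sn s r = sn s p
    · rw [T_Fv_apply s hv f q r (by rw [h1]; exact h), inner_zero_right]
    · rw [T_Fv_apply s hw f p r h1, inner_zero_left]
  simp only [this, tsum_zero]

/-- Under the key orthogonality relations, the shifts of the slices have constant inner
products. -/
lemma inner_T_Fv (s : Bool) (f : H)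
    (hkey : ∀ v w : ℂ, ∀ (hv : ‖v‖ < 1) (hw : ‖w‖ < 1), ∀ k : ℕ, k ≠ 0 →
      ⟪Fv s w hw f, T (ix s k 0) (Fv s v hv f)⟫_ℂ = 0)
    {v w : ℂ} (hv : ‖v‖ < 1) (hw : ‖w‖ < 1) (p q : ℕ × ℕ) :
    ⟪T p (Fv s w hw f), T q (Fv s v hv f)⟫_ℂ =
      if p = q then ⟪Fv s w hw f, Fv s v hv f⟫_ℂ else 0 := by
  obtain ⟨⟨p1, p2⟩, rfl⟩ := (ixE s).surjective p
  obtain ⟨⟨q1, q2⟩, rfl⟩ := (ixE s).surjective q
  rw [ixE_apply, ixE_apply]
  dsimp only
  by_cases h2 : p2 = q2
  · subst h2
    rcases lt_trichotomy p1 q1 with h | h | h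
    · obtain ⟨d, rfl⟩ := Nat.exists_eq_add_of_lt h
      rw [if_neg (by rw [ix_inj]; omega), show ix s (p1 + d + 1) p2 = ix s p1 p2 + ix s (d + 1) 0 by
        rw [ix_add]; rfl, T_add, LinearIsometry.inner_map_map]
      exact hkey v w hv hw (d + 1) (by omega)
    · subst h
      rw [if_pos rfl, LinearIsometry.inner_map_map]
    · obtain ⟨d, rfl⟩ := Nat.exists_eq_add_of_lt h
      rw [if_neg (by rw [ix_inj]; omega), show ix s (q1 + d + 1) p2 = ix s q1 p2 + ix s (d + 1) 0 by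
        rw [ix_add]; rfl, T_add, LinearIsometry.inner_map_map, ← inner_conj_symm,
        hkey w v hw hv (d + 1) (by omega), map_zero]
  · rw [if_neg (by rw [ix_inj]; tauto)]
    exact inner_T_Fv_ne s hv hw f _ _ (by rw [sn_ix, sn_ix]; exact h2)

/-- Under the key orthogonality relations the function is a product. -/
theorem decomp (s : Bool) (f : H)
    (hkey : ∀ v w : ℂ, ∀ (hv : ‖v‖ < 1) (hw : ‖w‖ < 1), ∀ k : ℕ, k ≠ 0 →
      ⟪Fv s w hw f, T (ix s k 0) (Fv s v hv f)⟫_ℂ = 0) :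
    ∃ A B : ℂ → ℂ, ∀ x y : ℂ, ‖x‖ < 1 → ‖y‖ < 1 → ev f (pt s x y) = A x * B y := by
  by_cases hf : ∀ (w : ℂ) (hw : ‖w‖ < 1), Fv s w hw f = 0
  · refine ⟨0, 0, fun x y hx hy => ?_⟩
    rw [← ev_Fv s y hy f hx (y := 0) (by simp), hf, ev_zero]
    simp
  · push Not at hf
    obtain ⟨w, hw, hFw⟩ := hf
    have horth : ∀ v : ℂ, ∀ hv : ‖v‖ < 1, Fv s v hv f ≠ 0 →
        Orthonormal ℂ fun q => ((‖Fv s v hv f‖⁻¹ : ℝ) : ℂ) • T q (Fv s v hv f) := by
      intro v hv h0
      have hn : ‖Fv s v hv f‖ ≠ 0 := norm_ne_zero_iff.2 h0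
      rw [orthonormal_iff_ite]
      intro p q
      rw [inner_smul_left, inner_smul_right, inner_T_Fv s f hkey hv hv, Complex.conj_ofReal]
      split_ifs
      · rw [inner_self_eq_norm_sq_to_K]
        push_cast
        have : ((‖Fv s v hv f‖ : ℝ) : ℂ) ≠ 0 := by exact_mod_cast hn
        simp only [Complex.coe_algebraMap]
        field_simp
      · simp
    have main : ∀ v : ℂ, ∀ hv : ‖v‖ < 1,
        ((‖Fv s w hw f‖ ^ 2 : ℝ) : ℂ) • Fv s v hv f =
          ⟪Fv s w hw f, Fv s v hv f⟫_ℂ • Fv s w hw f := by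
      intro v hv
      by_cases hFv : Fv s v hv f = 0
      · rw [hFv]; simp
      set n := ‖Fv s w hw f‖ with hn
      set n' := ‖Fv s v hv f‖ with hn'
      have hn0 : (n : ℂ) ≠ 0 := by exact_mod_cast norm_ne_zero_iff.2 hFw
      have hn0' : (n' : ℂ) ≠ 0 := by exact_mod_cast norm_ne_zero_iff.2 hFv
      set V := iso _ (horth w hw hFw) with hV
      set V' := iso _ (horth v hv hFv) with hV'
      have evV : ∀ g : H, ∀ z ∈ D2, ev (V g) z = ((n⁻¹ : ℝ) : ℂ) * ev (Fv s w hw f) z * ev g z := by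
        intro g z hz
        have h1 := ev_iso hz _ (horth w hw hFw) g
        have h2 := (ev_hasSum hz g).mul_left (((n⁻¹ : ℝ) : ℂ) * ev (Fv s w hw f) z)
        refine h1.unique ?_
        have h3 : (fun p => g p * ev (((‖Fv s w hw f‖⁻¹ : ℝ) : ℂ) • T p (Fv s w hw f)) z) =
            fun p => ((n⁻¹ : ℝ) : ℂ) * ev (Fv s w hw f) z * (g p * mono z p) := by
          ext p
          rw [ev_smul hz, ev_T hz, hn]
          ring
        rw [h3]
        exact h2
      have evV' : ∀ g : H, ∀ z ∈ D2,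
          ev (V' g) z = ((n'⁻¹ : ℝ) : ℂ) * ev (Fv s v hv f) z * ev g z := by
        intro g z hz
        have h1 := ev_iso hz _ (horth v hv hFv) g
        have h2 := (ev_hasSum hz g).mul_left (((n'⁻¹ : ℝ) : ℂ) * ev (Fv s v hv f) z)
        refine h1.unique ?_
        have h3 : (fun p => g p * ev (((‖Fv s v hv f‖⁻¹ : ℝ) : ℂ) • T p (Fv s v hv f)) z) =
            fun p => ((n'⁻¹ : ℝ) : ℂ) * ev (Fv s v hv f) z * (g p * mono z p) := by
          ext p
          rw [ev_smul hz, ev_T hz, hn']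
          ring
        rw [h3]
        exact h2
      have E1 : (n : ℂ) • V (Fv s v hv f) = (n' : ℂ) • V' (Fv s w hw f) := by
        refine ev_injective fun z hz => ?_
        rw [ev_smul hz, ev_smul hz, evV _ z hz, evV' _ z hz]
        push_cast
        field_simp
      have E2 : ∀ (g : H) (p : ℕ × ℕ), ⟪V (e p), V' g⟫_ℂ =
          ((n⁻¹ : ℝ) : ℂ) * ((n'⁻¹ : ℝ) : ℂ) * ⟪Fv s w hw f, Fv s v hv f⟫_ℂ * g p := by
        intro g p
        have h1 := (iso_hasSum _ (horth v hv hFv) g).mapL (innerSL ℂ (V (e p)))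
        simp only [innerSL_apply_apply, inner_smul_right] at h1
        rw [hV, iso_e] at h1 ⊢
        simp only [inner_smul_left, Complex.conj_ofReal, inner_T_Fv s f hkey hv hw] at h1
        rw [inner_smul_left, Complex.conj_ofReal]
        have h4 : (fun b => g b * (((‖Fv s v hv f‖⁻¹ : ℝ) : ℂ) * (((‖Fv s w hw f‖⁻¹ : ℝ) : ℂ) *
            if p = b then ⟪Fv s w hw f, Fv s v hv f⟫_ℂ else 0))) =
            fun b => if b = p then ((n⁻¹ : ℝ) : ℂ) * ((n'⁻¹ : ℝ) : ℂ) *
              ⟪Fv s w hw f, Fv s v hv f⟫_ℂ * g p else 0 := by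
          ext q
          by_cases hpq : p = q
          · subst hpq
            rw [if_pos rfl, if_pos rfl]
            ring
          · rw [if_neg hpq, if_neg (fun h => hpq h.symm)]
            ring
        rw [h4] at h1
        exact h1.unique (hasSum_ite_eq p _)
      have E3 : ∀ p : ℕ × ℕ, (n : ℂ) * Fv s v hv f p =
          (n' : ℂ) * (((n⁻¹ : ℝ) : ℂ) * ((n'⁻¹ : ℝ) : ℂ) * ⟪Fv s w hw f, Fv s v hv f⟫_ℂ *
            Fv s w hw f p) := by
        intro p
        rw [← E2, ← inner_smul_right, ← E1, inner_smul_right, LinearIsometry.inner_map_map,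
          inner_e_left]
      ext p
      have := E3 p
      simp only [lp.coeFn_smul, Pi.smul_apply, smul_eq_mul]
      push_cast at this ⊢
      field_simp at this
      linear_combination this
    refine ⟨fun x => ev f (pt s x w), fun y => if hy : ‖y‖ < 1 then
      ⟪Fv s w hw f, Fv s y hy f⟫_ℂ / ((‖Fv s w hw f‖ ^ 2 : ℝ) : ℂ) else 0, fun x y hx hy => ?_⟩
    have hn0 : ((‖Fv s w hw f‖ ^ 2 : ℝ) : ℂ) ≠ 0 := by
      have : ‖Fv s w hw f‖ ^ 2 ≠ 0 := pow_ne_zero 2 (norm_ne_zero_iff.2 hFw)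
      exact_mod_cast this
    have h1 := congrArg (fun g => ev g (pt s x 0)) (main y hy)
    have hm : pt s x 0 ∈ D2 := pt_mem hx (by simp)
    simp only [ev_smul hm, ev_Fv s _ _ f hx (y := 0) (by simp)] at h1
    beta_reduce
    rw [dif_pos hy]
    field_simp
    linear_combination h1

end

end Pool.Agent.R287.RA
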