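import Pool.Agent.R287.RAh

/-! Reducing Agler subspaces on the bidisk: the key orthogonality relations. -/

set_option autoImplicit false
open scoped ComplexConjugate InnerProductSpace
open Complex MeasureTheory Filter Topology

namespace Pool.Agent.R287.RA

noncomputable section

/-- The adjoint of an isometry. -/
def ad (Th : H →ₗᵢ[ℂ] H) : H →L[ℂ] H := ContinuousLinearMap.adjoint Th.toContinuousLinearMap

lemma inner_ad (Th : H →ₗᵢ[ℂ] H) (x y : H) : ⟪x, ad Th y⟫_ℂ = ⟪Th x, y⟫_ℂ := by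
  unfold ad
  rw [ContinuousLinearMap.adjoint_inner_right]
  rfl

lemma ad_self (Th : H →ₗᵢ[ℂ] H) (x : H) : ad Th (Th x) = x := by
  refine ext_inner_left ℂ fun y => ?_
  rw [inner_ad, LinearIsometry.inner_map_map]

lemma Th_T {θ : ℂ × ℂ → ℂ} {Th : H →ₗᵢ[ℂ] H}
    (hTh : ∀ f : H, ∀ z ∈ D2, ev (Th f) z = θ z * ev f z) (q : ℕ × ℕ) (f : H) :
    Th (T q f) = T q (Th f) := by
  refine ev_injective fun z hz => ?_
  rw [hTh _ z hz, ev_T hz, ev_T hz, hTh _ z hz]
  ring

lemma ad_kz {θ : ℂ × ℂ → ℂ} {Th : H →ₗᵢ[ℂ] H}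
    (hTh : ∀ f : H, ∀ z ∈ D2, ev (Th f) z = θ z * ev f z) {w : ℂ × ℂ} (hw : w ∈ D2) :
    ad Th (kz w) = conj (θ w) • kz w := by
  refine ext_inner_left ℂ fun y => ?_
  rw [inner_ad, inner_smul_right, ← inner_conj_symm, ← ev_eq hw, hTh _ w hw, ev_eq hw,
    map_mul, inner_conj_symm]

lemma ev_kz_pt (s : Bool) {x v w : ℂ} (hx : ‖x‖ < 1) (hv : ‖v‖ < 1) (hw : ‖w‖ < 1) :
    ev (kz (pt s 0 v)) (pt s x w) = 1 / (1 - w * conj v) := by
  rw [ev_kz (pt_mem hx hw) (pt_mem (by simp) hv)]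
  cases s <;> simp [pt]

theorem key {θ : ℂ × ℂ → ℂ} {Th : H →ₗᵢ[ℂ] H} {a : H}
    (hTh : ∀ f : H, ∀ z ∈ D2, ev (Th f) z = θ z * ev f z) (ha : ∀ z ∈ D2, ev a z = θ z)
    (hdil : ∀ g y : H, Tendsto (fun r : ℝ => ∑' q : ℕ × ℕ, a q * (r : ℂ) ^ (q.1 + q.2) *
      ⟪y, T q g⟫_ℂ) (𝓝[<] 1) (𝓝 ⟪y, Th g⟫_ℂ))
    (s : Bool) (Sa Sb : Set H)
    (ha0 : ∀ f ∈ Sa, ad Th f = 0) (ha1 : ∀ f ∈ Sa, T (ix s 1 0) f ∈ Sa)
    (hb0 : ∀ f ∈ Sb, ad Th f = 0) (hb1 : ∀ f ∈ Sb, T (ix s 0 1) f ∈ Sb)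
    (hb2 : ∀ f ∈ Sb, T (ix s 1 0) f - Th (ad Th (T (ix s 1 0) f)) ∈ Sb)
    (hsplit : ∀ w ∈ D2, ∃ f1 ∈ Sa, ∃ f2 ∈ Sb, kz w - Th (ad Th (kz w)) = f1 + f2)
    (v w : ℂ) (hv : ‖v‖ < 1) (hw : ‖w‖ < 1) (k : ℕ) (hk : k ≠ 0) :
    ⟪Fv s w hw a, T (ix s k 0) (Fv s v hv a)⟫_ℂ = 0 := by
  have ix0 : ix s 0 0 = 0 := by cases s <;> rfl
  have hbT : ∀ j, ∀ f ∈ Sb, T (ix s 0 j) f ∈ Sb := by
    intro j
    induction j with
    | zero => intro f hf; rw [ix0, T_zero]; exact hf
    | succ j ih =>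
      intro f hf
      have : ix s 0 (j + 1) = ix s 0 1 + ix s 0 j := by rw [ix_add, add_comm j 1]
      rw [this, T_add]
      exact hb1 _ (ih f hf)
  have haT : ∀ j, ∀ f ∈ Sa, T (ix s j 0) f ∈ Sa := by
    intro j
    induction j with
    | zero => intro f hf; rw [ix0, T_zero]; exact hf
    | succ j ih =>
      intro f hf
      have : ix s (j + 1) 0 = ix s 1 0 + ix s j 0 := by rw [ix_add, add_comm j 1]
      rw [this, T_add]
      exact ha1 _ (ih f hf)
  have L1 : ∀ m, ∀ f ∈ Sb, ∀ j, ad Th (T (ix s 0 j) (T (ix s m 0) f)) =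
      T (ix s 0 j) (ad Th (T (ix s m 0) f)) := by
    intro m
    induction m with
    | zero =>
      intro f hf j
      rw [ix0, T_zero, hb0 _ (hbT j f hf), hb0 f hf, map_zero]
    | succ m ih =>
      intro f hf j
      have h1 : ix s (m + 1) 0 = ix s m 0 + ix s 1 0 := by rw [ix_add]
      have h2 := hb2 f hf
      set h := ad Th (T (ix s 1 0) f) with hh
      set g := T (ix s 1 0) f - Th h with hg
      have h3 : T (ix s 1 0) f = g + Th h := by rw [hg]; abel
      rw [h1, T_add, h3]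
      simp only [map_add]
      rw [ih g h2 j, ← Th_T hTh, ← Th_T hTh, ad_self, ad_self]
  set w' := pt s 0 w with hw'
  have hwm : w' ∈ D2 := pt_mem (by simp) hw
  obtain ⟨f1, hf1, f2, hf2, hsum⟩ := hsplit w' hwm
  set kv := kz (pt s 0 v) with hkv
  have hvm : pt s 0 v ∈ D2 := pt_mem (by simp) hv
  have hden : 1 - v * conj w ≠ 0 := by
    intro h
    have h1 : v * conj w = 1 := (sub_eq_zero.1 h).symm
    have h2 := congrArg norm h1
    rw [norm_mul, RCLike.norm_conj, norm_one] at h2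
    nlinarith [norm_nonneg v, norm_nonneg w]
  have C1 : ∀ m, m ≠ 0 → ⟪kv, ad Th (T (ix s m 0) f2)⟫_ℂ =
      conj (sl s m w a) / (1 - v * conj w) := by
    intro m hm
    have h1 : f2 = kz w' - Th (ad Th (kz w')) - f1 := by rw [hsum]; abel
    have h2 : ⟪kv, ad Th (T (ix s m 0) f2)⟫_ℂ = ⟪Th kv, T (ix s m 0) (kz w')⟫_ℂ := by
      rw [h1]
      simp only [map_sub]
      rw [ha0 _ (haT m f1 hf1), ← Th_T hTh, ad_self, sub_zero, inner_sub_right,
        ev_T_zero s hv hm, sub_zero, inner_ad]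
    rw [h2, ← inner_conj_symm]
    have h3 : sl s m w (Th kv) = sl s m w a * (1 / (1 - w * conj v)) := by
      refine sl_unique s hw (Th kv) (fun m => sl s m w a * (1 / (1 - w * conj v)))
        (fun x hx => ?_) m
      rw [hTh _ _ (pt_mem hx hw), ← ha _ (pt_mem hx hw), ev_kz_pt s hx hv hw]
      have h5 := (ev_slice s hx hw a).mul_right (1 / (1 - w * conj v))
      have h6 : (fun m => sl s m w a * (1 / (1 - w * conj v)) * x ^ m) =
          fun m => sl s m w a * x ^ m * (1 / (1 - w * conj v)) := by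
        ext m
        ring
      rw [h6]
      exact h5
    unfold sl at h3
    rw [h3]
    unfold sl
    simp only [map_mul, map_div₀, map_sub, map_one, RCLike.conj_conj]
    rw [mul_one_div, mul_comm (conj w) v]
  have C2 : ∀ q : ℕ × ℕ, ⟪Th kv, T q (T (ix s k 0) f2)⟫_ℂ =
      conj (sl s (so s q + k) w a) / (1 - v * conj w) * v ^ (sn s q) := by
    intro q
    obtain ⟨⟨m, j⟩, rfl⟩ := (ixE s).surjective q
    rw [ixE_apply, so_ix, sn_ix]
    dsimp only
    have h1 : T (ix s m j) (T (ix s k 0) f2) = T (ix s 0 j) (T (ix s (m + k) 0) f2) := by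
      rw [← T_add, ← T_add, ix_add, ix_add]
      simp
    rw [h1, ← inner_ad, L1 _ f2 hf2, ← ev_eq hvm, ev_T hvm, mono_pt_ix, ev_eq hvm, ← hkv,
      C1 (m + k) (by omega)]
    ring
  have hβ : Summable fun m => ‖conj (sl s (m + k) w a) / (1 - v * conj w)‖ ^ 2 := by
    have h1 := (summable_nat_add_iff k).2 (summable_sl s hw a)
    have h2 := h1.mul_left ((‖1 - v * conj w‖ ^ 2)⁻¹)
    refine h2.congr fun m => ?_
    rw [norm_div, RCLike.norm_conj, div_pow]
    ring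
  have hbs := summable_prod s (fun m => conj (sl s (m + k) w a) / (1 - v * conj w)) hβ hv
  set b : ℕ × ℕ → ℂ := fun q => conj (sl s (so s q + k) w a) / (1 - v * conj w) * v ^ (sn s q)
    with hb
  have hsab : Summable fun q => ‖a q * b q‖ := by
    have hmem : Memℓp (fun q => conj (b q)) 2 := memℓp_two (by simpa only [RCLike.norm_conj] using hbs)
    have := (lp.summable_inner (𝕜 := ℂ) (⟨fun q => conj (b q), hmem⟩ : H) a).norm
    refine this.congr fun q => ?_
    simp [mul_comm]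
  have hlim1 := hdil (T (ix s k 0) f2) (Th kv)
  simp only [C2, LinearIsometry.inner_map_map] at hlim1
  rw [ev_T_zero s hv hk] at hlim1
  have hlim2 : Tendsto (fun r : ℝ => ∑' q : ℕ × ℕ, a q * (r : ℂ) ^ (q.1 + q.2) * b q)
      (𝓝[<] 1) (𝓝 (∑' q, a q * b q)) := by
    refine tendsto_tsum_of_dominated_convergence hsab ?_ ?_
    · intro q
      have : Tendsto (fun r : ℝ => a q * (r : ℂ) ^ (q.1 + q.2) * b q) (𝓝 1)
          (𝓝 (a q * ((1 : ℝ) : ℂ) ^ (q.1 + q.2) * b q)) := by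
        refine Continuous.tendsto ?_ 1
        fun_prop
      simpa using this.mono_left nhdsWithin_le_nhds
    · have h1 : ∀ᶠ r : ℝ in 𝓝[<] 1, r ∈ Set.Ioo (0 : ℝ) 1 :=
        Ioo_mem_nhdsLT (by norm_num)
      filter_upwards [h1] with r hr q
      have h3 : ‖a q * (r : ℂ) ^ (q.1 + q.2) * b q‖ = r ^ (q.1 + q.2) * ‖a q * b q‖ := by
        rw [norm_mul, norm_mul (a q) _, norm_pow, Complex.norm_real, Real.norm_eq_abs,
          abs_of_pos hr.1, norm_mul (a q) (b q)]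
        ring
      rw [h3]
      exact mul_le_of_le_one_left (norm_nonneg _) (pow_le_one₀ hr.1.le hr.2.le)
  have hzero : ∑' q, a q * b q = 0 := tendsto_nhds_unique hlim2 hlim1
  have hS : HasSum (fun q => a q * b q) 0 := by
    rw [← hzero]
    exact hsab.of_norm.hasSum
  have hS2 := ((ixE s).hasSum_iff.2 hS).prod_fiberwise
    (g := fun m => sl s m v a * (conj (sl s (m + k) w a) / (1 - v * conj w))) fun m => by
    have h2 := (sl_hasSum s m hv a).mul_right (conj (sl s (m + k) w a) / (1 - v * conj w))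
    have h3 : (fun n => ((fun q => a q * b q) ∘ ixE s) (m, n)) =
        fun n => a (ix s m n) * v ^ n * (conj (sl s (m + k) w a) / (1 - v * conj w)) := by
      ext n
      simp only [Function.comp_apply, ixE_apply, hb, so_ix, sn_ix]
      ring
    rw [h3]
    exact h2
  have hS3 := (inner_Fv s hv hw a k).div_const (1 - v * conj w)
  have h4 : (fun m => sl s m v a * conj (sl s (m + k) w a) / (1 - v * conj w)) =
      fun m => sl s m v a * (conj (sl s (m + k) w a) / (1 - v * conj w)) := by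
    ext m
    ring
  rw [h4] at hS3
  have h5 := hS3.unique hS2
  rw [div_eq_zero_iff] at h5
  exact h5.resolve_right hden

end

end Pool.Agent.R287.RA
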