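import Pool.Agent.R287.RAc
import Pool.Agent.R287.RAd
import Pool.Agent.R287.RAf
import Pool.Agent.R287.RAi

/-! Reducing Agler subspaces on the bidisk: from Agler kernels to the product decomposition. -/

set_option autoImplicit false
open scoped ComplexConjugate InnerProductSpace
open Complex MeasureTheory Filter Topology

namespace Pool.Agent.R287.RA

noncomputable section

lemma pk_congr {L L' : ℂ × ℂ → ℂ × ℂ → ℂ} (h : ∀ z ∈ D2, ∀ w ∈ D2, L z w = L' z w)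
    (hL : PosKer L) : PosKer L' := by
  intro n z c hz
  obtain ⟨x, hx, hs⟩ := hL n z c hz
  refine ⟨x, hx, ?_⟩
  rw [← hs]
  refine Finset.sum_congr rfl fun i _ => Finset.sum_congr rfl fun j _ => ?_
  rw [h _ (hz i) _ (hz j)]

lemma pk_add {L L' : ℂ × ℂ → ℂ × ℂ → ℂ} (hL : PosKer L) (hL' : PosKer L') :
    PosKer fun z w => L z w + L' z w := by
  intro n z c hz
  obtain ⟨x, hx, hs⟩ := hL n z c hz
  obtain ⟨y, hy, ht⟩ := hL' n z c hz
  refine ⟨x + y, by positivity, ?_⟩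
  push_cast
  rw [← hs, ← ht]
  simp only [mul_add, Finset.sum_add_distrib]

lemma pk_smul {L : ℂ × ℂ → ℂ × ℂ → ℂ} {C : ℝ} (hC : 0 ≤ C) (hL : PosKer L) :
    PosKer fun z w => (C : ℂ) * L z w := by
  intro n z c hz
  obtain ⟨x, hx, hs⟩ := hL n z c hz
  refine ⟨C * x, by positivity, ?_⟩
  push_cast
  rw [← hs, Finset.mul_sum]
  refine Finset.sum_congr rfl fun i _ => ?_
  rw [Finset.mul_sum]
  refine Finset.sum_congr rfl fun j _ => ?_
  ring

lemma pk_twist {L : ℂ × ℂ → ℂ × ℂ → ℂ} (g : ℂ × ℂ → ℂ) (hL : PosKer L) :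
    PosKer fun z w => g z * conj (g w) * L z w := by
  intro n z c hz
  obtain ⟨x, hx, hs⟩ := hL n z (fun i => c i * conj (g (z i))) hz
  refine ⟨x, hx, ?_⟩
  rw [← hs]
  refine Finset.sum_congr rfl fun i _ => Finset.sum_congr rfl fun j _ => ?_
  simp only [map_mul, RCLike.conj_conj]
  ring

lemma pk_diag {L : ℂ × ℂ → ℂ × ℂ → ℂ} (hL : PosKer L) {w : ℂ × ℂ} (hw : w ∈ D2) :
    ∃ d : ℝ, 0 ≤ d ∧ L w w = (d : ℂ) := by
  obtain ⟨x, hx, hs⟩ := hL 1 (fun _ => w) (fun _ => 1) (fun _ => hw)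
  refine ⟨x, hx, ?_⟩
  simpa using hs

lemma pk_herm {L : ℂ × ℂ → ℂ × ℂ → ℂ} (hL : PosKer L) {z w : ℂ × ℂ} (hz : z ∈ D2) (hw : w ∈ D2) :
    L w z = conj (L z w) := by
  obtain ⟨d, _, hd⟩ := pk_diag hL hz
  obtain ⟨d', _, hd'⟩ := pk_diag hL hw
  obtain ⟨x, _, hs⟩ := hL 2 ![z, w] ![1, 1] (by intro i; fin_cases i <;> simp [hz, hw])
  obtain ⟨y, _, ht⟩ := hL 2 ![z, w] ![1, I] (by intro i; fin_cases i <;> simp [hz, hw])
  simp only [Fin.sum_univ_two, Matrix.cons_val_zero, Matrix.cons_val_one, map_one, one_mul,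
    Complex.conj_I, hd, hd', mul_one] at hs ht
  have e1 := congrArg Complex.im hs
  have e2 := congrArg Complex.im ht
  simp at e1 e2
  apply Complex.ext
  · simp; linarith
  · simp; linarith

lemma pk_section {L : ℂ × ℂ → ℂ × ℂ → ℂ} (hL : PosKer L) {w : ℂ × ℂ} (hw : w ∈ D2) :
    InRKHS L fun z => L z w := by
  obtain ⟨d, hd, hdd⟩ := pk_diag hL hw
  refine ⟨d, hd, fun n z c hz => ?_⟩
  obtain ⟨q, hq, hqq⟩ := hL n z c hz
  set α := ∑ i, conj (c i) * L (z i) w with hα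
  have h1 : ∑ i, ∑ j, conj (c i) * c j * ((d : ℂ) * L (z i) (z j) - L (z i) w * conj (L (z j) w)) =
      ((d * q - ‖α‖ ^ 2 : ℝ) : ℂ) := by
    push_cast
    rw [← hqq]
    have h2 := P2.quad_rank1 z c (fun z => L z w)
    push_cast at h2
    rw [← hα] at h2
    rw [← h2, Finset.mul_sum, ← Finset.sum_sub_distrib]
    refine Finset.sum_congr rfl fun i _ => ?_
    rw [Finset.mul_sum, ← Finset.sum_sub_distrib]
    refine Finset.sum_congr rfl fun j _ => ?_
    ring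
  refine ⟨d * q - ‖α‖ ^ 2, ?_, h1⟩
  have h3 : ∀ r : ℝ, 0 ≤ ‖α‖ ^ 2 * r ^ 2 * d - 2 * r * ‖α‖ ^ 2 + q := by
    intro r
    obtain ⟨x, hx, hxx⟩ := hL (n + 1) (Fin.cons w z) (Fin.cons (-(r : ℂ) * conj α) c)
      (by intro i; refine Fin.cases ?_ (fun i => ?_) i <;> simp [hw, hz])
    have h4 : ∑ j, c j * L w (z j) = conj α := by
      rw [hα, map_sum]
      refine Finset.sum_congr rfl fun j _ => ?_
      rw [map_mul, RCLike.conj_conj, pk_herm hL (hz j) hw]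
    have h5 : (x : ℂ) = ((‖α‖ ^ 2 * r ^ 2 * d - 2 * r * ‖α‖ ^ 2 + q : ℝ) : ℂ) := by
      rw [← hxx]
      simp only [Fin.sum_univ_succ, Fin.cons_zero, Fin.cons_succ, Finset.sum_add_distrib, hdd]
      rw [hqq]
      have h6 : ∑ j, conj (-(r : ℂ) * conj α) * c j * L w (z j) = -(r : ℂ) * α * conj α := by
        have h8 : ∀ β : ℂ, ∑ j, β * c j * L w (z j) = β * conj α := by
          intro β
          rw [← h4, Finset.mul_sum]
          refine Finset.sum_congr rfl fun j _ => ?_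
          ring
        rw [h8]
        simp only [map_mul, map_neg, RCLike.conj_conj, Complex.conj_ofReal]
      have h7 : ∑ i, conj (c i) * (-(r : ℂ) * conj α) * L (z i) w = -(r : ℂ) * conj α * α := by
        have h8 : ∀ β : ℂ, ∑ i, conj (c i) * β * L (z i) w = β * α := by
          intro β
          rw [hα, Finset.mul_sum]
          refine Finset.sum_congr rfl fun j _ => ?_
          ring
        rw [h8]
      rw [h6, h7]
      have h8 : α * conj α = ((‖α‖ ^ 2 : ℝ) : ℂ) := by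
        rw [Complex.mul_conj, Complex.normSq_eq_norm_sq]
      push_cast at h8 ⊢
      simp only [map_mul, map_neg, RCLike.conj_conj, Complex.conj_ofReal]
      linear_combination (r ^ 2 * d - 2 * r : ℂ) * h8
    have h9 : x = ‖α‖ ^ 2 * r ^ 2 * d - 2 * r * ‖α‖ ^ 2 + q := by exact_mod_cast h5
    rw [← h9]
    exact hx
  rcases hd.eq_or_lt with h0 | h0
  · have h4 := h3 ((q + 1) / ‖α‖ ^ 2 )
    rw [← h0] at h4 ⊢
    by_cases hα0 : ‖α‖ ^ 2 = 0
    · rw [hα0]; simp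
    · have h5 : 2 * ((q + 1) / ‖α‖ ^ 2) * ‖α‖ ^ 2 = 2 * (q + 1) := by
        rw [mul_assoc, div_mul_cancel₀ _ hα0]
      rw [h5, mul_zero] at h4
      linarith
  · have h4 := h3 (1 / d)
    have h5 : d * (‖α‖ ^ 2 * (1 / d) ^ 2 * d - 2 * (1 / d) * ‖α‖ ^ 2 + q) = d * q - ‖α‖ ^ 2 := by
      field_simp
      ring
    rw [← h5]
    positivity

/-- The main coordinate. -/
def mc (s : Bool) (z : ℂ × ℂ) : ℂ := if s then z.1 else z.2

lemma mono_ix10 (s : Bool) (z : ℂ × ℂ) : mono z (ix s 1 0) = mc s z := by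
  cases s <;> simp [mono, ix, mc]

lemma mono_ix01 (s : Bool) (z : ℂ × ℂ) : mono z (ix s 0 1) = mc (!s) z := by
  cases s <;> simp [mono, ix, mc]

/-- The reproducing kernel Hilbert space of `L` is invariant under the multiplication by a
coordinate `x` if `(1 - x x')L` is a positive kernel. -/
lemma agl_inv {L L' : ℂ × ℂ → ℂ × ℂ → ℂ} (q : ℕ × ℕ) (hL' : PosKer L')
    (h : ∀ z ∈ D2, ∀ w ∈ D2, (1 - mono z q * conj (mono w q)) * L z w = L' z w) {f : H}
    (hf : f ∈ agl L) : T q f ∈ agl L := by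
  obtain ⟨C, hC, hP⟩ := hf
  refine ⟨C, hC, ?_⟩
  refine pk_congr ?_ (pk_add (pk_twist (fun z => mono z q) hP) (pk_smul hC hL'))
  intro z hz w hw
  rw [← h z hz w hw, ev_T hz, ev_T hw, map_mul]
  ring

section model

variable {θ : ℂ × ℂ → ℂ} {Th : H →ₗᵢ[ℂ] H}

lemma mem_K (hTh : ∀ f : H, ∀ z ∈ D2, ev (Th f) z = θ z * ev f z) (f : H) :
    f ∈ K θ ↔ ad Th f = 0 := by
  constructor
  · intro h
    refine ext_inner_left ℂ fun y => ?_
    rw [inner_ad, inner_zero_right]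
    exact (Submodule.mem_orthogonal _ _).1 h _ ⟨y, fun z hz => hTh y z hz⟩
  · intro h
    rw [Submodule.mem_orthogonal]
    rintro u ⟨g, hg⟩
    have : u = Th g := ev_injective fun z hz => by rw [hg z hz, hTh g z hz]
    rw [this, ← inner_ad, h, inner_zero_right]

lemma proj_K (hTh : ∀ f : H, ∀ z ∈ D2, ev (Th f) z = θ z * ev f z) (x : H) :
    (K θ).starProjection x = x - Th (ad Th x) := by
  refine Submodule.eq_starProjection_of_mem_of_inner_eq_zero ?_ ?_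
  · rw [mem_K hTh, map_sub, ad_self, sub_self]
  · intro w hw
    rw [mem_K hTh] at hw
    rw [sub_sub_cancel, ← inner_ad, hw, inner_zero_right]

lemma ev_proj_K (hTh : ∀ f : H, ∀ z ∈ D2, ev (Th f) z = θ z * ev f z) {z w : ℂ × ℂ}
    (hz : z ∈ D2) (hw : w ∈ D2) :
    ev ((K θ).starProjection (kz w)) z = (1 - θ z * conj (θ w)) * ev (kz w) z := by
  rw [proj_K hTh, ev_sub hz, hTh _ z hz, ad_kz hTh hw, ev_smul hz]
  ring

lemma pk_szego : PosKer fun z w => ev (kz w) z := by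
  intro n z c hz
  have h1 := P2.quad_comb z c hz (ContinuousLinearMap.id ℂ H)
  simp only [ContinuousLinearMap.id_apply] at h1
  refine ⟨‖P2.comb z c‖ ^ 2, by positivity, ?_⟩
  rw [h1, inner_self_eq_norm_sq_to_K]
  simp

/-- From Agler kernels with the reducing property to a product decomposition. -/
theorem fwd (hθ : Inner2 θ) (s : Bool) (Ka Kb La Lb : ℂ × ℂ → ℂ × ℂ → ℂ)
    (hKa : PosKer Ka) (hKb : PosKer Kb) (pLa : PosKer La) (pLb : PosKer Lb)
    (hLa : ∀ z ∈ D2, ∀ w ∈ D2, (1 - mc s z * conj (mc s w)) * La z w = Ka z w)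
    (hLb : ∀ z ∈ D2, ∀ w ∈ D2, (1 - mc (!s) z * conj (mc (!s) w)) * Lb z w = Kb z w)
    (hid : ∀ z ∈ D2, ∀ w ∈ D2, La z w + Lb z w = (1 - θ z * conj (θ w)) * ev (kz w) z)
    (hred : ∀ f : K θ, (f : H) ∈ agl Lb → ((Sz θ (ix s 1 0) f : K θ) : H) ∈ agl Lb) :
    ∃ A B : ℂ → ℂ, ∀ x y : ℂ, ‖x‖ < 1 → ‖y‖ < 1 → θ (pt s x y) = A x * B y := by
  obtain ⟨Th, a, hTh, ha, hdil⟩ := p1 θ hθ
  have inK : ∀ (L L' : ℂ × ℂ → ℂ × ℂ → ℂ), PosKer L' →
      (∀ z ∈ D2, ∀ w ∈ D2, L z w + L' z w = (1 - θ z * conj (θ w)) * ev (kz w) z) →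
      ∀ f ∈ agl L, f ∈ K θ := by
    intro L L' hL' h f hf
    rw [← p2b (K θ) f]
    obtain ⟨C, hC, hP⟩ := hf
    refine ⟨C, hC, pk_congr ?_ (pk_add hP (pk_smul hC hL'))⟩
    intro z hz w hw
    beta_reduce
    rw [ev_proj_K hTh hz hw, ← h z hz w hw]
    ring
  have sect : ∀ (L L' : ℂ × ℂ → ℂ × ℂ → ℂ), PosKer L → PosKer L' →
      (∀ z ∈ D2, ∀ w ∈ D2, L z w + L' z w = (1 - θ z * conj (θ w)) * ev (kz w) z) →
      ∀ w ∈ D2, ∃ f ∈ agl L, ∀ z ∈ D2, ev f z = L z w := by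
    intro L L' hL hL' h w hw
    obtain ⟨C, hC, hP⟩ := pk_section hL hw
    have h1 : InRKHS (fun z w => ev (kz w) z) (fun z => L z w) := by
      refine ⟨C, hC, pk_congr (fun z hz w' hw' => ?_)
        (pk_add (pk_add hP (pk_smul hC hL')) (pk_smul hC (pk_twist θ pk_szego)))⟩
      have := h z hz w' hw'
      linear_combination (C : ℂ) * this
    obtain ⟨f, hf⟩ := p2a (fun z => L z w) h1
    refine ⟨f, ⟨C, hC, pk_congr (fun z hz w' hw' => ?_) hP⟩, hf⟩
    rw [hf z hz, hf w' hw']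
  have hid' : ∀ z ∈ D2, ∀ w ∈ D2, Lb z w + La z w = (1 - θ z * conj (θ w)) * ev (kz w) z := by
    intro z hz w hw
    rw [add_comm]
    exact hid z hz w hw
  have hkey := key hTh ha hdil s (agl La) (agl Lb)
    (fun f hf => (mem_K hTh f).1 (inK La Lb pLb hid f hf))
    (fun f hf => agl_inv (ix s 1 0) hKa (fun z hz w hw => by
      rw [mono_ix10, mono_ix10]; exact hLa z hz w hw) hf)
    (fun f hf => (mem_K hTh f).1 (inK Lb La pLa hid' f hf))
    (fun f hf => agl_inv (ix s 0 1) hKb (fun z hz w hw => by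
      rw [mono_ix01, mono_ix01]; exact hLb z hz w hw) hf)
    (fun f hf => by
      have h1 := hred ⟨f, inK Lb La pLa hid' f hf⟩ hf
      have h2 : ((Sz θ (ix s 1 0) ⟨f, inK Lb La pLa hid' f hf⟩ : K θ) : H) =
          (K θ).starProjection (T (ix s 1 0) f) := rfl
      rw [h2, proj_K hTh] at h1
      exact h1)
    (fun w hw => by
      obtain ⟨f1, hf1, e1⟩ := sect La Lb pLa pLb hid w hw
      obtain ⟨f2, hf2, e2⟩ := sect Lb La pLb pLa hid' w hw
      refine ⟨f1, hf1, f2, hf2, ev_injective fun z hz => ?_⟩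
      rw [← proj_K hTh, ev_proj_K hTh hz hw, ev_add hz, e1 z hz, e2 z hz, hid z hz w hw])
  obtain ⟨A, B, hAB⟩ := decomp s a hkey
  exact ⟨A, B, fun x y hx hy => by rw [← hAB x y hx hy, ha _ (pt_mem hx hy)]⟩

end model

end

end Pool.Agent.R287.RA
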