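import Pool.Agent.R287.RAj
import Pool.Agent.R287.RAe

/-! Reducing Agler subspaces on the bidisk: the same notions with operators on the whole Hardy
space (short terms), and the final theorem. -/

set_option autoImplicit false
open scoped ComplexConjugate InnerProductSpace
open Complex MeasureTheory Filter Topology

namespace Pool.Agent.R287.RA

noncomputable section

/-- The adjoint of the multiplication by the monomial `z^q`. -/
def Tadj (q : ℕ × ℕ) (f : H) : H := ContinuousLinearMap.adjoint (T q).toContinuousLinearMap f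

/-- `g = T^* f`, where `T` is the multiplication by the monomial `z^q`. -/
def IsAdj (q : ℕ × ℕ) (f g : H) : Prop := ∀ h : H, ⟪g, h⟫_ℂ = ⟪f, T q h⟫_ℂ

lemma isAdj_iff (q : ℕ × ℕ) (f g : H) : IsAdj q f g ↔ g = Tadj q f := by
  constructor
  · intro h
    refine ext_inner_right ℂ fun x => ?_
    rw [h x]
    unfold Tadj
    rw [ContinuousLinearMap.adjoint_inner_left]
    rfl
  · rintro rfl x
    unfold Tadj
    rw [ContinuousLinearMap.adjoint_inner_left]
    rfl

/-- The orthogonal projection onto the model space. -/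
def PK (θ : ℂ × ℂ → ℂ) (f : H) : H := (K θ).starProjection f

/-- The set `S` of vectors of the model space is invariant under the compression
`f ↦ P_θ T f` of the multiplication `T` by `z^q` to the model space and under the adjoint
`f ↦ P_θ T^* f` of this compression. -/
def IsReducing (θ : ℂ × ℂ → ℂ) (q : ℕ × ℕ) (S : Set H) : Prop :=
  ∀ f ∈ S, f ∈ K θ → PK θ (T q f) ∈ S ∧ ∀ g : H, IsAdj q f g → PK θ g ∈ S

/-- For some pair of Agler kernels of `θ`, both Agler subspaces are reducing for the compression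
to the model space of the multiplication by `z^q`. -/
def HasRed (θ : ℂ × ℂ → ℂ) (q : ℕ × ℕ) : Prop :=
  ∃ K₁ K₂ : ℂ × ℂ → ℂ × ℂ → ℂ, PosKer K₁ ∧ PosKer K₂ ∧
    (∀ z ∈ D2, ∀ w ∈ D2, 1 - θ z * conj (θ w) =
      (1 - z.1 * conj w.1) * K₂ z w + (1 - z.2 * conj w.2) * K₁ z w) ∧
    IsReducing θ q (agl fun z w => K₁ z w / (1 - z.1 * conj w.1)) ∧
    IsReducing θ q (agl fun z w => K₂ z w / (1 - z.2 * conj w.2))

lemma Sz_adjoint (θ : ℂ × ℂ → ℂ) (q : ℕ × ℕ) (f : K θ) :
    ((ContinuousLinearMap.adjoint (Sz θ q) f : K θ) : H) = PK θ (Tadj q f) := by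
  unfold Sz
  rw [ContinuousLinearMap.adjoint_comp, ContinuousLinearMap.adjoint_comp,
    Submodule.adjoint_subtypeL, Submodule.adjoint_orthogonalProjection]
  rfl

lemma isReducing_iff (θ : ℂ × ℂ → ℂ) (q : ℕ × ℕ) (S : Set H) :
    IsReducing θ q S ↔ Reduces θ q S := by
  constructor
  · intro h f hf
    rw [Sz_adjoint]
    exact ⟨(h f hf f.2).1, (h f hf f.2).2 _ ((isAdj_iff q _ _).2 rfl)⟩
  · intro h f hf hfK
    have := h ⟨f, hfK⟩ hf
    rw [Sz_adjoint] at this
    exact ⟨this.1, fun g hg => by rw [(isAdj_iff q _ _).1 hg]; exact this.2⟩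

lemma hasRed_iff (θ : ℂ × ℂ → ℂ) (q : ℕ × ℕ) : HasRed θ q ↔ HasReducing θ q := by
  unfold HasRed HasReducing
  simp only [isReducing_iff]

theorem final (θ : ℂ × ℂ → ℂ) (hθ : Inner2 θ) :
    (HasRed θ (1, 0) ∨ HasRed θ (0, 1)) ↔
      ∃ φ ψ : ℂ → ℂ, Inner1 φ ∧ Inner1 ψ ∧ ∀ z ∈ D2, θ z = φ z.1 * ψ z.2 := by
  rw [hasRed_iff, hasRed_iff]
  constructor
  · rintro (⟨K₁, K₂, h1, h2, hid, hr1, hr2⟩ | ⟨K₁, K₂, h1, h2, hid, hr1, hr2⟩)
    · obtain ⟨A, B, hAB⟩ := fwd hθ true K₁ K₂ _ _ h1 h2 (p2c K₁ h1).1 (p2c K₂ h2).2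
        (fun z hz w hw => by
          have := D2_ne1 hz hw
          simp only [mc, if_true]
          field_simp)
        (fun z hz w hw => by
          have := D2_ne2 hz hw
          simp only [mc, Bool.not_true, Bool.false_eq_true, if_false]
          field_simp)
        (fun z hz w hw => by
          have n1 := D2_ne1 hz hw
          have n2 := D2_ne2 hz hw
          rw [ev_kz hz hw, hid z hz w hw]
          field_simp
          ring)
        (fun f hf => (hr2 f hf).1)
      exact p3 θ hθ A B (fun z hz => hAB z.1 z.2 hz.1 hz.2)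
    · obtain ⟨A, B, hAB⟩ := fwd hθ false K₂ K₁ _ _ h2 h1 (p2c K₂ h2).2 (p2c K₁ h1).1
        (fun z hz w hw => by
          have := D2_ne2 hz hw
          simp only [mc, Bool.false_eq_true, if_false]
          field_simp)
        (fun z hz w hw => by
          have := D2_ne1 hz hw
          simp only [mc, Bool.not_false, if_true]
          field_simp)
        (fun z hz w hw => by
          have n1 := D2_ne1 hz hw
          have n2 := D2_ne2 hz hw
          rw [ev_kz hz hw, hid z hz w hw]
          field_simp)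
        (fun f hf => (hr1 f hf).1)
      exact p3 θ hθ B A (fun z hz => by rw [mul_comm]; exact hAB z.2 z.1 hz.2 hz.1)
  · rintro ⟨φ, ψ, hφ, hψ, h⟩
    exact Or.inl (p4 p1 p2b θ φ ψ hφ hψ h)

end

end Pool.Agent.R287.RA
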