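import Pool.Agent.R287.HSa

open MeasureTheory Complex AddCircle
open scoped ComplexConjugate ENNReal InnerProductSpace Matrix

namespace Pool.Agent.R287.SN

open Pool.Agent.R287.HS

/-- `T` is normal. -/
def IsNormalOp {H : Type} [NormedAddCommGroup H] [InnerProductSpace ℂ H] [CompleteSpace H]
    (T : H →L[ℂ] H) : Prop :=
  ContinuousLinearMap.adjoint T ∘L T = T ∘L ContinuousLinearMap.adjoint T

/-- `T` is subnormal: it is the restriction of a normal operator `N` on a Hilbert space `K`
containing `H` (through the isometry `V`) to its invariant subspace `H`. -/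
def IsSubnormal {H : Type} [NormedAddCommGroup H] [InnerProductSpace ℂ H]
    (T : H →L[ℂ] H) : Prop :=
  ∃ (K : Type) (_ : NormedAddCommGroup K) (_ : InnerProductSpace ℂ K) (_ : CompleteSpace K)
    (V : H →ₗᵢ[ℂ] K) (N : K →L[ℂ] K), IsNormalOp N ∧ ∀ x, N (V x) = V (T x)

section general

variable {H : Type} [NormedAddCommGroup H] [InnerProductSpace ℂ H] [CompleteSpace H]

/-- An operator on `H × H` from its four entries. -/
noncomputable def block (A B C D : H →L[ℂ] H) : WithLp 2 (H × H) →L[ℂ] WithLp 2 (H × H) :=
  let e := (WithLp.prodContinuousLinearEquiv 2 ℂ H H)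
  (e.symm : (H × H) →L[ℂ] WithLp 2 (H × H)) ∘L
    (((A ∘L ContinuousLinearMap.fst ℂ H H + B ∘L ContinuousLinearMap.snd ℂ H H).prod
      (C ∘L ContinuousLinearMap.fst ℂ H H + D ∘L ContinuousLinearMap.snd ℂ H H)) ∘L
        (e : WithLp 2 (H × H) →L[ℂ] H × H))

lemma block_fst (A B C D : H →L[ℂ] H) (x : WithLp 2 (H × H)) :
    (block A B C D x).fst = A x.fst + B x.snd := rfl

lemma block_snd (A B C D : H →L[ℂ] H) (x : WithLp 2 (H × H)) :
    (block A B C D x).snd = C x.fst + D x.snd := rfl

lemma block_adjoint (A B C D A' B' C' D' : H →L[ℂ] H)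
    (hA : ContinuousLinearMap.adjoint A = A') (hB : ContinuousLinearMap.adjoint B = B')
    (hC : ContinuousLinearMap.adjoint C = C') (hD : ContinuousLinearMap.adjoint D = D') :
    ContinuousLinearMap.adjoint (block A B C D) = block A' C' B' D' := by
  symm
  rw [ContinuousLinearMap.eq_adjoint_iff]
  intro x y
  rw [WithLp.prod_inner_apply, WithLp.prod_inner_apply]
  show ⟪(block A' C' B' D' x).fst, y.fst⟫_ℂ + ⟪(block A' C' B' D' x).snd, y.snd⟫_ℂ =
    ⟪x.fst, (block A B C D y).fst⟫_ℂ + ⟪x.snd, (block A B C D y).snd⟫_ℂ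
  rw [block_fst, block_snd, block_fst, block_snd, inner_add_left, inner_add_left, inner_add_right,
    inner_add_right, ← hA, ← hB, ← hC, ← hD]
  simp only [ContinuousLinearMap.adjoint_inner_left]
  ring

/-- If `D = T*T - TT*` is idempotent and `D T = 0`, then `T` is subnormal. -/
lemma isSubnormal_of (T : H →L[ℂ] H) {D : H →L[ℂ] H}
    (hD : ContinuousLinearMap.adjoint T ∘L T = T ∘L ContinuousLinearMap.adjoint T + D)
    (hDD : D ∘L D = D) (hDs : ContinuousLinearMap.adjoint D = D) (hDT : D ∘L T = 0) :
    IsSubnormal T := by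
  have hTD : ContinuousLinearMap.adjoint T ∘L D = 0 := by
    have := congrArg ContinuousLinearMap.adjoint hDT
    rwa [ContinuousLinearMap.adjoint_comp, hDs, map_zero] at this
  let V : H →ₗᵢ[ℂ] WithLp 2 (H × H) :=
    { toFun := fun x => WithLp.toLp 2 (x, 0)
      map_add' := fun x y => by
        rw [← WithLp.toLp_add]; simp
      map_smul' := fun c x => by
        rw [RingHom.id_apply, ← WithLp.toLp_smul]; simp
      norm_map' := fun x => by
        show ‖WithLp.toLp 2 (x, (0 : H))‖ = ‖x‖
        rw [WithLp.prod_norm_eq_of_L2]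
        simp }
  refine ⟨WithLp 2 (H × H), inferInstance, inferInstance, inferInstance, V,
    block T D 0 (ContinuousLinearMap.adjoint T), ?_, fun x => ?_⟩
  · unfold IsNormalOp
    rw [block_adjoint T D 0 (ContinuousLinearMap.adjoint T) (ContinuousLinearMap.adjoint T) D 0 T
      rfl hDs (map_zero _) (ContinuousLinearMap.adjoint_adjoint T)]
    have hx : ∀ x : H, ContinuousLinearMap.adjoint T (T x) =
        T (ContinuousLinearMap.adjoint T x) + D x := fun x =>
      congrArg (fun A : H →L[ℂ] H => A x) hD
    have hdd : ∀ x : H, D (D x) = D x := fun x => congrArg (fun A : H →L[ℂ] H => A x) hDD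
    have hdt : ∀ x : H, D (T x) = 0 := fun x => congrArg (fun A : H →L[ℂ] H => A x) hDT
    have htd : ∀ x : H, ContinuousLinearMap.adjoint T (D x) = 0 := fun x =>
      congrArg (fun A : H →L[ℂ] H => A x) hTD
    apply ContinuousLinearMap.ext
    intro x
    have h1 : ((block (ContinuousLinearMap.adjoint T) 0 D T) ∘L
        (block T D 0 (ContinuousLinearMap.adjoint T))) x =
        (block (ContinuousLinearMap.adjoint T) 0 D T)
          ((block T D 0 (ContinuousLinearMap.adjoint T)) x) := rfl
    have h2 : ((block T D 0 (ContinuousLinearMap.adjoint T)) ∘L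
        (block (ContinuousLinearMap.adjoint T) 0 D T)) x =
        (block T D 0 (ContinuousLinearMap.adjoint T))
          ((block (ContinuousLinearMap.adjoint T) 0 D T) x) := rfl
    rw [h1, h2]
    have hfst : ∀ y z : WithLp 2 (H × H), y.fst = z.fst → y.snd = z.snd → y = z := by
      intro y z h h'
      apply (WithLp.equiv 2 (H × H)).injective
      exact Prod.ext h h'
    apply hfst
    · simp only [block_fst, block_snd, map_add, hx, hdd, hdt, htd,
        ContinuousLinearMap.zero_apply, add_zero]
    · simp only [block_fst, block_snd, map_add, hx, hdd, hdt, htd,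
        ContinuousLinearMap.zero_apply, add_zero, zero_add]
      abel
  · have hfst : ∀ y z : WithLp 2 (H × H), y.fst = z.fst → y.snd = z.snd → y = z := by
      intro y z h h'
      apply (WithLp.equiv 2 (H × H)).injective
      exact Prod.ext h h'
    apply hfst
    · rw [block_fst]
      show T x + D 0 = T x
      rw [map_zero, add_zero]
    · rw [block_snd]
      show (0 : H →L[ℂ] H) x + ContinuousLinearMap.adjoint T 0 = 0
      rw [map_zero, add_zero]; rfl

end general

end Pool.Agent.R287.SN
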