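import Pool.Agent.R287.SNa

open MeasureTheory Complex AddCircle
open scoped ComplexConjugate ENNReal InnerProductSpace Matrix

namespace Pool.Agent.R287.SN

open Pool.Agent.R287.HS

/-- `T` is the block Toeplitz operator with symbol `Φ` on the Hilbert space `H` with orthonormal
basis `e`, where `e (k, i)` stands for `z^k` times the `i`-th unit vector in `H²_{ℂⁿ}`. -/
def IsBlockToeplitz {n : ℕ} {H : Type} [NormedAddCommGroup H] [InnerProductSpace ℂ H]
    (e : HilbertBasis (ℕ × Fin n) ℂ H) (Φ : Cir → Matrix (Fin n) (Fin n) ℂ)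
    (T : H →L[ℂ] H) : Prop :=
  ∀ (k l : ℕ) (i j : Fin n),
    ⟪e (k, i), T (e (l, j))⟫_ℂ = fourierCoeff (fun t => Φ t i j) ((k : ℤ) - l)

/-- `Φ` has bounded measurable entries. -/
def IsBddSymbol {n : ℕ} (Φ : Cir → Matrix (Fin n) (Fin n) ℂ) : Prop :=
  ∀ i j, MemLp (fun t => Φ t i j) ∞ haarAddCircle

/-- All Fourier coefficients of `Φ` of negative index vanish. -/
def IsAnalyticSymbol {n : ℕ} (Φ : Cir → Matrix (Fin n) (Fin n) ℂ) : Prop :=
  ∀ i j, ∀ k : ℤ, k < 0 → fourierCoeff (fun t => Φ t i j) k = 0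

/-- A factor `b(z) P + (I - P)` of a Blaschke-Potapov product. -/
noncomputable def bpFactor {n : ℕ} (a : ℂ) (P : Matrix (Fin n) (Fin n) ℂ) (z : ℂ) :
    Matrix (Fin n) (Fin n) ℂ :=
  ((z - a) / (1 - conj a * z)) • P + (1 - P)

/-- `B` is a finite Blaschke-Potapov product. -/
def IsBlaschkePotapov {n : ℕ} (B : ℂ → Matrix (Fin n) (Fin n) ℂ) : Prop :=
  ∃ (V : Matrix (Fin n) (Fin n) ℂ) (L : List (ℂ × Matrix (Fin n) (Fin n) ℂ)),
    Vᴴ * V = 1 ∧ (∀ x ∈ L, ‖x.1‖ < 1 ∧ x.2ᴴ = x.2 ∧ x.2 * x.2 = x.2 ∧ x.2 ≠ 0) ∧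
    ∀ z, B z = V * (L.map fun x => bpFactor x.1 x.2 z).prod

/-- the symbol `diag (z + conj z, z)` -/
noncomputable def Phi (t : Cir) : Matrix (Fin 2) (Fin 2) ℂ :=
  !![fourier 1 t + fourier (-1) t, 0; 0, fourier 1 t]

/-- the projection on the second coordinate -/
def P2 : Matrix (Fin 2) (Fin 2) ℂ := !![0, 0; 0, 1]

/-- the Blaschke-Potapov product `diag (1, z²)` -/
def BB (z : ℂ) : Matrix (Fin 2) (Fin 2) ℂ := !![1, 0; 0, z ^ 2]

lemma isBlaschkePotapov_BB : IsBlaschkePotapov BB := by
  refine ⟨1, [(0, P2), (0, P2)], by simp, ?_, fun z => ?_⟩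
  · intro x hx
    have hx' : x = (0, P2) := by simpa using hx
    subst hx'
    refine ⟨by simp, ?_, ?_, ?_⟩
    · ext i j; fin_cases i <;> fin_cases j <;> simp [P2, Matrix.conjTranspose_apply]
    · ext i j; fin_cases i <;> fin_cases j <;> simp [P2, Matrix.mul_apply, Fin.sum_univ_two]
    · intro h
      have := congrFun (congrFun h 1) 1
      simp [P2] at this
  · ext i j
    fin_cases i <;> fin_cases j <;>
      simp [BB, bpFactor, P2, Matrix.mul_apply, Fin.sum_univ_two, Matrix.one_apply, sq]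

lemma Phi_eq (t : Cir) : Phi t = BB (fourier 1 t) * (Phi t)ᴴ := by
  have h1 : (fourier (-1) t : ℂ) = conj (fourier 1 t : ℂ) := fourier_neg
  have h2 : (fourier 1 t : ℂ) * conj (fourier 1 t : ℂ) = 1 := by
    rw [Complex.mul_conj, Complex.normSq_eq_norm_sq, norm_fourier]; norm_num
  ext i j
  fin_cases i <;> fin_cases j
  · show (fourier 1 t : ℂ) + fourier (-1) t = (BB (fourier 1 t) * (Phi t)ᴴ) 0 0
    simp only [BB, Phi, Matrix.mul_apply, Fin.sum_univ_two, Matrix.conjTranspose_apply,
      Matrix.of_apply, Matrix.cons_val', Matrix.cons_val_zero, Matrix.cons_val_one,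
      Matrix.cons_val_fin_one, zero_mul, one_mul, add_zero, RCLike.star_def, h1, map_add,
      Complex.conj_conj]
    ring
  · simp [BB, Phi, Matrix.mul_apply, Fin.sum_univ_two, Matrix.conjTranspose_apply]
  · simp [BB, Phi, Matrix.mul_apply, Fin.sum_univ_two, Matrix.conjTranspose_apply]
  · show (fourier 1 t : ℂ) = (BB (fourier 1 t) * (Phi t)ᴴ) 1 1
    simp only [BB, Phi, Matrix.mul_apply, Fin.sum_univ_two, Matrix.conjTranspose_apply,
      Matrix.of_apply, Matrix.cons_val', Matrix.cons_val_zero, Matrix.cons_val_one,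
      Matrix.cons_val_fin_one, star_zero, mul_zero, zero_add, RCLike.star_def]
    linear_combination (-(fourier 1 t : ℂ)) * h2

lemma int_fourier (k : ℤ) : ∫ t : Cir, (fourier k t : ℂ) ∂haarAddCircle = if k = 0 then 1 else 0 := by
  have h := orthonormal_iff_ite.mp (orthonormal_fourier (T := (1 : ℝ))) 0 k
  rw [ContinuousMap.inner_toLp (@haarAddCircle (1 : ℝ) _) (fourier 0) (fourier k)] at h
  simp only [fourier_zero, map_one, mul_one] at h
  rw [h]
  by_cases hk : k = 0
  · simp [hk]
  · simp [hk, Ne.symm hk]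

lemma coeff_fourier (m n : ℤ) :
    fourierCoeff (fun t : Cir => (fourier m t : ℂ)) n = if n = m then 1 else 0 := by
  unfold fourierCoeff
  have : ∀ t : Cir, (fourier (-n) t : ℂ) • (fourier m t : ℂ) = fourier (-n + m) t := by
    intro t; rw [fourier_add, smul_eq_mul]
  simp_rw [this]
  rw [int_fourier]
  have e : (-n + m = 0) ↔ n = m := by omega
  simp only [e]

lemma integrable_fourier (k : ℤ) : Integrable (fun t : Cir => (fourier k t : ℂ)) haarAddCircle :=
  (fourier k).continuous.integrable_of_hasCompactSupport (HasCompactSupport.of_compactSpace _)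

lemma coeff_fourier_add (m m' n : ℤ) :
    fourierCoeff (fun t : Cir => (fourier m t : ℂ) + fourier m' t) n =
      (if n = m then 1 else 0) + if n = m' then 1 else 0 := by
  unfold fourierCoeff
  have : ∀ t : Cir, (fourier (-n) t : ℂ) • ((fourier m t : ℂ) + fourier m' t) =
      fourier (-n + m) t + fourier (-n + m') t := by
    intro t; rw [fourier_add, fourier_add, smul_eq_mul]; ring
  simp_rw [this]
  rw [integral_add (integrable_fourier _) (integrable_fourier _), int_fourier, int_fourier]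
  have e : (-n + m = 0) ↔ n = m := by omega
  have e' : (-n + m' = 0) ↔ n = m' := by omega
  simp only [e, e']

lemma coeff_zero (n : ℤ) : fourierCoeff (fun _ : Cir => (0 : ℂ)) n = 0 := by
  unfold fourierCoeff; simp

lemma Phi_not_analytic : ¬ IsAnalyticSymbol Phi := by
  intro h
  have h1 := h 0 0 (-1) (by norm_num)
  have h2 : (fun t => Phi t 0 0) = fun t : Cir => (fourier 1 t : ℂ) + fourier (-1) t := by
    funext t; simp [Phi]
  rw [h2, coeff_fourier_add] at h1
  norm_num at h1

lemma Phi_bdd : IsBddSymbol Phi := by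
  intro i j
  have hc : Continuous fun t => Phi t i j := by
    fin_cases i <;> fin_cases j
    · show Continuous fun t : Cir => (fourier 1 t : ℂ) + fourier (-1) t
      fun_prop
    · exact continuous_const
    · exact continuous_const
    · show Continuous fun t : Cir => (fourier 1 t : ℂ)
      fun_prop
  obtain ⟨C, hC⟩ := isCompact_univ.exists_bound_of_continuousOn hc.continuousOn
  exact MemLp.of_bound hc.aestronglyMeasurable C
    (Filter.Eventually.of_forall fun t => hC t (Set.mem_univ t))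

section model

variable {H : Type} [NormedAddCommGroup H] [InnerProductSpace ℂ H] [CompleteSpace H]
  {ι : Type} [DecidableEq ι]

lemma ext_hb (e : HilbertBasis ι ℂ H) {E : Type} [NormedAddCommGroup E] [InnerProductSpace ℂ E]
    {A B : H →L[ℂ] E} (h : ∀ n, A (e n) = B (e n)) : A = B := by
  refine ContinuousLinearMap.ext_on
    (Submodule.dense_iff_topologicalClosure_eq_top.mpr e.dense_span) (fun x hx => ?_)
    (s := Set.range e)
  obtain ⟨n, rfl⟩ := hx
  exact h n

/-- the isometry sending a Hilbert basis to an orthonormal family -/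
noncomputable def isoOf (e : HilbertBasis ι ℂ H) {v : ι → H} (hv : Orthonormal ℂ v) : H →ₗᵢ[ℂ] H :=
  hv.orthogonalFamily.linearIsometry.comp e.repr.toLinearIsometry

lemma isoOf_apply (e : HilbertBasis ι ℂ H) {v : ι → H} (hv : Orthonormal ℂ v) (n : ι) :
    isoOf e hv (e n) = v n := by
  show hv.orthogonalFamily.linearIsometry (e.repr.toLinearIsometry (e n)) = _
  have h : e.repr.toLinearIsometry (e n) = lp.single 2 n (1 : ℂ) := e.repr_self n
  rw [h, OrthogonalFamily.linearIsometry_apply_single]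
  simp

variable (e : HilbertBasis (ℕ × Fin 2) ℂ H)

lemma orthS : Orthonormal ℂ (fun x : ℕ × Fin 2 => e (x.1 + 1, x.2)) :=
  e.orthonormal.comp (fun x : ℕ × Fin 2 => (x.1 + 1, x.2)) (fun x y h => by
    simp only [Prod.mk.injEq, add_left_inj] at h
    exact Prod.ext h.1 h.2)

/-- the sign: `1` on the first coordinate and `-1` on the second -/
def sg (i : Fin 2) : ℂ := if i = 0 then 1 else -1

lemma sg_mul (i : Fin 2) : sg i * sg i = 1 := by
  unfold sg; split_ifs <;> norm_num

lemma conj_sg (i : Fin 2) : conj (sg i) = sg i := by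
  unfold sg; split_ifs <;> simp

lemma orthJ : Orthonormal ℂ (fun x : ℕ × Fin 2 => sg x.2 • e x) := by
  rw [orthonormal_iff_ite]
  intro x y
  rw [inner_smul_left, inner_smul_right, orthonormal_iff_ite.mp e.orthonormal x y, conj_sg]
  by_cases h : x = y
  · subst h
    simp only [if_true, mul_one, sg_mul]
  · simp only [if_neg h, mul_zero]

/-- the shift -/
noncomputable def S : H →L[ℂ] H := (isoOf e (orthS e)).toContinuousLinearMap

/-- the symmetry -/
noncomputable def J : H →L[ℂ] H := (isoOf e (orthJ e)).toContinuousLinearMap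

lemma S_apply (x : ℕ × Fin 2) : S e (e x) = e (x.1 + 1, x.2) := isoOf_apply e (orthS e) x
lemma J_apply (x : ℕ × Fin 2) : J e (e x) = sg x.2 • e x := isoOf_apply e (orthJ e) x

/-- the adjoint of the shift -/
noncomputable def Sa : H →L[ℂ] H := ContinuousLinearMap.adjoint (S e)

lemma adj_of_isom {A : H →ₗᵢ[ℂ] H} :
    ContinuousLinearMap.adjoint A.toContinuousLinearMap * A.toContinuousLinearMap = 1 := by
  apply ContinuousLinearMap.ext
  intro f
  apply ext_inner_left ℂ
  intro g
  show ⟪g, ContinuousLinearMap.adjoint A.toContinuousLinearMap (A.toContinuousLinearMap f)⟫_ℂ =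
    ⟪g, f⟫_ℂ
  rw [ContinuousLinearMap.adjoint_inner_right]
  exact A.inner_map_map g f

lemma Sa_S : Sa e * S e = 1 := adj_of_isom

lemma J_J : J e * J e = 1 := by
  apply ext_hb e
  intro x
  show J e (J e (e x)) = e x
  rw [J_apply, map_smul, J_apply, smul_smul, sg_mul, one_smul]

lemma adj_J : ContinuousLinearMap.adjoint (J e) = J e := by
  have h1 : ContinuousLinearMap.adjoint (J e) * J e = 1 := adj_of_isom
  calc ContinuousLinearMap.adjoint (J e) = ContinuousLinearMap.adjoint (J e) * (J e * J e) := by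
        rw [J_J, mul_one]
    _ = J e := by rw [← mul_assoc, h1, one_mul]

lemma J_S : J e * S e = S e * J e := by
  apply ext_hb e
  intro x
  show J e (S e (e x)) = S e (J e (e x))
  rw [S_apply, J_apply, J_apply, map_smul, S_apply]

/-- the projection on the first coordinate -/
noncomputable def P : H →L[ℂ] H := (1 / 2 : ℂ) • (1 + J e)

lemma P_P : P e * P e = P e := by
  unfold P
  rw [smul_mul_smul_comm, mul_add, add_mul, add_mul, mul_one, one_mul, mul_one, J_J]
  module

lemma P_S : P e * S e = S e * P e := by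
  unfold P
  rw [smul_mul_assoc, mul_smul_comm, add_mul, mul_add, one_mul, mul_one, J_S]

lemma adj_P : ContinuousLinearMap.adjoint (P e) = P e := by
  unfold P
  have h1 : ContinuousLinearMap.adjoint (1 : H →L[ℂ] H) = 1 :=
    star_one (R := H →L[ℂ] H)
  have h2 : ContinuousLinearMap.adjoint ((1 / 2 : ℂ) • (1 + J e)) =
      star ((1 / 2 : ℂ) • (1 + J e)) := rfl
  rw [h2, star_smul, star_add, star_one]
  have h3 : star (J e) = J e := adj_J e
  rw [h3]
  congr 1
  simp

lemma star_S : star (S e) = Sa e := rfl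
lemma star_Sa : star (Sa e) = S e := by rw [← star_S, star_star]
lemma star_P : star (P e) = P e := adj_P e

lemma P_Sa : P e * Sa e = Sa e * P e := by
  have := congrArg star (P_S e)
  rw [star_mul, star_mul, star_S, star_P] at this
  exact this.symm

/-- the Toeplitz operator `S + S* P` -/
noncomputable def T : H →L[ℂ] H := S e + Sa e * P e

lemma star_T : star (T e) = Sa e + S e * P e := by
  unfold T
  rw [star_add, star_mul, star_S, star_Sa, star_P, P_S]

/-- the self-commutator -/
noncomputable def D : H →L[ℂ] H := (1 - S e * Sa e) * (1 - P e)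

lemma starT_T : star (T e) * T e = T e * star (T e) + D e := by
  rw [star_T]
  unfold T D
  have h1 : (Sa e + S e * P e) * (S e + Sa e * P e) =
      Sa e * S e + Sa e * (Sa e * P e) + S e * (P e * S e) + S e * (P e * Sa e) * P e := by
    noncomm_ring
  have h2 : (S e + Sa e * P e) * (Sa e + S e * P e) =
      S e * Sa e + S e * S e * P e + Sa e * (P e * Sa e) + Sa e * (P e * S e) * P e := by
    noncomm_ring
  have h3 : Sa e * (S e * P e) * P e = P e := by
    rw [← mul_assoc, Sa_S, one_mul, P_P]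
  rw [h1, h2, P_S, P_Sa, Sa_S, h3]
  have h4 : S e * (Sa e * P e) * P e = S e * Sa e * P e := by
    rw [mul_assoc, mul_assoc, P_P, ← mul_assoc]
  rw [h4]
  noncomm_ring

lemma comm1 : (1 - S e * Sa e) * (1 - P e) = (1 - P e) * (1 - S e * Sa e) := by
  have h : S e * Sa e * P e = P e * (S e * Sa e) := by
    rw [mul_assoc, ← P_Sa, ← mul_assoc, ← P_S, mul_assoc]
  have h1 : (1 - S e * Sa e) * (1 - P e) = 1 - P e - S e * Sa e + S e * Sa e * P e := by
    noncomm_ring
  have h2 : (1 - P e) * (1 - S e * Sa e) = 1 - P e - S e * Sa e + P e * (S e * Sa e) := by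
    noncomm_ring
  rw [h1, h2, h]

lemma idem1 : (1 - S e * Sa e) * (1 - S e * Sa e) = 1 - S e * Sa e := by
  have h : S e * Sa e * (S e * Sa e) = S e * Sa e := by
    calc S e * Sa e * (S e * Sa e) = S e * (Sa e * S e) * Sa e := by noncomm_ring
      _ = S e * Sa e := by rw [Sa_S, mul_one]
  have h1 : (1 - S e * Sa e) * (1 - S e * Sa e) =
      1 - S e * Sa e - S e * Sa e + S e * Sa e * (S e * Sa e) := by noncomm_ring
  rw [h1, h]
  abel

lemma idem2 : (1 - P e) * (1 - P e) = 1 - P e := by
  have h1 : (1 - P e) * (1 - P e) = 1 - P e - P e + P e * P e := by noncomm_ring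
  rw [h1, P_P]
  abel

lemma D_D : D e * D e = D e := by
  unfold D
  calc (1 - S e * Sa e) * (1 - P e) * ((1 - S e * Sa e) * (1 - P e))
      = (1 - S e * Sa e) * ((1 - P e) * (1 - S e * Sa e)) * (1 - P e) := by noncomm_ring
    _ = ((1 - S e * Sa e) * (1 - S e * Sa e)) * ((1 - P e) * (1 - P e)) := by
      rw [← comm1]; noncomm_ring
    _ = _ := by rw [idem1, idem2]

lemma star_D : star (D e) = D e := by
  unfold D
  rw [star_mul, star_sub, star_sub, star_one, star_mul, star_P, star_S, star_Sa, ← comm1]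

lemma D_T : D e * T e = 0 := by
  unfold D T
  rw [comm1]
  have h1 : (1 - S e * Sa e) * S e = 0 := by
    rw [sub_mul, one_mul, mul_assoc, Sa_S, mul_one, sub_self]
  have h2 : (1 - P e) * P e = 0 := by
    rw [sub_mul, one_mul, P_P, sub_self]
  calc (1 - P e) * (1 - S e * Sa e) * (S e + Sa e * P e)
      = (1 - P e) * ((1 - S e * Sa e) * S e) +
          ((1 - P e) * (1 - S e * Sa e)) * (Sa e * P e) := by noncomm_ring
    _ = ((1 - S e * Sa e) * (1 - P e)) * (P e * Sa e) := by
      rw [h1, mul_zero, zero_add, ← comm1, P_Sa]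
    _ = (1 - S e * Sa e) * ((1 - P e) * P e) * Sa e := by noncomm_ring
    _ = 0 := by rw [h2, mul_zero, zero_mul]

theorem isSubnormal_T : IsSubnormal (T e) :=
  isSubnormal_of (T e) (starT_T e) (D_D e) (star_D e) (D_T e)

lemma P_apply (x : ℕ × Fin 2) : P e (e x) = (if x.2 = 0 then (1 : ℂ) else 0) • e x := by
  show (1 / 2 : ℂ) • (e x + J e (e x)) = _
  rw [J_apply, sg]
  split_ifs
  · module
  · module

lemma inner_e (x y : ℕ × Fin 2) : ⟪e x, e y⟫_ℂ = if x = y then 1 else 0 :=
  orthonormal_iff_ite.mp e.orthonormal x y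

lemma inner_T (x y : ℕ × Fin 2) : ⟪e x, T e (e y)⟫_ℂ =
    (if x = (y.1 + 1, y.2) then 1 else 0) +
      (if y.2 = 0 then (1 : ℂ) else 0) * (if (x.1 + 1, x.2) = y then 1 else 0) := by
  have h : T e (e y) = S e (e y) + Sa e (P e (e y)) := rfl
  rw [h, inner_add_right, S_apply, inner_e, P_apply, map_smul, inner_smul_right]
  have h2 : ⟪e x, Sa e (e y)⟫_ℂ = ⟪S e (e x), e y⟫_ℂ :=
    ContinuousLinearMap.adjoint_inner_right _ _ _
  rw [h2, S_apply, inner_e]

theorem isBlockToeplitz_T : IsBlockToeplitz e Phi (T e) := by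
  intro k l i j
  rw [inner_T]
  fin_cases i <;> fin_cases j
  · have h : (fun t => Phi t ((fun i => i) (⟨0, by norm_num⟩ : Fin 2)) (⟨0, by norm_num⟩ : Fin 2)) =
        fun t : Cir => (fourier 1 t : ℂ) + fourier (-1) t := by
      funext t; simp [Phi]
    rw [h, coeff_fourier_add]
    have e1 : ((k : ℤ) - l = 1) ↔ k = l + 1 := by omega
    have e2 : ((k : ℤ) - l = -1) ↔ k + 1 = l := by omega
    simp [e1, e2]
  · have h : (fun t => Phi t ((fun i => i) (⟨0, by norm_num⟩ : Fin 2)) (⟨1, by norm_num⟩ : Fin 2)) =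
        fun _ : Cir => (0 : ℂ) := by
      funext t; simp [Phi]
    rw [h, coeff_zero]
    simp
  · have h : (fun t => Phi t ((fun i => i) (⟨1, by norm_num⟩ : Fin 2)) (⟨0, by norm_num⟩ : Fin 2)) =
        fun _ : Cir => (0 : ℂ) := by
      funext t; simp [Phi]
    rw [h, coeff_zero]
    simp
  · have h : (fun t => Phi t ((fun i => i) (⟨1, by norm_num⟩ : Fin 2)) (⟨1, by norm_num⟩ : Fin 2)) =
        fun t : Cir => (fourier 1 t : ℂ) := by
      funext t; simp [Phi]
    rw [h, coeff_fourier]
    have e1 : ((k : ℤ) - l = 1) ↔ k = l + 1 := by omega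
    simp [e1]

theorem not_normal : ¬ IsNormalOp (T e) := by
  intro h
  have h1 : star (T e) * T e = T e * star (T e) := h
  rw [starT_T] at h1
  have h2 : D e = 0 := by simpa using h1
  have h3 : D e (e (0, 1)) = e (0, 1) := by
    have hP : P e (e (0, 1)) = 0 := by rw [P_apply]; simp
    have hSa : Sa e (e (0, 1)) = 0 := by
      have : innerSL ℂ (Sa e (e (0, 1))) = 0 := by
        apply ext_hb e
        intro x
        show ⟪ContinuousLinearMap.adjoint (S e) (e (0, 1)), e x⟫_ℂ = 0
        rw [ContinuousLinearMap.adjoint_inner_left, S_apply, inner_e]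
        simp
      have h0 : ⟪Sa e (e (0, 1)), Sa e (e (0, 1))⟫_ℂ = 0 :=
        congrArg (fun A : H →L[ℂ] ℂ => A (Sa e (e (0, 1)))) this
      exact inner_self_eq_zero.mp h0
    have h4 : D e (e (0, 1)) = (e (0, 1) - P e (e (0, 1))) -
        S e (Sa e (e (0, 1) - P e (e (0, 1)))) := rfl
    rw [h4, hP, sub_zero, hSa, map_zero, sub_zero]
  rw [h2] at h3
  have h5 : e (0, 1) = 0 := h3.symm
  have h6 := inner_e e (0, 1) (0, 1)
  rw [h5] at h6
  simp at h6

end model

end Pool.Agent.R287.SN
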