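import Pool.Agent.R287.HSa

open MeasureTheory Complex AddCircle
open scoped ComplexConjugate ENNReal InnerProductSpace

namespace Pool.Agent.R287.SP

open Pool.Agent.R287.HS

section defs

variable {H : Type} [NormedAddCommGroup H] [InnerProductSpace ℂ H]

/-- The operator `p(T)`. -/
noncomputable def polyAt (T : H →L[ℂ] H) (p : Polynomial ℂ) : H →L[ℂ] H := Polynomial.aeval T p

/-- The spectrum of `T`. -/
def spec (T : H →L[ℂ] H) : Set ℂ := spectrum ℂ T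

/-- `X` is a spectral set for `T`: it is closed, contains the spectrum, and
`‖r(T)‖ ≤ sup_X |r|` for every rational function `r = p/q` with `q` zero free on `X`, where
`r(T)` is the operator `R` with `R q(T) = p(T)`. -/
def IsSpectralSet (T : H →L[ℂ] H) (X : Set ℂ) : Prop :=
  IsClosed X ∧ spec T ⊆ X ∧
    ∀ (p q : Polynomial ℂ) (R : H →L[ℂ] H) (m : ℝ), (∀ z ∈ X, q.eval z ≠ 0) →
      R ∘L polyAt T q = polyAt T p → (∀ z ∈ X, ‖p.eval z / q.eval z‖ ≤ m) → ‖R‖ ≤ m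

end defs

section abs

variable {H : Type} [NormedAddCommGroup H] [InnerProductSpace ℂ H] [CompleteSpace H]

/-- An isometry together with a unit vector in the kernel of its adjoint. -/
structure Data (H : Type) [NormedAddCommGroup H] [InnerProductSpace ℂ H] [CompleteSpace H] where
  S : H →L[ℂ] H
  e0 : H
  isom : ∀ f g : H, ⟪S f, S g⟫_ℂ = ⟪f, g⟫_ℂ
  ker : ContinuousLinearMap.adjoint S e0 = 0
  one : ⟪e0, e0⟫_ℂ = 1

variable (D : Data H)

namespace Data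

/-- the adjoint of the shift -/
noncomputable abbrev Sa : H →L[ℂ] H := ContinuousLinearMap.adjoint D.S

lemma norm_S : ‖D.S‖ ≤ 1 := by
  refine ContinuousLinearMap.opNorm_le_bound _ zero_le_one fun x => ?_
  have h := D.isom x x
  rw [inner_self_eq_norm_sq_to_K, inner_self_eq_norm_sq_to_K] at h
  have h2 : ‖D.S x‖ ^ 2 = ‖x‖ ^ 2 := by exact_mod_cast h
  rw [one_mul]
  exact le_of_eq ((sq_eq_sq₀ (norm_nonneg _) (norm_nonneg _)).mp h2)

lemma Sa_S : D.Sa * D.S = 1 := by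
  apply ContinuousLinearMap.ext
  intro f
  apply ext_inner_left ℂ
  intro g
  show ⟪g, D.Sa (D.S f)⟫_ℂ = ⟪g, f⟫_ℂ
  rw [ContinuousLinearMap.adjoint_inner_right]
  exact D.isom g f

lemma inner_e0_Se0 : ⟪D.e0, D.S D.e0⟫_ℂ = 0 := by
  rw [← ContinuousLinearMap.adjoint_inner_left, D.ker, inner_zero_left]

lemma inner_Se0_e0 : ⟪D.S D.e0, D.e0⟫_ℂ = 0 := by
  rw [← inner_conj_symm, inner_e0_Se0, map_zero]

lemma inner_Se0_Se0 : ⟪D.S D.e0, D.S D.e0⟫_ℂ = 1 := by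
  rw [← D.one]
  exact D.isom _ _

end Data

/-- the parameter `i/2` -/
noncomputable def κ : ℂ := I / 2

lemma κ_sq : κ * κ = - (1 / 4) := by
  unfold κ
  linear_combination (1 / 4 : ℂ) * Complex.I_mul_I

lemma norm_κ : ‖κ‖ = 1 / 2 := by
  unfold κ; simp

lemma conj_κ : conj κ = - κ := by
  unfold κ
  rw [map_div₀, Complex.conj_I, Complex.conj_ofNat, neg_div]

lemma isUnit_one_sub_smul {c : ℂ} (hc : ‖c‖ < 1) {V : H →L[ℂ] H} (hV : ‖V‖ ≤ 1) :
    IsUnit (1 - c • V) := by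
  apply isUnit_one_sub_of_norm_lt_one
  rw [norm_smul]
  calc ‖c‖ * ‖V‖ ≤ ‖c‖ * 1 := by gcongr
    _ < 1 := by rw [mul_one]; exact hc

namespace Data

lemma isUnit_A : IsUnit (1 - κ • D.S) := isUnit_one_sub_smul (by rw [norm_κ]; norm_num) D.norm_S

lemma norm_Sa : ‖D.Sa‖ ≤ 1 := by
  rw [LinearIsometryEquiv.norm_map]
  exact D.norm_S

lemma isUnit_B : IsUnit (1 - κ • D.Sa) := isUnit_one_sub_smul (by rw [norm_κ]; norm_num) D.norm_Sa

lemma isUnit_Bs : IsUnit (1 + κ • D.S) := by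
  have := isUnit_one_sub_smul (c := -κ) (by rw [norm_neg, norm_κ]; norm_num) D.norm_S
  rwa [neg_smul, sub_neg_eq_add] at this

noncomputable def uA : (H →L[ℂ] H)ˣ := D.isUnit_A.unit
noncomputable def uB : (H →L[ℂ] H)ˣ := D.isUnit_B.unit

lemma uA_val : (D.uA : H →L[ℂ] H) = 1 - κ • D.S := rfl
lemma uB_val : (D.uB : H →L[ℂ] H) = 1 - κ • D.Sa := rfl

/-- the Toeplitz operator `1 - (3/2) (1 - κ D.S*)⁻¹ (1 - κ D.S)⁻¹` -/
noncomputable def T : H →L[ℂ] H :=
  1 - (3 / 2 : ℂ) • ((↑(D.uB)⁻¹ : H →L[ℂ] H) * (↑(D.uA)⁻¹ : H →L[ℂ] H))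

lemma BTA : (D.uB : H →L[ℂ] H) * D.T * (D.uA : H →L[ℂ] H) =
    (D.uB : H →L[ℂ] H) * (D.uA : H →L[ℂ] H) - (3 / 2 : ℂ) • 1 := by
  unfold T
  rw [mul_sub, sub_mul, mul_one, mul_smul_comm, smul_mul_assoc]
  congr 1
  rw [← mul_assoc, Units.mul_inv, one_mul, Units.inv_mul]

lemma BA : (D.uB : H →L[ℂ] H) * (D.uA : H →L[ℂ] H) =
    (3 / 4 : ℂ) • 1 - κ • (D.S + D.Sa) := by
  rw [D.uA_val, D.uB_val, mul_sub, sub_mul, sub_mul, mul_one, one_mul, mul_one, smul_mul_smul_comm,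
    D.Sa_S, κ_sq]
  rw [smul_add]
  module

/-- The operator `D.T - lam` is invertible unless `|lam| = 1`. -/
lemma isUnit_T_sub {lam : ℂ} (h : ‖lam‖ ≠ 1) : IsUnit (algebraMap ℂ (H →L[ℂ] H) lam - D.T) := by
  have hlam1 : (1 - lam) ≠ 0 := by
    intro h0
    apply h
    rw [← sub_eq_zero.mp h0, norm_one]
  set W : H →L[ℂ] H := D.S + D.Sa with hW
  have hWsa : IsSelfAdjoint W := by
    rw [hW, IsSelfAdjoint, star_add]
    show D.Sa + star (star D.S) = D.S + D.Sa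
    rw [star_star, add_comm]
  set μ : ℂ := (3 / 2) * I * ((1 + lam) / (1 - lam)) with hμ
  have hμnot : μ ∉ spectrum ℂ W := by
    intro hmem
    have h1 := hWsa.mem_spectrum_eq_re hmem
    have him : μ.im = 0 := by rw [h1]; simp
    have h2 : ((1 + lam) / (1 - lam)).re = 0 := by
      have : μ.im = (3 / 2) * ((1 + lam) / (1 - lam)).re := by
        rw [hμ]
        simp [Complex.mul_im]
      rw [this] at him
      linarith
    rw [Complex.div_re] at h2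
    have hn : Complex.normSq (1 - lam) ≠ 0 := by simpa using hlam1
    have h3 : (1 + lam).re * (1 - lam).re + (1 + lam).im * (1 - lam).im = 0 := by
      have := h2
      field_simp at this
      linarith
    simp only [Complex.add_re, Complex.one_re, Complex.sub_re, Complex.add_im, Complex.one_im,
      Complex.sub_im, zero_add, zero_sub] at h3
    apply h
    have h4 : ‖lam‖ ^ 2 = 1 := by
      rw [← Complex.normSq_eq_norm_sq, Complex.normSq_apply]
      linarith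
    nlinarith [norm_nonneg lam]
  have hunit : IsUnit (algebraMap ℂ (H →L[ℂ] H) μ - W) := by
    by_contra hcon
    exact hμnot hcon
  have key : (D.uB : H →L[ℂ] H) * (algebraMap ℂ (H →L[ℂ] H) lam - D.T) * (D.uA : H →L[ℂ] H) =
      (-(κ * (1 - lam))) • (algebraMap ℂ (H →L[ℂ] H) μ - W) := by
    rw [mul_sub, sub_mul, D.BTA, Algebra.algebraMap_eq_smul_one, mul_smul_comm, smul_mul_assoc,
      mul_one, D.BA, Algebra.algebraMap_eq_smul_one, ← hW]
    have e1 : (-(κ * (1 - lam))) * μ = (3 / 4) * (1 + lam) := by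
      rw [hμ]
      have : (-(κ * (1 - lam))) * ((3 / 2) * I * ((1 + lam) / (1 - lam))) =
        (-(κ * I) * (3 / 2) * (1 + lam)) * ((1 - lam) / (1 - lam)) := by ring
      rw [this, div_self hlam1, κ]
      linear_combination (-(3 / 4) * (1 + lam)) * Complex.I_mul_I
    have e2 : (-(κ * (1 - lam))) • (μ • (1 : H →L[ℂ] H) - W) =
        ((3 / 4) * (1 + lam)) • (1 : H →L[ℂ] H) + (κ * (1 - lam)) • W := by
      rw [smul_sub, smul_smul, e1, neg_smul, sub_neg_eq_add]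
    rw [e2]
    module
  have hc : (-(κ * (1 - lam))) ≠ 0 := by
    apply neg_ne_zero.mpr
    apply mul_ne_zero _ hlam1
    intro h0
    have := norm_κ
    rw [h0] at this
    norm_num at this
  have hprod : IsUnit ((D.uB : H →L[ℂ] H) * (algebraMap ℂ (H →L[ℂ] H) lam - D.T) *
      (D.uA : H →L[ℂ] H)) := by
    rw [key]
    have : (-(κ * (1 - lam))) • (algebraMap ℂ (H →L[ℂ] H) μ - W) =
      (Units.mk0 _ hc) • (algebraMap ℂ (H →L[ℂ] H) μ - W) := rfl
    rw [this]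
    exact hunit.smul _
  rw [Units.isUnit_mul_units] at hprod
  rwa [Units.isUnit_units_mul] at hprod

lemma spectrum_T_subset {lam : ℂ} (h : lam ∈ spec D.T) : ‖lam‖ = 1 := by
  by_contra hne
  exact h (D.isUnit_T_sub hne)

lemma uB_injective {x y : H} (h : (D.uB : H →L[ℂ] H) x = (D.uB : H →L[ℂ] H) y) : x = y := by
  have h1 : ((↑(D.uB)⁻¹ : H →L[ℂ] H) * (D.uB : H →L[ℂ] H)) x =
      ((↑(D.uB)⁻¹ : H →L[ℂ] H) * (D.uB : H →L[ℂ] H)) y := by
    show (↑(D.uB)⁻¹ : H →L[ℂ] H) ((D.uB : H →L[ℂ] H) x) = (↑(D.uB)⁻¹ : H →L[ℂ] H) ((D.uB : H →L[ℂ] H) y)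
    rw [h]
  rw [Units.inv_mul] at h1
  exact h1

lemma T_on_vector : D.T (D.e0 - κ • D.S D.e0) = (-(1 / 2) : ℂ) • D.e0 - κ • D.S D.e0 := by
  apply D.uB_injective
  have h1 : (D.uB : H →L[ℂ] H) (D.T (D.e0 - κ • D.S D.e0)) =
      ((D.uB : H →L[ℂ] H) * D.T * (D.uA : H →L[ℂ] H)) D.e0 := rfl
  have hSS : D.Sa (D.S D.e0) = D.e0 := by
    have := congrArg (fun V : H →L[ℂ] H => V D.e0) D.Sa_S
    exact this
  rw [h1, D.BTA, D.BA]
  have h2 : ((3 / 4 : ℂ) • (1 : H →L[ℂ] H) - κ • (D.S + D.Sa) - (3 / 2 : ℂ) • 1) D.e0 =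
      (3 / 4 : ℂ) • D.e0 - κ • (D.S D.e0 + D.Sa D.e0) - (3 / 2 : ℂ) • D.e0 := rfl
  have h3 : (D.uB : H →L[ℂ] H) ((-(1 / 2) : ℂ) • D.e0 - κ • D.S D.e0) =
      ((-(1 / 2) : ℂ) • D.e0 - κ • D.S D.e0) - κ • (D.Sa ((-(1 / 2) : ℂ) • D.e0 - κ • D.S D.e0)) := rfl
  rw [h2, h3, map_sub, map_smul, map_smul, hSS, D.ker, smul_zero, zero_sub, smul_neg, smul_smul,
    κ_sq]
  module

lemma not_expansive : ¬ ∀ x : H, ‖x‖ ≤ ‖D.T x‖ := by
  intro h
  have h1 := h (D.e0 - κ • D.S D.e0)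
  rw [D.T_on_vector] at h1
  have h2 : ‖D.e0 - κ • D.S D.e0‖ ^ 2 = 5 / 4 := by
    have : ⟪D.e0 - κ • D.S D.e0, D.e0 - κ • D.S D.e0⟫_ℂ = 5 / 4 := by
      simp only [inner_sub_left, inner_sub_right, inner_smul_left, inner_smul_right, D.one,
        D.inner_e0_Se0, D.inner_Se0_e0, D.inner_Se0_Se0, conj_κ]
      linear_combination (-1 : ℂ) * κ_sq
    rw [← inner_self_eq_norm_sq (𝕜 := ℂ), this]
    norm_num
  have h3 : ‖(-(1 / 2) : ℂ) • D.e0 - κ • D.S D.e0‖ ^ 2 = 1 / 2 := by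
    have : ⟪(-(1 / 2) : ℂ) • D.e0 - κ • D.S D.e0, (-(1 / 2) : ℂ) • D.e0 - κ • D.S D.e0⟫_ℂ = 1 / 2 := by
      simp only [inner_sub_left, inner_sub_right, inner_smul_left, inner_smul_right, D.one,
        D.inner_e0_Se0, D.inner_Se0_e0, D.inner_Se0_Se0, conj_κ, map_neg, map_div₀, map_one,
        Complex.conj_ofNat]
      linear_combination (-1 : ℂ) * κ_sq
    rw [← inner_self_eq_norm_sq (𝕜 := ℂ), this]
    norm_num
  have h4 := norm_nonneg (D.e0 - κ • D.S D.e0)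
  nlinarith

lemma isUnit_T : IsUnit D.T := by
  have h := D.isUnit_T_sub (lam := 0) (by simp)
  rw [map_zero, zero_sub] at h
  simpa using h.neg

/-- The spectrum of `D.T` is not a spectral set. -/
theorem not_isSpectralSet : ¬ IsSpectralSet D.T (spec D.T) := by
  rintro ⟨-, -, h⟩
  have h1 := h 1 Polynomial.X (↑(D.isUnit_T.unit⁻¹) : H →L[ℂ] H) 1 (fun z hz => by
      rw [Polynomial.eval_X]
      intro h0
      have := D.spectrum_T_subset hz
      rw [h0, norm_zero] at this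
      norm_num at this) (by
      unfold polyAt
      rw [Polynomial.aeval_X, map_one]
      exact D.isUnit_T.val_inv_mul) (fun z hz => by
      rw [Polynomial.eval_X, Polynomial.eval_one, norm_div, norm_one, D.spectrum_T_subset hz]
      norm_num)
  apply D.not_expansive
  intro x
  have h2 : (↑(D.isUnit_T.unit⁻¹) : H →L[ℂ] H) (D.T x) = x := by
    have := congrArg (fun V : H →L[ℂ] H => V x) D.isUnit_T.val_inv_mul
    exact this
  calc ‖x‖ = ‖(↑(D.isUnit_T.unit⁻¹) : H →L[ℂ] H) (D.T x)‖ := by rw [h2]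
    _ ≤ 1 * ‖D.T x‖ := ContinuousLinearMap.le_of_opNorm_le _ h1 _
    _ = ‖D.T x‖ := one_mul _

end Data

end abs

end Pool.Agent.R287.SP
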