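import Pool.Agent.R287.SPa

open MeasureTheory Complex AddCircle Polynomial
open scoped ComplexConjugate ENNReal InnerProductSpace

namespace Pool.Agent.R287.SP

open Pool.Agent.R287.HS

/-- the numerator `z² - (3/2) i z + 1` -/
noncomputable def pn : ℂ[X] := X ^ 2 - C (3 / 2 * I) * X + 1

/-- the denominator `z² + (3/2) i z + 1` -/
noncomputable def qn : ℂ[X] := X ^ 2 + C (3 / 2 * I) * X + 1

lemma eval_pn (z : ℂ) : pn.eval z = z ^ 2 - 3 / 2 * I * z + 1 := by simp [pn]
lemma eval_qn (z : ℂ) : qn.eval z = z ^ 2 + 3 / 2 * I * z + 1 := by simp [qn]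

lemma mul_conj_one {z : ℂ} (hz : ‖z‖ = 1) : z * conj z = 1 := by
  rw [Complex.mul_conj, Complex.normSq_eq_norm_sq, hz]; norm_num

lemma qn_eq {z : ℂ} (hz : ‖z‖ = 1) : qn.eval z = z * (((2 * z.re : ℝ) : ℂ) + 3 / 2 * I) := by
  have h1 : ((2 * z.re : ℝ) : ℂ) = z + conj z := by
    rw [Complex.add_conj]
  rw [eval_qn, h1]
  linear_combination (-1 : ℂ) * mul_conj_one hz

lemma pn_eq {z : ℂ} (hz : ‖z‖ = 1) : pn.eval z = z * (((2 * z.re : ℝ) : ℂ) - 3 / 2 * I) := by
  have h1 : ((2 * z.re : ℝ) : ℂ) = z + conj z := by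
    rw [Complex.add_conj]
  rw [eval_pn, h1]
  linear_combination (-1 : ℂ) * mul_conj_one hz

lemma real_add_ne (x : ℝ) : (x : ℂ) + 3 / 2 * I ≠ 0 := by
  intro h
  have := congrArg Complex.im h
  simp at this

lemma qn_ne {z : ℂ} (hz : ‖z‖ = 1) : qn.eval z ≠ 0 := by
  rw [qn_eq hz]
  refine mul_ne_zero ?_ (real_add_ne _)
  intro h
  rw [h, norm_zero] at hz
  norm_num at hz

/-- `F` maps the circle into the circle. -/
lemma norm_F {z : ℂ} (hz : ‖z‖ = 1) : ‖pn.eval z / qn.eval z‖ = 1 := by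
  rw [norm_div, pn_eq hz, qn_eq hz, norm_mul, norm_mul, hz, one_mul, one_mul]
  have h : ‖((2 * z.re : ℝ) : ℂ) - 3 / 2 * I‖ = ‖((2 * z.re : ℝ) : ℂ) + 3 / 2 * I‖ := by
    rw [← Complex.norm_conj]
    congr 1
    rw [map_sub, Complex.conj_ofReal, map_mul, Complex.conj_I, map_div₀, Complex.conj_ofNat,
      Complex.conj_ofNat]
    ring
  rw [h, div_self]
  exact norm_ne_zero_iff.mpr (real_add_ne _)

/-- the pointwise identity behind the computation -/
lemma key_pointwise {z : ℂ} (hz : ‖z‖ = 1) :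
    conj (1 + κ * z) * (pn.eval z / qn.eval z - 1) * (1 - κ * z) = - (3 / 2) := by
  have h1 : conj (1 + κ * z) = 1 - κ * conj z := by
    rw [map_add, map_one, map_mul, conj_κ]; ring
  have hq := qn_ne hz
  have hzz := mul_conj_one hz
  have hz0 : z ≠ 0 := by
    intro h
    rw [h, norm_zero] at hz
    norm_num at hz
  rw [h1]
  have h2 : pn.eval z / qn.eval z - 1 = (- 3 * I * z) / qn.eval z := by
    rw [div_sub_one hq, eval_pn, eval_qn]
    congr 1
    ring
  have h3 : (1 - κ * conj z) * (1 - κ * z) * z = - (I / 2) * qn.eval z := by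
    rw [eval_qn]
    unfold κ
    linear_combination (-(I / 2) + I ^ 2 / 4 * z) * hzz + z * Complex.I_sq
  rw [h2]
  have h4 : (1 - κ * conj z) * (-3 * I * z / qn.eval z) * (1 - κ * z) =
      (-3 * I) * ((1 - κ * conj z) * (1 - κ * z) * z) / qn.eval z := by ring
  rw [h4, h3]
  rw [div_eq_iff hq]
  linear_combination (3 / 2 * qn.eval z) * Complex.I_mul_I

/-- the symbol -/
noncomputable def F (t : Cir) : ℂ := pn.eval (fourier 1 t : ℂ) / qn.eval (fourier 1 t : ℂ)

variable {H : Type} [NormedAddCommGroup H] [InnerProductSpace ℂ H] [CompleteSpace H]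

/-- `T` is the Toeplitz operator with symbol `pn/qn`. -/
theorem Data.isToeplitz_T (D : Data H) (inc : H →ₗᵢ[ℂ] L2)
    (hinc : ∀ f, inc (D.S f) = mulZ 1 (inc f)) (f g : H) (h : L2)
    (hh : fn h =ᵐ[haarAddCircle] fun t => F t * fn (inc f) t) :
    ⟪inc g, h - inc (D.T f)⟫_ℂ = 0 := by
  -- f = A u, g = B* g'
  obtain ⟨u, hu⟩ : ∃ u : H, f = u - κ • D.S u := by
    refine ⟨(↑(D.uA)⁻¹ : H →L[ℂ] H) f, ?_⟩
    have : ((D.uA : H →L[ℂ] H) * (↑(D.uA)⁻¹ : H →L[ℂ] H)) f = f := by rw [Units.mul_inv]; rfl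
    exact this.symm
  obtain ⟨g', hg'⟩ : ∃ g' : H, g = g' + κ • D.S g' := by
    refine ⟨(↑(D.isUnit_Bs.unit⁻¹) : H →L[ℂ] H) g, ?_⟩
    have : ((1 + κ • D.S) * (↑(D.isUnit_Bs.unit⁻¹) : H →L[ℂ] H)) g = g := by
      rw [D.isUnit_Bs.mul_val_inv]; rfl
    exact this.symm
  have hadj : ∀ y : H, ⟪g, y⟫_ℂ = ⟪g', (D.uB : H →L[ℂ] H) y⟫_ℂ := by
    intro y
    have h1 : (D.uB : H →L[ℂ] H) y = y - κ • D.Sa y := rfl
    rw [hg', h1, inner_add_left, inner_smul_left, conj_κ, inner_sub_right, inner_smul_right,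
      ContinuousLinearMap.adjoint_inner_right]
    ring
  have h1 : ⟪inc g, inc (f - D.T f)⟫_ℂ = (3 / 2 : ℂ) * ⟪g', u⟫_ℂ := by
    have h2 : ⟪inc g, inc (f - D.T f)⟫_ℂ = ⟪g, f - D.T f⟫_ℂ := inc.inner_map_map g (f - D.T f)
    rw [h2, hadj]
    have h3 : (D.uB : H →L[ℂ] H) (f - D.T f) =
        ((D.uB : H →L[ℂ] H) * (D.uA : H →L[ℂ] H) -
          (D.uB : H →L[ℂ] H) * D.T * (D.uA : H →L[ℂ] H)) u := by
      rw [hu]
      exact map_sub _ _ _
    rw [h3, D.BTA, sub_sub_cancel]
    exact inner_smul_right _ _ _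
  have h2 : ⟪inc g, h - inc f⟫_ℂ = ⟪inc g', (-(3 / 2) : ℂ) • inc u⟫_ℂ := by
    rw [inner_eq, inner_eq]
    have hf' : inc f = inc u - κ • mulZ 1 (inc u) := by rw [hu, map_sub, map_smul, hinc]
    have hg'' : inc g = inc g' + κ • mulZ 1 (inc g') := by rw [hg', map_add, map_smul, hinc]
    refine integral_congr_ae ?_
    filter_upwards [fn_sub h (inc f), hh, fn_smul (-(3 / 2) : ℂ) (inc u),
      fn_add (inc g') (κ • mulZ 1 (inc g')), fn_smul κ (mulZ 1 (inc g')), fn_mulZ 1 (inc g'),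
      fn_sub (inc u) (κ • mulZ 1 (inc u)), fn_smul κ (mulZ 1 (inc u)), fn_mulZ 1 (inc u)]
      with t a1 a2 a3 a4 a5 a6 a7 a8 a9
    rw [hg'', a1, a2, a3, a4, a5, a6, hf', a7, a8, a9, F]
    have key := key_pointwise (norm_fourier 1 t)
    have e1 : conj (fn (inc g') t + κ * (fourier 1 t * fn (inc g') t)) =
        conj (1 + κ * fourier 1 t) * conj (fn (inc g') t) := by
      rw [← map_mul]; congr 1; ring
    rw [e1]
    generalize fn (inc g') t = a at *
    generalize fn (inc u) t = b at *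
    generalize eval (fourier 1 t : ℂ) pn / eval (fourier 1 t : ℂ) qn = F at *
    linear_combination (conj a * b) * key
  have h3 : h - inc (D.T f) = (h - inc f) + inc (f - D.T f) := by
    rw [map_sub]; abel
  rw [h3, inner_add_right, h1, h2, inner_smul_right]
  have h4 : ⟪inc g', inc u⟫_ℂ = ⟪g', u⟫_ℂ := inc.inner_map_map g' u
  rw [h4]
  ring

lemma memLp_F_ez (n : ℤ) : MemLp (fun t => F t * fn (ez n) t) 2 haarAddCircle := by
  have h1 : MemLp (fn (ez n)) 2 haarAddCircle := fn_memLp _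
  have hc : Continuous F := by
    unfold F
    refine Continuous.div ?_ ?_ fun t => qn_ne (norm_fourier 1 t)
    · exact pn.continuous.comp (fourier 1).continuous
    · exact qn.continuous.comp (fourier 1).continuous
  refine h1.of_le (hc.aestronglyMeasurable.mul h1.1) (Filter.Eventually.of_forall fun t => ?_)
  rw [norm_mul, F, norm_F (norm_fourier 1 t), one_mul]

/-- `T` is the Toeplitz operator with symbol `F` on the Hilbert space `H` with orthonormal basis
`e`, where `e n` stands for `z^n` in `H²`: its matrix is that of the Fourier coefficients of `F`. -/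
def IsToeplitz {H : Type} [NormedAddCommGroup H] [InnerProductSpace ℂ H]
    (e : HilbertBasis ℕ ℂ H) (F : Cir → ℂ) (T : H →L[ℂ] H) : Prop :=
  ∀ i j : ℕ, ⟪e i, T (e j)⟫_ℂ = fourierCoeff F ((i : ℤ) - j)

section model

variable (e : HilbertBasis ℕ ℂ H)

lemma orth_succ : Orthonormal ℂ (fun n : ℕ => e (n + 1)) :=
  e.orthonormal.comp (fun n : ℕ => n + 1) (fun _ _ h => by simpa using h)

lemma orth_ez : Orthonormal ℂ (fun n : ℕ => ez n) := by
  rw [orthonormal_iff_ite]
  intro i j
  rw [inner_ez]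
  simp only [Nat.cast_inj]

/-- the shift in the model -/
noncomputable def shiftE : H →ₗᵢ[ℂ] H :=
  (orth_succ e).orthogonalFamily.linearIsometry.comp e.repr.toLinearIsometry

/-- the inclusion in `L²` in the model -/
noncomputable def incE : H →ₗᵢ[ℂ] L2 :=
  orth_ez.orthogonalFamily.linearIsometry.comp e.repr.toLinearIsometry

lemma shiftE_apply (n : ℕ) : shiftE e (e n) = e (n + 1) := by
  show (orth_succ e).orthogonalFamily.linearIsometry (e.repr.toLinearIsometry (e n)) = _
  have h : e.repr.toLinearIsometry (e n) = lp.single 2 n (1 : ℂ) := e.repr_self n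
  rw [h, OrthogonalFamily.linearIsometry_apply_single]
  simp

lemma incE_apply (n : ℕ) : incE e (e n) = ez n := by
  show orth_ez.orthogonalFamily.linearIsometry (e.repr.toLinearIsometry (e n)) = _
  have h : e.repr.toLinearIsometry (e n) = lp.single 2 n (1 : ℂ) := e.repr_self n
  rw [h, OrthogonalFamily.linearIsometry_apply_single]
  simp

lemma ext_basis {E : Type} [NormedAddCommGroup E] [InnerProductSpace ℂ E] {A B : H →L[ℂ] E}
    (h : ∀ n, A (e n) = B (e n)) : A = B := by
  refine ContinuousLinearMap.ext_on ?_ (fun x hx => ?_) (s := Set.range e)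
  · exact Submodule.dense_iff_topologicalClosure_eq_top.mpr e.dense_span
  · obtain ⟨n, rfl⟩ := hx
    exact h n

lemma incE_shiftE (f : H) : incE e (shiftE e f) = mulZ 1 (incE e f) := by
  have h : ((incE e).comp (shiftE e)).toContinuousLinearMap =
      ((mulZ 1).comp (incE e)).toContinuousLinearMap := by
    apply ext_basis e
    intro n
    show incE e (shiftE e (e n)) = mulZ 1 (incE e (e n))
    rw [shiftE_apply, incE_apply, incE_apply, mulZ_ez]
    congr 1
    push_cast
    ring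
  exact congrArg (fun A : H →L[ℂ] L2 => A f) h

/-- the data for the abstract argument -/
noncomputable def dat : Data H where
  S := (shiftE e).toContinuousLinearMap
  e0 := e 0
  isom f g := (shiftE e).inner_map_map f g
  one := by
    have := orthonormal_iff_ite.mp e.orthonormal 0 0
    simpa using this
  ker := by
    have : innerSL ℂ (ContinuousLinearMap.adjoint (shiftE e).toContinuousLinearMap (e 0)) = 0 := by
      apply ext_basis e
      intro n
      show ⟪ContinuousLinearMap.adjoint (shiftE e).toContinuousLinearMap (e 0), e n⟫_ℂ = 0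
      rw [ContinuousLinearMap.adjoint_inner_left]
      show ⟪e 0, shiftE e (e n)⟫_ℂ = 0
      rw [shiftE_apply]
      have := orthonormal_iff_ite.mp e.orthonormal 0 (n + 1)
      simpa using this
    apply ext_inner_right ℂ
    intro g
    rw [inner_zero_left]
    exact congrArg (fun A : H →L[ℂ] ℂ => A g) this

theorem isToeplitz_dat : IsToeplitz e F (dat e).T := by
  intro i j
  set h : L2 := ofFn _ (memLp_F_ez j) with hh
  have h1 := (dat e).isToeplitz_T (incE e) (incE_shiftE e) (e j) (e i) h (by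
    rw [incE_apply]
    exact fn_ofFn _ (memLp_F_ez j))
  rw [inner_sub_right, sub_eq_zero] at h1
  have h2 : ⟪incE e (e i), incE e ((dat e).T (e j))⟫_ℂ = ⟪e i, (dat e).T (e j)⟫_ℂ :=
    (incE e).inner_map_map _ _
  rw [← h2, ← h1, incE_apply, inner_eq]
  unfold fourierCoeff
  refine integral_congr_ae ?_
  filter_upwards [fn_ez i, fn_ofFn _ (memLp_F_ez j), fn_ez j] with t a1 a2 a3
  rw [a1, hh, a2, a3, smul_eq_mul]
  have e1 : (fourier (-((i : ℤ) - j)) t : ℂ) = conj (fourier i t : ℂ) * fourier j t := by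
    rw [← fourier_neg, ← fourier_add, show (-((i : ℤ) - j)) = -i + j by ring]
  rw [e1]
  ring

lemma IsToeplitz.unique {G : Cir → ℂ} {T T' : H →L[ℂ] H} (h : IsToeplitz e G T)
    (h' : IsToeplitz e G T') : T = T' := by
  apply ext_basis e
  intro j
  have : innerSL ℂ (T (e j) - T' (e j)) = 0 := by
    apply ext_basis e
    intro i
    show ⟪T (e j) - T' (e j), e i⟫_ℂ = 0
    rw [inner_sub_left, ← inner_conj_symm, ← inner_conj_symm (T' (e j)), h i j, h' i j, sub_self]
  have h0 : ⟪T (e j) - T' (e j), T (e j) - T' (e j)⟫_ℂ = 0 :=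
    congrArg (fun A : H →L[ℂ] ℂ => A (T (e j) - T' (e j))) this
  exact sub_eq_zero.mp (inner_self_eq_zero.mp h0)

end model

end Pool.Agent.R287.SP
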