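import Mathlib

/-! T-bases: continuity of the coefficient functionals. -/

set_option autoImplicit false

open Filter Topology Finset

namespace Pool.Agent.R287.TB

variable {𝕜 : Type*} [RCLike 𝕜] {E : Type*} [NormedAddCommGroup E] [NormedSpace 𝕜 E]

/-- A consistent matrix. -/
def Consistent (t : ℕ → ℕ → 𝕜) : Prop :=
  (∃ C : ℝ, ∀ n, Summable (fun m => ‖t n m‖) ∧ ∑' m, ‖t n m‖ ≤ C) ∧
  (∀ m, Tendsto (fun n => t n m) atTop (𝓝 0)) ∧
  Tendsto (fun n => ∑' m, t n m) atTop (𝓝 1)

/-- The partial sum `∑_{j < N} t n j s_j` with `s_j = ∑_{i ≤ j} α i x i`. -/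
noncomputable def Sq (t : ℕ → ℕ → 𝕜) (x : ℕ → E) (α : ℕ → 𝕜) (n N : ℕ) : E :=
  ∑ j ∈ range N, t n j • ∑ i ∈ range (j + 1), α i • x i

/-- `α` is a `T`-expansion of `v`: every series `σ_n = ∑_j t n j s_j` converges and
`σ_n → v`. -/
def IsTExpansion (t : ℕ → ℕ → 𝕜) (x : ℕ → E) (α : ℕ → 𝕜) (v : E) : Prop :=
  ∃ σ : ℕ → E, (∀ n, Tendsto (fun N => Sq t x α n N) atTop (𝓝 (σ n))) ∧ Tendsto σ atTop (𝓝 v)

/-- `x` is a `T`-basis. -/
def IsTBasis (t : ℕ → ℕ → 𝕜) (x : ℕ → E) : Prop :=
  ∀ v : E, ∃! α : ℕ → 𝕜, IsTExpansion t x α v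

variable {t : ℕ → ℕ → 𝕜} {x : ℕ → E}

theorem Sq_add (α β : ℕ → 𝕜) (n N : ℕ) : Sq t x (α + β) n N = Sq t x α n N + Sq t x β n N := by
  unfold Sq
  rw [← sum_add_distrib]
  refine sum_congr rfl fun j _ => ?_
  rw [← smul_add, ← sum_add_distrib]
  congr 1
  refine sum_congr rfl fun i _ => ?_
  rw [Pi.add_apply, add_smul]

theorem Sq_smul (r : 𝕜) (α : ℕ → 𝕜) (n N : ℕ) : Sq t x (r • α) n N = r • Sq t x α n N := by
  unfold Sq
  rw [smul_sum]
  refine sum_congr rfl fun j _ => ?_
  have h : ∑ i ∈ range (j + 1), (r • α) i • x i = r • ∑ i ∈ range (j + 1), α i • x i := by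
    rw [smul_sum]
    refine sum_congr rfl fun i _ => ?_
    rw [Pi.smul_apply, smul_eq_mul, mul_smul]
  rw [h, smul_smul, smul_smul, mul_comm]

theorem IsTExpansion.add {α β : ℕ → 𝕜} {u v : E} (hα : IsTExpansion t x α u)
    (hβ : IsTExpansion t x β v) : IsTExpansion t x (α + β) (u + v) := by
  obtain ⟨σ, h1, h2⟩ := hα
  obtain ⟨τ, h3, h4⟩ := hβ
  refine ⟨σ + τ, fun n => ?_, h2.add h4⟩
  simp only [Sq_add]
  exact (h1 n).add (h3 n)

theorem IsTExpansion.smul {α : ℕ → 𝕜} {u : E} (r : 𝕜) (hα : IsTExpansion t x α u) :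
    IsTExpansion t x (r • α) (r • u) := by
  obtain ⟨σ, h1, h2⟩ := hα
  refine ⟨r • σ, fun n => ?_, h2.const_smul r⟩
  simp only [Sq_smul]
  exact (h1 n).const_smul r

/-- coefficients -/
noncomputable def cf (hB : IsTBasis t x) : E →ₗ[𝕜] (ℕ → 𝕜) where
  toFun v := (hB v).choose
  map_add' u v := ((hB (u + v)).choose_spec.2 _
    ((hB u).choose_spec.1.add (hB v).choose_spec.1)).symm
  map_smul' r v := ((hB (r • v)).choose_spec.2 _ ((hB v).choose_spec.1.smul r)).symm

theorem cf_spec (hB : IsTBasis t x) (v : E) : IsTExpansion t x (cf hB v) v :=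
  (hB v).choose_spec.1

theorem cf_unique (hB : IsTBasis t x) {v : E} {α : ℕ → 𝕜} (h : IsTExpansion t x α v) :
    cf hB v = α := ((hB v).choose_spec.2 _ h).symm

/-- finitely supported expansions -/
theorem expansion_single (hT : Consistent t) (k : ℕ) : IsTExpansion t x (Pi.single k 1) (x k) := by
  obtain ⟨⟨C, hC⟩, h2, h3⟩ := hT
  have hs : ∀ j, ∑ i ∈ range (j + 1), (Pi.single k (1 : 𝕜) : ℕ → 𝕜) i • x i =
      if k < j + 1 then x k else 0 := by
    intro j
    by_cases h : k < j + 1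
    · rw [if_pos h, sum_eq_single_of_mem k (mem_range.2 h)]
      · rw [Pi.single_eq_same, one_smul]
      · intro i _ hi
        rw [Pi.single_eq_of_ne hi, zero_smul]
    · rw [if_neg h]
      refine sum_eq_zero fun i hi => ?_
      rw [mem_range] at hi
      rw [Pi.single_eq_of_ne (by omega), zero_smul]
  have hSq : ∀ n N, Sq t x (Pi.single k 1) n N =
      ((∑ j ∈ range N, t n j) - ∑ j ∈ range (min k N), t n j) • x k := by
    intro n N
    unfold Sq
    simp only [hs]
    rw [sub_smul, sum_smul, sum_smul, eq_sub_iff_add_eq]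
    rcases le_total k N with h | h
    · rw [min_eq_left h]
      have h1 := sum_range_add_sum_Ico (fun j => t n j • (if k < j + 1 then x k else 0)) h
      have h2 := sum_range_add_sum_Ico (fun j => t n j • x k) h
      rw [← h1, ← h2]
      have h3 : ∑ j ∈ range k, t n j • (if k < j + 1 then x k else 0) = 0 := by
        refine sum_eq_zero fun j hj => ?_
        rw [mem_range] at hj
        rw [if_neg (by omega), smul_zero]
      have h4 : ∑ j ∈ Ico k N, t n j • (if k < j + 1 then x k else 0) =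
          ∑ j ∈ Ico k N, t n j • x k := by
        refine sum_congr rfl fun j hj => ?_
        rw [mem_Ico] at hj
        rw [if_pos (by omega)]
      rw [h3, h4]
      abel
    · rw [min_eq_right h]
      have h3 : ∑ j ∈ range N, t n j • (if k < j + 1 then x k else 0) = 0 := by
        refine sum_eq_zero fun j hj => ?_
        rw [mem_range] at hj
        rw [if_neg (by omega), smul_zero]
      rw [h3, zero_add]
  refine ⟨fun n => ((∑' j, t n j) - ∑ j ∈ range k, t n j) • x k, fun n => ?_, ?_⟩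
  · have h4 : Tendsto (fun N => ∑ j ∈ range N, t n j) atTop (𝓝 (∑' j, t n j)) :=
      (Summable.of_norm (hC n).1).hasSum.tendsto_sum_nat
    have h5 : Tendsto (fun N => ∑ j ∈ range (min k N), t n j) atTop
        (𝓝 (∑ j ∈ range k, t n j)) := by
      refine tendsto_const_nhds.congr' ?_
      filter_upwards [eventually_ge_atTop k] with N hN
      rw [min_eq_left hN]
    simp only [hSq]
    exact (h4.sub h5).smul_const _
  · have h4 : Tendsto (fun n => ∑ j ∈ range k, t n j) atTop (𝓝 (∑ j ∈ range k, (0 : 𝕜))) :=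
      tendsto_finset_sum _ fun j _ => h2 j
    rw [sum_const_zero] at h4
    have h5 := (h3.sub h4).smul_const (x k)
    rw [sub_zero, one_smul] at h5
    exact h5

theorem cf_x (hT : Consistent t) (hB : IsTBasis t x) (k : ℕ) : cf hB (x k) = Pi.single k 1 :=
  cf_unique hB (expansion_single hT k)

theorem linInd (hT : Consistent t) (hB : IsTBasis t x) : LinearIndependent 𝕜 x := by
  refine LinearIndependent.of_comp (cf hB) ?_
  have : (cf hB) ∘ x = fun k => (Pi.single k 1 : ℕ → 𝕜) := funext fun k => cf_x hT hB k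
  rw [this]
  rw [linearIndependent_iff']
  intro s g hg i hi
  have h1 := congrFun hg i
  rw [Finset.sum_apply, sum_eq_single_of_mem i hi] at h1
  · simpa using h1
  · intro j _ hj
    rw [Pi.smul_apply, Pi.single_eq_of_ne (Ne.symm hj), smul_zero]

/-- used indices -/
theorem exists_used (hT : Consistent t) (i : ℕ) : ∃ n j, i ≤ j ∧ t n j ≠ 0 := by
  obtain ⟨⟨C, hC⟩, h2, h3⟩ := hT
  by_contra hcon
  push Not at hcon
  have h4 : ∀ n, ∑' j, t n j = ∑ j ∈ range i, t n j := fun n =>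
    tsum_eq_sum fun j hj => hcon n j (by rw [mem_range] at hj; omega)
  have h5 : Tendsto (fun n => ∑ j ∈ range i, t n j) atTop (𝓝 (∑ j ∈ range i, (0 : 𝕜))) :=
    tendsto_finset_sum _ fun j _ => h2 j
  rw [sum_const_zero] at h5
  simp only [h4] at h3
  exact zero_ne_one (tendsto_nhds_unique h5 h3)

/-- coordinates are controlled by one row -/
theorem coord_bound (hT : Consistent t) (hB : IsTBasis t x) (i : ℕ) :
    ∃ (n : ℕ) (C : ℝ), 0 < C ∧ ∀ (α : ℕ → 𝕜) (R : ℝ), (∀ N, ‖Sq t x α n N‖ ≤ R) →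
      ‖α i‖ ≤ C * R := by
  obtain ⟨n, j, hij, hnj⟩ := exists_used hT i
  -- finite-dimensional norm equivalence
  set L : (Fin (j + 1) → 𝕜) →ₗ[𝕜] E := Fintype.linearCombination 𝕜 (fun k : Fin (j + 1) => x k)
    with hL
  have hinj : LinearMap.ker L = ⊥ := by
    have h1 : LinearIndependent 𝕜 (fun k : Fin (j + 1) => x k) :=
      (linInd hT hB).comp _ Fin.val_injective
    rw [LinearMap.ker_eq_bot']
    intro m hm
    funext k
    refine Fintype.linearIndependent_iff.1 h1 m ?_ k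
    rwa [hL, Fintype.linearCombination_apply] at hm
  obtain ⟨K, hK, hKL⟩ := L.exists_antilipschitzWith hinj
  refine ⟨n, K * (2 / ‖t n j‖), by
    have := norm_pos_iff.2 hnj
    have hK' : (0 : ℝ) < K := hK
    positivity, fun α R hR => ?_⟩
  have h1 : ‖t n j • ∑ i ∈ range (j + 1), α i • x i‖ ≤ 2 * R := by
    have h2 : t n j • ∑ i ∈ range (j + 1), α i • x i = Sq t x α n (j + 1) - Sq t x α n j := by
      unfold Sq
      rw [sum_range_succ (fun j => t n j • ∑ i ∈ range (j + 1), α i • x i) j,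
        add_sub_cancel_left]
    rw [h2]
    refine (norm_sub_le _ _).trans ?_
    linarith [hR (j + 1), hR j]
  have hpos := norm_pos_iff.2 hnj
  rw [norm_smul] at h1
  have h3 : ‖∑ i ∈ range (j + 1), α i • x i‖ ≤ 2 / ‖t n j‖ * R := by
    rw [div_mul_eq_mul_div, le_div_iff₀ hpos]
    linarith
  have h4 : L (fun k : Fin (j + 1) => α k) = ∑ i ∈ range (j + 1), α i • x i := by
    rw [hL, Fintype.linearCombination_apply, ← Fin.sum_univ_eq_sum_range (fun i => α i • x i)]
  have h5 : ‖(fun k : Fin (j + 1) => α k)‖ ≤ K * ‖L (fun k : Fin (j + 1) => α k)‖ := by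
    have := hKL.le_mul_dist (fun k : Fin (j + 1) => α k) 0
    rwa [map_zero, dist_zero_right, dist_zero_right] at this
  have h6 : ‖α i‖ ≤ ‖(fun k : Fin (j + 1) => α k)‖ :=
    norm_le_pi_norm (fun k : Fin (j + 1) => α k) ⟨i, by omega⟩
  refine h6.trans (h5.trans ?_)
  rw [h4, mul_assoc]
  exact mul_le_mul_of_nonneg_left h3 K.2

end Pool.Agent.R287.TB
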