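import Pool.Agent.R287.TBa

set_option autoImplicit false

open Filter Topology Finset

namespace Pool.Agent.R287.TB

variable {𝕜 : Type*} [RCLike 𝕜] {E : Type*} [NormedAddCommGroup E] [NormedSpace 𝕜 E]
variable {t : ℕ → ℕ → 𝕜} {x : ℕ → E}

/-- the operators `S n N` -/
noncomputable def Sop (hB : IsTBasis t x) (n N : ℕ) (v : E) : E := Sq t x (cf hB v) n N

theorem Sop_add (hB : IsTBasis t x) (n N : ℕ) (u v : E) :
    Sop hB n N (u + v) = Sop hB n N u + Sop hB n N v := by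
  unfold Sop; rw [map_add, Sq_add]

theorem Sop_smul (hB : IsTBasis t x) (n N : ℕ) (r : 𝕜) (v : E) :
    Sop hB n N (r • v) = r • Sop hB n N v := by
  unfold Sop; rw [map_smul, Sq_smul]

/-- the operators `σ n` -/
noncomputable def sg (hB : IsTBasis t x) (n : ℕ) (v : E) : E := (cf_spec hB v).choose n

theorem tendsto_Sop (hB : IsTBasis t x) (n : ℕ) (v : E) :
    Tendsto (fun N => Sop hB n N v) atTop (𝓝 (sg hB n v)) :=
  (cf_spec hB v).choose_spec.1 n

theorem tendsto_sg (hB : IsTBasis t x) (v : E) : Tendsto (fun n => sg hB n v) atTop (𝓝 v) :=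
  (cf_spec hB v).choose_spec.2

theorem sg_add (hB : IsTBasis t x) (n : ℕ) (u v : E) :
    sg hB n (u + v) = sg hB n u + sg hB n v := by
  refine tendsto_nhds_unique (tendsto_Sop hB n (u + v)) ?_
  simp only [Sop_add]
  exact (tendsto_Sop hB n u).add (tendsto_Sop hB n v)

theorem sg_smul (hB : IsTBasis t x) (n : ℕ) (r : 𝕜) (v : E) :
    sg hB n (r • v) = r • sg hB n v := by
  refine tendsto_nhds_unique (tendsto_Sop hB n (r • v)) ?_
  simp only [Sop_smul]
  exact (tendsto_Sop hB n v).const_smul r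

/-- basic sets -/
def Wd (hB : IsTBasis t x) (m : ℕ) (R : ℝ) : Set E :=
  {v | (∀ n ≤ m, ∀ N, ‖Sop hB n N v‖ ≤ R) ∧ ∀ n, ‖sg hB n v‖ ≤ R}

theorem Wd_smul (hB : IsTBasis t x) (m : ℕ) (R : ℝ) (r : 𝕜) {v : E} (hv : v ∈ Wd hB m R) :
    r • v ∈ Wd hB m (‖r‖ * R) := by
  refine ⟨fun n hn N => ?_, fun n => ?_⟩
  · rw [Sop_smul, norm_smul]
    exact mul_le_mul_of_nonneg_left (hv.1 n hn N) (norm_nonneg _)
  · rw [sg_smul, norm_smul]
    exact mul_le_mul_of_nonneg_left (hv.2 n) (norm_nonneg _)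

theorem Wd_add (hB : IsTBasis t x) (m : ℕ) (R R' : ℝ) {u v : E} (hu : u ∈ Wd hB m R)
    (hv : v ∈ Wd hB m R') : u + v ∈ Wd hB m (R + R') := by
  refine ⟨fun n hn N => ?_, fun n => ?_⟩
  · rw [Sop_add]
    exact (norm_add_le _ _).trans (add_le_add (hu.1 n hn N) (hv.1 n hn N))
  · rw [sg_add]
    exact (norm_add_le _ _).trans (add_le_add (hu.2 n) (hv.2 n))

theorem exists_bound_seq {u : ℕ → E} {l : E} (h : Tendsto u atTop (𝓝 l)) :
    ∃ R : ℝ, ∀ n, ‖u n‖ ≤ R := by
  obtain ⟨R, hR⟩ := (h.norm.bddAbove_range)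
  exact ⟨R, fun n => hR ⟨n, rfl⟩⟩

theorem exists_Wd (hB : IsTBasis t x) (m : ℕ) (v : E) : ∃ k : ℕ, v ∈ Wd hB m k := by
  have h1 : ∀ n, ∃ R : ℝ, ∀ N, ‖Sop hB n N v‖ ≤ R := fun n => exists_bound_seq (tendsto_Sop hB n v)
  choose R hR using h1
  obtain ⟨R', hR'⟩ := exists_bound_seq (tendsto_sg hB v)
  obtain ⟨R'', hR''⟩ : ∃ R'', ∀ n ≤ m, R n ≤ R'' := by
    obtain ⟨R'', h⟩ := ((Set.finite_Iic m).image R).bddAbove
    exact ⟨R'', fun n hn => h ⟨n, hn, rfl⟩⟩
  obtain ⟨k, hk⟩ := exists_nat_ge (max R' R'')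
  exact ⟨k, fun n hn N => ((hR n N).trans (hR'' n hn)).trans ((le_max_right _ _).trans hk),
    fun n => (hR' n).trans ((le_max_left _ _).trans hk)⟩

theorem approx [CompleteSpace E] (hB : IsTBasis t x) (m : ℕ) : ∃ D : ℝ, 0 < D ∧ ∀ (y : E) (ε : ℝ),
    0 < ε → ∃ w ∈ Wd hB m (D * ‖y‖), ‖y - w‖ < ε := by
  have hU : ⋃ k : ℕ, closure (Wd hB m k) = Set.univ := by
    refine Set.eq_univ_of_forall fun v => ?_
    obtain ⟨k, hk⟩ := exists_Wd hB m v
    exact Set.mem_iUnion.2 ⟨k, subset_closure hk⟩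
  obtain ⟨k, c, hc⟩ := nonempty_interior_of_iUnion_of_closed (fun _ => isClosed_closure) hU
  obtain ⟨r, hr, hball⟩ := Metric.isOpen_iff.1 isOpen_interior c hc
  -- ball around zero
  have h0 : ∀ y : E, ‖y‖ < r → ∀ ε : ℝ, 0 < ε → ∃ w ∈ Wd hB m (2 * (k : ℝ)), ‖y - w‖ < ε := by
    intro y hy ε hε
    have h1 : c + y ∈ closure (Wd hB m k) := interior_subset (hball (by
      rw [Metric.mem_ball, dist_eq_norm, add_sub_cancel_left]; exact hy))
    have h2 : c ∈ closure (Wd hB m k) := interior_subset (hball (Metric.mem_ball_self hr))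
    obtain ⟨w1, hw1, hd1⟩ := Metric.mem_closure_iff.1 h1 (ε / 2) (by positivity)
    obtain ⟨w2, hw2, hd2⟩ := Metric.mem_closure_iff.1 h2 (ε / 2) (by positivity)
    refine ⟨w1 + (-1 : 𝕜) • w2, ?_, ?_⟩
    · have h3 := Wd_add hB m _ _ hw1 (Wd_smul hB m _ (-1 : 𝕜) hw2)
      rw [norm_neg, norm_one, one_mul] at h3
      rw [two_mul]; exact h3
    · rw [dist_eq_norm] at hd1 hd2
      have h3 : y - (w1 + (-1 : 𝕜) • w2) = (c + y - w1) - (c - w2) := by
        rw [neg_smul, one_smul]; abel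
      rw [h3]
      refine (norm_sub_le _ _).trans_lt ?_
      linarith
  refine ⟨(2 * k + 1) * (2 / r), by positivity, fun y ε hε => ?_⟩
  by_cases hy : y = 0
  · refine ⟨0, ?_, by rw [hy, sub_zero, norm_zero]; exact hε⟩
    have hz : (0 : E) = (0 : 𝕜) • (0 : E) := (zero_smul _ _).symm
    refine ⟨fun n _ N => ?_, fun n => ?_⟩
    · rw [hz, Sop_smul, zero_smul, norm_zero]; positivity
    · rw [hz, sg_smul, zero_smul, norm_zero]; positivity
  · have hn : 0 < ‖y‖ := norm_pos_iff.2 hy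
    set s : ℝ := r / (2 * ‖y‖) with hs
    have hs0 : 0 < s := by positivity
    obtain ⟨w, hw, hd⟩ := h0 ((s : 𝕜) • y) (by
      rw [norm_smul, RCLike.norm_ofReal, abs_of_pos hs0, hs]
      field_simp
      linarith) (s * ε) (by positivity)
    refine ⟨((s⁻¹ : ℝ) : 𝕜) • w, ?_, ?_⟩
    · have h1 := Wd_smul hB m _ ((s⁻¹ : ℝ) : 𝕜) hw
      have h2 : ‖((s⁻¹ : ℝ) : 𝕜)‖ * (2 * (k : ℝ)) ≤ (2 * k + 1) * (2 / r) * ‖y‖ := by
        rw [RCLike.norm_ofReal, abs_of_pos (by positivity), hs]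
        have h3 : (r / (2 * ‖y‖))⁻¹ = 2 / r * ‖y‖ := by field_simp
        rw [h3]
        have h4 : 0 < 2 / r * ‖y‖ := by positivity
        nlinarith
      exact ⟨fun n hn N => (h1.1 n hn N).trans h2, fun n => (h1.2 n).trans h2⟩
    · have h1 : y - ((s⁻¹ : ℝ) : 𝕜) • w = ((s⁻¹ : ℝ) : 𝕜) • ((s : 𝕜) • y - w) := by
        rw [smul_sub, smul_smul, ← RCLike.ofReal_mul, inv_mul_cancel₀ hs0.ne', RCLike.ofReal_one,
          one_smul]
      rw [h1, norm_smul, RCLike.norm_ofReal, abs_of_pos (by positivity), inv_mul_lt_iff₀ hs0]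
      exact hd

theorem row_bound [CompleteSpace E] (hT : Consistent t) (hB : IsTBasis t x) (m : ℕ) :
    ∃ C : ℝ, ∀ (y : E) (N : ℕ), ‖Sop hB m N y‖ ≤ C * ‖y‖ := by
  have hap := fun k => approx hB (m + k)
  choose D hD0 hD using hap
  refine ⟨D 0 + 1, fun y M => ?_⟩
  by_cases hy : y = 0
  · have hz : y = (0 : 𝕜) • (0 : E) := by rw [hy, zero_smul]
    rw [hz, Sop_smul, zero_smul, norm_zero, zero_smul, norm_zero, mul_zero]
  have hny : 0 < ‖y‖ := norm_pos_iff.2 hy
  -- the error sizes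
  set δ : ℕ → ℝ := fun k => ‖y‖ * (1 / 2) ^ (k + 1) / max 1 (D (k + 1)) with hδ
  have hδ0 : ∀ k, 0 < δ k := fun k => by rw [hδ]; positivity
  have hδ1 : ∀ k, δ k ≤ ‖y‖ * (1 / 2) ^ (k + 1) := fun k => by
    rw [hδ]
    exact div_le_self (by positivity) (le_max_left _ _)
  have hδ2 : ∀ k, D (k + 1) * δ k ≤ ‖y‖ * (1 / 2) ^ (k + 1) := fun k => by
    have h1 : D (k + 1) ≤ max 1 (D (k + 1)) := le_max_right _ _
    have h2 : max 1 (D (k + 1)) * δ k = ‖y‖ * (1 / 2) ^ (k + 1) := by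
      rw [hδ]
      have : (0 : ℝ) < max 1 (D (k + 1)) := lt_of_lt_of_le one_pos (le_max_left _ _)
      field_simp
    rw [← h2]
    exact mul_le_mul_of_nonneg_right h1 (hδ0 k).le
  choose g hg1 hg2 using fun (k : ℕ) (z : E) => hD k z (δ k) (hδ0 k)
  set Y : ℕ → E := fun k => Nat.rec y (fun k z => z - g k z) k with hY
  have hY0 : Y 0 = y := rfl
  have hY1 : ∀ k, Y (k + 1) = Y k - g k (Y k) := fun k => rfl
  set w : ℕ → E := fun k => g k (Y k) with hw
  have hYb : ∀ k, ‖Y (k + 1)‖ ≤ δ k := fun k => by rw [hY1]; exact (hg2 k (Y k)).le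
  set b : ℕ → ℝ := fun k => if k = 0 then D 0 * ‖y‖ else ‖y‖ * (1 / 2) ^ k with hb
  have hwW : ∀ k, w k ∈ Wd hB (m + k) (b k) := by
    intro k
    have h1 := hg1 k (Y k)
    have h2 : D k * ‖Y k‖ ≤ b k := by
      rcases Nat.eq_zero_or_pos k with h | h
      · rw [h, hb]; simp [hY0]
      · obtain ⟨j, rfl⟩ : ∃ j, k = j + 1 := ⟨k - 1, by omega⟩
        rw [hb]
        simp only [Nat.add_eq_zero_iff, one_ne_zero, and_false, if_false]
        refine le_trans ?_ (hδ2 j)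
        exact mul_le_mul_of_nonneg_left (hYb j) (hD0 _).le
    exact ⟨fun n hn N => (h1.1 n hn N).trans h2, fun n => (h1.2 n).trans h2⟩
  have hb0 : ∀ k, 0 ≤ b k := fun k => by
    have := (hD0 0).le
    rw [hb]; simp only; split_ifs <;> positivity
  have hgeo : HasSum (fun k : ℕ => if k = 0 then (0 : ℝ) else ‖y‖ * (1 / 2) ^ k) ‖y‖ := by
    have h1 : HasSum (fun k : ℕ => ‖y‖ * (1 / 2 : ℝ) ^ k) (‖y‖ * 2) := by
      exact hasSum_geometric_two.mul_left _
    have h2 := h1.update 0 0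
    have h3 : (fun k : ℕ => if k = 0 then (0 : ℝ) else ‖y‖ * (1 / 2) ^ k) =
        Function.update (fun k : ℕ => ‖y‖ * (1 / 2 : ℝ) ^ k) 0 0 := by
      funext k
      rw [Function.update_apply]
    rw [h3]
    have h4 : 0 - ‖y‖ * (1 / 2 : ℝ) ^ 0 + ‖y‖ * 2 = ‖y‖ := by rw [pow_zero]; ring
    rw [h4] at h2
    exact h2
  have hbsum : HasSum b (D 0 * ‖y‖ + ‖y‖) := by
    have h1 : HasSum (fun k : ℕ => if k = 0 then D 0 * ‖y‖ else 0) (D 0 * ‖y‖) :=
      hasSum_ite_eq (0 : ℕ) (D 0 * ‖y‖)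
    have h2 := h1.add hgeo
    have h3 : b = fun k : ℕ => (if k = 0 then D 0 * ‖y‖ else 0) +
        (if k = 0 then (0 : ℝ) else ‖y‖ * (1 / 2) ^ k) := by
      funext k
      rw [hb]
      simp only
      split_ifs <;> simp
    rw [h3]
    exact h2
  -- `∑ w k = y`
  have hpart : ∀ K, ∑ k ∈ range K, w k = y - Y K := by
    intro K
    induction K with
    | zero => rw [range_zero, sum_empty, hY0, sub_self]
    | succ K ih =>
      rw [sum_range_succ, ih, hY1, hw]
      abel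
  have hYlim : Tendsto Y atTop (𝓝 0) := by
    rw [← tendsto_add_atTop_iff_nat 1]
    refine squeeze_zero_norm (a := fun k => ‖y‖ * (1 / 2) ^ (k + 1))
      (fun k => (hYb k).trans (hδ1 k)) ?_
    have h1 : Tendsto (fun k : ℕ => (1 / 2 : ℝ) ^ (k + 1)) atTop (𝓝 0) :=
      (tendsto_add_atTop_iff_nat 1).2
        (tendsto_pow_atTop_nhds_zero_of_lt_one (by norm_num) (by norm_num))
    have h2 := h1.const_mul ‖y‖
    rwa [mul_zero] at h2
  have hwsumlim : Tendsto (fun K => ∑ k ∈ range K, w k) atTop (𝓝 y) := by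
    simp only [hpart]
    have := tendsto_const_nhds (x := y).sub hYlim
    rwa [sub_zero] at this
  -- coordinates
  have hcoord : ∀ i, Summable fun k => cf hB (w k) i := by
    intro i
    obtain ⟨n, C, hC, hCi⟩ := coord_bound hT hB i
    refine Summable.of_norm ?_
    have h1 : Summable fun k => C * b k := hbsum.summable.mul_left C
    refine (summable_nat_add_iff n).1 ?_
    refine Summable.of_nonneg_of_le (fun k => norm_nonneg _) (fun k => ?_)
      ((summable_nat_add_iff n).2 h1)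
    exact hCi _ _ fun N => (hwW (k + n)).1 n (by omega) N
  set β : ℕ → 𝕜 := fun i => ∑' k, cf hB (w k) i with hβ
  have hSqβ : ∀ n N, HasSum (fun k => Sop hB n N (w k)) (Sq t x β n N) := by
    intro n N
    unfold Sop Sq
    refine hasSum_sum fun j _ => ?_
    refine HasSum.const_smul _ ?_
    refine hasSum_sum fun i _ => ?_
    exact (hcoord i).hasSum.smul_const _
  -- domination of the rows
  have hdom : ∀ n, ∃ B : ℕ → ℝ, Summable B ∧ ∀ N k, ‖Sop hB n N (w k)‖ ≤ B k := by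
    intro n
    have h1 : ∀ k, ∃ R : ℝ, ∀ N, ‖Sop hB n N (w k)‖ ≤ R := fun k =>
      exists_bound_seq (tendsto_Sop hB n (w k))
    choose R hR using h1
    refine ⟨fun k => if k < n then R k else b k, ?_, fun N k => ?_⟩
    · refine (summable_nat_add_iff n).1 ?_
      have h2 := (summable_nat_add_iff n).2 hbsum.summable
      refine h2.congr fun k => ?_
      rw [if_neg (by omega)]
    · by_cases h : k < n
      · simp only [if_pos h]; exact hR k N
      · simp only [if_neg h]; exact (hwW k).1 n (by omega) N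
  have hrow : ∀ n, Tendsto (fun N => Sq t x β n N) atTop (𝓝 (∑' k, sg hB n (w k))) := by
    intro n
    obtain ⟨B, hB1, hB2⟩ := hdom n
    have h1 : Tendsto (fun N => ∑' k, Sop hB n N (w k)) atTop (𝓝 (∑' k, sg hB n (w k))) :=
      tendsto_tsum_of_dominated_convergence hB1 (fun k => tendsto_Sop hB n (w k))
        (Eventually.of_forall fun N k => hB2 N k)
    refine h1.congr fun N => ?_
    exact (hSqβ n N).tsum_eq
  have hwsum : HasSum w y := by
    have h1 : Summable w := by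
      refine Summable.of_norm_bounded (g := b) hbsum.summable fun k => ?_
      refine le_of_tendsto (tendsto_sg hB (w k)).norm (Eventually.of_forall fun n => ?_)
      exact (hwW k).2 n
    have h2 := h1.hasSum.tendsto_sum_nat
    have h3 := tendsto_nhds_unique h2 hwsumlim
    rw [← h3]
    exact h1.hasSum
  have hlim : Tendsto (fun n => ∑' k, sg hB n (w k)) atTop (𝓝 y) := by
    rw [← hwsum.tsum_eq]
    exact tendsto_tsum_of_dominated_convergence hbsum.summable (fun k => tendsto_sg hB (w k))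
      (Eventually.of_forall fun n k => (hwW k).2 n)
  have hexp : cf hB y = β := cf_unique hB ⟨_, hrow, hlim⟩
  have h1 := hSqβ m M
  rw [← hexp] at h1
  have h2 : ‖Sop hB m M y‖ ≤ ∑' k, b k := by
    unfold Sop
    rw [← h1.tsum_eq]
    refine tsum_of_norm_bounded hbsum.summable.hasSum fun k => ?_
    exact (hwW k).1 m (by omega) M
  rw [hbsum.tsum_eq] at h2
  linarith

end Pool.Agent.R287.TB
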