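import Pool.Agent.R287.TBb

set_option autoImplicit false

open Filter Topology Finset

namespace Pool.Agent.R287.TB

variable {𝕜 : Type*} [RCLike 𝕜] {E : Type*} [NormedAddCommGroup E] [NormedSpace 𝕜 E]
variable {t : ℕ → ℕ → 𝕜} {x : ℕ → E}

/-! ### the numbers `lam` and `tau` -/

noncomputable def lam (t : ℕ → ℕ → 𝕜) (n k : ℕ) : 𝕜 := (∑' j, t n j) - ∑ j ∈ range k, t n j

noncomputable def tau (t : ℕ → ℕ → 𝕜) (n k : ℕ) : ℝ :=
  (∑' j, ‖t n j‖) - ∑ j ∈ range k, ‖t n j‖

theorem lam_succ (t : ℕ → ℕ → 𝕜) (n k : ℕ) : lam t n (k + 1) = lam t n k - t n k := by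
  unfold lam; rw [sum_range_succ]; ring

theorem tau_succ (t : ℕ → ℕ → 𝕜) (n k : ℕ) : tau t n (k + 1) = tau t n k - ‖t n k‖ := by
  unfold tau; rw [sum_range_succ]; ring

theorem norm_lam_le (hT : Consistent t) (n k : ℕ) : ‖lam t n k‖ ≤ tau t n k := by
  obtain ⟨⟨C, hC⟩, -, -⟩ := hT
  have hs := (hC n).1
  have hs' : Summable (t n) := Summable.of_norm hs
  have h1 : lam t n k = ∑' j, t n (j + k) := by
    unfold lam
    rw [← hs'.sum_add_tsum_nat_add k, add_sub_cancel_left]
  have h2 : tau t n k = ∑' j, ‖t n (j + k)‖ := by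
    unfold tau
    rw [← hs.sum_add_tsum_nat_add k, add_sub_cancel_left]
  rw [h1, h2]
  exact norm_tsum_le_tsum_norm ((summable_nat_add_iff k).2 hs)

theorem tau_nonneg (hT : Consistent t) (n k : ℕ) : 0 ≤ tau t n k :=
  (norm_nonneg _).trans (norm_lam_le hT n k)

theorem tau_anti (t : ℕ → ℕ → 𝕜) (n : ℕ) : Antitone (tau t n) :=
  antitone_nat_of_succ_le fun k => by rw [tau_succ]; linarith [norm_nonneg (t n k)]

theorem tendsto_tau (hT : Consistent t) (n : ℕ) : Tendsto (tau t n) atTop (𝓝 0) := by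
  obtain ⟨⟨C, hC⟩, -, -⟩ := hT
  have h1 := (hC n).1.hasSum.tendsto_sum_nat
  have h2 := (tendsto_const_nhds (x := ∑' j, ‖t n j‖)).sub h1
  rw [sub_self] at h2
  exact h2

theorem tau_le (hT : Consistent t) : ∃ C : ℝ, 0 ≤ C ∧ ∀ n k, tau t n k ≤ C := by
  have hT' := hT
  obtain ⟨⟨C, hC⟩, -, -⟩ := hT'
  refine ⟨max C 0, le_max_right _ _, fun n k => ?_⟩
  refine (tau_anti t n (Nat.zero_le k)).trans ?_
  unfold tau
  rw [range_zero, sum_empty, sub_zero]
  exact (hC n).2.trans (le_max_left _ _)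

theorem tendsto_lam (hT : Consistent t) (i : ℕ) :
    Tendsto (fun n => lam t n i) atTop (𝓝 1) := by
  obtain ⟨-, h2, h3⟩ := hT
  have h4 : Tendsto (fun n => ∑ j ∈ range i, t n j) atTop (𝓝 (∑ j ∈ range i, (0 : 𝕜))) :=
    tendsto_finset_sum _ fun j _ => h2 j
  rw [sum_const_zero] at h4
  have h5 := h3.sub h4
  rw [sub_zero] at h5
  exact h5

/-! ### operators -/

theorem sg_x (hT : Consistent t) (hB : IsTBasis t x) (n k : ℕ) :
    sg hB n (x k) = lam t n k • x k := by
  have h1 := tendsto_Sop hB n (x k)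
  refine tendsto_nhds_unique h1 ?_
  unfold Sop
  rw [cf_x hT hB k]
  have hs' : Summable (t n) := by
    obtain ⟨⟨C, hC⟩, -, -⟩ := hT
    exact Summable.of_norm (hC n).1
  have hs : ∀ j, ∑ i ∈ range (j + 1), (Pi.single k (1 : 𝕜) : ℕ → 𝕜) i • x i =
      if k < j + 1 then x k else 0 := by
    intro j
    by_cases h : k < j + 1
    · rw [if_pos h, sum_eq_single_of_mem k (mem_range.2 h)]
      · rw [Pi.single_eq_same, one_smul]
      · intro i _ hi
        rw [Pi.single_eq_of_ne hi, zero_smul]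
    · rw [if_neg h]
      refine sum_eq_zero fun i hi => ?_
      rw [mem_range] at hi
      rw [Pi.single_eq_of_ne (by omega), zero_smul]
  have h4 : ∀ N, k ≤ N → Sq t x (Pi.single k 1) n N =
      ((∑ j ∈ range N, t n j) - ∑ j ∈ range k, t n j) • x k := by
    intro N hN
    induction N, hN using Nat.le_induction with
    | base =>
      rw [sub_self, zero_smul]
      unfold Sq
      refine sum_eq_zero fun j hj => ?_
      rw [mem_range] at hj
      rw [hs, if_neg (by omega), smul_zero]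
    | succ N hN ih =>
      have h5 : Sq t x (Pi.single k 1) n (N + 1) = Sq t x (Pi.single k 1) n N +
          t n N • ∑ i ∈ range (N + 1), (Pi.single k (1 : 𝕜) : ℕ → 𝕜) i • x i := by
        unfold Sq
        rw [sum_range_succ]
      rw [h5, ih, hs, if_pos (by omega), sum_range_succ, ← add_smul]
      congr 1
      ring
  have h5 : Tendsto (fun N => ((∑ j ∈ range N, t n j) - ∑ j ∈ range k, t n j) • x k) atTop
      (𝓝 (lam t n k • x k)) := by
    refine Tendsto.smul_const ?_ _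
    exact hs'.hasSum.tendsto_sum_nat.sub_const _
  refine h5.congr' ?_
  filter_upwards [eventually_ge_atTop k] with N hN
  rw [h4 N hN]

/-- partial sums of the expansion -/
noncomputable def sj (hB : IsTBasis t x) (j : ℕ) (v : E) : E :=
  ∑ i ∈ range (j + 1), cf hB v i • x i

theorem sj_succ (hB : IsTBasis t x) (j : ℕ) (v : E) :
    sj hB (j + 1) v = sj hB j v + cf hB v (j + 1) • x (j + 1) := by
  unfold sj; rw [sum_range_succ]

theorem Sop_zero (hB : IsTBasis t x) (n : ℕ) (v : E) : Sop hB n 0 v = 0 := by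
  unfold Sop Sq; simp

theorem Sop_succ (hB : IsTBasis t x) (n N : ℕ) (v : E) :
    Sop hB n (N + 1) v = Sop hB n N v + t n N • sj hB N v := by
  unfold Sop Sq sj; rw [sum_range_succ]

theorem sg_sub (hB : IsTBasis t x) (n : ℕ) (u v : E) :
    sg hB n (u - v) = sg hB n u - sg hB n v := by
  have : u - v = u + (-1 : 𝕜) • v := by rw [neg_smul, one_smul]; abel
  rw [this, sg_add, sg_smul, neg_smul, one_smul]; abel

theorem sg_zero (hB : IsTBasis t x) (n : ℕ) : sg hB n 0 = 0 := by
  have := sg_smul hB n (0 : 𝕜) 0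
  rwa [zero_smul, zero_smul] at this

theorem sg_sj (hT : Consistent t) (hB : IsTBasis t x) (n k : ℕ) (v : E) :
    sg hB n (sj hB k v) = Sop hB n k v + lam t n k • sj hB k v := by
  induction k with
  | zero =>
    rw [Sop_zero, zero_add]
    unfold sj
    rw [zero_add, range_one, sum_singleton, sg_smul, sg_x hT hB, smul_comm]
  | succ k ih =>
    rw [sj_succ, sg_add, ih, sg_smul, sg_x hT hB, Sop_succ, lam_succ]
    module

theorem sg_Sop_sub (hT : Consistent t) (hB : IsTBasis t x) (n N M : ℕ) (hNM : N ≤ M) (v : E) :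
    sg hB n (Sop hB n M v - Sop hB n N v) =
      ∑ j ∈ Ico N M, t n j • (Sop hB n j v + (Sop hB n (j + 1) v - Sop hB n N v)) +
      lam t n M • (Sop hB n M v - Sop hB n N v) := by
  induction M, hNM using Nat.le_induction with
  | base => rw [sub_self, sg_zero, Ico_self, sum_empty, smul_zero, add_zero]
  | succ M hM ih =>
    have h1 : Sop hB n (M + 1) v - Sop hB n N v =
        (Sop hB n M v - Sop hB n N v) + t n M • sj hB M v := by
      rw [Sop_succ]; abel
    rw [sum_Ico_succ_top hM, h1, sg_add, ih, sg_smul, sg_sj hT hB, lam_succ]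
    simp only [smul_add, smul_sub, sub_smul]
    rw [smul_comm (t n M) (lam t n M)]
    abel

theorem sg_Sop (hT : Consistent t) (hB : IsTBasis t x) (n N : ℕ) (v : E) :
    sg hB n (Sop hB n N v) =
      ∑ i ∈ range N, (lam t n i * (lam t n i - lam t n N) * cf hB v i) • x i := by
  induction N with
  | zero => rw [Sop_zero, sg_zero, range_zero, sum_empty]
  | succ N ih =>
    have h1 : sg hB n (sj hB N v) = ∑ i ∈ range (N + 1), (lam t n i * cf hB v i) • x i := by
      clear ih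
      induction N with
      | zero =>
        unfold sj
        rw [zero_add, range_one, sum_singleton, sum_singleton, sg_smul, sg_x hT hB, smul_smul,
          mul_comm]
      | succ N ih =>
        rw [sj_succ, sg_add, ih, sum_range_succ _ (N + 1), sg_smul, sg_x hT hB, smul_smul,
          mul_comm (cf hB v (N + 1))]
    rw [Sop_succ, sg_add, sg_smul, ih, h1, smul_sum]
    have h2 : ∑ i ∈ range N, (lam t n i * (lam t n i - lam t n N) * cf hB v i) • x i =
        ∑ i ∈ range (N + 1), (lam t n i * (lam t n i - lam t n N) * cf hB v i) • x i := by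
      rw [sum_range_succ, sub_self, mul_zero, zero_mul, zero_smul, add_zero]
    rw [h2, ← sum_add_distrib]
    refine sum_congr rfl fun i _ => ?_
    rw [smul_smul, ← add_smul, lam_succ]
    congr 1
    ring

/-! ### continuity -/

variable [CompleteSpace E]

theorem cf_bound (hT : Consistent t) (hB : IsTBasis t x) (i : ℕ) :
    ∃ C : ℝ, ∀ v, ‖((LinearMap.proj i : (ℕ → 𝕜) →ₗ[𝕜] 𝕜).comp (cf hB)) v‖ ≤ C * ‖v‖ := by
  obtain ⟨n, C, hC, h⟩ := coord_bound hT hB i
  obtain ⟨K, hK⟩ := row_bound hT hB n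
  refine ⟨C * K, fun v => ?_⟩
  rw [mul_assoc]
  exact h _ _ fun N => hK v N

noncomputable def ff (hT : Consistent t) (hB : IsTBasis t x) (i : ℕ) : E →L[𝕜] 𝕜 :=
  ((LinearMap.proj i : (ℕ → 𝕜) →ₗ[𝕜] 𝕜).comp (cf hB)).mkContinuous
    (cf_bound hT hB i).choose (cf_bound hT hB i).choose_spec

theorem ff_apply (hT : Consistent t) (hB : IsTBasis t x) (i : ℕ) (v : E) :
    ff hT hB i v = cf hB v i := rfl

theorem sg_bound (hT : Consistent t) (hB : IsTBasis t x) (n : ℕ) :
    ∃ K : ℝ, 0 ≤ K ∧ (∀ v N, ‖Sop hB n N v‖ ≤ K * ‖v‖) ∧ ∀ v, ‖sg hB n v‖ ≤ K * ‖v‖ := by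
  obtain ⟨K, hK⟩ := row_bound hT hB n
  have h1 : ∀ v N, ‖Sop hB n N v‖ ≤ max K 0 * ‖v‖ := fun v N =>
    (hK v N).trans (mul_le_mul_of_nonneg_right (le_max_left _ _) (norm_nonneg _))
  exact ⟨max K 0, le_max_right _ _, h1, fun v =>
    le_of_tendsto (tendsto_Sop hB n v).norm (Eventually.of_forall fun N => h1 v N)⟩

noncomputable def sgL (hT : Consistent t) (hB : IsTBasis t x) (n : ℕ) : E →L[𝕜] E :=
  LinearMap.mkContinuous
    { toFun := sg hB n
      map_add' := sg_add hB n
      map_smul' := fun r v => sg_smul hB n r v }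
    (sg_bound hT hB n).choose (sg_bound hT hB n).choose_spec.2.2

theorem sgL_apply (hT : Consistent t) (hB : IsTBasis t x) (n : ℕ) (v : E) :
    sgL hT hB n v = sg hB n v := rfl

theorem sg_unif (hT : Consistent t) (hB : IsTBasis t x) :
    ∃ S : ℝ, ∀ n v, ‖sg hB n v‖ ≤ S * ‖v‖ := by
  obtain ⟨S, hS⟩ := banach_steinhaus (g := sgL hT hB) fun v => by
    obtain ⟨R, hR⟩ := exists_bound_seq (tendsto_sg hB v)
    exact ⟨R, fun n => hR n⟩
  refine ⟨S, fun n v => ?_⟩
  rw [← sgL_apply hT hB]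
  exact (sgL hT hB n).le_of_opNorm_le (hS n) v

theorem key_bound (hT : Consistent t) (hB : IsTBasis t x) (n : ℕ) :
    ∃ K : ℝ, 0 ≤ K ∧ ∀ N v, ‖sg hB n (sg hB n v) - sg hB n (Sop hB n N v)‖ ≤
      K * tau t n N * ‖v‖ := by
  obtain ⟨K, hK0, hK, -⟩ := sg_bound hT hB n
  refine ⟨5 * K, by positivity, fun N v => ?_⟩
  rw [← sg_sub]
  have hlim : Tendsto (fun M => sg hB n (Sop hB n M v - Sop hB n N v)) atTop
      (𝓝 (sg hB n (sg hB n v - Sop hB n N v))) := by
    have h1 := (tendsto_Sop hB n v).sub_const (Sop hB n N v)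
    exact ((sgL hT hB n).continuous.tendsto _).comp h1
  refine le_of_tendsto hlim.norm ?_
  filter_upwards [eventually_ge_atTop N] with M hM
  rw [sg_Sop_sub hT hB n N M hM v]
  have hd : ∀ j, ‖Sop hB n j v - Sop hB n N v‖ ≤ 2 * K * ‖v‖ := fun j => by
    refine (norm_sub_le _ _).trans ?_
    linarith [hK v j, hK v N]
  have h1 : ‖∑ j ∈ Ico N M, t n j • (Sop hB n j v + (Sop hB n (j + 1) v - Sop hB n N v))‖ ≤
      tau t n N * (3 * K * ‖v‖) := by
    refine (norm_sum_le _ _).trans ?_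
    have h2 : ∑ j ∈ Ico N M, ‖t n j • (Sop hB n j v + (Sop hB n (j + 1) v - Sop hB n N v))‖ ≤
        ∑ j ∈ Ico N M, ‖t n j‖ * (3 * K * ‖v‖) := by
      refine sum_le_sum fun j _ => ?_
      rw [norm_smul]
      refine mul_le_mul_of_nonneg_left ?_ (norm_nonneg _)
      refine (norm_add_le _ _).trans ?_
      linarith [hK v j, hd (j + 1)]
    refine h2.trans ?_
    rw [← sum_mul]
    refine mul_le_mul_of_nonneg_right ?_ (by positivity)
    have h3 : tau t n N - tau t n M = ∑ j ∈ Ico N M, ‖t n j‖ := by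
      unfold tau
      rw [sum_Ico_eq_sub _ hM]; ring
    linarith [tau_nonneg hT n M]
  have h2 : ‖lam t n M • (Sop hB n M v - Sop hB n N v)‖ ≤ tau t n N * (2 * K * ‖v‖) := by
    rw [norm_smul]
    exact mul_le_mul ((norm_lam_le hT n M).trans (tau_anti t n hM)) (hd M) (norm_nonneg _)
      (tau_nonneg hT n N)
  refine (norm_add_le _ _).trans ?_
  have h3 : 5 * K * tau t n N * ‖v‖ = tau t n N * (3 * K * ‖v‖) + tau t n N * (2 * K * ‖v‖) := by
    ring
  rw [h3]
  exact add_le_add h1 h2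

end Pool.Agent.R287.TB
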