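import Pool.Agent.R287.TBc

set_option autoImplicit false

open Filter Topology Finset

namespace Pool.Agent.R287.TB

variable {𝕜 : Type*} [RCLike 𝕜] {E : Type*} [NormedAddCommGroup E] [NormedSpace 𝕜 E]
variable [CompleteSpace E] {t : ℕ → ℕ → 𝕜} {x : ℕ → E}

/-- `(x, f)` is an `M`-basis. -/
def IsMBasis (x : ℕ → E) (f : ℕ → E →L[𝕜] 𝕜) : Prop :=
  (∀ i j, f i (x j) = if i = j then 1 else 0) ∧
  closure (Submodule.span 𝕜 (Set.range x) : Set E) = Set.univ ∧
  ∀ v, (∀ n, f n v = 0) → v = 0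

/-- the multipliers -/
noncomputable def mu (t : ℕ → ℕ → 𝕜) (Nn : ℕ → ℕ) (n i : ℕ) : 𝕜 :=
  lam t n (min i (Nn n)) * (lam t n (min i (Nn n)) - lam t n (Nn n))

theorem mu_eq_zero (Nn : ℕ → ℕ) {n i : ℕ} (h : Nn n ≤ i) : mu t Nn n i = 0 := by
  unfold mu; rw [min_eq_right h, sub_self, mul_zero]

theorem mu_eq (Nn : ℕ → ℕ) {n i : ℕ} (h : i ≤ Nn n) :
    mu t Nn n i = lam t n i * (lam t n i - lam t n (Nn n)) := by
  unfold mu; rw [min_eq_left h]

theorem exists_data (hT : Consistent t) (hB : IsTBasis t x) :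
    ∃ Nn : ℕ → ℕ, (∀ n, n ≤ Nn n) ∧ Tendsto (fun n => lam t n (Nn n)) atTop (𝓝 0) ∧
      ∀ v, Tendsto (fun n => sg hB n (Sop hB n (Nn n) v)) atTop (𝓝 v) := by
  have hk := key_bound hT hB
  choose K hK0 hK using hk
  have h1 : ∀ n : ℕ, ∃ N, n ≤ N ∧ (K n + 1) * tau t n N ≤ 1 / ((n : ℝ) + 1) := by
    intro n
    have h2 := (tendsto_tau hT n).const_mul (K n + 1)
    rw [mul_zero] at h2
    have h3 : ∀ᶠ N in atTop, (K n + 1) * tau t n N < 1 / ((n : ℝ) + 1) :=
      h2.eventually (gt_mem_nhds (by positivity))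
    obtain ⟨N, hN1, hN2⟩ := (h3.and (eventually_ge_atTop n)).exists
    exact ⟨N, hN2, hN1.le⟩
  choose Nn hN1 hN2 using h1
  have h0 : Tendsto (fun n : ℕ => 1 / ((n : ℝ) + 1)) atTop (𝓝 0) :=
    tendsto_one_div_add_atTop_nhds_zero_nat
  refine ⟨Nn, hN1, ?_, fun v => ?_⟩
  · refine squeeze_zero_norm (fun n => ?_) h0
    refine (norm_lam_le hT n (Nn n)).trans ((?_ : _ ≤ _).trans (hN2 n))
    have := tau_nonneg hT n (Nn n)
    nlinarith [hK0 n]
  · obtain ⟨S, hS⟩ := sg_unif hT hB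
    have hv := tendsto_sg hB v
    -- `σ_n² v → v`
    have h2 : Tendsto (fun n => sg hB n (sg hB n v) - v) atTop (𝓝 0) := by
      have h3 : Tendsto (fun n => S * ‖sg hB n v - v‖ + ‖sg hB n v - v‖) atTop (𝓝 0) := by
        have h4 : Tendsto (fun n => ‖sg hB n v - v‖) atTop (𝓝 0) :=
          tendsto_iff_norm_sub_tendsto_zero.1 hv
        have h5 := (h4.const_mul S).add h4
        rwa [mul_zero, zero_add] at h5
      refine squeeze_zero_norm (fun n => ?_) h3
      have h4 : sg hB n (sg hB n v) - v = sg hB n (sg hB n v - v) + (sg hB n v - v) := by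
        rw [sg_sub]; abel
      rw [h4]
      exact (norm_add_le _ _).trans (add_le_add (hS n _) le_rfl)
    have h3 : Tendsto (fun n => sg hB n (sg hB n v) - sg hB n (Sop hB n (Nn n) v)) atTop
        (𝓝 0) := by
      have h4 : Tendsto (fun n : ℕ => 1 / ((n : ℝ) + 1) * ‖v‖) atTop (𝓝 0) := by
        have := h0.mul_const ‖v‖
        rwa [zero_mul] at this
      refine squeeze_zero_norm (fun n => ?_) h4
      refine (hK n (Nn n) v).trans (mul_le_mul_of_nonneg_right ((?_ : _ ≤ _).trans (hN2 n))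
        (norm_nonneg _))
      have := tau_nonneg hT n (Nn n)
      nlinarith [hK0 n]
    have h4 := (h2.sub h3).add_const v
    rw [sub_zero, zero_add] at h4
    refine h4.congr fun n => ?_
    abel

theorem main (hT : Consistent t) (hB : IsTBasis t x) :
    ∃ (f : ℕ → E →L[𝕜] 𝕜) (μ : ℕ → ℕ → 𝕜), IsMBasis x f ∧
      (∀ n, ∃ N, ∀ i, N ≤ i → μ n i = 0) ∧
      (∀ i, Tendsto (fun n => μ n i) atTop (𝓝 1)) ∧
      (∃ C : ℝ, ∀ n, Summable (fun i => ‖μ n i - μ n (i + 1)‖) ∧
        ∑' i, ‖μ n i - μ n (i + 1)‖ ≤ C) ∧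
      ∀ v : E, ∃ τ : ℕ → E,
        (∀ n, Tendsto (fun N => ∑ i ∈ range N, (μ n i * f i v) • x i) atTop (𝓝 (τ n))) ∧
        Tendsto τ atTop (𝓝 v) := by
  obtain ⟨Nn, hN, hlam, hU⟩ := exists_data hT hB
  have hUeq : ∀ n v, sg hB n (Sop hB n (Nn n) v) =
      ∑ i ∈ range (Nn n), (mu t Nn n i * ff hT hB i v) • x i := by
    intro n v
    rw [sg_Sop hT hB]
    refine sum_congr rfl fun i hi => ?_
    rw [mem_range] at hi
    rw [mu_eq Nn hi.le, ff_apply]
  refine ⟨ff hT hB, mu t Nn, ⟨fun i j => ?_, ?_, fun v hv => ?_⟩, fun n => ⟨Nn n, fun i hi =>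
    mu_eq_zero Nn hi⟩, fun i => ?_, ?_, fun v => ⟨fun n => sg hB n (Sop hB n (Nn n) v),
      fun n => ?_, hU v⟩⟩
  · rw [ff_apply, cf_x hT hB, Pi.single_apply]
  · refine Set.eq_univ_of_forall fun v => ?_
    refine mem_closure_of_tendsto (hU v) (Eventually.of_forall fun n => ?_)
    simp only [hUeq]
    exact Submodule.sum_mem _ fun i _ =>
      Submodule.smul_mem _ _ (Submodule.subset_span (Set.mem_range_self i))
  · refine tendsto_nhds_unique (hU v) ?_
    simp only [hUeq, hv, mul_zero, zero_smul, sum_const_zero]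
    exact tendsto_const_nhds
  · have h1 : Tendsto (fun n => lam t n i * (lam t n i - lam t n (Nn n))) atTop (𝓝 1) := by
      have h2 := (tendsto_lam hT i).mul ((tendsto_lam hT i).sub hlam)
      rwa [sub_zero, mul_one] at h2
    refine h1.congr' ?_
    filter_upwards [eventually_ge_atTop i] with n hn
    rw [mu_eq Nn (hn.trans (hN n))]
  · obtain ⟨C, hC0, hC⟩ := tau_le hT
    refine ⟨C * (3 * C), fun n => ?_⟩
    have h0 : ∀ i ∉ range (Nn n), ‖mu t Nn n i - mu t Nn n (i + 1)‖ = 0 := by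
      intro i hi
      rw [mem_range, not_lt] at hi
      rw [mu_eq_zero Nn hi, mu_eq_zero Nn (by omega), sub_zero, norm_zero]
    refine ⟨summable_of_ne_finset_zero h0, ?_⟩
    rw [tsum_eq_sum h0]
    have h1 : ∀ i ∈ range (Nn n), ‖mu t Nn n i - mu t Nn n (i + 1)‖ ≤ ‖t n i‖ * (3 * C) := by
      intro i hi
      rw [mem_range] at hi
      rw [mu_eq Nn hi.le, mu_eq Nn (by omega : i + 1 ≤ Nn n)]
      have h2 : lam t n i * (lam t n i - lam t n (Nn n)) -
          lam t n (i + 1) * (lam t n (i + 1) - lam t n (Nn n)) =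
          t n i * (lam t n i + lam t n (i + 1) - lam t n (Nn n)) := by
        have h3 : t n i = lam t n i - lam t n (i + 1) := by rw [lam_succ]; ring
        rw [h3]; ring
      rw [h2, norm_mul]
      refine mul_le_mul_of_nonneg_left ?_ (norm_nonneg _)
      have h3 : ∀ k, ‖lam t n k‖ ≤ C := fun k => (norm_lam_le hT n k).trans (hC n k)
      refine (norm_sub_le _ _).trans ?_
      refine (add_le_add (norm_add_le _ _) le_rfl).trans ?_
      linarith [h3 i, h3 (i + 1), h3 (Nn n)]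
    refine (sum_le_sum h1).trans ?_
    rw [← sum_mul]
    refine mul_le_mul_of_nonneg_right ?_ (by positivity)
    have h3 : tau t n 0 - tau t n (Nn n) = ∑ j ∈ range (Nn n), ‖t n j‖ := by
      unfold tau
      rw [range_zero, sum_empty]; ring
    rw [← h3]
    linarith [tau_nonneg hT n (Nn n), hC n 0]
  · refine tendsto_const_nhds.congr' ?_
    filter_upwards [eventually_ge_atTop (Nn n)] with N hNN
    rw [hUeq]
    refine sum_subset (range_subset_range.2 hNN) fun i _ hi => ?_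
    rw [mem_range, not_lt] at hi
    rw [mu_eq_zero Nn hi, zero_mul, zero_smul]

end Pool.Agent.R287.TB
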