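import Mathlib

set_option autoImplicit false
open Matrix

namespace Pool.Agent.R287.TTO

variable {n : ℕ}

/-- From the compressed shift model to a Hermitian matrix `X` and a vector `c`. -/
lemma step1 (M T : Matrix (Fin n) (Fin n) ℂ) (k u v : Fin n → ℂ)
    (h1 : 1 - T * Tᴴ = vecMulVec k (star k))
    (h2 : ∀ μ : ℂ, ∀ x : Fin n → ℂ, x ≠ 0 → T *ᵥ x = μ • x → ‖μ‖ < 1)
    (h3 : M - T * M * Tᴴ = vecMulVec u (star k) + vecMulVec k (star v)) :
    ∃ (X : Matrix (Fin n) (Fin n) ℂ) (c a b : Fin n → ℂ), X.IsHermitian ∧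
      X * M - M * X = vecMulVec a (star c) + vecMulVec c b ∧
      ∀ (t : ℝ) (y : Fin n → ℂ), y ≠ 0 → X *ᵥ y = (t : ℂ) • y → star c ⬝ᵥ y ≠ 0 := by
  set Q : Matrix (Fin n) (Fin n) ℂ := 1 - T with hQ
  have hdet : Q.det ≠ 0 := by
    intro h0
    obtain ⟨x, hx, hx0⟩ := Matrix.exists_mulVec_eq_zero_iff.2 h0
    have : T *ᵥ x = (1 : ℂ) • x := by
      rw [hQ, sub_mulVec, one_mulVec, sub_eq_zero] at hx0
      rw [one_smul, ← hx0]
    have := h2 1 x hx this
    simp at this
  set R : Matrix (Fin n) (Fin n) ℂ := Q⁻¹ with hR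
  have hQR : Q * R = 1 := Matrix.mul_nonsing_inv Q (isUnit_iff_ne_zero.2 hdet)
  have hRQ : R * Q = 1 := Matrix.nonsing_inv_mul Q (isUnit_iff_ne_zero.2 hdet)
  have hRQ' : Qᴴ * Rᴴ = 1 := by rw [← conjTranspose_mul, hRQ, conjTranspose_one]
  have hT : T = 1 - Q := by rw [hQ]; abel
  have hTH : Tᴴ = 1 - Qᴴ := by rw [hT, conjTranspose_sub, conjTranspose_one]
  set c := R *ᵥ k with hc
  have hcs : ∀ w : Fin n → ℂ, R * vecMulVec w (star k) * Rᴴ = vecMulVec (R *ᵥ w) (star c) := by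
    intro w
    rw [Matrix.mul_vecMulVec, Matrix.vecMulVec_mul, hc, star_mulVec]
  have hcs' : ∀ w : Fin n → ℂ, R * vecMulVec k (star w) * Rᴴ = vecMulVec c (star (R *ᵥ w)) := by
    intro w
    rw [Matrix.mul_vecMulVec, Matrix.vecMulVec_mul, star_mulVec]
  have E1 : R + Rᴴ - 1 = vecMulVec c (star c) := by
    have e1 : Q + Qᴴ - Q * Qᴴ = vecMulVec k (star k) := by
      rw [← h1, hTH, hT]; noncomm_ring
    have e2 := congrArg (fun Z => R * Z * Rᴴ) e1
    simp only [hcs] at e2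
    rw [← e2]
    calc R + Rᴴ - 1 = R * (Qᴴ * Rᴴ) + (R * Q) * Rᴴ - (R * Q) * (Qᴴ * Rᴴ) := by
          rw [hRQ, hRQ']; simp
      _ = R * (Q + Qᴴ - Q * Qᴴ) * Rᴴ := by noncomm_ring
  have E2 : R * M + M * Rᴴ - M = vecMulVec (R *ᵥ u) (star c) + vecMulVec c (star (R *ᵥ v)) := by
    have e1 : Q * M + M * Qᴴ - Q * M * Qᴴ = vecMulVec u (star k) + vecMulVec k (star v) := by
      rw [← h3, hTH, hT]; noncomm_ring
    have e2 := congrArg (fun Z => R * Z * Rᴴ) e1
    simp only [Matrix.mul_add, Matrix.add_mul, hcs, hcs'] at e2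
    rw [← e2]
    calc R * M + M * Rᴴ - M = R * M * (Qᴴ * Rᴴ) + (R * Q) * M * Rᴴ - (R * Q) * M * (Qᴴ * Rᴴ) := by
          rw [hRQ, hRQ']; simp
      _ = R * (Q * M + M * Qᴴ - Q * M * Qᴴ) * Rᴴ := by noncomm_ring
  set X : Matrix (Fin n) (Fin n) ℂ := Complex.I • (R - Rᴴ) with hX
  have hR1 : Rᴴ = 1 - R + vecMulVec c (star c) := by rw [← E1]; abel
  refine ⟨X, c, Complex.I • ((2 : ℂ) • (R *ᵥ u) - M *ᵥ c),
    Complex.I • ((2 : ℂ) • star (R *ᵥ v) - star c ᵥ* M), ?_, ?_, ?_⟩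
  · rw [Matrix.IsHermitian, hX, conjTranspose_smul, conjTranspose_sub, conjTranspose_conjTranspose]
    simp only [Complex.star_def, Complex.conj_I]
    rw [neg_smul, ← smul_neg, neg_sub]
  · have e3 : Rᴴ * M + M * R = (2 : ℂ) • M - (R * M + M * Rᴴ) + vecMulVec c (star c) * M
        + M * vecMulVec c (star c) := by
      have e4 : R = 1 - Rᴴ + vecMulVec c (star c) := by rw [← E1]; abel
      calc Rᴴ * M + M * R = (1 - R + vecMulVec c (star c)) * M +
            M * (1 - Rᴴ + vecMulVec c (star c)) := by rw [← hR1, ← e4]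
        _ = _ := by rw [two_smul]; noncomm_ring
    have e5 : X * M - M * X = Complex.I • ((R * M + M * Rᴴ) - (Rᴴ * M + M * R)) := by
      rw [hX, smul_mul_assoc, mul_smul_comm, ← smul_sub]
      congr 1
      noncomm_ring
    have e6 : R * M + M * Rᴴ = M + (vecMulVec (R *ᵥ u) (star c) + vecMulVec c (star (R *ᵥ v))) := by
      rw [← E2]; abel
    rw [e5, e3, e6, Matrix.mul_vecMulVec, Matrix.vecMulVec_mul]
    ext i j
    simp only [Matrix.smul_apply, Matrix.add_apply, Matrix.sub_apply, vecMulVec_apply,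
      Pi.smul_apply, Pi.sub_apply, smul_eq_mul]
    ring
  · intro t y hy hXy hcy
    have e7 : vecMulVec c (star c) *ᵥ y = 0 := by
      rw [Matrix.vecMulVec_mulVec, hcy]; simp
    have e8 : R *ᵥ y + Rᴴ *ᵥ y = y := by
      have := congrArg (fun Z => Z *ᵥ y) E1
      simp only [Matrix.sub_mulVec, Matrix.add_mulVec, Matrix.one_mulVec, e7] at this
      exact sub_eq_zero.1 this
    have e9 : Complex.I • (R *ᵥ y - Rᴴ *ᵥ y) = (t : ℂ) • y := by
      rw [← hXy, hX, Matrix.smul_mulVec, Matrix.sub_mulVec]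
    have e10 : R *ᵥ y = ((1 - Complex.I * t) / 2) • y := by
      have h10 : Rᴴ *ᵥ y = y - R *ᵥ y := eq_sub_of_add_eq' e8
      rw [h10] at e9
      ext i
      have := congrFun e9 i
      simp only [Pi.smul_apply, Pi.sub_apply, smul_eq_mul] at this ⊢
      have hI : Complex.I * Complex.I = -1 := Complex.I_mul_I
      linear_combination (-Complex.I / 2) * this + ((R *ᵥ y) i - y i / 2) * hI
    have hne : (1 - Complex.I * t : ℂ) ≠ 0 := by
      intro h
      have := congrArg Complex.re h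
      simp at this
    have e11 : y = ((1 - Complex.I * t) / 2) • (Q *ᵥ y) := by
      have := congrArg (fun z => Q *ᵥ z) e10
      simp only [Matrix.mulVec_mulVec, hQR, Matrix.one_mulVec, Matrix.mulVec_smul] at this
      exact this
    have e12 : T *ᵥ y = (-(1 + Complex.I * t) / (1 - Complex.I * t)) • y := by
      rw [hT, Matrix.sub_mulVec, Matrix.one_mulVec]
      ext i
      have := congrFun e11 i
      simp only [Pi.smul_apply, Pi.sub_apply, smul_eq_mul] at this ⊢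
      field_simp
      linear_combination 2 * this
    have := h2 _ y hy e12
    rw [norm_div, norm_neg] at this
    have e13 : ‖(1 + Complex.I * t : ℂ)‖ = ‖(1 - Complex.I * t : ℂ)‖ := by
      rw [← Complex.norm_conj (1 - Complex.I * t)]
      simp
    rw [e13, div_self (norm_ne_zero_iff.2 hne)] at this
    exact lt_irrefl _ this

end Pool.Agent.R287.TTO
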