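import Pool.Agent.R287.TTOa

set_option autoImplicit false
open Matrix

namespace Pool.Agent.R287.TTO

variable {n : ℕ}

lemma star_dot_mulVec (U : Matrix (Fin n) (Fin n) ℂ) (c z : Fin n → ℂ) :
    star c ⬝ᵥ (U *ᵥ z) = star (Uᴴ *ᵥ c) ⬝ᵥ z := by
  rw [Matrix.star_mulVec, conjTranspose_conjTranspose, Matrix.dotProduct_mulVec]

/-- Diagonalization with a real vector. -/
lemma step2 (X : Matrix (Fin n) (Fin n) ℂ) (hX : X.IsHermitian) (c : Fin n → ℂ)
    (h : ∀ (t : ℝ) (y : Fin n → ℂ), y ≠ 0 → X *ᵥ y = (t : ℂ) • y → star c ⬝ᵥ y ≠ 0) :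
    ∃ (U : Matrix (Fin n) (Fin n) ℂ) (x κ : Fin n → ℝ), Uᴴ * U = 1 ∧ U * Uᴴ = 1 ∧
      Function.Injective x ∧ (∀ i, κ i ≠ 0) ∧
      Uᴴ * X * U = diagonal (fun i => (x i : ℂ)) ∧ Uᴴ *ᵥ c = fun i => (κ i : ℂ) := by
  classical
  set V : Matrix (Fin n) (Fin n) ℂ := (hX.eigenvectorUnitary : Matrix (Fin n) (Fin n) ℂ) with hV
  set x := hX.eigenvalues with hx
  have hV1 : Vᴴ * V = 1 := by
    have := Unitary.coe_star_mul_self hX.eigenvectorUnitary
    rwa [star_eq_conjTranspose] at this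
  have hV2 : V * Vᴴ = 1 := mul_eq_one_comm.1 hV1
  have hVX : Vᴴ * X * V = diagonal (fun i => (x i : ℂ)) := by
    have := hX.conjStarAlgAut_star_eigenvectorUnitary
    rw [Unitary.conjStarAlgAut_star_apply] at this
    rw [← star_eq_conjTranspose]
    exact this
  have hXV : X * V = V * diagonal (fun i => (x i : ℂ)) := by
    rw [← hVX, ← mul_assoc, ← mul_assoc, hV2, one_mul]
  set w := Vᴴ *ᵥ c with hw
  have hVinj : ∀ z : Fin n → ℂ, V *ᵥ z = 0 → z = 0 := by
    intro z hz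
    have := congrArg (fun y => Vᴴ *ᵥ y) hz
    simpa [Matrix.mulVec_mulVec, hV1] using this
  have hw0 : ∀ i, w i ≠ 0 := by
    intro i hi
    refine h (x i) (V *ᵥ Pi.single i 1) ?_ ?_ ?_
    · intro h0
      have := congrFun (hVinj _ h0) i
      simp at this
    · rw [Matrix.mulVec_mulVec, hXV, ← Matrix.mulVec_mulVec, Matrix.diagonal_mulVec_single,
        mul_one, ← Matrix.mulVec_smul, ← Pi.single_smul, smul_eq_mul, mul_one]
    · rw [star_dot_mulVec, ← hw, dotProduct_single, mul_one, Pi.star_apply, hi, star_zero]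
  set d : Fin n → ℂ := fun i => w i / ‖w i‖ with hd
  have hdn : ∀ i, star (d i) * d i = 1 := by
    intro i
    have h1 : (‖w i‖ : ℂ) ≠ 0 := by exact_mod_cast (norm_ne_zero_iff.2 (hw0 i))
    simp only [hd, star_div₀, Complex.star_def, Complex.conj_ofReal]
    rw [div_mul_div_comm, mul_comm ((starRingEnd ℂ) (w i)), Complex.mul_conj, Complex.normSq_eq_norm_sq]
    push_cast
    rw [← sq, div_self (pow_ne_zero 2 h1)]
  have hdw : ∀ i, star (d i) * w i = (‖w i‖ : ℂ) := by
    intro i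
    have h1 : (‖w i‖ : ℂ) ≠ 0 := by exact_mod_cast (norm_ne_zero_iff.2 (hw0 i))
    simp only [hd, star_div₀, Complex.star_def, Complex.conj_ofReal]
    rw [div_mul_eq_mul_div, mul_comm ((starRingEnd ℂ) (w i)), Complex.mul_conj, Complex.normSq_eq_norm_sq]
    push_cast
    rw [sq, mul_div_assoc, div_self h1, mul_one]
  have hDD : (diagonal d)ᴴ * diagonal d = 1 := by
    rw [diagonal_conjTranspose, diagonal_mul_diagonal, ← diagonal_one]
    congr 1
    funext i
    exact hdn i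
  set U := V * diagonal d with hU
  have hU1 : Uᴴ * U = 1 := by
    rw [hU, conjTranspose_mul, mul_assoc, ← mul_assoc Vᴴ, hV1, one_mul, hDD]
  have hU2 : U * Uᴴ = 1 := mul_eq_one_comm.1 hU1
  have hUX : Uᴴ * X * U = diagonal (fun i => (x i : ℂ)) := by
    rw [hU, conjTranspose_mul]
    calc (diagonal d)ᴴ * Vᴴ * X * (V * diagonal d) = (diagonal d)ᴴ * (Vᴴ * X * V) * diagonal d := by
          noncomm_ring
      _ = _ := by
          rw [hVX, diagonal_conjTranspose, diagonal_mul_diagonal, diagonal_mul_diagonal]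
          congr 1
          funext i
          rw [Pi.star_apply, mul_right_comm, hdn i, one_mul]
  have hUc : Uᴴ *ᵥ c = fun i => ((‖w i‖ : ℝ) : ℂ) := by
    rw [hU, conjTranspose_mul, ← Matrix.mulVec_mulVec, ← hw, diagonal_conjTranspose]
    funext i
    rw [mulVec_diagonal, Pi.star_apply, hdw i]
  refine ⟨U, x, fun i => ‖w i‖, hU1, hU2, ?_, fun i => norm_ne_zero_iff.2 (hw0 i), hUX, hUc⟩
  intro i j hij
  by_contra hne
  have hXU : X * U = U * diagonal (fun i => (x i : ℂ)) := by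
    calc X * U = (U * Uᴴ) * X * U := by rw [hU2, one_mul]
      _ = U * (Uᴴ * X * U) := by noncomm_ring
      _ = _ := by rw [hUX]
  set z : Fin n → ℂ := Pi.single i (‖w j‖ : ℂ) - Pi.single j (‖w i‖ : ℂ) with hz
  refine h (x i) (U *ᵥ z) ?_ ?_ ?_
  · intro h0
    have h1 := congrArg (fun y => Uᴴ *ᵥ y) h0
    simp only [Matrix.mulVec_mulVec, hU1, one_mulVec, mulVec_zero] at h1
    have h2 := congrFun h1 i
    rw [hz, Pi.sub_apply, Pi.single_eq_same, Pi.single_eq_of_ne hne, sub_zero, Pi.zero_apply] at h2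
    have h3 : (‖w j‖ : ℂ) ≠ 0 := by exact_mod_cast (norm_ne_zero_iff.2 (hw0 j))
    exact h3 h2
  · rw [Matrix.mulVec_mulVec, hXU, ← Matrix.mulVec_mulVec, ← Matrix.mulVec_smul]
    congr 1
    rw [hz, Matrix.mulVec_sub, Matrix.diagonal_mulVec_single, Matrix.diagonal_mulVec_single, smul_sub,
      ← Pi.single_smul, ← Pi.single_smul, smul_eq_mul, smul_eq_mul, hij]
  · rw [star_dot_mulVec, hUc, hz, dotProduct_sub, dotProduct_single, dotProduct_single]
    simp only [Pi.star_apply, Complex.star_def, Complex.conj_ofReal]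
    ring

end Pool.Agent.R287.TTO
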