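import Pool.Agent.R287.TTOb

set_option autoImplicit false
open Matrix

namespace Pool.Agent.R287.TTO

variable {n : ℕ}

/-- The general solution of `X M - M X = (p(X) c) cᵀ - c (p(X) c)ᵀ`. -/
noncomputable def Psi (X C : Matrix (Fin n) (Fin n) ℂ) (p r : Fin n → ℂ) :
    Matrix (Fin n) (Fin n) ℂ :=
  ∑ j : Fin n, p j • ∑ i ∈ Finset.range (j : ℕ), X ^ i * C * X ^ ((j : ℕ) - 1 - i) +
    ∑ j : Fin n, r j • X ^ (j : ℕ)

lemma Psi_conj (O O' X C : Matrix (Fin n) (Fin n) ℂ) (h : O' * O = 1) (p r : Fin n → ℂ) :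
    O * Psi X C p r * O' = Psi (O * X * O') (O * C * O') p r := by
  have h' : O * O' = 1 := mul_eq_one_comm.1 h
  have hpow : ∀ k : ℕ, (O * X * O') ^ k = O * X ^ k * O' := by
    intro k
    induction k with
    | zero => simp [h']
    | succ k ih =>
      rw [pow_succ, ih, pow_succ]
      calc O * X ^ k * O' * (O * X * O') = O * X ^ k * (O' * O) * X * O' := by noncomm_ring
        _ = _ := by rw [h]; noncomm_ring
  unfold Psi
  rw [Matrix.mul_add, Matrix.add_mul]
  congr 1
  · rw [Finset.mul_sum, Finset.sum_mul]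
    refine Finset.sum_congr rfl fun j _ => ?_
    rw [mul_smul_comm, smul_mul_assoc]
    congr 1
    rw [Finset.mul_sum, Finset.sum_mul]
    refine Finset.sum_congr rfl fun i _ => ?_
    rw [hpow, hpow]
    calc O * (X ^ i * C * X ^ ((j : ℕ) - 1 - i)) * O'
        = O * X ^ i * (1 : Matrix (Fin n) (Fin n) ℂ) * C * (1 : Matrix (Fin n) (Fin n) ℂ)
            * X ^ ((j : ℕ) - 1 - i) * O' := by noncomm_ring
      _ = O * X ^ i * (O' * O) * C * (O' * O) * X ^ ((j : ℕ) - 1 - i) * O' := by rw [h]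
      _ = _ := by noncomm_ring
  · rw [Finset.mul_sum, Finset.sum_mul]
    refine Finset.sum_congr rfl fun j _ => ?_
    rw [hpow, mul_smul_comm, smul_mul_assoc]

lemma exists_interp (x : Fin n → ℂ) (hx : Function.Injective x) (y : Fin n → ℂ) :
    ∃ p : Fin n → ℂ, ∀ i, ∑ j : Fin n, p j * x i ^ (j : ℕ) = y i := by
  classical
  set P := Lagrange.interpolate Finset.univ x y with hP
  refine ⟨fun j => P.coeff j, fun i => ?_⟩
  have h1 : P.eval (x i) = y i :=
    Lagrange.eval_interpolate_at_node y (hx.injOn) (Finset.mem_univ i)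
  have h2 : P.degree < (Finset.univ : Finset (Fin n)).card := Lagrange.degree_interpolate_lt y hx.injOn
  rw [Finset.card_univ, Fintype.card_fin] at h2
  rw [← h1, Polynomial.eval_eq_sum_range' (n := n)]
  · rw [Finset.sum_range]
  · by_cases hP0 : P = 0
    · rw [hP0, Polynomial.natDegree_zero]
      exact lt_of_le_of_lt (Nat.zero_le _) i.2
    · exact (Polynomial.natDegree_lt_iff_degree_lt hP0).2 h2

/-- A solution of the commutation relation with `X` diagonal is of the form `Psi`. -/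
lemma step3 (x κ : Fin n → ℝ) (hx : Function.Injective x) (hκ : ∀ i, κ i ≠ 0)
    (N : Matrix (Fin n) (Fin n) ℂ) (a b : Fin n → ℂ)
    (h : diagonal (fun i => (x i : ℂ)) * N - N * diagonal (fun i => (x i : ℂ)) =
      vecMulVec a (fun i => (κ i : ℂ)) + vecMulVec (fun i => (κ i : ℂ)) b) :
    ∃ p r : Fin n → ℂ, N = Psi (diagonal (fun i => (x i : ℂ)))
      (vecMulVec (fun i => (κ i : ℂ)) (fun i => (κ i : ℂ))) p r := by
  have hκ' : ∀ i, (κ i : ℂ) ≠ 0 := fun i => by exact_mod_cast hκ i
  have hent : ∀ i j, ((x i : ℂ) - x j) * N i j = a i * κ j + κ i * b j := by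
    intro i j
    have := congrFun (congrFun h i) j
    simp only [Matrix.sub_apply, diagonal_mul, mul_diagonal, Matrix.add_apply, vecMulVec_apply] at this
    rw [← this]; ring
  have hb : ∀ i, b i = -a i := by
    intro i
    have := hent i i
    rw [sub_self, zero_mul] at this
    have h1 : (κ i : ℂ) * (a i + b i) = 0 := by rw [mul_add, mul_comm]; exact this.symm
    have h2 := (mul_eq_zero.1 h1).resolve_left (hκ' i)
    exact eq_neg_of_add_eq_zero_right h2
  have hxinj : Function.Injective (fun i => (x i : ℂ)) := fun i j hij => hx (Complex.ofReal_injective hij)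
  obtain ⟨p, hp⟩ := exists_interp (fun i => (x i : ℂ)) hxinj (fun i => a i / κ i)
  set C := vecMulVec (fun i => (κ i : ℂ)) (fun i => (κ i : ℂ)) with hC
  set D := diagonal (fun i => (x i : ℂ)) with hD
  set N1 : Matrix (Fin n) (Fin n) ℂ :=
    ∑ j : Fin n, p j • ∑ i ∈ Finset.range (j : ℕ), D ^ i * C * D ^ ((j : ℕ) - 1 - i) with hN1
  obtain ⟨r, hr⟩ := exists_interp (fun i => (x i : ℂ)) hxinj (fun i => N i i - N1 i i)
  refine ⟨p, r, ?_⟩
  have hpow : ∀ k : ℕ, D ^ k = diagonal (fun i => (x i : ℂ) ^ k) := by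
    intro k
    rw [hD, diagonal_pow]
    rfl
  have hN1e : ∀ s t, N1 s t = κ s * κ t *
      ∑ j : Fin n, p j * ∑ i ∈ Finset.range (j : ℕ), (x s : ℂ) ^ i * (x t : ℂ) ^ ((j : ℕ) - 1 - i) := by
    intro s t
    rw [hN1, Matrix.sum_apply, Finset.mul_sum]
    refine Finset.sum_congr rfl fun j _ => ?_
    rw [Matrix.smul_apply, Matrix.sum_apply, smul_eq_mul, mul_left_comm ((κ s : ℂ) * κ t)]
    congr 1
    rw [Finset.mul_sum]
    refine Finset.sum_congr rfl fun i _ => ?_
    rw [hpow, hpow, mul_diagonal, diagonal_mul, hC, vecMulVec_apply]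
    ring
  have hr' : ∀ s t, (∑ j : Fin n, r j • D ^ (j : ℕ)) s t = if s = t then N s s - N1 s s else 0 := by
    intro s t
    rw [Matrix.sum_apply]
    split_ifs with hst
    · subst hst
      rw [← hr s]
      refine Finset.sum_congr rfl fun j _ => ?_
      rw [Matrix.smul_apply, hpow, diagonal_apply_eq, smul_eq_mul]
    · refine Finset.sum_eq_zero fun j _ => ?_
      rw [Matrix.smul_apply, hpow, diagonal_apply_ne _ hst, smul_zero]
  ext s t
  unfold Psi
  rw [Matrix.add_apply, ← hN1, hr']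
  split_ifs with hst
  · subst hst
    ring
  · rw [add_zero]
    have hne : (x s : ℂ) - x t ≠ 0 := sub_ne_zero.2 fun h => hst (hxinj h)
    apply mul_left_cancel₀ hne
    rw [hent, hb, hN1e]
    have h5 : ((x s : ℂ) - x t) * ∑ j : Fin n, p j *
        ∑ i ∈ Finset.range (j : ℕ), (x s : ℂ) ^ i * (x t : ℂ) ^ ((j : ℕ) - 1 - i) =
        a s / κ s - a t / κ t := by
      rw [← hp s, ← hp t, ← Finset.sum_sub_distrib, Finset.mul_sum]
      refine Finset.sum_congr rfl fun j _ => ?_
      rw [← mul_sub, ← geom_sum₂_mul]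
      ring
    rw [mul_left_comm, h5]
    field_simp [hκ' s, hκ' t]
    ring

end Pool.Agent.R287.TTO
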