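import Pool.Agent.R287.TTOc

set_option autoImplicit false
open Matrix
open scoped ComplexOrder

namespace Pool.Agent.R287.TTO

variable {n : ℕ}

/-- No two nonzero eigenvectors are orthogonal. -/
def NoOrth (M : Matrix (Fin n) (Fin n) ℂ) : Prop :=
  ¬ ∃ x y : Fin n → ℂ, ∃ a b : ℂ, x ≠ 0 ∧ y ≠ 0 ∧
    M *ᵥ x = a • x ∧ M *ᵥ y = b • y ∧ star x ⬝ᵥ y = 0

lemma exists_eigvec (f : Module.End ℂ (Fin n → ℂ)) (W : Submodule ℂ (Fin n → ℂ)) (hW : W ≠ ⊥)
    (h : ∀ w ∈ W, f w ∈ W) : ∃ w ∈ W, w ≠ 0 ∧ ∃ a : ℂ, f w = a • w := by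
  have hnt : Nontrivial W := Submodule.nontrivial_iff_ne_bot.2 hW
  obtain ⟨a, ha⟩ := Module.End.exists_eigenvalue (f.restrict h)
  obtain ⟨w, hw⟩ := ha.exists_hasEigenvector
  refine ⟨w, w.2, fun h0 => hw.2 (Subtype.ext h0), a, ?_⟩
  have := congrArg Subtype.val hw.apply_eq_smul
  simpa using this

lemma scalar_of_comm (hn : 0 < n) (S N : Matrix (Fin n) (Fin n) ℂ) (hS : Sᴴ * S = 1)
    (hc : S * N = N * S) (hN : NoOrth N) : ∃ l : ℂ, star l * l = 1 ∧ S = l • (1 : Matrix _ _ ℂ) := by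
  have : Nonempty (Fin n) := ⟨⟨0, hn⟩⟩
  set f : Module.End ℂ (Fin n → ℂ) := Matrix.toLin' S with hf
  set g : Module.End ℂ (Fin n → ℂ) := Matrix.toLin' N with hg
  have hfg : ∀ w, f (g w) = g (f w) := by
    intro w
    simp only [hf, hg, Matrix.toLin'_apply, Matrix.mulVec_mulVec, hc]
  obtain ⟨l, hl⟩ := Module.End.exists_eigenvalue f
  obtain ⟨v, hv⟩ := hl.exists_hasEigenvector
  have hSv : ∀ v : Fin n → ℂ, star (S *ᵥ v) ⬝ᵥ (S *ᵥ v) = star v ⬝ᵥ v := by
    intro v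
    rw [star_dot_mulVec, Matrix.mulVec_mulVec, hS, one_mulVec]
  have hl1 : star l * l = 1 := by
    have h1 : S *ᵥ v = l • v := by
      have := hv.apply_eq_smul
      rwa [hf, Matrix.toLin'_apply] at this
    have h2 := hSv v
    rw [h1, star_smul, smul_dotProduct, dotProduct_smul, smul_eq_mul, smul_eq_mul, ← mul_assoc] at h2
    have h3 : star v ⬝ᵥ v ≠ 0 := fun h => hv.2 (dotProduct_star_self_eq_zero.1 h)
    exact mul_right_cancel₀ h3 (h2.trans (one_mul _).symm)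
  -- the eigenspace and the range
  by_cases hR : LinearMap.range (f - l • (1 : Module.End ℂ (Fin n → ℂ))) = ⊥
  · refine ⟨l, hl1, ?_⟩
    rw [LinearMap.range_eq_bot] at hR
    have h4 : f = l • (1 : Module.End ℂ (Fin n → ℂ)) := sub_eq_zero.1 hR
    apply Matrix.toLin'.injective
    rw [← hf, h4, map_smul, Matrix.toLin'_one]
    rfl
  · exfalso
    obtain ⟨y, hy, hy0, a, hya⟩ := exists_eigvec g (Module.End.eigenspace f l)
      (fun h => hv.2 (by
        have := hv.1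
        rw [Module.End.eigenspace] at h
        exact (Submodule.mem_bot ℂ).1 (h ▸ this))) (by
        intro w hw
        rw [Module.End.mem_eigenspace_iff] at hw ⊢
        rw [hfg, hw, map_smul])
    obtain ⟨z, hz, hz0, b, hzb⟩ := exists_eigvec g _ hR (by
        rintro w ⟨u, rfl⟩
        refine ⟨g u, ?_⟩
        simp only [LinearMap.sub_apply, LinearMap.smul_apply, Module.End.one_apply, map_sub,
          map_smul, hfg])
    apply hN
    refine ⟨y, z, a, b, hy0, hz0, ?_, ?_, ?_⟩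
    · rwa [hg, Matrix.toLin'_apply] at hya
    · rwa [hg, Matrix.toLin'_apply] at hzb
    · obtain ⟨w, rfl⟩ := hz
      rw [Module.End.mem_eigenspace_iff, hf, Matrix.toLin'_apply] at hy
      have h5 : Sᴴ *ᵥ y = star l • y := by
        have h6 : Sᴴ *ᵥ (S *ᵥ y) = y := by rw [Matrix.mulVec_mulVec, hS, one_mulVec]
        rw [hy, Matrix.mulVec_smul] at h6
        calc Sᴴ *ᵥ y = (star l * l) • (Sᴴ *ᵥ y) := by rw [hl1, one_smul]
          _ = star l • (l • (Sᴴ *ᵥ y)) := by rw [mul_smul]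
          _ = _ := by rw [h6]
      simp only [LinearMap.sub_apply, LinearMap.smul_apply, Module.End.one_apply, hf,
        Matrix.toLin'_apply]
      rw [dotProduct_sub, star_dot_mulVec, h5, star_smul, star_star, smul_dotProduct,
        dotProduct_smul, sub_self]

/-- Reduction to a real orthogonal matrix. -/
lemma step5 (hn : 0 < n) (M N U : Matrix (Fin n) (Fin n) ℂ) (hM : Mᵀ = M) (hN : Nᵀ = N)
    (hU : Uᴴ * U = 1) (hMN : M = U * N * Uᴴ) (hMo : NoOrth M) :
    ∃ (O : Matrix (Fin n) (Fin n) ℂ) (l : ℂ), star l * l = 1 ∧ U = l • O ∧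
      Oᵀ * O = 1 ∧ (∀ i j, star (O i j) = O i j) ∧ M = O * N * Oᵀ := by
  have hU2 : U * Uᴴ = 1 := mul_eq_one_comm.1 hU
  have hNo : NoOrth N := by
    rintro ⟨x, y, a, b, hx, hy, hxa, hyb, hxy⟩
    apply hMo
    have hinj : ∀ z : Fin n → ℂ, z ≠ 0 → U *ᵥ z ≠ 0 := by
      intro z hz h0
      apply hz
      have := congrArg (fun w => Uᴴ *ᵥ w) h0
      simpa [Matrix.mulVec_mulVec, hU] using this
    have hact : ∀ z : Fin n → ℂ, M *ᵥ (U *ᵥ z) = U *ᵥ (N *ᵥ z) := by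
      intro z
      rw [Matrix.mulVec_mulVec, Matrix.mulVec_mulVec, hMN, mul_assoc, hU, mul_one]
    refine ⟨U *ᵥ x, U *ᵥ y, a, b, hinj x hx, hinj y hy, ?_, ?_, ?_⟩
    · rw [hact, hxa, Matrix.mulVec_smul]
    · rw [hact, hyb, Matrix.mulVec_smul]
    · rw [star_dot_mulVec, Matrix.mulVec_mulVec, hU, one_mulVec, hxy]
  set W : Matrix (Fin n) (Fin n) ℂ := (Uᴴ)ᵀ with hW
  have hUW : Uᵀ * W = 1 := by rw [hW, ← transpose_mul, hU, transpose_one]
  have hWU : W * Uᵀ = 1 := mul_eq_one_comm.1 hUW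
  have e1 : U * N * Uᴴ = W * N * Uᵀ := by
    calc U * N * Uᴴ = (U * N * Uᴴ)ᵀ := by rw [← hMN, hM]
      _ = W * N * Uᵀ := by
        rw [transpose_mul, transpose_mul, hN, ← mul_assoc]
  set S := Uᵀ * U with hSd
  have hcomm : S * N = N * S := by
    calc S * N = Uᵀ * (U * N * Uᴴ) * U := by
          rw [hSd]
          calc Uᵀ * U * N = Uᵀ * U * N * (Uᴴ * U) := by rw [hU, mul_one]
            _ = _ := by noncomm_ring
      _ = Uᵀ * (W * N * Uᵀ) * U := by rw [e1]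
      _ = (Uᵀ * W) * N * (Uᵀ * U) := by noncomm_ring
      _ = N * S := by rw [hUW, one_mul]
  have hSS : Sᴴ * S = 1 := by
    have h7 : Uᵀᴴ = W := by
      rw [hW]
      ext i j
      simp [Matrix.conjTranspose_apply]
    rw [hSd, conjTranspose_mul, h7]
    calc Uᴴ * W * (Uᵀ * U) = Uᴴ * (W * Uᵀ) * U := by noncomm_ring
      _ = 1 := by rw [hWU, mul_one, hU]
  obtain ⟨l, hl1, hl⟩ := scalar_of_comm hn S N hSS hcomm hNo
  obtain ⟨m, hm⟩ : ∃ m : ℂ, m ^ 2 = l := IsAlgClosed.exists_pow_nat_eq l (by norm_num)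
  have hmm : star m * m = 1 := by
    have h8 : (star m * m) ^ 2 = 1 := by rw [mul_pow, ← star_pow, hm, hl1]
    have h9 : star m * m = ((‖m‖ ^ 2 : ℝ) : ℂ) := by
      rw [Complex.star_def, mul_comm, Complex.mul_conj, Complex.normSq_eq_norm_sq]
    rw [h9] at h8 ⊢
    have h10 : (‖m‖ ^ 2) ^ 2 = (1 : ℝ) := by exact_mod_cast h8
    have h11 : ‖m‖ ^ 2 = 1 := by
      have : (0 : ℝ) ≤ ‖m‖ ^ 2 := by positivity
      nlinarith
    rw [h11]; simp
  have hm0 : m ≠ 0 := by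
    rintro rfl
    simp at hmm
  set O := star m • U with hO
  have hUO : U = m • O := by
    rw [hO, smul_smul, mul_comm, hmm, one_smul]
  have hOO : Oᵀ * O = 1 := by
    rw [hO, transpose_smul, smul_mul_smul_comm, ← hSd, hl, smul_smul, ← hm]
    have : star m * star m * m ^ 2 = 1 := by
      calc star m * star m * m ^ 2 = (star m * m) * (star m * m) := by ring
        _ = 1 := by rw [hmm, one_mul]
    rw [this, one_smul]
  have hOH : Oᴴ * O = 1 := by
    rw [hO, conjTranspose_smul, smul_mul_smul_comm, hU, star_star, mul_comm, hmm, one_smul]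
  have hOeq : Oᵀ = Oᴴ := by
    have h12 : O * Oᵀ = 1 := mul_eq_one_comm.1 hOO
    calc Oᵀ = (Oᴴ * O) * Oᵀ := by rw [hOH, one_mul]
      _ = Oᴴ * (O * Oᵀ) := by rw [mul_assoc]
      _ = Oᴴ := by rw [h12, mul_one]
  refine ⟨O, m, hmm, hUO, hOO, ?_, ?_⟩
  · intro i j
    have := congrFun (congrFun hOeq j) i
    rw [transpose_apply, conjTranspose_apply] at this
    exact this.symm
  · rw [hOeq, hMN, hUO, conjTranspose_smul, smul_mul_assoc, smul_mul_smul_comm, mul_comm, hmm,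
      one_smul]

end Pool.Agent.R287.TTO
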