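import Pool.Agent.R287.TTOd

set_option autoImplicit false
open Matrix
open scoped ComplexOrder

namespace Pool.Agent.R287.TTO

/-! ### the closed set of matrices with orthogonal eigenvectors -/

section opn

variable {n : ℕ}

/-- The symmetric matrix given by a function on unordered pairs. -/
def symMat {K : Type*} (s : Sym2 (Fin n) → K) : Matrix (Fin n) (Fin n) K :=
  Matrix.of fun i j => s s(i, j)

lemma symMat_transpose {K : Type*} (s : Sym2 (Fin n) → K) : (symMat s)ᵀ = symMat s := by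
  ext i j
  simp [symMat, Sym2.eq_swap]

lemma eig_iff (M : Matrix (Fin n) (Fin n) ℂ) (x : Fin n → ℂ) (hx : x ≠ 0) :
    (∃ a : ℂ, M *ᵥ x = a • x) ↔ ∀ i j, (M *ᵥ x) i * x j = (M *ᵥ x) j * x i := by
  constructor
  · rintro ⟨a, ha⟩ i j
    rw [ha]
    simp only [Pi.smul_apply, smul_eq_mul]
    ring
  · intro h
    obtain ⟨j, hj⟩ := Function.ne_iff.1 hx
    refine ⟨(M *ᵥ x) j / x j, ?_⟩
    funext i
    rw [Pi.smul_apply, smul_eq_mul, div_mul_eq_mul_div, eq_div_iff hj]
    exact h i j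

lemma isClosed_orth : IsClosed {f : Sym2 (Fin n) → ℂ | ¬ NoOrth (symMat f)} := by
  let S : Set (Fin n → ℂ) := Metric.sphere 0 1
  have hS : CompactSpace S := isCompact_iff_compactSpace.1 (isCompact_sphere 0 1)
  let C : Set ((S × S) × (Sym2 (Fin n) → ℂ)) :=
    {q | (∀ i j, (symMat q.2 *ᵥ q.1.1) i * (q.1.1 : Fin n → ℂ) j =
        (symMat q.2 *ᵥ q.1.1) j * (q.1.1 : Fin n → ℂ) i) ∧
      (∀ i j, (symMat q.2 *ᵥ q.1.2) i * (q.1.2 : Fin n → ℂ) j =
        (symMat q.2 *ᵥ q.1.2) j * (q.1.2 : Fin n → ℂ) i) ∧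
      star (q.1.1 : Fin n → ℂ) ⬝ᵥ (q.1.2 : Fin n → ℂ) = 0}
  have hsym : Continuous fun q : (S × S) × (Sym2 (Fin n) → ℂ) => symMat q.2 := by
    refine continuous_matrix fun i j => ?_
    simp only [symMat, Matrix.of_apply]
    exact (continuous_apply _).comp continuous_snd
  have h1 : Continuous fun q : (S × S) × (Sym2 (Fin n) → ℂ) => (q.1.1 : Fin n → ℂ) :=
    continuous_subtype_val.comp (continuous_fst.comp continuous_fst)
  have h2 : Continuous fun q : (S × S) × (Sym2 (Fin n) → ℂ) => (q.1.2 : Fin n → ℂ) :=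
    continuous_subtype_val.comp (continuous_snd.comp continuous_fst)
  have h3 := hsym.matrix_mulVec h1
  have h4 := hsym.matrix_mulVec h2
  have hC : IsClosed C := by
    refine IsClosed.inter ?_ (IsClosed.inter ?_ ?_)
    · have : {q : (S × S) × (Sym2 (Fin n) → ℂ) | ∀ i j, (symMat q.2 *ᵥ q.1.1) i * (q.1.1 : Fin n → ℂ) j =
        (symMat q.2 *ᵥ q.1.1) j * (q.1.1 : Fin n → ℂ) i} =
          ⋂ i, ⋂ j, {q | (symMat q.2 *ᵥ q.1.1) i * (q.1.1 : Fin n → ℂ) j =
        (symMat q.2 *ᵥ q.1.1) j * (q.1.1 : Fin n → ℂ) i} := by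
        ext q; simp
      change IsClosed {q : (S × S) × (Sym2 (Fin n) → ℂ) | ∀ i j, (symMat q.2 *ᵥ q.1.1) i * (q.1.1 : Fin n → ℂ) j =
        (symMat q.2 *ᵥ q.1.1) j * (q.1.1 : Fin n → ℂ) i}
      rw [this]
      refine isClosed_iInter fun i => isClosed_iInter fun j => isClosed_eq ?_ ?_
      · exact ((continuous_apply i).comp h3).mul ((continuous_apply j).comp h1)
      · exact ((continuous_apply j).comp h3).mul ((continuous_apply i).comp h1)
    · have : {q : (S × S) × (Sym2 (Fin n) → ℂ) | ∀ i j, (symMat q.2 *ᵥ q.1.2) i * (q.1.2 : Fin n → ℂ) j =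
        (symMat q.2 *ᵥ q.1.2) j * (q.1.2 : Fin n → ℂ) i} =
          ⋂ i, ⋂ j, {q | (symMat q.2 *ᵥ q.1.2) i * (q.1.2 : Fin n → ℂ) j =
        (symMat q.2 *ᵥ q.1.2) j * (q.1.2 : Fin n → ℂ) i} := by
        ext q; simp
      change IsClosed {q : (S × S) × (Sym2 (Fin n) → ℂ) | ∀ i j, (symMat q.2 *ᵥ q.1.2) i * (q.1.2 : Fin n → ℂ) j =
        (symMat q.2 *ᵥ q.1.2) j * (q.1.2 : Fin n → ℂ) i}
      rw [this]
      refine isClosed_iInter fun i => isClosed_iInter fun j => isClosed_eq ?_ ?_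
      · exact ((continuous_apply i).comp h4).mul ((continuous_apply j).comp h2)
      · exact ((continuous_apply j).comp h4).mul ((continuous_apply i).comp h2)
    · exact isClosed_eq ((continuous_star.comp h1).dotProduct h2) continuous_const
  have himg : {f : Sym2 (Fin n) → ℂ | ¬ NoOrth (symMat f)} = Prod.snd '' C := by
    ext f
    simp only [NoOrth, not_not, Set.mem_image]
    constructor
    · rintro ⟨x, y, a, b, hx, hy, hxa, hyb, hxy⟩
      have hx1 : ‖x‖ ≠ 0 := norm_ne_zero_iff.2 hx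
      have hy1 : ‖y‖ ≠ 0 := norm_ne_zero_iff.2 hy
      refine ⟨((⟨(‖x‖⁻¹ : ℂ) • x, ?_⟩, ⟨(‖y‖⁻¹ : ℂ) • y, ?_⟩), f), ⟨?_, ?_, ?_⟩, rfl⟩
      · rw [mem_sphere_zero_iff_norm, norm_smul, norm_inv, Complex.norm_real, norm_norm,
          inv_mul_cancel₀ hx1]
      · rw [mem_sphere_zero_iff_norm, norm_smul, norm_inv, Complex.norm_real, norm_norm,
          inv_mul_cancel₀ hy1]
      · intro i j
        simp only [Matrix.mulVec_smul, hxa, Pi.smul_apply, smul_eq_mul]
        ring
      · intro i j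
        simp only [Matrix.mulVec_smul, hyb, Pi.smul_apply, smul_eq_mul]
        ring
      · simp only [star_smul, smul_dotProduct, dotProduct_smul, hxy, smul_zero]
    · rintro ⟨⟨⟨⟨x, hx⟩, ⟨y, hy⟩⟩, f'⟩, ⟨hq1, hq2, hq3⟩, rfl⟩
      have hx0 : x ≠ 0 := by
        rintro rfl
        rw [mem_sphere_zero_iff_norm, norm_zero] at hx
        norm_num at hx
      have hy0 : y ≠ 0 := by
        rintro rfl
        rw [mem_sphere_zero_iff_norm, norm_zero] at hy
        norm_num at hy
      obtain ⟨a, ha⟩ := (eig_iff (symMat f') x hx0).2 hq1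
      obtain ⟨b, hb⟩ := (eig_iff (symMat f') y hy0).2 hq2
      exact ⟨x, y, a, b, hx0, hy0, ha, hb, hq3⟩
  rw [himg]
  exact isClosedMap_snd_of_compactSpace C hC

/-- The base point: a real diagonal matrix plus `i` times the all ones matrix. -/
noncomputable def base (n : ℕ) : Sym2 (Fin n) → ℂ :=
  Sym2.lift ⟨fun i j => (if i = j then ((i : ℕ) : ℂ) else 0) + Complex.I, by
    intro i j
    by_cases h : i = j
    · subst h; rfl
    · beta_reduce
      rw [if_neg h, if_neg (Ne.symm h)]⟩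

lemma base_mulVec (x : Fin n → ℂ) (i : Fin n) :
    (symMat (base n) *ᵥ x) i = ((i : ℕ) : ℂ) * x i + Complex.I * ∑ j, x j := by
  have : ∀ i j, symMat (base n) i j = (if i = j then ((i : ℕ) : ℂ) else 0) + Complex.I :=
    fun i j => rfl
  simp only [Matrix.mulVec, dotProduct, this, add_mul, Finset.sum_add_distrib, ite_mul, zero_mul,
    Finset.sum_ite_eq, Finset.mem_univ, if_true, Finset.mul_sum]

lemma base_aux (x : Fin n → ℂ) (hx : x ≠ 0) (a : ℂ) (h : symMat (base n) *ᵥ x = a • x) :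
    ∑ j, x j ≠ 0 := by
  intro h0
  have h1 : ∀ i : Fin n, ((i : ℕ) : ℂ) * x i = a * x i := by
    intro i
    have := congrFun h i
    rw [base_mulVec, h0, mul_zero, add_zero] at this
    exact this
  obtain ⟨i, hi⟩ := Function.ne_iff.1 hx
  rw [Pi.zero_apply] at hi
  have h2 : ((i : ℕ) : ℂ) = a := mul_right_cancel₀ hi (h1 i)
  have h3 : ∀ j, j ≠ i → x j = 0 := by
    intro j hj
    by_contra hxj
    have h4 : ((j : ℕ) : ℂ) = a := mul_right_cancel₀ hxj (h1 j)
    rw [← h2] at h4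
    exact hj (Fin.ext (by exact_mod_cast h4))
  rw [Finset.sum_eq_single i (fun j _ hj => h3 j hj) (by simp)] at h0
  exact hi h0

lemma base_noOrth : NoOrth (symMat (base n)) := by
  rintro ⟨x, y, a, b, hx, hy, hxa, hyb, hxy⟩
  have h1 := base_aux x hx a hxa
  have h2 := base_aux y hy b hyb
  have h3 : star x ⬝ᵥ (symMat (base n) *ᵥ y) - star (symMat (base n) *ᵥ x) ⬝ᵥ y =
      2 * Complex.I * (star (∑ j, x j) * ∑ j, y j) := by
    simp only [dotProduct, base_mulVec, Pi.star_apply, star_add, star_mul', Complex.star_def,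
      Complex.conj_I, map_natCast, mul_add, add_mul, Finset.sum_add_distrib]
    have e1 : ∑ i, (starRingEnd ℂ) (x i) * (Complex.I * ∑ j, y j) =
        Complex.I * ((starRingEnd ℂ) (∑ j, x j) * ∑ j, y j) := by
      generalize ∑ j, y j = S
      rw [map_sum, Finset.sum_mul, Finset.mul_sum]
      exact Finset.sum_congr rfl fun i _ => by ring
    have e2 : ∑ i, -Complex.I * (starRingEnd ℂ) (∑ j, x j) * y i =
        -(Complex.I * ((starRingEnd ℂ) (∑ j, x j) * ∑ j, y j)) := by
      rw [Finset.mul_sum, Finset.mul_sum, ← Finset.sum_neg_distrib]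
      exact Finset.sum_congr rfl fun i _ => by ring
    have e3 : ∑ i : Fin n, (starRingEnd ℂ) (x i) * (((i : ℕ) : ℂ) * y i) =
        ∑ i : Fin n, ((i : ℕ) : ℂ) * (starRingEnd ℂ) (x i) * y i :=
      Finset.sum_congr rfl fun i _ => by ring
    rw [e1, e2, e3]
    ring
  rw [hxa, hyb, star_smul, smul_dotProduct, dotProduct_smul, hxy, smul_zero, smul_zero,
    sub_zero] at h3
  have h4 : (2 : ℂ) * Complex.I ≠ 0 := by simp
  exact mul_ne_zero h4 (mul_ne_zero (star_ne_zero.2 h1) h2) h3.symm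

end opn

/-! ### the parametrization and the dimension count -/

section dims

variable {n : ℕ}

/-- parameter space: a real symmetric matrix, a real vector, and two complex coefficient vectors -/
abbrev Par (n : ℕ) : Type :=
  (Sym2 (Fin n) → ℝ) × (Fin n → ℝ) × (Fin n → ℂ) × (Fin n → ℂ)

noncomputable def Xq (q : Par n) : Matrix (Fin n) (Fin n) ℂ :=
  symMat fun e => ((q.1 e : ℝ) : ℂ)

noncomputable def Cq (q : Par n) : Matrix (Fin n) (Fin n) ℂ :=
  vecMulVec (fun i => ((q.2.1 i : ℝ) : ℂ)) (fun i => ((q.2.1 i : ℝ) : ℂ))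

noncomputable def Phi (q : Par n) : Sym2 (Fin n) → ℂ := fun e =>
  Psi (Xq q) (Cq q) q.2.2.1 q.2.2.2 (Quot.out e).1 (Quot.out e).2

lemma contDiff_X (i j : Fin n) : ContDiff ℝ 1 fun q : Par n => Xq q i j := by
  have : (fun q : Par n => Xq q i j) = fun q => Complex.ofRealCLM (q.1 s(i, j)) := rfl
  rw [this]
  exact Complex.ofRealCLM.contDiff.comp ((contDiff_apply ℝ ℝ _).comp contDiff_fst)

lemma contDiff_C (i j : Fin n) : ContDiff ℝ 1 fun q : Par n => Cq q i j := by
  have h : ∀ i, ContDiff ℝ 1 fun q : Par n => ((q.2.1 i : ℝ) : ℂ) := by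
    intro i
    have : (fun q : Par n => ((q.2.1 i : ℝ) : ℂ)) = fun q => Complex.ofRealCLM (q.2.1 i) := rfl
    rw [this]
    exact Complex.ofRealCLM.contDiff.comp ((contDiff_apply ℝ ℝ _).comp
      (contDiff_fst.comp contDiff_snd))
  exact (h i).mul (h j)

lemma contDiff_mul {A B : Par n → Matrix (Fin n) (Fin n) ℂ}
    (hA : ∀ i j, ContDiff ℝ 1 fun q => A q i j) (hB : ∀ i j, ContDiff ℝ 1 fun q => B q i j)
    (i j : Fin n) : ContDiff ℝ 1 fun q => (A q * B q) i j := by
  simp only [Matrix.mul_apply]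
  exact ContDiff.sum fun k _ => (hA i k).mul (hB k j)

lemma contDiff_pow {A : Par n → Matrix (Fin n) (Fin n) ℂ}
    (hA : ∀ i j, ContDiff ℝ 1 fun q => A q i j) (k : ℕ) :
    ∀ i j : Fin n, ContDiff ℝ 1 fun q => (A q ^ k) i j := by
  induction k with
  | zero =>
    intro i j
    simp only [pow_zero]
    exact contDiff_const
  | succ k ih =>
    intro i j
    simp only [pow_succ]
    exact contDiff_mul ih hA i j

lemma contDiff_Phi : ContDiff ℝ 1 (Phi (n := n)) := by
  rw [contDiff_pi]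
  intro e
  simp only [Phi, Psi, Matrix.add_apply, Matrix.sum_apply, Matrix.smul_apply, smul_eq_mul]
  refine ContDiff.add ?_ ?_
  · refine ContDiff.sum fun j _ => ContDiff.mul ?_ (ContDiff.sum fun i _ => ?_)
    · exact (contDiff_apply ℝ ℂ j).comp (contDiff_fst.comp (contDiff_snd.comp contDiff_snd))
    · exact contDiff_mul (contDiff_mul (contDiff_pow contDiff_X i) contDiff_C)
        (contDiff_pow contDiff_X _) _ _
  · refine ContDiff.sum fun j _ => ContDiff.mul ?_ ?_
    · exact (contDiff_apply ℝ ℂ j).comp (contDiff_snd.comp (contDiff_snd.comp contDiff_snd))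
    · exact contDiff_pow contDiff_X _ _ _

lemma dense_compl : Dense (Set.range (Phi (n := 10)))ᶜ := by
  apply contDiff_Phi.dense_compl_range_of_finrank_lt_finrank
  have h1 : Fintype.card (Sym2 (Fin 10)) = 55 := by
    rw [Sym2.card, Fintype.card_fin]; rfl
  simp only [Module.finrank_prod, Module.finrank_pi_fintype, Module.finrank_self,
    Complex.finrank_real_complex, Finset.sum_const, Finset.card_univ, h1, Fintype.card_fin,
    smul_eq_mul]
  norm_num

lemma symMat_out (f : Sym2 (Fin n) → ℂ) (N : Matrix (Fin n) (Fin n) ℂ) (hN : Nᵀ = N)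
    (h : ∀ e, f e = N (Quot.out e).1 (Quot.out e).2) : symMat f = N := by
  ext i j
  show f s(i, j) = N i j
  rw [h]
  have h2 : s((Quot.out s(i, j)).1, (Quot.out s(i, j)).2) = s(i, j) := Quot.out_eq _
  rcases Sym2.eq_iff.1 h2 with ⟨h3, h4⟩ | ⟨h3, h4⟩
  · rw [h3, h4]
  · rw [h3, h4, ← congrFun (congrFun hN i) j, transpose_apply]

end dims

end Pool.Agent.R287.TTO
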