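import Pool.Agent.R287.TTOe

set_option autoImplicit false
open Matrix
open scoped ComplexOrder

namespace Pool.Agent.R287.TTO

variable {n : ℕ}

lemma Psi_transpose (X C : Matrix (Fin n) (Fin n) ℂ) (hX : Xᵀ = X) (hC : Cᵀ = C) (p r : Fin n → ℂ) :
    (Psi X C p r)ᵀ = Psi X C p r := by
  unfold Psi
  rw [transpose_add, transpose_sum, transpose_sum]
  congr 1
  · refine Finset.sum_congr rfl fun j _ => ?_
    rw [transpose_smul, transpose_sum]
    congr 1
    rw [← Finset.sum_range_reflect]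
    refine Finset.sum_congr rfl fun i hi => ?_
    rw [Finset.mem_range] at hi
    rw [transpose_mul, transpose_mul, transpose_pow, transpose_pow, hX, hC, ← mul_assoc]
    have : (j : ℕ) - 1 - ((j : ℕ) - 1 - i) = i := by omega
    rw [this]
  · refine Finset.sum_congr rfl fun j _ => ?_
    rw [transpose_smul, transpose_pow, hX]

lemma real_of_star {z : ℂ} (h : star z = z) : ((z.re : ℝ) : ℂ) = z := by
  rw [Complex.star_def] at h
  exact (Complex.conj_eq_iff_re.1 h)

/-- A symmetric matrix without orthogonal eigenvectors that satisfies the criterion is in the range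
of the parametrization. -/
lemma mem_range (hn : 0 < n) (M T : Matrix (Fin n) (Fin n) ℂ) (hM : Mᵀ = M) (hMo : NoOrth M)
    (k u v : Fin n → ℂ)
    (h1 : 1 - T * Tᴴ = vecMulVec k (star k))
    (h2 : ∀ μ : ℂ, ∀ x : Fin n → ℂ, x ≠ 0 → T *ᵥ x = μ • x → ‖μ‖ < 1)
    (h3 : M - T * M * Tᴴ = vecMulVec u (star k) + vecMulVec k (star v)) :
    (fun e => M (Quot.out e).1 (Quot.out e).2) ∈ Set.range (Phi (n := n)) := by
  obtain ⟨X, c, a, b, hX, hXM, hc⟩ := step1 M T k u v h1 h2 h3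
  obtain ⟨U, x, κ, hU1, hU2, hx, hκ, hUX, hUc⟩ := step2 X hX c hc
  set D : Matrix (Fin n) (Fin n) ℂ := diagonal (fun i => (x i : ℂ)) with hD
  set κ' : Fin n → ℂ := fun i => (κ i : ℂ) with hκ'
  set N := Uᴴ * M * U with hN
  have hMN : M = U * N * Uᴴ := by
    calc M = (U * Uᴴ) * M * (U * Uᴴ) := by rw [hU2, one_mul, mul_one]
      _ = U * (Uᴴ * M * U) * Uᴴ := by noncomm_ring
  have hrel : D * N - N * D = vecMulVec (Uᴴ *ᵥ a) κ' + vecMulVec κ' (b ᵥ* U) := by
    have e1 : D * N - N * D = Uᴴ * (X * M - M * X) * U := by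
      rw [← hUX, hN]
      calc Uᴴ * X * U * (Uᴴ * M * U) - Uᴴ * M * U * (Uᴴ * X * U)
          = Uᴴ * X * (U * Uᴴ) * M * U - Uᴴ * M * (U * Uᴴ) * X * U := by noncomm_ring
        _ = _ := by rw [hU2]; noncomm_ring
    have e2 : star c ᵥ* U = κ' := by
      have : star (Uᴴ *ᵥ c) = star c ᵥ* U := by
        rw [star_mulVec, conjTranspose_conjTranspose]
      rw [← this, hUc]
      funext i
      simp [hκ']
    rw [e1, hXM, Matrix.mul_add, Matrix.add_mul, Matrix.mul_vecMulVec, Matrix.vecMulVec_mul,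
      Matrix.mul_vecMulVec, Matrix.vecMulVec_mul, e2, hUc]
  obtain ⟨p, r, hpr⟩ := step3 x κ hx hκ N _ _ hrel
  have hDT : Dᵀ = D := diagonal_transpose _
  have hCT : (vecMulVec κ' κ')ᵀ = vecMulVec κ' κ' := by
    ext i j
    rw [transpose_apply, vecMulVec_apply, vecMulVec_apply, mul_comm]
  have hNT : Nᵀ = N := by
    rw [hpr]
    exact Psi_transpose _ _ hDT hCT p r
  obtain ⟨O, l, hl, hUO, hOO, hreal, hMO⟩ := step5 hn M N U hM hNT hU1 hMN hMo
  have hM2 : M = Psi (O * D * Oᵀ) (O * vecMulVec κ' κ' * Oᵀ) p r := by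
    rw [← Psi_conj O Oᵀ _ _ hOO, ← hpr, ← hMO]
  have hODO : (O * D * Oᵀ)ᵀ = O * D * Oᵀ := by
    rw [transpose_mul, transpose_mul, transpose_transpose, hDT, ← mul_assoc]
  have hc' : ∀ i, star ((O *ᵥ κ') i) = (O *ᵥ κ') i := by
    intro i
    simp only [Matrix.mulVec, dotProduct, star_sum, star_mul', hreal, hκ']
    refine Finset.sum_congr rfl fun j _ => ?_
    rw [Complex.star_def, Complex.conj_ofReal]
  have hX' : ∀ i j, star ((O * D * Oᵀ) i j) = (O * D * Oᵀ) i j := by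
    intro i j
    rw [hD, Matrix.mul_apply, star_sum]
    refine Finset.sum_congr rfl fun s _ => ?_
    rw [mul_diagonal, star_mul', star_mul', hreal, transpose_apply, hreal, Complex.star_def,
      Complex.conj_ofReal]
  refine ⟨⟨fun e => ((O * D * Oᵀ) (Quot.out e).1 (Quot.out e).2).re, fun i => ((O *ᵥ κ') i).re,
    p, r⟩, ?_⟩
  funext e
  unfold Phi
  have e3 : Xq (n := n) ⟨fun e => ((O * D * Oᵀ) (Quot.out e).1 (Quot.out e).2).re,
      fun i => ((O *ᵥ κ') i).re, p, r⟩ = O * D * Oᵀ := by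
    apply symMat_out _ _ hODO
    intro e
    exact real_of_star (hX' _ _)
  have e4 : Cq (n := n) ⟨fun e => ((O * D * Oᵀ) (Quot.out e).1 (Quot.out e).2).re,
      fun i => ((O *ᵥ κ') i).re, p, r⟩ = O * vecMulVec κ' κ' * Oᵀ := by
    unfold Cq
    rw [Matrix.mul_vecMulVec, Matrix.vecMulVec_mul, Matrix.vecMul_transpose]
    have : (fun i => ((((O *ᵥ κ') i).re : ℝ) : ℂ)) = O *ᵥ κ' := funext fun i => real_of_star (hc' i)
    simp only [this]
  rw [e3, e4, ← hM2]

/-- There is a complex symmetric `10 × 10` matrix without orthogonal eigenvectors which does not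
satisfy the criterion. -/
theorem exists_counterexample : ∃ M : Matrix (Fin 10) (Fin 10) ℂ, Mᵀ = M ∧ NoOrth M ∧
    ¬ ∃ T : Matrix (Fin 10) (Fin 10) ℂ, ∃ k u v : Fin 10 → ℂ,
        1 - T * Tᴴ = Matrix.vecMulVec k (star k) ∧
        (∀ μ : ℂ, ∀ x : Fin 10 → ℂ, x ≠ 0 → T *ᵥ x = μ • x → ‖μ‖ < 1) ∧
        M - T * M * Tᴴ = Matrix.vecMulVec u (star k) + Matrix.vecMulVec k (star v) := by
  have hopen : IsOpen {f : Sym2 (Fin 10) → ℂ | NoOrth (symMat f)} := by
    have := (isClosed_orth (n := 10)).isOpen_compl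
    have e : {f : Sym2 (Fin 10) → ℂ | ¬ NoOrth (symMat f)}ᶜ =
        {f : Sym2 (Fin 10) → ℂ | NoOrth (symMat f)} := by
      ext f
      simp
    rwa [e] at this
  obtain ⟨f, hf, hf2⟩ := dense_compl.inter_open_nonempty _ hopen ⟨base 10, base_noOrth⟩
  refine ⟨symMat f, symMat_transpose f, hf, ?_⟩
  rintro ⟨T, k, u, v, h1, h2, h3⟩
  apply hf2
  have h4 := mem_range (by norm_num) (symMat f) T (symMat_transpose f) hf k u v h1 h2 h3
  have h5 : (fun e => symMat f (Quot.out e).1 (Quot.out e).2) = f := by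
    funext e
    show f s((Quot.out e).1, (Quot.out e).2) = f e
    congr 1
    exact Quot.out_eq _
  rwa [h5] at h4

end Pool.Agent.R287.TTO
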