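import Mathlib

open Filter Topology
open scoped ENNReal Cardinal

namespace Pool.Agent.R287.UP

universe u v w

section defs

variable (𝕜 : Type) [RCLike 𝕜] {I : Type v} (U : Ultrafilter I) (X : I → Type w)
  [∀ i, NormedAddCommGroup (X i)] [∀ i, NormedSpace 𝕜 (X i)]

/-- The families in `ℓ_∞(I; Xᵢ)` whose norms tend to `0` along `U`. -/
def nullFam : Submodule 𝕜 (lp X ∞) where
  carrier := {x | Tendsto (fun i => ‖x i‖) U (𝓝 0)}
  add_mem' {x y} hx hy := by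
    have h : Tendsto (fun i => ‖x i‖ + ‖y i‖) U (𝓝 0) := by simpa using hx.add hy
    exact squeeze_zero (fun i => norm_nonneg _) (fun i => by
      rw [lp.coeFn_add]; exact norm_add_le _ _) h
  zero_mem' := by
    show Tendsto (fun i => ‖(0 : lp X ∞) i‖) U (𝓝 0)
    simp
  smul_mem' c x hx := by
    have h : Tendsto (fun i => ‖c‖ * ‖x i‖) U (𝓝 0) := by simpa using hx.const_mul ‖c‖
    refine h.congr fun i => ?_
    rw [lp.coeFn_smul, Pi.smul_apply, norm_smul]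

lemma mem_nullFam {x : lp X ∞} : x ∈ nullFam 𝕜 U X ↔ Tendsto (fun i => ‖x i‖) U (𝓝 0) := Iff.rfl

lemma mem_nullFam' {x : lp X ∞} :
    x ∈ nullFam 𝕜 U X ↔ ∀ ε > 0, ∀ᶠ i in U, ‖x i‖ < ε := by
  rw [mem_nullFam, Metric.tendsto_nhds]
  simp only [dist_zero_right, norm_norm]

instance isClosed_nullFam : IsClosed (nullFam 𝕜 U X : Set (lp X ∞)) := by
  rw [← closure_eq_iff_isClosed]
  refine le_antisymm (fun x hx => ?_) subset_closure
  show x ∈ nullFam 𝕜 U X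
  rw [mem_nullFam']
  intro ε hε
  obtain ⟨y, hy, hxy⟩ := Metric.mem_closure_iff.mp hx (ε / 2) (by positivity)
  have hy' := (mem_nullFam' 𝕜 U X).mp hy (ε / 2) (by positivity)
  filter_upwards [hy'] with i hi
  have h1 : ‖(x - y) i‖ ≤ ‖x - y‖ := lp.norm_apply_le_norm (by simp) _ i
  rw [dist_eq_norm] at hxy
  have h2 : x i = (x - y) i + y i := by rw [lp.coeFn_sub]; simp
  calc ‖x i‖ = ‖(x - y) i + y i‖ := by rw [← h2]
    _ ≤ ‖(x - y) i‖ + ‖y i‖ := norm_add_le _ _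
    _ < ε := by linarith

/-- The Banach ultraproduct `[Xᵢ]_U = ℓ_∞(I; Xᵢ) / {x : lim_U ‖xᵢ‖ = 0}`. -/
def UltraProd : Type (max v w) := lp X ∞ ⧸ nullFam 𝕜 U X

noncomputable instance : NormedAddCommGroup (UltraProd 𝕜 U X) :=
  inferInstanceAs (NormedAddCommGroup (lp X ∞ ⧸ nullFam 𝕜 U X))

noncomputable instance : NormedSpace 𝕜 (UltraProd 𝕜 U X) :=
  inferInstanceAs (NormedSpace 𝕜 (lp X ∞ ⧸ nullFam 𝕜 U X))

/-- the quotient map -/
noncomputable def mk : lp X ∞ →ₗ[𝕜] UltraProd 𝕜 U X := (nullFam 𝕜 U X).mkQ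

end defs

section lemmas

variable {𝕜 : Type} [RCLike 𝕜] {I : Type v} {U : Ultrafilter I} {X : I → Type w}
  [∀ i, NormedAddCommGroup (X i)] [∀ i, NormedSpace 𝕜 (X i)]

lemma mk_surjective : Function.Surjective (mk 𝕜 U X) := Submodule.mkQ_surjective _

lemma mk_eq_mk {x y : lp X ∞} : mk 𝕜 U X x = mk 𝕜 U X y ↔ x - y ∈ nullFam 𝕜 U X :=
  Submodule.Quotient.eq _

lemma norm_mk_le (x : lp X ∞) : ‖mk 𝕜 U X x‖ ≤ ‖x‖ := Submodule.Quotient.norm_mk_le _ x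

/-- A family whose norms are eventually below `c` has norm at most `c` in the ultraproduct. -/
lemma norm_mk_le_of_eventually {x : lp X ∞} {c : ℝ} (hc : 0 ≤ c) (h : ∀ᶠ i in U, ‖x i‖ ≤ c) :
    ‖mk 𝕜 U X x‖ ≤ c := by
  classical
  let x' : lp X ∞ := ⟨fun i => if ‖x i‖ ≤ c then x i else 0, memℓp_infty ⟨c, by
    rintro _ ⟨i, rfl⟩
    show ‖if ‖x i‖ ≤ c then x i else 0‖ ≤ c
    split_ifs with hi
    · exact hi
    · simpa using hc⟩⟩
  have h1 : mk 𝕜 U X x = mk 𝕜 U X x' := by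
    rw [mk_eq_mk, mem_nullFam']
    intro ε hε
    filter_upwards [h] with i hi
    have : (x - x') i = 0 := by
      rw [lp.coeFn_sub, Pi.sub_apply]
      show x i - (if ‖x i‖ ≤ c then x i else 0) = 0
      rw [if_pos hi, sub_self]
    rw [this, norm_zero]
    exact hε
  rw [h1]
  refine (norm_mk_le x').trans (lp.norm_le_of_forall_le hc fun i => ?_)
  show ‖if ‖x i‖ ≤ c then x i else 0‖ ≤ c
  split_ifs with hi
  · exact hi
  · simpa using hc

lemma eventually_norm_lt {x : lp X ∞} {c : ℝ} (h : ‖mk 𝕜 U X x‖ < c) : ∀ᶠ i in U, ‖x i‖ < c := by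
  obtain ⟨y, hy, hyn⟩ : ∃ y : lp X ∞, mk 𝕜 U X y = mk 𝕜 U X x ∧
      ‖y‖ < ‖mk 𝕜 U X x‖ + (c - ‖mk 𝕜 U X x‖) :=
    Submodule.Quotient.norm_mk_lt (S := nullFam 𝕜 U X) (mk 𝕜 U X x) (sub_pos.mpr h)
  have hyn' : ‖y‖ < c := by linarith
  have hxy : x - y ∈ nullFam 𝕜 U X := mk_eq_mk.mp hy.symm
  have := (mem_nullFam' 𝕜 U X).mp hxy (c - ‖y‖) (by linarith)
  filter_upwards [this] with i hi
  have h1 : ‖y i‖ ≤ ‖y‖ := lp.norm_apply_le_norm (by simp) _ i
  have h2 : x i = (x - y) i + y i := by rw [lp.coeFn_sub]; simp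
  calc ‖x i‖ = ‖(x - y) i + y i‖ := by rw [← h2]
    _ ≤ ‖(x - y) i‖ + ‖y i‖ := norm_add_le _ _
    _ < c := by linarith

/-- The norm of a class is the limit along `U` of the norms of a representative. -/
lemma tendsto_norm (x : lp X ∞) : Tendsto (fun i => ‖x i‖) U (𝓝 ‖mk 𝕜 U X x‖) := by
  rw [Metric.tendsto_nhds]
  intro ε hε
  have h1 : ∀ᶠ i in U, ‖x i‖ < ‖mk 𝕜 U X x‖ + ε := eventually_norm_lt (by linarith)
  have h2 : ∀ᶠ i in U, ‖mk 𝕜 U X x‖ - ε < ‖x i‖ := by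
    by_contra hcon
    rw [← Ultrafilter.eventually_not] at hcon
    simp only [not_lt] at hcon
    by_cases h0 : 0 ≤ ‖mk 𝕜 U X x‖ - ε
    · have := norm_mk_le_of_eventually (𝕜 := 𝕜) h0 hcon
      linarith
    · obtain ⟨i, hi⟩ := hcon.exists
      have := norm_nonneg (x i)
      linarith
  filter_upwards [h1, h2] with i h1 h2
  rw [Real.dist_eq, abs_lt]
  constructor <;> linarith

end lemmas

end Pool.Agent.R287.UP
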