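import Pool.Agent.R287.UPa

open Filter Topology
open scoped ENNReal Cardinal

namespace Pool.Agent.R287.UP

universe u v w

/-- Every finite-dimensional subspace of `E` lies in a finite-dimensional subspace `G` with an
isomorphism `φ` onto some `ℓ_∞^n` such that `‖φ‖ ‖φ⁻¹‖ ≤ lam`. -/
def IsLInfty (𝕜 : Type) [RCLike 𝕜] (E : Type u) [NormedAddCommGroup E] [NormedSpace 𝕜 E]
    (lam : ℝ) : Prop :=
  ∀ F : Submodule 𝕜 E, FiniteDimensional 𝕜 F →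
    ∃ G : Submodule 𝕜 E, FiniteDimensional 𝕜 G ∧ F ≤ G ∧
      ∃ (n : ℕ) (φ : G ≃L[𝕜] (Fin n → 𝕜)),
        ‖(φ : G →L[𝕜] (Fin n → 𝕜))‖ * ‖(φ.symm : (Fin n → 𝕜) →L[𝕜] G)‖ ≤ lam

section
variable {𝕜 : Type} [RCLike 𝕜]

/-- Operators into a copy of `ℓ_∞^n` extend, with the expected loss of norm. -/
lemma ext_into_G {E : Type w} [NormedAddCommGroup E] [NormedSpace 𝕜 E] {G : Submodule 𝕜 E}
    {n : ℕ} (φ : G ≃L[𝕜] (Fin n → 𝕜)) {Z : Type u} [NormedAddCommGroup Z] [NormedSpace 𝕜 Z]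
    (Y : Submodule 𝕜 Z) (t : Y →L[𝕜] E) :
    ∃ T0 : Z →L[𝕜] G, (∀ y : Y, t y ∈ G → (T0 y : E) = t y) ∧
      ‖T0‖ ≤ (‖(φ : G →L[𝕜] (Fin n → 𝕜))‖ * ‖(φ.symm : (Fin n → 𝕜) →L[𝕜] G)‖) * ‖t‖ := by
  let W : Submodule 𝕜 Y := G.comap (t : Y →ₗ[𝕜] E)
  let f : W →L[𝕜] G := (t.comp W.subtypeL).codRestrict G (fun w => w.2)
  have hf : ∀ w : W, ‖f w‖ ≤ ‖t‖ * ‖w‖ := fun w => t.le_opNorm w
  have hk : ∀ k : Fin n, ∃ h : Z →L[𝕜] 𝕜, (∀ w : W, h (w : Y) = φ (f w) k) ∧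
      ‖h‖ ≤ ‖(φ : G →L[𝕜] (Fin n → 𝕜))‖ * ‖t‖ := by
    intro k
    let fk : W →L[𝕜] 𝕜 := (ContinuousLinearMap.proj (R := 𝕜) (φ := fun _ : Fin n => 𝕜) k).comp
      ((φ : G →L[𝕜] (Fin n → 𝕜)).comp f)
    have hfk : ‖fk‖ ≤ ‖(φ : G →L[𝕜] (Fin n → 𝕜))‖ * ‖t‖ := by
      refine ContinuousLinearMap.opNorm_le_bound _ (by positivity) fun w => ?_
      calc ‖φ (f w) k‖ ≤ ‖φ (f w)‖ := norm_le_pi_norm _ k
        _ ≤ ‖(φ : G →L[𝕜] (Fin n → 𝕜))‖ * ‖f w‖ :=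
          (φ : G →L[𝕜] (Fin n → 𝕜)).le_opNorm (f w)
        _ ≤ ‖(φ : G →L[𝕜] (Fin n → 𝕜))‖ * (‖t‖ * ‖w‖) := by gcongr; exact hf w
        _ = ‖(φ : G →L[𝕜] (Fin n → 𝕜))‖ * ‖t‖ * ‖w‖ := by ring
    obtain ⟨g, hg, hgn⟩ := exists_extension_norm_eq W fk
    obtain ⟨h, hh, hhn⟩ := exists_extension_norm_eq Y g
    refine ⟨h, fun w => ?_, by rw [hhn, hgn]; exact hfk⟩
    rw [hh, hg]
    rfl
  choose h hh hn using hk
  let ψ : Z →L[𝕜] (Fin n → 𝕜) := ContinuousLinearMap.pi h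
  have hψ : ‖ψ‖ ≤ ‖(φ : G →L[𝕜] (Fin n → 𝕜))‖ * ‖t‖ := by
    refine ContinuousLinearMap.opNorm_le_bound _ (by positivity) fun z => ?_
    rw [pi_norm_le_iff_of_nonneg (by positivity)]
    intro k
    exact (h k).le_of_opNorm_le (hn k) z
  refine ⟨(φ.symm : (Fin n → 𝕜) →L[𝕜] G).comp ψ, ?_, ?_⟩
  · intro y hy
    have h1 : ψ y = φ (f ⟨y, hy⟩) := by
      funext k
      exact hh k ⟨y, hy⟩
    show ((φ.symm (ψ y) : G) : E) = t y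
    rw [h1, ContinuousLinearEquiv.symm_apply_apply]
    rfl
  · calc ‖(φ.symm : (Fin n → 𝕜) →L[𝕜] G).comp ψ‖
        ≤ ‖(φ.symm : (Fin n → 𝕜) →L[𝕜] G)‖ * ‖ψ‖ := ContinuousLinearMap.opNorm_comp_le _ _
      _ ≤ ‖(φ.symm : (Fin n → 𝕜) →L[𝕜] G)‖ * (‖(φ : G →L[𝕜] (Fin n → 𝕜))‖ * ‖t‖) := by
        gcongr
      _ = _ := by ring

lemma opNorm_le_of_ball {G : Type u} {H : Type v} [NormedAddCommGroup G] [NormedSpace 𝕜 G]
    [NormedAddCommGroup H] [NormedSpace 𝕜 H] (J : G →L[𝕜] H) {C : ℝ} (hC : 0 ≤ C)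
    (h : ∀ x, ‖x‖ ≤ 1 → ‖J x‖ ≤ C) : ‖J‖ ≤ C := by
  refine ContinuousLinearMap.opNorm_le_bound _ hC fun x => ?_
  by_cases hx : x = 0
  · simp [hx]
  have hx' : ‖x‖ ≠ 0 := norm_ne_zero_iff.mpr hx
  have h1 : ‖((‖x‖ : 𝕜)⁻¹) • x‖ ≤ 1 := by
    rw [norm_smul, norm_inv, RCLike.norm_ofReal, abs_norm, inv_mul_cancel₀ hx']
  have h2 := h _ h1
  rw [map_smul, norm_smul, norm_inv, RCLike.norm_ofReal, abs_norm] at h2
  rw [inv_mul_le_iff₀ (by positivity)] at h2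
  rw [mul_comm]
  exact h2

variable {I : Type v} {U : Ultrafilter I} {X : I → Type w}
  [∀ i, NormedAddCommGroup (X i)] [∀ i, NormedSpace 𝕜 (X i)]

/-- Finite-dimensional subspaces of the ultraproduct are pushed almost isometrically into the
factors. -/
lemma push_down (G : Submodule 𝕜 (UltraProd 𝕜 U X)) [FiniteDimensional 𝕜 G] :
    ∃ J : ∀ i, G →L[𝕜] X i, (∀ δ > 0, ∀ᶠ i in U, ‖J i‖ ≤ 1 + δ) ∧
      ∀ (x : G) (y : lp X ∞), mk 𝕜 U X y = x → ∀ δ > 0, ∀ᶠ i in U, ‖J i x - y i‖ < δ := by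
  obtain ⟨σ, hσ⟩ := LinearMap.exists_rightInverse_of_surjective (mk 𝕜 U X)
    (LinearMap.range_eq_top.mpr mk_surjective)
  let s : G →ₗ[𝕜] lp X ∞ := σ ∘ₗ G.subtype
  have hs : ∀ x : G, mk 𝕜 U X (s x) = x := fun x => LinearMap.congr_fun hσ (x : UltraProd 𝕜 U X)
  let J : ∀ i, G →L[𝕜] X i := fun i =>
    LinearMap.toContinuousLinearMap ((lp.evalCLM 𝕜 X ∞ i : lp X ∞ →ₗ[𝕜] X i) ∘ₗ s)
  have hJ : ∀ i (x : G), J i x = s x i := fun i x => rfl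
  refine ⟨J, ?_, ?_⟩
  · intro δ hδ
    haveI : ProperSpace G := FiniteDimensional.proper 𝕜 G
    set η : ℝ := δ / (2 * (1 + δ)) with hη
    have hη0 : 0 < η := by positivity
    obtain ⟨N, hN1, hN2, hN3⟩ := (isCompact_closedBall (0 : G) 1).finite_cover_balls hη0
    have hev : ∀ x ∈ N, ∀ᶠ i in U, ‖J i x‖ < 1 + δ / 2 := by
      intro x hx
      have hx1 : ‖x‖ ≤ 1 := by simpa using hN1 hx
      have : ‖mk 𝕜 U X (s x)‖ < 1 + δ / 2 := by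
        rw [hs]
        have : ‖(x : UltraProd 𝕜 U X)‖ = ‖x‖ := rfl
        rw [this]
        linarith
      exact eventually_norm_lt this
    have hev' : ∀ᶠ i in U, ∀ x ∈ N, ‖J i x‖ < 1 + δ / 2 :=
      (eventually_all_finite hN2).mpr hev
    filter_upwards [hev'] with i hi
    have hb : ∀ x : G, ‖x‖ ≤ 1 → ‖J i x‖ ≤ (1 + δ / 2) + η * ‖J i‖ := by
      intro x hx
      have hx' : x ∈ Metric.closedBall (0 : G) 1 := by simpa using hx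
      obtain ⟨y, hy, hxy⟩ := Set.mem_iUnion₂.mp (hN3 hx')
      rw [Metric.mem_ball, dist_eq_norm] at hxy
      have h1 : J i x = J i y + J i (x - y) := by rw [map_sub]; abel
      calc ‖J i x‖ = ‖J i y + J i (x - y)‖ := by rw [← h1]
        _ ≤ ‖J i y‖ + ‖J i (x - y)‖ := norm_add_le _ _
        _ ≤ (1 + δ / 2) + ‖J i‖ * ‖x - y‖ := add_le_add (hi y hy).le ((J i).le_opNorm _)
        _ ≤ (1 + δ / 2) + η * ‖J i‖ := by
          have := mul_le_mul_of_nonneg_left hxy.le (norm_nonneg (J i))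
          linarith [mul_comm η ‖J i‖]
    have hC := opNorm_le_of_ball (J i) (by positivity) hb
    have h1η : (1 - η) * (1 + δ) = 1 + δ / 2 := by
      rw [hη]
      field_simp
      ring
    have h1η' : 0 < 1 - η := by
      rw [hη, sub_pos, div_lt_one (by positivity)]
      linarith
    have : (1 - η) * ‖J i‖ ≤ (1 - η) * (1 + δ) := by rw [h1η]; linarith
    exact le_of_mul_le_mul_left this h1η'
  · intro x y hxy δ hδ
    have : ‖mk 𝕜 U X (s x - y)‖ < δ := by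
      rw [map_sub, hs, hxy, sub_self, norm_zero]
      exact hδ
    filter_upwards [eventually_norm_lt this] with i hi
    rw [hJ]
    rw [lp.coeFn_sub] at hi
    exact hi

/-- The local extension property. -/
lemma local_ext {lam : ℝ} (hE : IsLInfty 𝕜 (UltraProd 𝕜 U X) lam) {Z : Type u}
    [NormedAddCommGroup Z] [NormedSpace 𝕜 Z] (Y : Submodule 𝕜 Z) (t : Y →L[𝕜] UltraProd 𝕜 U X)
    (A : Finset Y) (τ : Y → lp X ∞) (hτ : ∀ y, mk 𝕜 U X (τ y) = t y) {δ : ℝ} (hδ : 0 < δ) :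
    ∀ᶠ i in U, ∃ T : Z →L[𝕜] X i, ‖T‖ ≤ (1 + δ) * (lam * ‖t‖) ∧ ∀ y ∈ A, ‖T y - τ y i‖ ≤ δ := by
  classical
  obtain ⟨G, hG, hFG, n, φ, hφ⟩ := hE (Submodule.span 𝕜 ((A.image t : Finset _) : Set _))
    (FiniteDimensional.span_finset 𝕜 _)
  obtain ⟨T0, hT0, hT0n⟩ := ext_into_G φ Y t
  obtain ⟨J, hJ1, hJ2⟩ := push_down G
  have hA : ∀ y ∈ A, t y ∈ G := fun y hy =>
    hFG (Submodule.subset_span (by simpa using ⟨y, y.2, hy, rfl⟩))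
  have hev : ∀ y ∈ A, ∀ᶠ i in U, ‖J i (T0 y) - τ y i‖ < δ := by
    intro y hy
    exact hJ2 (T0 y) (τ y) (by rw [hτ, hT0 y (hA y hy)]) δ hδ
  have hev' : ∀ᶠ i in U, ∀ y ∈ A, ‖J i (T0 y) - τ y i‖ < δ :=
    (Finset.eventually_all A).mpr hev
  filter_upwards [hev', hJ1 δ hδ] with i hi1 hi2
  refine ⟨(J i).comp T0, ?_, fun y hy => (hi1 y hy).le⟩
  calc ‖(J i).comp T0‖ ≤ ‖J i‖ * ‖T0‖ := ContinuousLinearMap.opNorm_comp_le _ _
    _ ≤ (1 + δ) * (lam * ‖t‖) := by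
      refine mul_le_mul hi2 (hT0n.trans ?_) (norm_nonneg _) (by positivity)
      exact mul_le_mul_of_nonneg_right hφ (norm_nonneg _)

end

end Pool.Agent.R287.UP
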