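import Pool.Agent.R287.UPb

open Filter Topology
open scoped ENNReal Cardinal

namespace Pool.Agent.R287.UP

universe u v w

/-- `U` is countably incomplete: there are `J₀ ⊇ J₁ ⊇ …` in `U` with empty intersection. -/
def CountablyIncomplete {I : Type v} (U : Ultrafilter I) : Prop :=
  ∃ J : ℕ → Set I, (∀ n, J n ∈ U) ∧ Antitone J ∧ ⋂ n, J n = ∅

open Classical in
/-- `U` is `κ`-good: for every set `S` with `|S| < κ`, every order-reversing map from the finite
subsets of `S` to `U` dominates a map `g` to `U` with `g (A ∪ B) = g A ∩ g B`. -/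
def IsGood {I : Type v} (U : Ultrafilter I) (κ : Cardinal.{u}) : Prop :=
  ∀ S : Type u, #S < κ → ∀ f : Finset S → Set I, (∀ A, f A ∈ U) → (∀ A B, A ⊆ B → f B ⊆ f A) →
    ∃ g : Finset S → Set I, (∀ A, g A ∈ U) ∧ (∀ A B, g (A ∪ B) = g A ∩ g B) ∧ ∀ A, g A ⊆ f A

open Classical in
lemma good_choice {I : Type v} {U : Ultrafilter I} {κ : Cardinal.{u}} {S : Type u}
    (hS : #S < κ) (hI : CountablyIncomplete U) (hg : IsGood U κ) (Q : Finset S → Set I)
    (hQ : ∀ A, Q A ∈ U) (hanti : ∀ A B, A ⊆ B → Q B ⊆ Q A) :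
    ∃ a : I → Finset S, ∀ B, ∀ᶠ i in U, B ⊆ a i ∧ i ∈ Q (a i) := by
  obtain ⟨J, hJ, hJanti, hJempty⟩ := hI
  obtain ⟨g, hgU, hgm, hgf⟩ := hg S hS (fun A => Q A ∩ J A.card)
    (fun A => inter_mem (hQ A) (hJ _))
    (fun A B hAB => Set.inter_subset_inter (hanti A B hAB) (hJanti (Finset.card_le_card hAB)))
  have hmax : ∀ i, (∃ A, i ∈ g A) → ∃ A, i ∈ g A ∧ ∀ B, i ∈ g B → B.card ≤ A.card := by
    intro i ⟨A0, hA0⟩
    have hi : ∃ N, i ∉ J N := by
      by_contra hcon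
      push Not at hcon
      have : i ∈ ⋂ n, J n := Set.mem_iInter.mpr hcon
      rw [hJempty] at this
      exact this
    obtain ⟨N, hN⟩ := hi
    let P : Set ℕ := {n | ∃ A, i ∈ g A ∧ A.card = n}
    have hPne : P.Nonempty := ⟨_, A0, hA0, rfl⟩
    have hPbdd : BddAbove P := by
      refine ⟨N, ?_⟩
      rintro n ⟨A, hA, rfl⟩
      by_contra hlt
      exact hN (hJanti (not_le.mp hlt).le (hgf A hA).2)
    obtain ⟨A, hA, hAc⟩ := Nat.sSup_mem hPne hPbdd
    refine ⟨A, hA, fun B hB => ?_⟩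
    rw [hAc]
    exact le_csSup hPbdd ⟨B, hB, rfl⟩
  choose! a ha using hmax
  refine ⟨a, fun B => ?_⟩
  filter_upwards [hgU B] with i hi
  obtain ⟨h1, h2⟩ := ha i ⟨B, hi⟩
  refine ⟨?_, (hgf _ h1).1⟩
  have h3 : i ∈ g (a i ∪ B) := by rw [hgm]; exact ⟨h1, hi⟩
  have h4 := Finset.eq_of_subset_of_card_le Finset.subset_union_left (h2 _ h3)
  rw [h4]
  exact Finset.subset_union_right

/-- `E` is universally `(lam, κ)`-injective: every operator into `E` from a closed subspace `Y`,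
of density less than `κ`, of a Banach space `Z`, extends to `Z` with norm at most `lam` times the
norm of the given operator. -/
def UnivInjective (𝕜 : Type) [RCLike 𝕜] (κ : Cardinal.{u}) (lam : ℝ) (E : Type w)
    [NormedAddCommGroup E] [NormedSpace 𝕜 E] : Prop :=
  ∀ (Z : Type u) [NormedAddCommGroup Z] [NormedSpace 𝕜 Z] [CompleteSpace Z]
    (Y : Submodule 𝕜 Z), IsClosed (Y : Set Z) → (∃ S : Set Y, Dense S ∧ #S < κ) →
    ∀ t : Y →L[𝕜] E, ∃ T : Z →L[𝕜] E, (∀ y : Y, T y = t y) ∧ ‖T‖ ≤ lam * ‖t‖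

section
variable {𝕜 : Type} [RCLike 𝕜] {I : Type v} {U : Ultrafilter I} {X : I → Type w}
  [∀ i, NormedAddCommGroup (X i)] [∀ i, NormedSpace 𝕜 (X i)]

lemma subsingleton_of_finite_dense {Y : Type u} [NormedAddCommGroup Y] [NormedSpace 𝕜 Y]
    {S : Set Y} (hd : Dense S) (hf : S.Finite) (y : Y) : y = 0 := by
  have h1 : S = Set.univ := by rw [← hd.closure_eq, hf.isClosed.closure_eq]
  have h2 : Finite Y := Set.finite_univ_iff.mp (h1 ▸ hf)
  by_contra hy
  have hinj : Function.Injective (fun n : ℕ => (n : 𝕜) • y) := by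
    intro m n hmn
    have := smul_left_injective 𝕜 hy hmn
    exact_mod_cast this
  haveI := Infinite.of_injective _ hinj
  exact not_finite Y

lemma exists_ext (κ : Cardinal.{u}) (hI : CountablyIncomplete U) (hg : IsGood U κ) {lam : ℝ}
    (hlam : 0 ≤ lam) (hE : ∀ lam' > lam, IsLInfty 𝕜 (UltraProd 𝕜 U X) lam') {Z : Type u}
    [NormedAddCommGroup Z] [NormedSpace 𝕜 Z] (Y : Submodule 𝕜 Z) {S : Set Y} (hSd : Dense S)
    (hS : #S < κ) (t : Y →L[𝕜] UltraProd 𝕜 U X) :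
    ∃ T : Z →L[𝕜] UltraProd 𝕜 U X, (∀ y : Y, T y = t y) ∧ ‖T‖ ≤ lam * ‖t‖ := by
  classical
  by_cases hfin : S.Finite
  · refine ⟨0, fun y => ?_, ?_⟩
    · have := subsingleton_of_finite_dense (𝕜 := 𝕜) hSd hfin y
      rw [this]; simp
    · rw [norm_zero]; positivity
  haveI : Infinite S := Set.infinite_coe_iff.mpr hfin
  choose τ hτ using fun y : Y => mk_surjective (𝕜 := 𝕜) (U := U) (X := X) (t y)
  let Q : Finset S → Set I := fun A => {i | ∃ T : Z →L[𝕜] X i,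
    ‖T‖ ≤ lam * ‖t‖ + 1 / ((A.card : ℝ) + 1) ∧
      ∀ y ∈ A, ‖T (y : Y) - τ y i‖ ≤ 1 / ((A.card : ℝ) + 1)}
  have hQ : ∀ A, Q A ∈ U := by
    intro A
    set ε : ℝ := 1 / ((A.card : ℝ) + 1) with hε
    have hε0 : 0 < ε := by positivity
    have hε1 : ε ≤ 1 := by
      rw [hε, div_le_one (by positivity)]
      linarith [Nat.cast_nonneg (α := ℝ) A.card]
    set D : ℝ := (lam + 2) * ‖t‖ + 1 with hD
    have hD1 : 1 ≤ D := by
      have : 0 ≤ (lam + 2) * ‖t‖ := by positivity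
      linarith
    set δ : ℝ := ε / D with hδ
    have hδ0 : 0 < δ := by positivity
    have hδε : δ ≤ ε := div_le_self hε0.le hD1
    have hloc := local_ext (hE (lam + δ) (by linarith)) Y t (A.image (Subtype.val : S → Y)) τ hτ hδ0
    refine Filter.mem_of_superset hloc ?_
    rintro i ⟨T, hT1, hT2⟩
    refine ⟨T, hT1.trans ?_, fun y hy => (hT2 y (Finset.mem_image_of_mem _ hy)).trans hδε⟩
    have h1 : (1 + δ) * ((lam + δ) * ‖t‖) = lam * ‖t‖ + δ * ((lam + 1 + δ) * ‖t‖) := by ring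
    have h2 : δ * ((lam + 1 + δ) * ‖t‖) ≤ δ * D := by
      apply mul_le_mul_of_nonneg_left _ hδ0.le
      rw [hD]
      have : (lam + 1 + δ) * ‖t‖ ≤ (lam + 2) * ‖t‖ := by
        apply mul_le_mul_of_nonneg_right _ (norm_nonneg _)
        linarith
      linarith
    have h3 : δ * D = ε := div_mul_cancel₀ _ (by positivity)
    rw [h1]
    linarith
  have hanti : ∀ A B, A ⊆ B → Q B ⊆ Q A := by
    intro A B hAB i hi
    obtain ⟨T, hT1, hT2⟩ := hi
    have hle : 1 / ((B.card : ℝ) + 1) ≤ 1 / ((A.card : ℝ) + 1) := by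
      apply one_div_le_one_div_of_le (by positivity)
      have : (A.card : ℝ) ≤ B.card := by exact_mod_cast Finset.card_le_card hAB
      linarith
    exact ⟨T, hT1.trans (by linarith), fun y hy => (hT2 y (hAB hy)).trans hle⟩
  obtain ⟨a, ha⟩ := good_choice hS hI hg Q hQ hanti
  -- the operators on the factors
  have hex : ∀ i, ∃ T : Z →L[𝕜] X i, ‖T‖ ≤ lam * ‖t‖ + 1 ∧ (i ∈ Q (a i) →
      ‖T‖ ≤ lam * ‖t‖ + 1 / (((a i).card : ℝ) + 1) ∧
      ∀ y ∈ a i, ‖T (y : Y) - τ y i‖ ≤ 1 / (((a i).card : ℝ) + 1)) := by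
    intro i
    by_cases hi : i ∈ Q (a i)
    · obtain ⟨T, hT1, hT2⟩ := hi
      refine ⟨T, hT1.trans ?_, fun _ => ⟨hT1, hT2⟩⟩
      have : 1 / (((a i).card : ℝ) + 1) ≤ 1 := by
        rw [div_le_one (by positivity)]
        linarith [Nat.cast_nonneg (α := ℝ) (a i).card]
      linarith
    · refine ⟨0, ?_, fun h => absurd h hi⟩
      rw [norm_zero]
      positivity
  choose R hR1 hR2 using hex
  let L : Z →ₗ[𝕜] lp X ∞ :=
    { toFun := fun z => ⟨fun i => R i z, memℓp_infty ⟨(lam * ‖t‖ + 1) * ‖z‖, by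
        rintro _ ⟨i, rfl⟩
        exact (R i).le_of_opNorm_le (hR1 i) z⟩⟩
      map_add' := fun x y => by
        ext i
        exact map_add (R i) x y
      map_smul' := fun c x => by
        ext i
        exact map_smul (R i) c x }
  have hL : ∀ z i, L z i = R i z := fun z i => rfl
  have hcard : ∀ n : ℕ, ∀ B : Finset S, ∀ᶠ i in U, B ⊆ a i ∧ i ∈ Q (a i) ∧
      1 / (((a i).card : ℝ) + 1) ≤ 1 / ((n : ℝ) + 1) := by
    intro n B
    obtain ⟨B', hB', hB'c⟩ := Infinite.exists_superset_card_eq B (max B.card n) (le_max_left _ _)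
    filter_upwards [ha B'] with i hi
    refine ⟨hB'.trans hi.1, hi.2, ?_⟩
    apply one_div_le_one_div_of_le (by positivity)
    have h1 : n ≤ (a i).card := (le_max_right _ _).trans (hB'c ▸ Finset.card_le_card hi.1)
    have : (n : ℝ) ≤ (a i).card := by exact_mod_cast h1
    linarith
  have hbound : ∀ z, ‖mk 𝕜 U X (L z)‖ ≤ lam * ‖t‖ * ‖z‖ := by
    intro z
    have h1 : ∀ n : ℕ, ‖mk 𝕜 U X (L z)‖ ≤ (lam * ‖t‖ + 1 / ((n : ℝ) + 1)) * ‖z‖ := by
      intro n
      refine norm_mk_le_of_eventually (by positivity) ?_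
      filter_upwards [hcard n ∅] with i hi
      rw [hL]
      refine ((R i).le_of_opNorm_le (hR2 i hi.2.1).1 z).trans ?_
      apply mul_le_mul_of_nonneg_right _ (norm_nonneg _)
      linarith [hi.2.2]
    have h2 : Tendsto (fun n : ℕ => (lam * ‖t‖ + 1 / ((n : ℝ) + 1)) * ‖z‖) atTop
        (𝓝 ((lam * ‖t‖ + 0) * ‖z‖)) :=
      (tendsto_const_nhds.add tendsto_one_div_add_atTop_nhds_zero_nat).mul_const _
    rw [add_zero] at h2
    exact ge_of_tendsto' h2 h1
  let T : Z →L[𝕜] UltraProd 𝕜 U X := LinearMap.mkContinuous ((mk 𝕜 U X) ∘ₗ L) (lam * ‖t‖) hbound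
  have hT : ∀ z, T z = mk 𝕜 U X (L z) := fun z => rfl
  refine ⟨T, ?_, LinearMap.mkContinuous_norm_le _ (by positivity) _⟩
  have hdense : ∀ y ∈ S, T y = t y := by
    intro y hy
    rw [hT, ← hτ y, mk_eq_mk, mem_nullFam']
    intro ε hε
    obtain ⟨n, hn⟩ := exists_nat_one_div_lt hε
    filter_upwards [hcard n {⟨y, hy⟩}] with i hi
    have h1 := (hR2 i hi.2.1).2 ⟨y, hy⟩ (hi.1 (Finset.mem_singleton_self _))
    rw [lp.coeFn_sub, Pi.sub_apply, hL]
    calc ‖R i y - τ y i‖ ≤ 1 / (((a i).card : ℝ) + 1) := h1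
      _ ≤ 1 / ((n : ℝ) + 1) := hi.2.2
      _ < ε := hn
  have hcont : Continuous fun y : Y => T y := T.continuous.comp continuous_subtype_val
  have := hcont.ext_on hSd t.continuous hdense
  exact fun y => congrFun this y

/-- **Main theorem.** Over a countably incomplete `κ`-good ultrafilter, an ultraproduct which is an
`ℒ_{∞,lam'}`-space for every `lam' > lam` is universally `(lam, κ)`-injective. -/
theorem univInjective_of_isLInfty (κ : Cardinal.{u}) (hI : CountablyIncomplete U)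
    (hg : IsGood U κ) {lam : ℝ} (hlam : 0 ≤ lam)
    (hE : ∀ lam' > lam, IsLInfty 𝕜 (UltraProd 𝕜 U X) lam') :
    UnivInjective 𝕜 κ lam (UltraProd 𝕜 U X) := by
  intro Z _ _ _ Y _ ⟨S, hSd, hS⟩ t
  exact exists_ext κ hI hg hlam hE Y hSd hS t

end

end Pool.Agent.R287.UP
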