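import Pool.Agent.R287.UPc

open Filter Topology
open scoped ENNReal Cardinal

namespace Pool.Agent.R287.UP

universe u v w

/-- `E` is a Lindenstrauss space: it is an `ℒ_{∞,lam}`-space for every `lam > 1`. -/
def IsLindenstrauss (E : Type w) [NormedAddCommGroup E] [NormedSpace ℝ E] : Prop :=
  ∀ lam > 1, IsLInfty ℝ E lam

/-- `E` is `κ`-injective: every operator into `E` from a closed subspace `Y` of a Banach space `Z`
of density less than `κ` extends to `Z`. -/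
def AlephInjective (𝕜 : Type) [RCLike 𝕜] (κ : Cardinal.{u}) (E : Type w)
    [NormedAddCommGroup E] [NormedSpace 𝕜 E] : Prop :=
  ∀ (Z : Type u) [NormedAddCommGroup Z] [NormedSpace 𝕜 Z] [CompleteSpace Z],
    (∃ S : Set Z, Dense S ∧ #S < κ) → ∀ Y : Submodule 𝕜 Z, IsClosed (Y : Set Z) →
      ∀ t : Y →L[𝕜] E, ∃ T : Z →L[𝕜] E, ∀ y : Y, T y = t y

lemma dens_subset {Z : Type u} [MetricSpace Z] {κ : Cardinal.{u}} (hκ : ℵ₀ ≤ κ)
    (h : ∃ S : Set Z, Dense S ∧ #S < κ) (Y : Set Z) : ∃ D : Set Y, Dense D ∧ #D < κ := by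
  classical
  obtain ⟨S, hSd, hS⟩ := h
  by_cases hfin : S.Finite
  · have h1 : S = Set.univ := by rw [← hSd.closure_eq, hfin.isClosed.closure_eq]
    refine ⟨Set.univ, dense_univ, ?_⟩
    have h2 : #(Set.univ : Set Y) = #Y := Cardinal.mk_univ
    have h3 : #Y ≤ #Z := Cardinal.mk_set_le Y
    have h4 : #S = #Z := by rw [h1]; exact Cardinal.mk_univ
    rw [h2]
    exact h3.trans_lt (h4 ▸ hS)
  have hinf : ℵ₀ ≤ #S := Cardinal.infinite_iff.mp (Set.infinite_coe_iff.mpr hfin)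
  let P : S × ℕ → Prop := fun p => ∃ y : Y, dist (y : Z) p.1 < 1 / ((p.2 : ℝ) + 1)
  choose f hf using fun p : {p : S × ℕ // P p} => p.2
  refine ⟨Set.range f, ?_, ?_⟩
  · intro y
    rw [Metric.mem_closure_iff]
    intro ε hε
    obtain ⟨n, hn⟩ := exists_nat_one_div_lt (half_pos hε)
    obtain ⟨s, hs, hsy⟩ := Metric.mem_closure_iff.mp (hSd (y : Z)) (1 / ((n : ℝ) + 1))
      (by positivity)
    have hP : P (⟨s, hs⟩, n) := ⟨y, hsy⟩
    refine ⟨f ⟨_, hP⟩, ⟨_, rfl⟩, ?_⟩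
    have h1 := hf ⟨_, hP⟩
    simp only at h1
    calc dist y (f ⟨_, hP⟩) = dist (y : Z) (f ⟨_, hP⟩ : Z) := rfl
      _ ≤ dist (y : Z) s + dist s (f ⟨_, hP⟩ : Z) := dist_triangle _ _ _
      _ < ε := by rw [dist_comm s]; linarith
  · have h1 : #(Set.range f) ≤ #{p : S × ℕ // P p} := Cardinal.mk_range_le
    have h2 : #{p : S × ℕ // P p} ≤ #(S × ℕ) := Cardinal.mk_subtype_le _
    have h3 : #(S × ℕ) = #S := by
      rw [Cardinal.mk_prod, Cardinal.mk_nat]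
      simp only [Cardinal.lift_uzero, Cardinal.lift_aleph0]
      exact Cardinal.mul_aleph0_eq hinf
    exact (h1.trans h2).trans_lt (h3 ▸ hS)

section
variable {𝕜 : Type} [RCLike 𝕜] {I : Type v} {U : Ultrafilter I} {X : I → Type w}
  [∀ i, NormedAddCommGroup (X i)] [∀ i, NormedSpace 𝕜 (X i)]

lemma IsLInfty.mono {E : Type w} [NormedAddCommGroup E] [NormedSpace 𝕜 E] {a b : ℝ}
    (h : IsLInfty 𝕜 E a) (hab : a ≤ b) : IsLInfty 𝕜 E b := by
  intro F hF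
  obtain ⟨G, h1, h2, n, φ, h3⟩ := h F hF
  exact ⟨G, h1, h2, n, φ, h3.trans hab⟩

theorem univInjective_of_LInfty {κ : Cardinal.{u}} (hI : CountablyIncomplete U)
    (hg : IsGood U κ) (hE : ∃ lam, IsLInfty 𝕜 (UltraProd 𝕜 U X) lam) :
    ∃ lam, UnivInjective 𝕜 κ lam (UltraProd 𝕜 U X) := by
  obtain ⟨lam, hlam⟩ := hE
  refine ⟨max lam 0, univInjective_of_isLInfty κ hI hg (le_max_right _ _) fun lam' h => ?_⟩
  exact hlam.mono ((le_max_left _ _).trans h.le)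

theorem alephInjective_of_univ {κ : Cardinal.{u}} (hκ : ℵ₀ ≤ κ) {E : Type w}
    [NormedAddCommGroup E] [NormedSpace 𝕜 E] {lam : ℝ}
    (h : UnivInjective 𝕜 κ lam E) : AlephInjective 𝕜 κ E := by
  intro Z _ _ _ hZ Y hY t
  obtain ⟨T, hT, -⟩ := h Z Y hY (dens_subset hκ hZ (Y : Set Z)) t
  exact ⟨T, hT⟩

end

end Pool.Agent.R287.UP
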